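import Pool.Agent.H100R2.SC.Defs

/-! Task A1: from the frozen hypotheses to `Fuchs` (helper155). -/

set_option autoImplicit false

namespace Pool.Agent.H100R2.SC

open Matrix

lemma a1_coe (γ : SpecialLinearGroup (Fin 2) ℝ) :
    ((SpecialLinearGroup.toGL γ : GG) : Matrix (Fin 2) (Fin 2) ℝ) =
      (γ : Matrix (Fin 2) (Fin 2) ℝ) := rfl

lemma a1_bound {M δ ε a b x y : ℝ} (hM : 0 ≤ M) (hδ : δ * (2 * M + 1) = ε) (hδ0 : 0 < δ)
    (ha : |a| ≤ M) (hb : |b| ≤ M) (hx : |x| < δ) (hy : |y| < δ) : |a * x + b * y| < ε := by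
  have h1 : |a * x| ≤ M * δ := by
    rw [abs_mul]
    exact mul_le_mul ha hx.le (abs_nonneg _) hM
  have h2 : |b * y| ≤ M * δ := by
    rw [abs_mul]
    exact mul_le_mul hb hy.le (abs_nonneg _) hM
  calc |a * x + b * y| ≤ |a * x| + |b * y| := abs_add_le _ _
    _ ≤ M * δ + M * δ := add_le_add h1 h2
    _ < ε := by
      rw [← hδ]
      nlinarith

theorem a1_finite (Γ : Subgroup (Matrix.SpecialLinearGroup (Fin 2) ℝ))
    (h1 : ∃ ε : ℝ, 0 < ε ∧ ∀ γ ∈ Γ,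
        (∀ i j : Fin 2, |(γ : Matrix (Fin 2) (Fin 2) ℝ) i j
            - (1 : Matrix (Fin 2) (Fin 2) ℝ) i j| < ε) → γ = 1) (M : ℝ) (hM : 0 ≤ M) :
    {γ : SpecialLinearGroup (Fin 2) ℝ |
      γ ∈ Γ ∧ ∀ i j, |(γ : Matrix (Fin 2) (Fin 2) ℝ) i j| ≤ M}.Finite := by
  obtain ⟨ε, hε, h1⟩ := h1
  obtain ⟨δ, hδ⟩ : ∃ δ : ℝ, δ * (2 * M + 1) = ε := ⟨ε / (2 * M + 1), by
    have : (2 * M + 1) ≠ 0 := by positivity
    field_simp⟩
  have hδ0 : 0 < δ := by
    by_contra hn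
    push Not at hn
    have : δ * (2 * M + 1) ≤ 0 := mul_nonpos_of_nonpos_of_nonneg hn (by positivity)
    linarith
  let F : SpecialLinearGroup (Fin 2) ℝ → (Fin 2 → Fin 2 → ℤ) :=
    fun γ i j => ⌊(γ : Matrix (Fin 2) (Fin 2) ℝ) i j / δ⌋
  have hfin : (Set.Icc (fun _ _ => ⌊-M / δ⌋ : Fin 2 → Fin 2 → ℤ)
      (fun _ _ => ⌊M / δ⌋ : Fin 2 → Fin 2 → ℤ)).Finite := Set.finite_Icc _ _
  refine Set.Finite.of_finite_image (f := F) (hfin.subset ?_) ?_
  · rintro _ ⟨γ, ⟨_, hγ⟩, rfl⟩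
    constructor
    · intro i j
      apply Int.floor_le_floor
      have := (abs_le.mp (hγ i j)).1
      exact div_le_div_of_nonneg_right this hδ0.le
    · intro i j
      apply Int.floor_le_floor
      have := (abs_le.mp (hγ i j)).2
      exact div_le_div_of_nonneg_right this hδ0.le
  · rintro g ⟨hg, gM⟩ h ⟨hh, hM'⟩ hF
    have hclose : ∀ i j, |(h : Matrix (Fin 2) (Fin 2) ℝ) i j - (g : Matrix (Fin 2) (Fin 2) ℝ) i j|
        < δ := by
      intro i j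
      have e := congrFun (congrFun hF i) j
      have e2 : |(h : Matrix (Fin 2) (Fin 2) ℝ) i j / δ - (g : Matrix (Fin 2) (Fin 2) ℝ) i j / δ|
          < 1 := Int.abs_sub_lt_one_of_floor_eq_floor e.symm
      rw [← sub_div, abs_div, abs_of_pos hδ0, div_lt_one hδ0] at e2
      exact e2
    have hgh : g⁻¹ * h = 1 := by
      apply h1 _ (Γ.mul_mem (Γ.inv_mem hg) hh)
      have hdet : (g : Matrix (Fin 2) (Fin 2) ℝ) 0 0 * (g : Matrix (Fin 2) (Fin 2) ℝ) 1 1 -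
          (g : Matrix (Fin 2) (Fin 2) ℝ) 0 1 * (g : Matrix (Fin 2) (Fin 2) ℝ) 1 0 = 1 := by
        rw [← Matrix.det_fin_two]
        exact g.2
      have hab : ∀ i j, |-(g : Matrix (Fin 2) (Fin 2) ℝ) i j| ≤ M := by
        intro i j
        rw [abs_neg]
        exact gM i j
      intro i j
      have ecoe : ((g⁻¹ * h : SpecialLinearGroup (Fin 2) ℝ) : Matrix (Fin 2) (Fin 2) ℝ) =
          (g : Matrix (Fin 2) (Fin 2) ℝ).adjugate * (h : Matrix (Fin 2) (Fin 2) ℝ) := rfl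
      have eij := congrFun (congrFun ecoe i) j
      rw [Matrix.adjugate_fin_two, Matrix.mul_apply, Fin.sum_univ_two] at eij
      show |((g⁻¹ * h : SpecialLinearGroup (Fin 2) ℝ) : Matrix (Fin 2) (Fin 2) ℝ) i j -
        (1 : Matrix (Fin 2) (Fin 2) ℝ) i j| < ε
      rw [eij]
      clear eij ecoe
      fin_cases i <;> fin_cases j
      · have := a1_bound hM hδ hδ0 (gM 1 1) (hab 0 1) (hclose 0 0) (hclose 1 0)
        convert this using 2
        simp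
        linear_combination hdet
      · have := a1_bound hM hδ hδ0 (gM 1 1) (hab 0 1) (hclose 0 1) (hclose 1 1)
        convert this using 2
        simp
        ring
      · have := a1_bound hM hδ hδ0 (hab 1 0) (gM 0 0) (hclose 0 0) (hclose 1 0)
        convert this using 2
        simp
        ring
      · have := a1_bound hM hδ hδ0 (hab 1 0) (gM 0 0) (hclose 0 1) (hclose 1 1)
        convert this using 2
        simp
        linear_combination hdet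
    rw [inv_mul_eq_one] at hgh
    exact hgh

-- A1
theorem fuchs_toGG (Γ : Subgroup (Matrix.SpecialLinearGroup (Fin 2) ℝ))
    (h1 : ∃ ε : ℝ, 0 < ε ∧ ∀ γ ∈ Γ,
        (∀ i j : Fin 2, |(γ : Matrix (Fin 2) (Fin 2) ℝ) i j
            - (1 : Matrix (Fin 2) (Fin 2) ℝ) i j| < ε) → γ = 1)
    (h2 : ∀ γ ∈ Γ, ∀ n : ℕ, 0 < n → γ ^ n = 1 → γ = 1)
    (h3 : ∃ C : ℝ, ∀ A : Matrix.SpecialLinearGroup (Fin 2) ℝ, ∃ γ ∈ Γ, ∀ i j : Fin 2,
        |((γ⁻¹ * A : Matrix.SpecialLinearGroup (Fin 2) ℝ) : Matrix (Fin 2) (Fin 2) ℝ) i j| ≤ C) :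
    Fuchs (toGG Γ) := by
  constructor
  · rintro _ ⟨γ, _, rfl⟩
    rw [dt, a1_coe]
    exact γ.2
  · intro M
    by_cases hM : 0 ≤ M
    · refine ((a1_finite Γ h1 M hM).image SpecialLinearGroup.toGL).subset ?_
      rintro _ ⟨⟨γ, hγ, rfl⟩, hb⟩
      exact ⟨γ, ⟨hγ, hb⟩, rfl⟩
    · convert Set.finite_empty
      ext g
      simp only [Set.mem_ofPred_eq, Set.mem_empty_iff_false, iff_false]
      rintro ⟨_, hb⟩
      exact hM ((abs_nonneg _).trans (hb 0 0))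
  · rintro _ ⟨γ, hγ, rfl⟩ n hn hpow
    have hp : γ ^ n = 1 := by
      apply Subtype.ext
      have := congrArg (fun x : GG => (x : Matrix (Fin 2) (Fin 2) ℝ)) hpow
      rw [← map_pow] at this
      exact this
    rw [h2 γ hγ n hn hp, map_one]
  · obtain ⟨C, h3⟩ := h3
    refine ⟨C, fun g hg => ?_⟩
    obtain ⟨γ, hγ, hb⟩ := h3 ⟨(g : Matrix (Fin 2) (Fin 2) ℝ), hg⟩
    refine ⟨SpecialLinearGroup.toGL γ, ⟨γ, hγ, rfl⟩, fun i j => ?_⟩
    have e : (((SpecialLinearGroup.toGL γ)⁻¹ * g : GG) : Matrix (Fin 2) (Fin 2) ℝ) =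
        ((γ⁻¹ * ⟨(g : Matrix (Fin 2) (Fin 2) ℝ), hg⟩ : SpecialLinearGroup (Fin 2) ℝ) :
          Matrix (Fin 2) (Fin 2) ℝ) := by
      rw [← map_inv]
      rfl
    rw [e]
    exact hb i j

end Pool.Agent.H100R2.SC
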