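import Pool.Agent.H100R2.SC.Defs

/-!
# Task A3 (helper379): finite index subgroups of cocompact Fuchsian groups
-/

set_option autoImplicit false

namespace Pool.Agent.H100R2.SC

open Matrix

theorem fuchs_of_index {Γ A : Subgroup GG} (h : Fuchs Γ) (hA : A ≤ Γ) (hi : A.relIndex Γ ≠ 0) :
    Fuchs A := by
  refine ⟨fun g hg => h.det1 g (hA hg), fun M => ?_, fun g hg => h.tf g (hA hg), ?_⟩
  · exact (h.disc M).subset fun g hg => ⟨hA hg.1, hg.2⟩
  · obtain ⟨C, hC⟩ := h.coc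
    have hC0 : 0 ≤ C := by
      obtain ⟨γ, _, hb⟩ := hC 1 dt_one
      exact (abs_nonneg _).trans (hb 0 0)
    have hfi : (A.subgroupOf Γ).FiniteIndex := ⟨hi⟩
    have hfin : Finite (Γ ⧸ A.subgroupOf Γ) := inferInstance
    let _ := Fintype.ofFinite (Γ ⧸ A.subgroupOf Γ)
    set R : Γ ⧸ A.subgroupOf Γ → ℝ := fun q =>
      ∑ i, ∑ j, |((((q.out : Γ) : GG)⁻¹ : GG) : Matrix (Fin 2) (Fin 2) ℝ) i j| with hR
    have hR0 : ∀ q, 0 ≤ R q := fun q =>
      Finset.sum_nonneg fun i _ => Finset.sum_nonneg fun j _ => abs_nonneg _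
    refine ⟨(∑ q, R q) * C, fun g hg => ?_⟩
    obtain ⟨γ, hγ, hb⟩ := hC g hg
    set q : Γ ⧸ A.subgroupOf Γ := QuotientGroup.mk (⟨γ, hγ⟩⁻¹ : Γ) with hq
    set ρ : Γ := q.out with hρ
    have h1 : (QuotientGroup.mk ρ : Γ ⧸ A.subgroupOf Γ) = QuotientGroup.mk (⟨γ, hγ⟩⁻¹ : Γ) := by
      rw [hρ, QuotientGroup.out_eq']
    rw [QuotientGroup.eq, Subgroup.mem_subgroupOf] at h1
    have h2 : (ρ : GG)⁻¹ * γ⁻¹ ∈ A := h1
    refine ⟨γ * ρ, ?_, ?_⟩
    · have h3 := A.inv_mem h2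
      rwa [_root_.mul_inv_rev, inv_inv, inv_inv] at h3
    · intro i j
      have h4 : ((γ * (ρ : GG))⁻¹ * g : GG) = (ρ : GG)⁻¹ * (γ⁻¹ * g) := by
        rw [_root_.mul_inv_rev, mul_assoc]
      rw [h4]
      have h5 : (((ρ : GG)⁻¹ * (γ⁻¹ * g) : GG) : Matrix (Fin 2) (Fin 2) ℝ) i j =
          ∑ k, (((ρ : GG)⁻¹ : GG) : Matrix (Fin 2) (Fin 2) ℝ) i k *
            ((γ⁻¹ * g : GG) : Matrix (Fin 2) (Fin 2) ℝ) k j := by
        rw [Units.val_mul, Matrix.mul_apply]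
      rw [h5]
      calc |∑ k, (((ρ : GG)⁻¹ : GG) : Matrix (Fin 2) (Fin 2) ℝ) i k *
            ((γ⁻¹ * g : GG) : Matrix (Fin 2) (Fin 2) ℝ) k j|
          ≤ ∑ k, |(((ρ : GG)⁻¹ : GG) : Matrix (Fin 2) (Fin 2) ℝ) i k| * C := by
            refine (Finset.abs_sum_le_sum_abs _ _).trans (Finset.sum_le_sum fun k _ => ?_)
            rw [abs_mul]
            exact mul_le_mul_of_nonneg_left (hb k j) (abs_nonneg _)
        _ = (∑ k, |(((ρ : GG)⁻¹ : GG) : Matrix (Fin 2) (Fin 2) ℝ) i k|) * C := by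
            rw [Finset.sum_mul]
        _ ≤ R q * C := by
            refine mul_le_mul_of_nonneg_right ?_ hC0
            exact Finset.single_le_sum (f := fun i => ∑ k,
              |(((ρ : GG)⁻¹ : GG) : Matrix (Fin 2) (Fin 2) ℝ) i k|)
              (fun i _ => Finset.sum_nonneg fun k _ => abs_nonneg _) (Finset.mem_univ i)
        _ ≤ (∑ q, R q) * C := by
            refine mul_le_mul_of_nonneg_right ?_ hC0
            exact Finset.single_le_sum (fun q _ => hR0 q) (Finset.mem_univ q)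

end Pool.Agent.H100R2.SC
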