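import Pool.Agent.H100R2.SC.Defs

/-!
B2: topology of the circle `OnePoint ℝ`, continuity of the action, chordal distance `dd`.
-/

set_option autoImplicit false

namespace Pool.Agent.H100R2.SC

open Matrix Topology Filter OnePoint

/-- first coordinate of the representative vector -/
noncomputable def b2x (ξ : X) : ℝ := ξ.elim 1 (fun x => x)
/-- second coordinate of the representative vector -/
noncomputable def b2y (ξ : X) : ℝ := ξ.elim 0 (fun _ => 1)
/-- norm of the representative vector -/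
noncomputable def b2n (ξ : X) : ℝ := √(b2x ξ ^ 2 + b2y ξ ^ 2)

@[simp] lemma b2x_inf : b2x ∞ = 1 := rfl
@[simp] lemma b2y_inf : b2y ∞ = 0 := rfl
@[simp] lemma b2x_coe (x : ℝ) : b2x (x : X) = x := rfl
@[simp] lemma b2y_coe (x : ℝ) : b2y (x : X) = 1 := rfl

lemma b2_om (a b : X) : om a b = b2x a * b2y b - b2y a * b2x b := by
  induction a using OnePoint.rec <;> induction b using OnePoint.rec <;> simp [om]

lemma b2_sq_pos (a : X) : 0 < b2x a ^ 2 + b2y a ^ 2 := by
  induction a using OnePoint.rec with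
  | infty => simp
  | coe x => simp; positivity

lemma b2n_pos (a : X) : 0 < b2n a := Real.sqrt_pos.mpr (b2_sq_pos a)

lemma b2n_sq (a : X) : b2n a ^ 2 = b2x a ^ 2 + b2y a ^ 2 := Real.sq_sqrt (b2_sq_pos a).le

lemma b2_dd (a b : X) : dd a b = |om a b| / (b2n a * b2n b) := by
  induction a using OnePoint.rec with
  | infty =>
    induction b using OnePoint.rec with
    | infty => simp [dd, om]
    | coe y => simp [dd, om, b2n, add_comm]
  | coe x =>
    induction b using OnePoint.rec with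
    | infty => simp [dd, om, b2n, add_comm]
    | coe y => simp [dd, om, b2n, add_comm]

lemma b2_val (S : Arc) (ξ : X) : S.val ξ = S.ev (b2x ξ) (b2y ξ) := by
  induction ξ using OnePoint.rec with
  | infty => simp [Arc.val, Arc.ev]
  | coe x => simp [Arc.val, Arc.ev]

lemma om_swap (a b : X) : om a b = - om b a := by
  rw [b2_om, b2_om]; ring

theorem dd_comm (a b : X) : dd a b = dd b a := by
  rw [b2_dd, b2_dd, om_swap, abs_neg, mul_comm]

theorem dd_self (a : X) : dd a a = 0 := by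
  rw [b2_dd, b2_om]
  have : b2x a * b2y a - b2y a * b2x a = 0 := by ring
  rw [this]; simp

theorem dd_nonneg (a b : X) : 0 ≤ dd a b := by
  rw [b2_dd]
  have := b2n_pos a
  have := b2n_pos b
  positivity

/-- Cauchy-Schwarz -/
lemma b2_cs (a b : X) : |b2x a * b2x b + b2y a * b2y b| ≤ b2n a * b2n b := by
  apply abs_le_of_sq_le_sq
  · rw [mul_pow, b2n_sq, b2n_sq]
    nlinarith [sq_nonneg (b2x a * b2y b - b2y a * b2x b)]
  · have := b2n_pos a
    have := b2n_pos b
    positivity

theorem dd_triangle (a b c : X) : dd a c ≤ dd a b + dd b c := by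
  rw [b2_dd, b2_dd, b2_dd]
  have ha := b2n_pos a
  have hb := b2n_pos b
  have hc := b2n_pos c
  have key : |om a c| * b2n b ^ 2 ≤ b2n a * b2n b * |om b c| + |om a b| * (b2n b * b2n c) := by
    have e : om a c * b2n b ^ 2 = (b2x a * b2x b + b2y a * b2y b) * om b c +
        om a b * (b2x b * b2x c + b2y b * b2y c) := by
      rw [b2n_sq, b2_om, b2_om, b2_om]; ring
    have e2 : |om a c| * b2n b ^ 2 = |om a c * b2n b ^ 2| := by
      rw [abs_mul, abs_of_nonneg (sq_nonneg (b2n b))]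
    rw [e2, e]
    refine (abs_add_le _ _).trans ?_
    rw [abs_mul, abs_mul]
    have h1 := b2_cs a b
    have h2 := b2_cs b c
    have h3 := abs_nonneg (om b c)
    have h4 := abs_nonneg (om a b)
    nlinarith [mul_le_mul_of_nonneg_right h1 h3, mul_le_mul_of_nonneg_left h2 h4]
  rw [div_add_div _ _ (by positivity) (by positivity), div_le_div_iff₀ (by positivity) (by positivity)]
  have h5 := mul_le_mul_of_nonneg_left key (show 0 ≤ b2n a * b2n c by positivity)
  nlinarith

theorem eq_of_dd {a b : X} (h : dd a b = 0) : a = b := by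
  rw [b2_dd, div_eq_zero_iff] at h
  have h0 : om a b = 0 := by
    rcases h with h | h
    · exact abs_eq_zero.mp h
    · exact absurd h (by have := b2n_pos a; have := b2n_pos b; positivity)
  rw [b2_om] at h0
  induction a using OnePoint.rec with
  | infty =>
    induction b using OnePoint.rec with
    | infty => rfl
    | coe y => simp at h0
  | coe x =>
    induction b using OnePoint.rec with
    | infty => simp at h0
    | coe y =>
      simp at h0
      have : x = y := by linarith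
      rw [this]

lemma b2_coe_coe (x y : ℝ) : dd (x : X) (y : X) = |x - y| / (√(1 + x ^ 2) * √(1 + y ^ 2)) := rfl
lemma b2_inf_coe (y : ℝ) : dd (∞ : X) (y : X) = 1 / √(1 + y ^ 2) := rfl
lemma b2_coe_inf (y : ℝ) : dd (y : X) (∞ : X) = 1 / √(1 + y ^ 2) := rfl

lemma b2_sqrt_one (y : ℝ) : 1 ≤ √(1 + y ^ 2) := by
  rw [Real.one_le_sqrt]; nlinarith [sq_nonneg y]

theorem dd_ball (ξ : X) (ε : ℝ) (hε : 0 < ε) : {η : X | dd ξ η < ε} ∈ 𝓝 ξ := by
  induction ξ using OnePoint.rec with
  | infty =>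
    rw [OnePoint.nhds_infty_eq, Filter.mem_sup]
    constructor
    · rw [Filter.mem_map, Filter.coclosedCompact_eq_cocompact, Filter.mem_cocompact]
      refine ⟨Set.Icc (-(1/ε)) (1/ε), isCompact_Icc, ?_⟩
      intro y hy
      simp only [Set.mem_preimage, Set.mem_setOf_eq, b2_inf_coe]
      have h1 : 1 / ε < |y| := by
        by_contra hcon
        rw [not_lt, abs_le] at hcon
        exact hy ⟨hcon.1, hcon.2⟩
      have h2 : 1 / ε < √(1 + y ^ 2) := by
        refine h1.trans_le ?_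
        apply Real.le_sqrt_of_sq_le
        rw [sq_abs]; linarith
      rw [one_div, inv_lt_comm₀ (by positivity) hε, ← one_div]
      exact h2
    · rw [Filter.mem_pure]
      simp only [Set.mem_setOf_eq, dd_self]
      exact hε
  | coe x =>
    rw [OnePoint.nhds_coe_eq, Filter.mem_map]
    rw [Metric.mem_nhds_iff]
    refine ⟨ε, hε, ?_⟩
    intro y hy
    rw [Metric.mem_ball, Real.dist_eq, abs_sub_comm] at hy
    simp only [Set.mem_preimage, Set.mem_setOf_eq, b2_coe_coe]
    refine lt_of_le_of_lt ?_ hy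
    apply div_le_self (abs_nonneg _)
    have h1 := b2_sqrt_one x
    have h2 := b2_sqrt_one y
    nlinarith

theorem dd_nhds (ξ : X) (U : Set X) (hU : U ∈ 𝓝 ξ) : ∃ ε > 0, ∀ η, dd ξ η < ε → η ∈ U := by
  induction ξ using OnePoint.rec with
  | infty =>
    have hmem := mem_of_mem_nhds hU
    rw [OnePoint.nhds_infty_eq, Filter.mem_sup] at hU
    obtain ⟨h1, -⟩ := hU
    rw [Filter.mem_map, Filter.coclosedCompact_eq_cocompact, Filter.mem_cocompact] at h1
    obtain ⟨K, hK, hKU⟩ := h1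
    obtain ⟨R, hR⟩ := hK.isBounded.subset_closedBall (0:ℝ)
    refine ⟨1 / √(1 + R ^ 2), by positivity, ?_⟩
    intro η hη
    induction η using OnePoint.rec with
    | infty => exact hmem
    | coe y =>
      rw [b2_inf_coe] at hη
      apply hKU
      intro hyK
      have h2 := hR hyK
      rw [Metric.mem_closedBall, Real.dist_eq, sub_zero] at h2
      have h3 : √(1 + R ^ 2) < √(1 + y ^ 2) := by
        rwa [one_div_lt_one_div (by positivity) (by positivity)] at hη
      have h4 : 1 + R ^ 2 < 1 + y ^ 2 := (Real.sqrt_lt_sqrt_iff (by positivity)).mp h3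
      have h5 : y ^ 2 ≤ R ^ 2 := by
        rw [← sq_abs y]
        exact pow_le_pow_left₀ (abs_nonneg _) h2 2
      linarith
  | coe x =>
    rw [OnePoint.nhds_coe_eq, Filter.mem_map, Metric.mem_nhds_iff] at hU
    obtain ⟨δ, hδ, hsub⟩ := hU
    set A := √(1 + x ^ 2) with hA
    have hA1 : 1 ≤ A := b2_sqrt_one x
    refine ⟨min (1 / (2 * A)) (δ / (2 * A ^ 2)), lt_min (by positivity) (by positivity), ?_⟩
    intro η hη
    have hη1 := hη.trans_le (min_le_left _ _)
    have hη2 := hη.trans_le (min_le_right _ _)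
    induction η using OnePoint.rec with
    | infty =>
      rw [b2_coe_inf, ← hA, one_div_lt_one_div (by positivity) (by positivity)] at hη1
      linarith
    | coe y =>
      rw [b2_coe_coe, ← hA] at hη1 hη2
      have hB : √(1 + y ^ 2) ≤ A + |x - y| := by
        apply Real.sqrt_le_iff.mpr
        constructor
        · positivity
        · have hA2 : A ^ 2 = 1 + x ^ 2 := Real.sq_sqrt (by positivity)
          have hxA : |x| ≤ A := Real.le_sqrt_of_sq_le (by rw [sq_abs]; linarith)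
          have h6 : y ^ 2 = x ^ 2 - 2 * x * (x - y) + (x - y) ^ 2 := by ring
          have h7 : -(x * (x - y)) ≤ |x| * |x - y| := by
            rw [← abs_mul]; exact neg_le_abs _
          have h8 : |x| * |x - y| ≤ A * |x - y| := mul_le_mul_of_nonneg_right hxA (abs_nonneg _)
          nlinarith [sq_abs (x - y)]
      have hBp : 0 < √(1 + y ^ 2) := by positivity
      rw [div_lt_div_iff₀ (by positivity) (by positivity)] at hη1 hη2
      have h9 : |x - y| * 2 < A + |x - y| := by
        have : |x - y| * (2 * A) < A * (A + |x - y|) := by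
          calc |x - y| * (2 * A) < 1 * (A * √(1 + y ^ 2)) := hη1
            _ ≤ A * (A + |x - y|) := by nlinarith
        have h10 : A * (|x - y| * 2) < A * (A + |x - y|) := by linarith
        exact lt_of_mul_lt_mul_left h10 (by positivity)
      have h11 : √(1 + y ^ 2) < 2 * A := by linarith
      have h12 : |x - y| < δ := by
        have : |x - y| * (2 * A ^ 2) < δ * (2 * A ^ 2) := by
          calc |x - y| * (2 * A ^ 2) < δ * (A * √(1 + y ^ 2)) := hη2
            _ ≤ δ * (2 * A ^ 2) := by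
              apply mul_le_mul_of_nonneg_left _ hδ.le
              nlinarith
        exact lt_of_mul_lt_mul_right this (by positivity)
      apply hsub
      rw [Metric.mem_ball, Real.dist_eq, abs_sub_comm]
      exact h12

/-- representative vectors of `g • ξ` -/
lemma b2_smul (g : GG) (ξ : X) : ∃ c : ℝ, c ≠ 0 ∧
    (g : Matrix (Fin 2) (Fin 2) ℝ) 0 0 * b2x ξ + (g : Matrix (Fin 2) (Fin 2) ℝ) 0 1 * b2y ξ =
      c * b2x (g • ξ) ∧
    (g : Matrix (Fin 2) (Fin 2) ℝ) 1 0 * b2x ξ + (g : Matrix (Fin 2) (Fin 2) ℝ) 1 1 * b2y ξ =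
      c * b2y (g • ξ) := by
  have hdet : (g : Matrix (Fin 2) (Fin 2) ℝ) 0 0 * (g : Matrix (Fin 2) (Fin 2) ℝ) 1 1 -
      (g : Matrix (Fin 2) (Fin 2) ℝ) 0 1 * (g : Matrix (Fin 2) (Fin 2) ℝ) 1 0 ≠ 0 := by
    rw [← Matrix.det_fin_two]; exact dt_ne_zero g
  induction ξ using OnePoint.rec with
  | infty =>
    rw [OnePoint.smul_infty_eq_ite]
    by_cases h : (g : Matrix (Fin 2) (Fin 2) ℝ) 1 0 = 0
    · rw [if_pos h]
      refine ⟨(g : Matrix (Fin 2) (Fin 2) ℝ) 0 0, ?_, by simp, by simp [h]⟩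
      intro h0
      apply hdet
      rw [h0, h]; ring
    · rw [if_neg h]
      refine ⟨(g : Matrix (Fin 2) (Fin 2) ℝ) 1 0, h, ?_, ?_⟩
      · simp only [b2x_inf, b2y_inf, b2x_coe]
        field_simp
        ring
      · simp
  | coe x =>
    rw [OnePoint.smul_some_eq_ite]
    by_cases h : (g : Matrix (Fin 2) (Fin 2) ℝ) 1 0 * x + (g : Matrix (Fin 2) (Fin 2) ℝ) 1 1 = 0
    · rw [if_pos h]
      refine ⟨(g : Matrix (Fin 2) (Fin 2) ℝ) 0 0 * x + (g : Matrix (Fin 2) (Fin 2) ℝ) 0 1, ?_, by simp,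
        by simp [h]⟩
      intro h0
      apply hdet
      by_cases hc : (g : Matrix (Fin 2) (Fin 2) ℝ) 1 0 = 0
      · rw [hc] at h
        rw [hc]
        have : (g : Matrix (Fin 2) (Fin 2) ℝ) 1 1 = 0 := by linarith
        rw [this]; ring
      · linear_combination (g : Matrix (Fin 2) (Fin 2) ℝ) 0 0 * h - (g : Matrix (Fin 2) (Fin 2) ℝ) 1 0 * h0
    · rw [if_neg h]
      refine ⟨(g : Matrix (Fin 2) (Fin 2) ℝ) 1 0 * x + (g : Matrix (Fin 2) (Fin 2) ℝ) 1 1, h, ?_, ?_⟩
      · simp only [b2x_coe, b2y_coe, mul_one]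
        rw [mul_div_cancel₀ _ h]
      · simp

theorem dd_lip (g : GG) : ∃ C : ℝ, 0 < C ∧ ∀ ξ η : X, dd (g • ξ) (g • η) ≤ C * dd ξ η := by
  set a := (g : Matrix (Fin 2) (Fin 2) ℝ) 0 0 with ha
  set b := (g : Matrix (Fin 2) (Fin 2) ℝ) 0 1 with hb
  set c := (g : Matrix (Fin 2) (Fin 2) ℝ) 1 0 with hc
  set d := (g : Matrix (Fin 2) (Fin 2) ℝ) 1 1 with hd
  have hdet : a * d - b * c ≠ 0 := by
    rw [ha, hb, hc, hd, ← Matrix.det_fin_two]; exact dt_ne_zero g
  set B := a ^ 2 + b ^ 2 + c ^ 2 + d ^ 2 with hB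
  have hBp : 0 < B := by
    by_contra hcon
    have h0 : B = 0 := le_antisymm (not_lt.mp hcon) (by positivity)
    have h1 : a ^ 2 = 0 := by nlinarith [sq_nonneg a, sq_nonneg b, sq_nonneg c, sq_nonneg d]
    have h2 : b ^ 2 = 0 := by nlinarith [sq_nonneg a, sq_nonneg b, sq_nonneg c, sq_nonneg d]
    rw [sq_eq_zero_iff] at h1 h2
    apply hdet
    rw [h1, h2]; ring
  set D := |a * d - b * c| with hD
  have hDp : 0 < D := abs_pos.mpr hdet
  refine ⟨B / D, by positivity, ?_⟩
  intro ξ η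
  obtain ⟨s, hs, hs1, hs2⟩ := b2_smul g ξ
  obtain ⟨t, ht, ht1, ht2⟩ := b2_smul g η
  rw [← ha, ← hb] at hs1 ht1
  rw [← hc, ← hd] at hs2 ht2
  have hom : s * t * om (g • ξ) (g • η) = (a * d - b * c) * om ξ η := by
    rw [b2_om, b2_om]
    have : s * t * (b2x (g • ξ) * b2y (g • η) - b2y (g • ξ) * b2x (g • η)) =
        (s * b2x (g • ξ)) * (t * b2y (g • η)) - (s * b2y (g • ξ)) * (t * b2x (g • η)) := by ring
    rw [this, ← hs1, ← hs2, ← ht1, ← ht2]
    ring
  have hn : ∀ (ζ : X) (u : ℝ), a * b2x ζ + b * b2y ζ = u * b2x (g • ζ) →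
      c * b2x ζ + d * b2y ζ = u * b2y (g • ζ) → D * b2n ζ ≤ √B * (|u| * b2n (g • ζ)) := by
    intro ζ u h1 h2
    have hz := b2n_pos ζ
    have hz' := b2n_pos (g • ζ)
    apply le_of_sq_le_sq _ (by positivity)
    rw [mul_pow, mul_pow, mul_pow, hD, sq_abs, sq_abs, b2n_sq, b2n_sq, Real.sq_sqrt hBp.le]
    have e1 : u ^ 2 * (b2x (g • ζ) ^ 2 + b2y (g • ζ) ^ 2) =
        (a * b2x ζ + b * b2y ζ) ^ 2 + (c * b2x ζ + d * b2y ζ) ^ 2 := by
      rw [h1, h2]; ring
    rw [e1]
    set p := a * b2x ζ + b * b2y ζ with hp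
    set q := c * b2x ζ + d * b2y ζ with hq
    have e2 : (a * d - b * c) * b2x ζ = d * p - b * q := by rw [hp, hq]; ring
    have e3 : (a * d - b * c) * b2y ζ = a * q - c * p := by rw [hp, hq]; ring
    have e4 : (a * d - b * c) ^ 2 * (b2x ζ ^ 2 + b2y ζ ^ 2) = (d * p - b * q) ^ 2 + (a * q - c * p) ^ 2 := by
      rw [← e2, ← e3]; ring
    rw [e4, hB]
    nlinarith [sq_nonneg (d * q + b * p), sq_nonneg (a * p + c * q)]
  have hn1 := hn ξ s hs1 hs2
  have hn2 := hn η t ht1 ht2
  rw [b2_dd, b2_dd]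
  have p1 := b2n_pos ξ
  have p2 := b2n_pos η
  have p3 := b2n_pos (g • ξ)
  have p4 := b2n_pos (g • η)
  have hsa := abs_pos.mpr hs
  have hta := abs_pos.mpr ht
  have hab : |s| * |t| * |om (g • ξ) (g • η)| = D * |om ξ η| := by
    rw [← abs_mul, ← abs_mul, hom, abs_mul]
  have hprod : D ^ 2 * (b2n ξ * b2n η) ≤ B * (|s| * |t| * (b2n (g • ξ) * b2n (g • η))) := by
    have := mul_le_mul hn1 hn2 (by positivity) (by positivity)
    have e5 : √B * √B = B := Real.mul_self_sqrt hBp.le
    calc D ^ 2 * (b2n ξ * b2n η) = D * b2n ξ * (D * b2n η) := by ring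
      _ ≤ _ := this
      _ = (√B * √B) * (|s| * |t| * (b2n (g • ξ) * b2n (g • η))) := by ring
      _ = _ := by rw [e5]
  rw [div_mul_div_comm, div_le_div_iff₀ (by positivity) (by positivity)]
  have hm := mul_le_mul_of_nonneg_left hprod (abs_nonneg (om (g • ξ) (g • η)))
  have hst : 0 < |s| * |t| := by positivity
  -- multiply by |s||t|
  have h6 : (|s| * |t|) * (|om (g • ξ) (g • η)| * (D * (b2n ξ * b2n η))) ≤
      (|s| * |t|) * (B * |om ξ η| * (b2n (g • ξ) * b2n (g • η))) := by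
    have h7 : (|s| * |t|) * (|om (g • ξ) (g • η)| * (D * (b2n ξ * b2n η))) =
        |om ξ η| * (D ^ 2 * (b2n ξ * b2n η)) := by
      calc _ = (|s| * |t| * |om (g • ξ) (g • η)|) * (D * (b2n ξ * b2n η)) := by ring
        _ = _ := by rw [hab]; ring
    rw [h7]
    calc |om ξ η| * (D ^ 2 * (b2n ξ * b2n η)) ≤
          |om ξ η| * (B * (|s| * |t| * (b2n (g • ξ) * b2n (g • η)))) :=
          mul_le_mul_of_nonneg_left hprod (abs_nonneg _)
      _ = _ := by ring
  have h8 := le_of_mul_le_mul_left h6 hst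
  linarith

theorem continuous_smul' (g : GG) : Continuous (fun ξ : X => g • ξ) := by
  rw [continuous_iff_continuousAt]
  intro ξ
  obtain ⟨C, hC, hlip⟩ := dd_lip g
  intro U hU
  obtain ⟨ε, hε, hsub⟩ := dd_nhds _ U hU
  rw [Filter.mem_map]
  refine Filter.mem_of_superset (dd_ball ξ (ε / C) (by positivity)) ?_
  intro η hη
  apply hsub
  refine lt_of_le_of_lt (hlip ξ η) ?_
  have : dd ξ η < ε / C := hη
  rw [lt_div_iff₀ hC] at this
  linarith

theorem continuous_val_pos (S : Arc) : IsOpen {ξ : X | 0 < S.val ξ} := by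
  rw [OnePoint.isOpen_def]
  have hcoe : ((↑) ⁻¹' {ξ : X | 0 < S.val ξ} : Set ℝ) = {x : ℝ | 0 < S.p * x ^ 2 + 2 * S.q * x + S.r} := by
    ext x
    simp [Arc.val, Arc.ev]
  have hopen : IsOpen {x : ℝ | 0 < S.p * x ^ 2 + 2 * S.q * x + S.r} :=
    isOpen_lt continuous_const (by fun_prop)
  rw [hcoe]
  refine ⟨?_, hopen⟩
  intro hinf
  have hp : 0 < S.p := by simpa [Arc.val] using hinf
  apply Metric.isCompact_of_isClosed_isBounded hopen.isClosed_compl
  refine (Metric.isBounded_Icc (-(|S.q| + 1) / S.p) ((|S.q| + 1) / S.p)).subset ?_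
  intro x hx
  have hx' : S.p * x ^ 2 + 2 * S.q * x + S.r ≤ 0 := not_lt.mp hx
  have h1 : (S.p * x + S.q) ^ 2 ≤ 1 := by
    have := mul_le_mul_of_nonneg_left hx' hp.le
    nlinarith [S.h]
  have h2 : |S.p * x + S.q| ≤ 1 := by
    rw [← sq_le_one_iff_abs_le_one]; exact h1
  rw [abs_le] at h2
  have h3 := abs_le.mp (le_refl |S.q|)
  constructor
  · rw [div_le_iff₀ hp]; linarith
  · rw [le_div_iff₀ hp]; linarith

theorem dd_arc (S : Arc) (M : ℝ) (hM : 0 < M) (hS : S.tr ≤ -M) (ξ η : X)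
    (h1 : 0 ≤ S.val ξ) (h2 : 0 ≤ S.val η) : dd ξ η ≤ 2 / M := by
  rw [b2_val] at h1 h2
  have hX := b2_sq_pos ξ
  have hY := b2_sq_pos η
  set x := b2x ξ with hx
  set y := b2y ξ with hy
  set u := b2x η with hu
  set v := b2y η with hv
  set A := S.ev x y with hA
  set B := S.ev u v with hB
  set P := x ^ 2 + y ^ 2 with hP
  set Q := u ^ 2 + v ^ 2 with hQ
  set o := (x * v - y * u) ^ 2 with ho
  set cc := x * u + y * v with hcc
  set ss := S.p * x * u + S.q * (x * v + y * u) + S.r * y * v with hss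
  have hdet := S.h
  have i1 : P * Q - cc ^ 2 = o := by rw [hP, hQ, hcc, ho]; ring
  have i2 : A * B - ss ^ 2 = - o := by
    rw [hA, hB, hss, ho]; simp only [Arc.ev]
    linear_combination (x * v - y * u) ^ 2 * hdet
  have i3 : P * B + Q * A - 2 * cc * ss = S.tr * o := by
    rw [hP, hQ, hA, hB, hcc, hss, ho]; simp only [Arc.ev, Arc.tr]; ring
  have ho0 : 0 ≤ o := sq_nonneg _
  have hE : 0 ≤ P * B + Q * A := by positivity
  have ht : S.tr < 0 := by linarith
  have key : 0 ≤ o * (4 * (P * Q) - (S.tr ^ 2 + 4) * o) := by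
    have e : o * (4 * (P * Q) - (S.tr ^ 2 + 4) * o) =
        2 * (-S.tr) * o * (P * B + Q * A) + (P * B - Q * A) ^ 2 + 4 * o * (A * B) := by
      have e1 : cc ^ 2 = P * Q - o := by linarith
      have e2 : ss ^ 2 = A * B + o := by linarith
      have e3 : 2 * cc * ss = (P * B + Q * A) - S.tr * o := by linarith
      have e4 : 4 * (P * Q - o) * (A * B + o) = ((P * B + Q * A) - S.tr * o) ^ 2 := by
        rw [← e1, ← e2, ← e3]; ring
      linear_combination e4
    rw [e]
    have q1 : 0 ≤ 2 * (-S.tr) * o * (P * B + Q * A) := by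
      have : 0 ≤ -S.tr := by linarith
      positivity
    have q2 : 0 ≤ 4 * o * (A * B) := by positivity
    nlinarith [sq_nonneg (P * B - Q * A)]
  have key2 : (S.tr ^ 2 + 4) * o ≤ 4 * (P * Q) := by
    rcases ho0.eq_or_lt with h | h
    · rw [← h]
      have : 0 < P * Q := by positivity
      linarith
    · have := nonneg_of_mul_nonneg_right key h
      linarith
  have hM2 : M ^ 2 ≤ S.tr ^ 2 := by nlinarith
  have key3 : M ^ 2 * o ≤ 4 * (P * Q) := by nlinarith
  rw [b2_dd]
  have p1 := b2n_pos ξ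
  have p2 := b2n_pos η
  rw [div_le_div_iff₀ (by positivity) hM]
  apply le_of_sq_le_sq _ (by positivity)
  rw [mul_pow, mul_pow, mul_pow, sq_abs, b2n_sq, b2n_sq, b2_om]
  simp only [← hx, ← hy, ← hu, ← hv]
  rw [← ho, ← hP, ← hQ]
  linarith

end Pool.Agent.H100R2.SC
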