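import Pool.Agent.H100R2.SC.Defs
import Pool.Agent.H100R2.SC.A3
import Pool.Agent.H100R2.SC.B2

/-!
# Task A10 (helper702): commensurating homeomorphisms give isomorphisms between finite index subgroups
-/

set_option autoImplicit false

namespace Pool.Agent.H100R2.SC

open Matrix Topology

namespace A10

/-- first coordinate of the representative vector -/
def v1 (ξ : X) : ℝ := ξ.elim 1 (fun x => x)
/-- second coordinate of the representative vector -/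
def v2 (ξ : X) : ℝ := ξ.elim 0 (fun _ => 1)

@[simp] lemma v1_infty : v1 OnePoint.infty = 1 := rfl
@[simp] lemma v2_infty : v2 OnePoint.infty = 0 := rfl
@[simp] lemma v1_some (x : ℝ) : v1 (OnePoint.some x) = x := rfl
@[simp] lemma v2_some (x : ℝ) : v2 (OnePoint.some x) = 1 := rfl

/-- squared norm of the representative vector -/
def N (ξ : X) : ℝ := v1 ξ ^ 2 + v2 ξ ^ 2

lemma N_pos (ξ : X) : 0 < N ξ := by
  induction ξ using OnePoint.rec with
  | infty => simp [N]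
  | coe x => simp only [N, v1_some, v2_some]; positivity

/-- wedge of the representative vectors -/
def w (a b : X) : ℝ := v1 a * v2 b - v2 a * v1 b

lemma w_eq_zero {a b : X} (h : w a b = 0) : a = b := by
  induction a using OnePoint.rec with
  | infty =>
    induction b using OnePoint.rec with
    | infty => rfl
    | coe y => simp [w] at h
  | coe x =>
    induction b using OnePoint.rec with
    | infty => simp [w] at h
    | coe y =>
      have : x = y := by simpa [w, sub_eq_zero] using h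
      rw [this]

lemma dd_eq (a b : X) : dd a b = |w a b| / (√(N a) * √(N b)) := by
  induction a using OnePoint.rec with
  | infty =>
    induction b using OnePoint.rec with
    | infty => simp [dd, w]
    | coe y =>
      simp [dd, w, N, add_comm]
  | coe x =>
    induction b using OnePoint.rec with
    | infty => simp [dd, w, N, add_comm]
    | coe y =>
      simp [dd, w, N, add_comm]

lemma act (g : GG) (ξ : X) : ∃ k : ℝ, k ≠ 0 ∧
    (g : Matrix (Fin 2) (Fin 2) ℝ) 0 0 * v1 ξ + (g : Matrix (Fin 2) (Fin 2) ℝ) 0 1 * v2 ξ = k * v1 (g • ξ) ∧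
    (g : Matrix (Fin 2) (Fin 2) ℝ) 1 0 * v1 ξ + (g : Matrix (Fin 2) (Fin 2) ℝ) 1 1 * v2 ξ = k * v2 (g • ξ) := by
  have hdet : dt g ≠ 0 := dt_ne_zero g
  rw [dt, Matrix.det_fin_two] at hdet
  induction ξ using OnePoint.rec with
  | infty =>
    rw [OnePoint.smul_infty_eq_ite]
    by_cases h : (g : Matrix (Fin 2) (Fin 2) ℝ) 1 0 = 0
    · rw [if_pos h]
      refine ⟨(g : Matrix (Fin 2) (Fin 2) ℝ) 0 0, ?_, ?_, ?_⟩
      · intro h0
        apply hdet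
        rw [h, h0]; ring
      · simp
      · simp [h]
    · rw [if_neg h]
      refine ⟨(g : Matrix (Fin 2) (Fin 2) ℝ) 1 0, h, ?_, ?_⟩
      · simp only [v1_infty, v2_infty, v1_some]
        field_simp
        ring
      · simp
  | coe x =>
    rw [OnePoint.smul_some_eq_ite]
    by_cases h : (g : Matrix (Fin 2) (Fin 2) ℝ) 1 0 * x + (g : Matrix (Fin 2) (Fin 2) ℝ) 1 1 = 0
    · rw [if_pos h]
      refine ⟨(g : Matrix (Fin 2) (Fin 2) ℝ) 0 0 * x + (g : Matrix (Fin 2) (Fin 2) ℝ) 0 1, ?_, ?_, ?_⟩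
      · intro h0
        apply hdet
        by_cases hx : (g : Matrix (Fin 2) (Fin 2) ℝ) 1 0 = 0
        · have : (g : Matrix (Fin 2) (Fin 2) ℝ) 1 1 = 0 := by
            rw [hx] at h; linarith
          rw [hx, this]; ring
        · have e1 : (g : Matrix (Fin 2) (Fin 2) ℝ) 1 1 = -((g : Matrix (Fin 2) (Fin 2) ℝ) 1 0 * x) := by linarith
          have e2 : (g : Matrix (Fin 2) (Fin 2) ℝ) 0 1 = -((g : Matrix (Fin 2) (Fin 2) ℝ) 0 0 * x) := by linarith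
          rw [e1, e2]; ring
      · simp
      · simp [h]
    · rw [if_neg h]
      refine ⟨(g : Matrix (Fin 2) (Fin 2) ℝ) 1 0 * x + (g : Matrix (Fin 2) (Fin 2) ℝ) 1 1, h, ?_, ?_⟩
      · simp only [v1_some, v2_some]
        rw [mul_div_cancel₀ _ h, mul_one]
      · simp

lemma act_eq (g : GG) (ξ η : X) (k : ℝ) (hk : k ≠ 0)
    (h1 : (g : Matrix (Fin 2) (Fin 2) ℝ) 0 0 * v1 ξ + (g : Matrix (Fin 2) (Fin 2) ℝ) 0 1 * v2 ξ = k * v1 η)
    (h2 : (g : Matrix (Fin 2) (Fin 2) ℝ) 1 0 * v1 ξ + (g : Matrix (Fin 2) (Fin 2) ℝ) 1 1 * v2 ξ = k * v2 η) :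
    g • ξ = η := by
  obtain ⟨l, hl, e1, e2⟩ := act g ξ
  apply w_eq_zero
  have : k * l * w (g • ξ) η = 0 := by
    rw [w]
    have e3 : l * v1 (g • ξ) = k * v1 η := by rw [← e1, h1]
    have e4 : l * v2 (g • ξ) = k * v2 η := by rw [← e2, h2]
    linear_combination (k * v2 η) * e3 - (k * v1 η) * e4
  rcases mul_eq_zero.mp this with h | h
  · rcases mul_eq_zero.mp h with h | h
    · exact absurd h hk
    · exact absurd h hl
  · exact h

/-- squared norm of `g v_ξ` -/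
def NG (g : GG) (ξ : X) : ℝ :=
  ((g : Matrix (Fin 2) (Fin 2) ℝ) 0 0 * v1 ξ + (g : Matrix (Fin 2) (Fin 2) ℝ) 0 1 * v2 ξ) ^ 2 +
  ((g : Matrix (Fin 2) (Fin 2) ℝ) 1 0 * v1 ξ + (g : Matrix (Fin 2) (Fin 2) ℝ) 1 1 * v2 ξ) ^ 2

lemma NG_pos (g : GG) (ξ : X) : 0 < NG g ξ := by
  obtain ⟨k, hk, e1, e2⟩ := act g ξ
  rw [NG, e1, e2]
  have := N_pos (g • ξ)
  rw [N] at this
  have hk2 : 0 < k ^ 2 := by positivity
  nlinarith

lemma dd_smul (g : GG) (hg : dt g = 1) (a b : X) :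
    dd (g • a) (g • b) = |w a b| / (√(NG g a) * √(NG g b)) := by
  obtain ⟨k, hk, e1, e2⟩ := act g a
  obtain ⟨l, hl, f1, f2⟩ := act g b
  rw [dt, Matrix.det_fin_two] at hg
  have h1 : w a b = k * l * w (g • a) (g • b) := by
    rw [w, w]
    linear_combination (-(v1 a * v2 b - v2 a * v1 b)) * hg + 
      ((g : Matrix (Fin 2) (Fin 2) ℝ) 1 0 * v1 b + (g : Matrix (Fin 2) (Fin 2) ℝ) 1 1 * v2 b) * e1
      - ((g : Matrix (Fin 2) (Fin 2) ℝ) 0 0 * v1 b + (g : Matrix (Fin 2) (Fin 2) ℝ) 0 1 * v2 b) * e2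
      + (k * v1 (g • a)) * f2 - (k * v2 (g • a)) * f1
  have h2 : NG g a = k ^ 2 * N (g • a) := by
    rw [NG, e1, e2, N]; ring
  have h3 : NG g b = l ^ 2 * N (g • b) := by
    rw [NG, f1, f2, N]; ring
  rw [dd_eq, h1, h2, h3, Real.sqrt_mul (sq_nonneg k), Real.sqrt_mul (sq_nonneg l), Real.sqrt_sq_eq_abs,
    Real.sqrt_sq_eq_abs, abs_mul, abs_mul]
  have hk' : |k| ≠ 0 := abs_ne_zero.mpr hk
  have hl' : |l| ≠ 0 := abs_ne_zero.mpr hl
  have n1 : √(N (g • a)) ≠ 0 := (Real.sqrt_pos.mpr (N_pos _)).ne'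
  have n2 : √(N (g • b)) ≠ 0 := (Real.sqrt_pos.mpr (N_pos _)).ne'
  field_simp

/-- Hadamard inequality -/
lemma w_le (g : GG) (hg : dt g = 1) (a b : X) : |w a b| ≤ √(NG g a) * √(NG g b) := by
  rw [dt, Matrix.det_fin_two] at hg
  rw [← Real.sqrt_mul (NG_pos g a).le]
  apply Real.abs_le_sqrt
  rw [NG, NG]
  set p := (g : Matrix (Fin 2) (Fin 2) ℝ) 0 0 * v1 a + (g : Matrix (Fin 2) (Fin 2) ℝ) 0 1 * v2 a with hp
  set q := (g : Matrix (Fin 2) (Fin 2) ℝ) 1 0 * v1 a + (g : Matrix (Fin 2) (Fin 2) ℝ) 1 1 * v2 a with hq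
  set r := (g : Matrix (Fin 2) (Fin 2) ℝ) 0 0 * v1 b + (g : Matrix (Fin 2) (Fin 2) ℝ) 0 1 * v2 b with hr
  set s := (g : Matrix (Fin 2) (Fin 2) ℝ) 1 0 * v1 b + (g : Matrix (Fin 2) (Fin 2) ℝ) 1 1 * v2 b with hs
  have : w a b = p * s - q * r := by
    rw [w, hp, hq, hr, hs]
    linear_combination (-(v1 a * v2 b - v2 a * v1 b)) * hg
  rw [this]
  nlinarith [sq_nonneg (p * r + q * s)]

/-- norm bound from separation of the images of three points -/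
lemma bound3 (a b c : X) (hbc : b ≠ c) (ε : ℝ) (hε : 0 < ε) :
    ∃ R : ℝ, ∀ g : GG, dt g = 1 → ε ≤ dd (g • a) (g • b) → ε ≤ dd (g • a) (g • c) →
      √(NG g a) ^ 2 ≤ R := by
  have wbc : 0 < |w b c| := abs_pos.mpr (fun h => hbc (w_eq_zero h))
  refine ⟨|w a b| / ε * (|w a c| / ε) / |w b c|, ?_⟩
  intro g hg h1 h2
  rw [dd_smul g hg] at h1 h2
  have na : 0 < √(NG g a) := Real.sqrt_pos.mpr (NG_pos g a)
  have nb : 0 < √(NG g b) := Real.sqrt_pos.mpr (NG_pos g b)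
  have nc : 0 < √(NG g c) := Real.sqrt_pos.mpr (NG_pos g c)
  have h3 : √(NG g a) * √(NG g b) ≤ |w a b| / ε := by
    rw [le_div_iff₀ (by positivity)] at h1
    rw [le_div_iff₀ hε]
    linarith
  have h4 : √(NG g a) * √(NG g c) ≤ |w a c| / ε := by
    rw [le_div_iff₀ (by positivity)] at h2
    rw [le_div_iff₀ hε]
    linarith
  have h5 := w_le g hg b c
  rw [le_div_iff₀ wbc]
  have h6 : √(NG g a) ^ 2 * |w b c| ≤ √(NG g a) ^ 2 * (√(NG g b) * √(NG g c)) := by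
    apply mul_le_mul_of_nonneg_left h5 (by positivity)
  have h7 : √(NG g a) ^ 2 * (√(NG g b) * √(NG g c)) = (√(NG g a) * √(NG g b)) * (√(NG g a) * √(NG g c)) := by ring
  rw [h7] at h6
  refine h6.trans ?_
  exact mul_le_mul h3 h4 (by positivity) (by positivity)

lemma entry_bound (a b : X) (hab : a ≠ b) (R : ℝ) :
    ∃ M : ℝ, ∀ g : GG, √(NG g a) ^ 2 ≤ R → √(NG g b) ^ 2 ≤ R →
      ∀ i j, |(g : Matrix (Fin 2) (Fin 2) ℝ) i j| ≤ M := by
  have wab : 0 < |w a b| := abs_pos.mpr (fun h => hab (w_eq_zero h))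
  refine ⟨((|v1 a| + |v1 b| + |v2 a| + |v2 b|) * (2 * √R)) / |w a b|, ?_⟩
  intro g ha hb
  rw [Real.sq_sqrt (NG_pos g a).le] at ha
  rw [Real.sq_sqrt (NG_pos g b).le] at hb
  rw [NG] at ha hb
  set p := (g : Matrix (Fin 2) (Fin 2) ℝ) 0 0 * v1 a + (g : Matrix (Fin 2) (Fin 2) ℝ) 0 1 * v2 a with hp
  set q := (g : Matrix (Fin 2) (Fin 2) ℝ) 1 0 * v1 a + (g : Matrix (Fin 2) (Fin 2) ℝ) 1 1 * v2 a with hq
  set r := (g : Matrix (Fin 2) (Fin 2) ℝ) 0 0 * v1 b + (g : Matrix (Fin 2) (Fin 2) ℝ) 0 1 * v2 b with hr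
  set s := (g : Matrix (Fin 2) (Fin 2) ℝ) 1 0 * v1 b + (g : Matrix (Fin 2) (Fin 2) ℝ) 1 1 * v2 b with hs
  have bp : |p| ≤ √R := Real.abs_le_sqrt (by nlinarith [sq_nonneg q])
  have bq : |q| ≤ √R := Real.abs_le_sqrt (by nlinarith [sq_nonneg p])
  have br : |r| ≤ √R := Real.abs_le_sqrt (by nlinarith [sq_nonneg s])
  have bs : |s| ≤ √R := Real.abs_le_sqrt (by nlinarith [sq_nonneg r])
  have sR : 0 ≤ √R := Real.sqrt_nonneg R
  have key : ∀ (x α β y z : ℝ), w a b * x = α * y + β * z → |y| ≤ √R → |z| ≤ √R →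
      |α| ≤ |v1 a| + |v1 b| + |v2 a| + |v2 b| → |β| ≤ |v1 a| + |v1 b| + |v2 a| + |v2 b| →
      |x| ≤ ((|v1 a| + |v1 b| + |v2 a| + |v2 b|) * (2 * √R)) / |w a b| := by
    intro x α β y z h hy hz hα hβ
    rw [le_div_iff₀ wab, mul_comm, ← abs_mul, h]
    calc |α * y + β * z| ≤ |α * y| + |β * z| := abs_add_le _ _
      _ = |α| * |y| + |β| * |z| := by rw [abs_mul, abs_mul]
      _ ≤ (|v1 a| + |v1 b| + |v2 a| + |v2 b|) * √R + (|v1 a| + |v1 b| + |v2 a| + |v2 b|) * √R := by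
        apply add_le_add
        · exact mul_le_mul hα hy (abs_nonneg _) (by positivity)
        · exact mul_le_mul hβ hz (abs_nonneg _) (by positivity)
      _ = _ := by ring
  have n1 := abs_nonneg (v1 a)
  have n2 := abs_nonneg (v1 b)
  have n3 := abs_nonneg (v2 a)
  have n4 := abs_nonneg (v2 b)
  intro i j
  fin_cases i <;> fin_cases j
  · exact key _ (v2 b) (-v2 a) p r (by rw [w, hp, hr]; simp only [Fin.zero_eta]; ring) bp br (by linarith) (by rw [abs_neg]; linarith)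
  · exact key _ (-v1 b) (v1 a) p r (by rw [w, hp, hr]; simp only [Fin.zero_eta, Fin.mk_one]; ring) bp br (by rw [abs_neg]; linarith) (by linarith)
  · exact key _ (v2 b) (-v2 a) q s (by rw [w, hq, hs]; simp only [Fin.zero_eta, Fin.mk_one]; ring) bq bs (by linarith) (by rw [abs_neg]; linarith)
  · exact key _ (-v1 b) (v1 a) q s (by rw [w, hq, hs]; simp only [Fin.mk_one]; ring) bq bs (by rw [abs_neg]; linarith) (by linarith)

/-- separation for bounded matrices -/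
lemma sep_bdd (C : ℝ) (hC : 1 ≤ C) (g : GG) (hg : dt g = 1) (hb : ∀ i j, |(g : Matrix (Fin 2) (Fin 2) ℝ) i j| ≤ C)
    (a b : X) (ha1 : |v1 a| ≤ 1) (ha2 : |v2 a| ≤ 1) (hb1 : |v1 b| ≤ 1) (hb2 : |v2 b| ≤ 1) (hw : 1 ≤ |w a b|) :
    1 / (8 * C ^ 2) ≤ dd (g • a) (g • b) := by
  rw [dd_smul g hg]
  have key : ∀ c : X, |v1 c| ≤ 1 → |v2 c| ≤ 1 → NG g c ≤ 8 * C ^ 2 := by
    intro c h1 h2
    have aux : ∀ i, |(g : Matrix (Fin 2) (Fin 2) ℝ) i 0 * v1 c + (g : Matrix (Fin 2) (Fin 2) ℝ) i 1 * v2 c| ≤ 2 * C := by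
      intro i
      calc _ ≤ |(g : Matrix (Fin 2) (Fin 2) ℝ) i 0 * v1 c| + |(g : Matrix (Fin 2) (Fin 2) ℝ) i 1 * v2 c| := abs_add_le _ _
        _ = |(g : Matrix (Fin 2) (Fin 2) ℝ) i 0| * |v1 c| + |(g : Matrix (Fin 2) (Fin 2) ℝ) i 1| * |v2 c| := by
          rw [abs_mul, abs_mul]
        _ ≤ C * 1 + C * 1 := by
          apply add_le_add
          · exact mul_le_mul (hb i 0) h1 (abs_nonneg _) (by linarith)
          · exact mul_le_mul (hb i 1) h2 (abs_nonneg _) (by linarith)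
        _ = 2 * C := by ring
    have h3 := aux 0
    have h4 := aux 1
    rw [NG]
    have h5 : ((g : Matrix (Fin 2) (Fin 2) ℝ) 0 0 * v1 c + (g : Matrix (Fin 2) (Fin 2) ℝ) 0 1 * v2 c) ^ 2 ≤ (2 * C) ^ 2 :=
      sq_le_sq' (by linarith [(abs_le.mp h3).1]) (abs_le.mp h3).2
    have h6 : ((g : Matrix (Fin 2) (Fin 2) ℝ) 1 0 * v1 c + (g : Matrix (Fin 2) (Fin 2) ℝ) 1 1 * v2 c) ^ 2 ≤ (2 * C) ^ 2 :=
      sq_le_sq' (by linarith [(abs_le.mp h4).1]) (abs_le.mp h4).2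
    linarith
  have ka := key a ha1 ha2
  have kb := key b hb1 hb2
  have na : 0 < √(NG g a) := Real.sqrt_pos.mpr (NG_pos g a)
  have nb : 0 < √(NG g b) := Real.sqrt_pos.mpr (NG_pos g b)
  apply div_le_div₀ (abs_nonneg _) hw (by positivity)
  calc √(NG g a) * √(NG g b) ≤ √(8 * C ^ 2) * √(8 * C ^ 2) :=
        mul_le_mul (Real.sqrt_le_sqrt ka) (Real.sqrt_le_sqrt kb) nb.le (Real.sqrt_nonneg _)
    _ = 8 * C ^ 2 := Real.mul_self_sqrt (by positivity)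

/-- three distinct points are the image of `0, ±1, ∞` -/
lemma exists_triple (x y z : X) (hxy : x ≠ y) (hxz : x ≠ z) (hyz : y ≠ z) :
    ∃ g : GG, dt g = 1 ∧ g • (OnePoint.some 0 : X) = x ∧ g • (OnePoint.infty : X) = z ∧
      (g • (OnePoint.some 1 : X) = y ∨ g • (OnePoint.some (-1) : X) = y) := by
  have wxy : w x y ≠ 0 := fun h => hxy (w_eq_zero h)
  have wxz : w x z ≠ 0 := fun h => hxz (w_eq_zero h)
  have wyz : w y z ≠ 0 := fun h => hyz (w_eq_zero h)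
  -- `w x z • v y = w y z • v x + w x y • v z`
  have r1 : w x z * v1 y = w y z * v1 x + w x y * v1 z := by rw [w, w, w]; ring
  have r2 : w x z * v2 y = w y z * v2 x + w x y * v2 z := by rw [w, w, w]; ring
  -- columns: `σ * w x y * v z`, `w y z * v x`, determinant `σ * w x y * w y z * w z x`
  have hP : w x y * w y z * w x z ≠ 0 := mul_ne_zero (mul_ne_zero wxy wyz) wxz
  obtain ⟨σ, hσ, hpos⟩ : ∃ σ : ℝ, (σ = 1 ∨ σ = -1) ∧ 0 < -(σ * (w x y * w y z * w x z)) := by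
    rcases lt_or_gt_of_ne hP with h | h
    · exact ⟨1, Or.inl rfl, by linarith⟩
    · exact ⟨-1, Or.inr rfl, by linarith⟩
  set D := -(σ * (w x y * w y z * w x z)) with hD
  set t := 1 / √D with ht
  have htD : t ^ 2 * D = 1 := by
    rw [ht, div_pow, Real.sq_sqrt hpos.le]
    field_simp
  have t0 : t ≠ 0 := by
    rw [ht]
    have := Real.sqrt_pos.mpr hpos
    positivity
  have σ0 : σ ≠ 0 := by rcases hσ with h | h <;> rw [h] <;> norm_num
  set m : Matrix (Fin 2) (Fin 2) ℝ := !![t * (σ * w x y * v1 z), t * (w y z * v1 x); t * (σ * w x y * v2 z), t * (w y z * v2 x)] with hm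
  have hdet : m.det = 1 := by
    rw [hm, Matrix.det_fin_two_of, ← htD, hD]
    simp only [w]
    ring
  set g : GG := Matrix.GeneralLinearGroup.mkOfDetNeZero m (by rw [hdet]; norm_num) with hg
  have e00 : (g : Matrix (Fin 2) (Fin 2) ℝ) 0 0 = t * (σ * w x y * v1 z) := rfl
  have e01 : (g : Matrix (Fin 2) (Fin 2) ℝ) 0 1 = t * (w y z * v1 x) := rfl
  have e10 : (g : Matrix (Fin 2) (Fin 2) ℝ) 1 0 = t * (σ * w x y * v2 z) := rfl
  have e11 : (g : Matrix (Fin 2) (Fin 2) ℝ) 1 1 = t * (w y z * v2 x) := rfl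
  refine ⟨g, hdet, ?_, ?_, ?_⟩
  · apply act_eq g _ _ (t * w y z) (mul_ne_zero t0 wyz)
    · rw [e00, e01]; simp only [v1_some, v2_some]; ring
    · rw [e10, e11]; simp only [v1_some, v2_some]; ring
  · apply act_eq g _ _ (t * (σ * w x y)) (mul_ne_zero t0 (mul_ne_zero σ0 wxy))
    · rw [e00, e01]; simp only [v1_infty, v2_infty]; ring
    · rw [e10, e11]; simp only [v1_infty, v2_infty]; ring
  · rcases hσ with h | h
    · left
      apply act_eq g _ _ (t * w x z) (mul_ne_zero t0 wxz)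
      · rw [e00, e01, h]; simp only [v1_some, v2_some]
        linear_combination (-t) * r1
      · rw [e10, e11, h]; simp only [v1_some, v2_some]
        linear_combination (-t) * r2
    · right
      apply act_eq g _ _ (t * w x z) (mul_ne_zero t0 wxz)
      · rw [e00, e01, h]; simp only [v1_some, v2_some]
        linear_combination (-t) * r1
      · rw [e10, e11, h]; simp only [v1_some, v2_some]
        linear_combination (-t) * r2

/-- an element of determinant one acting trivially has square one -/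
lemma sq_of_trivial (g : GG) (hg : dt g = 1) (h : ∀ ξ : X, g • ξ = ξ) : g ^ 2 = 1 := by
  have h10 : (g : Matrix (Fin 2) (Fin 2) ℝ) 1 0 = 0 := by
    obtain ⟨k, hk, e1, e2⟩ := act g (OnePoint.infty : X)
    rw [h] at e2
    simpa using e2
  have h01 : (g : Matrix (Fin 2) (Fin 2) ℝ) 0 1 = 0 := by
    obtain ⟨k, hk, e1, e2⟩ := act g (OnePoint.some 0 : X)
    rw [h] at e1
    simpa using e1
  have h11 : (g : Matrix (Fin 2) (Fin 2) ℝ) 0 0 = (g : Matrix (Fin 2) (Fin 2) ℝ) 1 1 := by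
    obtain ⟨k, hk, e1, e2⟩ := act g (OnePoint.some 1 : X)
    rw [h] at e1 e2
    simp only [v1_some, v2_some, h10, h01] at e1 e2
    linarith
  rw [dt, Matrix.det_fin_two, h10, h01, ← h11] at hg
  apply Units.ext
  rw [Units.val_pow_eq_pow_val, pow_two]
  ext i j
  rw [Matrix.mul_apply, Fin.sum_univ_two]
  fin_cases i <;> fin_cases j
  · show (g : Matrix (Fin 2) (Fin 2) ℝ) 0 0 * (g : Matrix (Fin 2) (Fin 2) ℝ) 0 0 + (g : Matrix (Fin 2) (Fin 2) ℝ) 0 1 * (g : Matrix (Fin 2) (Fin 2) ℝ) 1 0 = _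
    rw [h01, h10]; simp; linarith
  · show (g : Matrix (Fin 2) (Fin 2) ℝ) 0 0 * (g : Matrix (Fin 2) (Fin 2) ℝ) 0 1 + (g : Matrix (Fin 2) (Fin 2) ℝ) 0 1 * (g : Matrix (Fin 2) (Fin 2) ℝ) 1 1 = _
    rw [h01]; simp
  · show (g : Matrix (Fin 2) (Fin 2) ℝ) 1 0 * (g : Matrix (Fin 2) (Fin 2) ℝ) 0 0 + (g : Matrix (Fin 2) (Fin 2) ℝ) 1 1 * (g : Matrix (Fin 2) (Fin 2) ℝ) 1 0 = _
    rw [h10]; simp
  · show (g : Matrix (Fin 2) (Fin 2) ℝ) 1 0 * (g : Matrix (Fin 2) (Fin 2) ℝ) 0 1 + (g : Matrix (Fin 2) (Fin 2) ℝ) 1 1 * (g : Matrix (Fin 2) (Fin 2) ℝ) 1 1 = _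
    rw [h01, ← h11]; simp; linarith

lemma eq_of_act {Γ : Subgroup GG} (h : Fuchs Γ) {a b : GG} (ha : a ∈ Γ) (hb : b ∈ Γ)
    (hab : ∀ ξ : X, a • ξ = b • ξ) : a = b := by
  have h1 : b⁻¹ * a ∈ Γ := Γ.mul_mem (Γ.inv_mem hb) ha
  have h2 : (b⁻¹ * a) ^ 2 = 1 := by
    apply sq_of_trivial _ (h.det1 _ h1)
    intro ξ
    rw [mul_smul, hab, inv_smul_smul]
  have h3 := h.tf _ h1 2 (by norm_num) h2
  exact (inv_mul_eq_one.mp h3).symm

/-- uniform continuity with respect to the chordal distance -/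
lemma unif (comm : ∀ a b : X, dd a b = dd b a)
    (tri : ∀ a b c : X, dd a c ≤ dd a b + dd b c)
    (ball : ∀ (ξ : X) (ε : ℝ), 0 < ε → {η : X | dd ξ η < ε} ∈ 𝓝 ξ)
    (nh : ∀ (ξ : X) (U : Set X), U ∈ 𝓝 ξ → ∃ ε > 0, ∀ η, dd ξ η < ε → η ∈ U)
    (k : X → X) (hk : Continuous k) (ε : ℝ) (hε : 0 < ε) :
    ∃ δ : ℝ, 0 < δ ∧ ∀ a b, dd a b < δ → dd (k a) (k b) < ε := by
  have main : ∃ δ : ℝ, 0 < δ ∧ ∀ a ∈ (Set.univ : Set X), ∀ b, dd a b < δ → dd (k a) (k b) < ε := by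
    refine isCompact_univ.induction_on
      (p := fun S : Set X => ∃ δ : ℝ, 0 < δ ∧ ∀ a ∈ S, ∀ b, dd a b < δ → dd (k a) (k b) < ε)
      ⟨1, one_pos, fun x hx => absurd hx (Set.notMem_empty x)⟩ ?_ ?_ ?_
    · rintro s t hst ⟨δ, hδ, h⟩
      exact ⟨δ, hδ, fun x hx => h x (hst hx)⟩
    · rintro s t ⟨δ, hδ, h⟩ ⟨δ', hδ', h'⟩
      refine ⟨min δ δ', lt_min hδ hδ', ?_⟩
      rintro x (hx | hx) η hη
      · exact h x hx η (hη.trans_le (min_le_left _ _))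
      · exact h' x hx η (hη.trans_le (min_le_right _ _))
    · intro x _
      obtain ⟨r, hr, h⟩ := nh x (k ⁻¹' {η : X | dd (k x) η < ε / 2})
        (hk.continuousAt.preimage_mem_nhds (ball (k x) (ε / 2) (half_pos hε)))
      refine ⟨{η | dd x η < r / 2}, mem_nhdsWithin_of_mem_nhds (ball x (r / 2) (half_pos hr)),
        r / 2, half_pos hr, ?_⟩
      intro y hy η hη
      have hy' : dd x y < r / 2 := hy
      have h1 : dd (k x) (k y) < ε / 2 := h y (by linarith)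
      have h2 : dd (k x) (k η) < ε / 2 := h η (by linarith [tri x y η])
      have h3 := tri (k y) (k x) (k η)
      rw [comm (k y) (k x)] at h3
      linarith
  obtain ⟨δ, hδ, h⟩ := main
  exact ⟨δ, hδ, fun a b => h a (Set.mem_univ a) b⟩

/-- main step: the transported group has finitely many cosets -/
lemma finite_cosets (comm : ∀ a b : X, dd a b = dd b a)
    (tri : ∀ a b c : X, dd a c ≤ dd a b + dd b c)
    (ball : ∀ (ξ : X) (ε : ℝ), 0 < ε → {η : X | dd ξ η < ε} ∈ 𝓝 ξ)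
    (nh : ∀ (ξ : X) (U : Set X), U ∈ 𝓝 ξ → ∃ ε > 0, ∀ η, dd ξ η < ε → η ∈ U)
    {Γ A : Subgroup GG} (hΓ : Fuchs Γ) (hA : Fuchs A) (h : X ≃ₜ X)
    (hh : ∀ a ∈ A, ∃ γ ∈ Γ, ∀ ξ : X, h (a • ξ) = γ • h ξ) :
    ∃ F : Set GG, F.Finite ∧ ∀ γ ∈ Γ, ∃ a ∈ A, ∃ c ∈ Γ, (∀ ξ : X, h (a • ξ) = c • h ξ) ∧
      c⁻¹ * γ ∈ F := by
  obtain ⟨C₀, hC₀⟩ := hA.coc
  set C := max C₀ 1 with hC
  have hC1 : 1 ≤ C := le_max_right _ _
  obtain ⟨ε, hε, hu⟩ := unif comm tri ball nh h.symm h.symm.continuous (1 / (8 * C ^ 2)) (by positivity)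
  set u0 := h (OnePoint.some 0 : X) with hu0
  set u1 := h (OnePoint.some 1 : X) with hu1
  set u2 := h (OnePoint.infty : X) with hu2
  have n01 : u0 ≠ u1 := by
    intro e
    have := h.injective e
    simp at this
  have n02 : u0 ≠ u2 := by
    intro e
    have := h.injective e
    simp at this
  have n12 : u1 ≠ u2 := by
    intro e
    have := h.injective e
    simp at this
  obtain ⟨R0, hR0⟩ := bound3 u0 u1 u2 n12 ε hε
  obtain ⟨R1, hR1⟩ := bound3 u1 u0 u2 n02 ε hε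
  obtain ⟨M, hM⟩ := entry_bound u0 u1 n01 (max R0 R1)
  refine ⟨_, hΓ.disc M, ?_⟩
  intro γ hγ
  set s0 := h.symm (γ • u0) with hs0
  set s1 := h.symm (γ • u1) with hs1
  set s2 := h.symm (γ • u2) with hs2
  have m01 : s0 ≠ s1 := fun e => n01 (smul_left_cancel γ (h.symm.injective e))
  have m02 : s0 ≠ s2 := fun e => n02 (smul_left_cancel γ (h.symm.injective e))
  have m12 : s1 ≠ s2 := fun e => n12 (smul_left_cancel γ (h.symm.injective e))
  obtain ⟨g, hg, g0, g2, g1⟩ := exists_triple s0 s1 s2 m01 m02 m12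
  obtain ⟨a, ha, hb⟩ := hC₀ g hg
  obtain ⟨c, hc, hac⟩ := hh a ha
  refine ⟨a, ha, c, hc, hac, Γ.mul_mem (Γ.inv_mem hc) hγ, ?_⟩
  have hda : dt (a⁻¹ * g) = 1 := by
    rw [dt_mul, hg, mul_one]
    exact hA.det1 _ (A.inv_mem ha)
  have hb' : ∀ i j, |((a⁻¹ * g : GG) : Matrix (Fin 2) (Fin 2) ℝ) i j| ≤ C :=
    fun i j => (hb i j).trans (le_max_left _ _)
  -- separation of the points `a⁻¹ s_i`
  have q02 : 1 / (8 * C ^ 2) ≤ dd (a⁻¹ • s0) (a⁻¹ • s2) := by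
    have := sep_bdd C hC1 (a⁻¹ * g) hda hb' (OnePoint.some 0) OnePoint.infty (by simp) (by simp) (by simp) (by simp)
      (by simp [w])
    rwa [mul_smul, mul_smul, g0, g2] at this
  have q01 : 1 / (8 * C ^ 2) ≤ dd (a⁻¹ • s0) (a⁻¹ • s1) := by
    rcases g1 with g1 | g1
    · have := sep_bdd C hC1 (a⁻¹ * g) hda hb' (OnePoint.some 0) (OnePoint.some 1) (by simp) (by simp) (by simp) (by simp)
        (by simp [w])
      rwa [mul_smul, mul_smul, g0, g1] at this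
    · have := sep_bdd C hC1 (a⁻¹ * g) hda hb' (OnePoint.some 0) (OnePoint.some (-1)) (by simp) (by simp) (by simp) (by simp)
        (by simp [w])
      rwa [mul_smul, mul_smul, g0, g1] at this
  have q12 : 1 / (8 * C ^ 2) ≤ dd (a⁻¹ • s1) (a⁻¹ • s2) := by
    rcases g1 with g1 | g1
    · have := sep_bdd C hC1 (a⁻¹ * g) hda hb' (OnePoint.some 1) OnePoint.infty (by simp) (by simp) (by simp) (by simp)
        (by simp [w])
      rwa [mul_smul, mul_smul, g1, g2] at this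
    · have := sep_bdd C hC1 (a⁻¹ * g) hda hb' (OnePoint.some (-1)) OnePoint.infty (by simp) (by simp) (by simp) (by simp)
        (by simp [w])
      rwa [mul_smul, mul_smul, g1, g2] at this
  have tr : ∀ u : X, h.symm ((c⁻¹ * γ) • u) = a⁻¹ • h.symm (γ • u) := by
    intro u
    rw [h.symm_apply_eq, eq_comm, mul_smul, eq_inv_smul_iff, ← hac, smul_inv_smul, h.apply_symm_apply]
  have sepc : ∀ u v : X, 1 / (8 * C ^ 2) ≤ dd (a⁻¹ • h.symm (γ • u)) (a⁻¹ • h.symm (γ • v)) →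
      ε ≤ dd ((c⁻¹ * γ) • u) ((c⁻¹ * γ) • v) := by
    intro u v huv
    by_contra hcon
    rw [not_le] at hcon
    have := hu _ _ hcon
    rw [tr, tr] at this
    linarith
  have p01 := sepc u0 u1 q01
  have p02 := sepc u0 u2 q02
  have p12 := sepc u1 u2 q12
  have hdc : dt (c⁻¹ * γ) = 1 := hΓ.det1 _ (Γ.mul_mem (Γ.inv_mem hc) hγ)
  apply hM
  · exact (hR0 _ hdc p01 p02).trans (le_max_left _ _)
  · exact (hR1 _ hdc (by rw [comm]; exact p01) p12).trans (le_max_right _ _)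

lemma act_some {g : Matrix.SpecialLinearGroup (Fin 2) ℝ} {x : ℝ}
    (hx : (g : Matrix (Fin 2) (Fin 2) ℝ) 1 0 * x + (g : Matrix (Fin 2) (Fin 2) ℝ) 1 1 ≠ 0) :
    (Matrix.SpecialLinearGroup.toGL g) • (OnePoint.some x : X) =
      OnePoint.some (((g : Matrix (Fin 2) (Fin 2) ℝ) 0 0 * x + (g : Matrix (Fin 2) (Fin 2) ℝ) 0 1) /
        ((g : Matrix (Fin 2) (Fin 2) ℝ) 1 0 * x + (g : Matrix (Fin 2) (Fin 2) ℝ) 1 1)) := by
  rw [OnePoint.smul_some_eq_ite, if_neg]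
  · rfl
  · exact hx

theorem pack (comm : ∀ a b : X, dd a b = dd b a)
    (tri : ∀ a b c : X, dd a c ≤ dd a b + dd b c)
    (ball : ∀ (ξ : X) (ε : ℝ), 0 < ε → {η : X | dd ξ η < ε} ∈ 𝓝 ξ)
    (nh : ∀ (ξ : X) (U : Set X), U ∈ 𝓝 ξ → ∃ ε > 0, ∀ η, dd ξ η < ε → η ∈ U)
    (Γ : Subgroup (Matrix.SpecialLinearGroup (Fin 2) ℝ)) (hΓ : Fuchs (toGG Γ))
    (h : X ≃ₜ X) (hg : Good (toGG Γ) h) :
    ∃ H K : Subgroup (Matrix.SpecialLinearGroup (Fin 2) ℝ),
      H ≤ Γ ∧ K ≤ Γ ∧ (H.subgroupOf Γ).index ≠ 0 ∧ (K.subgroupOf Γ).index ≠ 0 ∧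
      ∃ φ : H ≃* K, ∀ g : H, ∀ ξ : X,
        h (Matrix.SpecialLinearGroup.toGL (g : Matrix.SpecialLinearGroup (Fin 2) ℝ) • ξ) =
          Matrix.SpecialLinearGroup.toGL ((φ g : K) : Matrix.SpecialLinearGroup (Fin 2) ℝ) • h ξ := by
  obtain ⟨A, hAΓ, hAi, hA⟩ := hg
  have fA : Fuchs A := fuchs_of_index hΓ hAΓ hAi
  set τ : Matrix.SpecialLinearGroup (Fin 2) ℝ →* GG := Matrix.SpecialLinearGroup.toGL with hτ
  have τinj : Function.Injective τ := Matrix.SpecialLinearGroup.toGL_injective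
  set H : Subgroup (Matrix.SpecialLinearGroup (Fin 2) ℝ) := A.comap τ with hH
  have hHΓ : H ≤ Γ := by
    intro s hs
    obtain ⟨t, ht, hts⟩ := hAΓ hs
    rwa [← τinj hts]
  have mem : ∀ s, s ∈ Γ → τ s ∈ toGG Γ := fun s hs => Subgroup.mem_map_of_mem τ hs
  have uniq : ∀ k ∈ Γ, ∀ k' ∈ Γ, (∀ ξ : X, τ k • h ξ = τ k' • h ξ) → k = k' := by
    intro k hk k' hk' hkk
    apply τinj
    apply eq_of_act hΓ (mem k hk) (mem k' hk')
    intro ξ
    have := hkk (h.symm ξ)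
    rwa [h.apply_symm_apply] at this
  have ex : ∀ s : H, ∃ k, k ∈ Γ ∧ ∀ ξ : X, h (τ (s : Matrix.SpecialLinearGroup (Fin 2) ℝ) • ξ) = τ k • h ξ := by
    intro s
    obtain ⟨γ, hγ, hs⟩ := hA (τ s) s.2
    obtain ⟨k, hk, rfl⟩ := hγ
    exact ⟨k, hk, hs⟩
  choose f hfΓ hf using ex
  let ψ : H →* Matrix.SpecialLinearGroup (Fin 2) ℝ := MonoidHom.mk' f (by
    intro a b
    apply uniq _ (hfΓ _) _ (Γ.mul_mem (hfΓ a) (hfΓ b))
    intro ξ
    rw [← hf, map_mul, mul_smul, ← hf b, ← hf a, Subgroup.coe_mul, map_mul, mul_smul])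
  have ψf : ∀ a, ψ a = f a := fun a => rfl
  have ψinj : Function.Injective ψ := by
    intro a b hab
    rw [ψf, ψf] at hab
    apply Subtype.ext
    apply τinj
    apply eq_of_act hΓ (mem _ (hHΓ a.2)) (mem _ (hHΓ b.2))
    intro ξ
    apply h.injective
    rw [hf, hf, hab]
  obtain ⟨F, hF, hcos⟩ := finite_cosets comm tri ball nh hΓ fA h hA
  refine ⟨H, ψ.range, hHΓ, ?_, ?_, ?_, MonoidHom.ofInjective ψinj, ?_⟩
  · rintro _ ⟨a, rfl⟩
    exact hfΓ a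
  · show H.relIndex Γ ≠ 0
    rw [hH, Subgroup.relIndex_comap]
    exact hAi
  · have key : ∀ q : Γ ⧸ (ψ.range.subgroupOf Γ), ∃ c : Matrix.SpecialLinearGroup (Fin 2) ℝ,
        c ∈ ψ.range ∧ (τ c)⁻¹ * τ ((q.out : Γ) : Matrix.SpecialLinearGroup (Fin 2) ℝ)⁻¹ ∈ F := by
      intro q
      obtain ⟨a, ha, c, hc, hac, hmem⟩ := hcos (τ ((q.out : Γ) : Matrix.SpecialLinearGroup (Fin 2) ℝ)⁻¹)
        (mem _ (Γ.inv_mem q.out.2))
      obtain ⟨c', hc', rfl⟩ := hc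
      obtain ⟨a', ha', rfl⟩ := hAΓ ha
      refine ⟨c', ⟨⟨a', ha⟩, ?_⟩, hmem⟩
      rw [ψf]
      apply uniq _ (hfΓ _) _ hc'
      intro ξ
      rw [← hf]
      exact hac ξ
    choose c hc hcF using key
    have : Finite F := hF
    have fin : Finite (Γ ⧸ (ψ.range.subgroupOf Γ)) := by
      refine Finite.of_injective (fun q => (⟨_, hcF q⟩ : F)) ?_
      intro q q' hqq
      have e1 := congrArg Subtype.val hqq
      simp only at e1
      rw [← map_inv, ← map_inv, ← map_mul, ← map_mul] at e1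
      have e2 := τinj e1
      rw [← QuotientGroup.out_eq' q, ← QuotientGroup.out_eq' q', QuotientGroup.eq, Subgroup.mem_subgroupOf]
      have e3 : (((q.out : Γ)⁻¹ * (q'.out : Γ) : Γ) : Matrix.SpecialLinearGroup (Fin 2) ℝ) = c q * (c q')⁻¹ := by
        rw [Subgroup.coe_mul, Subgroup.coe_inv]
        have e4 : ((q.out : Γ) : Matrix.SpecialLinearGroup (Fin 2) ℝ)⁻¹ = c q * ((c q')⁻¹ * ((q'.out : Γ) : Matrix.SpecialLinearGroup (Fin 2) ℝ)⁻¹) := by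
          rw [← e2]; group
        rw [e4]; group
      rw [e3]
      exact ψ.range.mul_mem (hc q) (ψ.range.inv_mem (hc q'))
    exact Subgroup.index_ne_zero_of_finite
  · intro g ξ
    exact hf g ξ

theorem pack' (comm : ∀ a b : X, dd a b = dd b a)
    (tri : ∀ a b c : X, dd a c ≤ dd a b + dd b c)
    (ball : ∀ (ξ : X) (ε : ℝ), 0 < ε → {η : X | dd ξ η < ε} ∈ 𝓝 ξ)
    (nh : ∀ (ξ : X) (U : Set X), U ∈ 𝓝 ξ → ∃ ε > 0, ∀ η, dd ξ η < ε → η ∈ U)
    (Γ : Subgroup (Matrix.SpecialLinearGroup (Fin 2) ℝ)) (hΓ : Fuchs (toGG Γ))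
    (h : X ≃ₜ X) (hg : Good (toGG Γ) h) :
    ∃ H K : Subgroup (Matrix.SpecialLinearGroup (Fin 2) ℝ),
      H ≤ Γ ∧ K ≤ Γ ∧ (H.subgroupOf Γ).index ≠ 0 ∧ (K.subgroupOf Γ).index ≠ 0 ∧
      ∃ φ : H ≃* K, ∀ g : H, ∀ x y : ℝ,
        ((g : Matrix.SpecialLinearGroup (Fin 2) ℝ) : Matrix (Fin 2) (Fin 2) ℝ) 1 0 * x
          + ((g : Matrix.SpecialLinearGroup (Fin 2) ℝ) : Matrix (Fin 2) (Fin 2) ℝ) 1 1 ≠ 0 →
        h (OnePoint.some x) = OnePoint.some y →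
        (((φ g : K) : Matrix.SpecialLinearGroup (Fin 2) ℝ) : Matrix (Fin 2) (Fin 2) ℝ) 1 0 * y
          + (((φ g : K) : Matrix.SpecialLinearGroup (Fin 2) ℝ) : Matrix (Fin 2) (Fin 2) ℝ) 1 1 ≠ 0 →
        h (OnePoint.some
            ((((g : Matrix.SpecialLinearGroup (Fin 2) ℝ) : Matrix (Fin 2) (Fin 2) ℝ) 0 0 * x
              + ((g : Matrix.SpecialLinearGroup (Fin 2) ℝ) : Matrix (Fin 2) (Fin 2) ℝ) 0 1) /
             (((g : Matrix.SpecialLinearGroup (Fin 2) ℝ) : Matrix (Fin 2) (Fin 2) ℝ) 1 0 * x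
              + ((g : Matrix.SpecialLinearGroup (Fin 2) ℝ) : Matrix (Fin 2) (Fin 2) ℝ) 1 1)))
          = OnePoint.some
            (((((φ g : K) : Matrix.SpecialLinearGroup (Fin 2) ℝ) : Matrix (Fin 2) (Fin 2) ℝ) 0 0 * y
              + (((φ g : K) : Matrix.SpecialLinearGroup (Fin 2) ℝ) : Matrix (Fin 2) (Fin 2) ℝ) 0 1) /
             ((((φ g : K) : Matrix.SpecialLinearGroup (Fin 2) ℝ) : Matrix (Fin 2) (Fin 2) ℝ) 1 0 * y
              + (((φ g : K) : Matrix.SpecialLinearGroup (Fin 2) ℝ) : Matrix (Fin 2) (Fin 2) ℝ) 1 1)) := by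
  obtain ⟨H, K, hH, hK, iH, iK, φ, hφ⟩ := pack comm tri ball nh Γ hΓ h hg
  refine ⟨H, K, hH, hK, iH, iK, φ, ?_⟩
  intro g x y hx hxy hy
  rw [← act_some hx, hφ, hxy, act_some hy]

end A10

theorem good_pack (Γ : Subgroup (Matrix.SpecialLinearGroup (Fin 2) ℝ)) (hΓ : Fuchs (toGG Γ))
    (h : X ≃ₜ X) (hg : Good (toGG Γ) h) :
    ∃ H K : Subgroup (Matrix.SpecialLinearGroup (Fin 2) ℝ),
      H ≤ Γ ∧ K ≤ Γ ∧ (H.subgroupOf Γ).index ≠ 0 ∧ (K.subgroupOf Γ).index ≠ 0 ∧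
      ∃ φ : H ≃* K, ∀ g : H, ∀ x y : ℝ,
        ((g : Matrix.SpecialLinearGroup (Fin 2) ℝ) : Matrix (Fin 2) (Fin 2) ℝ) 1 0 * x
          + ((g : Matrix.SpecialLinearGroup (Fin 2) ℝ) : Matrix (Fin 2) (Fin 2) ℝ) 1 1 ≠ 0 →
        h (OnePoint.some x) = OnePoint.some y →
        (((φ g : K) : Matrix.SpecialLinearGroup (Fin 2) ℝ) : Matrix (Fin 2) (Fin 2) ℝ) 1 0 * y
          + (((φ g : K) : Matrix.SpecialLinearGroup (Fin 2) ℝ) : Matrix (Fin 2) (Fin 2) ℝ) 1 1 ≠ 0 →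
        h (OnePoint.some
            ((((g : Matrix.SpecialLinearGroup (Fin 2) ℝ) : Matrix (Fin 2) (Fin 2) ℝ) 0 0 * x
              + ((g : Matrix.SpecialLinearGroup (Fin 2) ℝ) : Matrix (Fin 2) (Fin 2) ℝ) 0 1) /
             (((g : Matrix.SpecialLinearGroup (Fin 2) ℝ) : Matrix (Fin 2) (Fin 2) ℝ) 1 0 * x
              + ((g : Matrix.SpecialLinearGroup (Fin 2) ℝ) : Matrix (Fin 2) (Fin 2) ℝ) 1 1)))
          = OnePoint.some
            (((((φ g : K) : Matrix.SpecialLinearGroup (Fin 2) ℝ) : Matrix (Fin 2) (Fin 2) ℝ) 0 0 * y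
              + (((φ g : K) : Matrix.SpecialLinearGroup (Fin 2) ℝ) : Matrix (Fin 2) (Fin 2) ℝ) 0 1) /
             ((((φ g : K) : Matrix.SpecialLinearGroup (Fin 2) ℝ) : Matrix (Fin 2) (Fin 2) ℝ) 1 0 * y
              + (((φ g : K) : Matrix.SpecialLinearGroup (Fin 2) ℝ) : Matrix (Fin 2) (Fin 2) ℝ) 1 1)) :=
  A10.pack' dd_comm dd_triangle dd_ball dd_nhds Γ hΓ h hg

end Pool.Agent.H100R2.SC
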