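import Pool.Agent.H100R2.SC.Defs

/-!
# Nontrivial elements of a cocompact torsion free Fuchsian group are hyperbolic
-/

set_option autoImplicit false

namespace Pool.Agent.H100R2.SC

open Matrix

theorem a2_dt (g : GG) : dt g = (g : Matrix (Fin 2) (Fin 2) ℝ) 0 0 * (g : Matrix (Fin 2) (Fin 2) ℝ) 1 1 -
    (g : Matrix (Fin 2) (Fin 2) ℝ) 0 1 * (g : Matrix (Fin 2) (Fin 2) ℝ) 1 0 := by
  rw [dt, Matrix.det_fin_two]

theorem a2_inv (m : GG) (hm : dt m = 1) : ((m⁻¹ : GG) : Matrix (Fin 2) (Fin 2) ℝ) =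
    !![(m : Matrix (Fin 2) (Fin 2) ℝ) 1 1, -(m : Matrix (Fin 2) (Fin 2) ℝ) 0 1;
      -(m : Matrix (Fin 2) (Fin 2) ℝ) 1 0, (m : Matrix (Fin 2) (Fin 2) ℝ) 0 0] := by
  rw [Matrix.coe_units_inv, Matrix.inv_def, Matrix.adjugate_fin_two]
  have h : (m : Matrix (Fin 2) (Fin 2) ℝ).det = 1 := hm
  rw [h, Ring.inverse_one, one_smul]

/-- powers are linear combinations of `g` and `1` -/
theorem a2_pow (g : GG) (hd : dt g = 1) (n : ℕ) : ∃ α β : ℝ, ((g ^ n : GG) : Matrix (Fin 2) (Fin 2) ℝ) =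
    α • (g : Matrix (Fin 2) (Fin 2) ℝ) + β • (1 : Matrix (Fin 2) (Fin 2) ℝ) := by
  induction n with
  | zero => exact ⟨0, 1, by simp⟩
  | succ n ih =>
    obtain ⟨α, β, h⟩ := ih
    refine ⟨α * trc g + β, -α, ?_⟩
    rw [pow_succ, Units.val_mul, h]
    rw [a2_dt] at hd
    ext i j
    fin_cases i <;> fin_cases j <;>
      simp [Matrix.mul_apply, Fin.sum_univ_two, trc] <;>
      first | linear_combination (-α) * hd | ring

theorem a2_dt_pow (g : GG) (hd : dt g = 1) (n : ℕ) : dt (g ^ n) = 1 := by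
  induction n with
  | zero => rw [pow_zero, dt_one]
  | succ n ih => rw [pow_succ, dt_mul, ih, hd, one_mul]

theorem a2_bdd (g : GG) (hd : dt g = 1) (ht : trc g ^ 2 < 4) : ∃ M : ℝ, ∀ n : ℕ, ∀ i j,
    |((g ^ n : GG) : Matrix (Fin 2) (Fin 2) ℝ) i j| ≤ M := by
  have h4 : 0 < 4 - trc g ^ 2 := by linarith
  set K : ℝ := 1 + 4 / (4 - trc g ^ 2) with hK
  have hK0 : 0 ≤ K := by positivity
  set G : ℝ := ∑ i, ∑ j, |(g : Matrix (Fin 2) (Fin 2) ℝ) i j| with hG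
  refine ⟨K * G + K, fun n i j => ?_⟩
  obtain ⟨α, β, h⟩ := a2_pow g hd n
  have hdn := a2_dt_pow g hd n
  have hq : α ^ 2 + trc g * α * β + β ^ 2 = 1 := by
    rw [a2_dt, h] at hdn
    rw [a2_dt] at hd
    simp [Matrix.add_apply, Matrix.smul_apply] at hdn
    rw [trc]
    linear_combination hdn - α ^ 2 * hd
  have key : ∀ a b : ℝ, a ^ 2 + trc g * a * b + b ^ 2 = 1 → |a| ≤ K := by
    intro a b hab
    have h1 : a ^ 2 * (4 - trc g ^ 2) ≤ 4 := by nlinarith [sq_nonneg (2 * b + trc g * a)]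
    have h2 : a ^ 2 ≤ 4 / (4 - trc g ^ 2) := by rwa [le_div_iff₀ h4]
    have h3 : |a| ≤ 1 + a ^ 2 := by
      rw [← sq_abs]
      nlinarith [sq_nonneg (|a| - 1), abs_nonneg a]
    linarith
  have hα := key α β hq
  have hβ := key β α (by linarith)
  have hij : |(g : Matrix (Fin 2) (Fin 2) ℝ) i j| ≤ G := by
    have h1 : |(g : Matrix (Fin 2) (Fin 2) ℝ) i j| ≤ ∑ j, |(g : Matrix (Fin 2) (Fin 2) ℝ) i j| :=
      Finset.single_le_sum (f := fun j => |(g : Matrix (Fin 2) (Fin 2) ℝ) i j|)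
        (fun _ _ => abs_nonneg _) (Finset.mem_univ j)
    have h2 : ∑ j, |(g : Matrix (Fin 2) (Fin 2) ℝ) i j| ≤ G :=
      Finset.single_le_sum (f := fun i => ∑ j, |(g : Matrix (Fin 2) (Fin 2) ℝ) i j|)
        (fun _ _ => Finset.sum_nonneg fun _ _ => abs_nonneg _) (Finset.mem_univ i)
    exact h1.trans h2
  have h1 : |(1 : Matrix (Fin 2) (Fin 2) ℝ) i j| ≤ 1 := by
    rw [Matrix.one_apply]
    split_ifs <;> simp
  rw [h, Matrix.add_apply, Matrix.smul_apply, Matrix.smul_apply, smul_eq_mul, smul_eq_mul]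
  calc |α * (g : Matrix (Fin 2) (Fin 2) ℝ) i j + β * (1 : Matrix (Fin 2) (Fin 2) ℝ) i j|
      ≤ |α * (g : Matrix (Fin 2) (Fin 2) ℝ) i j| + |β * (1 : Matrix (Fin 2) (Fin 2) ℝ) i j| :=
        abs_add_le _ _
    _ = |α| * |(g : Matrix (Fin 2) (Fin 2) ℝ) i j| + |β| * |(1 : Matrix (Fin 2) (Fin 2) ℝ) i j| := by
        rw [abs_mul, abs_mul]
    _ ≤ K * G + K * 1 := by
        gcongr
    _ = K * G + K := by ring

/-- conjugates of a parabolic element can be close to `ε` -/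
theorem a2_unip (g : GG) (hd : dt g = 1) (ε : ℝ) (hε : ε ^ 2 = 1) (ht : trc g = 2 * ε)
    (hne : ¬ ((g : Matrix (Fin 2) (Fin 2) ℝ) 0 1 = 0 ∧ (g : Matrix (Fin 2) (Fin 2) ℝ) 1 0 = 0))
    (η : ℝ) (hη : 0 < η) : ∃ h : GG, dt h = 1 ∧ ∃ κ : ℝ, |κ| ≤ η ∧
      ((h⁻¹ * g * h : GG) : Matrix (Fin 2) (Fin 2) ℝ) = !![ε, κ; 0, ε] := by
  rw [a2_dt] at hd
  rw [trc] at ht
  set a := (g : Matrix (Fin 2) (Fin 2) ℝ) 0 0 with ha
  set b := (g : Matrix (Fin 2) (Fin 2) ℝ) 0 1 with hb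
  set c := (g : Matrix (Fin 2) (Fin 2) ℝ) 1 0 with hc
  set d := (g : Matrix (Fin 2) (Fin 2) ℝ) 1 1 with hdd
  have hgm : (g : Matrix (Fin 2) (Fin 2) ℝ) = !![a, b; c, d] := Matrix.eta_fin_two _
  have fin : ∀ (h : GG) (P : Matrix (Fin 2) (Fin 2) ℝ),
      (g : Matrix (Fin 2) (Fin 2) ℝ) * (h : Matrix (Fin 2) (Fin 2) ℝ) = (h : Matrix (Fin 2) (Fin 2) ℝ) * P →
      ((h⁻¹ * g * h : GG) : Matrix (Fin 2) (Fin 2) ℝ) = P := by
    intro h P hP
    rw [Units.val_mul, Units.val_mul, Matrix.mul_assoc, hP, Units.inv_mul_cancel_left]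
  have scal : ∀ y : ℝ, y ≠ 0 → ∃ s : ℝ, 0 < s ∧ |1 / (s ^ 2 * y)| ≤ η := by
    intro y hy
    have hy' : 0 < |y| := abs_pos.2 hy
    refine ⟨1 + 1 / (η * |y|), by positivity, ?_⟩
    set s := 1 + 1 / (η * |y|) with hs
    have h0 : 0 < 1 / (η * |y|) := by positivity
    have h1 : 1 ≤ s := by linarith
    have h2 : s ≤ s ^ 2 := by nlinarith
    have h3 : 1 / (η * |y|) ≤ s ^ 2 := by linarith
    rw [abs_div, abs_one, abs_mul, abs_of_nonneg (by positivity : 0 ≤ s ^ 2),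
      div_le_iff₀ (by positivity)]
    rw [div_le_iff₀ (by positivity)] at h3
    nlinarith
  by_cases hb0 : b = 0
  · have hc0 : c ≠ 0 := fun h => hne ⟨hb0, h⟩
    obtain ⟨s, hs, hκ⟩ := scal c hc0
    have hdet : (!![0, -(1 / (s * c)); s * c, 0] : Matrix (Fin 2) (Fin 2) ℝ).det = 1 := by
      rw [Matrix.det_fin_two_of]
      field_simp
      norm_num
    refine ⟨Matrix.GeneralLinearGroup.mkOfDetNeZero _ (by rw [hdet]; exact one_ne_zero), hdet,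
      -(1 / (s ^ 2 * c)), by rwa [abs_neg], ?_⟩
    have had : a * d = 1 := by rw [hb0] at hd; linarith
    have hae : a = ε := by
      have h2 : (a - ε) ^ 2 = 0 := by linear_combination a * ht - had + hε
      have h3 : a - ε = 0 := by simpa using h2
      linarith
    have hde : d = ε := by linarith
    apply fin
    rw [hgm]
    show _ * !![0, -(1 / (s * c)); s * c, 0] = !![0, -(1 / (s * c)); s * c, 0] * _
    rw [hb0, hae, hde]
    ext i j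
    fin_cases i <;> fin_cases j <;> simp [Matrix.mul_apply, Fin.sum_univ_two] <;> field_simp
  · obtain ⟨s, hs, hκ⟩ := scal b hb0
    have hdet : (!![s * b, 0; -(s * (a - ε)), 1 / (s * b)] : Matrix (Fin 2) (Fin 2) ℝ).det = 1 := by
      rw [Matrix.det_fin_two_of]
      field_simp
      norm_num
    refine ⟨Matrix.GeneralLinearGroup.mkOfDetNeZero _ (by rw [hdet]; exact one_ne_zero), hdet,
      1 / (s ^ 2 * b), hκ, ?_⟩
    apply fin
    rw [hgm]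
    show _ * !![s * b, 0; -(s * (a - ε)), 1 / (s * b)] =
      !![s * b, 0; -(s * (a - ε)), 1 / (s * b)] * _
    have hd2 : d = 2 * ε - a := by linarith
    ext i j
    fin_cases i <;> fin_cases j <;> simp [Matrix.mul_apply, Fin.sum_univ_two]
    · ring
    · field_simp
    · rw [hd2] at hd ⊢
      linear_combination s * hε - s * hd
    · field_simp
      rw [hd2]
      ring

theorem a2_ell {Γ : Subgroup GG} (h : Fuchs Γ) {g : GG} (hg : g ∈ Γ) (h1 : g ≠ 1)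
    (ht : trc g ^ 2 < 4) : False := by
  obtain ⟨M, hM⟩ := a2_bdd g (h.det1 g hg) ht
  have hfin := h.disc M
  have hinj : Function.Injective (fun n : ℕ => g ^ n) := by
    rw [injective_pow_iff_not_isOfFinOrder, isOfFinOrder_iff_pow_eq_one]
    rintro ⟨n, hn, hgn⟩
    exact h1 (h.tf g hg n hn hgn)
  exact Set.infinite_of_injective_forall_mem hinj
    (fun n => (⟨Γ.pow_mem hg n, hM n⟩ : g ^ n ∈ {g : GG | g ∈ Γ ∧
      ∀ i j, |(g : Matrix (Fin 2) (Fin 2) ℝ) i j| ≤ M})) hfin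

/-- squared distance to `ε` -/
def a2_dist (ε : ℝ) (k : GG) : ℝ :=
  ((k : Matrix (Fin 2) (Fin 2) ℝ) 0 0 - ε) ^ 2 + ((k : Matrix (Fin 2) (Fin 2) ℝ) 0 1) ^ 2 +
    ((k : Matrix (Fin 2) (Fin 2) ℝ) 1 0) ^ 2 + ((k : Matrix (Fin 2) (Fin 2) ℝ) 1 1 - ε) ^ 2

theorem a2_eps {S : Set GG} (hS : S.Finite) (f : GG → ℝ) :
    ∃ δ : ℝ, 0 < δ ∧ ∀ k ∈ S, 0 < f k → δ ≤ f k := by
  induction S, hS using Set.Finite.induction_on with
  | empty => exact ⟨1, one_pos, by simp⟩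
  | insert _ _ ih =>
    rename_i k S _ _
    obtain ⟨δ, hδ, h⟩ := ih
    by_cases hk : 0 < f k
    · refine ⟨min δ (f k), lt_min hδ hk, ?_⟩
      intro m hm hm0
      rcases Set.mem_insert_iff.1 hm with rfl | hm
      · exact min_le_right _ _
      · exact (min_le_left _ _).trans (h m hm hm0)
    · refine ⟨δ, hδ, ?_⟩
      intro m hm hm0
      rcases Set.mem_insert_iff.1 hm with rfl | hm
      · exact absurd hm0 hk
      · exact h m hm hm0

theorem a2_par {Γ : Subgroup GG} (h : Fuchs Γ) {g : GG} (hg : g ∈ Γ) (h1 : g ≠ 1)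
    (ht : trc g ^ 2 = 4) : False := by
  obtain ⟨ε, hε, htr⟩ : ∃ ε : ℝ, ε ^ 2 = 1 ∧ trc g = 2 * ε :=
    ⟨trc g / 2, by rw [div_pow, ht]; norm_num, by ring⟩
  have hd := h.det1 g hg
  have hεabs : |ε| = 1 := by
    rw [← sq_eq_sq₀ (abs_nonneg _) zero_le_one, sq_abs, hε, one_pow]
  by_cases hne : (g : Matrix (Fin 2) (Fin 2) ℝ) 0 1 = 0 ∧ (g : Matrix (Fin 2) (Fin 2) ℝ) 1 0 = 0
  · -- `g = ε`
    have hd' := hd
    rw [a2_dt, hne.1, zero_mul, sub_zero] at hd'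
    rw [trc] at htr
    have h2 : ((g : Matrix (Fin 2) (Fin 2) ℝ) 0 0 - ε) ^ 2 = 0 := by
      linear_combination (g : Matrix (Fin 2) (Fin 2) ℝ) 0 0 * htr - hd' + hε
    have h3 : (g : Matrix (Fin 2) (Fin 2) ℝ) 0 0 = ε := by
      have : (g : Matrix (Fin 2) (Fin 2) ℝ) 0 0 - ε = 0 := by simpa using h2
      linarith
    have h4 : (g : Matrix (Fin 2) (Fin 2) ℝ) 1 1 = ε := by linarith
    apply h1
    apply h.tf g hg 2 (by norm_num)
    apply Units.ext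
    rw [pow_two, Units.val_mul, Units.val_one]
    ext i j
    fin_cases i <;> fin_cases j <;>
      simp [Matrix.mul_apply, Fin.sum_univ_two, hne.1, hne.2, h3, h4] <;> nlinarith
  obtain ⟨C, hC⟩ := h.coc
  have hC0 : 0 ≤ C := by
    obtain ⟨γ, _, hγ⟩ := hC 1 dt_one
    exact (abs_nonneg _).trans (hγ 0 0)
  obtain ⟨δ, hδ, hδ'⟩ := a2_eps (h.disc 2) (a2_dist ε)
  -- choice of `η`
  obtain ⟨η, hη, hη1, hη2⟩ : ∃ η : ℝ, 0 < η ∧ η * C ^ 2 ≤ 1 ∧ (2 * η * C ^ 2) ^ 2 < δ := by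
    refine ⟨min 1 (δ / 8) / (1 + C ^ 2), by positivity, ?_, ?_⟩
    · rw [div_mul_eq_mul_div, div_le_one (by positivity)]
      have : min 1 (δ / 8) ≤ 1 := min_le_left _ _
      nlinarith [sq_nonneg C]
    · have h1 : min 1 (δ / 8) ≤ 1 := min_le_left _ _
      have h2 : min 1 (δ / 8) ≤ δ / 8 := min_le_right _ _
      have h3 : 0 < min 1 (δ / 8) := by positivity
      have h4 : min 1 (δ / 8) / (1 + C ^ 2) * C ^ 2 ≤ min 1 (δ / 8) := by
        rw [div_mul_eq_mul_div, div_le_iff₀ (by positivity)]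
        nlinarith [sq_nonneg C]
      have h5 : 0 ≤ min 1 (δ / 8) / (1 + C ^ 2) * C ^ 2 := by positivity
      have h6 : (2 * (min 1 (δ / 8) / (1 + C ^ 2)) * C ^ 2) ^ 2 =
          4 * (min 1 (δ / 8) / (1 + C ^ 2) * C ^ 2) ^ 2 := by ring
      rw [h6]
      nlinarith
  obtain ⟨k, hk, κ, hκ, hconj⟩ := a2_unip g hd ε hε htr hne η hη
  obtain ⟨γ, hγΓ, hγ⟩ := hC k hk
  set m : GG := γ⁻¹ * k with hm
  have hmd : dt m = 1 := by
    have e : γ * m = k := by rw [hm]; group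
    have := congrArg dt e
    rwa [dt_mul, h.det1 γ hγΓ, one_mul, hk] at this
  have hconj2 : γ⁻¹ * g * γ = m * (k⁻¹ * g * k) * m⁻¹ := by rw [hm]; group
  have hmat : ((γ⁻¹ * g * γ : GG) : Matrix (Fin 2) (Fin 2) ℝ) =
      !![ε - κ * ((m : Matrix (Fin 2) (Fin 2) ℝ) 0 0 * (m : Matrix (Fin 2) (Fin 2) ℝ) 1 0),
        κ * ((m : Matrix (Fin 2) (Fin 2) ℝ) 0 0) ^ 2;
        -(κ * ((m : Matrix (Fin 2) (Fin 2) ℝ) 1 0) ^ 2),
        ε + κ * ((m : Matrix (Fin 2) (Fin 2) ℝ) 0 0 * (m : Matrix (Fin 2) (Fin 2) ℝ) 1 0)] := by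
    rw [hconj2, Units.val_mul, Units.val_mul, hconj, a2_inv m hmd]
    rw [a2_dt] at hmd
    ext i j
    fin_cases i <;> fin_cases j <;> simp [Matrix.mul_apply, Fin.sum_univ_two]
    · linear_combination ε * hmd
    · ring
    · ring
    · linear_combination ε * hmd
  set x : ℝ := (m : Matrix (Fin 2) (Fin 2) ℝ) 0 0 with hx
  set y : ℝ := (m : Matrix (Fin 2) (Fin 2) ℝ) 1 0 with hy
  have hxC : |x| ≤ C := hγ 0 0
  have hyC : |y| ≤ C := hγ 1 0
  have b1 : |κ * (x * y)| ≤ η * C ^ 2 := by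
    rw [abs_mul, abs_mul, pow_two]
    gcongr
  have b2 : |κ * x ^ 2| ≤ η * C ^ 2 := by
    rw [abs_mul, abs_pow]
    gcongr
  have b3 : |κ * y ^ 2| ≤ η * C ^ 2 := by
    rw [abs_mul, abs_pow]
    gcongr
  have hmem : γ⁻¹ * g * γ ∈ Γ := Γ.mul_mem (Γ.mul_mem (Γ.inv_mem hγΓ) hg) hγΓ
  have hbd : ∀ i j, |((γ⁻¹ * g * γ : GG) : Matrix (Fin 2) (Fin 2) ℝ) i j| ≤ 2 := by
    intro i j
    rw [hmat]
    fin_cases i <;> fin_cases j <;> simp
    · calc |ε - κ * (x * y)| ≤ |ε| + |κ * (x * y)| := abs_sub _ _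
        _ ≤ 2 := by linarith
    · rw [abs_mul, abs_pow, sq_abs] at b2
      linarith
    · rw [abs_mul, abs_pow, sq_abs] at b3
      linarith
    · calc |ε + κ * (x * y)| ≤ |ε| + |κ * (x * y)| := abs_add_le _ _
        _ ≤ 2 := by linarith
  have hdist : a2_dist ε (γ⁻¹ * g * γ) = (κ * (x ^ 2 + y ^ 2)) ^ 2 := by
    unfold a2_dist
    rw [hmat]
    simp
    ring
  have hup : a2_dist ε (γ⁻¹ * g * γ) < δ := by
    rw [hdist]
    have e : κ * (x ^ 2 + y ^ 2) = κ * x ^ 2 + κ * y ^ 2 := by ring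
    have h3 : |κ * (x ^ 2 + y ^ 2)| ≤ 2 * η * C ^ 2 := by
      rw [e]
      calc |κ * x ^ 2 + κ * y ^ 2| ≤ |κ * x ^ 2| + |κ * y ^ 2| := abs_add_le _ _
        _ ≤ 2 * η * C ^ 2 := by linarith
    rw [← sq_abs]
    exact lt_of_le_of_lt (pow_le_pow_left₀ (abs_nonneg _) h3 2) hη2
  have hlow : ¬ 0 < a2_dist ε (γ⁻¹ * g * γ) := fun h0 =>
    absurd (hδ' _ ⟨hmem, hbd⟩ h0) (not_le.2 hup)
  -- hence `g = ε`
  have hzero : κ * (x ^ 2 + y ^ 2) = 0 := by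
    have h0 : (κ * (x ^ 2 + y ^ 2)) ^ 2 ≤ 0 := by
      rw [← hdist]
      exact not_lt.1 hlow
    have h0' : (κ * (x ^ 2 + y ^ 2)) ^ 2 = 0 := le_antisymm h0 (sq_nonneg _)
    simpa using h0'
  have hxy : 0 < x ^ 2 + y ^ 2 := by
    rw [a2_dt, ← hx, ← hy] at hmd
    by_contra hcon
    have hx0 : x = 0 := by nlinarith [sq_nonneg x, sq_nonneg y]
    have hy0 : y = 0 := by nlinarith [sq_nonneg x, sq_nonneg y]
    rw [hx0, hy0] at hmd
    norm_num at hmd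
  have hκ0 : κ = 0 := (mul_eq_zero.1 hzero).resolve_right hxy.ne'
  apply hne
  have hg' : (g : Matrix (Fin 2) (Fin 2) ℝ) = !![ε, 0; 0, ε] := by
    have e : g = k * (k⁻¹ * g * k) * k⁻¹ := by group
    rw [e, Units.val_mul, Units.val_mul, hconj, a2_inv k hk, hκ0]
    rw [a2_dt] at hk
    ext i j
    fin_cases i <;> fin_cases j <;> simp [Matrix.mul_apply, Fin.sum_univ_two]
    · linear_combination ε * hk
    · ring
    · ring
    · linear_combination ε * hk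
  rw [hg']
  simp

/-- nontrivial elements of a cocompact torsion free Fuchsian group are hyperbolic -/
theorem hyp {Γ : Subgroup GG} (h : Fuchs Γ) {g : GG} (hg : g ∈ Γ) (h1 : g ≠ 1) :
    4 < trc g ^ 2 := by
  by_contra hcon
  rcases lt_or_eq_of_le (not_lt.1 hcon) with h2 | h2
  · exact a2_ell h hg h1 h2
  · exact a2_par h hg h1 h2

end Pool.Agent.H100R2.SC
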