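import Pool.Agent.H100R2.SC.Defs

/-! A4: cocompact Fuchsian groups are finitely generated. -/

set_option autoImplicit false

namespace Pool.Agent.H100R2.SC

open Matrix

namespace A4

lemma coe_mul' (g h : GG) (i j : Fin 2) : ((g * h : GG) : Matrix (Fin 2) (Fin 2) ℝ) i j =
    (g : Matrix (Fin 2) (Fin 2) ℝ) i 0 * (h : Matrix (Fin 2) (Fin 2) ℝ) 0 j +
    (g : Matrix (Fin 2) (Fin 2) ℝ) i 1 * (h : Matrix (Fin 2) (Fin 2) ℝ) 1 j := by
  rw [Units.val_mul, Matrix.mul_apply, Fin.sum_univ_two]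

lemma mul_bound (g h : GG) (a b : ℝ) (hb : 0 ≤ b)
    (h1 : ∀ i j, |(g : Matrix (Fin 2) (Fin 2) ℝ) i j| ≤ a)
    (h2 : ∀ i j, |(h : Matrix (Fin 2) (Fin 2) ℝ) i j| ≤ b) :
    ∀ i j, |((g * h : GG) : Matrix (Fin 2) (Fin 2) ℝ) i j| ≤ 2 * (a * b) := by
  intro i j
  have ha : 0 ≤ a := (abs_nonneg _).trans (h1 0 0)
  rw [coe_mul']
  refine (abs_add_le _ _).trans ?_
  rw [abs_mul, abs_mul]
  have e1 := mul_le_mul (h1 i 0) (h2 0 j) (abs_nonneg _) ha
  have e2 := mul_le_mul (h1 i 1) (h2 1 j) (abs_nonneg _) ha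
  linarith

lemma inv_bound (g : GG) (hg : dt g = 1) (a : ℝ)
    (h1 : ∀ i j, |(g : Matrix (Fin 2) (Fin 2) ℝ) i j| ≤ a) :
    ∀ i j, |((g⁻¹ : GG) : Matrix (Fin 2) (Fin 2) ℝ) i j| ≤ a := by
  have e : ((g⁻¹ : GG) : Matrix (Fin 2) (Fin 2) ℝ) =
      !![(g : Matrix (Fin 2) (Fin 2) ℝ) 1 1, -(g : Matrix (Fin 2) (Fin 2) ℝ) 0 1;
        -(g : Matrix (Fin 2) (Fin 2) ℝ) 1 0, (g : Matrix (Fin 2) (Fin 2) ℝ) 0 0] := by
    rw [Matrix.coe_units_inv, Matrix.inv_def, Matrix.adjugate_fin_two]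
    have : (g : Matrix (Fin 2) (Fin 2) ℝ).det = 1 := hg
    rw [this, Ring.inverse_one, one_smul]
  intro i j
  rw [e]
  fin_cases i <;> fin_cases j <;> simp [h1]

lemma dt_inv (g : GG) (hg : dt g = 1) : dt g⁻¹ = 1 := by
  have := dt_mul g g⁻¹
  rw [mul_inv_cancel, dt_one, hg, one_mul] at this
  exact this.symm

/-- elementary matrices -/
noncomputable def U (x : ℝ) : GG := Matrix.GeneralLinearGroup.mkOfDetNeZero !![1, x; 0, 1] (by simp)

noncomputable def Lo (x : ℝ) : GG := Matrix.GeneralLinearGroup.mkOfDetNeZero !![1, 0; x, 1] (by simp)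

lemma U_coe (x : ℝ) : ((U x : GG) : Matrix (Fin 2) (Fin 2) ℝ) = !![1, x; 0, 1] := rfl

lemma Lo_coe (x : ℝ) : ((Lo x : GG) : Matrix (Fin 2) (Fin 2) ℝ) = !![1, 0; x, 1] := rfl

lemma U_dt (x : ℝ) : dt (U x) = 1 := by
  unfold dt
  rw [U_coe]
  simp

lemma Lo_dt (x : ℝ) : dt (Lo x) = 1 := by
  unfold dt
  rw [Lo_coe]
  simp

lemma U_add (x y : ℝ) : U (x + y) = U x * U y := by
  apply Units.ext
  rw [Units.val_mul, U_coe, U_coe, U_coe]
  ext i j
  fin_cases i <;> fin_cases j <;> simp [Matrix.mul_apply, Fin.sum_univ_two, add_comm]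

lemma Lo_add (x y : ℝ) : Lo (x + y) = Lo x * Lo y := by
  apply Units.ext
  rw [Units.val_mul, Lo_coe, Lo_coe, Lo_coe]
  ext i j
  fin_cases i <;> fin_cases j <;> simp [Matrix.mul_apply, Fin.sum_univ_two]

lemma U_zero : U 0 = 1 := by
  apply Units.ext
  rw [U_coe]
  ext i j
  fin_cases i <;> fin_cases j <;> simp

lemma Lo_zero : Lo 0 = 1 := by
  apply Units.ext
  rw [Lo_coe]
  ext i j
  fin_cases i <;> fin_cases j <;> simp

lemma U_small (x : ℝ) (hx : |x| ≤ 1) : ∀ i j, |((U x : GG) : Matrix (Fin 2) (Fin 2) ℝ) i j| ≤ 1 := by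
  intro i j
  rw [U_coe]
  fin_cases i <;> fin_cases j <;> simp [hx]

lemma Lo_small (x : ℝ) (hx : |x| ≤ 1) :
    ∀ i j, |((Lo x : GG) : Matrix (Fin 2) (Fin 2) ℝ) i j| ≤ 1 := by
  intro i j
  rw [Lo_coe]
  fin_cases i <;> fin_cases j <;> simp [hx]

/-- every element of determinant one is a product of elementary matrices -/
lemma decomp (g : GG) (hg : dt g = 1) : ∃ x y z w : ℝ, g = U x * Lo y * U z * Lo w := by
  have key : ∀ g : GG, dt g = 1 → (g : Matrix (Fin 2) (Fin 2) ℝ) 1 0 ≠ 0 →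
      ∃ x y z : ℝ, g = U x * Lo y * U z := by
    intro g hg hc
    set a := (g : Matrix (Fin 2) (Fin 2) ℝ) 0 0 with ha
    set b := (g : Matrix (Fin 2) (Fin 2) ℝ) 0 1 with hb
    set c := (g : Matrix (Fin 2) (Fin 2) ℝ) 1 0 with hc'
    set d := (g : Matrix (Fin 2) (Fin 2) ℝ) 1 1 with hd
    have hdet : a * d - b * c = 1 := by
      rw [dt, Matrix.det_fin_two] at hg
      exact hg
    refine ⟨(a - 1) / c, c, (d - 1) / c, ?_⟩
    apply Units.ext
    ext i j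
    rw [coe_mul', coe_mul', coe_mul', U_coe, U_coe, Lo_coe]
    fin_cases i <;> fin_cases j
    · simp
      rw [← ha]; field_simp; ring
    · simp
      rw [← hb]; field_simp
      linear_combination -hdet
    · simp [hc']
    · simp
      rw [← hd]; field_simp; ring
  by_cases hc : (g : Matrix (Fin 2) (Fin 2) ℝ) 1 0 = 0
  · have hdet : (g : Matrix (Fin 2) (Fin 2) ℝ) 0 0 * (g : Matrix (Fin 2) (Fin 2) ℝ) 1 1 = 1 := by
      rw [dt, Matrix.det_fin_two, hc, mul_zero, sub_zero] at hg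
      exact hg
    have h2 : ((g * Lo 1 : GG) : Matrix (Fin 2) (Fin 2) ℝ) 1 0 ≠ 0 := by
      rw [coe_mul', Lo_coe, hc]
      simp
      intro h
      rw [h, mul_zero] at hdet
      exact zero_ne_one hdet
    obtain ⟨x, y, z, h⟩ := key (g * Lo 1) (by rw [dt_mul, hg, Lo_dt, mul_one]) h2
    refine ⟨x, y, z, -1, ?_⟩
    rw [← h, mul_assoc, ← Lo_add, add_neg_cancel, Lo_zero, mul_one]
  · obtain ⟨x, y, z, h⟩ := key g hg hc
    exact ⟨x, y, z, 0, by rw [← h, Lo_zero, mul_one]⟩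

end A4

open A4

theorem fuchs_fg {Γ : Subgroup GG} (h : Fuchs Γ) : Γ.FG := by
  obtain ⟨C₀, hC₀⟩ := h.coc
  set C : ℝ := max C₀ 1 with hC
  have hC1 : 1 ≤ C := le_max_right _ _
  have hC0 : 0 ≤ C := by linarith
  have hcoc : ∀ g : GG, dt g = 1 → ∃ γ ∈ Γ, ∀ i j,
      |((γ⁻¹ * g : GG) : Matrix (Fin 2) (Fin 2) ℝ) i j| ≤ C := by
    intro g hg
    obtain ⟨γ, hγ, hb⟩ := hC₀ g hg
    exact ⟨γ, hγ, fun i j => (hb i j).trans (le_max_left _ _)⟩
  set M : ℝ := 2 * ((2 * (C * 1)) * C) with hM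
  have hCM : C ≤ M := by
    rw [hM]; nlinarith
  set S : Set GG := {g : GG | g ∈ Γ ∧ ∀ i j, |(g : Matrix (Fin 2) (Fin 2) ℝ) i j| ≤ M} with hS
  have hSfin : S.Finite := h.disc M
  set Γ₀ : Subgroup GG := Subgroup.closure S with hΓ₀
  have hle : Γ₀ ≤ Γ := (Subgroup.closure_le _).2 fun g hg => hg.1
  -- the property
  let Q : GG → Prop := fun g => dt g = 1 ∧ ∃ γ ∈ Γ₀, ∀ i j,
      |((γ⁻¹ * g : GG) : Matrix (Fin 2) (Fin 2) ℝ) i j| ≤ C
  have q1 : Q 1 := by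
    refine ⟨dt_one, 1, Γ₀.one_mem, fun i j => ?_⟩
    rw [inv_one, mul_one]
    fin_cases i <;> fin_cases j <;> simp [hC1, hC0]
  have qstep : ∀ g e : GG, Q g → dt e = 1 →
      (∀ i j, |(e : Matrix (Fin 2) (Fin 2) ℝ) i j| ≤ 1) → Q (g * e) := by
    rintro g e ⟨hg, γ, hγ, hb⟩ he1 he2
    have hge : dt (g * e) = 1 := by rw [dt_mul, hg, he1, mul_one]
    obtain ⟨γ', hγ', hb'⟩ := hcoc (g * e) hge
    refine ⟨hge, γ', ?_, hb'⟩
    have hdγ' : dt (γ'⁻¹ * (g * e)) = 1 := by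
      rw [dt_mul, dt_inv γ' (h.det1 γ' hγ'), hge, mul_one]
    have e1 : γ⁻¹ * γ' = (γ⁻¹ * g) * e * (γ'⁻¹ * (g * e))⁻¹ := by group
    have hmem : γ⁻¹ * γ' ∈ S := by
      refine ⟨Γ.mul_mem (Γ.inv_mem (hle hγ)) hγ', ?_⟩
      rw [e1]
      exact mul_bound _ _ _ _ hC0 (mul_bound _ _ _ _ zero_le_one hb he2)
        (inv_bound _ hdγ' _ hb')
    have e2 : γ' = γ * (γ⁻¹ * γ') := by group
    rw [e2]
    exact Γ₀.mul_mem hγ (Subgroup.subset_closure hmem)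
  have qU : ∀ x : ℝ, ∀ g, Q g → Q (g * U x) := by
    intro x
    obtain ⟨n, hn⟩ := exists_nat_gt |x|
    have hn0 : (0 : ℝ) < n := (abs_nonneg x).trans_lt hn
    have hsmall : |x / n| ≤ 1 := by
      rw [abs_div, abs_of_pos hn0, div_le_one hn0]
      exact hn.le
    have : ∀ k : ℕ, ∀ g, Q g → Q (g * U (k * (x / n))) := by
      intro k
      induction k with
      | zero => intro g hg; rw [Nat.cast_zero, zero_mul, U_zero, mul_one]; exact hg
      | succ k ih =>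
        intro g hg
        rw [Nat.cast_succ, add_mul, one_mul, U_add, ← mul_assoc]
        exact qstep _ _ (ih g hg) (U_dt _) (U_small _ hsmall)
    intro g hg
    have h2 := this n g hg
    rwa [mul_div_cancel₀ _ hn0.ne'] at h2
  have qL : ∀ x : ℝ, ∀ g, Q g → Q (g * Lo x) := by
    intro x
    obtain ⟨n, hn⟩ := exists_nat_gt |x|
    have hn0 : (0 : ℝ) < n := (abs_nonneg x).trans_lt hn
    have hsmall : |x / n| ≤ 1 := by
      rw [abs_div, abs_of_pos hn0, div_le_one hn0]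
      exact hn.le
    have : ∀ k : ℕ, ∀ g, Q g → Q (g * Lo (k * (x / n))) := by
      intro k
      induction k with
      | zero => intro g hg; rw [Nat.cast_zero, zero_mul, Lo_zero, mul_one]; exact hg
      | succ k ih =>
        intro g hg
        rw [Nat.cast_succ, add_mul, one_mul, Lo_add, ← mul_assoc]
        exact qstep _ _ (ih g hg) (Lo_dt _) (Lo_small _ hsmall)
    intro g hg
    have h2 := this n g hg
    rwa [mul_div_cancel₀ _ hn0.ne'] at h2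
  have qall : ∀ g : GG, dt g = 1 → Q g := by
    intro g hg
    obtain ⟨x, y, z, w, rfl⟩ := decomp g hg
    have := qL w _ (qU z _ (qL y _ (qU x _ q1)))
    rwa [one_mul] at this
  have heq : Γ = Γ₀ := by
    refine le_antisymm (fun γ hγ => ?_) hle
    obtain ⟨-, γ', hγ', hb⟩ := qall γ (h.det1 γ hγ)
    have hmem : γ'⁻¹ * γ ∈ S :=
      ⟨Γ.mul_mem (Γ.inv_mem (hle hγ')) hγ, fun i j => (hb i j).trans hCM⟩
    have e2 : γ = γ' * (γ'⁻¹ * γ) := by group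
    rw [e2]
    exact Γ₀.mul_mem hγ' (Subgroup.subset_closure hmem)
  rw [heq, Subgroup.fg_iff]
  exact ⟨S, rfl, hSfin⟩

end Pool.Agent.H100R2.SC
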