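import Pool.Agent.H100R2.SC.Defs
import Pool.Agent.H23R2.Lin

/-! A5: finitely generated subgroups of `GL(2,ℝ)` are residually finite (Malcev). -/

set_option autoImplicit false

namespace Pool.Agent.H100R2.SC

open Filter Topology

theorem residually (Γ : Subgroup GG) (h : Γ.FG) (g : GG) (hg : g ∈ Γ) (h1 : g ≠ 1) :
    ∃ N : Subgroup GG, N ≤ Γ ∧ N.relIndex Γ ≠ 0 ∧ g ∉ N ∧ ∀ a ∈ Γ, ∀ n ∈ N, a * n * a⁻¹ ∈ N := by
  classical
  -- a nonzero entry of `g - 1`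
  obtain ⟨i₀, j₀, hx⟩ : ∃ i j : Fin 2, (g : Matrix (Fin 2) (Fin 2) ℝ) i j -
      (1 : Matrix (Fin 2) (Fin 2) ℝ) i j ≠ 0 := by
    by_contra hcon
    push Not at hcon
    apply h1
    apply Units.ext
    ext i j
    exact sub_eq_zero.1 (hcon i j)
  set x : ℝ := (g : Matrix (Fin 2) (Fin 2) ℝ) i₀ j₀ - (1 : Matrix (Fin 2) (Fin 2) ℝ) i₀ j₀ with hxd
  have : Group.FG Γ := (Group.fg_iff_subgroup_fg Γ).2 h
  obtain ⟨T, hT⟩ := Group.fg_def.1 (inferInstance : Group.FG Γ)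
  let φ : Γ →* GL (Fin 2) ℝ := Γ.subtype
  let s0 : Finset ℝ := T.biUnion fun t => Finset.univ.biUnion fun i : Fin 2 =>
    Finset.univ.biUnion fun j : Fin 2 => {(φ t).val i j, (φ t⁻¹).val i j}
  let s : Finset ℝ := insert x⁻¹ s0
  let R : Subalgebra ℤ ℝ := Algebra.adjoin ℤ (s : Set ℝ)
  have hR : Algebra.FiniteType ℤ R := by
    rw [← Subalgebra.fg_iff_finiteType]
    exact ⟨s, rfl⟩
  have hent : ∀ h : Γ, ∀ i j, (φ h).val i j ∈ R := by
    apply Pool.Agent.H23R2.entries_mem φ (T : Set Γ) hT R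
    · intro t ht i j
      apply Algebra.subset_adjoin
      rw [Finset.mem_coe, Finset.mem_insert]
      right
      simp only [s0, Finset.mem_biUnion]
      exact ⟨t, ht, i, by simp, j, by simp, by simp⟩
    · intro t ht i j
      apply Algebra.subset_adjoin
      rw [Finset.mem_coe, Finset.mem_insert]
      right
      simp only [s0, Finset.mem_biUnion]
      exact ⟨t, ht, i, by simp, j, by simp, by simp⟩
  have hxR : x ∈ R := by
    rw [hxd]
    apply R.sub_mem (hent ⟨g, hg⟩ i₀ j₀)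
    rw [Matrix.one_apply]
    split_ifs
    · exact R.one_mem
    · exact R.zero_mem
  have hxiR : x⁻¹ ∈ R := by
    apply Algebra.subset_adjoin
    rw [Finset.mem_coe, Finset.mem_insert]
    exact Or.inl rfl
  let ψ0 : Γ →* Matrix (Fin 2) (Fin 2) R :=
    { toFun := fun h => Matrix.of fun i j => ⟨(φ h).val i j, hent h i j⟩
      map_one' := by
        ext i j
        simp only [Matrix.of_apply, map_one, Units.val_one, Matrix.one_apply]
        split_ifs <;> rfl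
      map_mul' := by
        intro x y
        ext i j
        simp only [Matrix.of_apply, map_mul, Units.val_mul, Matrix.mul_apply]
        rw [AddSubmonoidClass.coe_finsetSum]
        rfl }
  obtain ⟨m, hm⟩ := Ideal.exists_maximal R
  obtain ⟨q, hq, hqm, hfin⟩ := Pool.Agent.H23R2.residue_finite R m
  let ψ : Γ →* Matrix (Fin 2) (Fin 2) (R ⧸ m) :=
    ((Ideal.Quotient.mk m).mapMatrix (m := Fin 2) : Matrix (Fin 2) (Fin 2) R →*
      Matrix (Fin 2) (Fin 2) (R ⧸ m)).comp ψ0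
  let χ : Γ →* (Matrix (Fin 2) (Fin 2) (R ⧸ m))ˣ := ψ.toHomUnits
  have : Finite (Matrix (Fin 2) (Fin 2) (R ⧸ m)) := by
    unfold Matrix
    infer_instance
  have hgk : (⟨g, hg⟩ : Γ) ∉ χ.ker := by
    intro hmem
    rw [MonoidHom.mem_ker] at hmem
    have h2 : (χ ⟨g, hg⟩).val i₀ j₀ = (1 : Matrix (Fin 2) (Fin 2) (R ⧸ m)) i₀ j₀ := by
      rw [hmem]; rfl
    have h3 : (χ ⟨g, hg⟩).val i₀ j₀ = Ideal.Quotient.mk m ⟨(g : Matrix (Fin 2) (Fin 2) ℝ) i₀ j₀,
        hent ⟨g, hg⟩ i₀ j₀⟩ := rfl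
    have h4 : Ideal.Quotient.mk m (⟨x, hxR⟩ : R) = 0 := by
      have h5 : (⟨x, hxR⟩ : R) = ⟨(g : Matrix (Fin 2) (Fin 2) ℝ) i₀ j₀,
          hent ⟨g, hg⟩ i₀ j₀⟩ - (1 : Matrix (Fin 2) (Fin 2) R) i₀ j₀ := by
        apply Subtype.ext
        rw [AddSubgroupClass.coe_sub]
        show x = (g : Matrix (Fin 2) (Fin 2) ℝ) i₀ j₀ - ((1 : Matrix (Fin 2) (Fin 2) R) i₀ j₀ : ℝ)
        rw [hxd, Matrix.one_apply, Matrix.one_apply]
        split_ifs <;> rfl
      rw [h5, map_sub, ← h3, h2, Matrix.one_apply, Matrix.one_apply]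
      split_ifs
      · simp
      · simp
    have h6 : (⟨x, hxR⟩ : R) ∈ m := Ideal.Quotient.eq_zero_iff_mem.1 h4
    have h7 : (1 : R) ∈ m := by
      have : (1 : R) = ⟨x⁻¹, hxiR⟩ * ⟨x, hxR⟩ := by
        apply Subtype.ext
        show (1 : ℝ) = x⁻¹ * x
        rw [inv_mul_cancel₀ hx]
      rw [this]
      exact m.mul_mem_left _ h6
    exact hm.ne_top ((Ideal.eq_top_iff_one m).2 h7)
  refine ⟨χ.ker.map Γ.subtype, Subgroup.map_subtype_le _, ?_, ?_, ?_⟩
  · have e : (χ.ker.map Γ.subtype).subgroupOf Γ = χ.ker :=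
      Subgroup.comap_map_eq_self_of_injective Γ.subtype_injective _
    show ((χ.ker.map Γ.subtype).subgroupOf Γ).index ≠ 0
    rw [e]
    exact (Subgroup.finiteIndex_ker χ).index_ne_zero
  · rintro ⟨y, hy, hyg⟩
    apply hgk
    have : y = ⟨g, hg⟩ := Subtype.ext hyg
    rwa [← this]
  · rintro a ha n ⟨y, hy, rfl⟩
    have hc : (⟨a, ha⟩ : Γ) * y * (⟨a, ha⟩ : Γ)⁻¹ ∈ χ.ker := by
      have hy' : χ y = 1 := hy
      rw [MonoidHom.mem_ker, map_mul, map_mul, hy', mul_one, ← map_mul, mul_inv_cancel, map_one]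
    exact Subgroup.mem_map.2 ⟨_, hc, rfl⟩

end Pool.Agent.H100R2.SC
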