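import Pool.Agent.H100R2.SC.Defs

/-! # B1: algebra of the action on arcs -/

set_option autoImplicit false

namespace Pool.Agent.H100R2.SC

open Filter Topology

theorem smul_neg' (g : GG) (S : Arc) : g • (-S) = -(g • S) := by
  apply Arc.ext_ev
  intro x y
  rw [smul_ev, Arc.ev_neg, Arc.ev_neg, smul_ev, neg_div]

lemma b1_dt_pos (g : GG) : 0 < |dt g| := abs_pos.2 (dt_ne_zero g)

lemma b1_smul_mono (g : GG) {S T : Arc} (h : S ≤ T) : g • S ≤ g • T := by
  intro x y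
  rw [smul_ev, smul_ev]
  exact div_le_div_of_nonneg_right (h _ _) (b1_dt_pos g).le

theorem smul_le' (g : GG) (S T : Arc) : g • S ≤ g • T ↔ S ≤ T := by
  constructor
  · intro h
    have := b1_smul_mono g⁻¹ h
    rwa [inv_smul_smul, inv_smul_smul] at this
  · exact b1_smul_mono g

lemma b1_val_infty (S : Arc) : S.val OnePoint.infty = S.p := rfl

lemma b1_val_some (S : Arc) (x : ℝ) : S.val (x : X) = S.ev x 1 := rfl

lemma b1_val_infty' (S : Arc) : S.val OnePoint.infty = S.ev 1 0 := by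
  rw [b1_val_infty, Arc.ev]
  ring

theorem val_neg (S : Arc) (ξ : X) : (-S).val ξ = -(S.val ξ) := by
  induction ξ using OnePoint.rec with
  | infty => rfl
  | coe x => rw [b1_val_some, b1_val_some, Arc.ev_neg]

theorem val_mono {S T : Arc} (h : S ≤ T) (ξ : X) : S.val ξ ≤ T.val ξ := by
  induction ξ using OnePoint.rec with
  | infty =>
    rw [b1_val_infty', b1_val_infty']
    exact h _ _
  | coe x =>
    rw [b1_val_some, b1_val_some]
    exact h _ _

theorem tr_mono {S T : Arc} (h : S ≤ T) : S.tr ≤ T.tr := by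
  have h1 := h 1 0
  have h2 := h 0 1
  simp only [Arc.ev] at h1 h2
  unfold Arc.tr
  linarith

lemma b1_dt (g : GG) : dt g = (g : Matrix (Fin 2) (Fin 2) ℝ) 0 0 * (g : Matrix (Fin 2) (Fin 2) ℝ) 1 1 -
    (g : Matrix (Fin 2) (Fin 2) ℝ) 0 1 * (g : Matrix (Fin 2) (Fin 2) ℝ) 1 0 := by
  rw [dt, Matrix.det_fin_two]

/-- the basic transformation rule -/
lemma b1_ev (g : GG) (S : Arc) (x y t x' y' : ℝ)
    (h1 : (g : Matrix (Fin 2) (Fin 2) ℝ) 0 0 * x + (g : Matrix (Fin 2) (Fin 2) ℝ) 0 1 * y = t * x')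
    (h2 : (g : Matrix (Fin 2) (Fin 2) ℝ) 1 0 * x + (g : Matrix (Fin 2) (Fin 2) ℝ) 1 1 * y = t * y')
    (ht : t ≠ 0) : (g • S).ev x' y' = |dt g| / t ^ 2 * S.ev x y := by
  have hd := b1_dt g
  rw [smul_ev]
  generalize (g : Matrix (Fin 2) (Fin 2) ℝ) 0 0 = a at *
  generalize (g : Matrix (Fin 2) (Fin 2) ℝ) 0 1 = b at *
  generalize (g : Matrix (Fin 2) (Fin 2) ℝ) 1 0 = c at *
  generalize (g : Matrix (Fin 2) (Fin 2) ℝ) 1 1 = d at *
  have hpos := b1_dt_pos g
  have hsq : |dt g| ^ 2 = (dt g) ^ 2 := sq_abs _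
  have e1 : t * (d * x' - b * y') = dt g * x := by
    rw [hd]
    linear_combination -d * h1 + b * h2
  have e2 : t * (-c * x' + a * y') = dt g * y := by
    rw [hd]
    linear_combination c * h1 - a * h2
  have e3 : t ^ 2 * S.ev (d * x' - b * y') (-c * x' + a * y') = (dt g) ^ 2 * S.ev x y := by
    have : t ^ 2 * S.ev (d * x' - b * y') (-c * x' + a * y') =
        S.ev (t * (d * x' - b * y')) (t * (-c * x' + a * y')) := by
      simp only [Arc.ev]
      ring
    rw [this, e1, e2]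
    simp only [Arc.ev]
    ring
  rw [div_eq_iff hpos.ne']
  have ht2 : t ^ 2 ≠ 0 := pow_ne_zero 2 ht
  apply mul_left_cancel₀ ht2
  rw [e3, ← hsq]
  field_simp

theorem val_smul (g : GG) (ξ : X) : ∃ k : ℝ, 0 < k ∧ ∀ S : Arc, (g • S).val (g • ξ) = k * S.val ξ := by
  have hd := b1_dt g
  have hd0 := dt_ne_zero g
  have hpos := b1_dt_pos g
  induction ξ using OnePoint.rec with
  | infty =>
    rw [OnePoint.smul_infty_eq_ite]
    split_ifs with h
    · have ha : (g : Matrix (Fin 2) (Fin 2) ℝ) 0 0 ≠ 0 := by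
        intro h0
        rw [h0, h] at hd
        apply hd0
        rw [hd]
        ring
      refine ⟨|dt g| / ((g : Matrix (Fin 2) (Fin 2) ℝ) 0 0) ^ 2, by positivity, fun S => ?_⟩
      rw [b1_val_infty', b1_val_infty']
      apply b1_ev g S 1 0 _ 1 0 _ _ ha
      · ring
      · rw [h]
        ring
    · refine ⟨|dt g| / ((g : Matrix (Fin 2) (Fin 2) ℝ) 1 0) ^ 2, by positivity, fun S => ?_⟩
      rw [b1_val_infty', b1_val_some]
      apply b1_ev g S 1 0 _ _ 1 _ _ h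
      · field_simp
        ring
      · ring
  | coe x =>
    rw [OnePoint.smul_some_eq_ite]
    split_ifs with h
    · have ha : (g : Matrix (Fin 2) (Fin 2) ℝ) 0 0 * x + (g : Matrix (Fin 2) (Fin 2) ℝ) 0 1 ≠ 0 := by
        intro h0
        apply hd0
        rw [hd]
        by_cases hx : (g : Matrix (Fin 2) (Fin 2) ℝ) 1 0 = 0
        · rw [hx] at h ⊢
          have : (g : Matrix (Fin 2) (Fin 2) ℝ) 1 1 = 0 := by linarith
          rw [this]
          ring
        · have hmul : (g : Matrix (Fin 2) (Fin 2) ℝ) 0 0 * (g : Matrix (Fin 2) (Fin 2) ℝ) 1 1 -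
              (g : Matrix (Fin 2) (Fin 2) ℝ) 0 1 * (g : Matrix (Fin 2) (Fin 2) ℝ) 1 0 =
              (g : Matrix (Fin 2) (Fin 2) ℝ) 0 0 * ((g : Matrix (Fin 2) (Fin 2) ℝ) 1 0 * x +
                (g : Matrix (Fin 2) (Fin 2) ℝ) 1 1) - (g : Matrix (Fin 2) (Fin 2) ℝ) 1 0 *
                ((g : Matrix (Fin 2) (Fin 2) ℝ) 0 0 * x + (g : Matrix (Fin 2) (Fin 2) ℝ) 0 1) := by
            ring
          rw [hmul, h, h0]
          ring
      refine ⟨|dt g| / ((g : Matrix (Fin 2) (Fin 2) ℝ) 0 0 * x +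
        (g : Matrix (Fin 2) (Fin 2) ℝ) 0 1) ^ 2, by positivity, fun S => ?_⟩
      rw [b1_val_infty', b1_val_some]
      apply b1_ev g S x 1 _ 1 0 _ _ ha
      · ring
      · rw [mul_one, h]
        ring
    · refine ⟨|dt g| / ((g : Matrix (Fin 2) (Fin 2) ℝ) 1 0 * x +
        (g : Matrix (Fin 2) (Fin 2) ℝ) 1 1) ^ 2, by positivity, fun S => ?_⟩
      rw [b1_val_some, b1_val_some]
      apply b1_ev g S x 1 _ _ 1 _ _ h
      · rw [mul_one, mul_div_cancel₀ _ h]
      · ring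

lemma b1_p (g : GG) (S : Arc) : (g • S).p =
    (S.p * (g : Matrix (Fin 2) (Fin 2) ℝ) 1 1 ^ 2 -
      2 * S.q * (g : Matrix (Fin 2) (Fin 2) ℝ) 1 0 * (g : Matrix (Fin 2) (Fin 2) ℝ) 1 1 +
      S.r * (g : Matrix (Fin 2) (Fin 2) ℝ) 1 0 ^ 2) / |dt g| := rfl

lemma b1_q (g : GG) (S : Arc) : (g • S).q =
    (- S.p * (g : Matrix (Fin 2) (Fin 2) ℝ) 0 1 * (g : Matrix (Fin 2) (Fin 2) ℝ) 1 1 +
      S.q * ((g : Matrix (Fin 2) (Fin 2) ℝ) 0 0 * (g : Matrix (Fin 2) (Fin 2) ℝ) 1 1 +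
        (g : Matrix (Fin 2) (Fin 2) ℝ) 0 1 * (g : Matrix (Fin 2) (Fin 2) ℝ) 1 0) -
      S.r * (g : Matrix (Fin 2) (Fin 2) ℝ) 0 0 * (g : Matrix (Fin 2) (Fin 2) ℝ) 1 0) / |dt g| := rfl

lemma b1_r (g : GG) (S : Arc) : (g • S).r =
    (S.p * (g : Matrix (Fin 2) (Fin 2) ℝ) 0 1 ^ 2 -
      2 * S.q * (g : Matrix (Fin 2) (Fin 2) ℝ) 0 0 * (g : Matrix (Fin 2) (Fin 2) ℝ) 0 1 +
      S.r * (g : Matrix (Fin 2) (Fin 2) ℝ) 0 0 ^ 2) / |dt g| := rfl

theorem BB_smul (g : GG) (S T : Arc) : BB (g • S) (g • T) = BB S T := by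
  have hd := b1_dt g
  have hpos := b1_dt_pos g
  have hsq : |dt g| ^ 2 = (dt g) ^ 2 := sq_abs _
  have hsq2 := hsq.trans (congrArg (fun t => t ^ 2) hd)
  unfold BB
  rw [b1_p, b1_q, b1_r, b1_p, b1_q, b1_r]
  clear hsq
  generalize |dt g| = D at *
  generalize (g : Matrix (Fin 2) (Fin 2) ℝ) 0 0 = a at *
  generalize (g : Matrix (Fin 2) (Fin 2) ℝ) 0 1 = b at *
  generalize (g : Matrix (Fin 2) (Fin 2) ℝ) 1 0 = c at *
  generalize (g : Matrix (Fin 2) (Fin 2) ℝ) 1 1 = d at *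
  field_simp
  rw [hsq2]
  ring

theorem BB_neg (S T : Arc) : BB (-S) T = - BB S T := by
  simp only [BB, Arc.neg_p, Arc.neg_q, Arc.neg_r]
  ring

theorem BB_comm (S T : Arc) : BB S T = BB T S := by
  simp only [BB]
  ring

theorem kap_smul (g : GG) (S T : Arc) : kap (g • S) (g • T) = kap S T := by
  unfold kap
  rw [BB_smul]

theorem kap_comm (S T : Arc) : kap S T = kap T S := by
  unfold kap
  rw [BB_comm]

lemma b1_Del (g : GG) (S T U : Arc) :
    Del (g • S) (g • T) (g • U) = (dt g) ^ 3 / |dt g| ^ 3 * Del S T U := by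
  have hd := b1_dt g
  have hpos := b1_dt_pos g
  unfold Del
  simp only [b1_p, b1_q, b1_r]
  rw [hd] at hpos ⊢
  generalize |(g : Matrix (Fin 2) (Fin 2) ℝ) 0 0 * (g : Matrix (Fin 2) (Fin 2) ℝ) 1 1 -
    (g : Matrix (Fin 2) (Fin 2) ℝ) 0 1 * (g : Matrix (Fin 2) (Fin 2) ℝ) 1 0| = D at *
  generalize (g : Matrix (Fin 2) (Fin 2) ℝ) 0 0 = a at *
  generalize (g : Matrix (Fin 2) (Fin 2) ℝ) 0 1 = b at *
  generalize (g : Matrix (Fin 2) (Fin 2) ℝ) 1 0 = c at *
  generalize (g : Matrix (Fin 2) (Fin 2) ℝ) 1 1 = d at *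
  field_simp
  ring

theorem Del_smul_pos (g : GG) (h : 0 < dt g) (S T U : Arc) :
    Del (g • S) (g • T) (g • U) = Del S T U := by
  rw [b1_Del, abs_of_pos h, div_self (pow_pos h 3).ne', one_mul]

theorem Del_smul_neg (g : GG) (h : dt g < 0) (S T U : Arc) :
    Del (g • S) (g • T) (g • U) = - Del S T U := by
  have h3 : (dt g) ^ 3 ≠ 0 := pow_ne_zero 3 h.ne
  have e : (dt g) ^ 3 / |dt g| ^ 3 = -1 := by
    rw [abs_of_neg h, Odd.neg_pow (by decide), div_neg, div_self h3]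
  rw [b1_Del, e]
  ring

theorem Del_rot (S T U : Arc) : Del S T U = Del T U S := by
  unfold Del
  ring

theorem Del_swap (S T U : Arc) : Del S U T = - Del S T U := by
  unfold Del
  ring

/-- matrices of determinant one -/
lemma b1_mk (a b c d : ℝ) (h : a * d - b * c = 1) : ∃ g : GG, dt g = 1 ∧
    (g : Matrix (Fin 2) (Fin 2) ℝ) 0 0 = a ∧ (g : Matrix (Fin 2) (Fin 2) ℝ) 0 1 = b ∧
    (g : Matrix (Fin 2) (Fin 2) ℝ) 1 0 = c ∧ (g : Matrix (Fin 2) (Fin 2) ℝ) 1 1 = d := by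
  have hdet : (!![a, b; c, d] : Matrix (Fin 2) (Fin 2) ℝ).det = 1 := by
    rw [Matrix.det_fin_two_of]
    exact h
  refine ⟨Matrix.GeneralLinearGroup.mkOfDetNeZero !![a, b; c, d] (by rw [hdet]; exact one_ne_zero),
    hdet, rfl, rfl, rfl, rfl⟩

theorem exists_smul_S0 (S : Arc) : ∃ g : GG, dt g = 1 ∧ g • S = S0 := by
  have hS := S.h
  by_cases hp : S.p = 0
  · rw [hp] at hS
    have hq : (S.q - 1) * (S.q + 1) = 0 := by linarith
    rcases mul_eq_zero.1 hq with h | h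
    · have h1 : S.q = 1 := by linarith
      obtain ⟨g, hg, ha, hb, hc, hd⟩ := b1_mk 0 1 (-1) (-S.r / 2) (by ring)
      refine ⟨g, hg, ?_⟩
      ext
      · rw [b1_p, hg, hc, hd, hp, h1, abs_one, div_one]
        simp only [S0]
        ring
      · rw [b1_q, hg, ha, hb, hc, hd, hp, h1, abs_one, div_one]
        simp only [S0]
        ring
      · rw [b1_r, hg, ha, hb, hp, h1, abs_one, div_one]
        simp only [S0]
        ring
    · have h1 : S.q = -1 := by linarith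
      obtain ⟨g, hg, ha, hb, hc, hd⟩ := b1_mk 1 (-S.r / 2) 0 1 (by ring)
      refine ⟨g, hg, ?_⟩
      ext
      · rw [b1_p, hg, hc, hd, hp, h1, abs_one, div_one]
        simp only [S0]
        ring
      · rw [b1_q, hg, ha, hb, hc, hd, hp, h1, abs_one, div_one]
        simp only [S0]
        ring
      · rw [b1_r, hg, ha, hb, hp, h1, abs_one, div_one]
        simp only [S0]
        ring
  · obtain ⟨g, hg, ha, hb, hc, hd⟩ := b1_mk 1 ((S.q + 1) / S.p) (-S.p / 2) ((1 - S.q) / 2)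
      (by field_simp; ring)
    refine ⟨g, hg, ?_⟩
    ext
    · rw [b1_p, hg, hc, hd, abs_one, div_one]
      simp only [S0]
      linear_combination S.p / 4 * hS
    · rw [b1_q, hg, ha, hb, hc, hd, abs_one, div_one]
      simp only [S0]
      field_simp
      linear_combination hS
    · rw [b1_r, hg, ha, hb, abs_one, div_one]
      simp only [S0]
      field_simp
      linear_combination hS

/-- stabilizer of the standard arc -/
lemma b1_diag (g : GG) (hg : 0 < dt g) (h : g • S0 = S0) :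
    (g : Matrix (Fin 2) (Fin 2) ℝ) 0 1 = 0 ∧ (g : Matrix (Fin 2) (Fin 2) ℝ) 1 0 = 0 := by
  have hd := b1_dt g
  have e1 := congrArg Arc.p h
  have e2 := congrArg Arc.q h
  have e3 := congrArg Arc.r h
  rw [b1_p] at e1
  rw [b1_q] at e2
  rw [b1_r] at e3
  simp only [S0] at e1 e2 e3
  rw [abs_of_pos hg, div_eq_iff hg.ne'] at e1 e2 e3
  rw [hd] at e1 e2 e3 hg
  generalize (g : Matrix (Fin 2) (Fin 2) ℝ) 0 0 = a at *
  generalize (g : Matrix (Fin 2) (Fin 2) ℝ) 0 1 = b at *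
  generalize (g : Matrix (Fin 2) (Fin 2) ℝ) 1 0 = c at *
  generalize (g : Matrix (Fin 2) (Fin 2) ℝ) 1 1 = d at *
  have h1 : c * d = 0 := by linarith
  have h2 : b * c = 0 := by linarith
  have h3 : a * b = 0 := by linarith
  constructor
  · by_contra hb
    have ha : a = 0 := (mul_eq_zero.1 h3).resolve_right hb
    have hc : c = 0 := (mul_eq_zero.1 h2).resolve_left hb
    rw [ha, hc] at hg
    simp at hg
  · by_contra hc
    have hb : b = 0 := (mul_eq_zero.1 h2).resolve_right hc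
    have hd0 : d = 0 := (mul_eq_zero.1 h1).resolve_left hc
    rw [hb, hd0] at hg
    simp at hg

lemma b1_conj (g k : GG) (S : Arc) (hkS : k • S = S0) (hg : 0 < dt g)
    (hS : g • S = S) : 0 < dt (k * g * k⁻¹) ∧ (k * g * k⁻¹) • S0 = S0 := by
  constructor
  · have h1 : dt (k * g * k⁻¹) = dt g := by
      have h2 : dt k * dt k⁻¹ = 1 := by
        rw [← dt_mul, mul_inv_cancel, dt_one]
      rw [dt_mul, dt_mul]
      linear_combination dt g * h2
    rw [h1]
    exact hg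
  · rw [← hkS, mul_smul, mul_smul, inv_smul_smul, hS]

theorem stab_comm (g h : GG) (S : Arc) (hg : 0 < dt g) (hh : 0 < dt h) (hgS : g • S = S)
    (hhS : h • S = S) : g * h = h * g := by
  obtain ⟨k, -, hkS⟩ := exists_smul_S0 S
  obtain ⟨g1, g2⟩ := b1_conj g k S hkS hg hgS
  obtain ⟨h1, h2⟩ := b1_conj h k S hkS hh hhS
  obtain ⟨gb, gc⟩ := b1_diag _ g1 g2
  obtain ⟨hb, hc⟩ := b1_diag _ h1 h2
  have e : (k * g * k⁻¹) * (k * h * k⁻¹) = (k * h * k⁻¹) * (k * g * k⁻¹) := by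
    generalize k * g * k⁻¹ = u at *
    generalize k * h * k⁻¹ = v at *
    apply Units.ext
    show (u : Matrix (Fin 2) (Fin 2) ℝ) * (v : Matrix (Fin 2) (Fin 2) ℝ) =
      (v : Matrix (Fin 2) (Fin 2) ℝ) * (u : Matrix (Fin 2) (Fin 2) ℝ)
    ext i j
    rw [Matrix.mul_apply, Matrix.mul_apply, Fin.sum_univ_two, Fin.sum_univ_two]
    fin_cases i <;> fin_cases j <;> simp [gb, gc, hb, hc, mul_comm]
  have e2 : k * (g * h) * k⁻¹ = k * (h * g) * k⁻¹ := by
    have l1 : (k * g * k⁻¹) * (k * h * k⁻¹) = k * (g * h) * k⁻¹ := by group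
    have l2 : (k * h * k⁻¹) * (k * g * k⁻¹) = k * (h * g) * k⁻¹ := by group
    rw [← l1, ← l2, e]
  exact mul_left_cancel (mul_right_cancel e2)

theorem fix_of_smul (g : GG) (S : Arc) (ξ : X) (hg : 0 < dt g) (hS : g • S = S) (h : S.val ξ = 0) :
    g • ξ = ξ := by
  obtain ⟨k, -, hkS⟩ := exists_smul_S0 S
  obtain ⟨g1, g2⟩ := b1_conj g k S hkS hg hS
  obtain ⟨gb, gc⟩ := b1_diag _ g1 g2
  obtain ⟨t, ht, hval⟩ := val_smul k ξ
  have h0 := hval S
  rw [hkS, h, mul_zero] at h0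
  have key : (k * g * k⁻¹) • (k • ξ) = k • ξ := by
    generalize k • ξ = η at *
    generalize k * g * k⁻¹ = u at *
    induction η using OnePoint.rec with
    | infty => rw [OnePoint.smul_infty_eq_ite, if_pos gc]
    | coe x =>
      have hx : x = 0 := by
        rw [b1_val_some, Arc.ev] at h0
        simp only [S0] at h0
        linarith
      have hd : (u : Matrix (Fin 2) (Fin 2) ℝ) 1 1 ≠ 0 := by
        intro hd
        rw [b1_dt, hd, gc] at g1
        simp at g1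
      rw [hx, OnePoint.smul_some_eq_ite, if_neg (by rw [mul_zero, zero_add]; exact hd), gb]
      simp
  rw [mul_smul, mul_smul, inv_smul_smul] at key
  exact smul_left_cancel k key

end Pool.Agent.H100R2.SC
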