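import Pool.Agent.H100R2.SC.Defs
import Pool.Agent.H100R2.SC.B1
import Pool.Agent.H100R2.SC.A2

/-!
# A6: local finiteness of orbits of axes, cocompactness, finiteness near an axis (helper497)
-/

set_option autoImplicit false

namespace Pool.Agent.H100R2.SC

namespace A6aux

/-- smul in coordinates, determinant one -/
lemma smul_p (g : GG) (h : dt g = 1) (S : Arc) : (g • S).p =
    S.p * (g : Matrix (Fin 2) (Fin 2) ℝ) 1 1 ^ 2
      - 2 * S.q * (g : Matrix (Fin 2) (Fin 2) ℝ) 1 0 * (g : Matrix (Fin 2) (Fin 2) ℝ) 1 1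
      + S.r * (g : Matrix (Fin 2) (Fin 2) ℝ) 1 0 ^ 2 := by
  show (_ : ℝ) / |dt g| = _
  rw [h, abs_one, div_one]

lemma smul_q (g : GG) (h : dt g = 1) (S : Arc) : (g • S).q =
    - S.p * (g : Matrix (Fin 2) (Fin 2) ℝ) 0 1 * (g : Matrix (Fin 2) (Fin 2) ℝ) 1 1
      + S.q * ((g : Matrix (Fin 2) (Fin 2) ℝ) 0 0 * (g : Matrix (Fin 2) (Fin 2) ℝ) 1 1
          + (g : Matrix (Fin 2) (Fin 2) ℝ) 0 1 * (g : Matrix (Fin 2) (Fin 2) ℝ) 1 0)
      - S.r * (g : Matrix (Fin 2) (Fin 2) ℝ) 0 0 * (g : Matrix (Fin 2) (Fin 2) ℝ) 1 0 := by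
  show (_ : ℝ) / |dt g| = _
  rw [h, abs_one, div_one]

lemma smul_r (g : GG) (h : dt g = 1) (S : Arc) : (g • S).r =
    S.p * (g : Matrix (Fin 2) (Fin 2) ℝ) 0 1 ^ 2
      - 2 * S.q * (g : Matrix (Fin 2) (Fin 2) ℝ) 0 0 * (g : Matrix (Fin 2) (Fin 2) ℝ) 0 1
      + S.r * (g : Matrix (Fin 2) (Fin 2) ℝ) 0 0 ^ 2 := by
  show (_ : ℝ) / |dt g| = _
  rw [h, abs_one, div_one]

lemma bd (g : GG) (h : dt g = 1) : ∃ C : ℝ, 0 ≤ C ∧ ∀ S : Arc, |(g • S).tr| ≤ C * (|S.p| + |S.q| + |S.r|) := by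
  set a := (g : Matrix (Fin 2) (Fin 2) ℝ) 0 0 with ha
  set b := (g : Matrix (Fin 2) (Fin 2) ℝ) 0 1 with hb
  set c := (g : Matrix (Fin 2) (Fin 2) ℝ) 1 0 with hc
  set d := (g : Matrix (Fin 2) (Fin 2) ℝ) 1 1 with hd
  refine ⟨(d ^ 2 + b ^ 2) + (c ^ 2 + a ^ 2) + 2 * |c * d + a * b|, by positivity, fun S => ?_⟩
  have e : (g • S).tr = S.p * (d ^ 2 + b ^ 2) + S.r * (c ^ 2 + a ^ 2) + S.q * (-2 * (c * d + a * b)) := by
    rw [Arc.tr, smul_p g h, smul_r g h]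
    ring
  rw [e]
  have h1 := abs_add_le (S.p * (d ^ 2 + b ^ 2) + S.r * (c ^ 2 + a ^ 2)) (S.q * (-2 * (c * d + a * b)))
  have h2 := abs_add_le (S.p * (d ^ 2 + b ^ 2)) (S.r * (c ^ 2 + a ^ 2))
  rw [abs_mul, abs_mul, abs_of_nonneg (show 0 ≤ d ^ 2 + b ^ 2 by positivity),
    abs_of_nonneg (show 0 ≤ c ^ 2 + a ^ 2 by positivity)] at h2
  rw [abs_mul S.q, abs_mul (-2 : ℝ)] at h1
  have h3 : |(-2 : ℝ)| = 2 := by norm_num
  rw [h3] at h1
  have p1 := abs_nonneg S.p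
  have p2 := abs_nonneg S.q
  have p3 := abs_nonneg S.r
  have p4 := abs_nonneg (c * d + a * b)
  have p5 : 0 ≤ d ^ 2 + b ^ 2 := by positivity
  have p6 : 0 ≤ c ^ 2 + a ^ 2 := by positivity
  have q1 := mul_nonneg p1 p6
  have q2 := mul_nonneg p1 p4
  have q3 := mul_nonneg p2 p5
  have q4 := mul_nonneg p2 p6
  have q5 := mul_nonneg p3 p5
  have q6 := mul_nonneg p3 p4
  nlinarith

lemma mulE (A B : GG) (i j : Fin 2) : ((A * B : GG) : Matrix (Fin 2) (Fin 2) ℝ) i j =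
    (A : Matrix (Fin 2) (Fin 2) ℝ) i 0 * (B : Matrix (Fin 2) (Fin 2) ℝ) 0 j +
    (A : Matrix (Fin 2) (Fin 2) ℝ) i 1 * (B : Matrix (Fin 2) (Fin 2) ℝ) 1 j := by
  rw [show ((A * B : GG) : Matrix (Fin 2) (Fin 2) ℝ) = (A : Matrix (Fin 2) (Fin 2) ℝ) * (B : Matrix (Fin 2) (Fin 2) ℝ) from rfl,
    Matrix.mul_apply, Fin.sum_univ_two]

lemma invE (γ : GG) (hγ : dt γ = 1) :
    ((γ⁻¹ : GG) : Matrix (Fin 2) (Fin 2) ℝ) 0 0 = (γ : Matrix (Fin 2) (Fin 2) ℝ) 1 1 ∧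
    ((γ⁻¹ : GG) : Matrix (Fin 2) (Fin 2) ℝ) 0 1 = -(γ : Matrix (Fin 2) (Fin 2) ℝ) 0 1 ∧
    ((γ⁻¹ : GG) : Matrix (Fin 2) (Fin 2) ℝ) 1 0 = -(γ : Matrix (Fin 2) (Fin 2) ℝ) 1 0 ∧
    ((γ⁻¹ : GG) : Matrix (Fin 2) (Fin 2) ℝ) 1 1 = (γ : Matrix (Fin 2) (Fin 2) ℝ) 0 0 := by
  have e1 : ((γ⁻¹ : GG) : Matrix (Fin 2) (Fin 2) ℝ) = (γ : Matrix (Fin 2) (Fin 2) ℝ)⁻¹ :=
    Matrix.coe_units_inv γ
  rw [e1, Matrix.inv_def, Matrix.adjugate_fin_two]
  have e2 : (γ : Matrix (Fin 2) (Fin 2) ℝ).det = 1 := hγ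
  rw [e2]
  simp

lemma dtinv (g : GG) (hg : dt g = 1) : dt g⁻¹ = 1 := by
  have := dt_mul g g⁻¹
  rw [mul_inv_cancel, dt_one, hg, one_mul] at this
  exact this.symm

lemma conj_e (g h : GG) (hg : dt g = 1) :
    ((g * h * g⁻¹ : GG) : Matrix (Fin 2) (Fin 2) ℝ) 1 0 =
      (h : Matrix (Fin 2) (Fin 2) ℝ) 1 0 * (g : Matrix (Fin 2) (Fin 2) ℝ) 1 1 ^ 2
      - ((h : Matrix (Fin 2) (Fin 2) ℝ) 1 1 - (h : Matrix (Fin 2) (Fin 2) ℝ) 0 0) *
        (g : Matrix (Fin 2) (Fin 2) ℝ) 1 0 * (g : Matrix (Fin 2) (Fin 2) ℝ) 1 1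
      - (h : Matrix (Fin 2) (Fin 2) ℝ) 0 1 * (g : Matrix (Fin 2) (Fin 2) ℝ) 1 0 ^ 2 ∧
    ((g * h * g⁻¹ : GG) : Matrix (Fin 2) (Fin 2) ℝ) 0 1 =
      - (h : Matrix (Fin 2) (Fin 2) ℝ) 1 0 * (g : Matrix (Fin 2) (Fin 2) ℝ) 0 1 ^ 2
      + ((h : Matrix (Fin 2) (Fin 2) ℝ) 1 1 - (h : Matrix (Fin 2) (Fin 2) ℝ) 0 0) *
        (g : Matrix (Fin 2) (Fin 2) ℝ) 0 0 * (g : Matrix (Fin 2) (Fin 2) ℝ) 0 1
      + (h : Matrix (Fin 2) (Fin 2) ℝ) 0 1 * (g : Matrix (Fin 2) (Fin 2) ℝ) 0 0 ^ 2 ∧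
    ((g * h * g⁻¹ : GG) : Matrix (Fin 2) (Fin 2) ℝ) 1 1 - ((g * h * g⁻¹ : GG) : Matrix (Fin 2) (Fin 2) ℝ) 0 0 =
      - 2 * (h : Matrix (Fin 2) (Fin 2) ℝ) 1 0 * (g : Matrix (Fin 2) (Fin 2) ℝ) 0 1 * (g : Matrix (Fin 2) (Fin 2) ℝ) 1 1
      + ((h : Matrix (Fin 2) (Fin 2) ℝ) 1 1 - (h : Matrix (Fin 2) (Fin 2) ℝ) 0 0) *
        ((g : Matrix (Fin 2) (Fin 2) ℝ) 0 0 * (g : Matrix (Fin 2) (Fin 2) ℝ) 1 1
          + (g : Matrix (Fin 2) (Fin 2) ℝ) 0 1 * (g : Matrix (Fin 2) (Fin 2) ℝ) 1 0)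
      + 2 * (h : Matrix (Fin 2) (Fin 2) ℝ) 0 1 * (g : Matrix (Fin 2) (Fin 2) ℝ) 0 0 * (g : Matrix (Fin 2) (Fin 2) ℝ) 1 0 ∧
    ((g * h * g⁻¹ : GG) : Matrix (Fin 2) (Fin 2) ℝ) 0 0 + ((g * h * g⁻¹ : GG) : Matrix (Fin 2) (Fin 2) ℝ) 1 1 =
      ((g : Matrix (Fin 2) (Fin 2) ℝ) 0 0 * (g : Matrix (Fin 2) (Fin 2) ℝ) 1 1
          - (g : Matrix (Fin 2) (Fin 2) ℝ) 0 1 * (g : Matrix (Fin 2) (Fin 2) ℝ) 1 0) *
      ((h : Matrix (Fin 2) (Fin 2) ℝ) 0 0 + (h : Matrix (Fin 2) (Fin 2) ℝ) 1 1) := by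
  obtain ⟨j1, j2, j3, j4⟩ := invE g hg
  simp only [mulE, j1, j2, j3, j4]
  refine ⟨by ring, by ring, by ring, by ring⟩

lemma trc_c (g h : GG) (hg : dt g = 1) : trc (g * h * g⁻¹) = trc h := by
  have e := (conj_e g h hg).2.2.2
  have hd : (g : Matrix (Fin 2) (Fin 2) ℝ) 0 0 * (g : Matrix (Fin 2) (Fin 2) ℝ) 1 1
          - (g : Matrix (Fin 2) (Fin 2) ℝ) 0 1 * (g : Matrix (Fin 2) (Fin 2) ℝ) 1 0 = 1 := by
    have := hg
    rw [dt, Matrix.det_fin_two] at this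
    exact this
  rw [hd, one_mul] at e
  exact e

lemma ax_c (g h : GG) (hg : dt g = 1) (h1 : dt h = 1) (h2 : 4 < trc h ^ 2) :
    ax (g * h * g⁻¹) = g • ax h := by
  have t := trc_c g h hg
  have d1 : dt (g * h * g⁻¹) = 1 := by rw [dt_mul, dt_mul, hg, h1, dtinv g hg]; norm_num
  have t2 : 4 < trc (g * h * g⁻¹) ^ 2 := by rw [t]; exact h2
  have e1 : ax (g * h * g⁻¹) = _ := dif_pos ⟨d1, t2⟩
  have e2 : ax h = _ := dif_pos ⟨h1, h2⟩
  obtain ⟨c1, c2, c3, -⟩ := conj_e g h hg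
  apply Arc.ext
  · rw [smul_p g hg, e1, e2]
    simp only
    rw [t, c1]
    ring
  · rw [smul_q g hg, e1, e2]
    simp only
    rw [t, c3]
    ring
  · rw [smul_r g hg, e1, e2]
    simp only
    rw [t, c2]
    ring

lemma ax_s (h : GG) (h1 : dt h = 1) (h2 : 4 < trc h ^ 2) : h • ax h = ax h := by
  rw [← ax_c h h h1 h1 h2]
  congr 1
  group

/-- the diagonalization of a hyperbolic element -/
lemma diag (α : GG) (h1 : dt α = 1) (h2 : 4 < trc α ^ 2) :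
    ∃ g : GG, ∃ a d : ℝ, dt g = 1 ∧ g • ax α = S0 ∧ a * d = 1 ∧ 1 < a ^ 2 ∧
      ∀ n : ℤ, ((g * α ^ n * g⁻¹ : GG) : Matrix (Fin 2) (Fin 2) ℝ) 0 0 = a ^ n ∧
        ((g * α ^ n * g⁻¹ : GG) : Matrix (Fin 2) (Fin 2) ℝ) 0 1 = 0 ∧
        ((g * α ^ n * g⁻¹ : GG) : Matrix (Fin 2) (Fin 2) ℝ) 1 0 = 0 ∧
        ((g * α ^ n * g⁻¹ : GG) : Matrix (Fin 2) (Fin 2) ℝ) 1 1 = d ^ n := by
  obtain ⟨g, hg, hgS⟩ := exists_smul_S0 (ax α)
  set β : GG := g * α * g⁻¹ with hβ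
  have hdi : dt g⁻¹ = 1 := by
    have := dt_mul g g⁻¹
    rw [mul_inv_cancel, dt_one, hg, one_mul] at this
    exact this.symm
  have hβ1 : dt β = 1 := by rw [hβ, dt_mul, dt_mul, hg, h1, hdi]; norm_num
  have hβ2 : 4 < trc β ^ 2 := by rw [hβ, trc_c g α hg]; exact h2
  have hax : ax β = S0 := by rw [hβ, ax_c g α hg h1 h2, hgS]
  have hs : (2 * ((SignType.sign (trc β) : SignType) : ℝ) / √(trc β ^ 2 - 4)) ≠ 0 := by
    have h3 : (0:ℝ) < trc β ^ 2 - 4 := by linarith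
    have h4 : 0 < √(trc β ^ 2 - 4) := Real.sqrt_pos.mpr h3
    have h5 : ((SignType.sign (trc β) : SignType) : ℝ) ≠ 0 := by
      have : trc β ≠ 0 := by
        intro h
        rw [h] at hβ2
        norm_num at hβ2
      rcases lt_or_gt_of_ne this with h | h
      · simp [sign_neg h]
      · simp [sign_pos h]
    positivity
  have hp : (ax β).p = 0 := by rw [hax]; rfl
  have hq : (ax β).q = -1 := by rw [hax]; rfl
  have hr : (ax β).r = 0 := by rw [hax]; rfl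
  have hax' : ax β = _ := dif_pos ⟨hβ1, hβ2⟩
  rw [hax'] at hp hq hr
  simp only at hp hq hr
  have c0 : (β : Matrix (Fin 2) (Fin 2) ℝ) 1 0 = 0 := by
    rcases mul_eq_zero.mp hp with h | h
    · exact absurd h hs
    · exact h
  have b0 : (β : Matrix (Fin 2) (Fin 2) ℝ) 0 1 = 0 := by
    rcases mul_eq_zero.mp (neg_eq_zero.mp hr) with h | h
    · exact absurd h hs
    · exact h
  set a := (β : Matrix (Fin 2) (Fin 2) ℝ) 0 0 with ha
  set d := (β : Matrix (Fin 2) (Fin 2) ℝ) 1 1 with hd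
  have had : a * d = 1 := by
    have := hβ1
    rw [dt, Matrix.det_fin_two, ← ha, ← hd, b0, c0] at this
    linarith
  have htr : trc β = a + d := rfl
  have ha2 : 1 < a ^ 2 := by
    -- sign (a+d) * (d - a) < 0
    have h3 : (0:ℝ) < trc β ^ 2 - 4 := by linarith
    have h4 : 0 < √(trc β ^ 2 - 4) := Real.sqrt_pos.mpr h3
    have hne : trc β ≠ 0 := by
      intro h
      rw [h] at hβ2
      norm_num at hβ2
    rcases lt_or_gt_of_ne hne with h | h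
    · rw [sign_neg h] at hq
      have sc : ((-1 : SignType) : ℝ) = -1 := by simp
      have e : (2 * ((-1 : SignType) : ℝ) / √(trc β ^ 2 - 4)) * ((d - a) / 2) = - (d - a) / √(trc β ^ 2 - 4) := by
        rw [sc]
        ring
      rw [e, div_eq_iff h4.ne'] at hq
      rw [htr] at h
      have : a < d := by nlinarith
      nlinarith
    · rw [sign_pos h] at hq
      have sc : ((1 : SignType) : ℝ) = 1 := by simp
      have e : (2 * ((1 : SignType) : ℝ) / √(trc β ^ 2 - 4)) * ((d - a) / 2) = (d - a) / √(trc β ^ 2 - 4) := by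
        rw [sc]
        ring
      rw [e, div_eq_iff h4.ne'] at hq
      rw [htr] at h
      have : d < a := by nlinarith
      nlinarith
  refine ⟨g, a, d, hg, hgS, had, ha2, ?_⟩
  have a0 : a ≠ 0 := by
    intro h
    rw [h, zero_mul] at had
    norm_num at had
  have d0 : d ≠ 0 := by
    intro h
    rw [h, mul_zero] at had
    norm_num at had
  have key : ∀ n : ℤ, g * α ^ n * g⁻¹ = β ^ n := by
    intro n
    rw [hβ, conj_zpow]
  have nat : ∀ n : ℕ, ((β ^ n : GG) : Matrix (Fin 2) (Fin 2) ℝ) 0 0 = a ^ n ∧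
      ((β ^ n : GG) : Matrix (Fin 2) (Fin 2) ℝ) 0 1 = 0 ∧
      ((β ^ n : GG) : Matrix (Fin 2) (Fin 2) ℝ) 1 0 = 0 ∧
      ((β ^ n : GG) : Matrix (Fin 2) (Fin 2) ℝ) 1 1 = d ^ n := by
    intro n
    induction n with
    | zero => simp
    | succ n ih =>
      obtain ⟨i1, i2, i3, i4⟩ := ih
      rw [pow_succ]
      have e : ∀ i j, ((β ^ n * β : GG) : Matrix (Fin 2) (Fin 2) ℝ) i j =
          ((β ^ n : GG) : Matrix (Fin 2) (Fin 2) ℝ) i 0 * (β : Matrix (Fin 2) (Fin 2) ℝ) 0 j +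
          ((β ^ n : GG) : Matrix (Fin 2) (Fin 2) ℝ) i 1 * (β : Matrix (Fin 2) (Fin 2) ℝ) 1 j := by
        intro i j
        rw [show ((β ^ n * β : GG) : Matrix (Fin 2) (Fin 2) ℝ) = ((β ^ n : GG) : Matrix (Fin 2) (Fin 2) ℝ) * (β : Matrix (Fin 2) (Fin 2) ℝ) from rfl,
          Matrix.mul_apply, Fin.sum_univ_two]
      rw [e, e, e, e, i1, i2, i3, i4, b0, c0, ← ha, ← hd]
      refine ⟨by ring, by ring, by ring, by ring⟩
  -- inverse
  have inv_e : ∀ γ : GG, dt γ = 1 →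
      ((γ⁻¹ : GG) : Matrix (Fin 2) (Fin 2) ℝ) 0 0 = (γ : Matrix (Fin 2) (Fin 2) ℝ) 1 1 ∧
      ((γ⁻¹ : GG) : Matrix (Fin 2) (Fin 2) ℝ) 0 1 = -(γ : Matrix (Fin 2) (Fin 2) ℝ) 0 1 ∧
      ((γ⁻¹ : GG) : Matrix (Fin 2) (Fin 2) ℝ) 1 0 = -(γ : Matrix (Fin 2) (Fin 2) ℝ) 1 0 ∧
      ((γ⁻¹ : GG) : Matrix (Fin 2) (Fin 2) ℝ) 1 1 = (γ : Matrix (Fin 2) (Fin 2) ℝ) 0 0 := by
    intro γ hγ
    have e1 : ((γ⁻¹ : GG) : Matrix (Fin 2) (Fin 2) ℝ) = (γ : Matrix (Fin 2) (Fin 2) ℝ)⁻¹ :=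
      Matrix.coe_units_inv γ
    rw [e1, Matrix.inv_def, Matrix.adjugate_fin_two]
    have e2 : (γ : Matrix (Fin 2) (Fin 2) ℝ).det = 1 := hγ
    rw [e2]
    simp
  have dtp : ∀ n : ℕ, dt (β ^ n) = 1 := by
    intro n
    induction n with
    | zero => simp [dt_one]
    | succ n ih => rw [pow_succ, dt_mul, ih, hβ1, one_mul]
  intro n
  rw [key n]
  obtain ⟨m, rfl | rfl⟩ := n.eq_nat_or_neg
  · rw [zpow_natCast, zpow_natCast, zpow_natCast]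
    exact nat m
  · rw [zpow_neg, zpow_natCast, zpow_neg, zpow_natCast, zpow_neg, zpow_natCast]
    obtain ⟨i1, i2, i3, i4⟩ := nat m
    obtain ⟨j1, j2, j3, j4⟩ := inv_e _ (dtp m)
    rw [j1, j2, j3, j4, i1, i2, i3, i4]
    have hh : a ^ m * d ^ m = 1 := by rw [← mul_pow, had, one_pow]
    refine ⟨?_, by simp, by simp, ?_⟩
    · exact eq_inv_of_mul_eq_one_right hh
    · exact eq_inv_of_mul_eq_one_left hh

end A6aux

open A6aux

theorem cocompact_arc {Γ : Subgroup GG} (h : Fuchs Γ) : ∃ M : ℝ, ∀ S : Arc, ∃ a ∈ Γ, |(a • S).tr| ≤ M := by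
  obtain ⟨C, hC⟩ := h.coc
  refine ⟨4 * C ^ 2, fun S => ?_⟩
  obtain ⟨g, hg, hgS⟩ := exists_smul_S0 S
  have hdi : dt g⁻¹ = 1 := by
    have := dt_mul g g⁻¹
    rw [mul_inv_cancel, dt_one, hg, one_mul] at this
    exact this.symm
  obtain ⟨γ, hγ, hb⟩ := hC g⁻¹ hdi
  refine ⟨γ⁻¹, Γ.inv_mem hγ, ?_⟩
  have hS : S = g⁻¹ • S0 := by rw [← hgS, inv_smul_smul]
  have hd1 : dt (γ⁻¹ * g⁻¹) = 1 := by
    rw [dt_mul, hdi, h.det1 _ (Γ.inv_mem hγ), one_mul]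
  rw [hS, smul_smul]
  set G := γ⁻¹ * g⁻¹ with hG
  rw [Arc.tr, smul_p G hd1, smul_r G hd1]
  have b00 := hb 0 0
  have b01 := hb 0 1
  have b10 := hb 1 0
  have b11 := hb 1 1
  have C0 : 0 ≤ C := (abs_nonneg _).trans b00
  have e1 : |(G : Matrix (Fin 2) (Fin 2) ℝ) 1 0 * (G : Matrix (Fin 2) (Fin 2) ℝ) 1 1| ≤ C ^ 2 := by
    rw [abs_mul, sq]
    exact mul_le_mul b10 b11 (abs_nonneg _) C0
  have e2 : |(G : Matrix (Fin 2) (Fin 2) ℝ) 0 0 * (G : Matrix (Fin 2) (Fin 2) ℝ) 0 1| ≤ C ^ 2 := by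
    rw [abs_mul, sq]
    exact mul_le_mul b00 b01 (abs_nonneg _) C0
  have s1 : S0.p = 0 := rfl
  have s2 : S0.q = -1 := rfl
  have s3 : S0.r = 0 := rfl
  rw [s1, s2, s3, abs_le]
  rw [abs_le] at e1 e2
  constructor <;> nlinarith [e1.1, e1.2, e2.1, e2.2]

theorem dbl (α : GG) (h1 : dt α = 1) (h2 : 4 < trc α ^ 2) (L : Set Arc)
    (hinv : ∀ n : ℤ, ∀ T ∈ L, α ^ n • T ∈ L) (lf : ∀ M : ℝ, {S | S ∈ L ∧ |S.tr| ≤ M}.Finite)
    (ne : ∀ T ∈ L, ∀ ξ : X, (ax α).val ξ = 0 → T.val ξ = 0 → T = ax α ∨ T = -(ax α)) (K : ℝ) :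
    ∃ F : Finset Arc, (∀ T ∈ F, T ∈ L) ∧ ∀ T ∈ L, |BB T (ax α)| ≤ K → ∃ n : ℤ, ∃ T' ∈ F, T = α ^ n • T' := by
  obtain ⟨g, a, d, hg, hgS, had, ha2, hn⟩ := diag α h1 h2
  have hdi : dt g⁻¹ = 1 := by
    have := dt_mul g g⁻¹
    rw [mul_inv_cancel, dt_one, hg, one_mul] at this
    exact this.symm
  obtain ⟨C, hC0, hC⟩ := bd g⁻¹ hdi
  set M : ℝ := C * (K ^ 2 + 1 + K + a ^ 2) + |(ax α).tr| with hM
  have dz : ∀ n : ℤ, dt (α ^ n) = 1 := by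
    have nat : ∀ n : ℕ, dt (α ^ n) = 1 := by
      intro n
      induction n with
      | zero => simp [dt_one]
      | succ n ih => rw [pow_succ, dt_mul, ih, h1, one_mul]
    intro n
    obtain ⟨m, rfl | rfl⟩ := n.eq_nat_or_neg
    · rw [zpow_natCast]; exact nat m
    · have := dt_mul (α ^ (-(m:ℤ))) (α ^ m)
      rw [zpow_neg, zpow_natCast, inv_mul_cancel, dt_one, nat m, mul_one] at this
      rw [zpow_neg, zpow_natCast]
      exact this.symm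
  have key : ∀ T ∈ L, |BB T (ax α)| ≤ K → ∃ n : ℤ, |(α ^ n • T).tr| ≤ M := by
    intro T hT hB
    set U := g • T with hU
    have K0 : 0 ≤ K := (abs_nonneg _).trans hB
    have hBU : BB U S0 = -U.q := by
      show -(U.p * 0 + U.r * 0 - 2 * U.q * (-1)) / 2 = -U.q
      ring
    have hq : |U.q| ≤ K := by
      rw [← abs_neg, ← hBU, ← hgS, hU, BB_smul]
      exact hB
    have hTU : T = g⁻¹ • U := by rw [hU, inv_smul_smul]
    have hUh := U.h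
    have triv : (T = ax α ∨ T = -(ax α)) → ∃ n : ℤ, |(α ^ n • T).tr| ≤ M := by
      intro h
      refine ⟨0, ?_⟩
      rw [zpow_zero, one_smul]
      have e : |T.tr| = |(ax α).tr| := by
        rcases h with h | h
        · rw [h]
        · rw [h, Arc.tr, Arc.tr, Arc.neg_p, Arc.neg_r, ← abs_neg]
          congr 1
          ring
      rw [e, hM]
      have : 0 ≤ C * (K ^ 2 + 1 + K + a ^ 2) := by positivity
      linarith
    by_cases hp : U.p = 0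
    · apply triv
      refine ne T hT (g⁻¹ • (OnePoint.infty : X)) ?_ ?_
      · obtain ⟨k, hk, hv⟩ := val_smul g⁻¹ (OnePoint.infty : X)
        have := hv S0
        rw [← hgS, inv_smul_smul] at this
        rw [this, hgS]
        have : S0.val (OnePoint.infty : X) = 0 := rfl
        rw [this, mul_zero]
      · obtain ⟨k, hk, hv⟩ := val_smul g⁻¹ (OnePoint.infty : X)
        have := hv U
        rw [← hTU] at this
        rw [this]
        have : U.val (OnePoint.infty : X) = U.p := rfl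
        rw [this, hp, mul_zero]
    by_cases hr : U.r = 0
    · apply triv
      refine ne T hT (g⁻¹ • ((0 : ℝ) : X)) ?_ ?_
      · obtain ⟨k, hk, hv⟩ := val_smul g⁻¹ ((0 : ℝ) : X)
        have := hv S0
        rw [← hgS, inv_smul_smul] at this
        rw [this, hgS]
        have : S0.val ((0 : ℝ) : X) = 0 := by
          show S0.ev 0 1 = 0
          simp [Arc.ev, S0]
        rw [this, mul_zero]
      · obtain ⟨k, hk, hv⟩ := val_smul g⁻¹ ((0 : ℝ) : X)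
        have := hv U
        rw [← hTU] at this
        rw [this]
        have : U.val ((0 : ℝ) : X) = U.r := by
          show U.ev 0 1 = U.r
          simp [Arc.ev]
        rw [this, hr, mul_zero]
    -- general case
    have hr0 : 0 < |U.r| := abs_pos.mpr hr
    obtain ⟨m, hm1, hm2⟩ := exists_mem_Ico_zpow hr0 ha2
    -- |r| a^(-2m) ∈ [1, a²)
    refine ⟨-m, ?_⟩
    have e1 : α ^ (-m) • T = g⁻¹ • ((g * α ^ (-m) * g⁻¹) • U) := by
      rw [hU, smul_smul, smul_smul]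
      congr 1
      group
    rw [e1]
    set V := (g * α ^ (-m) * g⁻¹) • U with hV
    have hd' : dt (g * α ^ (-m) * g⁻¹) = 1 := by rw [dt_mul, dt_mul, hg, hdi, dz]; norm_num
    obtain ⟨n1, n2, n3, n4⟩ := hn (-m)
    have a0 : a ≠ 0 := by
      intro h
      rw [h, zero_mul] at had
      norm_num at had
    have d0 : d ≠ 0 := by
      intro h
      rw [h, mul_zero] at had
      norm_num at had
    have hda : d = a⁻¹ := eq_inv_of_mul_eq_one_right had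
    have sqm : (a ^ m) ^ 2 = (a ^ 2) ^ m := by rw [sq, sq, mul_zpow]
    have v1 : V.p = U.p * (a ^ 2) ^ m := by
      rw [hV, smul_p _ hd', n3, n4, hda, zpow_neg, inv_zpow, inv_inv, ← sqm]
      ring
    have v2 : V.q = U.q := by
      rw [hV, smul_q _ hd', n1, n2, n3, n4, hda, zpow_neg, zpow_neg, inv_zpow, inv_inv]
      have : (a ^ m)⁻¹ * a ^ m = 1 := inv_mul_cancel₀ (zpow_ne_zero _ a0)
      linear_combination U.q * this
    have v3 : V.r = U.r * ((a ^ 2) ^ m)⁻¹ := by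
      rw [hV, smul_r _ hd', n1, n2, zpow_neg, ← sqm, inv_pow]
      ring
    have P0 : 0 < (a ^ 2) ^ m := by positivity
    have w3 : |V.r| ≤ a ^ 2 := by
      rw [v3, abs_mul, abs_inv, abs_of_pos P0, mul_inv_le_iff₀ P0]
      rw [zpow_add_one₀ (by positivity)] at hm2
      linarith
    have w1 : |V.p| ≤ K ^ 2 + 1 := by
      have e3 : V.p * V.r = U.q ^ 2 - 1 := by
        rw [v1, v3]
        have : (a ^ 2) ^ m * ((a ^ 2) ^ m)⁻¹ = 1 := mul_inv_cancel₀ P0.ne'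
        linear_combination U.p * U.r * this + hUh
      have e4 : 1 ≤ |V.r| := by
        rw [v3, abs_mul, abs_inv, abs_of_pos P0, le_mul_inv_iff₀ P0, one_mul]
        exact hm1
      have e5 : |V.p| * |V.r| ≤ K ^ 2 + 1 := by
        rw [← abs_mul, e3]
        have : U.q ^ 2 ≤ K ^ 2 := by
          rw [← sq_abs]
          exact pow_le_pow_left₀ (abs_nonneg _) hq 2
        rw [abs_le]
        constructor <;> nlinarith [sq_nonneg U.q, sq_nonneg K]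
      nlinarith [abs_nonneg V.p]
    refine (hC V).trans ?_
    have : |V.p| + |V.q| + |V.r| ≤ K ^ 2 + 1 + K + a ^ 2 := by rw [v2]; linarith
    have := mul_le_mul_of_nonneg_left this hC0
    rw [hM]
    linarith [abs_nonneg (ax α).tr]
  refine ⟨(lf M).toFinset, fun T hT => ?_, fun T hT hB => ?_⟩
  · rw [Set.Finite.mem_toFinset] at hT
    exact hT.1
  · obtain ⟨n, hn⟩ := key T hT hB
    refine ⟨-n, α ^ n • T, ?_, ?_⟩
    · rw [Set.Finite.mem_toFinset]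
      exact ⟨hinv n T hT, hn⟩
    · rw [smul_smul, zpow_neg, inv_mul_cancel, one_smul]

theorem lf_orbit {Γ : Subgroup GG} (h : Fuchs Γ) (α : GG) (hα : α ∈ Γ) (h1 : α ≠ 1) (M : ℝ) :
    {T : Arc | (∃ g ∈ Γ, T = g • ax α) ∧ |T.tr| ≤ M}.Finite := by
  have d1 := h.det1 α hα
  have t1 := hyp h hα h1
  obtain ⟨k, a, d, hk, hkS, had, ha2, hn⟩ := diag α d1 t1
  have hdi : dt k⁻¹ = 1 := by
    have := dt_mul k k⁻¹
    rw [mul_inv_cancel, dt_one, hk, one_mul] at this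
    exact this.symm
  -- bound for the entries of k
  obtain ⟨B, hB0, hB⟩ : ∃ B : ℝ, 0 ≤ B ∧ ∀ i j, |(k : Matrix (Fin 2) (Fin 2) ℝ) i j| ≤ B := by
    refine ⟨∑ i, ∑ j, |(k : Matrix (Fin 2) (Fin 2) ℝ) i j|, by positivity, fun i j => ?_⟩
    refine (Finset.single_le_sum (f := fun j => |(k : Matrix (Fin 2) (Fin 2) ℝ) i j|)
      (fun _ _ => abs_nonneg _) (Finset.mem_univ j)).trans ?_
    exact Finset.single_le_sum (f := fun i => ∑ j, |(k : Matrix (Fin 2) (Fin 2) ℝ) i j|)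
      (fun _ _ => Finset.sum_nonneg fun _ _ => abs_nonneg _) (Finset.mem_univ i)
  set E : ℝ := a ^ 2 + (M ^ 2 / 4 + 1) + 1 with hE
  have hE0 : 0 ≤ E := by positivity
  refine Set.Finite.subset ((h.disc (2 * (E * B))).image (fun γ => γ • ax α)) ?_
  rintro T ⟨⟨γ, hγ, rfl⟩, hT⟩
  set G := γ * k⁻¹ with hG
  have hG1 : dt G = 1 := by rw [hG, dt_mul, hdi, h.det1 γ hγ, one_mul]
  have hGS : γ • ax α = G • S0 := by rw [hG, ← hkS, smul_smul]; congr 1; group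
  set x := (G : Matrix (Fin 2) (Fin 2) ℝ) 0 0 with hx
  set y := (G : Matrix (Fin 2) (Fin 2) ℝ) 0 1 with hy
  set z := (G : Matrix (Fin 2) (Fin 2) ℝ) 1 0 with hz
  set w := (G : Matrix (Fin 2) (Fin 2) ℝ) 1 1 with hw
  have hdet : x * w - y * z = 1 := by
    have := hG1
    rw [dt, Matrix.det_fin_two] at this
    exact this
  have htr : (G • S0).tr = 2 * (x * y + z * w) := by
    rw [Arc.tr, smul_p G hG1, smul_r G hG1]
    have s1 : S0.p = 0 := rfl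
    have s2 : S0.q = -1 := rfl
    have s3 : S0.r = 0 := rfl
    rw [s1, s2, s3]
    ring
  rw [hGS, htr] at hT
  have hprod : (x ^ 2 + z ^ 2) * (y ^ 2 + w ^ 2) ≤ M ^ 2 / 4 + 1 := by
    have e : (x ^ 2 + z ^ 2) * (y ^ 2 + w ^ 2) = (x * y + z * w) ^ 2 + (x * w - y * z) ^ 2 := by ring
    rw [e, hdet]
    have : (2 * (x * y + z * w)) ^ 2 ≤ M ^ 2 := by
      rw [← sq_abs]
      exact pow_le_pow_left₀ (abs_nonneg _) hT 2
    nlinarith
  have hu : 0 < x ^ 2 + z ^ 2 := by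
    by_contra hcon
    have hx0 : x = 0 := by nlinarith [sq_nonneg x, sq_nonneg z]
    have hz0 : z = 0 := by nlinarith [sq_nonneg x, sq_nonneg z]
    rw [hx0, hz0] at hdet
    norm_num at hdet
  obtain ⟨m, hm1, hm2⟩ := exists_mem_Ico_zpow hu ha2
  -- γ' = γ α^(-m)
  have axn : α ^ (-m) • ax α = ax α := by
    have := ax_s α d1 t1
    have hst : α ∈ MulAction.stabilizer GG (ax α) := this
    exact (MulAction.stabilizer GG (ax α)).zpow_mem hst (-m)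
  refine ⟨γ * α ^ (-m), ⟨Γ.mul_mem hγ (Γ.zpow_mem hα _), ?_⟩, ?_⟩
  swap
  · show (γ * α ^ (-m)) • ax α = γ • ax α
    rw [mul_smul, axn]
  have e1 : γ * α ^ (-m) = (G * (k * α ^ (-m) * k⁻¹)) * k := by
    rw [hG]
    group
  obtain ⟨n1, n2, n3, n4⟩ := hn (-m)
  set D := k * α ^ (-m) * k⁻¹ with hD
  have a0 : a ≠ 0 := by
    intro h
    rw [h, zero_mul] at had
    norm_num at had
  have hda : d = a⁻¹ := eq_inv_of_mul_eq_one_right had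
  have P0 : 0 < (a ^ 2) ^ m := by positivity
  have mulE : ∀ (A B : GG) (i j : Fin 2), ((A * B : GG) : Matrix (Fin 2) (Fin 2) ℝ) i j =
      (A : Matrix (Fin 2) (Fin 2) ℝ) i 0 * (B : Matrix (Fin 2) (Fin 2) ℝ) 0 j +
      (A : Matrix (Fin 2) (Fin 2) ℝ) i 1 * (B : Matrix (Fin 2) (Fin 2) ℝ) 1 j := by
    intro A B i j
    rw [show ((A * B : GG) : Matrix (Fin 2) (Fin 2) ℝ) = (A : Matrix (Fin 2) (Fin 2) ℝ) * (B : Matrix (Fin 2) (Fin 2) ℝ) from rfl,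
      Matrix.mul_apply, Fin.sum_univ_two]
  have g00 : ((G * D : GG) : Matrix (Fin 2) (Fin 2) ℝ) 0 0 = x * (a ^ m)⁻¹ := by
    rw [mulE, n1, n3, zpow_neg]; ring
  have g10 : ((G * D : GG) : Matrix (Fin 2) (Fin 2) ℝ) 1 0 = z * (a ^ m)⁻¹ := by
    rw [mulE, n1, n3, zpow_neg]; ring
  have g01 : ((G * D : GG) : Matrix (Fin 2) (Fin 2) ℝ) 0 1 = y * a ^ m := by
    rw [mulE, n2, n4, hda, zpow_neg, inv_zpow, inv_inv]; ring
  have g11 : ((G * D : GG) : Matrix (Fin 2) (Fin 2) ℝ) 1 1 = w * a ^ m := by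
    rw [mulE, n2, n4, hda, zpow_neg, inv_zpow, inv_inv]; ring
  have sqm : (a ^ m) ^ 2 = (a ^ 2) ^ m := by rw [sq, sq, mul_zpow]
  have u1 : (x * (a ^ m)⁻¹) ^ 2 + (z * (a ^ m)⁻¹) ^ 2 = (x ^ 2 + z ^ 2) * ((a ^ 2) ^ m)⁻¹ := by
    rw [← sqm]
    field_simp
  have u2 : (y * a ^ m) ^ 2 + (w * a ^ m) ^ 2 = (y ^ 2 + w ^ 2) * (a ^ 2) ^ m := by
    rw [← sqm]
    ring
  have u3 : (x ^ 2 + z ^ 2) * ((a ^ 2) ^ m)⁻¹ ≤ a ^ 2 := by
    rw [mul_inv_le_iff₀ P0]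
    rw [zpow_add_one₀ (by positivity)] at hm2
    linarith
  have u4 : 1 ≤ (x ^ 2 + z ^ 2) * ((a ^ 2) ^ m)⁻¹ := by
    rw [le_mul_inv_iff₀ P0, one_mul]
    exact hm1
  have u5 : (y ^ 2 + w ^ 2) * (a ^ 2) ^ m ≤ M ^ 2 / 4 + 1 := by
    have e : ((x ^ 2 + z ^ 2) * ((a ^ 2) ^ m)⁻¹) * ((y ^ 2 + w ^ 2) * (a ^ 2) ^ m) =
        (x ^ 2 + z ^ 2) * (y ^ 2 + w ^ 2) := by
      have : ((a ^ 2) ^ m)⁻¹ * (a ^ 2) ^ m = 1 := inv_mul_cancel₀ P0.ne'
      linear_combination (x ^ 2 + z ^ 2) * (y ^ 2 + w ^ 2) * this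
    have : 0 ≤ (y ^ 2 + w ^ 2) * (a ^ 2) ^ m := by positivity
    nlinarith
  have small : ∀ t : ℝ, t ^ 2 ≤ E - 1 → |t| ≤ E := by
    clear_value E
    intro t ht
    have s1 : 0 ≤ t ^ 2 - 2 * t + 1 := by nlinarith [sq_nonneg (t - 1)]
    have s2 : 0 ≤ t ^ 2 + 2 * t + 1 := by nlinarith [sq_nonneg (t + 1)]
    rw [abs_le]
    constructor <;> linarith
  have Mp : 0 ≤ M ^ 2 / 4 + 1 := by positivity
  have ap : 0 ≤ a ^ 2 := by positivity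
  have k00 : |((G * D : GG) : Matrix (Fin 2) (Fin 2) ℝ) 0 0| ≤ E := by
    rw [g00]
    apply small
    have := sq_nonneg (z * (a ^ m)⁻¹)
    rw [hE]
    linarith
  have k10 : |((G * D : GG) : Matrix (Fin 2) (Fin 2) ℝ) 1 0| ≤ E := by
    rw [g10]
    apply small
    have := sq_nonneg (x * (a ^ m)⁻¹)
    rw [hE]
    linarith
  have k01 : |((G * D : GG) : Matrix (Fin 2) (Fin 2) ℝ) 0 1| ≤ E := by
    rw [g01]
    apply small
    have := sq_nonneg (w * a ^ m)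
    rw [hE]
    linarith
  have k11 : |((G * D : GG) : Matrix (Fin 2) (Fin 2) ℝ) 1 1| ≤ E := by
    rw [g11]
    apply small
    have := sq_nonneg (y * a ^ m)
    rw [hE]
    linarith
  have kall : ∀ i j, |((G * D : GG) : Matrix (Fin 2) (Fin 2) ℝ) i j| ≤ E := by
    intro i j
    fin_cases i <;> fin_cases j
    · exact k00
    · exact k01
    · exact k10
    · exact k11
  intro i j
  rw [e1, mulE]
  refine (abs_add_le _ _).trans ?_
  rw [abs_mul, abs_mul, two_mul]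
  exact add_le_add (mul_le_mul (kall i 0) (hB 0 j) (abs_nonneg _) hE0)
    (mul_le_mul (kall i 1) (hB 1 j) (abs_nonneg _) hE0)

end Pool.Agent.H100R2.SC
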