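import Pool.Agent.H100R2.SC.Defs

/-! Task B5 (helper862): oriented axes of hyperbolic elements. -/

set_option autoImplicit false

namespace Pool.Agent.H100R2.SC

open Filter Topology

theorem b5_dt_inv (g : GG) : dt g⁻¹ = (dt g)⁻¹ := by
  have h : dt (g * g⁻¹) = dt g * dt g⁻¹ := dt_mul g g⁻¹
  rw [mul_inv_cancel, dt_one] at h
  exact eq_inv_of_mul_eq_one_right h.symm

theorem b5_dt_conj (g h : GG) : dt (g * h * g⁻¹) = dt h := by
  rw [dt_mul, dt_mul, b5_dt_inv]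
  have := dt_ne_zero g
  field_simp

theorem b5_dt_eq (g : GG) : dt g = (g : Matrix (Fin 2) (Fin 2) ℝ) 0 0 * (g : Matrix (Fin 2) (Fin 2) ℝ) 1 1 -
    (g : Matrix (Fin 2) (Fin 2) ℝ) 0 1 * (g : Matrix (Fin 2) (Fin 2) ℝ) 1 0 := by
  rw [dt, Matrix.det_fin_two]

theorem b5_inv_entries (g : GG) :
    ((g⁻¹ : GG) : Matrix (Fin 2) (Fin 2) ℝ) 0 0 = (g : Matrix (Fin 2) (Fin 2) ℝ) 1 1 / dt g ∧
    ((g⁻¹ : GG) : Matrix (Fin 2) (Fin 2) ℝ) 0 1 = -(g : Matrix (Fin 2) (Fin 2) ℝ) 0 1 / dt g ∧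
    ((g⁻¹ : GG) : Matrix (Fin 2) (Fin 2) ℝ) 1 0 = -(g : Matrix (Fin 2) (Fin 2) ℝ) 1 0 / dt g ∧
    ((g⁻¹ : GG) : Matrix (Fin 2) (Fin 2) ℝ) 1 1 = (g : Matrix (Fin 2) (Fin 2) ℝ) 0 0 / dt g := by
  rw [Matrix.coe_units_inv, Matrix.inv_def, Matrix.adjugate_fin_two]
  simp only [dt]
  refine ⟨?_, ?_, ?_, ?_⟩ <;> simp [div_eq_inv_mul]

theorem b5_mul_entries (g h : GG) (i j : Fin 2) :
    ((g * h : GG) : Matrix (Fin 2) (Fin 2) ℝ) i j =
      (g : Matrix (Fin 2) (Fin 2) ℝ) i 0 * (h : Matrix (Fin 2) (Fin 2) ℝ) 0 j +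
      (g : Matrix (Fin 2) (Fin 2) ℝ) i 1 * (h : Matrix (Fin 2) (Fin 2) ℝ) 1 j := by
  rw [Units.val_mul, Matrix.mul_apply, Fin.sum_univ_two]

/-! ### representative vectors (private versions of small B1/B4 facts) -/

def b5_u (ξ : X) : ℝ := ξ.elim 1 (fun x => x)
def b5_v (ξ : X) : ℝ := ξ.elim 0 (fun _ => 1)

theorem b5_om (ξ η : X) : om ξ η = b5_u ξ * b5_v η - b5_v ξ * b5_u η := by
  induction ξ using OnePoint.rec <;> induction η using OnePoint.rec <;> simp [om, b5_u, b5_v]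

theorem b5_val (S : Arc) (ξ : X) : S.val ξ = S.ev (b5_u ξ) (b5_v ξ) := by
  induction ξ using OnePoint.rec <;> simp [Arc.val, Arc.ev, b5_u, b5_v]

theorem b5_vec (g : GG) (ξ : X) : ∃ c : ℝ, c ≠ 0 ∧
    (g : Matrix (Fin 2) (Fin 2) ℝ) 0 0 * b5_u ξ + (g : Matrix (Fin 2) (Fin 2) ℝ) 0 1 * b5_v ξ =
      c * b5_u (g • ξ) ∧
    (g : Matrix (Fin 2) (Fin 2) ℝ) 1 0 * b5_u ξ + (g : Matrix (Fin 2) (Fin 2) ℝ) 1 1 * b5_v ξ =
      c * b5_v (g • ξ) := by
  have hdet := dt_ne_zero g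
  rw [b5_dt_eq] at hdet
  set a := (g : Matrix (Fin 2) (Fin 2) ℝ) 0 0 with ha
  set b := (g : Matrix (Fin 2) (Fin 2) ℝ) 0 1 with hb
  set c := (g : Matrix (Fin 2) (Fin 2) ℝ) 1 0 with hc
  set d := (g : Matrix (Fin 2) (Fin 2) ℝ) 1 1 with hd
  have e1 : g • (OnePoint.infty : X) = if c = 0 then OnePoint.infty else ((a / c : ℝ) : X) :=
    OnePoint.smul_infty_eq_ite g
  have e2 : ∀ t : ℝ, g • (t : X) = if c * t + d = 0 then OnePoint.infty else
      (((a * t + b) / (c * t + d) : ℝ) : X) := fun t => OnePoint.smul_some_eq_ite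
  induction ξ using OnePoint.rec with
  | infty =>
    by_cases h0 : c = 0
    · rw [e1, if_pos h0]
      refine ⟨a, ?_, ?_, ?_⟩
      · intro h; rw [h0, h] at hdet; apply hdet; ring
      · simp [b5_u, b5_v]
      · simp [b5_u, b5_v, h0]
    · rw [e1, if_neg h0]
      refine ⟨c, h0, ?_, ?_⟩
      · simp only [b5_u, b5_v, OnePoint.elim_infty, OnePoint.elim_some]
        field_simp
        ring
      · simp [b5_u, b5_v]
  | coe t =>
    by_cases h0 : c * t + d = 0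
    · rw [e2, if_pos h0]
      refine ⟨a * t + b, ?_, ?_, ?_⟩
      · intro h
        apply hdet
        have h3 : d = - (c * t) := by linarith
        have h4 : b = - (a * t) := by linarith
        rw [h3, h4]; ring
      · simp [b5_u, b5_v]
      · simp [b5_u, b5_v, h0]
    · rw [e2, if_neg h0]
      refine ⟨c * t + d, h0, ?_, ?_⟩
      · simp only [b5_u, b5_v, OnePoint.elim_some]
        rw [mul_div_cancel₀ _ h0, mul_one]
      · simp [b5_u, b5_v]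

theorem b5_val_smul (g : GG) (ξ : X) :
    ∃ k : ℝ, 0 < k ∧ ∀ S : Arc, (g • S).val (g • ξ) = k * S.val ξ := by
  obtain ⟨c, hc, h1, h2⟩ := b5_vec g ξ
  have hd := dt_ne_zero g
  have hd' : 0 < |dt g| := abs_pos.2 hd
  refine ⟨|dt g| / c ^ 2, by positivity, fun S => ?_⟩
  rw [b5_val, b5_val, smul_ev]
  have e1 : (g : Matrix (Fin 2) (Fin 2) ℝ) 1 1 * b5_u (g • ξ) -
      (g : Matrix (Fin 2) (Fin 2) ℝ) 0 1 * b5_v (g • ξ) = dt g / c * b5_u ξ := by
    rw [b5_dt_eq]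
    field_simp
    linear_combination (-(g : Matrix (Fin 2) (Fin 2) ℝ) 1 1) * h1 +
      (g : Matrix (Fin 2) (Fin 2) ℝ) 0 1 * h2
  have e2 : -(g : Matrix (Fin 2) (Fin 2) ℝ) 1 0 * b5_u (g • ξ) +
      (g : Matrix (Fin 2) (Fin 2) ℝ) 0 0 * b5_v (g • ξ) = dt g / c * b5_v ξ := by
    rw [b5_dt_eq]
    field_simp
    linear_combination ((g : Matrix (Fin 2) (Fin 2) ℝ) 1 0) * h1 -
      (g : Matrix (Fin 2) (Fin 2) ℝ) 0 0 * h2
  rw [e1, e2]
  have e3 : S.ev (dt g / c * b5_u ξ) (dt g / c * b5_v ξ) = dt g ^ 2 / c ^ 2 * S.ev (b5_u ξ) (b5_v ξ) := by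
    simp only [Arc.ev]
    field_simp
  rw [e3, ← sq_abs (dt g)]
  field_simp

theorem b5_cyc_smul (g : GG) (hg : 0 < dt g) (a b c : X) (h : cyc a b c) :
    cyc (g • a) (g • b) (g • c) := by
  obtain ⟨r, hr, r1, r2⟩ := b5_vec g a
  obtain ⟨s, hs, s1, s2⟩ := b5_vec g b
  obtain ⟨t, ht, t1, t2⟩ := b5_vec g c
  have key : ∀ (ξ η : X) (x y : ℝ),
      (g : Matrix (Fin 2) (Fin 2) ℝ) 0 0 * b5_u ξ + (g : Matrix (Fin 2) (Fin 2) ℝ) 0 1 * b5_v ξ =
        x * b5_u (g • ξ) →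
      (g : Matrix (Fin 2) (Fin 2) ℝ) 1 0 * b5_u ξ + (g : Matrix (Fin 2) (Fin 2) ℝ) 1 1 * b5_v ξ =
        x * b5_v (g • ξ) →
      (g : Matrix (Fin 2) (Fin 2) ℝ) 0 0 * b5_u η + (g : Matrix (Fin 2) (Fin 2) ℝ) 0 1 * b5_v η =
        y * b5_u (g • η) →
      (g : Matrix (Fin 2) (Fin 2) ℝ) 1 0 * b5_u η + (g : Matrix (Fin 2) (Fin 2) ℝ) 1 1 * b5_v η =
        y * b5_v (g • η) → dt g * om ξ η = x * y * om (g • ξ) (g • η) := by
    intro ξ η x y a1 a2 a3 a4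
    rw [b5_om, b5_om, b5_dt_eq]
    have e : x * y * (b5_u (g • ξ) * b5_v (g • η) - b5_v (g • ξ) * b5_u (g • η)) =
        (x * b5_u (g • ξ)) * (y * b5_v (g • η)) - (x * b5_v (g • ξ)) * (y * b5_u (g • η)) := by
      ring
    rw [e, ← a1, ← a2, ← a3, ← a4]
    ring
  have k1 := key a b r s r1 r2 s1 s2
  have k2 := key b c s t s1 s2 t1 t2
  have k3 := key c a t r t1 t2 r1 r2
  unfold cyc at h ⊢
  have e : (r * s * t) ^ 2 * (om (g • a) (g • b) * om (g • b) (g • c) * om (g • c) (g • a)) =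
      dt g ^ 3 * (om a b * om b c * om c a) := by
    calc _ = (r * s * om (g • a) (g • b)) * (s * t * om (g • b) (g • c)) *
          (t * r * om (g • c) (g • a)) := by ring
      _ = _ := by rw [← k1, ← k2, ← k3]; ring
  have h2 : 0 < (r * s * t) ^ 2 := by positivity
  have h3 : 0 < (r * s * t) ^ 2 *
      (om (g • a) (g • b) * om (g • b) (g • c) * om (g • c) (g • a)) := by
    rw [e]; positivity
  exact (mul_pos_iff_of_pos_left h2).1 h3

theorem b5_exists (S : Arc) : ∃ g : GG, dt g = 1 ∧ g • S = S0 := by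
  have key : ∀ a b c d : ℝ, a * d - b * c = 1 → S.p = -2 * (a * c) → S.q = -(a * d + b * c) →
      S.r = -2 * (b * d) → ∃ g : GG, dt g = 1 ∧ g • S = S0 := by
    intro a b c d h1 h2 h3 h4
    have hdet : (!![a, b; c, d] : Matrix (Fin 2) (Fin 2) ℝ).det ≠ 0 := by
      rw [Matrix.det_fin_two_of, h1]; norm_num
    refine ⟨Matrix.GeneralLinearGroup.mkOfDetNeZero !![a, b; c, d] hdet, ?_, ?_⟩
    · rw [b5_dt_eq]
      simpa [Matrix.GeneralLinearGroup.mkOfDetNeZero] using h1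
    · have h5 : dt (Matrix.GeneralLinearGroup.mkOfDetNeZero !![a, b; c, d] hdet) = 1 := by
        rw [b5_dt_eq]
        simpa [Matrix.GeneralLinearGroup.mkOfDetNeZero] using h1
      apply Arc.ext_ev
      intro x y
      rw [smul_ev, h5, abs_one, div_one]
      simp only [Matrix.GeneralLinearGroup.mkOfDetNeZero, Arc.ev, S0, h2, h3, h4]
      simp
      linear_combination (-2 * x * y * (a * d - b * c + 1)) * h1
  by_cases hp : S.p = 0
  · have h0 : (S.q - 1) * (S.q + 1) = 0 := by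
      have := S.h
      rw [hp] at this
      linarith
    rcases mul_eq_zero.1 h0 with h | h
    · refine key 0 1 (-1) (-S.r / 2) ?_ ?_ ?_ ?_
      · ring
      · rw [hp]; ring
      · linarith
      · ring
    · refine key 1 (-S.r / 2) 0 1 ?_ ?_ ?_ ?_
      · ring
      · rw [hp]; ring
      · linarith
      · ring
  · refine key 1 ((S.q + 1) / S.p) (-S.p / 2) ((1 - S.q) / 2) ?_ ?_ ?_ ?_
    · field_simp
      ring
    · ring
    · field_simp
      ring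
    · field_simp
      linear_combination S.h

theorem trc_conj (g h : GG) : trc (g * h * g⁻¹) = trc h := by
  obtain ⟨e1, e2, e3, e4⟩ := b5_inv_entries g
  have h0 := dt_ne_zero g
  simp only [trc, b5_mul_entries, e1, e2, e3, e4]
  have h1 := b5_dt_eq g
  field_simp
  rw [h1]
  ring

theorem b5_ax_ev (h : GG) (h1 : dt h = 1) (h2 : 4 < trc h ^ 2) (x y : ℝ) :
    (ax h).ev x y = 2 * SignType.sign (trc h) / √(trc h ^ 2 - 4) *
      ((h : Matrix (Fin 2) (Fin 2) ℝ) 1 0 * x ^ 2 +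
        ((h : Matrix (Fin 2) (Fin 2) ℝ) 1 1 - (h : Matrix (Fin 2) (Fin 2) ℝ) 0 0) * x * y -
        (h : Matrix (Fin 2) (Fin 2) ℝ) 0 1 * y ^ 2) := by
  unfold ax
  rw [dif_pos ⟨h1, h2⟩]
  simp only [Arc.ev]
  ring

theorem b5_conj_ev (g h : GG) (x y : ℝ) :
    dt g * (((g * h * g⁻¹ : GG) : Matrix (Fin 2) (Fin 2) ℝ) 1 0 * x ^ 2 +
        (((g * h * g⁻¹ : GG) : Matrix (Fin 2) (Fin 2) ℝ) 1 1 -
          ((g * h * g⁻¹ : GG) : Matrix (Fin 2) (Fin 2) ℝ) 0 0) * x * y -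
        ((g * h * g⁻¹ : GG) : Matrix (Fin 2) (Fin 2) ℝ) 0 1 * y ^ 2) =
      (h : Matrix (Fin 2) (Fin 2) ℝ) 1 0 *
          ((g : Matrix (Fin 2) (Fin 2) ℝ) 1 1 * x - (g : Matrix (Fin 2) (Fin 2) ℝ) 0 1 * y) ^ 2 +
        ((h : Matrix (Fin 2) (Fin 2) ℝ) 1 1 - (h : Matrix (Fin 2) (Fin 2) ℝ) 0 0) *
          ((g : Matrix (Fin 2) (Fin 2) ℝ) 1 1 * x - (g : Matrix (Fin 2) (Fin 2) ℝ) 0 1 * y) *
          (-(g : Matrix (Fin 2) (Fin 2) ℝ) 1 0 * x + (g : Matrix (Fin 2) (Fin 2) ℝ) 0 0 * y) -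
        (h : Matrix (Fin 2) (Fin 2) ℝ) 0 1 *
          (-(g : Matrix (Fin 2) (Fin 2) ℝ) 1 0 * x + (g : Matrix (Fin 2) (Fin 2) ℝ) 0 0 * y) ^ 2 := by
  obtain ⟨e1, e2, e3, e4⟩ := b5_inv_entries g
  have h0 := dt_ne_zero g
  simp only [b5_mul_entries, e1, e2, e3, e4]
  field_simp
  ring

theorem b5_conj_hyp (g h : GG) (h1 : dt h = 1) (h2 : 4 < trc h ^ 2) :
    dt (g * h * g⁻¹) = 1 ∧ 4 < trc (g * h * g⁻¹) ^ 2 := by
  rw [b5_dt_conj, trc_conj]
  exact ⟨h1, h2⟩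

theorem ax_conj_pos (g h : GG) (hg : 0 < dt g) (h1 : dt h = 1) (h2 : 4 < trc h ^ 2) :
    ax (g * h * g⁻¹) = g • ax h := by
  obtain ⟨k1, k2⟩ := b5_conj_hyp g h h1 h2
  apply Arc.ext_ev
  intro x y
  rw [smul_ev, b5_ax_ev _ k1 k2, b5_ax_ev _ h1 h2, trc_conj, abs_of_pos hg, ← b5_conj_ev]
  field_simp

theorem ax_conj_neg (g h : GG) (hg : dt g < 0) (h1 : dt h = 1) (h2 : 4 < trc h ^ 2) :
    ax (g * h * g⁻¹) = -(g • ax h) := by
  obtain ⟨k1, k2⟩ := b5_conj_hyp g h h1 h2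
  apply Arc.ext_ev
  intro x y
  rw [Arc.ev_neg, smul_ev, b5_ax_ev _ k1 k2, b5_ax_ev _ h1 h2, trc_conj, abs_of_neg hg,
    ← b5_conj_ev]
  have := hg.ne
  field_simp

theorem b5_inv_hyp (h : GG) (h1 : dt h = 1) (h2 : 4 < trc h ^ 2) :
    dt h⁻¹ = 1 ∧ trc h⁻¹ = trc h ∧ 4 < trc h⁻¹ ^ 2 := by
  obtain ⟨e1, e2, e3, e4⟩ := b5_inv_entries h
  have h3 : trc h⁻¹ = trc h := by
    simp only [trc, e1, e4, h1]
    ring
  rw [h3, b5_dt_inv, h1]
  exact ⟨by norm_num, rfl, h2⟩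

theorem ax_inv (h : GG) (h1 : dt h = 1) (h2 : 4 < trc h ^ 2) : ax h⁻¹ = -(ax h) := by
  obtain ⟨k1, k2, k3⟩ := b5_inv_hyp h h1 h2
  obtain ⟨e1, e2, e3, e4⟩ := b5_inv_entries h
  apply Arc.ext_ev
  intro x y
  rw [Arc.ev_neg, b5_ax_ev _ k1 k3, b5_ax_ev _ h1 h2, k2, e1, e2, e3, e4, h1]
  ring

theorem ax_smul (h : GG) (h1 : dt h = 1) (h2 : 4 < trc h ^ 2) : h • ax h = ax h := by
  rw [← ax_conj_pos h h (by rw [h1]; norm_num) h1 h2]
  congr 1
  group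

theorem b5_s_ne (h : GG) (h2 : 4 < trc h ^ 2) :
    (2 * SignType.sign (trc h) / √(trc h ^ 2 - 4) : ℝ) ≠ 0 := by
  have h3 : trc h ≠ 0 := by
    intro h'
    rw [h'] at h2
    norm_num at h2
  have h4 : √(trc h ^ 2 - 4) ≠ 0 := (Real.sqrt_pos.2 (by linarith)).ne'
  have h5 : ((SignType.sign (trc h) : SignType) : ℝ) ≠ 0 := by
    rcases lt_or_gt_of_ne h3 with h | h
    · simp [sign_neg h]
    · simp [sign_pos h]
  positivity

theorem ax_val (h : GG) (h1 : dt h = 1) (h2 : 4 < trc h ^ 2) (ξ : X) :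
    (ax h).val ξ = 0 ↔ h • ξ = ξ := by
  have h3 := b5_s_ne h h2
  induction ξ using OnePoint.rec with
  | infty =>
    rw [OnePoint.smul_infty_eq_self_iff]
    have h4 : (ax h).val OnePoint.infty = (ax h).ev 1 0 := by
      simp [Arc.val, Arc.ev]
    rw [h4, b5_ax_ev h h1 h2]
    simp only [one_pow, mul_one, mul_zero, add_zero, ne_eq, OfNat.ofNat_ne_zero, not_false_eq_true,
      zero_pow, sub_zero, mul_eq_zero, h3, false_or]
  | coe t =>
    have h4 : (ax h).val (t : X) = (ax h).ev t 1 := rfl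
    rw [h4, b5_ax_ev h h1 h2, mul_eq_zero, or_iff_right h3,
      ← Matrix.GeneralLinearGroup.fixpointPolynomial_aeval_eq_zero_iff]
    have h5 : (Polynomial.aeval t) h.fixpointPolynomial =
        ((h : Matrix (Fin 2) (Fin 2) ℝ) 1 0 * t ^ 2 +
        ((h : Matrix (Fin 2) (Fin 2) ℝ) 1 1 - (h : Matrix (Fin 2) (Fin 2) ℝ) 0 0) * t * 1 -
        (h : Matrix (Fin 2) (Fin 2) ℝ) 0 1 * 1 ^ 2) := by
      simp [Matrix.GeneralLinearGroup.fixpointPolynomial]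
    rw [h5]

theorem ax_inj (g h : GG) (g1 : dt g = 1) (g2 : 4 < trc g ^ 2) (h1 : dt h = 1) (h2 : 4 < trc h ^ 2)
    (hax : ax g = ax h) (ht : trc g = trc h) : g = h := by
  have h3 := b5_s_ne h h2
  have h4 : ∀ x y : ℝ, (g : Matrix (Fin 2) (Fin 2) ℝ) 1 0 * x ^ 2 +
        ((g : Matrix (Fin 2) (Fin 2) ℝ) 1 1 - (g : Matrix (Fin 2) (Fin 2) ℝ) 0 0) * x * y -
        (g : Matrix (Fin 2) (Fin 2) ℝ) 0 1 * y ^ 2 = (h : Matrix (Fin 2) (Fin 2) ℝ) 1 0 * x ^ 2 +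
        ((h : Matrix (Fin 2) (Fin 2) ℝ) 1 1 - (h : Matrix (Fin 2) (Fin 2) ℝ) 0 0) * x * y -
        (h : Matrix (Fin 2) (Fin 2) ℝ) 0 1 * y ^ 2 := by
    intro x y
    have h5 : (ax g).ev x y = (ax h).ev x y := by rw [hax]
    rw [b5_ax_ev g g1 g2, b5_ax_ev h h1 h2, ht] at h5
    exact mul_left_cancel₀ h3 h5
  have a := h4 1 0
  have b := h4 0 1
  have c := h4 1 1
  have d := ht
  simp only [trc] at d
  ring_nf at a b c d
  apply Units.ext
  ext i j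
  fin_cases i <;> fin_cases j <;> simp only [Fin.zero_eta, Fin.mk_one] <;> linarith

/-! ### diagonal elements -/

noncomputable def b5_dg (l : ℝ) (hl : l ≠ 0) : GG :=
  Matrix.GeneralLinearGroup.mkOfDetNeZero !![l, 0; 0, l⁻¹] (by
    rw [Matrix.det_fin_two_of, mul_inv_cancel₀ hl]; norm_num)

theorem b5_dg_pow (l : ℝ) (hl : l ≠ 0) (n : ℕ) : b5_dg l hl ^ n = b5_dg (l ^ n) (pow_ne_zero n hl) := by
  induction n with
  | zero =>
    apply Units.ext
    ext i j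
    fin_cases i <;> fin_cases j <;> simp [b5_dg, Matrix.GeneralLinearGroup.mkOfDetNeZero]
  | succ n ih =>
    rw [pow_succ, ih]
    apply Units.ext
    ext i j
    rw [b5_mul_entries]
    fin_cases i <;> fin_cases j <;>
      simp [b5_dg, Matrix.GeneralLinearGroup.mkOfDetNeZero, pow_succ, mul_comm]

theorem b5_dg_dt (l : ℝ) (hl : l ≠ 0) : dt (b5_dg l hl) = 1 := by
  rw [b5_dt_eq]
  simp [b5_dg, Matrix.GeneralLinearGroup.mkOfDetNeZero, hl]

theorem b5_dg_trc (l : ℝ) (hl : l ≠ 0) : trc (b5_dg l hl) = l + l⁻¹ := by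
  simp [trc, b5_dg, Matrix.GeneralLinearGroup.mkOfDetNeZero]

theorem b5_dg_hyp (l : ℝ) (hl : l ≠ 0) (h : 1 < |l|) : 4 < trc (b5_dg l hl) ^ 2 := by
  rw [b5_dg_trc]
  have h1 : (l + l⁻¹) ^ 2 = (l - l⁻¹) ^ 2 + 4 := by
    field_simp
    ring
  have h2 : l - l⁻¹ ≠ 0 := by
    intro h3
    have h4 : l ^ 2 = 1 := by
      field_simp at h3
      linarith
    rw [← sq_abs] at h4
    nlinarith
  have h3 : 0 < (l - l⁻¹) ^ 2 := by positivity
  linarith

theorem b5_dg_ax (l : ℝ) (hl : l ≠ 0) (h : 1 < |l|) : ax (b5_dg l hl) = S0 := by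
  apply Arc.ext_ev
  intro x y
  rw [b5_ax_ev _ (b5_dg_dt l hl) (b5_dg_hyp l hl h), b5_dg_trc]
  have h1 : (l + l⁻¹) ^ 2 - 4 = (l - l⁻¹) ^ 2 := by
    field_simp
    ring
  rw [h1, Real.sqrt_sq_eq_abs]
  have e1 : ((b5_dg l hl : GG) : Matrix (Fin 2) (Fin 2) ℝ) 1 0 = 0 := by
    simp [b5_dg, Matrix.GeneralLinearGroup.mkOfDetNeZero]
  have e2 : ((b5_dg l hl : GG) : Matrix (Fin 2) (Fin 2) ℝ) 1 1 = l⁻¹ := by
    simp [b5_dg, Matrix.GeneralLinearGroup.mkOfDetNeZero]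
  have e3 : ((b5_dg l hl : GG) : Matrix (Fin 2) (Fin 2) ℝ) 0 0 = l := by
    simp [b5_dg, Matrix.GeneralLinearGroup.mkOfDetNeZero]
  have e4 : ((b5_dg l hl : GG) : Matrix (Fin 2) (Fin 2) ℝ) 0 1 = 0 := by
    simp [b5_dg, Matrix.GeneralLinearGroup.mkOfDetNeZero]
  rw [e1, e2, e3, e4]
  simp only [Arc.ev, S0]
  rcases lt_or_gt_of_ne hl with hl' | hl'
  · rw [abs_of_neg hl'] at h
    have h3 : l⁻¹ < 0 := inv_lt_zero.2 hl'
    have h4 : l < l⁻¹ := by
      have h5 : l * l⁻¹ = 1 := mul_inv_cancel₀ hl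
      nlinarith
    rw [sign_neg (by linarith), abs_of_neg (by linarith)]
    have h6 : (l - l⁻¹) ≠ 0 := by
      intro h; linarith
    simp only [SignType.coe_neg, SignType.coe_one]
    clear h1 e2 h3 h4
    generalize l⁻¹ = l' at h6 ⊢
    rw [div_neg, neg_mul, mul_div_assoc]
    field_simp
    ring
  · rw [abs_of_pos hl'] at h
    have h3 : 0 < l⁻¹ := inv_pos.2 hl'
    have h4 : l⁻¹ < l := by
      have h5 : l * l⁻¹ = 1 := mul_inv_cancel₀ hl
      nlinarith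
    rw [sign_pos (by linarith), abs_of_pos (by linarith)]
    have h6 : (l - l⁻¹) ≠ 0 := by
      intro h; linarith
    simp only [SignType.coe_one]
    clear h1 e2 h3 h4
    generalize l⁻¹ = l' at h6 ⊢
    field_simp
    ring

theorem b5_diag (h : GG) (h1 : dt h = 1) (h2 : 4 < trc h ^ 2) :
    ∃ k : GG, dt k = 1 ∧ ∃ (l : ℝ) (hl : l ≠ 0), 1 < |l| ∧ k * h * k⁻¹ = b5_dg l hl ∧
      k • ax h = S0 := by
  obtain ⟨k, hk, hk1⟩ := b5_exists (ax h)
  obtain ⟨c1, c2⟩ := b5_conj_hyp k h h1 h2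
  have h3 := ax_conj_pos k h (by rw [hk]; norm_num) h1 h2
  rw [hk1] at h3
  set m := k * h * k⁻¹ with hm
  have h4 : ∀ x y, (ax m).ev x y = S0.ev x y := by
    intro x y; rw [h3]
  have hs := b5_s_ne m c2
  have a := h4 1 0
  have b := h4 0 1
  have c := h4 1 1
  rw [b5_ax_ev m c1 c2] at a b c
  simp only [Arc.ev, S0] at a b c
  have m10 : (m : Matrix (Fin 2) (Fin 2) ℝ) 1 0 = 0 := by
    rcases mul_eq_zero.1 (show 2 * SignType.sign (trc m) / √(trc m ^ 2 - 4) *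
      ((m : Matrix (Fin 2) (Fin 2) ℝ) 1 0) = 0 by linarith) with h | h
    · exact absurd h hs
    · exact h
  have m01 : (m : Matrix (Fin 2) (Fin 2) ℝ) 0 1 = 0 := by
    rcases mul_eq_zero.1 (show 2 * SignType.sign (trc m) / √(trc m ^ 2 - 4) *
      ((m : Matrix (Fin 2) (Fin 2) ℝ) 0 1) = 0 by linarith) with h | h
    · exact absurd h hs
    · exact h
  rw [m10, m01] at c
  have hd := c1
  rw [b5_dt_eq, m10, m01, mul_zero, sub_zero] at hd
  set l := (m : Matrix (Fin 2) (Fin 2) ℝ) 0 0 with hl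
  set l' := (m : Matrix (Fin 2) (Fin 2) ℝ) 1 1 with hl'
  have hl0 : l ≠ 0 := by
    intro h
    rw [h, zero_mul] at hd
    norm_num at hd
  have hl1 : l' = l⁻¹ := eq_inv_of_mul_eq_one_right hd
  have htr : trc m = l + l' := rfl
  refine ⟨k, hk, l, hl0, ?_, ?_, hk1⟩
  · by_contra hle
    push Not at hle
    have h5 : 0 < √(trc m ^ 2 - 4) := Real.sqrt_pos.2 (by linarith)
    have h6 : 2 * SignType.sign (trc m) * (l' - l) = - 2 * √(trc m ^ 2 - 4) := by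
      field_simp at c
      linarith
    rcases lt_or_gt_of_ne hl0 with h0 | h0
    · rw [abs_of_neg h0] at hle
      have h7 : l' < 0 := by rw [hl1]; exact inv_lt_zero.2 h0
      rw [sign_neg (by rw [htr]; linarith)] at h6
      simp only [SignType.coe_neg, SignType.coe_one] at h6
      nlinarith
    · rw [abs_of_pos h0] at hle
      have h7 : 0 < l' := by rw [hl1]; exact inv_pos.2 h0
      rw [sign_pos (by rw [htr]; linarith)] at h6
      simp only [SignType.coe_one] at h6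
      nlinarith
  · rw [← hm]
    apply Units.ext
    ext i j
    fin_cases i <;> fin_cases j <;>
      simp [b5_dg, Matrix.GeneralLinearGroup.mkOfDetNeZero, m10, m01, hl1, ← hl, ← hl']

theorem ax_pow (h : GG) (h1 : dt h = 1) (h2 : 4 < trc h ^ 2) (n : ℕ) (hn : 0 < n) :
    dt (h ^ n) = 1 ∧ 4 < trc (h ^ n) ^ 2 ∧ ax (h ^ n) = ax h := by
  obtain ⟨k, hk, l, hl, hl1, hd, hS⟩ := b5_diag h h1 h2
  have h3 : h = k⁻¹ * b5_dg l hl * k⁻¹⁻¹ := by
    rw [← hd]; group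
  have h4 : h ^ n = k⁻¹ * b5_dg (l ^ n) (pow_ne_zero n hl) * k⁻¹⁻¹ := by
    rw [h3, conj_pow, b5_dg_pow]
  have h5 : 1 < |l ^ n| := by
    rw [abs_pow]
    exact one_lt_pow₀ hl1 hn.ne'
  have hk' : 0 < dt k⁻¹ := by
    rw [b5_dt_inv, hk]; norm_num
  rw [h4, b5_dt_conj, trc_conj, ax_conj_pos _ _ hk' (b5_dg_dt _ _) (b5_dg_hyp _ _ h5),
    b5_dg_ax _ _ h5, ← hS, inv_smul_smul]
  exact ⟨b5_dg_dt _ _, b5_dg_hyp _ _ h5, rfl⟩

theorem b5_tendsto (g : GG) :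
    Tendsto (fun t : ℝ => g • (t : X)) (cocompact ℝ) (𝓝 (g • (OnePoint.infty : X))) := by
  have hdet := dt_ne_zero g
  rw [b5_dt_eq] at hdet
  set a := (g : Matrix (Fin 2) (Fin 2) ℝ) 0 0 with ha
  set b := (g : Matrix (Fin 2) (Fin 2) ℝ) 0 1 with hb
  set c := (g : Matrix (Fin 2) (Fin 2) ℝ) 1 0 with hc
  set d := (g : Matrix (Fin 2) (Fin 2) ℝ) 1 1 with hd
  have e1 : g • (OnePoint.infty : X) = if c = 0 then OnePoint.infty else ((a / c : ℝ) : X) :=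
    OnePoint.smul_infty_eq_ite g
  have e2 : ∀ t : ℝ, g • (t : X) = if c * t + d = 0 then OnePoint.infty else
      (((a * t + b) / (c * t + d) : ℝ) : X) := fun t => OnePoint.smul_some_eq_ite
  by_cases h0 : c = 0
  · rw [e1, if_pos h0]
    rw [h0, mul_zero, sub_zero] at hdet
    have ha0 : a ≠ 0 := left_ne_zero_of_mul hdet
    have hd0 : d ≠ 0 := right_ne_zero_of_mul hdet
    have e3 : (fun t : ℝ => g • (t : X)) = (fun t : ℝ => (t : X)) ∘
        ((Homeomorph.mulLeft₀ (a / d) (div_ne_zero ha0 hd0)).trans (Homeomorph.addRight (b / d))) := by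
      funext t
      rw [e2, if_neg (by rw [h0]; simpa using hd0)]
      simp only [Function.comp, Homeomorph.trans_apply, Homeomorph.coe_mulLeft₀,
        Homeomorph.coe_addRight]
      congr 1
      rw [h0, zero_mul, zero_add, add_div]
      ring
    rw [e3]
    refine Tendsto.comp ?_ (Homeomorph.isClosedEmbedding _).tendsto_cocompact
    have := OnePoint.tendsto_coe_infty (X := ℝ)
    rwa [coclosedCompact_eq_cocompact] at this
  · rw [e1, if_neg h0]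
    have h1 : Tendsto (fun t : ℝ => c * t + d) (cocompact ℝ) (cocompact ℝ) :=
      (Homeomorph.isClosedEmbedding ((Homeomorph.mulLeft₀ c h0).trans
        (Homeomorph.addRight d))).tendsto_cocompact
    have h2 : Tendsto (fun t : ℝ => (c * t + d)⁻¹) (cocompact ℝ) (𝓝 0) := by
      rw [← Metric.cobounded_eq_cocompact] at h1 ⊢
      exact tendsto_inv₀_cobounded.comp h1
    have h3 : Tendsto (fun t : ℝ => a / c + (b - a * d / c) * (c * t + d)⁻¹) (cocompact ℝ)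
        (𝓝 (a / c)) := by
      have := (h2.const_mul (b - a * d / c)).const_add (a / c)
      simpa using this
    have h4 : Tendsto (fun t : ℝ => ((a / c + (b - a * d / c) * (c * t + d)⁻¹ : ℝ) : X))
        (cocompact ℝ) (𝓝 ((a / c : ℝ) : X)) :=
      (OnePoint.continuous_coe.tendsto _).comp h3
    refine h4.congr' ?_
    have h5 : ∀ᶠ t in cocompact ℝ, c * t + d ≠ 0 := by
      have h6 : ∀ᶠ s in cocompact ℝ, s ≠ (0 : ℝ) := by
        have := (isCompact_singleton (x := (0 : ℝ))).compl_mem_cocompact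
        filter_upwards [this] with s hs
        exact hs
      exact h1.eventually h6
    filter_upwards [h5] with t ht
    rw [e2, if_neg ht]
    congr 1
    field_simp
    ring

theorem ax_attract (h : GG) (h1 : dt h = 1) (h2 : 4 < trc h ^ 2) :
    ∃ x y : X, x ≠ y ∧ (∀ ξ, 0 < (ax h).val ξ ↔ cyc x ξ y) ∧ h • x = x ∧ h • y = y ∧
      ∀ ξ, ξ ≠ y → Tendsto (fun n : ℕ => (h ^ n) • ξ) atTop (𝓝 x) := by
  obtain ⟨k, hk, l, hl, hl1, hd, hS⟩ := b5_diag h h1 h2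
  have hk0 : 0 < dt k := by rw [hk]; norm_num
  have hk' : 0 < dt k⁻¹ := by
    rw [b5_dt_inv, hk]; norm_num
  have h3 : h = k⁻¹ * b5_dg l hl * k⁻¹⁻¹ := by
    rw [← hd]; group
  have h4 : ∀ n : ℕ, h ^ n = k⁻¹ * b5_dg (l ^ n) (pow_ne_zero n hl) * k⁻¹⁻¹ := by
    intro n
    rw [h3, conj_pow, b5_dg_pow]
  have hdi : ∀ (l : ℝ) (hl : l ≠ 0), b5_dg l hl • (OnePoint.infty : X) = OnePoint.infty := by
    intro l hl
    rw [OnePoint.smul_infty_eq_self_iff]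
    simp [b5_dg, Matrix.GeneralLinearGroup.mkOfDetNeZero]
  have hdt : ∀ (l : ℝ) (hl : l ≠ 0) (t : ℝ), b5_dg l hl • (t : X) = ((l ^ 2 * t : ℝ) : X) := by
    intro l hl t
    rw [OnePoint.smul_some_eq_ite, if_neg]
    · congr 1
      simp [b5_dg, Matrix.GeneralLinearGroup.mkOfDetNeZero]
      ring
    · simp [b5_dg, Matrix.GeneralLinearGroup.mkOfDetNeZero, hl]
  have hcyc : ∀ ξ : X, 0 < S0.val ξ ↔ cyc OnePoint.infty ξ ((0 : ℝ) : X) := by
    intro ξ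
    induction ξ using OnePoint.rec with
    | infty => simp [Arc.val, S0, cyc, om]
    | coe t =>
      simp only [Arc.val, Arc.ev, S0, cyc, om, OnePoint.elim_some, OnePoint.elim_infty]
      constructor <;> intro h <;> linarith
  refine ⟨k⁻¹ • OnePoint.infty, k⁻¹ • ((0 : ℝ) : X), ?_, ?_, ?_, ?_, ?_⟩
  · intro he
    have := smul_left_cancel k⁻¹ he
    exact OnePoint.infty_ne_coe _ this
  · intro ξ
    have e1 : ax h = k⁻¹ • S0 := by rw [← hS, inv_smul_smul]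
    obtain ⟨c, hc, hc'⟩ := b5_val_smul k⁻¹ (k • ξ)
    have e2 := hc' S0
    rw [inv_smul_smul] at e2
    rw [e1, e2, mul_pos_iff_of_pos_left hc, hcyc]
    constructor
    · intro h
      have := b5_cyc_smul k⁻¹ hk' _ _ _ h
      simpa using this
    · intro h
      have := b5_cyc_smul k hk0 _ _ _ h
      simpa using this
  · nth_rewrite 1 [h3]
    rw [mul_smul, mul_smul, inv_inv, smul_inv_smul, hdi]
  · nth_rewrite 1 [h3]
    rw [mul_smul, mul_smul, inv_inv, smul_inv_smul, hdt, mul_zero]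
  · intro ξ hξ
    have e1 : ∀ n : ℕ, h ^ n • ξ = k⁻¹ • (b5_dg (l ^ n) (pow_ne_zero n hl) • (k • ξ)) := by
      intro n
      rw [h4, mul_smul, mul_smul, inv_inv]
    simp_rw [e1]
    have e2 : k • ξ ≠ ((0 : ℝ) : X) := by
      intro h
      apply hξ
      rw [← h, inv_smul_smul]
    generalize k • ξ = η at e2
    induction η using OnePoint.rec with
    | infty =>
      simp_rw [hdi]
      exact tendsto_const_nhds
    | coe t =>
      simp_rw [hdt]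
      have ht : t ≠ 0 := fun h => e2 (by rw [h])
      refine (b5_tendsto k⁻¹).comp ?_
      rw [← Metric.cobounded_eq_cocompact, ← tendsto_norm_atTop_iff_cobounded]
      have e3 : (fun n : ℕ => ‖(l ^ n) ^ 2 * t‖) = fun n : ℕ => (|l| ^ 2) ^ n * |t| := by
        funext n
        rw [norm_mul, norm_pow, norm_pow, Real.norm_eq_abs, Real.norm_eq_abs]
        ring
      rw [e3]
      refine Tendsto.atTop_mul_const (abs_pos.2 ht) ?_
      exact tendsto_pow_atTop_atTop_of_one_lt (by nlinarith)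

end Pool.Agent.H100R2.SC
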