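import Pool.Agent.H100R2.SC.B1
import Pool.Agent.H100R2.SC.B5
import Pool.Agent.H100R2.SC.A2

/-! A7: stabilizers of axes are cyclic, axes are not flipped, common endpoints. -/

set_option autoImplicit false

namespace Pool.Agent.H100R2.SC

theorem a7_S0_ne : S0 ≠ -S0 := by
  intro h
  have := congrArg Arc.q h
  simp [S0] at this
  norm_num at this

theorem a7_ne_neg (S : Arc) : S ≠ -S := by
  intro h
  have h1 := congrArg Arc.p h
  have h2 := congrArg Arc.q h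
  have h3 := congrArg Arc.r h
  rw [Arc.neg_p] at h1
  rw [Arc.neg_q] at h2
  rw [Arc.neg_r] at h3
  have h4 := S.h
  have e1 : S.p = 0 := by linarith
  have e2 : S.q = 0 := by linarith
  rw [e1, e2] at h4
  norm_num at h4

theorem a7_det (g : GG) (h1 : dt g = 1) :
    (g : Matrix (Fin 2) (Fin 2) ℝ) 0 0 * (g : Matrix (Fin 2) (Fin 2) ℝ) 1 1 -
      (g : Matrix (Fin 2) (Fin 2) ℝ) 0 1 * (g : Matrix (Fin 2) (Fin 2) ℝ) 1 0 = 1 := by
  rw [← Matrix.det_fin_two]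
  exact h1

/-- entries of an element of determinant one fixing `S0` -/
theorem a7_fixS0 (g : GG) (h1 : dt g = 1) (h : g • S0 = S0) :
    (g : Matrix (Fin 2) (Fin 2) ℝ) 0 1 = 0 ∧ (g : Matrix (Fin 2) (Fin 2) ℝ) 1 0 = 0 := by
  have hd := a7_det g h1
  have e : ∀ x y, (g • S0).ev x y = S0.ev x y := fun x y => by rw [h]
  have e1 := e 1 0
  have e2 := e 0 1
  have e3 := e 1 1
  rw [smul_ev, h1] at e1 e2 e3
  simp only [Arc.ev, S0, abs_one, div_one] at e1 e2 e3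
  set a := (g : Matrix (Fin 2) (Fin 2) ℝ) 0 0
  set b := (g : Matrix (Fin 2) (Fin 2) ℝ) 0 1
  set c := (g : Matrix (Fin 2) (Fin 2) ℝ) 1 0
  set d := (g : Matrix (Fin 2) (Fin 2) ℝ) 1 1
  have f1 : c * d = 0 := by nlinarith
  have f2 : a * b = 0 := by nlinarith
  have f3 : b * c = 0 := by nlinarith
  have f4 : a * d = 1 := by nlinarith
  have ha : a ≠ 0 := by rintro h; rw [h] at f4; norm_num at f4
  have hdd : d ≠ 0 := by rintro h; rw [h] at f4; norm_num at f4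
  constructor
  · rcases mul_eq_zero.1 f2 with h | h
    · exact absurd h ha
    · exact h
  · rcases mul_eq_zero.1 f1 with h | h
    · exact h
    · exact absurd h hdd

/-- the axis of a diagonal matrix -/
theorem a7_axdiag (g : GG) (h1 : dt g = 1) (h2 : 4 < trc g ^ 2)
    (h01 : (g : Matrix (Fin 2) (Fin 2) ℝ) 0 1 = 0) (h10 : (g : Matrix (Fin 2) (Fin 2) ℝ) 1 0 = 0) :
    (1 < |(g : Matrix (Fin 2) (Fin 2) ℝ) 0 0| ∧ ax g = S0) ∨
      (|(g : Matrix (Fin 2) (Fin 2) ℝ) 0 0| < 1 ∧ ax g = -S0) := by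
  have hd := a7_det g h1
  rw [h01, zero_mul, sub_zero] at hd
  have htr : trc g = (g : Matrix (Fin 2) (Fin 2) ℝ) 0 0 + (g : Matrix (Fin 2) (Fin 2) ℝ) 1 1 := rfl
  have hp : (ax g).p = 0 := by unfold ax; rw [dif_pos ⟨h1, h2⟩]; simp [h10]
  have hr : (ax g).r = 0 := by unfold ax; rw [dif_pos ⟨h1, h2⟩]; simp [h01]
  have hq : (ax g).q = 2 * SignType.sign (trc g) / √(trc g ^ 2 - 4) *
      (((g : Matrix (Fin 2) (Fin 2) ℝ) 1 1 - (g : Matrix (Fin 2) (Fin 2) ℝ) 0 0) / 2) := by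
    unfold ax; rw [dif_pos ⟨h1, h2⟩]
  set a := (g : Matrix (Fin 2) (Fin 2) ℝ) 0 0
  set d := (g : Matrix (Fin 2) (Fin 2) ℝ) 1 1
  have hsq : trc g ^ 2 - 4 = (a - d) ^ 2 := by rw [htr]; linear_combination 4 * hd
  rw [hsq, Real.sqrt_sq_eq_abs] at hq
  have hne : a - d ≠ 0 := by
    intro h
    rw [h] at hsq
    nlinarith
  have ha : a ≠ 0 := by rintro h; rw [h] at hd; norm_num at hd
  have hS0 : (ax g).q = -1 → ax g = S0 := by
    intro h
    ext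
    · rw [hp]; rfl
    · rw [h]; rfl
    · rw [hr]; rfl
  have hS1 : (ax g).q = 1 → ax g = -S0 := by
    intro h
    ext
    · rw [hp]; simp [S0]
    · rw [h]; simp [S0]
    · rw [hr]; simp [S0]
  rcases lt_or_gt_of_ne ha with han | hap
  · have hdn : d < 0 := by nlinarith
    have hs : trc g < 0 := by rw [htr]; linarith
    rw [sign_neg hs] at hq
    rcases lt_or_gt_of_ne hne with h | h
    · left
      refine ⟨?_, hS0 ?_⟩
      · rw [abs_of_neg han]; nlinarith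
      · rw [hq, abs_of_neg h]
        have : -(a - d) ≠ 0 := neg_ne_zero.2 hne
        simp only [SignType.coe_neg_one]
        field_simp
        ring
    · right
      refine ⟨?_, hS1 ?_⟩
      · rw [abs_of_neg han]; nlinarith
      · rw [hq, abs_of_pos h]
        simp only [SignType.coe_neg_one]
        field_simp
        ring
  · have hdp : 0 < d := by
      by_contra hcon
      push Not at hcon
      nlinarith
    have hs : 0 < trc g := by rw [htr]; linarith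
    rw [sign_pos hs] at hq
    rcases lt_or_gt_of_ne hne with h | h
    · right
      refine ⟨?_, hS1 ?_⟩
      · rw [abs_of_pos hap]; nlinarith
      · rw [hq, abs_of_neg h]
        have : -(a - d) ≠ 0 := neg_ne_zero.2 hne
        simp only [SignType.coe_one]
        field_simp
        ring
    · left
      refine ⟨?_, hS0 ?_⟩
      · rw [abs_of_pos hap]; nlinarith
      · rw [hq, abs_of_pos h]
        simp only [SignType.coe_one]
        field_simp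
        ring

theorem a7_dt_inv (g : GG) (h : dt g = 1) : dt g⁻¹ = 1 := by
  have h1 := dt_mul g g⁻¹
  rw [mul_inv_cancel, dt_one, h, one_mul] at h1
  exact h1.symm

theorem a7_mul00 (x y : GG) : ((x * y : GG) : Matrix (Fin 2) (Fin 2) ℝ) 0 0 =
    (x : Matrix (Fin 2) (Fin 2) ℝ) 0 0 * (y : Matrix (Fin 2) (Fin 2) ℝ) 0 0 +
      (x : Matrix (Fin 2) (Fin 2) ℝ) 0 1 * (y : Matrix (Fin 2) (Fin 2) ℝ) 1 0 := by
  rw [Units.val_mul, Matrix.mul_apply, Fin.sum_univ_two]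

theorem a7_mul01 (x y : GG) : ((x * y : GG) : Matrix (Fin 2) (Fin 2) ℝ) 0 1 =
    (x : Matrix (Fin 2) (Fin 2) ℝ) 0 0 * (y : Matrix (Fin 2) (Fin 2) ℝ) 0 1 +
      (x : Matrix (Fin 2) (Fin 2) ℝ) 0 1 * (y : Matrix (Fin 2) (Fin 2) ℝ) 1 1 := by
  rw [Units.val_mul, Matrix.mul_apply, Fin.sum_univ_two]

theorem a7_mul10 (x y : GG) : ((x * y : GG) : Matrix (Fin 2) (Fin 2) ℝ) 1 0 =
    (x : Matrix (Fin 2) (Fin 2) ℝ) 1 0 * (y : Matrix (Fin 2) (Fin 2) ℝ) 0 0 +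
      (x : Matrix (Fin 2) (Fin 2) ℝ) 1 1 * (y : Matrix (Fin 2) (Fin 2) ℝ) 1 0 := by
  rw [Units.val_mul, Matrix.mul_apply, Fin.sum_univ_two]

theorem a7_mul11 (x y : GG) : ((x * y : GG) : Matrix (Fin 2) (Fin 2) ℝ) 1 1 =
    (x : Matrix (Fin 2) (Fin 2) ℝ) 1 0 * (y : Matrix (Fin 2) (Fin 2) ℝ) 0 1 +
      (x : Matrix (Fin 2) (Fin 2) ℝ) 1 1 * (y : Matrix (Fin 2) (Fin 2) ℝ) 1 1 := by
  rw [Units.val_mul, Matrix.mul_apply, Fin.sum_univ_two]

theorem a7_ext (x y : GG) (h00 : (x : Matrix (Fin 2) (Fin 2) ℝ) 0 0 = (y : Matrix (Fin 2) (Fin 2) ℝ) 0 0)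
    (h01 : (x : Matrix (Fin 2) (Fin 2) ℝ) 0 1 = (y : Matrix (Fin 2) (Fin 2) ℝ) 0 1)
    (h10 : (x : Matrix (Fin 2) (Fin 2) ℝ) 1 0 = (y : Matrix (Fin 2) (Fin 2) ℝ) 1 0)
    (h11 : (x : Matrix (Fin 2) (Fin 2) ℝ) 1 1 = (y : Matrix (Fin 2) (Fin 2) ℝ) 1 1) : x = y := by
  apply Units.ext
  ext i j
  fin_cases i <;> fin_cases j <;> assumption

theorem a7_one (i j : Fin 2) : ((1 : GG) : Matrix (Fin 2) (Fin 2) ℝ) i j = if i = j then 1 else 0 := by
  rw [Units.val_one, Matrix.one_apply]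

theorem a7_conj_fix (t g : GG) (S : Arc) (ht : t • S = S0) (hg : g • S = S) :
    (t * g * t⁻¹) • S0 = S0 := by
  have h2 : t⁻¹ • S0 = S := by rw [← ht, inv_smul_smul]
  rw [mul_smul, mul_smul, h2, hg, ht]

theorem a7_dt_conj (t g : GG) (hg : dt g = 1) : dt (t * g * t⁻¹) = 1 := by
  rw [dt_mul, dt_mul, hg, mul_one, ← dt_mul, mul_inv_cancel, dt_one]

theorem a7_inv (g : GG) (h : dt g = 1) :
    ((g⁻¹ : GG) : Matrix (Fin 2) (Fin 2) ℝ) 0 0 = (g : Matrix (Fin 2) (Fin 2) ℝ) 1 1 ∧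
    ((g⁻¹ : GG) : Matrix (Fin 2) (Fin 2) ℝ) 0 1 = -(g : Matrix (Fin 2) (Fin 2) ℝ) 0 1 ∧
    ((g⁻¹ : GG) : Matrix (Fin 2) (Fin 2) ℝ) 1 0 = -(g : Matrix (Fin 2) (Fin 2) ℝ) 1 0 ∧
    ((g⁻¹ : GG) : Matrix (Fin 2) (Fin 2) ℝ) 1 1 = (g : Matrix (Fin 2) (Fin 2) ℝ) 0 0 := by
  have h1 : (g : Matrix (Fin 2) (Fin 2) ℝ).det = 1 := h
  have h2 : ((g⁻¹ : GG) : Matrix (Fin 2) (Fin 2) ℝ) = (g : Matrix (Fin 2) (Fin 2) ℝ).adjugate := by
    rw [Matrix.coe_units_inv, Matrix.inv_def, h1, Ring.inverse_one, one_smul]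
  rw [h2, Matrix.adjugate_fin_two]
  simp

theorem no_flip {A : Subgroup GG} (h : Fuchs A) (α : GG) (hα : α ∈ A) (h1 : α ≠ 1) (g : GG) (hg : g ∈ A) :
    g • ax α ≠ -(ax α) := by
  intro hflip
  obtain ⟨t, ht1, ht⟩ := exists_smul_S0 (ax α)
  have h2 : t⁻¹ • S0 = ax α := by rw [← ht, inv_smul_smul]
  have h3 : (t * g * t⁻¹) • S0 = -S0 := by
    rw [mul_smul, mul_smul, h2, hflip, smul_neg', ht]
  have hd1 : dt (t * g * t⁻¹) = 1 := a7_dt_conj t g (h.det1 g hg)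
  have hd := a7_det _ hd1
  have e : ∀ x y, ((t * g * t⁻¹) • S0).ev x y = (-S0).ev x y := fun x y => by rw [h3]
  have e1 := e 1 0
  have e2 := e 0 1
  have e3 := e 1 1
  rw [smul_ev, hd1, Arc.ev_neg] at e1 e2 e3
  simp only [Arc.ev, S0, abs_one, div_one] at e1 e2 e3
  have hx := a7_mul00 (t * g * t⁻¹) (t * g * t⁻¹)
  have hy := a7_mul01 (t * g * t⁻¹) (t * g * t⁻¹)
  have hz := a7_mul10 (t * g * t⁻¹) (t * g * t⁻¹)
  have hw := a7_mul11 (t * g * t⁻¹) (t * g * t⁻¹)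
  have hx4 := a7_mul00 ((t * g * t⁻¹) * (t * g * t⁻¹)) ((t * g * t⁻¹) * (t * g * t⁻¹))
  have hy4 := a7_mul01 ((t * g * t⁻¹) * (t * g * t⁻¹)) ((t * g * t⁻¹) * (t * g * t⁻¹))
  have hz4 := a7_mul10 ((t * g * t⁻¹) * (t * g * t⁻¹)) ((t * g * t⁻¹) * (t * g * t⁻¹))
  have hw4 := a7_mul11 ((t * g * t⁻¹) * (t * g * t⁻¹)) ((t * g * t⁻¹) * (t * g * t⁻¹))
  set a := ((t * g * t⁻¹ : GG) : Matrix (Fin 2) (Fin 2) ℝ) 0 0
  set b := ((t * g * t⁻¹ : GG) : Matrix (Fin 2) (Fin 2) ℝ) 0 1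
  set c := ((t * g * t⁻¹ : GG) : Matrix (Fin 2) (Fin 2) ℝ) 1 0
  set d := ((t * g * t⁻¹ : GG) : Matrix (Fin 2) (Fin 2) ℝ) 1 1
  have f1 : c * d = 0 := by nlinarith
  have f2 : a * b = 0 := by nlinarith
  have f3 : b * c = -1 := by nlinarith
  have hb : b ≠ 0 := by rintro h; rw [h] at f3; norm_num at f3
  have hc : c ≠ 0 := by rintro h; rw [h] at f3; norm_num at f3
  have ha : a = 0 := by
    rcases mul_eq_zero.1 f2 with h | h
    · exact h
    · exact absurd h hb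
  have hdd : d = 0 := by
    rcases mul_eq_zero.1 f1 with h | h
    · exact absurd h hc
    · exact h
  have k00 : ((t * g * t⁻¹ * (t * g * t⁻¹) : GG) : Matrix (Fin 2) (Fin 2) ℝ) 0 0 = -1 := by
    rw [hx, ha, f3]; norm_num
  have k01 : ((t * g * t⁻¹ * (t * g * t⁻¹) : GG) : Matrix (Fin 2) (Fin 2) ℝ) 0 1 = 0 := by
    rw [hy, ha, hdd]; norm_num
  have k10 : ((t * g * t⁻¹ * (t * g * t⁻¹) : GG) : Matrix (Fin 2) (Fin 2) ℝ) 1 0 = 0 := by
    rw [hz, ha, hdd]; norm_num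
  have k11 : ((t * g * t⁻¹ * (t * g * t⁻¹) : GG) : Matrix (Fin 2) (Fin 2) ℝ) 1 1 = -1 := by
    rw [hw, hdd, mul_comm c b, f3]; norm_num
  rw [k00, k01, k10] at hx4
  rw [k00, k01, k11] at hy4
  rw [k00, k10, k11] at hz4
  rw [k01, k10, k11] at hw4
  have h4 : (t * g * t⁻¹) * (t * g * t⁻¹) * ((t * g * t⁻¹) * (t * g * t⁻¹)) = 1 := by
    apply a7_ext
    · rw [hx4, a7_one]; norm_num
    · rw [hy4, a7_one]; norm_num
    · rw [hz4, a7_one]; norm_num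
    · rw [hw4, a7_one]; norm_num
  have h40 : g ^ 4 = g * g * (g * g) := by simp only [pow_succ, pow_zero, one_mul, mul_assoc]
  have h5 : (t * g * t⁻¹) * (t * g * t⁻¹) * ((t * g * t⁻¹) * (t * g * t⁻¹)) = t * g ^ 4 * t⁻¹ := by
    rw [h40]
    group
  have h6 : g ^ 4 = 1 := by
    rw [h5] at h4
    have : g ^ 4 = t⁻¹ * (t * g ^ 4 * t⁻¹) * t := by group
    rw [this, h4]; group
  have h7 := h.tf g hg 4 (by norm_num) h6
  rw [h7, one_smul] at hflip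
  exact a7_ne_neg _ hflip

theorem ax_ne {A : Subgroup GG} (h : Fuchs A) (α β : GG) (hα : α ∈ A) (h1 : α ≠ 1) (hβ : β ∈ A)
    (h2 : β ≠ 1) (ξ : X) (e1 : (ax α).val ξ = 0) (e2 : (ax β).val ξ = 0) : ax α = ax β ∨ ax α = -(ax β) := by
  have hα1 := h.det1 α hα
  have hβ1 := h.det1 β hβ
  have hα2 := hyp h hα h1
  have hβ2 := hyp h hβ h2
  obtain ⟨t, ht1, ht⟩ := exists_smul_S0 (ax α)
  have htpos : 0 < dt t := by rw [ht1]; norm_num
  -- diagonal form of alpha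
  have hfa := a7_fixS0 (t * α * t⁻¹) (a7_dt_conj t α hα1)
    (a7_conj_fix t α (ax α) ht (ax_smul α hα1 hα2))
  -- triangular form of beta
  obtain ⟨k, hk, hval⟩ := val_smul t ξ
  have hS0 : S0.val (t • ξ) = 0 := by rw [← ht, hval, e1, mul_zero]
  have hB0 : (ax (t * β * t⁻¹)).val (t • ξ) = 0 := by
    rw [ax_conj_pos t β htpos hβ1 hβ2, hval, e2, mul_zero]
  have hβ1' : dt (t * β * t⁻¹) = 1 := a7_dt_conj t β hβ1
  have hβ2' : 4 < trc (t * β * t⁻¹) ^ 2 := by rw [trc_conj]; exact hβ2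
  have hsne : 2 * ((SignType.sign (trc (t * β * t⁻¹)) : SignType) : ℝ) / √(trc (t * β * t⁻¹) ^ 2 - 4) ≠ 0 := by
    apply div_ne_zero
    · apply mul_ne_zero two_ne_zero
      have : trc (t * β * t⁻¹) ≠ 0 := by
        intro h; rw [h] at hβ2'; norm_num at hβ2'
      rcases lt_or_gt_of_ne this with h | h
      · rw [sign_neg h]; simp
      · rw [sign_pos h]; simp
    · exact Real.sqrt_ne_zero'.2 (by linarith)
  have hp : (ax (t * β * t⁻¹)).p = 2 * ((SignType.sign (trc (t * β * t⁻¹)) : SignType) : ℝ) /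
      √(trc (t * β * t⁻¹) ^ 2 - 4) * ((t * β * t⁻¹ : GG) : Matrix (Fin 2) (Fin 2) ℝ) 1 0 := by
    unfold ax; rw [dif_pos ⟨hβ1', hβ2'⟩]
  have hr : (ax (t * β * t⁻¹)).r = -(2 * ((SignType.sign (trc (t * β * t⁻¹)) : SignType) : ℝ) /
      √(trc (t * β * t⁻¹) ^ 2 - 4) * ((t * β * t⁻¹ : GG) : Matrix (Fin 2) (Fin 2) ℝ) 0 1) := by
    unfold ax; rw [dif_pos ⟨hβ1', hβ2'⟩]
  have htri : ((t * β * t⁻¹ : GG) : Matrix (Fin 2) (Fin 2) ℝ) 1 0 = 0 ∨
      ((t * β * t⁻¹ : GG) : Matrix (Fin 2) (Fin 2) ℝ) 0 1 = 0 := by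
    induction hη : (t • ξ) using OnePoint.rec with
    | infty =>
      left
      rw [hη] at hB0
      have h3 : (ax (t * β * t⁻¹)).p = 0 := hB0
      rw [hp] at h3
      rcases mul_eq_zero.1 h3 with h4 | h4
      · exact absurd h4 hsne
      · exact h4
    | coe x =>
      right
      rw [hη] at hB0 hS0
      have h3 : S0.ev x 1 = 0 := hS0
      simp only [Arc.ev, S0] at h3
      have hx : x = 0 := by linarith
      rw [hx] at hB0
      have h4 : (ax (t * β * t⁻¹)).ev 0 1 = 0 := hB0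
      simp only [Arc.ev] at h4
      have h5 : (ax (t * β * t⁻¹)).r = 0 := by linarith
      rw [hr, neg_eq_zero] at h5
      rcases mul_eq_zero.1 h5 with h6 | h6
      · exact absurd h6 hsne
      · exact h6
  -- the commutator has trace two
  have hcomm : α * β * α⁻¹ * β⁻¹ = 1 := by
    by_contra hne
    have hmem : α * β * α⁻¹ * β⁻¹ ∈ A :=
      A.mul_mem (A.mul_mem (A.mul_mem hα hβ) (A.inv_mem hα)) (A.inv_mem hβ)
    have h3 := hyp h hmem hne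
    have h4 : trc (α * β * α⁻¹ * β⁻¹) = 2 := by
      rw [← trc_conj t]
      have h5 : t * (α * β * α⁻¹ * β⁻¹) * t⁻¹ =
          (t * α * t⁻¹) * (t * β * t⁻¹) * (t * α * t⁻¹)⁻¹ * (t * β * t⁻¹)⁻¹ := by group
      rw [h5]
      have hx1 := a7_det _ (a7_dt_conj t α hα1)
      have hxi := a7_inv _ (a7_dt_conj t α hα1)
      generalize (t * α * t⁻¹) = x at hfa hx1 hxi ⊢
      have hy1 := a7_det _ hβ1'
      have hyi := a7_inv _ hβ1'
      generalize (t * β * t⁻¹) = y at htri hy1 hyi ⊢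
      obtain ⟨i1, i2, i3, i4⟩ := hxi
      obtain ⟨j1, j2, j3, j4⟩ := hyi
      unfold trc
      simp only [a7_mul00, a7_mul01, a7_mul10, a7_mul11, i1, i2, i3, i4, j1, j2, j3, j4, hfa.1, hfa.2]
      rw [hfa.1, zero_mul, sub_zero] at hx1
      rcases htri with h6 | h6
      · rw [h6] at hy1 ⊢
        linear_combination (2 * (y : Matrix (Fin 2) (Fin 2) ℝ) 0 0 * (y : Matrix (Fin 2) (Fin 2) ℝ) 1 1) * hx1
          + 2 * hy1
      · rw [h6] at hy1 ⊢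
        linear_combination (2 * (y : Matrix (Fin 2) (Fin 2) ℝ) 0 0 * (y : Matrix (Fin 2) (Fin 2) ℝ) 1 1) * hx1
          + 2 * hy1
    rw [h4] at h3
    norm_num at h3
  have hcomm2 : β * α * β⁻¹ = α := by
    have : α * β = β * α := by
      have h3 : α * β = (α * β * α⁻¹ * β⁻¹) * (β * α) := by group
      rw [hcomm, one_mul] at h3
      exact h3
    rw [← this]; group
  have hfix : β • ax α = ax α := by
    have h3 := ax_conj_pos β α (by rw [hβ1]; norm_num) hα1 hα2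
    rw [hcomm2] at h3
    exact h3.symm
  have hfb := a7_fixS0 (t * β * t⁻¹) hβ1' (a7_conj_fix t β (ax α) ht hfix)
  have h6 := a7_axdiag (t * β * t⁻¹) hβ1' hβ2' hfb.1 hfb.2
  have h7 : ax α = t⁻¹ • S0 := by rw [← ht, inv_smul_smul]
  have h8 : ax β = t⁻¹ • ax (t * β * t⁻¹) := by
    rw [ax_conj_pos t β htpos hβ1 hβ2, inv_smul_smul]
  rcases h6 with ⟨_, h6⟩ | ⟨_, h6⟩
  · left
    rw [h7, h8, h6]
  · right
    rw [h7, h8, h6, smul_neg', neg_neg]

theorem a7_bd (x u y N L : ℝ) (hx : |x| ≤ N) (hu : |u| ≤ L) (hy : |y| ≤ N) : |x * u * y| ≤ N * L * N := by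
  rw [abs_mul, abs_mul]
  have hN : 0 ≤ N := (abs_nonneg _).trans hx
  have hL : 0 ≤ L := (abs_nonneg _).trans hu
  exact mul_le_mul (mul_le_mul hx hu (abs_nonneg _) hN) hy (abs_nonneg _) (mul_nonneg hN hL)

theorem exists_gen {A : Subgroup GG} (h : Fuchs A) (α : GG) (hα : α ∈ A) (h1 : α ≠ 1) :
    ∃ β, IsGen A (ax α) β := by
  have hα1 := h.det1 α hα
  have hα2 := hyp h hα h1
  obtain ⟨t, ht1, ht⟩ := exists_smul_S0 (ax α)
  have htpos : 0 < dt t := by rw [ht1]; norm_num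
  set D : GG → GG := fun g => t * g * t⁻¹ with hD
  have hDmul : ∀ g k, D (g * k) = D g * D k := by intro g k; simp only [hD]; group
  set e : GG → ℝ := fun g => (D g : Matrix (Fin 2) (Fin 2) ℝ) 0 0 with he
  set H : Subgroup GG := A ⊓ MulAction.stabilizer GG (ax α) with hH
  have hHA : ∀ g ∈ H, g ∈ A := fun g hg => hg.1
  have hHS : ∀ g ∈ H, g • ax α = ax α := fun g hg => hg.2
  have hfix : ∀ g ∈ H, (D g : Matrix (Fin 2) (Fin 2) ℝ) 0 1 = 0 ∧ (D g : Matrix (Fin 2) (Fin 2) ℝ) 1 0 = 0 :=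
    fun g hg => a7_fixS0 (D g) (a7_dt_conj t g (h.det1 g (hHA g hg)))
      (a7_conj_fix t g (ax α) ht (hHS g hg))
  have hdet : ∀ g ∈ H, e g * (D g : Matrix (Fin 2) (Fin 2) ℝ) 1 1 = 1 := by
    intro g hg
    have h3 := a7_det (D g) (a7_dt_conj t g (h.det1 g (hHA g hg)))
    rw [(hfix g hg).1, zero_mul, sub_zero] at h3
    exact h3
  have hene : ∀ g ∈ H, e g ≠ 0 := by
    intro g hg h3
    have h4 := hdet g hg
    rw [h3, zero_mul] at h4
    norm_num at h4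
  have hemul : ∀ g ∈ H, ∀ k ∈ H, e (g * k) = e g * e k := by
    intro g hg k hk
    simp only [he]
    rw [hDmul, a7_mul00, (hfix g hg).1, zero_mul, add_zero]
  let F : Additive H →+ ℝ := AddMonoidHom.mk' (fun g => Real.log |e (Additive.toMul g : H)|) (by
    intro g k
    have hg := (Additive.toMul g : H).2
    have hk := (Additive.toMul k : H).2
    show Real.log |e ((Additive.toMul g : H) * (Additive.toMul k : H))| = _
    rw [hemul _ hg _ hk, abs_mul, Real.log_mul (abs_ne_zero.2 (hene _ hg)) (abs_ne_zero.2 (hene _ hk))])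
  have hF : ∀ g : H, F (Additive.ofMul g) = Real.log |e g| := fun g => rfl
  -- injectivity
  have hinj : ∀ g ∈ H, Real.log |e g| = 0 → g = 1 := by
    intro g hg h3
    have h4 : |e g| = 1 := Real.eq_one_of_pos_of_log_eq_zero (abs_pos.2 (hene g hg)) h3
    have h5 : e g * e g = 1 := by
      rw [← abs_mul_abs_self, h4, one_mul]
    have h6 := hdet g hg
    have h7 : (D g : Matrix (Fin 2) (Fin 2) ℝ) 1 1 = e g := by
      have := mul_left_cancel₀ (hene g hg) (h6.trans h5.symm)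
      exact this
    have h8 : D g * D g = 1 := by
      apply a7_ext
      · rw [a7_mul00, (hfix g hg).1, a7_one]
        simpa using h5
      · rw [a7_mul01, (hfix g hg).1, a7_one]; simp
      · rw [a7_mul10, (hfix g hg).2, a7_one]; simp
      · rw [a7_mul11, (hfix g hg).2, h7, a7_one]
        simpa using h5
    have h9 : g ^ 2 = 1 := by
      have h10 : g ^ 2 = t⁻¹ * (D g * D g) * t := by
        simp only [hD, pow_two]; group
      rw [h10, h8]; group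
    exact h.tf g (hHA g hg) 2 (by norm_num) h9
  -- alpha
  have hαH : α ∈ H := ⟨hα, ax_smul α hα1 hα2⟩
  have hpos_ax : ∀ g ∈ H, g ≠ 1 → (1 < |e g| ∧ ax g = ax α) ∨ (|e g| < 1 ∧ ax g = -(ax α)) := by
    intro g hg hg1
    have hg2 := h.det1 g (hHA g hg)
    have hg3 := hyp h (hHA g hg) hg1
    have h3 := a7_axdiag (D g) (a7_dt_conj t g hg2) (by rw [hD]; dsimp only; rw [trc_conj]; exact hg3)
      (hfix g hg).1 (hfix g hg).2
    have h4 : ax (D g) = t • ax g := ax_conj_pos t g htpos hg2 hg3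
    rw [h4] at h3
    rcases h3 with ⟨h5, h6⟩ | ⟨h5, h6⟩
    · left
      refine ⟨h5, ?_⟩
      rw [← ht] at h6
      exact smul_left_cancel t h6
    · right
      refine ⟨h5, ?_⟩
      rw [← ht, ← smul_neg'] at h6
      exact smul_left_cancel t h6
  have hαe : 1 < |e α| := by
    rcases hpos_ax α hαH h1 with h3 | h3
    · exact h3.1
    · exact absurd h3.2 (a7_ne_neg _)
  have hαf : 0 < Real.log |e α| := Real.log_pos hαe
  -- finiteness
  set T : Set GG := {g | g ∈ H ∧ 0 < Real.log |e g| ∧ Real.log |e g| ≤ Real.log |e α|} with hT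
  have hTfin : T.Finite := by
    set N : ℝ := |(t : Matrix (Fin 2) (Fin 2) ℝ) 0 0| + |(t : Matrix (Fin 2) (Fin 2) ℝ) 0 1| +
      |(t : Matrix (Fin 2) (Fin 2) ℝ) 1 0| + |(t : Matrix (Fin 2) (Fin 2) ℝ) 1 1| with hN
    have n00 : |(t : Matrix (Fin 2) (Fin 2) ℝ) 0 0| ≤ N := by
      have := abs_nonneg ((t : Matrix (Fin 2) (Fin 2) ℝ) 0 1)
      have := abs_nonneg ((t : Matrix (Fin 2) (Fin 2) ℝ) 1 0)
      have := abs_nonneg ((t : Matrix (Fin 2) (Fin 2) ℝ) 1 1)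
      linarith
    have n01 : |(t : Matrix (Fin 2) (Fin 2) ℝ) 0 1| ≤ N := by
      have := abs_nonneg ((t : Matrix (Fin 2) (Fin 2) ℝ) 0 0)
      have := abs_nonneg ((t : Matrix (Fin 2) (Fin 2) ℝ) 1 0)
      have := abs_nonneg ((t : Matrix (Fin 2) (Fin 2) ℝ) 1 1)
      linarith
    have n10 : |(t : Matrix (Fin 2) (Fin 2) ℝ) 1 0| ≤ N := by
      have := abs_nonneg ((t : Matrix (Fin 2) (Fin 2) ℝ) 0 0)
      have := abs_nonneg ((t : Matrix (Fin 2) (Fin 2) ℝ) 0 1)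
      have := abs_nonneg ((t : Matrix (Fin 2) (Fin 2) ℝ) 1 1)
      linarith
    have n11 : |(t : Matrix (Fin 2) (Fin 2) ℝ) 1 1| ≤ N := by
      have := abs_nonneg ((t : Matrix (Fin 2) (Fin 2) ℝ) 0 0)
      have := abs_nonneg ((t : Matrix (Fin 2) (Fin 2) ℝ) 0 1)
      have := abs_nonneg ((t : Matrix (Fin 2) (Fin 2) ℝ) 1 0)
      linarith
    refine (h.disc (N * |e α| * N + N * |e α| * N)).subset ?_
    intro g hg
    obtain ⟨hgH, hg0, hg1⟩ := hg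
    refine ⟨hHA g hgH, ?_⟩
    have k0 : |(D g : Matrix (Fin 2) (Fin 2) ℝ) 0 0| ≤ |e α| :=
      (Real.log_le_log_iff (abs_pos.2 (hene g hgH)) (by linarith)).1 hg1
    have k1 : |(D g : Matrix (Fin 2) (Fin 2) ℝ) 1 1| ≤ |e α| := by
      have h3 := hdet g hgH
      have h4 : |e g| * |(D g : Matrix (Fin 2) (Fin 2) ℝ) 1 1| = 1 := by rw [← abs_mul, h3, abs_one]
      have h5 : 1 < |e g| := by
        by_contra hcon
        push Not at hcon
        have := Real.log_nonpos (abs_nonneg _) hcon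
        linarith
      have h6 := abs_nonneg ((D g : Matrix (Fin 2) (Fin 2) ℝ) 1 1)
      nlinarith
    have hgD : g = t⁻¹ * D g * t := by simp only [hD]; group
    obtain ⟨i1, i2, i3, i4⟩ := a7_inv t ht1
    obtain ⟨f1, f2⟩ := hfix g hgH
    have e00 : (g : Matrix (Fin 2) (Fin 2) ℝ) 0 0 =
        (t : Matrix (Fin 2) (Fin 2) ℝ) 1 1 * (D g : Matrix (Fin 2) (Fin 2) ℝ) 0 0 * (t : Matrix (Fin 2) (Fin 2) ℝ) 0 0
        - (t : Matrix (Fin 2) (Fin 2) ℝ) 0 1 * (D g : Matrix (Fin 2) (Fin 2) ℝ) 1 1 * (t : Matrix (Fin 2) (Fin 2) ℝ) 1 0 := by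
      conv_lhs => rw [hgD]
      simp only [a7_mul00, a7_mul01, a7_mul10, a7_mul11, i1, i2, i3, i4, f1, f2]
      ring
    have e01 : (g : Matrix (Fin 2) (Fin 2) ℝ) 0 1 =
        (t : Matrix (Fin 2) (Fin 2) ℝ) 1 1 * (D g : Matrix (Fin 2) (Fin 2) ℝ) 0 0 * (t : Matrix (Fin 2) (Fin 2) ℝ) 0 1
        - (t : Matrix (Fin 2) (Fin 2) ℝ) 0 1 * (D g : Matrix (Fin 2) (Fin 2) ℝ) 1 1 * (t : Matrix (Fin 2) (Fin 2) ℝ) 1 1 := by
      conv_lhs => rw [hgD]
      simp only [a7_mul00, a7_mul01, a7_mul10, a7_mul11, i1, i2, i3, i4, f1, f2]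
      ring
    have e10 : (g : Matrix (Fin 2) (Fin 2) ℝ) 1 0 =
        (t : Matrix (Fin 2) (Fin 2) ℝ) 0 0 * (D g : Matrix (Fin 2) (Fin 2) ℝ) 1 1 * (t : Matrix (Fin 2) (Fin 2) ℝ) 1 0
        - (t : Matrix (Fin 2) (Fin 2) ℝ) 1 0 * (D g : Matrix (Fin 2) (Fin 2) ℝ) 0 0 * (t : Matrix (Fin 2) (Fin 2) ℝ) 0 0 := by
      conv_lhs => rw [hgD]
      simp only [a7_mul00, a7_mul01, a7_mul10, a7_mul11, i1, i2, i3, i4, f1, f2]
      ring
    have e11 : (g : Matrix (Fin 2) (Fin 2) ℝ) 1 1 =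
        (t : Matrix (Fin 2) (Fin 2) ℝ) 0 0 * (D g : Matrix (Fin 2) (Fin 2) ℝ) 1 1 * (t : Matrix (Fin 2) (Fin 2) ℝ) 1 1
        - (t : Matrix (Fin 2) (Fin 2) ℝ) 1 0 * (D g : Matrix (Fin 2) (Fin 2) ℝ) 0 0 * (t : Matrix (Fin 2) (Fin 2) ℝ) 0 1 := by
      conv_lhs => rw [hgD]
      simp only [a7_mul00, a7_mul01, a7_mul10, a7_mul11, i1, i2, i3, i4, f1, f2]
      ring
    intro i j
    fin_cases i <;> fin_cases j
    · show |(g : Matrix (Fin 2) (Fin 2) ℝ) 0 0| ≤ _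
      rw [e00]
      exact (abs_sub _ _).trans (add_le_add (a7_bd _ _ _ _ _ n11 k0 n00) (a7_bd _ _ _ _ _ n01 k1 n10))
    · show |(g : Matrix (Fin 2) (Fin 2) ℝ) 0 1| ≤ _
      rw [e01]
      exact (abs_sub _ _).trans (add_le_add (a7_bd _ _ _ _ _ n11 k0 n01) (a7_bd _ _ _ _ _ n01 k1 n11))
    · show |(g : Matrix (Fin 2) (Fin 2) ℝ) 1 0| ≤ _
      rw [e10]
      exact (abs_sub _ _).trans (add_le_add (a7_bd _ _ _ _ _ n00 k1 n10) (a7_bd _ _ _ _ _ n10 k0 n00))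
    · show |(g : Matrix (Fin 2) (Fin 2) ℝ) 1 1| ≤ _
      rw [e11]
      exact (abs_sub _ _).trans (add_le_add (a7_bd _ _ _ _ _ n00 k1 n11) (a7_bd _ _ _ _ _ n10 k0 n01))
  obtain ⟨β, hβT, hβmin⟩ := Set.exists_min_image T (fun g => Real.log |e g|) hTfin ⟨α, hαH, hαf, le_refl _⟩
  obtain ⟨hβH, hβ0, hβ1⟩ := hβT
  have hleast : IsLeast {x : ℝ | x ∈ F.range ∧ 0 < x} (Real.log |e β|) := by
    refine ⟨⟨⟨Additive.ofMul ⟨β, hβH⟩, rfl⟩, hβ0⟩, ?_⟩
    rintro x ⟨⟨g, rfl⟩, hx⟩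
    by_cases hle : F g ≤ Real.log |e α|
    · exact hβmin _ ⟨(Additive.toMul g : H).2, hx, hle⟩
    · push Not at hle
      exact hβ1.trans hle.le
  have hcyc := AddSubgroup.cyclic_of_min hleast
  refine ⟨β, hHA β hβH, ?_, ?_, ?_⟩
  · rintro rfl
    have : e 1 = 1 := by
      simp only [he, hD]
      rw [mul_one, mul_inv_cancel, a7_one]
      simp
    rw [this] at hβ0
    simp at hβ0
  · have hβne : β ≠ 1 := by
      rintro rfl
      have : e 1 = 1 := by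
        simp only [he, hD]
        rw [mul_one, mul_inv_cancel, a7_one]
        simp
      rw [this] at hβ0
      simp at hβ0
    rcases hpos_ax β hβH hβne with h3 | h3
    · exact h3.2
    · have := Real.log_nonpos (abs_nonneg _) h3.1.le
      linarith
  · intro g hg hgS
    have hgH : g ∈ H := ⟨hg, hgS⟩
    have h3 : F (Additive.ofMul ⟨g, hgH⟩) ∈ F.range := ⟨_, rfl⟩
    rw [hcyc, AddSubgroup.mem_closure_singleton] at h3
    obtain ⟨n, hn⟩ := h3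
    refine ⟨n, ?_⟩
    obtain ⟨gg, hgg⟩ : ∃ gg : H, gg = ⟨g, hgH⟩ := ⟨_, rfl⟩
    obtain ⟨bb, hbb⟩ : ∃ bb : H, bb = ⟨β, hβH⟩ := ⟨_, rfl⟩
    rw [← hgg] at hn
    have hb0 : F (Additive.ofMul bb) = Real.log |e β| := by rw [hbb]; rfl
    have h4 : F (Additive.ofMul (gg * (bb ^ n)⁻¹)) = 0 := by
      rw [ofMul_mul, ofMul_inv, ofMul_zpow, map_add, map_neg, map_zsmul, ← hn, hb0]
      exact add_neg_cancel _
    have h5 := hinj _ (gg * (bb ^ n)⁻¹).2 h4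
    have h6 : g * (β ^ n)⁻¹ = 1 := by
      have h7 : ((gg * (bb ^ n)⁻¹ : H) : GG) = (gg : GG) * ((bb : GG) ^ n)⁻¹ := by
        rw [Subgroup.coe_mul, Subgroup.coe_inv, Subgroup.coe_zpow]
      rw [h7, hgg, hbb] at h5
      exact h5
    exact mul_inv_eq_one.1 h6

end Pool.Agent.H100R2.SC
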