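import Pool.Agent.H100R2.SC.Defs
import Pool.Agent.H100R2.SC.A2
import Pool.Agent.H100R2.SC.A4
import Pool.Agent.H100R2.SC.A5
import Pool.Agent.H100R2.SC.A6
import Pool.Agent.H100R2.SC.A7
import Pool.Agent.H100R2.SC.B1
import Pool.Agent.H100R2.SC.B5

/-! A8: separability of the stabilizer of an axis. -/

set_option autoImplicit false

namespace Pool.Agent.H100R2.SC

open Filter Topology

/-- finitely many nontrivial elements are avoided by a normal subgroup of finite index -/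
private theorem a8_avoid (Γ : Subgroup GG) (h : Γ.FG) (C : Finset GG) (hC : ∀ c ∈ C, c ∈ Γ ∧ c ≠ 1) :
    ∃ N : Subgroup GG, N ≤ Γ ∧ N.relIndex Γ ≠ 0 ∧ (∀ c ∈ C, c ∉ N) ∧
      ∀ a ∈ Γ, ∀ n ∈ N, a * n * a⁻¹ ∈ N := by
  classical
  induction C using Finset.induction_on with
  | empty =>
    refine ⟨Γ, le_refl _, ?_, fun c hc => absurd hc (Finset.notMem_empty c), ?_⟩
    · rw [Subgroup.relIndex_self]
      exact one_ne_zero
    · intro a ha n hn
      exact Γ.mul_mem (Γ.mul_mem ha hn) (Γ.inv_mem ha)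
  | insert c C hcC ih =>
    obtain ⟨N1, hN1, hi1, hc1, hn1⟩ := ih (fun d hd => hC d (Finset.mem_insert_of_mem hd))
    obtain ⟨hcΓ, hc⟩ := hC c (Finset.mem_insert_self c C)
    obtain ⟨N2, hN2, hi2, hc2, hn2⟩ := residually Γ h c hcΓ hc
    refine ⟨N1 ⊓ N2, inf_le_left.trans hN1, ?_, ?_, ?_⟩
    · exact Subgroup.relIndex_inf_ne_zero hi1 hi2
    · intro d hd hmem
      rw [Subgroup.mem_inf] at hmem
      rcases Finset.mem_insert.1 hd with rfl | hd
      · exact hc2 hmem.2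
      · exact hc1 d hd hmem.1
    · intro a ha n hn
      rw [Subgroup.mem_inf] at hn ⊢
      exact ⟨hn1 a ha n hn.1, hn2 a ha n hn.2⟩

/-- the centralizer of `β` modulo `N` -/
private def a8_cent (Γ N : Subgroup GG) (hn : ∀ a ∈ Γ, ∀ n ∈ N, a * n * a⁻¹ ∈ N) (β : GG) :
    Subgroup GG where
  carrier := {g | g ∈ Γ ∧ g * β * g⁻¹ * β⁻¹ ∈ N}
  one_mem' := by
    refine ⟨Γ.one_mem, ?_⟩
    have e : (1 : GG) * β * 1⁻¹ * β⁻¹ = 1 := by group
    rw [e]
    exact N.one_mem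
  mul_mem' := by
    rintro g k ⟨hg, hg2⟩ ⟨hk, hk2⟩
    refine ⟨Γ.mul_mem hg hk, ?_⟩
    have e : g * k * β * (g * k)⁻¹ * β⁻¹ = (g * (k * β * k⁻¹ * β⁻¹) * g⁻¹) * (g * β * g⁻¹ * β⁻¹) := by
      group
    rw [e]
    exact N.mul_mem (hn g hg _ hk2) hg2
  inv_mem' := by
    rintro g ⟨hg, hg2⟩
    refine ⟨Γ.inv_mem hg, ?_⟩
    have e : g⁻¹ * β * g⁻¹⁻¹ * β⁻¹ = g⁻¹ * (g * β * g⁻¹ * β⁻¹)⁻¹ * g⁻¹⁻¹ := by
      group
    rw [e]
    exact hn g⁻¹ (Γ.inv_mem hg) _ (N.inv_mem hg2)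

theorem sep {Γ : Subgroup GG} (h : Fuchs Γ) (α : GG) (hα : α ∈ Γ) (h1 : α ≠ 1) (K : ℝ) :
    ∃ A : Subgroup GG, A ≤ Γ ∧ A.relIndex Γ ≠ 0 ∧ α ∈ A ∧
      ∀ g ∈ A, g • ax α = ax α ∨ K ≤ |BB (g • ax α) (ax α)| := by
  classical
  have hdα : dt α = 1 := h.det1 α hα
  have htα : 4 < trc α ^ 2 := hyp h hα h1
  have hαax : α • ax α = ax α := ax_smul α hdα htα
  -- stabilizer facts for powers of α
  have hpow : ∀ n : ℤ, α ^ n • ax α = ax α := by
    intro n
    have : α ∈ MulAction.stabilizer GG (ax α) := hαax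
    exact (MulAction.stabilizer GG (ax α)).zpow_mem this n
  -- axes of conjugates
  have hconj : ∀ g ∈ Γ, ax (g * α * g⁻¹) = g • ax α := by
    intro g hg
    apply ax_conj_pos g α _ hdα htα
    rw [h.det1 g hg]
    norm_num
  set L : Set Arc := {T | ∃ g ∈ Γ, T = g • ax α ∨ T = -(g • ax α)} with hL
  have hinv : ∀ n : ℤ, ∀ T ∈ L, α ^ n • T ∈ L := by
    rintro n T ⟨g, hg, hT⟩
    refine ⟨α ^ n * g, Γ.mul_mem (Γ.zpow_mem hα n) hg, ?_⟩
    rcases hT with rfl | rfl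
    · left
      rw [mul_smul]
    · right
      rw [smul_neg', mul_smul]
  have lf : ∀ M : ℝ, {S | S ∈ L ∧ |S.tr| ≤ M}.Finite := by
    intro M
    have hf := lf_orbit h α hα h1 M
    refine (hf.union (hf.image (fun S => -S))).subset ?_
    rintro S ⟨⟨g, hg, hS⟩, hM⟩
    rcases hS with hS | hS
    · left
      exact ⟨⟨g, hg, hS⟩, hM⟩
    · right
      refine ⟨-S, ⟨⟨g, hg, ?_⟩, ?_⟩, neg_neg S⟩
      · rw [hS, neg_neg]
      · have : (-S).tr = -(S.tr) := by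
          simp only [Arc.tr, Arc.neg_p, Arc.neg_r]
          ring
        rw [this, abs_neg]
        exact hM
  have ne : ∀ T ∈ L, ∀ ξ : X, (ax α).val ξ = 0 → T.val ξ = 0 → T = ax α ∨ T = -(ax α) := by
    rintro T ⟨g, hg, hT⟩ ξ e1 e2
    have hmem : g * α * g⁻¹ ∈ Γ := Γ.mul_mem (Γ.mul_mem hg hα) (Γ.inv_mem hg)
    have hne : g * α * g⁻¹ ≠ 1 := by
      intro hc
      apply h1
      exact conj_eq_one_iff.1 hc
    have e3 : (ax (g * α * g⁻¹)).val ξ = 0 := by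
      rw [hconj g hg]
      rcases hT with rfl | rfl
      · exact e2
      · rw [val_neg] at e2
        linarith
    have h4 := ax_ne h (g * α * g⁻¹) α hmem hne hα h1 ξ e3 e1
    rw [hconj g hg] at h4
    rcases hT with rfl | rfl
    · exact h4
    · rcases h4 with h4 | h4
      · right
        rw [h4]
      · left
        rw [h4, neg_neg]
  obtain ⟨F, hFL, hF⟩ := dbl α hdα htα L hinv lf ne K
  obtain ⟨β, hβ, hβ1, hβax, hβgen⟩ := exists_gen h α hα h1
  have hdβ : dt β = 1 := h.det1 β hβ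
  have htβ : 4 < trc β ^ 2 := hyp h hβ hβ1
  -- representatives
  choose! gr hgr hgrT using hFL
  -- commutators
  set C : Finset GG := (F.filter (fun T => T ≠ ax α ∧ T ≠ -(ax α))).image
    (fun T => gr T * β * (gr T)⁻¹ * β⁻¹) with hCdef
  have hC : ∀ c ∈ C, c ∈ Γ ∧ c ≠ 1 := by
    intro c hc
    rw [hCdef, Finset.mem_image] at hc
    obtain ⟨T, hT, rfl⟩ := hc
    rw [Finset.mem_filter] at hT
    obtain ⟨hTF, hT1, hT2⟩ := hT
    have hg := hgr T hTF
    refine ⟨Γ.mul_mem (Γ.mul_mem (Γ.mul_mem hg hβ) (Γ.inv_mem hg)) (Γ.inv_mem hβ), ?_⟩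
    intro hc
    have hcomm : gr T * β * (gr T)⁻¹ = β := by
      rw [mul_inv_eq_one] at hc
      exact hc
    have h5 : ax (gr T * β * (gr T)⁻¹) = gr T • ax β := by
      apply ax_conj_pos (gr T) β _ hdβ htβ
      rw [h.det1 _ hg]
      norm_num
    rw [hcomm, hβax] at h5
    rcases hgrT T hTF with h6 | h6
    · exact hT1 (by rw [h6, ← h5])
    · exact hT2 (by rw [h6, ← h5])
  obtain ⟨N, hNΓ, hNi, hNC, hNn⟩ := a8_avoid Γ (fuchs_fg h) C hC
  -- the subgroup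
  have hβA : β ∈ a8_cent Γ N hNn β := by
    refine ⟨hβ, ?_⟩
    have e : β * β * β⁻¹ * β⁻¹ = 1 := by group
    rw [e]
    exact N.one_mem
  have hαA : α ∈ a8_cent Γ N hNn β := by
    obtain ⟨n, hn⟩ := hβgen α hα hαax
    rw [hn]
    exact (a8_cent Γ N hNn β).zpow_mem hβA n
  refine ⟨a8_cent Γ N hNn β, fun g hg => hg.1, ?_, hαA, ?_⟩
  · have hle : N ≤ a8_cent Γ N hNn β := by
      intro n hn
      refine ⟨hNΓ hn, ?_⟩
      have e : n * β * n⁻¹ * β⁻¹ = n * (β * n⁻¹ * β⁻¹) := by group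
      rw [e]
      exact N.mul_mem hn (hNn β hβ _ (N.inv_mem hn))
    have hdvd := Subgroup.relIndex_dvd_of_le_left Γ hle
    intro h0
    rw [h0] at hdvd
    exact hNi (Nat.eq_zero_of_zero_dvd hdvd)
  · intro g hg
    by_contra hcon
    push Not at hcon
    obtain ⟨hc1, hc2⟩ := hcon
    have hgL : g • ax α ∈ L := ⟨g, hg.1, Or.inl rfl⟩
    obtain ⟨n, T', hT', hgT⟩ := hF (g • ax α) hgL hc2.le
    have hg' := hgr T' hT'
    rcases hgrT T' hT' with h6 | h6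
    · -- positive sign
      have hst : ((α ^ n * gr T')⁻¹ * g) • ax α = ax α := by
        rw [mul_smul, hgT, inv_smul_eq_iff, mul_smul, ← h6]
      have hmem : (α ^ n * gr T')⁻¹ * g ∈ Γ :=
        Γ.mul_mem (Γ.inv_mem (Γ.mul_mem (Γ.zpow_mem hα n) hg')) hg.1
      obtain ⟨j, hj⟩ := hβgen _ hmem hst
      have hgr2 : gr T' = (α ^ n)⁻¹ * g * (β ^ j)⁻¹ := by
        rw [← hj]
        group
      have hgrA : gr T' ∈ a8_cent Γ N hNn β := by
        rw [hgr2]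
        exact (a8_cent Γ N hNn β).mul_mem ((a8_cent Γ N hNn β).mul_mem
          ((a8_cent Γ N hNn β).inv_mem ((a8_cent Γ N hNn β).zpow_mem hαA n)) hg)
          ((a8_cent Γ N hNn β).inv_mem ((a8_cent Γ N hNn β).zpow_mem hβA j))
      by_cases hT1 : T' = ax α
      · apply hc1
        rw [hgT, hT1, hpow]
      · by_cases hT2 : T' = -(ax α)
        · apply no_flip h α hα h1 g hg.1
          rw [hgT, hT2, smul_neg', hpow]
        · apply hNC _ _ hgrA.2
          rw [hCdef, Finset.mem_image]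
          exact ⟨T', Finset.mem_filter.2 ⟨hT', hT1, hT2⟩, rfl⟩
    · -- negative sign
      have hst : ((α ^ n * gr T')⁻¹ * g) • ax α = -(ax α) := by
        rw [mul_smul, hgT, inv_smul_eq_iff, smul_neg', mul_smul, ← smul_neg', ← h6]
      have hmem : (α ^ n * gr T')⁻¹ * g ∈ Γ :=
        Γ.mul_mem (Γ.inv_mem (Γ.mul_mem (Γ.zpow_mem hα n) hg')) hg.1
      exact no_flip h α hα h1 _ hmem hst

end Pool.Agent.H100R2.SC
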