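import Pool.Agent.H100R2.SC.Defs
import Pool.Agent.H100R2.SC.B2
import Pool.Agent.H100R2.SC.B5

set_option autoImplicit false

namespace Pool.Agent.H100R2.SC

open Matrix Filter Topology

namespace A9aux

/-- entries -/
def en (g : GG) (i j : Fin 2) : ℝ := (g : Matrix (Fin 2) (Fin 2) ℝ) i j

theorem en_mul (g h : GG) (i j : Fin 2) : en (g * h) i j = en g i 0 * en h 0 j + en g i 1 * en h 1 j := by
  show ((g : Matrix (Fin 2) (Fin 2) ℝ) * (h : Matrix (Fin 2) (Fin 2) ℝ)) i j = _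
  rw [Matrix.mul_apply, Fin.sum_univ_two]
  rfl

theorem dt_en (g : GG) : dt g = en g 0 0 * en g 1 1 - en g 0 1 * en g 1 0 := by
  rw [dt, Matrix.det_fin_two]
  rfl

theorem trc_en (g : GG) : trc g = en g 0 0 + en g 1 1 := rfl

theorem ext_en {g h : GG} (H : ∀ i j, en g i j = en h i j) : g = h := by
  apply Units.ext
  ext i j
  exact H i j

/-- matrices of determinant one -/
noncomputable def mk2 (a b c d : ℝ) (h : a * d - b * c = 1) : GG :=
  Matrix.GeneralLinearGroup.mkOfDetNeZero !![a, b; c, d]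
    (by rw [Matrix.det_fin_two_of, h]; exact one_ne_zero)

@[simp] theorem mk2_00 (a b c d : ℝ) (h : a * d - b * c = 1) : en (mk2 a b c d h) 0 0 = a := rfl
@[simp] theorem mk2_01 (a b c d : ℝ) (h : a * d - b * c = 1) : en (mk2 a b c d h) 0 1 = b := rfl
@[simp] theorem mk2_10 (a b c d : ℝ) (h : a * d - b * c = 1) : en (mk2 a b c d h) 1 0 = c := rfl
@[simp] theorem mk2_11 (a b c d : ℝ) (h : a * d - b * c = 1) : en (mk2 a b c d h) 1 1 = d := rfl

theorem dt_mk2 (a b c d : ℝ) (h : a * d - b * c = 1) : dt (mk2 a b c d h) = 1 := by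
  rw [dt_en]
  simpa using h

theorem en_one : en 1 0 0 = 1 ∧ en 1 0 1 = 0 ∧ en 1 1 0 = 0 ∧ en 1 1 1 = 1 := by
  refine ⟨rfl, rfl, rfl, rfl⟩

theorem inv_eq (g : GG) (h : dt g = 1) : g⁻¹ = mk2 (en g 1 1) (-en g 0 1) (-en g 1 0) (en g 0 0)
    (by rw [dt_en] at h; linarith) := by
  rw [inv_eq_iff_mul_eq_one]
  rw [dt_en] at h
  apply ext_en
  obtain ⟨o1, o2, o3, o4⟩ := en_one
  intro i j
  fin_cases i <;> fin_cases j <;> rw [en_mul]
  · show en g 0 0 * en g 1 1 + en g 0 1 * -en g 1 0 = en 1 0 0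
    rw [o1]; linarith
  · show en g 0 0 * -en g 0 1 + en g 0 1 * en g 0 0 = en 1 0 1
    rw [o2]; ring
  · show en g 1 0 * en g 1 1 + en g 1 1 * -en g 1 0 = en 1 1 0
    rw [o3]; ring
  · show en g 1 0 * -en g 0 1 + en g 1 1 * en g 0 0 = en 1 1 1
    rw [o4]; linarith

theorem dt_inv (g : GG) (h : dt g = 1) : dt g⁻¹ = 1 := by
  rw [inv_eq g h]
  exact dt_mk2 _ _ _ _ _

theorem inv_ent (g : GG) (h : dt g = 1) : en g⁻¹ 0 0 = en g 1 1 ∧ en g⁻¹ 0 1 = -en g 0 1 ∧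
    en g⁻¹ 1 0 = -en g 1 0 ∧ en g⁻¹ 1 1 = en g 0 0 := by
  rw [inv_eq g h]
  exact ⟨rfl, rfl, rfl, rfl⟩

/-- all entries are bounded -/
def Bd (g : GG) (C : ℝ) : Prop := ∀ i j, |en g i j| ≤ C

theorem Bd.nonneg {g : GG} {C : ℝ} (h : Bd g C) : 0 ≤ C := (abs_nonneg _).trans (h 0 0)

theorem Bd.mul {g h : GG} {C D : ℝ} (hg : Bd g C) (hh : Bd h D) : Bd (g * h) (2 * C * D) := by
  intro i j
  rw [en_mul]
  refine (abs_add_le _ _).trans ?_
  rw [abs_mul, abs_mul]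
  have h1 : |en g i 0| * |en h 0 j| ≤ C * D := mul_le_mul (hg _ _) (hh _ _) (abs_nonneg _) hg.nonneg
  have h2 : |en g i 1| * |en h 1 j| ≤ C * D := mul_le_mul (hg _ _) (hh _ _) (abs_nonneg _) hg.nonneg
  linarith

theorem Bd.inv {g : GG} {C : ℝ} (h1 : dt g = 1) (hg : Bd g C) : Bd g⁻¹ C := by
  rw [inv_eq g h1]
  intro i j
  fin_cases i <;> fin_cases j
  · exact hg 1 1
  · show |-en g 0 1| ≤ C
    rw [abs_neg]; exact hg 0 1
  · show |-en g 1 0| ≤ C
    rw [abs_neg]; exact hg 1 0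
  · exact hg 0 0

theorem exists_Bd (g : GG) : ∃ C, Bd g C := by
  refine ⟨|en g 0 0| + |en g 0 1| + |en g 1 0| + |en g 1 1|, ?_⟩
  have h1 := abs_nonneg (en g 0 0)
  have h2 := abs_nonneg (en g 0 1)
  have h3 := abs_nonneg (en g 1 0)
  have h4 := abs_nonneg (en g 1 1)
  intro i j
  fin_cases i <;> fin_cases j
  · show |en g 0 0| ≤ _
    linarith
  · show |en g 0 1| ≤ _
    linarith
  · show |en g 1 0| ≤ _
    linarith
  · show |en g 1 1| ≤ _
    linarith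

/-- unipotent matrices -/
noncomputable def uu (c : ℝ) : GG := mk2 1 c 0 1 (by ring)

@[simp] theorem uu_00 (c : ℝ) : en (uu c) 0 0 = 1 := rfl
@[simp] theorem uu_01 (c : ℝ) : en (uu c) 0 1 = c := rfl
@[simp] theorem uu_10 (c : ℝ) : en (uu c) 1 0 = 0 := rfl
@[simp] theorem uu_11 (c : ℝ) : en (uu c) 1 1 = 1 := rfl

theorem dt_uu (c : ℝ) : dt (uu c) = 1 := dt_mk2 _ _ _ _ _

theorem uu_inv (c : ℝ) : (uu c)⁻¹ = uu (-c) := by
  rw [inv_eq _ (dt_uu c)]
  apply ext_en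
  intro i j
  fin_cases i <;> fin_cases j
  · rfl
  · rfl
  · show -en (uu c) 1 0 = 0
    rw [uu_10, neg_zero]
  · rfl

/-- diagonal matrices -/
noncomputable def dg (t : ℝ) (ht : t ≠ 0) : GG := mk2 t 0 0 (1 / t) (by field_simp; ring)

@[simp] theorem dg_00 (t : ℝ) (ht : t ≠ 0) : en (dg t ht) 0 0 = t := rfl
@[simp] theorem dg_01 (t : ℝ) (ht : t ≠ 0) : en (dg t ht) 0 1 = 0 := rfl
@[simp] theorem dg_10 (t : ℝ) (ht : t ≠ 0) : en (dg t ht) 1 0 = 0 := rfl
@[simp] theorem dg_11 (t : ℝ) (ht : t ≠ 0) : en (dg t ht) 1 1 = 1 / t := rfl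

theorem dt_dg (t : ℝ) (ht : t ≠ 0) : dt (dg t ht) = 1 := dt_mk2 _ _ _ _ _

theorem conj_diag (P S : GG) (hP : dt P = 1) (h01 : en P 0 1 = 0) (h10 : en P 1 0 = 0)
    (hS : en S 1 0 = 0) : en (P * S * P⁻¹) 0 0 = en S 0 0 ∧
      en (P * S * P⁻¹) 0 1 = en P 0 0 ^ 2 * en S 0 1 ∧
      en (P * S * P⁻¹) 1 0 = 0 ∧ en (P * S * P⁻¹) 1 1 = en S 1 1 := by
  have hd : en P 0 0 * en P 1 1 = 1 := by
    rw [dt_en, h01] at hP
    linarith
  rw [inv_eq P hP]
  refine ⟨?_, ?_, ?_, ?_⟩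
  · rw [en_mul, en_mul, en_mul]
    simp only [mk2_00, mk2_10, h01, h10, hS]
    linear_combination en S 0 0 * hd
  · rw [en_mul, en_mul, en_mul]
    simp only [mk2_01, mk2_11, h01, h10, hS]
    ring
  · rw [en_mul, en_mul, en_mul]
    simp only [mk2_00, mk2_10, h01, h10, hS]
    ring
  · rw [en_mul, en_mul, en_mul]
    simp only [mk2_01, mk2_11, h01, h10, hS]
    linear_combination en S 1 1 * hd

/-- no invariant direction, normal form: the group is not upper triangular in the basis `k` -/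
theorem noUpper {Γ : Subgroup GG} (h : Fuchs Γ) (k : GG) (hk : dt k = 1)
    (H : ∀ η ∈ Γ, en (k⁻¹ * η * k) 1 0 = 0) : False := by
  obtain ⟨C, hC⟩ := h.coc
  -- bounded translates, in the basis
  have hco : ∀ (k : GG), dt k = 1 → ∃ D, 0 < D ∧ ∀ t : GG, dt t = 1 → ∃ γ ∈ Γ,
      Bd (k⁻¹ * γ * k * t) D := by
    intro k hk
    obtain ⟨K, hK⟩ := exists_Bd k
    refine ⟨2 * K * C + 1, ?_, ?_⟩
    · obtain ⟨γ, -, hγ⟩ := hC 1 dt_one
      have : 0 ≤ C := (abs_nonneg _).trans (hγ 0 0)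
      have := hK.nonneg
      positivity
    · intro t ht
      obtain ⟨γ, hγ, hb⟩ := hC (k * t) (by rw [dt_mul, hk, ht, one_mul])
      refine ⟨γ⁻¹, Γ.inv_mem hγ, ?_⟩
      have h1 : Bd (γ⁻¹ * (k * t)) C := hb
      have h2 := (hK.inv hk).mul h1
      have h3 : k⁻¹ * γ⁻¹ * k * t = k⁻¹ * (γ⁻¹ * (k * t)) := by group
      rw [h3]
      intro i j
      have := h2 i j
      linarith
  -- an element with small eigenvalue
  obtain ⟨D, hD, hD'⟩ := hco k hk
  have h2D : (0:ℝ) < 2 * D := by positivity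
  obtain ⟨α, hα, hbα⟩ := hD' (dg (2 * D) h2D.ne') (dt_dg _ _)
  have hTα := H α hα
  set T := k⁻¹ * α * k with hT
  have hdT : dt T = 1 := by
    rw [hT, dt_mul, dt_mul, dt_inv k hk, h.det1 α hα, hk]; norm_num
  set lam := en T 0 0 with hlam
  have hlam1 : |lam| ≤ 1 / 2 := by
    have h1 := hbα 0 0
    rw [en_mul] at h1
    simp only [dg_00, dg_10, mul_zero, add_zero] at h1
    rw [abs_mul, abs_of_pos h2D] at h1
    have h2 : |lam| * 2 ≤ 1 := by
      have : |lam| * 2 * D ≤ 1 * D := by linarith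
      exact le_of_mul_le_mul_right this hD
    linarith
  have hdT' : lam * en T 1 1 = 1 := by
    rw [dt_en, hTα] at hdT
    linarith
  have hlam0 : lam ≠ 0 := by
    intro h0
    rw [h0, zero_mul] at hdT'
    exact zero_ne_one hdT'
  have hT11 : en T 1 1 = 1 / lam := by field_simp; linarith
  have hsq : lam ^ 2 ≤ 1 / 4 := by
    have h1 : |lam| ^ 2 ≤ (1 / 2) ^ 2 := pow_le_pow_left₀ (abs_nonneg _) hlam1 2
    rw [sq_abs] at h1
    linarith
  have hne : 1 / lam - lam ≠ 0 := by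
    intro h0
    have h1 : 1 - lam ^ 2 = 0 := by
      field_simp at h0
      linarith
    linarith
  -- diagonalise it
  obtain ⟨c, hc⟩ : ∃ c : ℝ, c * (1 / lam - lam) = en T 0 1 :=
    ⟨en T 0 1 / (1 / lam - lam), div_mul_cancel₀ _ hne⟩
  set n := uu c with hn
  have hdn : dt n = 1 := dt_uu c
  set k' := k * n with hk'
  have hdk' : dt k' = 1 := by rw [hk', dt_mul, hk, hdn, one_mul]
  have hconj : ∀ η : GG, k'⁻¹ * η * k' = n⁻¹ * (k⁻¹ * η * k) * n := by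
    intro η
    rw [hk']
    group
  have hninv : n⁻¹ = uu (-c) := uu_inv c
  have hent : ∀ S : GG, en S 1 0 = 0 → en (n⁻¹ * S * n) 0 0 = en S 0 0 ∧
      en (n⁻¹ * S * n) 0 1 = en S 0 0 * c + en S 0 1 - c * en S 1 1 ∧
      en (n⁻¹ * S * n) 1 0 = 0 ∧ en (n⁻¹ * S * n) 1 1 = en S 1 1 := by
    intro S hS
    rw [hninv, hn]
    refine ⟨?_, ?_, ?_, ?_⟩ <;> rw [en_mul, en_mul, en_mul] <;>
      simp only [uu_00, uu_01, uu_10, uu_11, hS] <;> ring
  have hup : ∀ η ∈ Γ, en (k'⁻¹ * η * k') 1 0 = 0 := by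
    intro η hη
    rw [hconj]
    exact (hent _ (H η hη)).2.2.1
  set T' := k'⁻¹ * α * k' with hT'
  have hT'd : T' = dg lam hlam0 := by
    obtain ⟨e1, e2, e3, e4⟩ := hent T hTα
    have hT'n : T' = n⁻¹ * T * n := hconj α
    rw [← hT'n] at e1 e2 e3 e4
    apply ext_en
    intro i j
    fin_cases i <;> fin_cases j
    · exact e1
    · show en T' 0 1 = 0
      rw [e2, hT11]
      have h3 : c * (1 / lam - lam) = en T 0 1 := hc
      have h4 : en T 0 0 = lam := rfl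
      rw [h4]
      linarith
    · exact e3
    · show en T' 1 1 = 1 / lam
      rw [e4, hT11]
  -- powers
  have hpow : ∀ m : ℕ, en (T' ^ m) 0 0 = lam ^ m ∧ en (T' ^ m) 0 1 = 0 ∧ en (T' ^ m) 1 0 = 0 ∧
      en (T' ^ m) 1 1 = (1 / lam) ^ m := by
    intro m
    induction m with
    | zero => simp only [pow_zero]; exact en_one
    | succ m ih =>
      obtain ⟨i1, i2, i3, i4⟩ := ih
      have e1 : en T' 0 0 = lam := by rw [hT'd]; rfl
      have e2 : en T' 0 1 = 0 := by rw [hT'd]; rfl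
      have e3 : en T' 1 0 = 0 := by rw [hT'd]; rfl
      have e4 : en T' 1 1 = 1 / lam := by rw [hT'd]; rfl
      rw [pow_succ]
      refine ⟨?_, ?_, ?_, ?_⟩
      · rw [en_mul, i1, i2, e1, e3]; ring
      · rw [en_mul, i1, i2, e2, e4]; ring
      · rw [en_mul, i3, i4, e1, e3]; ring
      · rw [en_mul, i3, i4, e2, e4]; ring
  have hdT'' : dt T' = 1 := by rw [hT'd]; exact dt_dg _ _
  have hdpow : ∀ m : ℕ, dt (T' ^ m) = 1 := by
    intro m
    induction m with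
    | zero => rw [pow_zero, dt_one]
    | succ m ih => rw [pow_succ, dt_mul, ih, hdT'', one_mul]
  -- every element is diagonal
  have hdiag : ∀ β ∈ Γ, en (k'⁻¹ * β * k') 0 1 = 0 := by
    intro β hβ
    set S := k'⁻¹ * β * k' with hS
    have hS10 : en S 1 0 = 0 := hup β hβ
    have hS' : ∀ m : ℕ, en (T' ^ m * S * (T' ^ m)⁻¹) 0 0 = en S 0 0 ∧
        en (T' ^ m * S * (T' ^ m)⁻¹) 0 1 = (lam ^ 2) ^ m * en S 0 1 ∧
        en (T' ^ m * S * (T' ^ m)⁻¹) 1 0 = 0 ∧ en (T' ^ m * S * (T' ^ m)⁻¹) 1 1 = en S 1 1 := by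
      intro m
      obtain ⟨i1, i2, i3, i4⟩ := hpow m
      have h1 := conj_diag (T' ^ m) S (hdpow m) i2 i3 hS10
      rw [i1, ← pow_mul, mul_comm m 2, pow_mul] at h1
      exact h1
    obtain ⟨K', hK'⟩ := exists_Bd k'
    obtain ⟨B, hB⟩ := exists_Bd S
    have hBd : ∀ m : ℕ, Bd (T' ^ m * S * (T' ^ m)⁻¹) B := by
      intro m
      obtain ⟨i1, i2, i3, i4⟩ := hS' m
      intro i j
      fin_cases i <;> fin_cases j
      · show |en (T' ^ m * S * (T' ^ m)⁻¹) 0 0| ≤ B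
        rw [i1]; exact hB 0 0
      · show |en (T' ^ m * S * (T' ^ m)⁻¹) 0 1| ≤ B
        rw [i2, abs_mul, abs_of_nonneg (by positivity)]
        have h1 : (lam ^ 2) ^ m ≤ 1 := pow_le_one₀ (by positivity) (by linarith)
        have h2 := hB 0 1
        have h3 := abs_nonneg (en S 0 1)
        nlinarith
      · show |en (T' ^ m * S * (T' ^ m)⁻¹) 1 0| ≤ B
        rw [i3, abs_zero]; exact hB.nonneg
      · show |en (T' ^ m * S * (T' ^ m)⁻¹) 1 1| ≤ B
        rw [i4]; exact hB 1 1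
    have hmemΓ : ∀ m : ℕ, α ^ m * β * (α ^ m)⁻¹ ∈ Γ := fun m =>
      Γ.mul_mem (Γ.mul_mem (Γ.pow_mem hα m) hβ) (Γ.inv_mem (Γ.pow_mem hα m))
    have hTk : ∀ m : ℕ, T' ^ m = k'⁻¹ * α ^ m * k' := by
      intro m
      induction m with
      | zero => simp
      | succ m ih => rw [pow_succ, ih, hT', pow_succ]; group
    have heq : ∀ m : ℕ, α ^ m * β * (α ^ m)⁻¹ = k' * (T' ^ m * S * (T' ^ m)⁻¹) * k'⁻¹ := by
      intro m
      rw [hTk, hS]
      group
    set M := 2 * (2 * K' * B) * K' with hM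
    have hbdΓ : ∀ m : ℕ, Bd (α ^ m * β * (α ^ m)⁻¹) M := by
      intro m
      rw [heq]
      exact (hK'.mul (hBd m)).mul (hK'.inv hdk')
    have hfin := h.disc M
    have hmaps : ∀ m : ℕ, α ^ m * β * (α ^ m)⁻¹ ∈
        {g : GG | g ∈ Γ ∧ ∀ i j, |(g : Matrix (Fin 2) (Fin 2) ℝ) i j| ≤ M} := fun m =>
      ⟨hmemΓ m, hbdΓ m⟩
    have hfin' : Finite {g : GG | g ∈ Γ ∧ ∀ i j, |(g : Matrix (Fin 2) (Fin 2) ℝ) i j| ≤ M} := hfin
    obtain ⟨m1, m2, hm12, hmm⟩ := Finite.exists_ne_map_eq_of_infinite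
      (fun m : ℕ => (⟨_, hmaps m⟩ :
        {g : GG | g ∈ Γ ∧ ∀ i j, |(g : Matrix (Fin 2) (Fin 2) ℝ) i j| ≤ M}))
    have hmm' := congrArg Subtype.val hmm
    have hmm'' : α ^ m1 * β * (α ^ m1)⁻¹ = α ^ m2 * β * (α ^ m2)⁻¹ := hmm'
    rw [heq, heq] at hmm''
    have h5 := mul_left_cancel (mul_right_cancel hmm'')
    have h6 := (hS' m1).2.1
    rw [h5, (hS' m2).2.1] at h6
    by_contra hb
    have h7 := mul_right_cancel₀ hb h6
    have h8 : (0:ℝ) < lam ^ 2 := by positivity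
    have h9 : lam ^ 2 < 1 := by linarith
    exact hm12 ((pow_right_injective₀ h8 h9.ne h7).symm)
  -- contradiction with cocompactness
  obtain ⟨E, hE, hE'⟩ := hco k' hdk'
  obtain ⟨γ, hγ, hbγ⟩ := hE' (uu (E ^ 2 + 1)) (dt_uu _)
  set S := k'⁻¹ * γ * k' with hS
  have s10 : en S 1 0 = 0 := hup γ hγ
  have s01 : en S 0 1 = 0 := hdiag γ hγ
  have hdS : dt S = 1 := by
    rw [hS, dt_mul, dt_mul, dt_inv k' hdk', h.det1 γ hγ, hdk']; norm_num
  rw [dt_en, s10, s01] at hdS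
  have b01 := hbγ 0 1
  have b11 := hbγ 1 1
  rw [en_mul] at b01 b11
  simp only [uu_01, uu_11, s10, s01, zero_mul, zero_add, mul_one, add_zero] at b01 b11
  rw [abs_mul, abs_of_pos (by positivity : (0:ℝ) < E ^ 2 + 1)] at b01
  have h1 : |en S 0 0| * |en S 1 1| = 1 := by
    rw [← abs_mul]
    have : en S 0 0 * en S 1 1 = 1 := by linarith
    rw [this, abs_one]
  have h2 : |en S 0 0| * (E ^ 2 + 1) * |en S 1 1| ≤ E * E :=
    mul_le_mul b01 b11 (abs_nonneg _) hE.le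
  nlinarith

theorem noLine {Γ : Subgroup GG} (h : Fuchs Γ) (u0 u1 v0 v1 : ℝ) (hu : u0 ≠ 0 ∨ u1 ≠ 0)
    (hv : v0 ≠ 0 ∨ v1 ≠ 0) : ∃ η ∈ Γ,
      u0 * (en η 0 0 * v0 + en η 0 1 * v1) + u1 * (en η 1 0 * v0 + en η 1 1 * v1) ≠ 0 := by
  by_contra hcon
  push Not at hcon
  have hN : 0 < v0 ^ 2 + v1 ^ 2 := by
    rcases hv with hv | hv <;> positivity
  set N := v0 ^ 2 + v1 ^ 2 with hNdef
  have h1 := hcon 1 Γ.one_mem
  obtain ⟨o1, o2, o3, o4⟩ := en_one
  rw [o1, o2, o3, o4] at h1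
  have hw : u1 * v0 - u0 * v1 ≠ 0 := by
    intro h0
    have e0 : N * u0 = 0 := by
      rw [hNdef]
      linear_combination v0 * h1 - v1 * h0
    have e1 : N * u1 = 0 := by
      rw [hNdef]
      linear_combination v1 * h1 + v0 * h0
    rcases hu with hu | hu
    · exact (mul_ne_zero hN.ne' hu) e0
    · exact (mul_ne_zero hN.ne' hu) e1
  set k := mk2 v0 (-v1 / N) v1 (v0 / N) (by field_simp; rw [hNdef]; ring) with hk
  refine noUpper h k (dt_mk2 _ _ _ _ _) ?_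
  intro η hη
  have h2 := hcon η hη
  have h3 : en (k⁻¹ * η * k) 1 0 = v0 * (en η 1 0 * v0 + en η 1 1 * v1) -
      v1 * (en η 0 0 * v0 + en η 0 1 * v1) := by
    rw [inv_eq k (dt_mk2 _ _ _ _ _), en_mul, en_mul, en_mul]
    have k00 : en k 0 0 = v0 := rfl
    have k10 : en k 1 0 = v1 := rfl
    simp only [mk2_10, mk2_11, k00, k10]
    ring
  rw [h3]
  have h4 : (u1 * v0 - u0 * v1) * (v0 * (en η 1 0 * v0 + en η 1 1 * v1) -
      v1 * (en η 0 0 * v0 + en η 0 1 * v1)) = 0 := by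
    linear_combination N * h2 - (v0 * (en η 0 0 * v0 + en η 0 1 * v1) +
      v1 * (en η 1 0 * v0 + en η 1 1 * v1)) * h1
  exact (mul_eq_zero.mp h4).resolve_left hw

theorem key {Γ : Subgroup GG} (h : Fuchs Γ) (g : GG) (hg : dt g = 1) :
    ∃ M : ℝ, 0 ≤ M ∧ ∀ K : ℝ, ∃ B : GG, dt B = 1 ∧ |en B 0 1| ≤ M ∧ |en B 1 0| ≤ M ∧
      |en B 1 1| ≤ M ∧ K ≤ |en B 0 0| ∧ g * B * g⁻¹ ∈ Γ := by
  obtain ⟨C, hC⟩ := h.coc
  have ht : ∀ n : ℕ, ((n : ℝ) + 1) ≠ 0 := fun n => by positivity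
  have hA : ∀ n : ℕ, ∃ γ ∈ Γ, Bd (γ⁻¹ * (g * dg _ (ht n))) C := by
    intro n
    obtain ⟨γ, hγ, hb⟩ := hC (g * dg _ (ht n)) (by rw [dt_mul, hg, dt_dg, one_mul])
    exact ⟨γ, hγ, hb⟩
  have hB : ∀ n : ℕ, ∃ γ ∈ Γ, Bd (γ⁻¹ * (g * (dg _ (ht n))⁻¹)) C := by
    intro n
    obtain ⟨γ, hγ, hb⟩ := hC (g * (dg _ (ht n))⁻¹)
      (by rw [dt_mul, hg, dt_inv _ (dt_dg _ _), one_mul])
    exact ⟨γ, hγ, hb⟩
  choose γ hγ hγb using hA
  choose δ hδ hδb using hB
  set k : ℕ → GG := fun n => (γ n)⁻¹ * (g * dg _ (ht n)) with hk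
  set l : ℕ → GG := fun n => (δ n)⁻¹ * (g * (dg _ (ht n))⁻¹) with hl
  have hdk : ∀ n, dt (k n) = 1 := by
    intro n
    rw [hk]
    show dt ((γ n)⁻¹ * (g * dg _ (ht n))) = 1
    rw [dt_mul, dt_mul, dt_inv _ (h.det1 _ (hγ n)), hg, dt_dg]
    norm_num
  have hdl : ∀ n, dt (l n) = 1 := by
    intro n
    rw [hl]
    show dt ((δ n)⁻¹ * (g * (dg _ (ht n))⁻¹)) = 1
    rw [dt_mul, dt_mul, dt_inv _ (h.det1 _ (hδ n)), hg, dt_inv _ (dt_dg _ _)]
    norm_num
  have hC0 : 0 ≤ C := (hγb 0).nonneg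
  -- a convergent subsequence
  let F : ℕ → (Fin 2 → Fin 2 → ℝ) × (Fin 2 → Fin 2 → ℝ) := fun n => (en (k n), en (l n))
  have hF : ∀ n, F n ∈ Metric.closedBall (0 : (Fin 2 → Fin 2 → ℝ) × (Fin 2 → Fin 2 → ℝ)) C := by
    intro n
    rw [mem_closedBall_zero_iff, Prod.norm_def, max_le_iff]
    constructor
    · rw [pi_norm_le_iff_of_nonneg hC0]
      intro i
      rw [pi_norm_le_iff_of_nonneg hC0]
      intro j
      exact hγb n i j
    · rw [pi_norm_le_iff_of_nonneg hC0]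
      intro i
      rw [pi_norm_le_iff_of_nonneg hC0]
      intro j
      exact hδb n i j
  obtain ⟨⟨k', l'⟩, -, φ, hφ, hlim⟩ := tendsto_subseq_of_bounded Metric.isBounded_closedBall hF
  have hlk : ∀ i j, Tendsto (fun n => en (k (φ n)) i j) atTop (𝓝 (k' i j)) := by
    intro i j
    have h1 := (continuous_fst.tendsto _).comp hlim
    have h2 := (tendsto_pi_nhds.mp h1) i
    exact (tendsto_pi_nhds.mp h2) j
  have hll : ∀ i j, Tendsto (fun n => en (l (φ n)) i j) atTop (𝓝 (l' i j)) := by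
    intro i j
    have h1 := (continuous_snd.tendsto _).comp hlim
    have h2 := (tendsto_pi_nhds.mp h1) i
    exact (tendsto_pi_nhds.mp h2) j
  have hdk' : k' 0 0 * k' 1 1 - k' 0 1 * k' 1 0 = 1 := by
    have h1 := ((hlk 0 0).mul (hlk 1 1)).sub ((hlk 0 1).mul (hlk 1 0))
    have h2 : (fun n => en (k (φ n)) 0 0 * en (k (φ n)) 1 1 -
        en (k (φ n)) 0 1 * en (k (φ n)) 1 0) = fun _ => (1:ℝ) := by
      funext n
      rw [← dt_en, hdk]
    rw [h2] at h1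
    exact (tendsto_nhds_unique h1 tendsto_const_nhds)
  have hdl' : l' 0 0 * l' 1 1 - l' 0 1 * l' 1 0 = 1 := by
    have h1 := ((hll 0 0).mul (hll 1 1)).sub ((hll 0 1).mul (hll 1 0))
    have h2 : (fun n => en (l (φ n)) 0 0 * en (l (φ n)) 1 1 -
        en (l (φ n)) 0 1 * en (l (φ n)) 1 0) = fun _ => (1:ℝ) := by
      funext n
      rw [← dt_en, hdl]
    rw [h2] at h1
    exact (tendsto_nhds_unique h1 tendsto_const_nhds)
  obtain ⟨η, hη, hp⟩ := noLine h (k' 1 1) (-(k' 0 1)) (l' 0 0) (l' 1 0)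
    (by
      by_contra hcon
      push Not at hcon
      obtain ⟨c1, c2⟩ := hcon
      rw [c1, neg_eq_zero.mp c2] at hdk'
      norm_num at hdk')
    (by
      by_contra hcon
      push Not at hcon
      obtain ⟨c1, c2⟩ := hcon
      rw [c1, c2] at hdl'
      norm_num at hdl')
  set p := k' 1 1 * (en η 0 0 * l' 0 0 + en η 0 1 * l' 1 0) +
    -(k' 0 1) * (en η 1 0 * l' 0 0 + en η 1 1 * l' 1 0) with hpdef
  let m : ℕ → GG := fun n => (k n)⁻¹ * η * l n
  have hm00 : ∀ n, en (m n) 0 0 = en (k n) 1 1 * (en η 0 0 * en (l n) 0 0 + en η 0 1 * en (l n) 1 0) +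
      -(en (k n) 0 1) * (en η 1 0 * en (l n) 0 0 + en η 1 1 * en (l n) 1 0) := by
    intro n
    show en ((k n)⁻¹ * η * l n) 0 0 = _
    obtain ⟨i1, i2, -, -⟩ := inv_ent (k n) (hdk n)
    rw [en_mul, en_mul (k n)⁻¹ η 0 0, en_mul (k n)⁻¹ η 0 1, i1, i2]
    ring
  have hmlim : Tendsto (fun n => en (m (φ n)) 0 0) atTop (𝓝 p) := by
    have h1 := ((hlk 1 1).mul (((hll 0 0).const_mul (en η 0 0)).add
      ((hll 1 0).const_mul (en η 0 1)))).add
      (((hlk 0 1).neg).mul (((hll 0 0).const_mul (en η 1 0)).add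
      ((hll 1 0).const_mul (en η 1 1))))
    refine h1.congr fun n => ?_
    rw [hm00]
  obtain ⟨H, hH⟩ := exists_Bd η
  have hmB : ∀ n, Bd (m n) (2 * (2 * C * H) * C) := fun n =>
    (((hγb n : Bd (k n) C).inv (hdk n)).mul hH).mul (hδb n)
  refine ⟨2 * (2 * C * H) * C, (hmB 0).nonneg, ?_⟩
  intro K
  have hev1 : ∀ᶠ n in atTop, |p| / 2 ≤ |en (m (φ n)) 0 0| := by
    have h1 : Tendsto (fun n => |en (m (φ n)) 0 0|) atTop (𝓝 |p|) := hmlim.abs
    have h2 : |p| / 2 < |p| := half_lt_self (abs_pos.mpr hp)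
    exact (h1.eventually (lt_mem_nhds h2)).mono fun n hn => hn.le
  have hev2 : ∀ᶠ n : ℕ in atTop, K ≤ ((n:ℝ) + 1) * (|p| / 2) := by
    have h1 : Tendsto (fun n : ℕ => ((n:ℝ) + 1) * (|p| / 2)) atTop atTop := by
      apply Filter.Tendsto.atTop_mul_const (by have := abs_pos.mpr hp; positivity)
      exact Filter.tendsto_atTop_add_const_right _ _ tendsto_natCast_atTop_atTop
    exact h1.eventually_ge_atTop K
  obtain ⟨n, hn1, hn2⟩ := (hev1.and hev2).exists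
  set N := φ n with hN
  have hnN : (n:ℝ) ≤ N := by exact_mod_cast hφ.id_le n
  set t : ℝ := (N:ℝ) + 1 with htdef
  have ht1 : 1 ≤ t := by
    have : (0:ℝ) ≤ N := Nat.cast_nonneg N
    linarith
  have ht0 : t ≠ 0 := ht N
  set a : GG := dg t ht0 with ha
  have hent : ∀ S : GG, en (a * S * a) 0 0 = t ^ 2 * en S 0 0 ∧ en (a * S * a) 0 1 = en S 0 1 ∧
      en (a * S * a) 1 0 = en S 1 0 ∧ en (a * S * a) 1 1 = en S 1 1 / t ^ 2 := by
    intro S
    rw [ha]
    refine ⟨?_, ?_, ?_, ?_⟩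
    · rw [en_mul, en_mul, en_mul]
      simp only [dg_00, dg_01, dg_10]
      ring
    · rw [en_mul, en_mul, en_mul]
      simp only [dg_00, dg_01, dg_11]
      field_simp
      ring
    · rw [en_mul, en_mul, en_mul]
      simp only [dg_00, dg_10, dg_11]
      field_simp
      ring
    · rw [en_mul, en_mul, en_mul]
      simp only [dg_01, dg_10, dg_11]
      field_simp
      ring
  obtain ⟨e1, e2, e3, e4⟩ := hent (m N)
  refine ⟨a * m N * a, ?_, ?_, ?_, ?_, ?_, ?_⟩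
  · have h1 : dt (m N) = 1 := by
      show dt ((k N)⁻¹ * η * l N) = 1
      rw [dt_mul, dt_mul, dt_inv _ (hdk N), h.det1 η hη, hdl]
      norm_num
    rw [dt_mul, dt_mul, ha, dt_dg, h1]
    norm_num
  · rw [e2]; exact hmB N 0 1
  · rw [e3]; exact hmB N 1 0
  · rw [e4, abs_div, abs_of_nonneg (by positivity : (0:ℝ) ≤ t ^ 2)]
    refine (div_le_self (abs_nonneg _) (one_le_pow₀ ht1)).trans (hmB N 1 1)
  · rw [e1, abs_mul, abs_of_nonneg (by positivity : (0:ℝ) ≤ t ^ 2)]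
    have h1 : ((n:ℝ) + 1) * (|p| / 2) ≤ t * |en (m N) 0 0| := by
      apply mul_le_mul _ hn1 (by positivity) (by linarith)
      linarith
    have h2 : t * |en (m N) 0 0| ≤ t ^ 2 * |en (m N) 0 0| := by
      apply mul_le_mul_of_nonneg_right _ (abs_nonneg _)
      nlinarith
    linarith
  · have h1 : g * (a * m N * a) * g⁻¹ = γ N * η * (δ N)⁻¹ := by
      show g * (a * ((k N)⁻¹ * η * l N) * a) * g⁻¹ = γ N * η * (δ N)⁻¹
      have hkN : k N = (γ N)⁻¹ * (g * a) := rfl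
      have hlN : l N = (δ N)⁻¹ * (g * a⁻¹) := rfl
      rw [hkN, hlN]
      group
    rw [h1]
    exact Γ.mul_mem (Γ.mul_mem (hγ N) hη) (Γ.inv_mem (hδ N))

theorem smul_inf (g : GG) : g • (OnePoint.infty : X) =
    if en g 1 0 = 0 then OnePoint.infty else ((en g 0 0 / en g 1 0 : ℝ) : X) :=
  OnePoint.smul_infty_eq_ite g

theorem smul_coe (g : GG) (z : ℝ) : g • (z : X) =
    if en g 1 0 * z + en g 1 1 = 0 then OnePoint.infty else
      (((en g 0 0 * z + en g 0 1) / (en g 1 0 * z + en g 1 1) : ℝ) : X) :=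
  OnePoint.smul_some_eq_ite

/-- the closed neighbourhood `|z| ≥ R` of infinity -/
def NS (R : ℝ) : Set X := ((fun z : ℝ => (z : X)) '' Metric.ball (0:ℝ) R)ᶜ

theorem NS_closed (R : ℝ) : IsClosed (NS R) := by
  rw [NS, isClosed_compl_iff]
  exact OnePoint.isOpenEmbedding_coe.isOpenMap _ Metric.isOpen_ball

theorem NS_inf (R : ℝ) : (OnePoint.infty : X) ∈ NS R := by
  rintro ⟨z, -, hz⟩
  exact OnePoint.coe_ne_infty z hz

theorem NS_coe (R z : ℝ) : (z : X) ∈ NS R ↔ R ≤ |z| := by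
  constructor
  · intro h
    by_contra hlt
    push Not at hlt
    refine h ⟨z, ?_, rfl⟩
    rw [mem_ball_zero_iff, Real.norm_eq_abs]
    exact hlt
  · rintro h ⟨w, hw, hwz⟩
    rw [mem_ball_zero_iff, Real.norm_eq_abs] at hw
    have h1 : w = z := OnePoint.coe_injective hwz
    rw [h1] at hw
    linarith

theorem inf_nhds (V : Set X) (hV : IsOpen V) (h : (OnePoint.infty : X) ∈ V) :
    ∃ R : ℝ, 2 ≤ R ∧ NS R ⊆ V := by
  have h1 := ((OnePoint.isOpen_iff_of_mem h).mp hV).2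
  obtain ⟨R, hR⟩ := h1.isBounded.subset_closedBall (0:ℝ)
  refine ⟨max 2 (R + 1), le_max_left _ _, ?_⟩
  intro ξ hξ
  induction ξ using OnePoint.rec with
  | infty => exact h
  | coe z =>
    rw [NS_coe] at hξ
    by_contra hz
    have h2 := hR (a := z) hz
    rw [mem_closedBall_zero_iff, Real.norm_eq_abs] at h2
    have h3 := le_max_right 2 (R + 1)
    linarith

theorem zero_nhds (U : Set X) (hU : IsOpen U) (h : ((0:ℝ) : X) ∈ U) :
    ∃ ε : ℝ, 0 < ε ∧ ε ≤ 1 ∧ ∀ z : ℝ, |z| ≤ ε → (z : X) ∈ U := by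
  have hU1 : IsOpen ((fun z : ℝ => (z : X)) ⁻¹' U) := hU.preimage OnePoint.continuous_coe
  obtain ⟨δ, hδ, hb⟩ := Metric.isOpen_iff.mp hU1 0 h
  refine ⟨min 1 (δ / 2), by positivity, min_le_left _ _, ?_⟩
  intro z hz
  refine hb ?_
  rw [mem_ball_zero_iff, Real.norm_eq_abs]
  have := min_le_right 1 (δ / 2)
  linarith

theorem maps_NS {B : GG} {M K R : ℝ} (hM : 0 ≤ M) (hR : 2 ≤ R)
    (h01 : |en B 0 1| ≤ M) (h10 : |en B 1 0| ≤ M) (h11 : |en B 1 1| ≤ M) (hK : K ≤ |en B 0 0|)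
    (hKR : M + 2 * (R * M) ≤ K) {ξ : X} (hξ : ξ ∈ NS R) : B • ξ ∈ NS R := by
  have hRM : 0 ≤ R * M := by positivity
  induction ξ using OnePoint.rec with
  | infty =>
    rw [smul_inf]
    split_ifs with h0
    · exact NS_inf R
    · rw [NS_coe, abs_div, le_div_iff₀ (abs_pos.mpr h0)]
      have h1 : R * |en B 1 0| ≤ R * M := mul_le_mul_of_nonneg_left h10 (by linarith)
      linarith
  | coe z =>
    rw [NS_coe] at hξ
    rw [smul_coe]
    split_ifs with h0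
    · exact NS_inf R
    · rw [NS_coe, abs_div, le_div_iff₀ (abs_pos.mpr h0)]
      have hz : 1 ≤ |z| := by linarith
      have h1 : |en B 1 0 * z + en B 1 1| ≤ M * |z| + M := by
        refine (abs_add_le _ _).trans ?_
        rw [abs_mul]
        exact add_le_add (mul_le_mul_of_nonneg_right h10 (abs_nonneg _)) h11
      have h2 : |en B 0 0 * z| - |en B 0 1| ≤ |en B 0 0 * z + en B 0 1| := by
        have h3 : |en B 0 0 * z| = |(en B 0 0 * z + en B 0 1) - en B 0 1| := by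
          rw [add_sub_cancel_right]
        rw [h3]
        have := abs_sub (en B 0 0 * z + en B 0 1) (en B 0 1)
        linarith
      have h4 : K * |z| ≤ |en B 0 0 * z| := by
        rw [abs_mul]
        exact mul_le_mul_of_nonneg_right hK (abs_nonneg _)
      have h5 : R * |en B 1 0 * z + en B 1 1| ≤ R * (M * |z| + M) :=
        mul_le_mul_of_nonneg_left h1 (by linarith)
      have h6 : (M + 2 * (R * M)) * |z| ≤ K * |z| :=
        mul_le_mul_of_nonneg_right hKR (abs_nonneg _)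
      have h7 : M * 1 ≤ M * |z| := mul_le_mul_of_nonneg_left hz hM
      have h8 : (R * M) * 1 ≤ (R * M) * |z| := mul_le_mul_of_nonneg_left hz hRM
      nlinarith

theorem fix_pt {B : GG} {M K ε : ℝ} (hM : 0 ≤ M) (hε : 0 < ε) (hε1 : ε ≤ 1) (hd : dt B = 1)
    (h01 : |en B 0 1| ≤ M) (h10 : |en B 1 0| ≤ M) (h11 : |en B 1 1| ≤ M) (hK : K ≤ |en B 0 0|)
    (hKe : 2 * M ≤ (K - M) * ε) : ∃ z : ℝ, |z| ≤ ε ∧ B • (z : X) = (z : X) := by
  set f : ℝ → ℝ := fun z => en B 1 0 * z ^ 2 + (en B 1 1 - en B 0 0) * z - en B 0 1 with hf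
  have hcont : Continuous f := by rw [hf]; fun_prop
  have hsm : |en B 1 0 * ε ^ 2 - en B 0 1| ≤ 2 * M := by
    refine (abs_sub _ _).trans ?_
    rw [abs_mul, abs_of_nonneg (by positivity : (0:ℝ) ≤ ε ^ 2)]
    have h1 : ε ^ 2 ≤ 1 := by nlinarith
    have h2 : |en B 1 0| * ε ^ 2 ≤ M * 1 := mul_le_mul h10 h1 (by positivity) hM
    linarith
  have hbig : (K - M) * ε ≤ |(en B 1 1 - en B 0 0) * ε| := by
    rw [abs_mul, abs_of_pos hε]
    apply mul_le_mul_of_nonneg_right _ hε.le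
    have h1 : |en B 0 0| ≤ |en B 1 1 - en B 0 0| + |en B 1 1| := by
      have h2 : en B 0 0 = en B 1 1 - (en B 1 1 - en B 0 0) := by ring
      calc |en B 0 0| = |en B 1 1 - (en B 1 1 - en B 0 0)| := by rw [← h2]
        _ ≤ |en B 1 1| + |en B 1 1 - en B 0 0| := abs_sub _ _
        _ = _ := add_comm _ _
    linarith
  have h0mem : (0:ℝ) ∈ Set.uIcc (f (-ε)) (f ε) := by
    rw [Set.mem_uIcc]
    have hfe : f ε = (en B 1 0 * ε ^ 2 - en B 0 1) + (en B 1 1 - en B 0 0) * ε := by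
      rw [hf]; ring
    have hfe' : f (-ε) = (en B 1 0 * ε ^ 2 - en B 0 1) - (en B 1 1 - en B 0 0) * ε := by
      rw [hf]; ring
    rw [abs_le] at hsm
    rcases le_abs.mp (hKe.trans hbig) with h | h
    · left
      constructor
      · rw [hfe']; linarith
      · rw [hfe]; linarith
    · right
      constructor
      · rw [hfe]; linarith
      · rw [hfe']; linarith
  obtain ⟨z, hz, hfz⟩ := intermediate_value_uIcc hcont.continuousOn h0mem
  have hzε : |z| ≤ ε := by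
    rw [Set.uIcc_of_le (by linarith), Set.mem_Icc] at hz
    exact abs_le.mpr hz
  refine ⟨z, hzε, ?_⟩
  have hfz' : en B 1 0 * z ^ 2 + (en B 1 1 - en B 0 0) * z - en B 0 1 = 0 := hfz
  rw [dt_en] at hd
  have hne : en B 1 0 * z + en B 1 1 ≠ 0 := by
    intro h0
    have h1 : en B 0 0 * z + en B 0 1 = 0 := by
      linear_combination z * h0 - hfz'
    have h2 : (1:ℝ) = 0 := by
      rw [← hd]
      linear_combination en B 0 0 * h0 - en B 1 0 * h1
    exact one_ne_zero h2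
  rw [smul_coe, if_neg hne]
  congr 1
  rw [div_eq_iff hne]
  linear_combination - hfz'

end A9aux

open A9aux

theorem pairs {Γ : Subgroup GG} (h : Fuchs Γ) (U V : Set X) (hU : IsOpen U) (hV : IsOpen V)
    (nU : U.Nonempty) (nV : V.Nonempty) :
    ∃ β ∈ Γ, β ≠ 1 ∧ ∃ x ∈ V, ∃ y ∈ U, x ≠ y ∧ (∀ ξ, 0 < (ax β).val ξ ↔ cyc x ξ y) ∧ β • x = x ∧ β • y = y ∧
      ∀ ξ, ξ ≠ y → Tendsto (fun n : ℕ => (β ^ n) • ξ) atTop (𝓝 x) := by
  obtain ⟨x0, hx0⟩ := OnePoint.denseRange_coe.exists_mem_open hV nV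
  obtain ⟨y1, hy1⟩ := OnePoint.denseRange_coe.exists_mem_open hU nU
  have hU1 : IsOpen ((fun z : ℝ => (z : X)) ⁻¹' U) := hU.preimage OnePoint.continuous_coe
  obtain ⟨δ, hδ, hb⟩ := Metric.isOpen_iff.mp hU1 y1 hy1
  obtain ⟨y0, hy0, hne⟩ : ∃ y0 : ℝ, (y0 : X) ∈ U ∧ x0 ≠ y0 := by
    by_cases h : x0 = y1
    · refine ⟨y1 + δ / 2, hb ?_, ?_⟩
      · rw [Metric.mem_ball, Real.dist_eq, add_sub_cancel_left, abs_of_pos (by linarith)]
        linarith
      · rw [h]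
        intro h'
        linarith
    · exact ⟨y1, hy1, h⟩
  have hne' : x0 - y0 ≠ 0 := sub_ne_zero.mpr hne
  set g : GG := mk2 (x0 / (x0 - y0)) y0 (1 / (x0 - y0)) 1 (by field_simp) with hg
  have hdg : dt g = 1 := dt_mk2 _ _ _ _ _
  have hginf : g • (OnePoint.infty : X) = (x0 : X) := by
    rw [smul_inf]
    have h1 : en g 1 0 = 1 / (x0 - y0) := rfl
    have h2 : en g 0 0 = x0 / (x0 - y0) := rfl
    rw [h1, h2, if_neg (one_div_ne_zero hne')]
    congr 1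
    field_simp
  have hg0 : g • ((0:ℝ) : X) = (y0 : X) := by
    rw [smul_coe]
    have h1 : en g 0 1 = y0 := rfl
    have h2 : en g 1 1 = 1 := rfl
    rw [h1, h2, mul_zero, mul_zero, zero_add, zero_add, if_neg one_ne_zero, div_one]
  obtain ⟨R, hR, hNS⟩ := inf_nhds ((fun ξ : X => g • ξ) ⁻¹' V) (hV.preimage (continuous_smul' g))
    (by show g • (OnePoint.infty : X) ∈ V; rw [hginf]; exact hx0)
  obtain ⟨ε, hε, hε1, hball⟩ := zero_nhds ((fun ξ : X => g • ξ) ⁻¹' U)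
    (hU.preimage (continuous_smul' g)) (by show g • ((0:ℝ) : X) ∈ U; rw [hg0]; exact hy0)
  obtain ⟨M, hM, hkey⟩ := key h g hdg
  have hRM : 0 ≤ R * M := by positivity
  have h2Me : 0 ≤ 2 * M / ε := by positivity
  obtain ⟨B, hdB, h01, h10, h11, hK, hmem⟩ := hkey (M + 2 * (R * M) + 2 * M / ε + 3)
  set K := M + 2 * (R * M) + 2 * M / ε + 3 with hKdef
  obtain ⟨z0, hz0, hfix⟩ := fix_pt (K := K) hM hε hε1 hdB h01 h10 h11 hK (by
    have h1 : 2 * M = (2 * M / ε) * ε := by field_simp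
    have h2 : (2 * M / ε) * ε ≤ (K - M) * ε := by
      apply mul_le_mul_of_nonneg_right _ hε.le
      rw [hKdef]; linarith
    linarith)
  have hmaps : ∀ ξ : X, ξ ∈ NS R → B • ξ ∈ NS R := fun ξ hξ =>
    maps_NS (K := K) hM hR h01 h10 h11 hK (by rw [hKdef]; linarith) hξ
  have hmapsn : ∀ (n : ℕ) (ξ : X), ξ ∈ NS R → (B ^ n) • ξ ∈ NS R := by
    intro n
    induction n with
    | zero => intro ξ hξ; rw [pow_zero, one_smul]; exact hξ
    | succ n ih =>
      intro ξ hξ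
      rw [pow_succ, mul_smul]
      exact ih _ (hmaps ξ hξ)
  have htr : 4 < trc B ^ 2 := by
    have h1 : K - M ≤ |trc B| := by
      rw [trc_en]
      have h2 : |en B 0 0| ≤ |en B 0 0 + en B 1 1| + |en B 1 1| := by
        calc |en B 0 0| = |(en B 0 0 + en B 1 1) - en B 1 1| := by rw [add_sub_cancel_right]
          _ ≤ _ := abs_sub _ _
      linarith
    have h3 : 2 < |trc B| := by
      have : 3 ≤ K - M := by rw [hKdef]; linarith
      linarith
    have h4 : (2:ℝ) ^ 2 < |trc B| ^ 2 := pow_lt_pow_left₀ h3 (by norm_num) (by norm_num)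
    rw [sq_abs] at h4
    linarith
  set β : GG := g * B * g⁻¹ with hβ
  have hdβ : dt β = 1 := h.det1 β hmem
  have htrβ : 4 < trc β ^ 2 := by rw [hβ, trc_conj]; exact htr
  have hβ1 : β ≠ 1 := by
    intro h1
    rw [h1] at htrβ
    have h2 : trc (1 : GG) = 2 := by
      rw [trc_en]
      obtain ⟨o1, -, -, o4⟩ := en_one
      rw [o1, o4]; norm_num
    rw [h2] at htrβ
    norm_num at htrβ
  obtain ⟨x, y, hxy, hval, hβx, hβy, hlim⟩ := ax_attract β hdβ htrβ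
  have hβn : ∀ (n : ℕ) (ζ : X), (β ^ n) • (g • ζ) = g • ((B ^ n) • ζ) := by
    intro n ζ
    rw [hβ, conj_pow, mul_smul, mul_smul, inv_smul_smul]
  -- the attracting point
  have hxN : g⁻¹ • x ∈ NS R := by
    obtain ⟨ζ, hζ, hζy⟩ : ∃ ζ : X, ζ ∈ NS R ∧ g • ζ ≠ y := by
      by_cases h1 : g • (OnePoint.infty : X) = y
      · refine ⟨(R : X), (NS_coe R R).mpr (le_abs_self R), ?_⟩
        intro h2
        rw [← h1] at h2
        exact OnePoint.coe_ne_infty R (smul_left_cancel g h2)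
      · exact ⟨OnePoint.infty, NS_inf R, h1⟩
    have h1 := hlim (g • ζ) hζy
    have h2 : Tendsto (fun n : ℕ => g⁻¹ • ((β ^ n) • (g • ζ))) atTop (𝓝 (g⁻¹ • x)) :=
      ((continuous_smul' g⁻¹).tendsto x).comp h1
    refine (NS_closed R).mem_of_tendsto h2 (Eventually.of_forall fun n => ?_)
    rw [hβn, inv_smul_smul]
    exact hmapsn n ζ hζ
  have hxV : x ∈ V := by
    have h1 := hNS hxN
    have h2 : g • (g⁻¹ • x) ∈ V := h1
    rwa [smul_inv_smul] at h2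
  have hw : β • (g • (z0 : X)) = g • (z0 : X) := by
    have := hβn 1 (z0 : X)
    rw [pow_one, pow_one, hfix] at this
    exact this
  have hy : y = g • (z0 : X) := by
    by_contra hne2
    have h1 := hlim (g • (z0 : X)) (fun h => hne2 h.symm)
    have h2 : ∀ n : ℕ, (β ^ n) • (g • (z0 : X)) = g • (z0 : X) := by
      intro n
      induction n with
      | zero => rw [pow_zero, one_smul]
      | succ n ih => rw [pow_succ, mul_smul, hw, ih]
    simp_rw [h2] at h1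
    have h3 : g • (z0 : X) = x := tendsto_nhds_unique tendsto_const_nhds h1
    rw [← h3, inv_smul_smul, NS_coe] at hxN
    linarith
  have hyU : y ∈ U := by
    rw [hy]
    exact hball z0 hz0
  exact ⟨β, hmem, hβ1, x, hxV, y, hyU, hxy, hval, hβx, hβy, hlim⟩

end Pool.Agent.H100R2.SC
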