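import Pool.Agent.H100R2.SC.Defs

set_option autoImplicit false

namespace Pool.Agent.H100R2.SC

open Topology Filter

/-- Lebesgue number for a compact set inside an open set -/
theorem B3_aux (tri : ∀ a b c : X, dd a c ≤ dd a b + dd b c)
    (ball : ∀ (ξ : X) (ε : ℝ), 0 < ε → {η : X | dd ξ η < ε} ∈ 𝓝 ξ)
    (nh : ∀ (ξ : X) (U : Set X), U ∈ 𝓝 ξ → ∃ ε > 0, ∀ η, dd ξ η < ε → η ∈ U)
    {C U : Set X} (hC : IsCompact C) (hU : IsOpen U) (hCU : C ⊆ U) :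
    ∃ ε : ℝ, 0 < ε ∧ ∀ x ∈ C, ∀ η, dd x η < ε → η ∈ U := by
  refine hC.induction_on (p := fun S => ∃ ε : ℝ, 0 < ε ∧ ∀ x ∈ S, ∀ η, dd x η < ε → η ∈ U)
    ⟨1, one_pos, fun x hx => absurd hx (Set.notMem_empty x)⟩ ?_ ?_ ?_
  · rintro s t hst ⟨ε, hε, h⟩
    exact ⟨ε, hε, fun x hx => h x (hst hx)⟩
  · rintro s t ⟨ε, hε, h⟩ ⟨ε', hε', h'⟩
    refine ⟨min ε ε', lt_min hε hε', ?_⟩
    rintro x (hx | hx) η hη
    · exact h x hx η (hη.trans_le (min_le_left _ _))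
    · exact h' x hx η (hη.trans_le (min_le_right _ _))
  · intro x hx
    obtain ⟨ε, hε, h⟩ := nh x U (hU.mem_nhds (hCU hx))
    refine ⟨{η | dd x η < ε / 2}, mem_nhdsWithin_of_mem_nhds (ball x (ε / 2) (half_pos hε)),
      ε / 2, half_pos hε, ?_⟩
    intro y hy η hη
    apply h
    have h1 := tri x y η
    have h2 : dd x y < ε / 2 := hy
    linarith

theorem B3_main (comm : ∀ a b : X, dd a b = dd b a)
    (tri : ∀ a b c : X, dd a c ≤ dd a b + dd b c)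
    (ball : ∀ (ξ : X) (ε : ℝ), 0 < ε → {η : X | dd ξ η < ε} ∈ 𝓝 ξ)
    (nh : ∀ (ξ : X) (U : Set X), U ∈ 𝓝 ξ → ∃ ε > 0, ∀ η, dd ξ η < ε → η ∈ U)
    (K : Set C(X, X)) (f : C(X, X))
    (h : ∀ ε : ℝ, 0 < ε → ∃ k ∈ K, ∀ ξ, dd (k ξ) (f ξ) < ε) : f ∈ closure K := by
  choose k hk hkf using fun n : ℕ => h (1 / ((n : ℝ) + 1)) (by positivity)
  refine mem_closure_of_tendsto (f := k) (b := atTop) ?_ (Eventually.of_forall hk)
  rw [ContinuousMap.tendsto_nhds_compactOpen]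
  intro C hC U hU hfC
  obtain ⟨ε, hε, hU'⟩ := B3_aux tri ball nh (hC.image f.continuous) hU
    (Set.image_subset_iff.2 hfC)
  obtain ⟨N, hN⟩ := exists_nat_one_div_lt hε
  filter_upwards [eventually_ge_atTop N] with n hn ξ hξ
  refine hU' (f ξ) (Set.mem_image_of_mem f hξ) (k n ξ) ?_
  rw [comm]
  refine (hkf n ξ).trans (lt_of_le_of_lt ?_ hN)
  apply one_div_le_one_div_of_le (by positivity)
  have : (N : ℝ) ≤ n := by exact_mod_cast hn
  linarith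

end Pool.Agent.H100R2.SC
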