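import Pool.Agent.H100R2.SC.B2
import Pool.Agent.H100R2.SC.B3Aux

set_option autoImplicit false

namespace Pool.Agent.H100R2.SC

open Filter Topology

theorem mem_closure_of_dd (K : Set C(X, X)) (f : C(X, X))
    (h : ∀ ε : ℝ, 0 < ε → ∃ k ∈ K, ∀ ξ, dd (k ξ) (f ξ) < ε) : f ∈ closure K :=
  B3_main dd_comm dd_triangle dd_ball dd_nhds K f h

end Pool.Agent.H100R2.SC
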