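import Pool.Agent.H100R2.SC.Defs

/-! B4: cyclic order on the circle, orientation of homeomorphisms, arcs = intervals -/

set_option autoImplicit false

namespace Pool.Agent.H100R2.SC

open Filter Topology

/-! ### representative vectors -/

/-- first coordinate of the representative vector -/
noncomputable def b4U (ξ : X) : ℝ := ξ.elim 1 (fun x => x)

/-- second coordinate of the representative vector -/
noncomputable def b4W (ξ : X) : ℝ := ξ.elim 0 (fun _ => 1)

@[simp] theorem b4U_infty : b4U (OnePoint.infty : X) = 1 := rfl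
@[simp] theorem b4W_infty : b4W (OnePoint.infty : X) = 0 := rfl
@[simp] theorem b4U_coe (x : ℝ) : b4U ((x : ℝ) : X) = x := rfl
@[simp] theorem b4W_coe (x : ℝ) : b4W ((x : ℝ) : X) = 1 := rfl

theorem b4_om (a b : X) : om a b = b4U a * b4W b - b4W a * b4U b := by
  induction a using OnePoint.rec with
  | infty =>
    induction b using OnePoint.rec with
    | infty => simp [om]
    | coe y => simp [om]
  | coe x =>
    induction b using OnePoint.rec with
    | infty => simp [om]
    | coe y => simp [om]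

theorem b4_om_neg (a b : X) : om b a = -om a b := by
  rw [b4_om, b4_om]
  ring

theorem b4_om_self (a : X) : om a a = 0 := by
  rw [b4_om]
  ring

theorem b4_om_eq_zero {a b : X} (h : om a b = 0) : a = b := by
  induction a using OnePoint.rec with
  | infty =>
    induction b using OnePoint.rec with
    | infty => rfl
    | coe y => simp [om] at h
  | coe x =>
    induction b using OnePoint.rec with
    | infty => simp [om] at h
    | coe y =>
      simp only [om, OnePoint.elim_some] at h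
      rw [sub_eq_zero.1 h]

theorem b4_plucker (a b c d : X) : om a b * om c d - om a c * om b d + om a d * om b c = 0 := by
  simp only [b4_om]
  ring

theorem cyc_rot {a b c : X} (h : cyc a b c) : cyc b c a := by
  unfold cyc at *
  have : om b c * om c a * om a b = om a b * om b c * om c a := by ring
  rw [this]
  exact h

theorem b4_rev (a b c : X) : om c b * om b a * om a c = -(om a b * om b c * om c a) := by
  rw [b4_om_neg b c, b4_om_neg a b, b4_om_neg c a]
  ring

theorem cyc_total {a b c : X} (hab : a ≠ b) (hbc : b ≠ c) (hca : c ≠ a) :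
    cyc a b c ∨ cyc c b a := by
  have h1 : om a b * om b c * om c a ≠ 0 :=
    mul_ne_zero (mul_ne_zero (fun h => hab (b4_om_eq_zero h)) (fun h => hbc (b4_om_eq_zero h)))
      (fun h => hca (b4_om_eq_zero h))
  rcases lt_or_gt_of_ne h1 with h | h
  · right
    unfold cyc
    rw [b4_rev]
    linarith
  · left
    exact h

theorem cyc_asymm {a b c : X} (h : cyc a b c) : ¬ cyc c b a := by
  unfold cyc at *
  rw [b4_rev]
  linarith

theorem cyc_ne {a b c : X} (h : cyc a b c) : a ≠ b ∧ b ≠ c ∧ c ≠ a := by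
  unfold cyc at h
  refine ⟨?_, ?_, ?_⟩
  · rintro rfl
    rw [b4_om_self] at h
    simp at h
  · rintro rfl
    rw [b4_om_self] at h
    simp at h
  · rintro rfl
    rw [b4_om_self] at h
    simp at h

theorem cyc_trans {a b c d : X} (h1 : cyc a b c) (h2 : cyc a c d) : cyc a b d ∧ cyc b c d := by
  obtain ⟨n1, n2, n3⟩ := cyc_ne h1
  obtain ⟨m1, m2, m3⟩ := cyc_ne h2
  have hp := b4_plucker a b c d
  unfold cyc at *
  have r0 : om c a ≠ 0 := fun h => n3 (b4_om_eq_zero h)
  have p0 : om a b ≠ 0 := fun h => n1 (b4_om_eq_zero h)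
  have q0 : om b c ≠ 0 := fun h => n2 (b4_om_eq_zero h)
  have s0 : om c d ≠ 0 := fun h => m2 (b4_om_eq_zero h)
  have t0 : om d a ≠ 0 := fun h => m3 (b4_om_eq_zero h)
  rw [b4_om_neg c a] at h2 hp
  rw [b4_om_neg d a] at hp
  rw [b4_om_neg b d]
  set p := om a b
  set q := om b c
  set r := om c a
  set s := om c d
  set t := om d a
  set u := om b d
  have hr : 0 < r ^ 2 := by positivity
  have hu : r * u = t * q - p * s := by linarith
  constructor
  · have e1 : r ^ 2 * (p * u * t) = t ^ 2 * (p * q * r) + p ^ 2 * (-r * s * t) := by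
      have : r ^ 2 * (p * u * t) = r * p * t * (r * u) := by ring
      rw [this, hu]
      ring
    have e2 : 0 < r ^ 2 * (p * u * t) := by
      rw [e1]
      positivity
    exact (mul_pos_iff_of_pos_left hr).1 e2
  · have e1 : r ^ 2 * (q * s * -u) = s ^ 2 * (p * q * r) + q ^ 2 * (-r * s * t) := by
      have : r ^ 2 * (q * s * -u) = -(r * q * s) * (r * u) := by ring
      rw [this, hu]
      ring
    have e2 : 0 < r ^ 2 * (q * s * -u) := by
      rw [e1]
      positivity
    exact (mul_pos_iff_of_pos_left hr).1 e2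

theorem b4_smul (g : GG) (ξ : X) : ∃ k : ℝ, k ≠ 0 ∧
    b4U (g • ξ) = k * ((g : Matrix (Fin 2) (Fin 2) ℝ) 0 0 * b4U ξ +
      (g : Matrix (Fin 2) (Fin 2) ℝ) 0 1 * b4W ξ) ∧
    b4W (g • ξ) = k * ((g : Matrix (Fin 2) (Fin 2) ℝ) 1 0 * b4U ξ +
      (g : Matrix (Fin 2) (Fin 2) ℝ) 1 1 * b4W ξ) := by
  have hd := dt_ne_zero g
  rw [dt, Matrix.det_fin_two] at hd
  induction ξ using OnePoint.rec with
  | infty =>
    rw [OnePoint.smul_infty_eq_ite]
    by_cases h : (g : Matrix (Fin 2) (Fin 2) ℝ) 1 0 = 0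
    · rw [if_pos h]
      have h0 : (g : Matrix (Fin 2) (Fin 2) ℝ) 0 0 ≠ 0 := by
        intro h'
        rw [h, h'] at hd
        simp at hd
      refine ⟨((g : Matrix (Fin 2) (Fin 2) ℝ) 0 0)⁻¹, inv_ne_zero h0, ?_, ?_⟩
      · simp [h0]
      · simp [h]
    · rw [if_neg h]
      refine ⟨((g : Matrix (Fin 2) (Fin 2) ℝ) 1 0)⁻¹, inv_ne_zero h, ?_, ?_⟩
      · rw [b4U_coe, b4U_infty, b4W_infty]
        field_simp
        ring
      · rw [b4W_coe, b4U_infty, b4W_infty]
        field_simp
        ring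
  | coe x =>
    rw [OnePoint.smul_some_eq_ite]
    by_cases h : (g : Matrix (Fin 2) (Fin 2) ℝ) 1 0 * x + (g : Matrix (Fin 2) (Fin 2) ℝ) 1 1 = 0
    · rw [if_pos h]
      have h0 : (g : Matrix (Fin 2) (Fin 2) ℝ) 0 0 * x +
          (g : Matrix (Fin 2) (Fin 2) ℝ) 0 1 ≠ 0 := by
        intro h'
        apply hd
        linear_combination (g : Matrix (Fin 2) (Fin 2) ℝ) 0 0 * h -
          (g : Matrix (Fin 2) (Fin 2) ℝ) 1 0 * h'
      refine ⟨((g : Matrix (Fin 2) (Fin 2) ℝ) 0 0 * x +
          (g : Matrix (Fin 2) (Fin 2) ℝ) 0 1)⁻¹, inv_ne_zero h0, ?_, ?_⟩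
      · rw [b4U_coe, b4W_coe, b4U_infty, mul_one, inv_mul_cancel₀ h0]
      · rw [b4U_coe, b4W_coe, b4W_infty, mul_one, h, mul_zero]
    · rw [if_neg h]
      refine ⟨((g : Matrix (Fin 2) (Fin 2) ℝ) 1 0 * x +
          (g : Matrix (Fin 2) (Fin 2) ℝ) 1 1)⁻¹, inv_ne_zero h, ?_, ?_⟩
      · rw [b4U_coe, b4U_coe, b4W_coe, mul_one, div_eq_inv_mul]
      · rw [b4W_coe, b4U_coe, b4W_coe, mul_one, inv_mul_cancel₀ h]

theorem b4_cyc_smul (g : GG) (a b c : X) : ∃ k : ℝ, 0 < k ∧
    om (g • a) (g • b) * om (g • b) (g • c) * om (g • c) (g • a) =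
      k * (dt g * (om a b * om b c * om c a)) := by
  obtain ⟨ka, ha0, ha1, ha2⟩ := b4_smul g a
  obtain ⟨kb, hb0, hb1, hb2⟩ := b4_smul g b
  obtain ⟨kc, hc0, hc1, hc2⟩ := b4_smul g c
  have hd := dt_ne_zero g
  refine ⟨ka ^ 2 * kb ^ 2 * kc ^ 2 * dt g ^ 2, by positivity, ?_⟩
  simp only [b4_om, ha1, ha2, hb1, hb2, hc1, hc2]
  rw [dt, Matrix.det_fin_two]
  ring

theorem cyc_smul_pos (g : GG) (hg : 0 < dt g) : OrP (fun ξ : X => g • ξ) := by
  intro a b c h
  obtain ⟨k, hk, e⟩ := b4_cyc_smul g a b c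
  unfold cyc at *
  show 0 < om (g • a) (g • b) * om (g • b) (g • c) * om (g • c) (g • a)
  rw [e]
  positivity

theorem cyc_smul_neg (g : GG) (hg : dt g < 0) : OrN (fun ξ : X => g • ξ) := by
  intro a b c h
  obtain ⟨k, hk, e⟩ := b4_cyc_smul g a b c
  unfold cyc at *
  show 0 < om (g • c) (g • b) * om (g • b) (g • a) * om (g • a) (g • c)
  rw [b4_rev, e]
  have h1 : 0 < -dt g := by linarith
  have h2 : -(k * (dt g * (om a b * om b c * om c a))) =
      k * (-dt g * (om a b * om b c * om c a)) := by ring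
  rw [h2]
  positivity

/-! ### arcs -/

theorem b4_val (S : Arc) (ξ : X) : S.val ξ = S.ev (b4U ξ) (b4W ξ) := by
  induction ξ using OnePoint.rec with
  | infty => simp [Arc.val, Arc.ev]
  | coe x => simp [Arc.val, Arc.ev]

/-- every non-zero vector represents a point -/
theorem b4_vec (a b : ℝ) (h : a ≠ 0 ∨ b ≠ 0) : ∃ (ξ : X) (k : ℝ), k ≠ 0 ∧ a = k * b4U ξ ∧
    b = k * b4W ξ := by
  by_cases hb : b = 0
  · have ha : a ≠ 0 := h.resolve_right (fun h' => h' hb)
    exact ⟨OnePoint.infty, a, ha, by simp, by simp [hb]⟩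
  · refine ⟨((a / b : ℝ) : X), b, hb, ?_, by simp⟩
    rw [b4U_coe]
    field_simp

/-- arc with given end points -/
noncomputable def b4mk (x y : X) (h : om y x ≠ 0) : Arc :=
  ⟨-(2 / om y x) * (b4W x * b4W y), (2 / om y x) * (b4U x * b4W y + b4W x * b4U y) / 2,
    -(2 / om y x) * (b4U x * b4U y), by
      have h1 : (2 / om y x) ^ 2 * (om y x) ^ 2 = 4 := by
        field_simp
        norm_num
      rw [b4_om y x] at h1 ⊢
      linear_combination (-1 / 4) * h1⟩

theorem b4mk_val (x y : X) (h : om y x ≠ 0) (ξ : X) :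
    (b4mk x y h).val ξ = 2 / (om y x) ^ 2 * (om x ξ * om ξ y * om y x) := by
  rw [b4_val]
  have h1 : 2 / (om y x) ^ 2 * (om x ξ * om ξ y * om y x) =
      (2 / om y x) * (om x ξ * om ξ y) := by
    field_simp
  rw [h1, b4_om x ξ, b4_om ξ y]
  simp only [b4mk, Arc.ev]
  ring

theorem b4mk_props (x y : X) (h : om y x ≠ 0) : (b4mk x y h).val x = 0 ∧
    (b4mk x y h).val y = 0 ∧ (∀ ξ, 0 < (b4mk x y h).val ξ ↔ cyc x ξ y) ∧
    (∀ ξ, (b4mk x y h).val ξ < 0 ↔ cyc y ξ x) := by
  have hk : 0 < 2 / (om y x) ^ 2 := by positivity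
  refine ⟨?_, ?_, ?_, ?_⟩
  · rw [b4mk_val, b4_om_self]
    ring
  · rw [b4mk_val, b4_om_self]
    ring
  · intro ξ
    rw [b4mk_val]
    unfold cyc
    constructor
    · intro h1
      exact (mul_pos_iff_of_pos_left hk).1 h1
    · intro h1
      positivity
  · intro ξ
    rw [b4mk_val]
    unfold cyc
    rw [b4_rev x ξ y]
    constructor
    · intro h1
      have h2 : 0 < 2 / (om y x) ^ 2 * -(om x ξ * om ξ y * om y x) := by linarith
      exact (mul_pos_iff_of_pos_left hk).1 h2
    · intro h1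
      have h2 : 0 < 2 / (om y x) ^ 2 * -(om x ξ * om ξ y * om y x) := by positivity
      linarith

theorem exists_arc (x y : X) (h : x ≠ y) : ∃ S : Arc, S.val x = 0 ∧ S.val y = 0 ∧
    (∀ ξ, 0 < S.val ξ ↔ cyc x ξ y) ∧ (∀ ξ, S.val ξ < 0 ↔ cyc y ξ x) :=
  ⟨b4mk x y (fun h' => h (b4_om_eq_zero h').symm), b4mk_props x y _⟩

theorem b4_ends (S : Arc) : ∃ (x y : X) (h : om y x ≠ 0), S = b4mk x y h := by
  have hS := S.h
  by_cases hp : S.p = 0
  · have hq : (S.q - 1) * (S.q + 1) = 0 := by
      rw [hp] at hS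
      linear_combination -hS
    rcases mul_eq_zero.1 hq with h | h
    · have hq1 : S.q = 1 := by linarith
      have h0 : om (OnePoint.infty : X) ((-S.r / 2 : ℝ) : X) ≠ 0 := by
        rw [b4_om]
        simp
      refine ⟨((-S.r / 2 : ℝ) : X), OnePoint.infty, h0, ?_⟩
      have h1 : om (OnePoint.infty : X) ((-S.r / 2 : ℝ) : X) = 1 := by
        rw [b4_om]
        simp
      ext
      · simp only [b4mk, h1]
        simp [hp]
      · simp only [b4mk, h1]
        simp [hq1]
      · simp only [b4mk, h1]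
        simp
        ring
    · have hq1 : S.q = -1 := by linarith
      have h1 : om ((S.r / 2 : ℝ) : X) (OnePoint.infty : X) = -1 := by
        rw [b4_om]
        simp
      have h0 : om ((S.r / 2 : ℝ) : X) (OnePoint.infty : X) ≠ 0 := by
        rw [h1]
        norm_num
      refine ⟨OnePoint.infty, ((S.r / 2 : ℝ) : X), h0, ?_⟩
      ext
      · simp only [b4mk, h1]
        simp [hp]
      · simp only [b4mk, h1]
        simp [hq1]
        norm_num
      · simp only [b4mk, h1]
        simp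
        ring
  · have h1 : om (((-S.q - 1) / S.p : ℝ) : X) (((-S.q + 1) / S.p : ℝ) : X) = -2 / S.p := by
      rw [b4_om]
      simp only [b4U_coe, b4W_coe]
      field_simp
      ring
    have h0 : om (((-S.q - 1) / S.p : ℝ) : X) (((-S.q + 1) / S.p : ℝ) : X) ≠ 0 := by
      rw [h1]
      exact div_ne_zero (by norm_num) hp
    refine ⟨(((-S.q + 1) / S.p : ℝ) : X), (((-S.q - 1) / S.p : ℝ) : X), h0, ?_⟩
    have h2 : 2 / (-2 / S.p) = -S.p := by
      field_simp
    ext
    · simp only [b4mk, h1, h2, b4U_coe, b4W_coe]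
      ring
    · simp only [b4mk, h1, h2, b4U_coe, b4W_coe]
      field_simp
      ring
    · simp only [b4mk, h1, h2, b4U_coe, b4W_coe]
      field_simp
      linear_combination hS

theorem arc_ends (S : Arc) : ∃ x y : X, x ≠ y ∧ S.val x = 0 ∧ S.val y = 0 ∧
    (∀ ξ, 0 < S.val ξ ↔ cyc x ξ y) ∧ (∀ ξ, S.val ξ < 0 ↔ cyc y ξ x) := by
  obtain ⟨x, y, h, rfl⟩ := b4_ends S
  refine ⟨x, y, ?_, b4mk_props x y h⟩
  rintro rfl
  exact h (b4_om_self x)

/-! ### inclusion of arcs -/

theorem b4_lead (A B D : ℝ) (h : ∀ s : ℝ, 0 < s → 0 < A * s ^ 2 + 2 * B * s + D) : 0 ≤ A := by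
  by_contra hA
  push Not at hA
  have hA' : 0 < -A := by linarith
  set s : ℝ := 1 + (2 * |B| + |D|) / (-A) with hs
  have h0 : 0 ≤ (2 * |B| + |D|) / (-A) := by positivity
  have hs1 : 1 ≤ s := by linarith
  have h1 := h s (by linarith)
  have hA0 : A ≠ 0 := hA.ne
  have h2 : A * s + (2 * |B| + |D|) = A := by
    rw [hs]
    field_simp
    ring
  have h3 : 2 * B * s ≤ 2 * |B| * s := by
    have := le_abs_self B
    nlinarith
  have h4 : D ≤ |D| * s := by
    have := le_abs_self D
    have := abs_nonneg D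
    nlinarith
  have h5 : A * s ^ 2 + 2 * |B| * s + |D| * s = s * A := by
    have h6 : A * s ^ 2 + 2 * |B| * s + |D| * s = s * (A * s + (2 * |B| + |D|)) := by ring
    rw [h6, h2]
  have h7 : s * A < 0 := mul_neg_of_pos_of_neg (by linarith) hA
  linarith

theorem b4_quad (A B D m : ℝ) (hm : 0 < m) (hd : A * D - B ^ 2 = -m ^ 2)
    (h : ∀ s t : ℝ, 0 < s → 0 < t → 0 < A * s ^ 2 + 2 * B * s * t + D * t ^ 2) (s t : ℝ) :
    2 * m * s * t ≤ A * s ^ 2 + 2 * B * s * t + D * t ^ 2 := by
  have hA : 0 ≤ A := b4_lead A B D fun s hs => by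
    have := h s 1 hs one_pos
    linarith
  have hD : 0 ≤ D := b4_lead D B A fun t ht => by
    have := h 1 t one_pos ht
    linarith
  have hB : m ≤ B := by
    by_contra hB
    push Not at hB
    have h1 : 0 ≤ A * D := mul_nonneg hA hD
    have h2 : B ≤ -m := by nlinarith
    rcases hA.eq_or_lt with hA0 | hA0
    · have h3 : B = -m := by nlinarith
      have h4 := h ((D + 1) / m) 1 (by positivity) one_pos
      rw [← hA0, h3] at h4
      have h5 : (0 : ℝ) * ((D + 1) / m) ^ 2 + 2 * -m * ((D + 1) / m) * 1 + D * 1 ^ 2 =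
          -D - 2 := by
        field_simp
        ring
      linarith
    · have h4 := h (-B / A) 1 (div_pos (by linarith) hA0) one_pos
      have h5 : A * (-B / A) ^ 2 + 2 * B * (-B / A) * 1 + D * 1 ^ 2 = (A * D - B ^ 2) / A := by
        field_simp
        ring
      rw [h5, hd] at h4
      have h6 : -m ^ 2 / A < 0 := div_neg_of_neg_of_pos (by nlinarith) hA0
      linarith
  rcases hA.eq_or_lt with hA0 | hA0
  · have h3 : B = m := by
      rw [← hA0] at hd
      nlinarith
    rw [← hA0, h3]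
    nlinarith [mul_nonneg hD (sq_nonneg t)]
  · have h6 : 0 ≤ A * (A * s ^ 2 + 2 * (B - m) * s * t + D * t ^ 2) := by
      have h7 : A * (A * s ^ 2 + 2 * (B - m) * s * t + D * t ^ 2) =
          (A * s + (B - m) * t) ^ 2 + 2 * m * (B - m) * t ^ 2 := by
        linear_combination t ^ 2 * hd
      rw [h7]
      have : 0 ≤ B - m := by linarith
      positivity
    have h8 := nonneg_of_mul_nonneg_right h6 hA0
    linarith

theorem b4_quad' (A B D m : ℝ) (hm : m ≠ 0) (hd : A * D - B ^ 2 = -m ^ 2)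
    (h : ∀ s t : ℝ, 0 < 2 * m * s * t → 0 < A * s ^ 2 + 2 * B * s * t + D * t ^ 2) (s t : ℝ) :
    2 * m * s * t ≤ A * s ^ 2 + 2 * B * s * t + D * t ^ 2 := by
  rcases lt_or_gt_of_ne hm with h0 | h0
  · have h1 := b4_quad A (-B) D (-m) (by linarith) (by linarith) (fun s t hs ht => by
      have h2 := h s (-t) (by
        have : 0 < 2 * (-m) * s * t := by
          have : 0 < -m := by linarith
          positivity
        linarith)
      linarith) s (-t)
    linarith
  · exact b4_quad A B D m h0 hd (fun s t hs ht => h s t (by positivity)) s t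

theorem b4_ev_smul (S : Arc) (k a b : ℝ) : S.ev (k * a) (k * b) = k ^ 2 * S.ev a b := by
  simp only [Arc.ev]
  ring

theorem arc_le_iff (S T : Arc) : S ≤ T ↔ ∀ ξ, 0 < S.val ξ → 0 < T.val ξ := by
  constructor
  · intro h ξ h1
    rw [b4_val] at *
    exact h1.trans_le (h _ _)
  · intro h
    have h1 : ∀ a b : ℝ, 0 < S.ev a b → 0 < T.ev a b := by
      intro a b hab
      have hne : a ≠ 0 ∨ b ≠ 0 := by
        by_contra hcon
        push Not at hcon
        rw [hcon.1, hcon.2] at hab
        simp [Arc.ev] at hab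
      obtain ⟨ξ, k, hk, rfl, rfl⟩ := b4_vec a b hne
      rw [b4_ev_smul, ← b4_val] at hab ⊢
      have hk2 : 0 < k ^ 2 := by positivity
      have := h ξ ((mul_pos_iff_of_pos_left hk2).1 hab)
      positivity
    obtain ⟨x, y, hxy, rfl⟩ := b4_ends S
    have hm : b4U y * b4W x - b4W y * b4U x ≠ 0 := by rwa [← b4_om]
    have eS : ∀ s t : ℝ, (b4mk x y hxy).ev (s * b4U x + t * b4U y) (s * b4W x + t * b4W y) =
        2 * (b4U y * b4W x - b4W y * b4U x) * s * t := by
      intro s t
      have h2 : 2 / om y x = 2 / (b4U y * b4W x - b4W y * b4U x) := by rw [b4_om]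
      simp only [b4mk, Arc.ev, h2]
      field_simp
      ring
    have eT : ∀ s t : ℝ, T.ev (s * b4U x + t * b4U y) (s * b4W x + t * b4W y) =
        T.ev (b4U x) (b4W x) * s ^ 2 + 2 * (T.p * (b4U x * b4U y) +
          T.q * (b4U x * b4W y + b4W x * b4U y) + T.r * (b4W x * b4W y)) * s * t +
          T.ev (b4U y) (b4W y) * t ^ 2 := by
      intro s t
      simp only [Arc.ev]
      ring
    have hT := T.h
    have hd : T.ev (b4U x) (b4W x) * T.ev (b4U y) (b4W y) - (T.p * (b4U x * b4U y) +
          T.q * (b4U x * b4W y + b4W x * b4U y) + T.r * (b4W x * b4W y)) ^ 2 =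
          -(b4U y * b4W x - b4W y * b4U x) ^ 2 := by
      simp only [Arc.ev]
      linear_combination (b4U y * b4W x - b4W y * b4U x) ^ 2 * hT
    have h2 := b4_quad' _ _ _ _ hm hd (fun s t hst => by
      rw [← eT]
      apply h1
      rw [eS]
      exact hst)
    intro a b
    set D := b4U y * b4W x - b4W y * b4U x with hD
    have ea : a = ((b4U y * b - b4W y * a) / D) * b4U x + ((b4W x * a - b4U x * b) / D) * b4U y := by
      field_simp
      rw [hD]
      ring
    have eb : b = ((b4U y * b - b4W y * a) / D) * b4W x + ((b4W x * a - b4U x * b) / D) * b4W y := by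
      field_simp
      rw [hD]
      ring
    obtain ⟨s, t, ha, hb⟩ : ∃ s t : ℝ, a = s * b4U x + t * b4U y ∧ b = s * b4W x + t * b4W y :=
      ⟨_, _, ea, eb⟩
    rw [ha, hb, eS, eT]
    exact h2 _ _

/-! ### orientation of homeomorphisms -/

theorem b4_strictMono (h : X → X) (φ : ℝ → ℝ) (h0 : h OnePoint.infty = OnePoint.infty)
    (h1 : ∀ x : ℝ, h ((x : ℝ) : X) = ((φ x : ℝ) : X)) (hφ : StrictMono φ) : OrP h := by
  have key : ∀ a b : X, ∃ k : ℝ, 0 < k ∧ om (h a) (h b) = k * om a b := by
    intro a b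
    induction a using OnePoint.rec with
    | infty =>
      induction b using OnePoint.rec with
      | infty => exact ⟨1, one_pos, by rw [h0, one_mul]⟩
      | coe y => exact ⟨1, one_pos, by rw [h0, h1]; simp [om]⟩
    | coe x =>
      induction b using OnePoint.rec with
      | infty => exact ⟨1, one_pos, by rw [h0, h1]; simp [om]⟩
      | coe y =>
        rw [h1, h1]
        simp only [om, OnePoint.elim_some]
        rcases lt_trichotomy x y with hxy | hxy | hxy
        · refine ⟨(φ x - φ y) / (x - y),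
            div_pos_of_neg_of_neg (by linarith [hφ hxy]) (by linarith), ?_⟩
          have : x - y ≠ 0 := by
            intro h'
            linarith
          field_simp
        · exact ⟨1, one_pos, by rw [hxy]; ring⟩
        · refine ⟨(φ x - φ y) / (x - y), div_pos (by linarith [hφ hxy]) (by linarith), ?_⟩
          have : x - y ≠ 0 := by
            intro h'
            linarith
          field_simp
  intro a b c habc
  obtain ⟨k1, hk1, e1⟩ := key a b
  obtain ⟨k2, hk2, e2⟩ := key b c
  obtain ⟨k3, hk3, e3⟩ := key c a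
  unfold cyc at *
  rw [e1, e2, e3]
  have : k1 * om a b * (k2 * om b c) * (k3 * om c a) =
      k1 * k2 * k3 * (om a b * om b c * om c a) := by ring
  rw [this]
  positivity

/-- moving a point to infinity -/
theorem b4_toInf (η : X) : ∃ g : GG, 0 < dt g ∧ g • η = OnePoint.infty ∧ ∃ ψ : X → ℝ,
    ∀ ζ, ζ ≠ η → ContinuousAt ψ ζ ∧ g • ζ = ((ψ ζ : ℝ) : X) := by
  induction η using OnePoint.rec with
  | infty =>
    refine ⟨1, by rw [dt_one]; exact one_pos, one_smul _ _, fun ζ => ζ.elim 0 id, ?_⟩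
    intro ζ hζ
    induction ζ using OnePoint.rec with
    | infty => exact absurd rfl hζ
    | coe x =>
      refine ⟨?_, one_smul _ _⟩
      rw [OnePoint.continuousAt_coe]
      exact continuousAt_id
  | coe y =>
    set g : GG := Matrix.GeneralLinearGroup.mkOfDetNeZero !![(0 : ℝ), -1; 1, -y]
      (by simp [Matrix.det_fin_two]) with hg
    have g00 : (g : Matrix (Fin 2) (Fin 2) ℝ) 0 0 = 0 := rfl
    have g01 : (g : Matrix (Fin 2) (Fin 2) ℝ) 0 1 = -1 := rfl
    have g10 : (g : Matrix (Fin 2) (Fin 2) ℝ) 1 0 = 1 := rfl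
    have g11 : (g : Matrix (Fin 2) (Fin 2) ℝ) 1 1 = -y := rfl
    refine ⟨g, ?_, ?_, fun ζ => ζ.elim 0 (fun z => (-1) * (z - y)⁻¹), ?_⟩
    · rw [dt, Matrix.det_fin_two, g00, g01, g10, g11]
      norm_num
    · rw [OnePoint.smul_some_eq_ite, if_pos]
      rw [g10, g11]
      ring
    · intro ζ hζ
      induction ζ using OnePoint.rec with
      | infty =>
        constructor
        · rw [OnePoint.continuousAt_infty']
          show Tendsto (fun z : ℝ => (-1) * (z - y)⁻¹) (coclosedCompact ℝ) (𝓝 0)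
          rw [coclosedCompact_eq_cocompact, ← Metric.cobounded_eq_cocompact]
          have h1 := (tendsto_inv₀_cobounded (α := ℝ)).comp (tendsto_sub_const_cobounded y)
          have h2 := h1.const_mul (-1)
          rw [mul_zero] at h2
          exact h2
        · rw [OnePoint.smul_infty_eq_ite, g10, if_neg one_ne_zero, g00]
          simp
      | coe x =>
        have hxy : x - y ≠ 0 := by
          intro h'
          apply hζ
          rw [sub_eq_zero.1 h']
        constructor
        · rw [OnePoint.continuousAt_coe]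
          show ContinuousAt (fun z : ℝ => (-1) * (z - y)⁻¹) x
          exact continuousAt_const.mul ((continuousAt_id.sub continuousAt_const).inv₀ hxy)
        · rw [OnePoint.smul_some_eq_ite, g00, g01, g10, g11, if_neg (by
            intro h'
            apply hxy
            linarith)]
          simp only [OnePoint.elim_some]
          congr 1
          rw [div_eq_mul_inv]
          ring_nf

theorem b4_OrP_smul (g : GG) (hg : 0 < dt g) (f : X → X) (h : OrP fun ξ => g • f ξ) : OrP f := by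
  have hi : 0 < dt g⁻¹ := by
    have h1 : dt g * dt g⁻¹ = 1 := by rw [← dt_mul, mul_inv_cancel, dt_one]
    by_contra hc
    push Not at hc
    nlinarith
  intro a b c habc
  have h2 := cyc_smul_pos g⁻¹ hi _ _ _ (h a b c habc)
  simpa only [inv_smul_smul] using h2

theorem b4_OrN_smul (g : GG) (hg : dt g < 0) (f : X → X) (h : OrP fun ξ => g • f ξ) : OrN f := by
  have hi : dt g⁻¹ < 0 := by
    have h1 : dt g * dt g⁻¹ = 1 := by rw [← dt_mul, mul_inv_cancel, dt_one]
    by_contra hc
    push Not at hc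
    nlinarith
  intro a b c habc
  have h2 := cyc_smul_neg g⁻¹ hi _ _ _ (h a b c habc)
  simpa only [inv_smul_smul] using h2

theorem orient (f : X ≃ₜ X) : OrP f ∨ OrN f := by
  obtain ⟨g, hg, hgi, ψ, hψ⟩ := b4_toInf (f OnePoint.infty)
  have hne : ∀ x : ℝ, f ((x : ℝ) : X) ≠ f OnePoint.infty := fun x h =>
    OnePoint.coe_ne_infty x (f.injective h)
  set φ : ℝ → ℝ := fun x => ψ (f ((x : ℝ) : X)) with hφ
  have hφc : Continuous φ := by
    rw [continuous_iff_continuousAt]
    intro x
    exact ContinuousAt.comp (g := ψ) (f := fun x : ℝ => f ((x : ℝ) : X)) (hψ _ (hne x)).1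
      (f.continuous.comp OnePoint.continuous_coe).continuousAt
  have hφi : Function.Injective φ := by
    intro x y hxy
    have h1 : g • f ((x : ℝ) : X) = g • f ((y : ℝ) : X) := by
      rw [(hψ _ (hne x)).2, (hψ _ (hne y)).2]
      exact congrArg _ hxy
    have h2 := f.injective (MulAction.injective g h1)
    exact OnePoint.coe_injective h2
  rcases hφc.strictMono_of_inj hφi with hm | hm
  · left
    refine b4_OrP_smul g hg f (b4_strictMono _ φ hgi (fun x => (hψ _ (hne x)).2) hm)
  · right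
    set ρ : GG := Matrix.GeneralLinearGroup.mkOfDetNeZero !![(-1 : ℝ), 0; 0, 1]
      (by simp [Matrix.det_fin_two]) with hρ
    have r00 : (ρ : Matrix (Fin 2) (Fin 2) ℝ) 0 0 = -1 := rfl
    have r01 : (ρ : Matrix (Fin 2) (Fin 2) ℝ) 0 1 = 0 := rfl
    have r10 : (ρ : Matrix (Fin 2) (Fin 2) ℝ) 1 0 = 0 := rfl
    have r11 : (ρ : Matrix (Fin 2) (Fin 2) ℝ) 1 1 = 1 := rfl
    have hdρ : dt ρ = -1 := by
      rw [dt, Matrix.det_fin_two, r00, r01, r10, r11]
      norm_num
    have hd : dt (ρ * g) < 0 := by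
      rw [dt_mul, hdρ]
      linarith
    refine b4_OrN_smul (ρ * g) hd f (b4_strictMono _ (fun x => -φ x) ?_ ?_ ?_)
    · show (ρ * g) • f OnePoint.infty = OnePoint.infty
      rw [mul_smul, hgi, OnePoint.smul_infty_eq_ite, if_pos r10]
    · intro x
      show (ρ * g) • f ((x : ℝ) : X) = ((-φ x : ℝ) : X)
      rw [mul_smul, (hψ _ (hne x)).2, OnePoint.smul_some_eq_ite, r00, r01, r10, r11]
      simp [hφ]
    · intro x y hxy
      have := hm hxy
      show -φ x < -φ y
      linarith

end Pool.Agent.H100R2.SC
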