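import Pool.Agent.H100R2.SC.Defs

/-!
# The four arcs inequality, the orientation `Del` on disjoint arcs

Spinor coordinates: an arc is `v ↦ 2 ω(a,v) ω(v,b)` with `ω(a,b) = 1`.  Then
`kap S T = ω(a,c) ω(b,d)`, disjointness means that `ω(a,c)`, `ω(b,d)`, `ω(a,d)`, `ω(b,c)` have the same
sign, and everything follows from the Pluecker relations.
-/

set_option autoImplicit false

namespace Pool.Agent.H100R2.SC

namespace B6

/-- the symplectic form of the plane -/
def w (u v : ℝ × ℝ) : ℝ := u.1 * v.2 - u.2 * v.1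

/-- spinor coordinates of an arc -/
structure Sp (S : Arc) (a b : ℝ × ℝ) : Prop where
  w1 : a.1 * b.2 - a.2 * b.1 = 1
  p : S.p = -2 * a.2 * b.2
  q : S.q = a.1 * b.2 + a.2 * b.1
  r : S.r = -2 * a.1 * b.1

lemma exists_sp (S : Arc) : ∃ a b : ℝ × ℝ, Sp S a b := by
  have h := S.h
  by_cases hp : S.p = 0
  · have hq : (S.q - 1) * (S.q + 1) = 0 := by rw [hp] at h; linarith [h]
    rcases mul_eq_zero.1 hq with h1 | h1
    · refine ⟨(1, 0), (-S.r / 2, 1), ?_, ?_, ?_, ?_⟩
      · simp
      · simp [hp]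
      · simp; linarith
      · simp; ring
    · refine ⟨(S.r / 2, 1), (-1, 0), ?_, ?_, ?_, ?_⟩
      · simp
      · simp [hp]
      · simp; linarith
      · simp; ring
  · refine ⟨(-(S.q + 1) / S.p, 1), ((S.q - 1) / 2, -S.p / 2), ?_, ?_, ?_, ?_⟩
    · simp only; field_simp; ring
    · simp only; ring
    · simp only; field_simp; ring
    · simp only
      field_simp
      linarith [h]

lemma Sp.flip {S : Arc} {a b : ℝ × ℝ} (h : Sp S a b) : Sp S (-a) (-b) := by
  refine ⟨?_, ?_, ?_, ?_⟩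
  · simp only [Prod.fst_neg, Prod.snd_neg]; linarith [h.w1]
  · simp only [Prod.fst_neg, Prod.snd_neg]; linarith [h.p]
  · simp only [Prod.fst_neg, Prod.snd_neg]; linarith [h.q]
  · simp only [Prod.fst_neg, Prod.snd_neg]; linarith [h.r]

lemma w_neg_right (u v : ℝ × ℝ) : w u (-v) = - w u v := by
  simp only [w, Prod.fst_neg, Prod.snd_neg]; ring

lemma w_neg_left (u v : ℝ × ℝ) : w (-u) v = - w u v := by
  simp only [w, Prod.fst_neg, Prod.snd_neg]; ring

lemma ev_eq {S : Arc} {a b : ℝ × ℝ} (h : Sp S a b) (v : ℝ × ℝ) :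
    S.ev v.1 v.2 = 2 * w a v * w v b := by
  simp only [Arc.ev, h.p, h.q, h.r, w]; ring

lemma kap_eq {S T : Arc} {a b c d : ℝ × ℝ} (hS : Sp S a b) (hT : Sp T c d) :
    kap S T = w a c * w b d := by
  have e : (a.1 * b.2 - a.2 * b.1) * (c.1 * d.2 - c.2 * d.1) = 1 := by rw [hS.w1, hT.w1]; ring
  simp only [kap, BB, hS.p, hS.q, hS.r, hT.p, hT.q, hT.r, w]
  linear_combination (-1 / 2) * e

lemma pl {S T : Arc} {a b c d : ℝ × ℝ} (hS : Sp S a b) (hT : Sp T c d) :
    w a c * w b d = 1 + w a d * w b c := by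
  have e : (a.1 * b.2 - a.2 * b.1) * (c.1 * d.2 - c.2 * d.1) = 1 := by rw [hS.w1, hT.w1]; ring
  simp only [w]
  linear_combination e

lemma BB_le {S T : Arc} (h : S ≤ -T) : BB S T ≤ -1 := by
  have h1 : ∀ x y, S.ev x y + T.ev x y ≤ 0 := by
    intro x y
    have := h x y
    rw [Arc.ev_neg] at this
    linarith
  have hS := S.h
  have hT := T.h
  -- the form `S + T` is negative semidefinite
  have hP : S.p + T.p ≤ 0 := by have := h1 1 0; simp only [Arc.ev] at this; linarith
  have hR : S.r + T.r ≤ 0 := by have := h1 0 1; simp only [Arc.ev] at this; linarith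
  have hdet : (S.q + T.q) ^ 2 ≤ (S.p + T.p) * (S.r + T.r) := by
    have a1 := h1 (-(S.q + T.q)) (S.p + T.p)
    have a2 := h1 (S.r + T.r) (-(S.q + T.q))
    have b1 : (S.p + T.p) * ((S.p + T.p) * (S.r + T.r) - (S.q + T.q) ^ 2) ≤ 0 := by
      simp only [Arc.ev] at a1; nlinarith
    have b2 : (S.r + T.r) * ((S.p + T.p) * (S.r + T.r) - (S.q + T.q) ^ 2) ≤ 0 := by
      simp only [Arc.ev] at a2; nlinarith
    by_contra hc
    push Not at hc
    have hP0 : S.p + T.p = 0 := by
      rcases hP.lt_or_eq with h' | h'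
      · nlinarith
      · exact h'
    have hR0 : S.r + T.r = 0 := by
      rcases hR.lt_or_eq with h' | h'
      · nlinarith
      · exact h'
    have c1 := h1 1 (S.q + T.q)
    have hz : S.q + T.q ≠ 0 := by
      intro h0
      rw [hP0, h0] at hc
      norm_num at hc
    have hpos : 0 < (S.q + T.q) ^ 2 := by positivity
    simp only [Arc.ev] at c1
    nlinarith
  unfold BB
  nlinarith

end B6

open B6

theorem kap_ge (S T : Arc) (h : S ≤ -T) : 1 ≤ kap S T := by
  have := BB_le h
  unfold kap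
  linarith

lemma B6.exists_zero (S : Arc) : ∃ ξ : X, S.val ξ = 0 := by
  by_cases hp : S.p = 0
  · exact ⟨OnePoint.infty, hp⟩
  · refine ⟨(((1 - S.q) / S.p : ℝ) : X), ?_⟩
    show S.ev ((1 - S.q) / S.p) 1 = 0
    have h := S.h
    simp only [Arc.ev]
    field_simp
    linarith

theorem BB_lt (S T : Arc) (h : S ≤ -T) (hne : ∀ ξ : X, ¬ (S.val ξ = 0 ∧ T.val ξ = 0)) :
    BB S T < -1 := by
  rcases (BB_le h).lt_or_eq with h1 | h1
  · exact h1
  exfalso
  have hS := S.h
  have hT := T.h
  have hB : S.p * T.r + S.r * T.p - 2 * S.q * T.q = 2 := by unfold BB at h1; linarith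
  have hPR : (S.p + T.p) * (S.r + T.r) = (S.q + T.q) ^ 2 := by nlinarith
  by_cases hP : S.p + T.p = 0
  · have hQ : S.q + T.q = 0 := by
      rw [hP, zero_mul] at hPR
      exact pow_eq_zero_iff (two_ne_zero) |>.1 hPR.symm
    by_cases hR : S.r + T.r = 0
    · obtain ⟨ξ, hξ⟩ := B6.exists_zero S
      refine hne ξ ⟨hξ, ?_⟩
      have hTS : T = -S := by
        ext
        · simp; linarith
        · simp; linarith
        · simp; linarith
      rw [hTS]
      have : (-S).val ξ = - S.val ξ := by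
        cases ξ using OnePoint.rec with
        | infty => rfl
        | coe x => exact Arc.ev_neg S x 1
      rw [this, hξ, neg_zero]
    · have hSp : S.p * (S.r + T.r) = 0 := by
        have e1 : T.p = -S.p := by linarith
        have e2 : T.q = -S.q := by linarith
        rw [e1, e2] at hT
        nlinarith
      have hSp0 : S.p = 0 := (mul_eq_zero.1 hSp).resolve_right hR
      refine hne OnePoint.infty ⟨hSp0, ?_⟩
      show T.p = 0
      linarith
  · have key : ∀ Z : Arc, Z.p * (S.r + T.r) - 2 * Z.q * (S.q + T.q) + Z.r * (S.p + T.p) = 0 →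
        Z.val ((-(S.q + T.q) / (S.p + T.p) : ℝ) : X) = 0 := by
      intro Z hZ
      show Z.ev (-(S.q + T.q) / (S.p + T.p)) 1 = 0
      simp only [Arc.ev]
      field_simp
      have e : Z.p * (S.q + T.q) ^ 2 = Z.p * ((S.p + T.p) * (S.r + T.r)) := by rw [hPR]
      have e2 : (S.p + T.p) * (Z.p * (S.r + T.r) - 2 * Z.q * (S.q + T.q) + Z.r * (S.p + T.p)) = 0 := by
        rw [hZ, mul_zero]
      linarith
    refine hne _ ⟨key S ?_, key T ?_⟩
    · nlinarith
    · nlinarith

namespace B6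

/-- all four products are positive -/
structure Pos (a b c d : ℝ × ℝ) : Prop where
  ac : 0 < w a c
  bd : 0 < w b d
  ad : 0 ≤ w a d
  bc : 0 ≤ w b c

/-- all four products are negative -/
structure Ngt (a b c d : ℝ × ℝ) : Prop where
  ac : w a c < 0
  bd : w b d < 0
  ad : w a d ≤ 0
  bc : w b c ≤ 0

lemma Ngt.flip {a b c d : ℝ × ℝ} (h : Ngt a b c d) : Pos a b (-c) (-d) := by
  refine ⟨?_, ?_, ?_, ?_⟩
  · rw [w_neg_right]; linarith [h.ac]
  · rw [w_neg_right]; linarith [h.bd]
  · rw [w_neg_right]; linarith [h.ad]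
  · rw [w_neg_right]; linarith [h.bc]

lemma dich {S T : Arc} {a b c d : ℝ × ℝ} (hS : Sp S a b) (hT : Sp T c d) (h : S ≤ -T) :
    Pos a b c d ∨ Ngt a b c d := by
  have h1 : ∀ v : ℝ × ℝ, S.ev v.1 v.2 + T.ev v.1 v.2 ≤ 0 := by
    intro v
    have := h v.1 v.2
    rw [Arc.ev_neg] at this
    linarith
  have hk := kap_ge S T h
  rw [kap_eq hS hT] at hk
  have ww : ∀ u : ℝ × ℝ, w u u = 0 := by intro u; simp only [w]; ring
  have wc : ∀ u v : ℝ × ℝ, w v u = - w u v := by intro u v; simp only [w]; ring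
  have e1 := h1 c
  have e2 := h1 d
  have e3 := h1 a
  have e4 := h1 b
  rw [ev_eq hS, ev_eq hT] at e1 e2 e3 e4
  rw [ww, wc b c] at e1
  rw [ww, wc b d] at e2
  rw [ww, wc a c] at e3
  rw [ww, wc b c] at e4
  have f1 : 0 ≤ w a c * w b c := by nlinarith
  have f2 : 0 ≤ w a d * w b d := by nlinarith
  have f3 : 0 ≤ w a c * w a d := by nlinarith
  have f4 : 0 ≤ w b c * w b d := by nlinarith
  have hne : w a c ≠ 0 := by
    intro h0
    rw [h0] at hk
    norm_num at hk
  rcases lt_or_gt_of_ne hne with hx | hx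
  · right
    have hy : w b d < 0 := by nlinarith
    refine ⟨hx, hy, ?_, ?_⟩
    · by_contra hc
      push Not at hc
      nlinarith
    · by_contra hc
      push Not at hc
      nlinarith
  · left
    have hy : 0 < w b d := by
      by_contra hc
      push Not at hc
      nlinarith
    refine ⟨hx, hy, ?_, ?_⟩
    · by_contra hc
      push Not at hc
      nlinarith
    · by_contra hc
      push Not at hc
      nlinarith

/-- spinor coordinates of a disjoint arc with positive sign -/
lemma exists_pos {S : Arc} {a b : ℝ × ℝ} (hS : Sp S a b) {T : Arc} (h : S ≤ -T) :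
    ∃ c d, Sp T c d ∧ Pos a b c d := by
  obtain ⟨c, d, hT⟩ := exists_sp T
  rcases dich hS hT h with h1 | h1
  · exact ⟨c, d, hT, h1⟩
  · exact ⟨-c, -d, hT.flip, h1.flip⟩

lemma Del_eq {S T U : Arc} {a b c d e f : ℝ × ℝ} (hS : Sp S a b) (hT : Sp T c d) (hU : Sp U e f) :
    Del S T U = -(w a c * w d e * w b f + w a c * w d f * w b e + w a d * w c e * w b f +
      w a d * w c f * w b e + w b c * w d e * w a f + w b c * w d f * w a e +
      w b d * w c e * w a f + w b d * w c f * w a e) := by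
  simp only [Del, hS.p, hS.q, hS.r, hT.p, hT.q, hT.r, hU.p, hU.q, hU.r, w]
  ring

lemma pl1 {S : Arc} {a b : ℝ × ℝ} (hS : Sp S a b) (u v : ℝ × ℝ) :
    w u v = w a u * w b v - w a v * w b u := by
  have h := hS.w1
  simp only [w]
  linear_combination (-(u.1 * v.2 - u.2 * v.1)) * h

lemma Del_neg_of_pos {S T U : Arc} {a b c d e f : ℝ × ℝ} (hS : Sp S a b) (hT : Sp T c d)
    (hU : Sp U e f) (h1 : Pos a b c d) (h2 : Pos a b e f) (h3 : Pos c d e f) : Del S T U < 0 := by
  rw [Del_eq hS hT hU]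
  have e1 := pl1 hS d e
  have h4 : 0 < w a d := by
    have := mul_pos h1.bd h2.ac
    have h5 := h3.bc
    rcases h1.ad.lt_or_eq with h6 | h6
    · exact h6
    · rw [← h6] at e1; nlinarith
  have t1 := mul_nonneg (mul_nonneg h1.ac.le h3.bc) h2.bd.le
  have t2 := mul_nonneg (mul_nonneg h1.ac.le h3.bd.le) h2.bc
  have t3 := mul_pos (mul_pos h4 h3.ac) h2.bd
  have t4 := mul_nonneg (mul_nonneg h1.ad h3.ad) h2.bc
  have t5 := mul_nonneg (mul_nonneg h1.bc h3.bc) h2.ad
  have t6 := mul_nonneg (mul_nonneg h1.bc h3.bd.le) h2.ac.le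
  have t7 := mul_nonneg (mul_nonneg h1.bd.le h3.ac.le) h2.ad
  have t8 := mul_nonneg (mul_nonneg h1.bd.le h3.ad) h2.ac.le
  linarith

lemma Del_pos_of_neg {S T U : Arc} {a b c d e f : ℝ × ℝ} (hS : Sp S a b) (hT : Sp T c d)
    (hU : Sp U e f) (h1 : Pos a b c d) (h2 : Pos a b e f) (h3 : Ngt c d e f) : 0 < Del S T U := by
  rw [Del_eq hS hT hU]
  have e1 := pl1 hS c f
  have h4 : 0 < w b c := by
    have := mul_pos h1.ac h2.bd
    have h5 := h3.ad
    rcases h1.bc.lt_or_eq with h6 | h6
    · exact h6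
    · rw [← h6] at e1; nlinarith
  have n1 : 0 < -(w c e) := by linarith [h3.ac]
  have n2 : 0 < -(w d f) := by linarith [h3.bd]
  have n3 : 0 ≤ -(w c f) := by linarith [h3.ad]
  have n4 : 0 ≤ -(w d e) := by linarith [h3.bc]
  have t1 := mul_nonneg (mul_nonneg h1.ac.le n4) h2.bd.le
  have t2 := mul_nonneg (mul_nonneg h1.ac.le n2.le) h2.bc
  have t3 := mul_nonneg (mul_nonneg h1.ad n1.le) h2.bd.le
  have t4 := mul_nonneg (mul_nonneg h1.ad n3) h2.bc
  have t5 := mul_nonneg (mul_nonneg h1.bc n4) h2.ad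
  have t6 := mul_pos (mul_pos h4 n2) h2.ac
  have t7 := mul_nonneg (mul_nonneg h1.bd.le n1.le) h2.ad
  have t8 := mul_nonneg (mul_nonneg h1.bd.le n3) h2.ac.le
  linarith

lemma neg_of_Del {S T U : Arc} {a b c d e f : ℝ × ℝ} (hS : Sp S a b) (hT : Sp T c d)
    (hU : Sp U e f) (h1 : Pos a b c d) (h2 : Pos a b e f) (h : T ≤ -U) (hD : 0 < Del S T U) :
    Ngt c d e f := by
  rcases dich hT hU h with h3 | h3
  · have := Del_neg_of_pos hS hT hU h1 h2 h3
    linarith
  · exact h3

lemma Del_rot (S T U : Arc) : Del U S T = Del S T U := by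
  unfold Del; ring

lemma plu (a b c d : ℝ × ℝ) : w a c * w b d = w a b * w c d + w b c * w a d := by
  simp only [w]; ring

/-- vector of a point of the circle -/
def vec (ξ : X) : ℝ × ℝ := ξ.elim (1, 0) fun x => (x, 1)

lemma om_eq (a b : X) : om a b = w (vec a) (vec b) := by
  cases a using OnePoint.rec with
  | infty =>
    cases b using OnePoint.rec with
    | infty => simp [om, w, vec]
    | coe y => simp [om, w, vec]
  | coe x =>
    cases b using OnePoint.rec with
    | infty => simp [om, w, vec]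
    | coe y => simp [om, w, vec]

lemma val_eq (S : Arc) (a : X) : S.val a = S.ev (vec a).1 (vec a).2 := by
  cases a using OnePoint.rec with
  | infty => simp [Arc.val, vec, Arc.ev]
  | coe x => simp [Arc.val, vec]

lemma w_expand {S T : Arc} {a b c d : ℝ × ℝ} (hS : Sp S a b) (hT : Sp T c d) (v u : ℝ × ℝ) :
    w v u = w v b * w u d * w a c + w v b * w c u * w a d + w a v * w u d * w b c +
      w a v * w c u * w b d := by
  have h1 := hS.w1
  have h2 := hT.w1
  have e1 : v.1 = w v b * a.1 + w a v * b.1 := by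
    simp only [w]; linear_combination (-v.1) * h1
  have e2 : v.2 = w v b * a.2 + w a v * b.2 := by
    simp only [w]; linear_combination (-v.2) * h1
  have e3 : u.1 = w u d * c.1 + w c u * d.1 := by
    simp only [w]; linear_combination (-u.1) * h2
  have e4 : u.2 = w u d * c.2 + w c u * d.2 := by
    simp only [w]; linear_combination (-u.2) * h2
  generalize w v b = α at *
  generalize w a v = β at *
  generalize w u d = γ at *
  generalize w c u = δ at *
  simp only [w]
  rw [e1, e2, e3, e4]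
  ring

lemma w_pos {S T : Arc} {a b c d : ℝ × ℝ} (hS : Sp S a b) (hT : Sp T c d) (h : Pos a b c d)
    {v u : ℝ × ℝ} (hv : 0 < w a v * w v b) (hu : 0 < w c u * w u d) :
    0 < w v b * w u d * w v u := by
  rw [w_expand hS hT v u]
  have hvb : w v b ≠ 0 := by
    intro h0; rw [h0, mul_zero] at hv; exact lt_irrefl _ hv
  have hud : w u d ≠ 0 := by
    intro h0; rw [h0, mul_zero] at hu; exact lt_irrefl _ hu
  have e : w v b * w u d * (w v b * w u d * w a c + w v b * w c u * w a d + w a v * w u d * w b c +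
      w a v * w c u * w b d) = (w v b * w u d) ^ 2 * w a c + (w v b) ^ 2 * (w c u * w u d) * w a d +
      (w u d) ^ 2 * (w a v * w v b) * w b c + (w a v * w v b) * (w c u * w u d) * w b d := by ring
  rw [e]
  have t1 : 0 < (w v b * w u d) ^ 2 * w a c := mul_pos (by positivity) h.ac
  have t2 : 0 ≤ (w v b) ^ 2 * (w c u * w u d) * w a d := mul_nonneg (by positivity) h.ad
  have t3 : 0 ≤ (w u d) ^ 2 * (w a v * w v b) * w b c := mul_nonneg (by positivity) h.bc
  have t4 : 0 < (w a v * w v b) * (w c u * w u d) * w b d := mul_pos (by positivity) h.bd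
  linarith

lemma w_neg {S T : Arc} {a b c d : ℝ × ℝ} (hS : Sp S a b) (hT : Sp T c d) (h : Ngt a b c d)
    {v u : ℝ × ℝ} (hv : 0 < w a v * w v b) (hu : 0 < w c u * w u d) :
    w v b * w u d * w v u < 0 := by
  have h1 := w_pos hS hT.flip h.flip (v := v) (u := u) hv (by
    rw [w_neg_left, w_neg_right]
    linarith)
  rw [w_neg_right] at h1
  linarith

end B6

open B6

theorem quad (S T U V : Arc) (h1 : S ≤ -T) (h2 : S ≤ -U) (h3 : S ≤ -V) (h4 : T ≤ -U) (h5 : T ≤ -V)
    (h6 : U ≤ -V) (c1 : 0 < Del S T U) (c2 : 0 < Del U V S) :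
    kap S T * kap U V + kap T U * kap V S < kap S U * kap T V := by
  obtain ⟨a, b, hS⟩ := exists_sp S
  obtain ⟨c, d, hT, pT⟩ := exists_pos hS h1
  obtain ⟨e, f, hU, pU⟩ := exists_pos hS h2
  obtain ⟨g, k, hV, pV⟩ := exists_pos hS h3
  have n1 := neg_of_Del hS hT hU pT pU h4 c1
  have c2' : 0 < Del S U V := by
    have := Del_rot U V S
    rw [← this] at c2
    exact c2
  have n2 := neg_of_Del hS hU hV pU pV h6 c2'
  have kVS : kap V S = w a g * w b k := by
    rw [kap_eq hV hS]
    simp only [w]; ring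
  rw [kap_eq hS hT, kap_eq hU hV, kap_eq hT hU, kVS, kap_eq hS hU, kap_eq hT hV]
  have p1 := plu a c e g
  have p2 := plu b d f k
  have X1 : 0 < (w a c * w e g) * (w d f * w b k) := by
    have := mul_pos_of_neg_of_neg n2.ac n1.bd
    have := mul_pos this (mul_pos pT.ac pV.bd)
    linarith
  have Y1 : 0 < (w c e * w a g) * (w b d * w f k) := by
    have := mul_pos_of_neg_of_neg n1.ac n2.bd
    have := mul_pos this (mul_pos pV.ac pT.bd)
    linarith
  have e1 : w a e * w b f * (w c g * w d k) = (w a e * w c g) * (w b f * w d k) := by ring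
  rw [e1, p1, p2]
  nlinarith

theorem Del_ne (S T U : Arc) (h1 : S ≤ -T) (h2 : S ≤ -U) (h4 : T ≤ -U) : Del S T U ≠ 0 := by
  obtain ⟨a, b, hS⟩ := exists_sp S
  obtain ⟨c, d, hT, pT⟩ := exists_pos hS h1
  obtain ⟨e, f, hU, pU⟩ := exists_pos hS h2
  rcases dich hT hU h4 with h | h
  · exact (Del_neg_of_pos hS hT hU pT pU h).ne
  · exact (Del_pos_of_neg hS hT hU pT pU h).ne'

theorem Del_trans (S T U V : Arc) (h1 : S ≤ -T) (h2 : S ≤ -U) (h3 : S ≤ -V) (h4 : T ≤ -U)
    (h5 : T ≤ -V) (h6 : U ≤ -V) (c1 : 0 < Del S T U) (c2 : 0 < Del S U V) : 0 < Del S T V := by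
  obtain ⟨a, b, hS⟩ := exists_sp S
  obtain ⟨c, d, hT, pT⟩ := exists_pos hS h1
  obtain ⟨e, f, hU, pU⟩ := exists_pos hS h2
  obtain ⟨g, k, hV, pV⟩ := exists_pos hS h3
  have n1 := neg_of_Del hS hT hU pT pU h4 c1
  have n2 := neg_of_Del hS hU hV pU pV h6 c2
  rcases dich hT hV h5 with h | h
  · exfalso
    have p1 := plu a c e g
    have := mul_pos pU.ac h.ac
    have := mul_neg_of_pos_of_neg pT.ac n2.ac
    have := mul_neg_of_neg_of_pos n1.ac pV.ac
    linarith
  · exact Del_pos_of_neg hS hT hV pT pV h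

theorem Del_cyc (S T U : Arc) (h1 : S ≤ -T) (h2 : S ≤ -U) (h4 : T ≤ -U) (a b c : X)
    (ha : 0 < S.val a) (hb : 0 < T.val b) (hc : 0 < U.val c) : 0 < Del S T U ↔ cyc a b c := by
  obtain ⟨a1, b1, hS⟩ := exists_sp S
  obtain ⟨c1, d1, hT, pT⟩ := exists_pos hS h1
  obtain ⟨e1, f1, hU, pU⟩ := exists_pos hS h2
  rw [val_eq, ev_eq hS] at ha
  rw [val_eq, ev_eq hT] at hb
  rw [val_eq, ev_eq hU] at hc
  unfold cyc
  rw [om_eq, om_eq, om_eq]
  generalize vec a = v at *
  generalize vec b = u at *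
  generalize vec c = t at *
  have hv : 0 < w a1 v * w v b1 := by linarith
  have hu : 0 < w c1 u * w u d1 := by linarith
  have ht : 0 < w e1 t * w t f1 := by linarith
  have q1 := w_pos hS hT pT hv hu
  have q2 := w_pos hS hU pU hv ht
  have hvb : w v b1 ≠ 0 := by
    intro h0; rw [h0, mul_zero] at hv; exact lt_irrefl _ hv
  have hud : w u d1 ≠ 0 := by
    intro h0; rw [h0, mul_zero] at hu; exact lt_irrefl _ hu
  have htf : w t f1 ≠ 0 := by
    intro h0; rw [h0, mul_zero] at ht; exact lt_irrefl _ ht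
  have hsq : 0 < (w v b1 * w u d1 * w t f1) ^ 2 := by positivity
  have htv : w t v = - w v t := by simp only [w]; ring
  rw [htv]
  rcases dich hT hU h4 with h | h
  · have q3 := w_pos hT hU h hu ht
    have hD := Del_neg_of_pos hS hT hU pT pU h
    constructor
    · intro h'; linarith
    · intro h'
      exfalso
      have e : (w v b1 * w u d1 * w v u) * (w u d1 * w t f1 * w u t) * (w v b1 * w t f1 * w v t) =
          -((w v b1 * w u d1 * w t f1) ^ 2 * (w v u * w u t * -w v t)) := by ring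
      have := mul_pos (mul_pos q1 q3) q2
      rw [e] at this
      have := mul_pos hsq h'
      linarith
  · have q3 := w_neg hT hU h hu ht
    have hD := Del_pos_of_neg hS hT hU pT pU h
    constructor
    · intro _
      have e : (w v b1 * w u d1 * w v u) * (w u d1 * w t f1 * w u t) * (w v b1 * w t f1 * w v t) =
          -((w v b1 * w u d1 * w t f1) ^ 2 * (w v u * w u t * -w v t)) := by ring
      have h7 := mul_neg_of_neg_of_pos (mul_neg_of_pos_of_neg q1 q3) q2
      rw [e] at h7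
      by_contra hc'
      push Not at hc'
      have := mul_nonneg_of_nonpos_of_nonpos (a := -(w v b1 * w u d1 * w t f1) ^ 2)
        (by linarith) hc'
      nlinarith
    · intro _; exact hD

end Pool.Agent.H100R2.SC
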