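import Pool.Agent.H100R2.SC.Defs

/-! Task B7: common perpendicular reflection, trace estimate. -/

set_option autoImplicit false

namespace Pool.Agent.H100R2.SC

open Filter Topology

/-- the matrix of the reflection exchanging the sides of two disjoint geodesics: the normalised
commutator of the traceless matrices of `S` and `T` -/
noncomputable def B7_M (S T : Arc) (s : ℝ) : Matrix (Fin 2) (Fin 2) ℝ :=
  !![s * (S.p * T.r - S.r * T.p) / 2, s * (S.q * T.r - S.r * T.q);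
    s * (S.q * T.p - S.p * T.q), -(s * (S.p * T.r - S.r * T.p) / 2)]

theorem exists_refl (S T : Arc) (h : BB S T < -1) :
    ∃ ρ : GG, dt ρ = -1 ∧ ρ • S = S ∧ ρ • T = T ∧ ρ * ρ = 1 := by
  have hk : 0 < BB S T ^ 2 - 1 := by nlinarith
  set s : ℝ := 1 / √(BB S T ^ 2 - 1) with hs0
  have hs : s ^ 2 * (BB S T ^ 2 - 1) = 1 := by
    rw [hs0, div_pow, Real.sq_sqrt hk.le]
    field_simp
  unfold BB at hs
  have huw : (S.p * S.r - S.q ^ 2) * (T.p * T.r - T.q ^ 2) = 1 := by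
    rw [S.h, T.h]; norm_num
  clear_value s
  have hdet : (B7_M S T s).det = -1 := by
    unfold B7_M
    rw [Matrix.det_fin_two_of]
    linear_combination -hs + s ^ 2 * huw
  set ρ : GG := Matrix.GeneralLinearGroup.mkOfDetNeZero (B7_M S T s)
    (by rw [hdet]; norm_num) with hρ
  have hco : (ρ : Matrix (Fin 2) (Fin 2) ℝ) = B7_M S T s := rfl
  have e00 : (ρ : Matrix (Fin 2) (Fin 2) ℝ) 0 0 = s * (S.p * T.r - S.r * T.p) / 2 := rfl
  have e01 : (ρ : Matrix (Fin 2) (Fin 2) ℝ) 0 1 = s * (S.q * T.r - S.r * T.q) := rfl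
  have e10 : (ρ : Matrix (Fin 2) (Fin 2) ℝ) 1 0 = s * (S.q * T.p - S.p * T.q) := rfl
  have e11 : (ρ : Matrix (Fin 2) (Fin 2) ℝ) 1 1 = -(s * (S.p * T.r - S.r * T.p) / 2) := rfl
  have hdt : dt ρ = -1 := by
    unfold dt
    rw [hco, hdet]
  refine ⟨ρ, hdt, ?_, ?_, ?_⟩
  · apply Arc.ext_ev
    intro x y
    rw [smul_ev, hdt, e00, e01, e10, e11, abs_neg, abs_one, div_one]
    unfold Arc.ev
    linear_combination (S.p * x ^ 2 + 2 * S.q * x * y + S.r * y ^ 2) * hs -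
      s ^ 2 * (S.p * x ^ 2 + 2 * S.q * x * y + S.r * y ^ 2) * huw
  · apply Arc.ext_ev
    intro x y
    rw [smul_ev, hdt, e00, e01, e10, e11, abs_neg, abs_one, div_one]
    unfold Arc.ev
    linear_combination (T.p * x ^ 2 + 2 * T.q * x * y + T.r * y ^ 2) * hs -
      s ^ 2 * (T.p * x ^ 2 + 2 * T.q * x * y + T.r * y ^ 2) * huw
  · apply Matrix.GeneralLinearGroup.ext
    intro i j
    have hm : ((ρ * ρ : GG) : Matrix (Fin 2) (Fin 2) ℝ) =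
      (ρ : Matrix (Fin 2) (Fin 2) ℝ) * (ρ : Matrix (Fin 2) (Fin 2) ℝ) := rfl
    rw [hm, Matrix.mul_apply, Fin.sum_univ_two]
    fin_cases i <;> fin_cases j
    · show (ρ : Matrix (Fin 2) (Fin 2) ℝ) 0 0 * (ρ : Matrix (Fin 2) (Fin 2) ℝ) 0 0 +
        (ρ : Matrix (Fin 2) (Fin 2) ℝ) 0 1 * (ρ : Matrix (Fin 2) (Fin 2) ℝ) 1 0 = 1
      rw [e00, e01, e10]
      linear_combination hs - s ^ 2 * huw
    · show (ρ : Matrix (Fin 2) (Fin 2) ℝ) 0 0 * (ρ : Matrix (Fin 2) (Fin 2) ℝ) 0 1 +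
        (ρ : Matrix (Fin 2) (Fin 2) ℝ) 0 1 * (ρ : Matrix (Fin 2) (Fin 2) ℝ) 1 1 = 0
      rw [e00, e01, e11]
      ring
    · show (ρ : Matrix (Fin 2) (Fin 2) ℝ) 1 0 * (ρ : Matrix (Fin 2) (Fin 2) ℝ) 0 0 +
        (ρ : Matrix (Fin 2) (Fin 2) ℝ) 1 1 * (ρ : Matrix (Fin 2) (Fin 2) ℝ) 1 0 = 0
      rw [e00, e10, e11]
      ring
    · show (ρ : Matrix (Fin 2) (Fin 2) ℝ) 1 0 * (ρ : Matrix (Fin 2) (Fin 2) ℝ) 0 1 +
        (ρ : Matrix (Fin 2) (Fin 2) ℝ) 1 1 * (ρ : Matrix (Fin 2) (Fin 2) ℝ) 1 1 = 1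
      rw [e01, e10, e11]
      linear_combination hs - s ^ 2 * huw

theorem tr_le_of_BB (S T : Arc) (K : ℝ) (hK : 1 ≤ K) (h : T ≤ S) (hB : K ≤ BB T S) :
    T.tr ≤ S.tr - 2 * √(2 * K - 2) := by
  have h1 := h 1 0
  have h2 := h 0 1
  simp only [Arc.ev] at h1 h2
  have ha : 0 ≤ S.p - T.p := by nlinarith
  have hb : 0 ≤ S.r - T.r := by nlinarith
  have hd : 2 * K - 2 ≤ (S.p - T.p) * (S.r - T.r) - (S.q - T.q) ^ 2 := by
    unfold BB at hB
    nlinarith [S.h, T.h]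
  have h0 : 0 ≤ 2 * K - 2 := by linarith
  have h3 : √(2 * K - 2) ≤ ((S.p - T.p) + (S.r - T.r)) / 2 := by
    rw [Real.sqrt_le_left (by linarith)]
    nlinarith [sq_nonneg ((S.p - T.p) - (S.r - T.r)), sq_nonneg (S.q - T.q)]
  unfold Arc.tr
  linarith

end Pool.Agent.H100R2.SC
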