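import Pool.Agent.H100R2.SC.Defs

/-! B8: nested arcs, shifted arcs (helper267) -/

set_option autoImplicit false

namespace Pool.Agent.H100R2.SC

open Filter Topology

/-! ### semidefinite forms -/

private lemma b8_semidef (a b c : ℝ) (h : 0 ≤ a * c - b ^ 2) :
    (∀ x y : ℝ, 0 ≤ a * x ^ 2 + 2 * b * x * y + c * y ^ 2) ∨
      ∀ x y : ℝ, a * x ^ 2 + 2 * b * x * y + c * y ^ 2 ≤ 0 := by
  have key : ∀ x y : ℝ, a * (a * x ^ 2 + 2 * b * x * y + c * y ^ 2) =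
      (a * x + b * y) ^ 2 + (a * c - b ^ 2) * y ^ 2 := fun x y => by ring
  rcases lt_trichotomy a 0 with ha | ha | ha
  · right
    intro x y
    by_contra hc
    push Not at hc
    have h1 := key x y
    have h2 : 0 ≤ (a * x + b * y) ^ 2 + (a * c - b ^ 2) * y ^ 2 := by positivity
    nlinarith
  · subst ha
    have hb : b = 0 := by nlinarith [sq_nonneg b]
    subst hb
    rcases le_total 0 c with hc | hc
    · left; intro x y; nlinarith [mul_nonneg hc (sq_nonneg y)]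
    · right; intro x y; nlinarith [mul_nonneg (neg_nonneg.2 hc) (sq_nonneg y)]
  · left
    intro x y
    by_contra hc
    push Not at hc
    have h1 := key x y
    have h2 : 0 ≤ (a * x + b * y) ^ 2 + (a * c - b ^ 2) * y ^ 2 := by positivity
    nlinarith

private lemma b8_le {S T : Arc} (h : S ≤ T) :
    S.p ≤ T.p ∧ S.r ≤ T.r ∧ (T.q - S.q) ^ 2 ≤ (T.p - S.p) * (T.r - S.r) := by
  have h' : ∀ x y, 0 ≤ (T.p - S.p) * x ^ 2 + 2 * (T.q - S.q) * x * y + (T.r - S.r) * y ^ 2 := by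
    intro x y
    have := h x y
    simp only [Arc.ev] at this
    linarith
  obtain ⟨A, hA⟩ : ∃ A, A = T.p - S.p := ⟨_, rfl⟩
  obtain ⟨B, hB⟩ : ∃ B, B = T.q - S.q := ⟨_, rfl⟩
  obtain ⟨C, hC⟩ : ∃ C, C = T.r - S.r := ⟨_, rfl⟩
  rw [← hA, ← hB, ← hC] at h'
  have h1 := h' 1 0
  have h2 := h' 0 1
  have hA0 : 0 ≤ A := by linarith
  have hC0 : 0 ≤ C := by linarith
  refine ⟨by linarith, by linarith, ?_⟩
  rw [← hA, ← hB, ← hC]
  rcases hA0.eq_or_lt with h3 | h3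
  · rcases hC0.eq_or_lt with h4 | h4
    · rw [← h3, ← h4] at h' ⊢
      have h5 := h' 1 1
      have h6 := h' 1 (-1)
      have : B = 0 := by linarith
      rw [this]; norm_num
    · have h5 := h' C (-B)
      by_contra hc
      push Not at hc
      nlinarith
  · have h5 := h' (-B) A
    by_contra hc
    push Not at hc
    nlinarith

theorem nested_of_BB (S T : Arc) (h : 1 ≤ |BB S T|) : S ≤ T ∨ T ≤ S ∨ S ≤ -T ∨ -T ≤ S := by
  have hS := S.h
  have hT := T.h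
  rcases le_abs.1 h with h1 | h1
  · unfold BB at h1
    rcases b8_semidef (T.p - S.p) (T.q - S.q) (T.r - S.r) (by nlinarith) with h2 | h2
    · left
      intro x y
      have := h2 x y
      simp only [Arc.ev]
      linarith
    · right; left
      intro x y
      have := h2 x y
      simp only [Arc.ev]
      linarith
  · unfold BB at h1
    rcases b8_semidef (T.p + S.p) (T.q + S.q) (T.r + S.r) (by nlinarith) with h2 | h2
    · right; right; right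
      intro x y
      have := h2 x y
      rw [Arc.ev_neg]
      simp only [Arc.ev]
      linarith
    · right; right; left
      intro x y
      have := h2 x y
      rw [Arc.ev_neg]
      simp only [Arc.ev]
      linarith

/-! ### the action, normalisation -/

private lemma b8_smul_neg (g : GG) (S : Arc) : g • (-S) = -(g • S) := by
  apply Arc.ext_ev
  intro x y
  rw [smul_ev, Arc.ev_neg, Arc.ev_neg, smul_ev]
  ring

private lemma b8_smul_le (g : GG) {S T : Arc} (h : S ≤ T) : g • S ≤ g • T := by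
  intro x y
  rw [smul_ev, smul_ev]
  exact div_le_div_of_nonneg_right (h _ _) (abs_nonneg _)

private lemma b8_Del (g : GG) (h : dt g = 1) (S T U : Arc) :
    Del (g • S) (g • T) (g • U) = Del S T U := by
  have h0 : (g : Matrix (Fin 2) (Fin 2) ℝ) 0 0 * (g : Matrix (Fin 2) (Fin 2) ℝ) 1 1 -
      (g : Matrix (Fin 2) (Fin 2) ℝ) 0 1 * (g : Matrix (Fin 2) (Fin 2) ℝ) 1 0 = 1 := by
    rw [dt, Matrix.det_fin_two] at h
    exact h
  obtain ⟨a, ha⟩ : ∃ a, a = (g : Matrix (Fin 2) (Fin 2) ℝ) 0 0 := ⟨_, rfl⟩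
  obtain ⟨b, hb⟩ : ∃ b, b = (g : Matrix (Fin 2) (Fin 2) ℝ) 0 1 := ⟨_, rfl⟩
  obtain ⟨c, hc⟩ : ∃ c, c = (g : Matrix (Fin 2) (Fin 2) ℝ) 1 0 := ⟨_, rfl⟩
  obtain ⟨d, hd⟩ : ∃ d, d = (g : Matrix (Fin 2) (Fin 2) ℝ) 1 1 := ⟨_, rfl⟩
  have hp : ∀ S : Arc, (g • S).p = S.p * d ^ 2 - 2 * S.q * c * d + S.r * c ^ 2 := by
    intro S
    show (_ : ℝ) / |dt g| = _
    rw [h, abs_one, div_one, hc, hd]
  have hq : ∀ S : Arc, (g • S).q = - S.p * b * d + S.q * (a * d + b * c) - S.r * a * c := by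
    intro S
    show (_ : ℝ) / |dt g| = _
    rw [h, abs_one, div_one, ha, hb, hc, hd]
  have hr : ∀ S : Arc, (g • S).r = S.p * b ^ 2 - 2 * S.q * a * b + S.r * a ^ 2 := by
    intro S
    show (_ : ℝ) / |dt g| = _
    rw [h, abs_one, div_one, ha, hb]
  rw [← ha, ← hb, ← hc, ← hd] at h0
  have key : Del (g • S) (g • T) (g • U) = (a * d - b * c) ^ 3 * Del S T U := by
    unfold Del
    rw [hp, hp, hp, hq, hq, hq, hr, hr, hr]
    ring
  rw [key, h0]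
  ring

private lemma b8_ex (S : Arc) : ∃ g : GG, dt g = 1 ∧ g • S = S0 := by
  obtain ⟨p, q, r, h⟩ := S
  have key : ∀ α β γ δ : ℝ, α * δ - β * γ = 1 → p = -2 * α * γ → q = -(α * δ + β * γ) →
      r = -2 * β * δ → ∃ g : GG, dt g = 1 ∧ g • (⟨p, q, r, h⟩ : Arc) = S0 := by
    intro α β γ δ h1 h2 h3 h4
    have hdet : (!![α, β; γ, δ] : Matrix (Fin 2) (Fin 2) ℝ).det = 1 := by
      rw [Matrix.det_fin_two_of]; exact h1
    refine ⟨Matrix.GeneralLinearGroup.mkOfDetNeZero !![α, β; γ, δ] (by rw [hdet]; norm_num),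
      hdet, ?_⟩
    apply Arc.ext_ev
    intro x y
    rw [smul_ev]
    have e : dt (Matrix.GeneralLinearGroup.mkOfDetNeZero !![α, β; γ, δ]
      (by rw [hdet]; norm_num)) = 1 := hdet
    rw [e, abs_one, div_one]
    show (⟨p, q, r, h⟩ : Arc).ev (δ * x - β * y) (-γ * x + α * y) = S0.ev x y
    simp only [Arc.ev, S0]
    rw [h2, h3, h4]
    have h5 : (α * δ - β * γ) ^ 2 = 1 := by rw [h1]; norm_num
    linear_combination (-2 * x * y) * h5
  by_cases hp : p = 0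
  · have hq : (q - 1) * (q + 1) = 0 := by rw [hp] at h; nlinarith
    rcases mul_eq_zero.1 hq with h1 | h1
    · have hq1 : q = 1 := by linarith
      exact key 0 (-1) 1 (r / 2) (by ring) (by rw [hp]; ring) (by rw [hq1]; ring) (by ring)
    · have hq1 : q = -1 := by linarith
      exact key 1 (-r / 2) 0 1 (by ring) (by rw [hp]; ring) (by rw [hq1]; ring) (by ring)
  · refine key (-p / 2) (-(1 + q) / 2) 1 ((q - 1) / p) ?_ ?_ ?_ ?_
    · field_simp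
      ring
    · ring
    · field_simp
      ring
    · field_simp
      linear_combination (1 : ℝ) * h

private lemma b8_conj (g δ : GG) (hg : dt g = 1) (h1 : dt δ = 1) (h2 : 4 < trc δ ^ 2) :
    dt (g * δ * g⁻¹) = 1 ∧ 4 < trc (g * δ * g⁻¹) ^ 2 ∧ ax (g * δ * g⁻¹) = g • ax δ := by
  obtain ⟨a, ha⟩ : ∃ a, a = (g : Matrix (Fin 2) (Fin 2) ℝ) 0 0 := ⟨_, rfl⟩
  obtain ⟨b, hb⟩ : ∃ b, b = (g : Matrix (Fin 2) (Fin 2) ℝ) 0 1 := ⟨_, rfl⟩
  obtain ⟨c, hc⟩ : ∃ c, c = (g : Matrix (Fin 2) (Fin 2) ℝ) 1 0 := ⟨_, rfl⟩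
  obtain ⟨d, hd⟩ : ∃ d, d = (g : Matrix (Fin 2) (Fin 2) ℝ) 1 1 := ⟨_, rfl⟩
  obtain ⟨a', ha'⟩ : ∃ a, a = (δ : Matrix (Fin 2) (Fin 2) ℝ) 0 0 := ⟨_, rfl⟩
  obtain ⟨b', hb'⟩ : ∃ b, b = (δ : Matrix (Fin 2) (Fin 2) ℝ) 0 1 := ⟨_, rfl⟩
  obtain ⟨c', hc'⟩ : ∃ c, c = (δ : Matrix (Fin 2) (Fin 2) ℝ) 1 0 := ⟨_, rfl⟩
  obtain ⟨d', hd'⟩ : ∃ d, d = (δ : Matrix (Fin 2) (Fin 2) ℝ) 1 1 := ⟨_, rfl⟩
  have hdet : a * d - b * c = 1 := by
    have := hg
    rw [dt, Matrix.det_fin_two] at this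
    rw [ha, hb, hc, hd]
    exact this
  have hgm : (g : Matrix (Fin 2) (Fin 2) ℝ) = !![a, b; c, d] := by
    rw [ha, hb, hc, hd]
    exact Matrix.eta_fin_two _
  have hδm : (δ : Matrix (Fin 2) (Fin 2) ℝ) = !![a', b'; c', d'] := by
    rw [ha', hb', hc', hd']
    exact Matrix.eta_fin_two _
  have hgi : ((g⁻¹ : GG) : Matrix (Fin 2) (Fin 2) ℝ) = !![d, -b; -c, a] := by
    rw [Matrix.coe_units_inv]
    refine Matrix.inv_eq_left_inv ?_
    rw [hgm, Matrix.mul_fin_two, Matrix.one_fin_two]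
    congr 1
    ext i j
    fin_cases i <;> fin_cases j <;> simp <;> linarith
  have hM : ((g * δ * g⁻¹ : GG) : Matrix (Fin 2) (Fin 2) ℝ) =
      !![a, b; c, d] * !![a', b'; c', d'] * !![d, -b; -c, a] := by
    rw [← hgm, ← hδm, ← hgi]
    rfl
  rw [Matrix.mul_fin_two, Matrix.mul_fin_two] at hM
  have h00 := congrFun (congrFun hM 0) 0
  have h01 := congrFun (congrFun hM 0) 1
  have h10 := congrFun (congrFun hM 1) 0
  have h11 := congrFun (congrFun hM 1) 1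
  simp only [Matrix.of_apply, Matrix.cons_val_zero, Matrix.cons_val_one, Matrix.cons_val_fin_one,
    Matrix.cons_val'] at h00 h01 h10 h11
  have hdt : dt (g * δ * g⁻¹) = 1 := by
    have e1 : dt (g * g⁻¹) = 1 := by rw [mul_inv_cancel, dt_one]
    rw [dt_mul] at e1
    rw [dt_mul, dt_mul, h1, mul_one, e1]
  have htr : trc (g * δ * g⁻¹) = trc δ := by
    unfold trc
    rw [h00, h11, ← ha', ← hd']
    linear_combination (a' + d') * hdet
  have h2' : 4 < trc (g * δ * g⁻¹) ^ 2 := by rw [htr]; exact h2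
  refine ⟨hdt, h2', ?_⟩
  obtain ⟨s, hs⟩ : ∃ s : ℝ, s = 2 * ((SignType.sign (trc δ) : SignType) : ℝ) / √(trc δ ^ 2 - 4) :=
    ⟨_, rfl⟩
  have ep : (ax δ).p = s * c' := by
    rw [ax, dif_pos ⟨h1, h2⟩, hs, hc']
  have eq : (ax δ).q = s * ((d' - a') / 2) := by
    rw [ax, dif_pos ⟨h1, h2⟩, hs, hd', ha']
  have er : (ax δ).r = -(s * b') := by
    rw [ax, dif_pos ⟨h1, h2⟩, hs, hb']
  have hs' : s = 2 * ((SignType.sign (trc (g * δ * g⁻¹)) : SignType) : ℝ) /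
      √(trc (g * δ * g⁻¹) ^ 2 - 4) := by rw [htr]; exact hs
  have fp : (ax (g * δ * g⁻¹)).p = s * ((g * δ * g⁻¹ : GG) : Matrix (Fin 2) (Fin 2) ℝ) 1 0 := by
    rw [ax, dif_pos ⟨hdt, h2'⟩, hs']
  have fq : (ax (g * δ * g⁻¹)).q = s * ((((g * δ * g⁻¹ : GG) : Matrix (Fin 2) (Fin 2) ℝ) 1 1 -
      ((g * δ * g⁻¹ : GG) : Matrix (Fin 2) (Fin 2) ℝ) 0 0) / 2) := by
    rw [ax, dif_pos ⟨hdt, h2'⟩, hs']
  have fr : (ax (g * δ * g⁻¹)).r = -(s * ((g * δ * g⁻¹ : GG) : Matrix (Fin 2) (Fin 2) ℝ) 0 1) := by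
    rw [ax, dif_pos ⟨hdt, h2'⟩, hs']
  ext
  · rw [fp, h10]
    show _ = (_ : ℝ) / |dt g|
    rw [hg, abs_one, div_one, ← hc, ← hd, ep, eq, er]
    ring
  · rw [fq, h11, h00]
    show _ = (_ : ℝ) / |dt g|
    rw [hg, abs_one, div_one, ← ha, ← hb, ← hc, ← hd, ep, eq, er]
    ring
  · rw [fr, h01]
    show _ = (_ : ℝ) / |dt g|
    rw [hg, abs_one, div_one, ← ha, ← hb, ep, eq, er]
    ring

private lemma b8_norm (δ : GG) (h1 : dt δ = 1) (h2 : 4 < trc δ ^ 2) (h3 : ax δ = S0) :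
    ∃ μ : ℝ, 1 < μ ∧ ∀ T : Arc, (δ • T).p = T.p * μ⁻¹ ∧ (δ • T).q = T.q ∧
      (δ • T).r = T.r * μ := by
  obtain ⟨a, ha⟩ : ∃ a, a = (δ : Matrix (Fin 2) (Fin 2) ℝ) 0 0 := ⟨_, rfl⟩
  obtain ⟨b, hb⟩ : ∃ b, b = (δ : Matrix (Fin 2) (Fin 2) ℝ) 0 1 := ⟨_, rfl⟩
  obtain ⟨c, hc⟩ : ∃ c, c = (δ : Matrix (Fin 2) (Fin 2) ℝ) 1 0 := ⟨_, rfl⟩
  obtain ⟨d, hd⟩ : ∃ d, d = (δ : Matrix (Fin 2) (Fin 2) ℝ) 1 1 := ⟨_, rfl⟩
  obtain ⟨s, hs⟩ : ∃ s : ℝ, s = 2 * ((SignType.sign (trc δ) : SignType) : ℝ) / √(trc δ ^ 2 - 4) :=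
    ⟨_, rfl⟩
  have hdet : a * d - b * c = 1 := by
    have := h1
    rw [dt, Matrix.det_fin_two] at this
    rw [ha, hb, hc, hd]
    exact this
  have ht : trc δ = a + d := by rw [trc, ha, hd]
  have ep : s * c = 0 := by
    have : (ax δ).p = s * c := by rw [ax, dif_pos ⟨h1, h2⟩, hs, hc]
    rw [← this, h3]; rfl
  have eq : s * ((d - a) / 2) = -1 := by
    have : (ax δ).q = s * ((d - a) / 2) := by rw [ax, dif_pos ⟨h1, h2⟩, hs, hd, ha]
    rw [← this, h3]; rfl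
  have er : -(s * b) = 0 := by
    have : (ax δ).r = -(s * b) := by rw [ax, dif_pos ⟨h1, h2⟩, hs, hb]
    rw [← this, h3]; rfl
  have hs0 : s ≠ 0 := by
    intro h0
    rw [h0, zero_mul] at eq
    norm_num at eq
  have hc0 : c = 0 := (mul_eq_zero.1 ep).resolve_left hs0
  have hb0 : b = 0 := (mul_eq_zero.1 (neg_eq_zero.1 er)).resolve_left hs0
  have had : a * d = 1 := by rw [hb0] at hdet; linarith
  have hsq : 0 < trc δ ^ 2 - 4 := by linarith
  have hq0 : 0 < √(trc δ ^ 2 - 4) := Real.sqrt_pos.2 hsq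
  -- `a ^ 2 > 1`
  have hsg : 0 < (a + d) * (a - d) := by
    have e1 : s * (a - d) = 2 := by linarith
    have e2 : ((SignType.sign (trc δ) : SignType) : ℝ) * (a - d) = √(trc δ ^ 2 - 4) := by
      rw [hs] at e1
      field_simp at e1
      linarith
    have htn : trc δ ≠ 0 := by
      intro h0
      rw [h0] at h2
      norm_num at h2
    rcases lt_or_gt_of_ne htn with h | h
    · rw [sign_neg h] at e2
      have h5 : 0 < -(a - d) := by
        have : ((-1 : SignType) : ℝ) = -1 := by simp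
        rw [this] at e2
        linarith
      rw [ht] at h
      nlinarith
    · rw [sign_pos h] at e2
      have h5 : 0 < a - d := by
        have : ((1 : SignType) : ℝ) = 1 := by simp
        rw [this] at e2
        linarith
      rw [ht] at h
      exact mul_pos h h5
  have ha2 : 1 < a ^ 2 := by
    by_contra hc
    push Not at hc
    have h6 : d ^ 2 < a ^ 2 := by nlinarith
    have h7 : a ^ 2 * d ^ 2 = 1 := by rw [← mul_pow, had, one_pow]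
    nlinarith [sq_nonneg d]
  have hd2 : d ^ 2 = (a ^ 2)⁻¹ := by
    refine eq_inv_of_mul_eq_one_left ?_
    rw [← mul_pow, mul_comm, had, one_pow]
  refine ⟨a ^ 2, ha2, fun T => ⟨?_, ?_, ?_⟩⟩
  · show (_ : ℝ) / |dt δ| = _
    rw [h1, abs_one, div_one, ← hc, ← hd, hc0, ← hd2]
    ring
  · show (_ : ℝ) / |dt δ| = _
    rw [h1, abs_one, div_one, ← ha, ← hb, ← hc, ← hd, hc0, hb0, had]
    ring
  · show (_ : ℝ) / |dt δ| = _
    rw [h1, abs_one, div_one, ← ha, ← hb, hb0]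
    ring

private lemma b8_zpow {δ : GG} {μ : ℝ} (hμ : 1 < μ) (h : ∀ T : Arc, (δ • T).p = T.p * μ⁻¹ ∧
    (δ • T).q = T.q ∧ (δ • T).r = T.r * μ) (n : ℤ) : ∀ T : Arc, (δ ^ n • T).p = T.p * μ ^ (-n) ∧
    (δ ^ n • T).q = T.q ∧ (δ ^ n • T).r = T.r * μ ^ n := by
  have hμ0 : μ ≠ 0 := by linarith
  induction n using Int.induction_on with
  | zero => intro T; simp
  | succ n ih =>
    intro T
    rw [zpow_add_one, mul_smul]
    obtain ⟨a1, a2, a3⟩ := ih (δ • T)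
    obtain ⟨b1, b2, b3⟩ := h T
    rw [a1, a2, a3, b1, b2, b3]
    refine ⟨?_, rfl, ?_⟩
    · rw [neg_add, zpow_add₀ hμ0, zpow_neg_one]; ring
    · rw [zpow_add_one₀ hμ0]; ring
  | pred n ih =>
    intro T
    have e : T = δ • (δ⁻¹ • T) := by rw [smul_inv_smul]
    obtain ⟨b1, b2, b3⟩ := h (δ⁻¹ • T)
    rw [← e] at b1 b2 b3
    rw [zpow_sub_one, mul_smul]
    obtain ⟨a1, a2, a3⟩ := ih (δ⁻¹ • T)
    rw [a1, a2, a3, b1, b2, b3]
    refine ⟨?_, rfl, ?_⟩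
    · have : (-(-(n:ℤ) - 1)) = -(-(n:ℤ)) + 1 := by ring
      rw [this, zpow_add_one₀ hμ0]
      field_simp
    · rw [zpow_sub_one₀ hμ0]
      field_simp

private lemma b8_below {T : Arc} (hT : T ≤ -S0) : T.p ≤ 0 ∧ T.r ≤ 0 ∧ 1 ≤ T.q := by
  obtain ⟨h1, h2, h3⟩ := b8_le hT
  have e1 : (-S0).p = 0 := by simp [S0]
  have e2 : (-S0).q = 1 := by simp [S0]
  have e3 : (-S0).r = 0 := by simp [S0]
  rw [e1] at h1
  rw [e3] at h2
  rw [e1, e2, e3] at h3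
  have h := T.h
  refine ⟨h1, h2, by nlinarith⟩

private lemma b8_pos {δ : GG} {μ : ℝ} (h : ∀ T : Arc, (δ • T).p = T.p * μ⁻¹ ∧
    (δ • T).q = T.q ∧ (δ • T).r = T.r * μ) (T : Arc) (hT : T ≤ -S0) (hd : T ≤ -(δ • T)) :
    T.p < 0 ∧ T.r < 0 := by
  obtain ⟨h1, h2, h3⟩ := b8_below hT
  obtain ⟨-, -, h4⟩ := b8_le hd
  rw [Arc.neg_p, Arc.neg_q, Arc.neg_r, (h T).1, (h T).2.1, (h T).2.2] at h4
  have hTh := T.h
  have h5 : 0 < T.p * T.r := by
    by_contra hc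
    push Not at hc
    have h6 : T.p * T.r = 0 := le_antisymm hc (mul_nonneg_of_nonpos_of_nonpos h1 h2)
    have h7 : (-(T.p * μ⁻¹) - T.p) * (-(T.r * μ) - T.r) = T.p * T.r * ((μ⁻¹ + 1) * (μ + 1)) := by
      ring
    rw [h7, h6, zero_mul] at h4
    nlinarith
  constructor
  · rcases h1.eq_or_lt with h6 | h6
    · rw [h6, zero_mul] at h5; exact absurd h5 (lt_irrefl _)
    · exact h6
  · rcases h2.eq_or_lt with h6 | h6
    · rw [h6, mul_zero] at h5; exact absurd h5 (lt_irrefl _)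
    · exact h6

private lemma b8_Del0 (T U : Arc) : Del S0 T U = T.p * U.r - T.r * U.p := by
  simp [Del, S0]

theorem shift_pos (δ : GG) (h1 : dt δ = 1) (h2 : 4 < trc δ ^ 2) (T : Arc) (hT : T ≤ -(ax δ))
    (hd : T ≤ -(δ • T)) : 0 < Del (ax δ) T (δ • T) := by
  obtain ⟨g, hg, hgS⟩ := b8_ex (ax δ)
  obtain ⟨c1, c2, c3⟩ := b8_conj g δ hg h1 h2
  rw [hgS] at c3
  obtain ⟨μ, hμ, hn⟩ := b8_norm _ c1 c2 c3
  have hT' : g • T ≤ -S0 := by
    have := b8_smul_le g hT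
    rwa [b8_smul_neg, hgS] at this
  have e : g • (δ • T) = (g * δ * g⁻¹) • (g • T) := by
    rw [mul_smul, mul_smul, inv_smul_smul]
  have hd' : g • T ≤ -((g * δ * g⁻¹) • (g • T)) := by
    have := b8_smul_le g hd
    rwa [b8_smul_neg, e] at this
  obtain ⟨t1, t2⟩ := b8_pos hn (g • T) hT' hd'
  rw [← b8_Del g hg, hgS, e, b8_Del0, (hn (g • T)).1, (hn (g • T)).2.2]
  have h5 : 0 < (g • T).p * (g • T).r := mul_pos_of_neg_of_neg t1 t2
  have h6 : (g • T).p * ((g • T).r * μ) - (g • T).r * ((g • T).p * μ⁻¹) =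
      (g • T).p * (g • T).r * (μ - μ⁻¹) := by ring
  rw [h6]
  have h7 : μ⁻¹ < 1 := inv_lt_one_of_one_lt₀ hμ
  exact mul_pos h5 (by linarith)

/-- two disjoint arcs on the same side have `Del ≠ 0` -/
private lemma b8_ne {T K : Arc} (hT : T ≤ -S0) (hK : K ≤ -S0) (h : T ≤ -K) :
    T.p * K.r - T.r * K.p ≠ 0 := by
  intro h0
  obtain ⟨a1, a2, a3⟩ := b8_below hT
  obtain ⟨b1, b2, b3⟩ := b8_below hK
  obtain ⟨-, -, h4⟩ := b8_le h
  rw [Arc.neg_p, Arc.neg_q, Arc.neg_r] at h4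
  have hTh := T.h
  have hKh := K.h
  obtain ⟨w, hw⟩ : ∃ w, w = T.p * K.r := ⟨_, rfl⟩
  have hw2 : T.r * K.p = w := by linarith
  have hw0 : 0 ≤ w := by rw [hw]; exact mul_nonneg_of_nonpos_of_nonpos a1 b2
  have h5 : w ^ 2 = (T.q ^ 2 - 1) * (K.q ^ 2 - 1) := by
    have : w ^ 2 = (T.p * T.r) * (K.p * K.r) := by
      calc w ^ 2 = w * w := by ring
        _ = (T.p * K.r) * (T.r * K.p) := by rw [hw2, ← hw]
        _ = (T.p * T.r) * (K.p * K.r) := by ring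
    rw [this, show T.p * T.r = T.q ^ 2 - 1 by linarith, show K.p * K.r = K.q ^ 2 - 1 by linarith]
  have h6 : 1 + T.q * K.q ≤ w := by nlinarith
  have h7 : (1 + T.q * K.q) ^ 2 ≤ w ^ 2 := pow_le_pow_left₀ (by positivity) h6 2
  nlinarith [mul_pos (lt_of_lt_of_le one_pos a3) (lt_of_lt_of_le one_pos b3)]

private lemma b8_cover {δ : GG} {μ : ℝ} (hμ : 1 < μ) (h : ∀ T : Arc, (δ • T).p = T.p * μ⁻¹ ∧
    (δ • T).q = T.q ∧ (δ • T).r = T.r * μ) (hδS : ∀ n : ℤ, δ ^ n • S0 = S0)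
    (T K : Arc) (hT : T ≤ -S0) (hK : K ≤ -S0)
    (hd : T ≤ -(δ • T)) (hdis : ∀ n : ℤ, δ ^ n • T ≠ K → δ ^ n • T ≤ -K) :
    ∃ n : ℤ, K = δ ^ n • T ∨ (0 < Del S0 (δ ^ n • T) K ∧ 0 < Del S0 K (δ ^ (n + 1) • T)) := by
  have hz := b8_zpow hμ h
  have hμ0 : 0 < μ := by linarith
  obtain ⟨t1, t2⟩ := b8_pos h T hT hd
  obtain ⟨k1, k2, k3⟩ := b8_below hK
  obtain ⟨-, -, t3⟩ := b8_below hT
  have hTh := T.h
  have hKh := K.h
  have hTn : ∀ n : ℤ, δ ^ n • T ≤ -S0 := by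
    intro n
    have := b8_smul_le (δ ^ n) hT
    rwa [b8_smul_neg, hδS] at this
  -- `K` does not touch the end points of the axis
  have kp : K.p < 0 := by
    rcases k1.eq_or_lt with h0 | h0
    · exfalso
      have hq : K.q ^ 2 = 1 := by rw [h0] at hKh; linarith
      have hq1 : K.q = 1 := by nlinarith
      obtain ⟨n, hn⟩ := pow_unbounded_of_one_lt (T.p * K.r) hμ
      have hne : δ ^ (n : ℤ) • T ≠ K := by
        intro e
        have := (hz n T).1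
        rw [e, h0] at this
        have : T.p * μ ^ (-(n : ℤ)) < 0 := mul_neg_of_neg_of_pos t1 (zpow_pos hμ0 _)
        linarith
      obtain ⟨-, -, h4⟩ := b8_le (hdis n hne)
      rw [Arc.neg_p, Arc.neg_q, Arc.neg_r, (hz n T).1, (hz n T).2.1, (hz n T).2.2, h0, hq1] at h4
      have h5 : (-0 - T.p * μ ^ (-(n : ℤ))) * (-K.r - T.r * μ ^ (n : ℤ)) =
          T.p * K.r * μ ^ (-(n : ℤ)) + T.p * T.r * (μ ^ (-(n : ℤ)) * μ ^ (n : ℤ)) := by ring
      rw [h5, ← zpow_add₀ hμ0.ne', neg_add_cancel, zpow_zero] at h4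
      have h6 : T.p * K.r * μ ^ (-(n : ℤ)) ≤ 1 := by
        rw [zpow_neg, zpow_natCast, ← div_eq_mul_inv, div_le_one (by positivity)]
        exact hn.le
      nlinarith
    · exact h0
  have kr : K.r < 0 := by
    rcases k2.eq_or_lt with h0 | h0
    · exfalso
      have hq : K.q ^ 2 = 1 := by rw [h0] at hKh; linarith
      have hq1 : K.q = 1 := by nlinarith
      obtain ⟨n, hn⟩ := pow_unbounded_of_one_lt (K.p * T.r) hμ
      have hne : δ ^ (-(n : ℤ)) • T ≠ K := by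
        intro e
        have := (hz (-(n:ℤ)) T).2.2
        rw [e, h0] at this
        have : T.r * μ ^ (-(n : ℤ)) < 0 := mul_neg_of_neg_of_pos t2 (zpow_pos hμ0 _)
        linarith
      obtain ⟨-, -, h4⟩ := b8_le (hdis (-(n:ℤ)) hne)
      rw [Arc.neg_p, Arc.neg_q, Arc.neg_r, (hz (-(n:ℤ)) T).1, (hz (-(n:ℤ)) T).2.1,
        (hz (-(n:ℤ)) T).2.2, h0, hq1] at h4
      have h5 : (-K.p - T.p * μ ^ (-(-(n : ℤ)))) * (-0 - T.r * μ ^ (-(n : ℤ))) =
          K.p * T.r * μ ^ (-(n : ℤ)) + T.p * T.r * (μ ^ (-(-(n : ℤ))) * μ ^ (-(n : ℤ))) := by ring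
      rw [h5, ← zpow_add₀ hμ0.ne', neg_add_cancel, zpow_zero] at h4
      have h6 : K.p * T.r * μ ^ (-(n : ℤ)) ≤ 1 := by
        rw [zpow_neg, zpow_natCast, ← div_eq_mul_inv, div_le_one (by positivity)]
        exact hn.le
      nlinarith
    · exact h0
  have hx : 0 < (T.p * K.r) / (T.r * K.p) :=
    div_pos (mul_pos_of_neg_of_neg t1 kr) (mul_pos_of_neg_of_neg t2 kp)
  obtain ⟨n, hn1, hn2⟩ := exists_mem_Ico_zpow hx (show 1 < μ ^ 2 by nlinarith)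
  have hrp : 0 < T.r * K.p := mul_pos_of_neg_of_neg t2 kp
  rw [le_div_iff₀ hrp] at hn1
  rw [div_lt_iff₀ hrp] at hn2
  have hpow : ∀ m : ℤ, (μ ^ 2) ^ m = μ ^ m * μ ^ m := by
    intro m
    rw [← zpow_natCast μ 2, ← zpow_mul, ← zpow_add₀ hμ0.ne']
    congr 1
    push_cast
    ring
  have hinv : ∀ m : ℤ, μ ^ (-m) * μ ^ m = 1 := fun m => by
    rw [← zpow_add₀ hμ0.ne', neg_add_cancel, zpow_zero]
  have hD1 : Del S0 (δ ^ n • T) K = μ ^ (-n) * (T.p * K.r - (μ ^ 2) ^ n * (T.r * K.p)) := by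
    rw [b8_Del0, (hz n T).1, (hz n T).2.2, hpow]
    linear_combination ((T.r * K.p * μ ^ n)) * hinv n
  have hD2 : Del S0 K (δ ^ (n + 1) • T) =
      μ ^ (-(n + 1)) * ((μ ^ 2) ^ (n + 1) * (T.r * K.p) - T.p * K.r) := by
    rw [b8_Del0, (hz (n + 1) T).1, (hz (n + 1) T).2.2, hpow]
    linear_combination (-(T.r * K.p * μ ^ (n + 1))) * hinv (n + 1)
  refine ⟨n, ?_⟩
  by_cases hKn : K = δ ^ n • T
  · exact Or.inl hKn
  · right
    have hne := b8_ne (hTn n) hK (hdis n fun e => hKn e.symm)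
    rw [← b8_Del0] at hne
    constructor
    · rw [hD1] at hne ⊢
      have h5 : 0 ≤ T.p * K.r - (μ ^ 2) ^ n * (T.r * K.p) := by linarith
      rcases h5.eq_or_lt with h6 | h6
      · rw [← h6, mul_zero] at hne
        exact absurd rfl hne
      · exact mul_pos (zpow_pos hμ0 _) h6
    · rw [hD2]
      exact mul_pos (zpow_pos hμ0 _) (by linarith)

theorem shift_cover (δ : GG) (h1 : dt δ = 1) (h2 : 4 < trc δ ^ 2) (T K : Arc) (hT : T ≤ -(ax δ))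
    (hK : K ≤ -(ax δ)) (hd : T ≤ -(δ • T)) (hdis : ∀ n : ℤ, δ ^ n • T ≠ K → δ ^ n • T ≤ -K) :
    ∃ n : ℤ, K = δ ^ n • T ∨
      (0 < Del (ax δ) (δ ^ n • T) K ∧ 0 < Del (ax δ) K (δ ^ (n + 1) • T)) := by
  obtain ⟨g, hg, hgS⟩ := b8_ex (ax δ)
  obtain ⟨c1, c2, c3⟩ := b8_conj g δ hg h1 h2
  rw [hgS] at c3
  obtain ⟨μ, hμ, hn⟩ := b8_norm _ c1 c2 c3
  have e : ∀ (n : ℤ) (T : Arc), g • (δ ^ n • T) = (g * δ * g⁻¹) ^ n • (g • T) := by
    intro n T
    rw [conj_zpow, mul_smul, mul_smul, inv_smul_smul]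
  have hT' : g • T ≤ -S0 := by
    have := b8_smul_le g hT
    rwa [b8_smul_neg, hgS] at this
  have hK' : g • K ≤ -S0 := by
    have := b8_smul_le g hK
    rwa [b8_smul_neg, hgS] at this
  have hd' : g • T ≤ -((g * δ * g⁻¹) • (g • T)) := by
    have := b8_smul_le g hd
    rwa [b8_smul_neg, ← zpow_one δ, e, zpow_one] at this
  have hdis' : ∀ n : ℤ, (g * δ * g⁻¹) ^ n • (g • T) ≠ g • K →
      (g * δ * g⁻¹) ^ n • (g • T) ≤ -(g • K) := by
    intro n hne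
    rw [← e] at hne ⊢
    have := b8_smul_le g (hdis n fun h => hne (by rw [h]))
    rwa [b8_smul_neg] at this
  have hS : ∀ n : ℤ, (g * δ * g⁻¹) ^ n • S0 = S0 := by
    intro n
    obtain ⟨z1, z2, z3⟩ := b8_zpow hμ hn n S0
    ext
    · rw [z1]; simp [S0]
    · rw [z2]
    · rw [z3]; simp [S0]
  obtain ⟨n, hcase⟩ := b8_cover hμ hn hS (g • T) (g • K) hT' hK' hd' hdis'
  refine ⟨n, ?_⟩
  rcases hcase with h3 | ⟨h3, h4⟩
  · left
    rw [← e] at h3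
    exact smul_left_cancel g h3
  · right
    rw [← b8_Del g hg (ax δ), ← b8_Del g hg (ax δ) K, hgS, e, e]
    exact ⟨h3, h4⟩

end Pool.Agent.H100R2.SC
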