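import Pool.Agent.H100R2.SC.Defs

/-! # The tree of a nested family (task T1) -/

set_option autoImplicit false

namespace Pool.Agent.H100R2.SC

open Arc

/-! ### basic facts on arcs -/

theorem t1_smul_neg (g : GG) (S : Arc) : g • (-S) = -(g • S) := by
  apply Arc.ext_ev
  intro x y
  rw [smul_ev, ev_neg, ev_neg, smul_ev]
  ring

theorem t1_smul_mono (g : GG) {S T : Arc} (h : S ≤ T) : g • S ≤ g • T := by
  intro x y
  rw [smul_ev, smul_ev]
  exact div_le_div_of_nonneg_right (h _ _) (abs_nonneg _)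

theorem t1_smul_le (g : GG) (S T : Arc) : g • S ≤ g • T ↔ S ≤ T := by
  constructor
  · intro h
    have := t1_smul_mono g⁻¹ h
    rwa [inv_smul_smul, inv_smul_smul] at this
  · exact t1_smul_mono g

theorem t1_tr_mono {S T : Arc} (h : S ≤ T) : S.tr ≤ T.tr := by
  have a := h 1 0
  have b := h 0 1
  simp only [ev] at a b
  unfold tr
  linarith

theorem t1_neg_le {S T : Arc} (h : -S ≤ T) : -T ≤ S := by
  have := Arc.neg_le_neg h
  rwa [neg_neg] at this

theorem t1_interval_finite {L : Set Arc} (hL : Nest L) (S T : Arc) :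
    {R | R ∈ L ∧ S ≤ R ∧ R ≤ T}.Finite := by
  apply (hL.lf (max |S.tr| |T.tr|)).subset
  rintro R ⟨hR, h1, h2⟩
  refine ⟨hR, abs_le_max_abs_abs (t1_tr_mono h1) (t1_tr_mono h2)⟩

/-! ### adjacency -/

theorem adj_symm {L : Set Arc} (hL : Nest L) {S T : Arc} (h : Adj L S T) : Adj L T S := by
  obtain ⟨hS, hT, h⟩ := h
  refine ⟨hT, hS, ?_⟩
  rcases h with rfl | ⟨h1, h2, h3⟩
  · exact Or.inl rfl
  · right
    refine ⟨le_neg_comm h1, ?_, ?_⟩
    · rintro rfl
      exact h2 (neg_neg S).symm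
    · intro R hR h4 h5
      have h6 := h3 (-R) (hL.neg R hR) (le_neg_comm h5) (Arc.neg_le_neg h4)
      rcases h6 with h6 | h6
      · right
        rw [← h6, neg_neg]
      · left
        exact neg_injective h6

theorem adj_trans {L : Set Arc} (hL : Nest L) {S T U : Arc} (h1 : Adj L S T) (h2 : Adj L T U) :
    Adj L S U := by
  obtain ⟨hS, hT, h1⟩ := h1
  obtain ⟨_, hU, h2⟩ := h2
  rcases h1 with rfl | ⟨a1, a2, a3⟩
  · exact ⟨hS, hU, h2⟩
  rcases h2 with rfl | ⟨b1, b2, b3⟩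
  · exact ⟨hS, hT, Or.inr ⟨a1, a2, a3⟩⟩
  refine ⟨hS, hU, ?_⟩
  by_cases hSU : S = U
  · exact Or.inl hSU
  right
  have hTS : T ≤ -S := le_neg_comm a1
  have hUT : U ≤ -T := le_neg_comm b1
  rcases hL.nest S hS U hU with h | h | h | h
  · exfalso
    rcases a3 U hU h hUT with e | e
    · exact hSU e.symm
    · exact b2 (by rw [e, neg_neg])
  · exfalso
    rcases b3 (-S) (hL.neg S hS) hTS (Arc.neg_le_neg h) with e | e
    · exact a2 (by rw [← e, neg_neg])
    · exact hSU (neg_injective e)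
  · refine ⟨h, ?_, ?_⟩
    · intro e
      exact not_le_and (b1.trans e.symm.le) hTS
    · intro R hR h4 h5
      rcases hL.nest R hR T hT with k | k | k | k
      · exact absurd (not_le_and (h4.trans k) a1) id
      · rcases b3 R hR k h5 with e | e
        · exact absurd (not_le_and (h4.trans e.le) a1) id
        · exact Or.inr e
      · rcases a3 R hR h4 k with e | e
        · exact Or.inl e
        · exfalso
          rw [e] at h5
          have h6 : U ≤ T := by
            have := Arc.neg_le_neg h5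
            rwa [neg_neg, neg_neg] at this
          exact not_le_and h6 hUT
      · exfalso
        have h6 : U ≤ T := by
          have := Arc.neg_le_neg (k.trans h5)
          rwa [neg_neg, neg_neg] at this
        exact not_le_and h6 hUT
  · exfalso
    exact not_le_and (b1.trans h) hTS

theorem t1_mem_smul {A : Subgroup GG} {L : Set Arc} (hL : Fam A L) {a : GG} (ha : a ∈ A)
    {S : Arc} : a • S ∈ L ↔ S ∈ L := by
  constructor
  · intro h
    have := hL.inv a⁻¹ (A.inv_mem ha) _ h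
    rwa [inv_smul_smul] at this
  · exact hL.inv a ha S

theorem t1_adj_smul {A : Subgroup GG} {L : Set Arc} (hL : Fam A L) {a : GG} (ha : a ∈ A)
    {S T : Arc} (h : Adj L S T) : Adj L (a • S) (a • T) := by
  obtain ⟨hS, hT, h⟩ := h
  refine ⟨(t1_mem_smul hL ha).2 hS, (t1_mem_smul hL ha).2 hT, ?_⟩
  rcases h with rfl | ⟨h1, h2, h3⟩
  · exact Or.inl rfl
  · right
    rw [← t1_smul_neg]
    refine ⟨t1_smul_mono a h1, fun e => h2 (MulAction.injective a e), ?_⟩
    intro R hR h4 h5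
    have h6 : S ≤ a⁻¹ • R := by
      have := t1_smul_mono a⁻¹ h4
      rwa [inv_smul_smul] at this
    have h7 : a⁻¹ • R ≤ -T := by
      have := t1_smul_mono a⁻¹ h5
      rwa [inv_smul_smul] at this
    rcases h3 (a⁻¹ • R) (hL.inv a⁻¹ (A.inv_mem ha) R hR) h6 h7 with e | e
    · left
      rw [← e, smul_inv_smul]
    · right
      rw [← e, smul_inv_smul]

theorem adj_smul {A : Subgroup GG} {L : Set Arc} (hL : Fam A L) {a : GG} (ha : a ∈ A)
    {S T : Arc} : Adj L (a • S) (a • T) ↔ Adj L S T := by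
  constructor
  · intro h
    have := t1_adj_smul hL (A.inv_mem ha) h
    rwa [inv_smul_smul, inv_smul_smul] at this
  · exact t1_adj_smul hL ha

/-- the geodesic next to `S` in the direction of `K` -/
theorem t1_next {L : Set Arc} (hL : Nest L) {S K : Arc} (hS : S ∈ L) (hK : K ∈ L) (h : K ≤ -S)
    (hne : K ≠ -S) : ∃ U, Adj L S U ∧ K ≤ U ∧ U ≤ -S ∧ U ≠ -S := by
  have hfin : {R | R ∈ L ∧ K ≤ R ∧ R ≤ -S ∧ R ≠ -S}.Finite :=
    (t1_interval_finite hL K (-S)).subset (fun R hR => ⟨hR.1, hR.2.1, hR.2.2.1⟩)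
  obtain ⟨U, hU, hmax⟩ := hfin.exists_maximal ⟨K, hK, le_refl K, h, hne⟩
  obtain ⟨hUL, hKU, hUS, hUne⟩ := hU
  refine ⟨U, ⟨hS, hUL, Or.inr ⟨le_neg_comm hUS, ?_, ?_⟩⟩, hKU, hUS, hUne⟩
  · rintro rfl
    exact hUne (neg_neg U).symm
  · intro R hR h1 h2
    by_cases hRS : R = S
    · exact Or.inl hRS
    · right
      have h3 : U ≤ -R := le_neg_comm h2
      have h4 : -R ≤ U := hmax ⟨hL.neg R hR, hKU.trans h3, Arc.neg_le_neg h1,
        fun e => hRS (neg_injective e)⟩ h3
      have h5 : -R = U := le_antisymm h4 h3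
      rw [← h5, neg_neg]

/-- every geodesic of `L` is on or behind exactly one bounding geodesic of the region of `S` -/
theorem region_cover {L : Set Arc} (hL : Nest L) {S K : Arc} (hS : S ∈ L) (hK : K ∈ L) :
    ∃ U, Adj L S U ∧ (K ≤ U ∨ -K ≤ U) := by
  have hself : Adj L S S := ⟨hS, hS, Or.inl rfl⟩
  -- a bounding geodesic for `K' ≤ -S`
  have key : ∀ K' ∈ L, K' ≤ -S → ∃ U, Adj L S U ∧ (K' ≤ U ∨ -K' ≤ U) := by
    intro K' hK' h
    by_cases hne : K' = -S
    · refine ⟨S, hself, Or.inr ?_⟩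
      rw [hne, neg_neg]
    · obtain ⟨U, h1, h2, _⟩ := t1_next hL hS hK' h hne
      exact ⟨U, h1, Or.inl h2⟩
  rcases hL.nest K hK S hS with h | h | h | h
  · exact ⟨S, hself, Or.inl h⟩
  · obtain ⟨U, h1, h2⟩ := key (-K) (hL.neg K hK) (Arc.neg_le_neg h)
    refine ⟨U, h1, ?_⟩
    rw [neg_neg] at h2
    exact h2.symm
  · exact key K hK h
  · exact ⟨S, hself, Or.inr (t1_neg_le h)⟩

theorem t1_conn_up {L : Set Arc} (hL : Nest L) (P : Arc → Prop)
    (hneg : ∀ S ∈ L, P S → P (-S)) (hadj : ∀ S T, Adj L S T → P S → P T) (T : Arc) (hT : T ∈ L)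
    (n : ℕ) : ∀ S ∈ L, S ≤ T → {R | R ∈ L ∧ S ≤ R ∧ R ≤ T}.ncard = n → P S → P T := by
  induction n using Nat.strong_induction_on with
  | _ n ih =>
    intro S hS hST hn hP
    by_cases hne : S = T
    · rwa [← hne]
    · have h1 : -T ≤ -S := Arc.neg_le_neg hST
      obtain ⟨U, hU1, hU2, hU3, hU4⟩ := t1_next hL hS (hL.neg T hT) h1
        (fun e => hne (neg_injective e).symm)
      have hUL : U ∈ L := hU1.2.1
      have hPU : P (-U) := hneg U hUL (hadj S U hU1 hP)
      have h2 : S ≤ -U := le_neg_comm hU3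
      have h3 : -U ≤ T := t1_neg_le hU2
      have hlt : {R | R ∈ L ∧ -U ≤ R ∧ R ≤ T}.ncard < n := by
        rw [← hn]
        apply Set.ncard_lt_ncard _ (t1_interval_finite hL S T)
        refine ⟨fun R hR => ⟨hR.1, h2.trans hR.2.1, hR.2.2⟩, fun hsub => ?_⟩
        have h4 := hsub (show S ∈ {R | R ∈ L ∧ S ≤ R ∧ R ≤ T} from ⟨hS, le_refl S, hST⟩)
        have h5 : S = -U := le_antisymm h2 h4.2.1
        apply hU4
        rw [h5, neg_neg]
      exact ih _ hlt (-U) (hL.neg U hUL) h3 rfl hPU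

theorem conn {L : Set Arc} (hL : Nest L) (P : Arc → Prop) {S₀ : Arc} (hS : S₀ ∈ L) (h0 : P S₀)
    (hneg : ∀ S ∈ L, P S → P (-S)) (hadj : ∀ S T, Adj L S T → P S → P T) : ∀ S ∈ L, P S := by
  intro S hSL
  have up : ∀ S₁ ∈ L, ∀ T ∈ L, S₁ ≤ T → P S₁ → P T := fun S₁ h₁ T hT h hP =>
    t1_conn_up hL P hneg hadj T hT _ S₁ h₁ h rfl hP
  have hback : P (-S) → P S := fun h => by
    have := hneg (-S) (hL.neg S hSL) h
    rwa [neg_neg] at this
  rcases hL.nest S hSL S₀ hS with h | h | h | h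
  · exact hback (up (-S₀) (hL.neg S₀ hS) (-S) (hL.neg S hSL) (Arc.neg_le_neg h) (hneg S₀ hS h0))
  · exact up S₀ hS S hSL h h0
  · exact hback (up S₀ hS (-S) (hL.neg S hSL) (le_neg_comm h) h0)
  · exact up (-S₀) (hL.neg S₀ hS) S hSL h (hneg S₀ hS h0)

end Pool.Agent.H100R2.SC
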