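import Pool.Agent.H100R2.SC.Defs
import Pool.Agent.H100R2.SC.A2
import Pool.Agent.H100R2.SC.A3
import Pool.Agent.H100R2.SC.A6
import Pool.Agent.H100R2.SC.A7
import Pool.Agent.H100R2.SC.A8
import Pool.Agent.H100R2.SC.A9
import Pool.Agent.H100R2.SC.B1
import Pool.Agent.H100R2.SC.B2
import Pool.Agent.H100R2.SC.B5
import Pool.Agent.H100R2.SC.B8
import Pool.Agent.H100R2.SC.T1

/-!
C0: bounding geodesics of a region, existence of a first family.
-/

set_option autoImplicit false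

namespace Pool.Agent.H100R2.SC

open Filter Topology

theorem C0.neg_not_le (T : Arc) (h : -T ≤ T) : False := Arc.not_le_and h (le_refl _)

theorem C0.exists_pos (T : Arc) : ∃ ξ : X, 0 < T.val ξ := by
  have hh := T.h
  rcases lt_trichotomy T.p 0 with hp | hp | hp
  · refine ⟨OnePoint.some (-T.q / T.p), ?_⟩
    show 0 < T.ev (-T.q / T.p) 1
    have hp0 : T.p ≠ 0 := hp.ne
    have e : T.ev (-T.q / T.p) 1 = (T.p * T.r - T.q ^ 2) / T.p := by
      unfold Arc.ev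
      field_simp
      ring
    rw [e, hh]
    exact div_pos_of_neg_of_neg (by norm_num) hp
  · refine ⟨OnePoint.some (T.q * (1 + T.r ^ 2)), ?_⟩
    show 0 < T.ev (T.q * (1 + T.r ^ 2)) 1
    have hq : T.q ^ 2 = 1 := by rw [hp] at hh; linarith
    have e : T.ev (T.q * (1 + T.r ^ 2)) 1 = 2 * T.q ^ 2 * (1 + T.r ^ 2) + T.r := by
      unfold Arc.ev
      rw [hp]
      ring
    rw [e, hq]
    nlinarith [sq_nonneg (T.r + 1)]
  · refine ⟨OnePoint.infty, ?_⟩
    show 0 < T.p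
    exact hp

theorem C0.exists_zero (T : Arc) : ∃ ξ : X, T.val ξ = 0 := by
  have hh := T.h
  by_cases hp : T.p = 0
  · exact ⟨OnePoint.infty, hp⟩
  · refine ⟨OnePoint.some ((-T.q + 1) / T.p), ?_⟩
    show T.ev ((-T.q + 1) / T.p) 1 = 0
    have e : T.ev ((-T.q + 1) / T.p) 1 = (T.p * T.r - T.q ^ 2 + 1) / T.p := by
      unfold Arc.ev
      field_simp
      ring
    rw [e, hh]
    norm_num

theorem exists_adj_ne {A : Subgroup GG} {L : Set Arc} (hA : Fuchs A) (hL : Fam A L) (S : Arc)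
    (hS : S ∈ L) : ∃ T, Adj L S T ∧ T ≠ S := by
  by_contra hcon
  push Not at hcon
  have h1 : ∀ K ∈ L, K ≤ S ∨ -K ≤ S := by
    intro K hK
    obtain ⟨U, hU, h⟩ := region_cover hL.toNest hS hK
    rwa [hcon U hU] at h
  -- all translates of `S` are equal to `S` or contain `-S`
  have h2 : ∀ a ∈ A, a • S = S ∨ -S ≤ a • S := by
    intro a ha
    have e1 : S ≤ a • S ∨ -S ≤ a • S := by
      have hK : a⁻¹ • S ∈ L := hL.inv _ (A.inv_mem ha) _ hS
      rcases h1 _ hK with h | h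
      · left
        have := (smul_le' a _ _).mpr h
        rwa [smul_inv_smul] at this
      · right
        have := (smul_le' a _ _).mpr h
        rwa [smul_neg', smul_inv_smul] at this
    rcases e1 with e1 | e1
    · rcases h1 _ (hL.inv a ha S hS) with e2 | e2
      · exact Or.inl (le_antisymm e2 e1)
      · exact (C0.neg_not_le _ (e2.trans e1)).elim
    · exact Or.inr e1
  obtain ⟨x0, hx0⟩ := C0.exists_zero S
  -- the open complementary arc
  have hU : IsOpen {ξ : X | 0 < (-S).val ξ} := continuous_val_pos (-S)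
  have hUne : {ξ : X | 0 < (-S).val ξ}.Nonempty := C0.exists_pos (-S)
  obtain ⟨β, hβ, -, x, hx, y, hy, -, -, -, -, hlim⟩ := pairs hA _ _ hU hU hUne hUne
  have hxy0 : x0 ≠ y := by
    intro h
    have : 0 < (-S).val y := hy
    rw [← h, val_neg, hx0] at this
    simp at this
  have hev := (hlim x0 hxy0).eventually (hU.mem_nhds hx)
  obtain ⟨n, hn⟩ := hev.exists
  have hn' : 0 < (-S).val (β ^ n • x0) := hn
  obtain ⟨k, hk, hval⟩ := val_smul (β ^ n) x0
  have hz : (β ^ n • S).val (β ^ n • x0) = 0 := by rw [hval, hx0, mul_zero]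
  rcases h2 _ (A.pow_mem hβ n) with h | h
  · rw [h] at hz
    rw [val_neg, hz] at hn'
    simp at hn'
  · have := val_mono h (β ^ n • x0)
    rw [hz] at this
    linarith

theorem C0.BB_self (S : Arc) : BB S S = 1 := by
  unfold BB
  have := S.h
  linarith

theorem initFam {Γ : Subgroup GG} (hΓ : Fuchs Γ) :
    ∃ (A : Subgroup GG) (L : Set Arc), A ≤ Γ ∧ A.relIndex Γ ≠ 0 ∧ Fam A L := by
  -- a nontrivial element
  obtain ⟨α, hα, hα1⟩ : ∃ α ∈ Γ, α ≠ 1 := by
    by_contra hcon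
    push Not at hcon
    obtain ⟨C, hC⟩ := hΓ.coc
    have hdet : (!![(1 : ℝ), |C| + 1; 0, 1]).det ≠ 0 := by
      rw [Matrix.det_fin_two_of]; norm_num
    obtain ⟨γ, hγ, h⟩ := hC (Matrix.GeneralLinearGroup.mkOfDetNeZero !![(1 : ℝ), |C| + 1; 0, 1] hdet)
      (by
        show (!![(1 : ℝ), |C| + 1; 0, 1]).det = 1
        rw [Matrix.det_fin_two_of]; norm_num)
    rw [hcon γ hγ, inv_one, one_mul] at h
    have h01 : |(|C| + 1)| ≤ C := h 0 1
    have h1 := le_abs_self (|C| + 1)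
    have h2 := le_abs_self C
    linarith
  obtain ⟨A, hA, hi, hαA, hsep⟩ := sep hΓ α hα hα1 1
  have hF : Fuchs A := fuchs_of_index hΓ hA hi
  set D := ax α with hD
  refine ⟨A, Orb A D, hA, hi, ?_⟩
  have h4 : ∀ a ∈ A, dt (a * α * a⁻¹) = 1 ∧ 4 < trc (a * α * a⁻¹) ^ 2 ∧ a * α * a⁻¹ ∈ A ∧
      a * α * a⁻¹ ≠ 1 ∧ ax (a * α * a⁻¹) = a • D := by
    intro a ha
    have hm : a * α * a⁻¹ ∈ A := A.mul_mem (A.mul_mem ha hαA) (A.inv_mem ha)
    have hne : a * α * a⁻¹ ≠ 1 := by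
      intro h
      apply hα1
      have := conj_eq_one_iff.mp h
      exact this
    refine ⟨hF.det1 _ hm, hyp hF hm hne, hm, hne, ?_⟩
    have hda : 0 < dt a := by rw [hF.det1 a ha]; norm_num
    exact ax_conj_pos a α hda (hF.det1 α hαA) (hyp hF hαA hα1)
  have hBB : ∀ S ∈ Orb A D, ∀ T ∈ Orb A D, 1 ≤ |BB S T| := by
    have key : ∀ a ∈ A, ∀ b ∈ A, 1 ≤ |BB (a • D) (b • D)| := by
      intro a ha b hb
      have e : BB (a • D) (b • D) = BB ((b⁻¹ * a) • D) D := by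
        rw [← BB_smul b⁻¹ (a • D) (b • D), inv_smul_smul, mul_smul]
      rw [e]
      rcases hsep _ (A.mul_mem (A.inv_mem hb) ha) with h | h
      · rw [h, C0.BB_self]; norm_num
      · exact h
    rintro S ⟨a, ha, rfl | rfl⟩ T ⟨b, hb, rfl | rfl⟩
    · exact key a ha b hb
    · rw [BB_comm, BB_neg, abs_neg]; exact key b hb a ha
    · rw [BB_neg, abs_neg]; exact key a ha b hb
    · rw [BB_neg, BB_comm, BB_neg, neg_neg]; exact key b hb a ha
  have hneg : ∀ S ∈ Orb A D, -S ∈ Orb A D := by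
    rintro S ⟨a, ha, rfl | rfl⟩
    · exact ⟨a, ha, Or.inr rfl⟩
    · exact ⟨a, ha, Or.inl (neg_neg _)⟩
  have hval : ∀ a ∈ A, ∀ b ∈ A, ∀ ξ : X, (a • D).val ξ = 0 → (b • D).val ξ = 0 →
      a • D = b • D ∨ a • D = -(b • D) := by
    intro a ha b hb ξ h1 h2
    obtain ⟨-, -, m1, n1, x1⟩ := h4 a ha
    obtain ⟨-, -, m2, n2, x2⟩ := h4 b hb
    rw [← x1] at h1 ⊢
    rw [← x2] at h2 ⊢
    exact ax_ne hF _ _ m1 n1 m2 n2 ξ h1 h2
  refine { neg := hneg, nest := ?_, lf := ?_, ne := ?_, inv := ?_, axs := ?_, ne0 := ?_ }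
  · intro S hS T hT
    exact nested_of_BB S T (hBB S hS T hT)
  · intro M
    have hfin := lf_orbit hF α hαA hα1 M
    refine (hfin.union (hfin.image Neg.neg)).subset ?_
    rintro S ⟨⟨a, ha, rfl | rfl⟩, hM⟩
    · exact Or.inl ⟨⟨a, ha, rfl⟩, hM⟩
    · refine Or.inr ⟨a • D, ⟨⟨a, ha, rfl⟩, ?_⟩, rfl⟩
      have : (-(a • D)).tr = -((a • D).tr) := by
        unfold Arc.tr; simp; ring
      rwa [this, abs_neg] at hM
  · rintro S ⟨a, ha, rfl | rfl⟩ T ⟨b, hb, rfl | rfl⟩ ξ h1 h2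
    · exact hval a ha b hb ξ h1 h2
    · rw [val_neg, neg_eq_zero] at h2
      rcases hval a ha b hb ξ h1 h2 with h | h
      · right; rw [neg_neg]; exact h
      · left; exact h
    · rw [val_neg, neg_eq_zero] at h1
      rcases hval a ha b hb ξ h1 h2 with h | h
      · right; rw [h]
      · left; rw [h, neg_neg]
    · rw [val_neg, neg_eq_zero] at h1 h2
      rcases hval a ha b hb ξ h1 h2 with h | h
      · left; rw [h]
      · right; rw [h]
  · rintro a ha S ⟨b, hb, rfl | rfl⟩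
    · exact ⟨a * b, A.mul_mem ha hb, Or.inl (mul_smul _ _ _).symm⟩
    · refine ⟨a * b, A.mul_mem ha hb, Or.inr ?_⟩
      rw [smul_neg', mul_smul]
  · rintro S ⟨a, ha, rfl | rfl⟩
    · obtain ⟨-, -, m1, n1, x1⟩ := h4 a ha
      exact ⟨_, m1, n1, x1⟩
    · obtain ⟨d1, t1, m1, n1, x1⟩ := h4 a ha
      refine ⟨(a * α * a⁻¹)⁻¹, A.inv_mem m1, inv_ne_one.mpr n1, ?_⟩
      rw [ax_inv _ d1 t1, x1]
  · exact ⟨D, 1, A.one_mem, Or.inl (one_smul _ _).symm⟩

end Pool.Agent.H100R2.SC
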