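import Pool.Agent.H100R2.SC.Defs
import Pool.Agent.H100R2.SC.T1

/-! Task C1 (helper398). -/

set_option autoImplicit false

namespace Pool.Agent.H100R2.SC

lemma C1_neg_le_both {S E : Arc} (h1 : S ≤ E) (h2 : -S ≤ E) : False := by
  have a := Arc.neg_le_neg h1
  have b := Arc.neg_le_neg h2
  rw [neg_neg] at b
  exact Arc.not_le_and b a

/-- a geodesic `S ≤ E` of `L`, where `E ∉ L` lies in the region of `K` and `S` does not bound this
region, is behind a geodesic `U` of the region with `S ≤ U ≤ E` -/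
lemma C1_key {L : Set Arc} (hcov : ∀ {S K : Arc}, S ∈ L → K ∈ L → ∃ U, Adj L S U ∧ (K ≤ U ∨ -K ≤ U))
    {E K S : Arc} (hE : E ∉ L) (hK : K ∈ L) (hU : ∀ U, Adj L K U → U ≤ E ∨ U ≤ -E) (hS : S ∈ L)
    (hSE : S ≤ E) : ∃ U, Adj L K U ∧ S ≤ U ∧ U ≤ E := by
  obtain ⟨U, hKU, h⟩ := hcov hK hS
  rcases h with h | h
  · rcases hU U hKU with h2 | h2
    · exact ⟨U, hKU, h, h2⟩
    · exact (Arc.not_le_and hSE (h.trans h2)).elim
  · rcases hU U hKU with h2 | h2
    · exact (C1_neg_le_both hSE (h.trans h2)).elim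
    · have h3 := Arc.neg_le_neg (h.trans h2)
      rw [neg_neg, neg_neg] at h3
      exact (hE ((le_antisymm hSE h3) ▸ hS)).elim

/-- version with explicit inputs from B1 and T1 -/
theorem C1_aux {A : Subgroup GG} {L : Set Arc} (hL : Fam A L)
    (hneg : ∀ (g : GG) (S : Arc), g • (-S) = -(g • S))
    (hle : ∀ (g : GG) (S T : Arc), g • S ≤ g • T ↔ S ≤ T)
    (hadj : ∀ {a : GG}, a ∈ A → ∀ {S T : Arc}, Adj L (a • S) (a • T) ↔ Adj L S T)
    (hcov : ∀ {S K : Arc}, S ∈ L → K ∈ L → ∃ U, Adj L S U ∧ (K ≤ U ∨ -K ≤ U)) (D : Arc)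
    (hDL : D ∉ L) (H : Arc) (hH : H ∈ L)
    (hD : ∀ U, Adj L H U → U ≤ D ∨ U ≤ -D) (S : Arc) (hS : S ∈ L) (hn : ∀ a ∈ A, ¬ Adj L H (a • S))
    (T : Arc) :
    Adj (L ∪ Orb A D) S T ↔ Adj L S T := by
  -- a translate `E` of `± D`
  have orb : ∀ E ∈ Orb A D, ∃ K, K ∈ L ∧ E ∉ L ∧ -E ∉ L ∧ (∀ U, Adj L K U → U ≤ E ∨ U ≤ -E) ∧
      ¬ Adj L K S := by
    rintro E ⟨a, ha, hE⟩
    have haD : a • D ∉ L := fun h => hDL (by
      have := hL.inv a⁻¹ (A.inv_mem ha) _ h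
      rwa [inv_smul_smul] at this)
    have haD' : -(a • D) ∉ L := fun h => haD (by
      have := hL.neg _ h
      rwa [neg_neg] at this)
    have hU : ∀ U, Adj L (a • H) U → U ≤ a • D ∨ U ≤ -(a • D) := by
      intro U hU
      have h1 : Adj L H (a⁻¹ • U) := by
        rw [← hadj ha, smul_inv_smul]; exact hU
      rcases hD _ h1 with h2 | h2
      · left
        have h3 := (hle a _ _).2 h2
        rwa [smul_inv_smul] at h3
      · right
        have h3 := (hle a _ _).2 h2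
        rwa [smul_inv_smul, hneg] at h3
    have hnS : ¬ Adj L (a • H) S := by
      intro h
      refine hn a⁻¹ (A.inv_mem ha) ?_
      rw [← hadj ha, smul_inv_smul]; exact h
    rcases hE with rfl | rfl
    · exact ⟨a • H, hL.inv a ha H hH, haD, haD', hU, hnS⟩
    · refine ⟨a • H, hL.inv a ha H hH, haD', by rw [neg_neg]; exact haD, fun U h => ?_, hnS⟩
      rw [neg_neg]
      exact (hU U h).symm
  constructor
  · rintro ⟨_, hT, h⟩
    rcases h with rfl | ⟨h1, h2, h3⟩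
    · exact ⟨hS, hS, Or.inl rfl⟩
    · rcases hT with hT | hT
      · exact ⟨hS, hT, Or.inr ⟨h1, h2, fun R hR => h3 R (Or.inl hR)⟩⟩
      · exfalso
        obtain ⟨K, hK, hE, hE', hU, hnS⟩ := orb T hT
        obtain ⟨U, hKU, h4, h5⟩ := C1_key hcov (E := -T) hE' hK
          (fun U h => by rw [neg_neg]; exact (hU U h).symm) hS h1
        rcases h3 U (Or.inl hKU.2.1) h4 h5 with rfl | rfl
        · exact hnS hKU
        · exact hE' hKU.2.1
  · rintro ⟨_, hT, h⟩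
    refine ⟨Or.inl hS, Or.inl hT, ?_⟩
    rcases h with h | ⟨h1, h2, h3⟩
    · exact Or.inl h
    · refine Or.inr ⟨h1, h2, fun R hR h4 h5 => ?_⟩
      rcases hR with hR | hR
      · exact h3 R hR h4 h5
      · exfalso
        obtain ⟨K, hK, hE, hE', hU, hnS⟩ := orb R hR
        obtain ⟨U, hKU, h6, h7⟩ := C1_key hcov hE hK hU hS h4
        rcases h3 U hKU.2.1 h6 (h7.trans h5) with rfl | rfl
        · exact hnS hKU
        · exact hE ((le_antisymm h5 h7) ▸ hL.neg _ hT)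

theorem add_adj_iff {A : Subgroup GG} {L : Set Arc} (hL : Fam A L) (D : Arc)
    (hL' : Fam A (L ∪ Orb A D)) (hDL : D ∉ L) (H : Arc) (hH : H ∈ L)
    (hD : ∀ U, Adj L H U → U ≤ D ∨ U ≤ -D) (S : Arc) (hS : S ∈ L) (hn : ∀ a ∈ A, ¬ Adj L H (a • S)) (T : Arc) :
    Adj (L ∪ Orb A D) S T ↔ Adj L S T :=
  C1_aux hL t1_smul_neg t1_smul_le (fun ha => adj_smul hL ha)
    (fun hS hK => region_cover hL.toNest hS hK) D hDL H hH hD S hS hn T

end Pool.Agent.H100R2.SC
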