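import Pool.Agent.H100R2.SC.T1

/-! Choice of orientation reversing cosets of the regions (task C10). -/

set_option autoImplicit false

namespace Pool.Agent.H100R2.SC

/-- the region of `T` is a translate of the region of `S` -/
def c10Rel (A : Subgroup GG) (L : Set Arc) (S T : Arc) : Prop := ∃ a ∈ A, Adj L S (a • T)

theorem c10_refl {A : Subgroup GG} {L : Set Arc} {S : Arc} (hS : S ∈ L) : c10Rel A L S S :=
  ⟨1, A.one_mem, by rw [one_smul]; exact ⟨hS, hS, Or.inl rfl⟩⟩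

theorem c10_symm {A : Subgroup GG} {L : Set Arc} (hL : Fam A L) {S T : Arc}
    (h : c10Rel A L S T) : c10Rel A L T S := by
  obtain ⟨a, ha, h1⟩ := h
  refine ⟨a⁻¹, A.inv_mem ha, ?_⟩
  have h2 := adj_symm hL.toNest h1
  rw [← adj_smul hL ha, smul_inv_smul]
  exact h2

theorem c10_trans {A : Subgroup GG} {L : Set Arc} (hL : Fam A L) {S T U : Arc}
    (h1 : c10Rel A L S T) (h2 : c10Rel A L T U) : c10Rel A L S U := by
  obtain ⟨a, ha, h1⟩ := h1
  obtain ⟨b, hb, h2⟩ := h2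
  refine ⟨a * b, A.mul_mem ha hb, ?_⟩
  rw [mul_smul]
  exact adj_trans hL.toNest h1 ((adj_smul hL ha).2 h2)

/-- representatives of the classes of regions -/
theorem c10_rep {A : Subgroup GG} {L : Set Arc} (hL : Fam A L) :
    ∃ rp : Arc → Arc, (∀ S ∈ L, rp S ∈ L ∧ c10Rel A L S (rp S)) ∧
      ∀ S T, S ∈ L → T ∈ L → c10Rel A L S T → rp S = rp T := by
  let s : Setoid L :=
    { r := fun S T => c10Rel A L S.1 T.1
      iseqv := ⟨fun S => c10_refl S.2, fun h => c10_symm hL h, fun h1 h2 => c10_trans hL h1 h2⟩ }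
  classical
  refine ⟨fun S => if h : S ∈ L then ((Quotient.mk s ⟨S, h⟩).out : L).1 else S, ?_, ?_⟩
  · intro S hS
    simp only [dif_pos hS]
    refine ⟨((Quotient.mk s ⟨S, hS⟩).out : L).2, ?_⟩
    exact c10_symm hL (Quotient.mk_out (s := s) ⟨S, hS⟩)
  · intro S T hS hT h
    simp only [dif_pos hS, dif_pos hT]
    have : Quotient.mk s ⟨S, hS⟩ = Quotient.mk s ⟨T, hT⟩ := Quotient.sound (s := s) h
    rw [this]

/-- stabilizer elements of the region of `S`: product -/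
theorem c10_mul {A : Subgroup GG} {L : Set Arc} (hL : Fam A L) {S : Arc} {a b : GG} (ha : a ∈ A)
    (h1 : Adj L S (a • S)) (h2 : Adj L S (b • S)) : Adj L S ((a * b) • S) := by
  rw [mul_smul]
  exact adj_trans hL.toNest h1 ((adj_smul hL ha).2 h2)

theorem c10_inv {A : Subgroup GG} {L : Set Arc} (hL : Fam A L) {S : Arc} {a : GG} (ha : a ∈ A)
    (h1 : Adj L S (a • S)) : Adj L S (a⁻¹ • S) := by
  rw [← adj_smul hL ha, smul_inv_smul]
  exact adj_symm hL.toNest h1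

theorem c10_act {A : Subgroup GG} {L : Set Arc} (hL : Fam A L) {S T : Arc} {a : GG} (ha : a ∈ A)
    (h1 : Adj L S (a • S)) (h2 : Adj L S T) : Adj L S (a • T) :=
  adj_trans hL.toNest h1 ((adj_smul hL ha).2 h2)

-- C10
theorem chooseN {A : Subgroup GG} {L : Set Arc} (hA : Fuchs A) (hL : Fam A L)
    (hr : ∀ S ∈ L, Refl A L S) : ∃ N, IsN A L N := by
  obtain ⟨rp, hrp, hrp2⟩ := c10_rep hL
  choose ρ hρ using hr
  classical
  let R : Arc → GG := fun S => if h : S ∈ L then ρ S h else 1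
  have hR : ∀ S ∈ L, dt (R S) < 0 ∧
      (∀ a ∈ A, Adj L S (a • S) → R S * a * (R S)⁻¹ ∈ A ∧ Adj L S ((R S * a * (R S)⁻¹) • S)) ∧
      (∀ a ∈ A, Adj L S (a • S) → (R S)⁻¹ * a * R S ∈ A ∧ Adj L S (((R S)⁻¹ * a * R S) • S)) ∧
      (∀ T, Adj L S T → ∃ a ∈ A, Adj L S (a • S) ∧ R S • T = a • T) := by
    intro S hS
    have e : R S = ρ S hS := dif_pos hS
    rw [e]
    exact hρ S hS
  clear_value R
  clear hρ ρ
  have hadjL : ∀ S T, Adj L S T → S ∈ L ∧ T ∈ L := fun S T h => ⟨h.1, h.2.1⟩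
  -- the action of `R S` and its inverse on the bounding geodesics
  have hact : ∀ S ∈ L, ∀ T, Adj L S T → Adj L S (R S • T) := by
    intro S hS T hT
    obtain ⟨a, ha, h1, h2⟩ := (hR S hS).2.2.2 T hT
    rw [h2]
    exact c10_act hL ha h1 hT
  have hact' : ∀ S ∈ L, ∀ T, Adj L S T → Adj L S ((R S)⁻¹ • T) := by
    intro S hS T hT
    obtain ⟨a, ha, h1, h2⟩ := (hR S hS).2.2.2 T hT
    have h3 := c10_inv hL ha h1
    obtain ⟨h4, h5⟩ := (hR S hS).2.2.1 a⁻¹ (A.inv_mem ha) h3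
    have h6 : (R S)⁻¹ • T = ((R S)⁻¹ * a⁻¹ * R S) • T := by
      rw [mul_smul, mul_smul, h2, inv_smul_smul]
    rw [h6]
    exact c10_act hL h4 h5 hT
  refine ⟨fun S => {n | ∃ a ∈ A, Adj L S (a • rp S) ∧ ∃ b ∈ A, Adj L (rp S) (b • rp S) ∧
    n = a * (b * R (rp S)) * a⁻¹}, ?_⟩
  constructor
  · -- adj
    intro S T h
    have hST : rp S = rp T := hrp2 S T h.1 h.2.1 ⟨1, A.one_mem, by rw [one_smul]; exact h⟩
    ext n
    simp only [Set.mem_ofPred_eq]
    rw [hST]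
    constructor
    · rintro ⟨a, ha, h1, h2⟩
      exact ⟨a, ha, adj_trans hL.toNest (adj_symm hL.toNest h) h1, h2⟩
    · rintro ⟨a, ha, h1, h2⟩
      exact ⟨a, ha, adj_trans hL.toNest h h1, h2⟩
  · -- conj
    rintro a ha S hS n ⟨c, hc, h1, b, hb, h2, rfl⟩
    have haS : a • S ∈ L := hL.inv a ha S hS
    have hST : rp (a • S) = rp S := hrp2 (a • S) S haS hS ⟨a, ha, ⟨haS, haS, Or.inl rfl⟩⟩
    refine ⟨a * c, A.mul_mem ha hc, ?_, b, hb, ?_, ?_⟩
    · rw [hST, mul_smul]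
      exact (adj_smul hL ha).2 h1
    · rw [hST]; exact h2
    · rw [hST]; group
  · -- fix
    intro S hS
    obtain ⟨hrL, a, ha, h1⟩ := hrp S hS
    have h2 : Adj L (rp S) (a⁻¹ • S) := by
      rw [← adj_smul hL ha, smul_inv_smul]
      exact adj_symm hL.toNest h1
    obtain ⟨b, hb, h3, h4⟩ := (hR (rp S) hrL).2.2.2 _ h2
    refine ⟨a * (b⁻¹ * R (rp S)) * a⁻¹, ⟨a, ha, h1, b⁻¹, A.inv_mem hb, c10_inv hL hb h3, rfl⟩, ?_⟩
    rw [mul_smul, mul_smul, mul_smul, h4, inv_smul_smul, smul_inv_smul]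
  · -- div
    rintro S hS n ⟨a, ha, h1, b, hb, h2, rfl⟩ n' ⟨a', ha', h1', b', hb', h2', rfl⟩
    have hrL := (hrp S hS).1
    have h3 : Adj L (a • rp S) (a' • rp S) := adj_trans hL.toNest (adj_symm hL.toNest h1) h1'
    have h4 : Adj L (rp S) ((a⁻¹ * a') • rp S) := by
      rw [← adj_smul hL ha, mul_smul, smul_inv_smul]
      exact h3
    obtain ⟨h5, -⟩ := (hR (rp S) hrL).2.1 (a⁻¹ * a') (A.mul_mem (A.inv_mem ha) ha') h4
    have h6 : a * (b * R (rp S)) * a⁻¹ * (a' * (b' * R (rp S)) * a'⁻¹)⁻¹ =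
        a * b * (R (rp S) * (a⁻¹ * a') * (R (rp S))⁻¹) * b'⁻¹ * a'⁻¹ := by group
    rw [h6]
    exact A.mul_mem (A.mul_mem (A.mul_mem (A.mul_mem ha hb) h5) (A.inv_mem hb')) (A.inv_mem ha')
  · -- det
    rintro S hS n ⟨a, ha, h1, b, hb, h2, rfl⟩
    have hrL := (hrp S hS).1
    rw [dt_mul, dt_mul, dt_mul, hA.det1 a ha, hA.det1 b hb, hA.det1 a⁻¹ (A.inv_mem ha)]
    simpa using (hR (rp S) hrL).1
  · -- pres
    rintro S hS n ⟨a, ha, h1, b, hb, h2, rfl⟩ T hT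
    have hrL := (hrp S hS).1
    have h3 : Adj L (rp S) (a⁻¹ • T) := by
      rw [← adj_smul hL ha, smul_inv_smul]
      exact adj_trans hL.toNest (adj_symm hL.toNest h1) hT
    constructor
    · have h4 : Adj L (rp S) (b • (R (rp S) • (a⁻¹ • T))) :=
        c10_act hL hb h2 (hact _ hrL _ h3)
      have h5 := adj_trans hL.toNest h1 ((adj_smul hL ha).2 h4)
      simpa only [mul_smul] using h5
    · have h4 : Adj L (rp S) ((R (rp S))⁻¹ • (b⁻¹ • (a⁻¹ • T))) :=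
        hact' _ hrL _ (c10_act hL (A.inv_mem hb) (c10_inv hL hb h2) h3)
      have h5 := adj_trans hL.toNest h1 ((adj_smul hL ha).2 h4)
      have h6 : (a * (b * R (rp S)) * a⁻¹)⁻¹ = a * ((R (rp S))⁻¹ * (b⁻¹ * a⁻¹)) := by group
      rw [h6]
      simpa only [mul_smul] using h5

end Pool.Agent.H100R2.SC
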