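import Pool.Agent.H100R2.SC.Defs
import Pool.Agent.H100R2.SC.B1
import Pool.Agent.H100R2.SC.A7

set_option autoImplicit false

namespace Pool.Agent.H100R2.SC

open Filter Topology

/-- same geodesic up to `A` and orientation -/
def c11Rel (A : Subgroup GG) (S T : Arc) : Prop := ∃ a ∈ A, T = a • S ∨ T = -(a • S)

theorem c11_refl (A : Subgroup GG) (S : Arc) : c11Rel A S S :=
  ⟨1, A.one_mem, Or.inl (one_smul _ _).symm⟩

theorem c11_symm (A : Subgroup GG) {S T : Arc} (h : c11Rel A S T) : c11Rel A T S := by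
  obtain ⟨a, ha, h | h⟩ := h
  · exact ⟨a⁻¹, A.inv_mem ha, Or.inl (by rw [h, inv_smul_smul])⟩
  · exact ⟨a⁻¹, A.inv_mem ha, Or.inr (by rw [h, smul_neg', inv_smul_smul, neg_neg])⟩

theorem c11_trans (A : Subgroup GG) {S T U : Arc} (h : c11Rel A S T) (h' : c11Rel A T U) :
    c11Rel A S U := by
  obtain ⟨a, ha, h⟩ := h
  obtain ⟨b, hb, h'⟩ := h'
  refine ⟨b * a, A.mul_mem hb ha, ?_⟩
  rcases h with rfl | rfl <;> rcases h' with rfl | rfl
  · left; rw [mul_smul]
  · right; rw [mul_smul]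
  · right; rw [mul_smul, smul_neg']
  · left; rw [mul_smul, smul_neg', neg_neg]

def c11Setoid (A : Subgroup GG) : Setoid Arc where
  r := c11Rel A
  iseqv := ⟨c11_refl A, c11_symm A, c11_trans A⟩

/-- representative -/
noncomputable def c11rep (A : Subgroup GG) (S : Arc) : Arc :=
  (Quotient.mk (c11Setoid A) S).out

theorem c11rep_rel (A : Subgroup GG) (S : Arc) : c11Rel A (c11rep A S) S := by
  have h := Quotient.mk_out (s := c11Setoid A) S
  exact h

theorem c11rep_eq (A : Subgroup GG) {S T : Arc} (h : c11Rel A S T) : c11rep A S = c11rep A T := by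
  unfold c11rep
  have : Quotient.mk (c11Setoid A) S = Quotient.mk (c11Setoid A) T := Quotient.sound h
  rw [this]

open Classical in
/-- the cocycle built from values `t` on the representatives -/
noncomputable def c11tau (A : Subgroup GG) (t : Arc → GG) (S : Arc) : GG :=
  if h : ∃ a ∈ A, S = a • c11rep A S then h.choose * t (c11rep A S) * h.choose⁻¹
  else if h : ∃ a ∈ A, S = -(a • c11rep A S) then h.choose * (t (c11rep A S))⁻¹ * h.choose⁻¹
  else 1

theorem c11_conj {A : Subgroup GG} (hA : Fuchs A) {t : GG} {R : Arc}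
    (ht : 0 < dt t) (htR : t • R = R) {a b : GG} (ha : a ∈ A) (hb : b ∈ A)
    (h : a • R = b • R) : a * t * a⁻¹ = b * t * b⁻¹ := by
  have h1 : (b⁻¹ * a) • R = R := by rw [mul_smul, h, inv_smul_smul]
  have h2 : 0 < dt (b⁻¹ * a) := by
    rw [hA.det1 _ (A.mul_mem (A.inv_mem hb) ha)]
    norm_num
  have h3 := stab_comm (b⁻¹ * a) t R h2 ht h1 htR
  have h4 : a * t = b * (t * (b⁻¹ * a)) := by
    rw [← h3]; group
  rw [h4]
  group

theorem c11_dt_inv (g : GG) : dt g⁻¹ = (dt g)⁻¹ := by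
  have h : dt g * dt g⁻¹ = 1 := by rw [← dt_mul, mul_inv_cancel, dt_one]
  exact eq_inv_of_mul_eq_one_right h

theorem c11_fix (a n : GG) (R : Arc) (h : n • R = R) : (a * n * a⁻¹) • (a • R) = a • R := by
  rw [mul_smul, mul_smul, inv_smul_smul, h]

theorem c11_fixn (a n : GG) (R : Arc) (h : n • R = R) :
    (a * n * a⁻¹) • (-(a • R)) = -(a • R) := by
  rw [smul_neg', c11_fix a n R h]

-- C11
theorem chooseTau {A : Subgroup GG} {L : Set Arc} (hA : Fuchs A) (hL : Fam A L) (N : Arc → Set GG)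
    (hN : IsN A L N) :
    ∃ τ : Arc → GG, (∀ S ∈ L, τ (-S) = (τ S)⁻¹) ∧ (∀ a ∈ A, ∀ S ∈ L, τ (a • S) = a * τ S * a⁻¹) ∧
      ∀ S ∈ L, ∃ n ∈ N S, ∃ n' ∈ N (-S), n • S = S ∧ n' • S = S ∧ τ S = n⁻¹ * n' := by
  classical
  -- the elements fixing `S`
  have hc : ∀ S : Arc, ∃ n : GG, S ∈ L → n ∈ N S ∧ n • S = S := by
    intro S
    by_cases hS : S ∈ L
    · obtain ⟨n, hn, h⟩ := hN.fix S hS
      exact ⟨n, fun _ => ⟨hn, h⟩⟩
    · exact ⟨1, fun h => absurd h hS⟩
  choose c hc using hc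
  have hc1 : ∀ S ∈ L, c S ∈ N S := fun S hS => (hc S hS).1
  have hc2 : ∀ S ∈ L, c S • S = S := fun S hS => (hc S hS).2
  have hc3 : ∀ S ∈ L, c (-S) ∈ N (-S) := fun S hS => (hc (-S) (hL.neg S hS)).1
  have hc4 : ∀ S ∈ L, c (-S) • S = S := by
    intro S hS
    have h := (hc (-S) (hL.neg S hS)).2
    rw [smul_neg'] at h
    exact neg_injective h
  let t : Arc → GG := fun S => (c S)⁻¹ * c (-S)
  have ht1 : ∀ S ∈ L, 0 < dt (t S) := by
    intro S hS
    show 0 < dt ((c S)⁻¹ * c (-S))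
    rw [dt_mul, c11_dt_inv]
    exact mul_pos_of_neg_of_neg (inv_neg''.mpr (hN.det S hS _ (hc1 S hS)))
      (hN.det (-S) (hL.neg S hS) _ (hc3 S hS))
  have ht2 : ∀ S ∈ L, t S • S = S := by
    intro S hS
    show ((c S)⁻¹ * c (-S)) • S = S
    rw [mul_smul, hc4 S hS, inv_smul_eq_iff, hc2 S hS]
  have hflip : ∀ R ∈ L, ∀ a ∈ A, ∀ b ∈ A, a • R ≠ -(b • R) := by
    intro R hR a ha b hb h
    obtain ⟨α, hα, h1, rfl⟩ := hL.axs R hR
    apply no_flip hA α hα h1 (b⁻¹ * a) (A.mul_mem (A.inv_mem hb) ha)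
    rw [mul_smul, h, smul_neg', inv_smul_smul]
  have hrep : ∀ S ∈ L, c11rep A S ∈ L := by
    intro S hS
    obtain ⟨a, ha, h | h⟩ := c11_symm A (c11rep_rel A S)
    · rw [h]; exact hL.inv a ha S hS
    · rw [h]; exact hL.neg _ (hL.inv a ha S hS)
  have hv1 : ∀ S ∈ L, ∀ a ∈ A, S = a • c11rep A S →
      c11tau A t S = a * t (c11rep A S) * a⁻¹ := by
    intro S hS a ha h
    have hex : ∃ a ∈ A, S = a • c11rep A S := ⟨a, ha, h⟩
    unfold c11tau
    rw [dif_pos hex]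
    obtain ⟨hb, h'⟩ := hex.choose_spec
    exact c11_conj hA (ht1 _ (hrep S hS)) (ht2 _ (hrep S hS)) hb ha (h'.symm.trans h)
  have hv2 : ∀ S ∈ L, ∀ a ∈ A, S = -(a • c11rep A S) →
      c11tau A t S = a * (t (c11rep A S))⁻¹ * a⁻¹ := by
    intro S hS a ha h
    have hnex : ¬ ∃ a ∈ A, S = a • c11rep A S := by
      rintro ⟨b, hb, h'⟩
      exact hflip _ (hrep S hS) b hb a ha (h'.symm.trans h)
    have hex : ∃ a ∈ A, S = -(a • c11rep A S) := ⟨a, ha, h⟩
    unfold c11tau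
    rw [dif_neg hnex, dif_pos hex]
    obtain ⟨hb, h'⟩ := hex.choose_spec
    have ht2' : (t (c11rep A S))⁻¹ • c11rep A S = c11rep A S := by
      rw [inv_smul_eq_iff, ht2 _ (hrep S hS)]
    have ht1' : 0 < dt (t (c11rep A S))⁻¹ := by
      rw [c11_dt_inv]
      exact inv_pos.mpr (ht1 _ (hrep S hS))
    exact c11_conj hA ht1' ht2' hb ha (neg_injective (h'.symm.trans h))
  refine ⟨c11tau A t, ?_, ?_, ?_⟩
  · intro S hS
    have hr : c11rep A (-S) = c11rep A S :=
      (c11rep_eq A ⟨1, A.one_mem, Or.inr (by rw [one_smul])⟩).symm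
    obtain ⟨a, ha, h | h⟩ := c11rep_rel A S
    · rw [hv1 S hS a ha h, hv2 (-S) (hL.neg S hS) a ha (by rw [hr, ← h]), hr]
      group
    · rw [hv2 S hS a ha h, hv1 (-S) (hL.neg S hS) a ha (by rw [hr]; exact neg_eq_iff_eq_neg.mpr h), hr]
      group
  · intro b hb S hS
    have hr : c11rep A (b • S) = c11rep A S := (c11rep_eq A ⟨b, hb, Or.inl rfl⟩).symm
    obtain ⟨a, ha, h | h⟩ := c11rep_rel A S
    · rw [hv1 S hS a ha h, hv1 (b • S) (hL.inv b hb S hS) (b * a) (A.mul_mem hb ha)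
        (by rw [hr, mul_smul, ← h]), hr]
      group
    · rw [hv2 S hS a ha h, hv2 (b • S) (hL.inv b hb S hS) (b * a) (A.mul_mem hb ha)
        (by rw [hr, mul_smul, ← smul_neg', ← h]), hr]
      group
  · intro S hS
    have hR := hrep S hS
    obtain ⟨a, ha, h | h⟩ := c11rep_rel A S
    · refine ⟨a * c (c11rep A S) * a⁻¹, ?_, a * c (-(c11rep A S)) * a⁻¹, ?_, ?_, ?_, ?_⟩
      · have := hN.conj a ha _ hR _ (hc1 _ hR)
        rwa [← h] at this
      · have := hN.conj a ha _ (hL.neg _ hR) _ (hc3 _ hR)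
        rwa [smul_neg', ← h] at this
      · have := c11_fix a _ _ (hc2 _ hR)
        rwa [← h] at this
      · have := c11_fix a _ _ (hc4 _ hR)
        rwa [← h] at this
      · rw [hv1 S hS a ha h]
        show a * ((c (c11rep A S))⁻¹ * c (-(c11rep A S))) * a⁻¹ = _
        group
    · refine ⟨a * c (-(c11rep A S)) * a⁻¹, ?_, a * c (c11rep A S) * a⁻¹, ?_, ?_, ?_, ?_⟩
      · have := hN.conj a ha _ (hL.neg _ hR) _ (hc3 _ hR)
        rwa [smul_neg', ← h] at this
      · have := hN.conj a ha _ hR _ (hc1 _ hR)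
        rwa [← neg_eq_iff_eq_neg.mpr h] at this
      · have := c11_fixn a _ _ (hc4 _ hR)
        rwa [← h] at this
      · have := c11_fixn a _ _ (hc2 _ hR)
        rwa [← h] at this
      · rw [hv2 S hS a ha h]
        show a * ((c (c11rep A S))⁻¹ * c (-(c11rep A S)))⁻¹ * a⁻¹ = _
        group

end Pool.Agent.H100R2.SC
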