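import Pool.Agent.H100R2.SC.C2core
import Pool.Agent.H100R2.SC.C0

/-! Nearest pairs of bounding geodesics exist (task C2). -/

set_option autoImplicit false

namespace Pool.Agent.H100R2.SC

open Filter Topology

theorem near_any {A : Subgroup GG} {L : Set Arc} (hA : Fuchs A) (hL : Fam A L) (S : Arc) (hS : S ∈ L) :
    ∃ H H', Adj L S H ∧ Adj L S H' ∧ H ≠ H' ∧
      ∀ U V, Adj L S U → Adj L S V → U ≠ V → kap H H' ≤ kap U V := by
  obtain ⟨T, hT, hne⟩ := exists_adj_ne hA hL S hS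
  exact c2_min hA hL S (fun U V => U ≠ V) (fun U V h => h) S T ⟨hS, hS, Or.inl rfl⟩ hT hne.symm

end Pool.Agent.H100R2.SC
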