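import Pool.Agent.H100R2.SC.B1
import Pool.Agent.H100R2.SC.B6
import Pool.Agent.H100R2.SC.T1

/-! C3: the nearest pair of bounding geodesics is unlinked from its translates -/

set_option autoImplicit false

namespace Pool.Agent.H100R2.SC

/-- the core of C3 -/
theorem c3_core {H H' K K' : Arc} (h1 : H = H' ∨ H ≤ -H') (h2 : H = K ∨ H ≤ -K) (h3 : H = K' ∨ H ≤ -K')
    (h4 : K = H' ∨ K ≤ -H') (h5 : K = K' ∨ K ≤ -K') (h6 : H' = K' ∨ H' ≤ -K')
    (hHH : H ≠ H') (hKK : K ≠ K')
    (e : kap K K' = kap H H') (m1 : K ≠ H' → kap H H' ≤ kap K H') (m2 : H ≠ K' → kap H H' ≤ kap H K')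
    (hl : Linked H H' K K') : False := by
  have d1 : ∀ S U : Arc, Del S S U = 0 := by intro S U; unfold Del; ring
  have d2 : ∀ S U : Arc, Del S U U = 0 := by intro S U; unfold Del; ring
  have d3 : ∀ S U : Arc, Del S U S = 0 := by intro S U; unfold Del; ring
  have h1' := h1.resolve_left hHH
  have h5' := h5.resolve_left hKK
  have kp : ∀ S T : Arc, S ≤ -T → 1 ≤ kap S T := kap_ge
  unfold Linked at hl
  -- distinctness
  have n2 : H ≠ K := by
    rintro rfl
    rcases hl with ⟨a, b⟩ | ⟨a, b⟩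
    · rw [d1] at a; exact lt_irrefl _ a
    · rw [d2] at b; exact lt_irrefl _ b
  have n3 : H ≠ K' := by
    rintro rfl
    rcases hl with ⟨a, b⟩ | ⟨a, b⟩
    · rw [d2] at b; exact lt_irrefl _ b
    · rw [d1] at a; exact lt_irrefl _ a
  have n4 : K ≠ H' := by
    rintro rfl
    rcases hl with ⟨a, b⟩ | ⟨a, b⟩
    · rw [d2] at a; exact lt_irrefl _ a
    · rw [d1] at b; exact lt_irrefl _ b
  have n6 : H' ≠ K' := by
    rintro rfl
    rcases hl with ⟨a, b⟩ | ⟨a, b⟩
    · rw [d1] at b; exact lt_irrefl _ b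
    · rw [d2] at a; exact lt_irrefl _ a
  have h2' := h2.resolve_left n2
  have h3' := h3.resolve_left n3
  have h4' := h4.resolve_left n4
  have h6' := h6.resolve_left n6
  have m1' := m1 n4
  have m2' := m2 n3
  have hk := kp H H' h1'
  rcases hl with ⟨a, b⟩ | ⟨a, b⟩
  · have q := quad H K H' K' h2' h1' h3' h4' h5' h6' a b
    have q1 := kp H K h2'
    have q2 := kp H' K' h6'
    rw [e, kap_comm K' H] at q
    nlinarith [mul_le_mul m1' m2' (by linarith) (by linarith), mul_pos (by linarith : 0 < kap H K) (by linarith : 0 < kap H' K')]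
  · have q := quad H K' H' K h3' h1' h2' (Arc.le_neg_comm h6') (Arc.le_neg_comm h5') (Arc.le_neg_comm h4') a b
    have q1 := kp H K h2'
    have q2 := kp H' K' h6'
    rw [kap_comm K' K, e, kap_comm H' K, kap_comm K' H', kap_comm K H] at q
    nlinarith [mul_le_mul m2' m1' (by linarith) (by linarith), mul_pos (by linarith : 0 < kap H K) (by linarith : 0 < kap H' K')]

theorem adj_or {L : Set Arc} {S T : Arc} (h : Adj L S T) : S = T ∨ S ≤ -T := by
  rcases h.2.2 with h | h
  · exact Or.inl h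
  · exact Or.inr h.1

/-- the nearest pair among the mixed pairs -/
theorem unl_mixed {A : Subgroup GG} {L : Set Arc} (hA : Fuchs A) (hL : Fam A L) (H H' : Arc)
    (h : Adj L H H') (hm : ∀ a ∈ A, a • H ≠ H')
    (hmin : ∀ U V, Adj L H U → Adj L H V → (∀ a ∈ A, a • U ≠ V) → kap H H' ≤ kap U V) : Unl A L H H' := by
  intro c hc h2 hl
  have hLn : Nest L := hL.toNest
  have h5 : Adj L (c • H) (c • H') := (adj_smul hL hc).2 h
  have h3 : Adj L H (c • H') := adj_trans hLn h2 h5
  have h4 : Adj L (c • H) H' := adj_trans hLn (adj_symm hLn h2) h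
  have h6 : Adj L H' (c • H') := adj_trans hLn (adj_symm hLn h) h3
  have hself : Adj L H H := ⟨h.1, h.1, Or.inl rfl⟩
  have hHH : H ≠ H' := by
    intro h0
    exact hm 1 A.one_mem (by rw [one_smul]; exact h0)
  have hKK : c • H ≠ c • H' := fun h0 => hHH (smul_left_cancel c h0)
  refine c3_core (adj_or h) (adj_or h2) (adj_or h3) (adj_or h4) (adj_or h5) (adj_or h6) hHH hKK
    (kap_smul c H H') (fun _ => ?_) (fun _ => ?_) hl
  · refine hmin _ _ h2 h (fun a ha h0 => ?_)
    exact hm (a * c) (A.mul_mem ha hc) (by rw [mul_smul]; exact h0)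
  · refine hmin _ _ hself h3 (fun a ha h0 => ?_)
    refine hm (c⁻¹ * a) (A.mul_mem (A.inv_mem hc) ha) ?_
    rw [mul_smul, h0, inv_smul_smul]

/-- the nearest pair among all pairs -/
theorem unl_any {A : Subgroup GG} {L : Set Arc} (hA : Fuchs A) (hL : Fam A L) (H H' : Arc)
    (h : Adj L H H') (hm : H ≠ H')
    (hmin : ∀ U V, Adj L H U → Adj L H V → U ≠ V → kap H H' ≤ kap U V) : Unl A L H H' := by
  intro c hc h2 hl
  have hLn : Nest L := hL.toNest
  have h5 : Adj L (c • H) (c • H') := (adj_smul hL hc).2 h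
  have h3 : Adj L H (c • H') := adj_trans hLn h2 h5
  have h4 : Adj L (c • H) H' := adj_trans hLn (adj_symm hLn h2) h
  have h6 : Adj L H' (c • H') := adj_trans hLn (adj_symm hLn h) h3
  have hself : Adj L H H := ⟨h.1, h.1, Or.inl rfl⟩
  have hKK : c • H ≠ c • H' := fun h0 => hm (smul_left_cancel c h0)
  exact c3_core (adj_or h) (adj_or h2) (adj_or h3) (adj_or h4) (adj_or h5) (adj_or h6) hm hKK
    (kap_smul c H H') (fun h0 => hmin _ _ h2 h h0) (fun h0 => hmin _ _ hself h3 h0) hl

end Pool.Agent.H100R2.SC
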