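import Pool.Agent.H100R2.SC.Defs
import Pool.Agent.H100R2.SC.B1
import Pool.Agent.H100R2.SC.B5
import Pool.Agent.H100R2.SC.B6
import Pool.Agent.H100R2.SC.T1
import Pool.Agent.H100R2.SC.A2

/-! C4: `loc1`, the axis of `(β α)⁻¹` (helper53). -/

set_option autoImplicit false

namespace Pool.Agent.H100R2.SC

namespace C4

/-- coordinates of the axis -/
lemma axdat (g : GG) (h1 : dt g = 1) (h2 : 4 < trc g ^ 2) :
    ∃ κ : ℝ, κ ^ 2 * (trc g ^ 2 - 4) = 4 ∧ 0 < κ * trc g ∧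
      (ax g).p = κ * (g : Matrix (Fin 2) (Fin 2) ℝ) 1 0 ∧
      (ax g).q = κ * (((g : Matrix (Fin 2) (Fin 2) ℝ) 1 1 - (g : Matrix (Fin 2) (Fin 2) ℝ) 0 0) / 2) ∧
      (ax g).r = -(κ * (g : Matrix (Fin 2) (Fin 2) ℝ) 0 1) := by
  have h3 : (0:ℝ) < trc g ^ 2 - 4 := by linarith
  have h4 : √(trc g ^ 2 - 4) ^ 2 = trc g ^ 2 - 4 := Real.sq_sqrt h3.le
  have h4' : 0 < √(trc g ^ 2 - 4) := Real.sqrt_pos.mpr h3
  have h50 : trc g ≠ 0 := by
    intro h
    rw [h] at h2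
    norm_num at h2
  have h5 : ((SignType.sign (trc g) : SignType) : ℝ) ^ 2 = 1 := by
    rcases lt_or_gt_of_ne h50 with h | h
    · simp [sign_neg h]
    · simp [sign_pos h]
  have h6 : 0 < ((SignType.sign (trc g) : SignType) : ℝ) * trc g := by
    rcases lt_or_gt_of_ne h50 with h | h
    · simp [sign_neg h, h]
    · simp [sign_pos h, h]
  refine ⟨2 * ((SignType.sign (trc g) : SignType) : ℝ) / √(trc g ^ 2 - 4), ?_, ?_, ?_, ?_, ?_⟩
  · rw [div_pow, h4, mul_pow, h5]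
    field_simp
    norm_num
  · have : 2 * ((SignType.sign (trc g) : SignType) : ℝ) / √(trc g ^ 2 - 4) * trc g =
      2 * (((SignType.sign (trc g) : SignType) : ℝ) * trc g) / √(trc g ^ 2 - 4) := by ring
    rw [this]
    positivity
  · rw [ax, dif_pos ⟨h1, h2⟩]
  · rw [ax, dif_pos ⟨h1, h2⟩]
  · rw [ax, dif_pos ⟨h1, h2⟩]

lemma le_neg_of (S T : Arc) (h1 : S.p + T.p ≤ 0) (h2 : S.r + T.r ≤ 0)
    (h3 : 2 ≤ S.p * T.r + S.r * T.p - 2 * S.q * T.q) : S ≤ -T := by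
  intro x y
  rw [Arc.ev_neg]
  have hS := S.h
  have hT := T.h
  have hd : 0 ≤ (S.p + T.p) * (S.r + T.r) - (S.q + T.q) ^ 2 := by nlinarith
  simp only [Arc.ev]
  set P := S.p + T.p with hP
  set R := S.r + T.r with hR
  set Q := S.q + T.q with hQ
  have key : P * x ^ 2 + 2 * Q * x * y + R * y ^ 2 ≤ 0 := by
    rcases lt_or_eq_of_le h1 with h | h
    · have e : P * (P * x ^ 2 + 2 * Q * x * y + R * y ^ 2) = (P * x + Q * y) ^ 2 + (P * R - Q ^ 2) * y ^ 2 := by ring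
      have e2 : 0 ≤ P * (P * x ^ 2 + 2 * Q * x * y + R * y ^ 2) := by rw [e]; positivity
      by_contra hc
      push Not at hc
      nlinarith [mul_pos_of_neg_of_neg h (neg_neg_of_pos hc)]
    · have hQ0 : Q = 0 := by
        rw [h] at hd
        have : Q ^ 2 ≤ 0 := by nlinarith
        exact pow_eq_zero_iff (two_ne_zero) |>.mp (le_antisymm this (sq_nonneg _))
      rw [h, hQ0]
      nlinarith [sq_nonneg y]
  rw [hP, hQ, hR] at key
  nlinarith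

lemma p_le {S T : Arc} (h : S ≤ -T) : S.p + T.p ≤ 0 := by
  have := h 1 0
  rw [Arc.ev_neg] at this
  simp only [Arc.ev] at this
  linarith

lemma r_le {S T : Arc} (h : S ≤ -T) : S.r + T.r ≤ 0 := by
  have := h 0 1
  rw [Arc.ev_neg] at this
  simp only [Arc.ev] at this
  linarith

lemma smul_p (g : GG) (h : dt g = 1) (S : Arc) : (g • S).p =
    S.p * (g : Matrix (Fin 2) (Fin 2) ℝ) 1 1 ^ 2
     - 2 * S.q * (g : Matrix (Fin 2) (Fin 2) ℝ) 1 0 * (g : Matrix (Fin 2) (Fin 2) ℝ) 1 1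
     + S.r * (g : Matrix (Fin 2) (Fin 2) ℝ) 1 0 ^ 2 := by
  show (_ : ℝ) / |dt g| = _
  rw [h, abs_one, div_one]

lemma smul_q (g : GG) (h : dt g = 1) (S : Arc) : (g • S).q =
    - S.p * (g : Matrix (Fin 2) (Fin 2) ℝ) 0 1 * (g : Matrix (Fin 2) (Fin 2) ℝ) 1 1
     + S.q * ((g : Matrix (Fin 2) (Fin 2) ℝ) 0 0 * (g : Matrix (Fin 2) (Fin 2) ℝ) 1 1
        + (g : Matrix (Fin 2) (Fin 2) ℝ) 0 1 * (g : Matrix (Fin 2) (Fin 2) ℝ) 1 0)
     - S.r * (g : Matrix (Fin 2) (Fin 2) ℝ) 0 0 * (g : Matrix (Fin 2) (Fin 2) ℝ) 1 0 := by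
  show (_ : ℝ) / |dt g| = _
  rw [h, abs_one, div_one]

lemma smul_r (g : GG) (h : dt g = 1) (S : Arc) : (g • S).r =
    S.p * (g : Matrix (Fin 2) (Fin 2) ℝ) 0 1 ^ 2
     - 2 * S.q * (g : Matrix (Fin 2) (Fin 2) ℝ) 0 0 * (g : Matrix (Fin 2) (Fin 2) ℝ) 0 1
     + S.r * (g : Matrix (Fin 2) (Fin 2) ℝ) 0 0 ^ 2 := by
  show (_ : ℝ) / |dt g| = _
  rw [h, abs_one, div_one]

lemma det_eq (g : GG) (h : dt g = 1) :
    (g : Matrix (Fin 2) (Fin 2) ℝ) 0 0 * (g : Matrix (Fin 2) (Fin 2) ℝ) 1 1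
      - (g : Matrix (Fin 2) (Fin 2) ℝ) 0 1 * (g : Matrix (Fin 2) (Fin 2) ℝ) 1 0 = 1 := by
  rw [← h, dt, Matrix.det_fin_two]

/-- entries of the inverse -/
lemma inv_entries (g : GG) (h : dt g = 1) :
    ((g⁻¹ : GG) : Matrix (Fin 2) (Fin 2) ℝ) 0 0 = (g : Matrix (Fin 2) (Fin 2) ℝ) 1 1 ∧
    ((g⁻¹ : GG) : Matrix (Fin 2) (Fin 2) ℝ) 0 1 = -(g : Matrix (Fin 2) (Fin 2) ℝ) 0 1 ∧
    ((g⁻¹ : GG) : Matrix (Fin 2) (Fin 2) ℝ) 1 0 = -(g : Matrix (Fin 2) (Fin 2) ℝ) 1 0 ∧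
    ((g⁻¹ : GG) : Matrix (Fin 2) (Fin 2) ℝ) 1 1 = (g : Matrix (Fin 2) (Fin 2) ℝ) 0 0 := by
  have hd := det_eq g h
  have e : ((g⁻¹ : GG) : Matrix (Fin 2) (Fin 2) ℝ) * (g : Matrix (Fin 2) (Fin 2) ℝ) = 1 := by
    rw [← Matrix.GeneralLinearGroup.coe_mul, inv_mul_cancel, Matrix.GeneralLinearGroup.coe_one]
  have e00 := congrFun (congrFun e 0) 0
  have e01 := congrFun (congrFun e 0) 1
  have e10 := congrFun (congrFun e 1) 0
  have e11 := congrFun (congrFun e 1) 1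
  rw [Matrix.mul_apply, Fin.sum_univ_two] at e00 e01 e10 e11
  simp only [Matrix.one_apply_eq, Matrix.one_apply_ne (show (0 : Fin 2) ≠ 1 by decide),
    Matrix.one_apply_ne (show (1 : Fin 2) ≠ 0 by decide)] at e00 e01 e10 e11
  generalize ((g⁻¹ : GG) : Matrix (Fin 2) (Fin 2) ℝ) 0 0 = A at *
  generalize ((g⁻¹ : GG) : Matrix (Fin 2) (Fin 2) ℝ) 0 1 = B at *
  generalize ((g⁻¹ : GG) : Matrix (Fin 2) (Fin 2) ℝ) 1 0 = C at *
  generalize ((g⁻¹ : GG) : Matrix (Fin 2) (Fin 2) ℝ) 1 1 = E at *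
  generalize (g : Matrix (Fin 2) (Fin 2) ℝ) 0 0 = a at *
  generalize (g : Matrix (Fin 2) (Fin 2) ℝ) 0 1 = b at *
  generalize (g : Matrix (Fin 2) (Fin 2) ℝ) 1 0 = c at *
  generalize (g : Matrix (Fin 2) (Fin 2) ℝ) 1 1 = d at *
  refine ⟨?_, ?_, ?_, ?_⟩
  · linear_combination d * e00 - c * e01 - A * hd
  · linear_combination a * e01 - b * e00 - B * hd
  · linear_combination d * e10 - c * e11 - C * hd
  · linear_combination a * e11 - b * e10 - E * hd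

/-- the real inequalities behind `loc1` -/
lemma core_real (m n t σ q : ℝ) (hmn : m * n = 1) (hm : n < m) (hn : 0 < n) (ht : 0 < t)
    (hσ : 0 < σ) (hσt : 4 * σ ^ 2 = t ^ 2 - 4) (hq : 1 < q)
    (hA : 1 < (q ^ 2 - 1) * σ ^ 2) (hB : 4 < (q ^ 2 - 1) * (m - n) ^ 2)
    (hτ : 4 < ((t / 2) * (m + n) - q * σ * (m - n)) ^ 2) :
    (t / 2) * (m + n) - q * σ * (m - n) < -2 ∧ 0 < q * (t / 2) * (m - n) - σ * (m + n) ∧
    (q * (t / 2) * (m - n) - σ * (m + n)) ^ 2 - (((t / 2) * (m + n) - q * σ * (m - n)) ^ 2 - 4) =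
      (q ^ 2 - 1) * (m - n) ^ 2 := by
  have hu : 0 < m - n := by linarith
  have huv : (m + n) ^ 2 = (m - n) ^ 2 + 4 := by nlinarith
  have hv : 0 < m + n := by linarith
  generalize m - n = u at *
  generalize m + n = v at *
  have ht2 : (t / 2) ^ 2 = σ ^ 2 + 1 := by nlinarith
  have ht' : 0 < t / 2 := by linarith
  generalize t / 2 = s at *
  have hid : (q * s * u - σ * v) ^ 2 - ((s * v - q * σ * u) ^ 2 - 4) = (q ^ 2 - 1) * u ^ 2 := by
    have : (q * s * u - σ * v) ^ 2 - ((s * v - q * σ * u) ^ 2 - 4) =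
      (q ^ 2 * u ^ 2 - v ^ 2) * (s ^ 2 - σ ^ 2) + 4 := by ring
    rw [this, ht2, huv]
    ring
  have hq2 : 0 < q ^ 2 - 1 := by nlinarith
  refine ⟨?_, ?_, hid⟩
  · by_contra hc
    push Not at hc
    have hτ2 : 2 < s * v - q * σ * u := by
      by_contra hc2
      push Not at hc2
      nlinarith
    have h1 : (2 + q * σ * u) ^ 2 < (s * v) ^ 2 := by
      have : 0 < q * σ * u := by positivity
      apply pow_lt_pow_left₀ (by linarith) (by linarith) (by norm_num)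
    have h2 : (s * v) ^ 2 = (σ ^ 2 + 1) * (u ^ 2 + 4) := by rw [mul_pow, ht2, huv]
    rw [h2] at h1
    have h3 : 4 * (q * σ * u) + (q ^ 2 - 1) * σ ^ 2 * u ^ 2 < 4 * σ ^ 2 + u ^ 2 := by nlinarith
    have h4 : u ^ 2 < (q ^ 2 - 1) * σ ^ 2 * u ^ 2 := by
      have : 0 < u ^ 2 := by positivity
      nlinarith
    have h5 : 4 * σ ^ 2 < (q ^ 2 - 1) * σ ^ 2 * u ^ 2 := by
      have : 0 < σ ^ 2 := by positivity
      nlinarith
    have h6 : σ * u < q * σ * u := by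
      have : 0 < σ * u := by positivity
      nlinarith
    rcases le_total (2 * σ) u with h | h
    · nlinarith
    · nlinarith
  · by_contra hc
    push Not at hc
    have h1 : (q * s * u) ^ 2 ≤ (σ * v) ^ 2 := by
      apply pow_le_pow_left₀ (by positivity) (by linarith)
    rw [mul_pow, mul_pow, mul_pow, ht2, huv] at h1
    have : 0 < σ ^ 2 := by positivity
    have : 0 < u ^ 2 := by positivity
    nlinarith

lemma normal_alpha (α : GG) (h1 : dt α = 1) (h2 : 4 < trc α ^ 2) (e : ax α = S0) :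
    ∃ ε m n : ℝ, ε ^ 2 = 1 ∧ m * n = 1 ∧ n < m ∧ 0 < n ∧
      (α : Matrix (Fin 2) (Fin 2) ℝ) 0 0 = ε * m ∧ (α : Matrix (Fin 2) (Fin 2) ℝ) 1 1 = ε * n ∧
      (α : Matrix (Fin 2) (Fin 2) ℝ) 0 1 = 0 ∧ (α : Matrix (Fin 2) (Fin 2) ℝ) 1 0 = 0 := by
  obtain ⟨κ, k1, k2, k3, k4, k5⟩ := axdat α h1 h2
  have hd := det_eq α h1
  have htr : trc α = (α : Matrix (Fin 2) (Fin 2) ℝ) 0 0 + (α : Matrix (Fin 2) (Fin 2) ℝ) 1 1 := rfl
  rw [e] at k3 k4 k5
  have s1 : S0.p = 0 := rfl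
  have s2 : S0.q = -1 := rfl
  have s3 : S0.r = 0 := rfl
  rw [s1] at k3
  rw [s2] at k4
  rw [s3] at k5
  have hκ : κ ≠ 0 := by
    rintro rfl
    simp at k1
  have c0 : (α : Matrix (Fin 2) (Fin 2) ℝ) 1 0 = 0 := by
    rcases mul_eq_zero.mp k3.symm with h | h
    · exact absurd h hκ
    · exact h
  have b0 : (α : Matrix (Fin 2) (Fin 2) ℝ) 0 1 = 0 := by
    have : κ * (α : Matrix (Fin 2) (Fin 2) ℝ) 0 1 = 0 := by linarith
    rcases mul_eq_zero.mp this with h | h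
    · exact absurd h hκ
    · exact h
  rw [b0, c0] at hd
  rw [htr] at k1 k2
  generalize (α : Matrix (Fin 2) (Fin 2) ℝ) 0 0 = a at *
  generalize (α : Matrix (Fin 2) (Fin 2) ℝ) 1 1 = d at *
  have had : a * d = 1 := by linarith
  rcases lt_or_gt_of_ne hκ with h | h
  · have hneg : a + d < 0 := by
      by_contra hc
      push Not at hc
      nlinarith
    have hda : a < d := by
      by_contra hc
      push Not at hc
      nlinarith
    refine ⟨-1, -a, -d, by norm_num, by linarith, by linarith, ?_, by ring, by ring, b0, c0⟩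
    by_contra hc
    push Not at hc
    have : 0 ≤ d := by linarith
    rcases eq_or_lt_of_le this with h' | h'
    · rw [← h'] at had; norm_num at had
    · have : 0 < a := by
        by_contra hc2
        push Not at hc2
        nlinarith
      linarith
  · have hneg : 0 < a + d := by
      by_contra hc
      push Not at hc
      nlinarith
    have hda : d < a := by
      by_contra hc
      push Not at hc
      nlinarith
    refine ⟨1, a, d, by norm_num, by linarith, by linarith, ?_, by ring, by ring, b0, c0⟩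
    by_contra hc
    push Not at hc
    rcases eq_or_lt_of_le hc with h' | h'
    · rw [h'] at had; norm_num at had
    · have : a < 0 := by
        by_contra hc2
        push Not at hc2
        nlinarith
      linarith

lemma normal_beta (β : GG) (T : Arc) (h1 : dt β = 1) (h2 : 4 < trc β ^ 2) (e : ax β = T) :
    ∃ ε t σ : ℝ, ε ^ 2 = 1 ∧ 0 < t ∧ 0 < σ ∧ 4 * σ ^ 2 = t ^ 2 - 4 ∧
      (β : Matrix (Fin 2) (Fin 2) ℝ) 0 0 = ε * (t / 2 - T.q * σ) ∧
      (β : Matrix (Fin 2) (Fin 2) ℝ) 1 1 = ε * (t / 2 + T.q * σ) ∧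
      (β : Matrix (Fin 2) (Fin 2) ℝ) 0 1 = ε * (-(T.r * σ)) ∧
      (β : Matrix (Fin 2) (Fin 2) ℝ) 1 0 = ε * (T.p * σ) := by
  obtain ⟨κ, k1, k2, k3, k4, k5⟩ := axdat β h1 h2
  have htr : trc β = (β : Matrix (Fin 2) (Fin 2) ℝ) 0 0 + (β : Matrix (Fin 2) (Fin 2) ℝ) 1 1 := rfl
  rw [e] at k3 k4 k5
  have hκ : κ ≠ 0 := by
    rintro rfl
    simp at k1
  have hs : ∀ t : ℝ, κ ^ 2 * (t ^ 2 - 4) = 4 → 4 * (1 / κ) ^ 2 = t ^ 2 - 4 := by
    intro t ht
    field_simp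
    linarith
  have hs2 : 4 * (1 / κ) ^ 2 = trc β ^ 2 - 4 := hs _ k1
  rw [htr] at hs2 k2
  generalize (β : Matrix (Fin 2) (Fin 2) ℝ) 0 0 = a at *
  generalize (β : Matrix (Fin 2) (Fin 2) ℝ) 0 1 = b at *
  generalize (β : Matrix (Fin 2) (Fin 2) ℝ) 1 0 = c at *
  generalize (β : Matrix (Fin 2) (Fin 2) ℝ) 1 1 = d at *
  have hc : c = T.p * (1 / κ) := by rw [k3]; field_simp
  have hb : b = -(T.r * (1 / κ)) := by rw [k5]; field_simp
  have ha : a = (a + d) / 2 - T.q * (1 / κ) := by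
    rw [k4]
    field_simp
    ring
  have hd : d = (a + d) / 2 + T.q * (1 / κ) := by
    rw [k4]
    field_simp
    ring
  rcases lt_or_gt_of_ne hκ with h | h
  · refine ⟨-1, -(a + d), -(1 / κ), by norm_num, ?_, ?_, by linarith, by linarith, by linarith, by linarith, by linarith⟩
    · by_contra hc
      push Not at hc
      nlinarith
    · have : 1 / κ < 0 := one_div_neg.mpr h
      linarith
  · refine ⟨1, a + d, 1 / κ, by norm_num, ?_, ?_, by linarith, by linarith, by linarith, by linarith, by linarith⟩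
    · by_contra hc
      push Not at hc
      nlinarith
    · positivity

/-- the final real computation -/
lemma core_fin (m n t σ k a b c d : ℝ) (T D T1 E : Arc) (hmn : m * n = 1) (hnm : n < m) (hn : 0 < n)
    (ht : 0 < t) (hσ : 0 < σ) (hσt : 4 * σ ^ 2 = t ^ 2 - 4)
    (ha : a = t / 2 - T.q * σ) (hd : d = t / 2 + T.q * σ) (hb : b = -(T.r * σ)) (hc : c = T.p * σ)
    (hk : k ^ 2 * ((a * m + d * n) ^ 2 - 4) = 4) (hk2 : k * (a * m + d * n) < 0)
    (h4 : 4 < (a * m + d * n) ^ 2)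
    (Dp : D.p = k * (c * m)) (Dq : D.q = k * (d * n - a * m) / 2) (Dr : D.r = -(k * (b * n)))
    (T1p : T1.p = T.p * m ^ 2) (T1q : T1.q = T.q) (T1r : T1.r = T.r * n ^ 2)
    (Ep : E.p = 2 * (c * d)) (Eq : E.q = -(a * d + b * c)) (Er : E.r = 2 * (a * b))
    (p0 : T.p ≤ 0) (r0 : T.r ≤ 0) (hq : 1 < T.q) (hB : 2 < T.p * T.r * (m ^ 2 + n ^ 2) - 2 * T.q ^ 2)
    (hE : a * b ≤ 0) (hA : a * d + b * c < -1) :
    D ≤ -S0 ∧ D ≤ -T ∧ D ≤ -T1 ∧ D ≤ -E ∧
      0 < Del S0 T1 D ∧ 0 < Del S0 D E ∧ 0 < Del S0 E T := by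
  have hT := T.h
  have hpr : T.p * T.r = T.q ^ 2 - 1 := by linarith
  have hprpos : 0 < T.p * T.r := by rw [hpr]; nlinarith only [hq]
  have hp : T.p < 0 := by
    rcases lt_or_eq_of_le p0 with h | h
    · exact h
    · rw [h] at hprpos; linarith
  have hr : T.r < 0 := by
    rcases lt_or_eq_of_le r0 with h | h
    · exact h
    · rw [h] at hprpos; linarith
  have hbpos : 0 < b := by
    have := mul_neg_of_neg_of_pos hr hσ
    rw [hb]
    linarith only [this]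
  have hcneg : c < 0 := by rw [hc]; exact mul_neg_of_neg_of_pos hp hσ
  have hdet : a * d - b * c = 1 := by
    rw [ha, hb, hc, hd]
    linear_combination (σ ^ 2) * hT - (1/4) * hσt
  have hbc : b * c = -((T.q ^ 2 - 1) * σ ^ 2) := by
    rw [hb, hc, ← hpr]; ring
  have hA' : 1 < (T.q ^ 2 - 1) * σ ^ 2 := by linarith
  have hB' : 4 < (T.q ^ 2 - 1) * (m - n) ^ 2 := by
    rw [hpr] at hB
    have : (m - n) ^ 2 = m ^ 2 + n ^ 2 - 2 := by linear_combination (-2) * hmn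
    rw [this]
    linarith
  have hτ : a * m + d * n = (t / 2) * (m + n) - T.q * σ * (m - n) := by
    rw [ha, hd]; ring
  have h4' : 4 < ((t / 2) * (m + n) - T.q * σ * (m - n)) ^ 2 := by rw [← hτ]; exact h4
  obtain ⟨c1, c2, c3⟩ := core_real m n t σ T.q hmn hnm hn ht hσ hσt hq hA' hB' h4'
  rw [← hτ] at c1 c3
  have hkpos : 0 < k := by
    by_contra hcc
    push Not at hcc
    have := mul_nonneg_of_nonpos_of_nonpos hcc (show a * m + d * n ≤ 0 by linarith only [c1])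
    linarith only [this, hk2]
  have hdpos : 0 < d := by
    rw [hd]
    have : 0 < T.q * σ := mul_pos (by linarith only [hq]) hσ
    linarith only [this, ht]
  have hadneg : a * d < 0 := by linarith only [hA, hdet]
  have haneg : a < 0 := by
    by_contra hcc
    push Not at hcc
    have := mul_nonneg hcc hdpos.le
    linarith only [this, hadneg]
  have hm : 0 < m := by linarith
  have Dpneg : D.p < 0 := by
    rw [Dp]
    exact mul_neg_of_pos_of_neg hkpos (mul_neg_of_neg_of_pos hcneg hm)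
  have Drneg : D.r < 0 := by
    rw [Dr]
    have : 0 < k * (b * n) := by positivity
    linarith
  have Dqpos : 0 < D.q := by
    rw [Dq]
    have h1 : 0 < d * n - a * m := by
      have e1 := mul_pos hdpos hn
      have e2 := mul_neg_of_neg_of_pos haneg hm
      linarith only [e1, e2]
    positivity
  have Dq1 : 1 ≤ D.q := by
    have := D.h
    have h2 : 0 < D.p * D.r := mul_pos_of_neg_of_neg Dpneg Drneg
    nlinarith only [this, h2, Dqpos]
  have s1 : S0.p = 0 := rfl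
  have s2 : S0.q = -1 := rfl
  have s3 : S0.r = 0 := rfl
  have key : 2 ≤ k * (T.q * (t / 2) * (m - n) - σ * (m + n)) := by
    have e1 : (k * (T.q * (t / 2) * (m - n) - σ * (m + n))) ^ 2 = 4 + k ^ 2 * ((T.q ^ 2 - 1) * (m - n) ^ 2) := by
      rw [mul_pow]
      linear_combination (k ^ 2) * c3 + hk
    have e2 : 0 ≤ k ^ 2 * ((T.q ^ 2 - 1) * (m - n) ^ 2) := by
      have : 0 < T.q ^ 2 - 1 := by nlinarith only [hq]
      positivity
    have e3 : 0 < k * (T.q * (t / 2) * (m - n) - σ * (m + n)) := mul_pos hkpos c2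
    nlinarith only [e1, e2, e3]
  have qT : D.p * T.r + D.r * T.p - 2 * D.q * T.q = k * (T.q * (t / 2) * (m - n) - σ * (m + n)) := by
    rw [Dp, Dr, Dq, ha, hd, hb, hc]
    linear_combination (k * σ * (m + n)) * hT
  have qT1 : D.p * T1.r + D.r * T1.p - 2 * D.q * T1.q = k * (T.q * (t / 2) * (m - n) - σ * (m + n)) := by
    rw [Dp, Dr, Dq, T1p, T1q, T1r, ha, hd, hb, hc]
    linear_combination (k * σ * (m + n)) * hT + (k * σ * T.p * T.r * (m + n)) * hmn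
  have qE : D.p * E.r + D.r * E.p - 2 * D.q * E.q = 2 * D.q := by
    rw [Dp, Dr, Dq, Ep, Eq, Er]
    linear_combination (k * (d * n - a * m)) * hdet
  have hcd : c * d < 0 := mul_neg_of_neg_of_pos hcneg hdpos
  refine ⟨?_, ?_, ?_, ?_, ?_, ?_, ?_⟩
  · apply le_neg_of
    · rw [s1]; linarith
    · rw [s3]; linarith
    · rw [s1, s2, s3]; linarith
  · apply le_neg_of
    · linarith
    · linarith
    · rw [qT]; exact key
  · apply le_neg_of
    · have h5 : T.p * m ^ 2 < 0 := mul_neg_of_neg_of_pos hp (pow_pos hm 2)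
      rw [T1p]
      linarith only [h5, Dpneg]
    · have h5 : T.r * n ^ 2 < 0 := mul_neg_of_neg_of_pos hr (pow_pos hn 2)
      rw [T1r]
      linarith only [h5, Drneg]
    · rw [qT1]; exact key
  · apply le_neg_of
    · rw [Ep]; linarith
    · rw [Er]; linarith
    · rw [qE]; linarith
  · have : Del S0 T1 D = k * σ * (T.p * T.r) * (m - n) := by
      rw [Del, s1, s2, s3, T1p, T1r, Dp, Dr, hb, hc]
      linear_combination (k * σ * T.p * T.r * (m - n)) * hmn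
    rw [this]
    have : 0 < m - n := by linarith
    positivity
  · have : Del S0 D E = 2 * k * (b * c) * (a * m + d * n) := by
      rw [Del, s1, s2, s3, Dp, Dr, Ep, Er]
      ring
    rw [this]
    have h1 : b * c < 0 := mul_neg_of_pos_of_neg hbpos hcneg
    have h2 : a * m + d * n < 0 := by linarith
    have h3 : 0 < (b * c) * (a * m + d * n) := mul_pos_of_neg_of_neg h1 h2
    have : 2 * k * (b * c) * (a * m + d * n) = 2 * k * ((b * c) * (a * m + d * n)) := by ring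
    rw [this]
    positivity
  · have : Del S0 E T = 2 * (T.p * T.r) * σ * t := by
      rw [Del, s1, s2, s3, Ep, Er, ha, hb, hc, hd]
      ring
    rw [this]
    positivity

/-- the normalized computation -/
theorem core (α β : GG) (T D : Arc) (dα : dt α = 1) (tα : 4 < trc α ^ 2) (dβ : dt β = 1) (tβ : 4 < trc β ^ 2)
    (tγ : 4 < trc (β * α) ^ 2) (e1 : ax α = S0) (e2 : ax β = T) (h1 : S0 ≤ -T) (b1 : BB S0 T < -1)
    (b2 : BB (α⁻¹ • T) T < -1) (h3 : β • S0 ≤ -S0) (b3 : BB (β • S0) S0 < -1) (hD : D = ax (β * α)⁻¹) :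
    D ≤ -S0 ∧ D ≤ -T ∧ D ≤ -(α⁻¹ • T) ∧ D ≤ -(β • S0) ∧
      0 < Del S0 (α⁻¹ • T) D ∧ 0 < Del S0 D (β • S0) ∧ 0 < Del S0 (β • S0) T := by
  obtain ⟨ε₁, m, n, hε₁, hmn, hnm, hn, α00, α11, α01, α10⟩ := normal_alpha α dα tα e1
  obtain ⟨ε₂, t, σ, hε₂, ht, hσ, hσt, β00, β11, β01, β10⟩ := normal_beta β T dβ tβ e2
  have dγ : dt (β * α) = 1 := by rw [dt_mul, dα, dβ, one_mul]
  have γ00 : ((β * α : GG) : Matrix (Fin 2) (Fin 2) ℝ) 0 0 =
      (β : Matrix (Fin 2) (Fin 2) ℝ) 0 0 * (α : Matrix (Fin 2) (Fin 2) ℝ) 0 0 +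
      (β : Matrix (Fin 2) (Fin 2) ℝ) 0 1 * (α : Matrix (Fin 2) (Fin 2) ℝ) 1 0 := by
    rw [Matrix.GeneralLinearGroup.coe_mul, Matrix.mul_apply, Fin.sum_univ_two]
  have γ01 : ((β * α : GG) : Matrix (Fin 2) (Fin 2) ℝ) 0 1 =
      (β : Matrix (Fin 2) (Fin 2) ℝ) 0 0 * (α : Matrix (Fin 2) (Fin 2) ℝ) 0 1 +
      (β : Matrix (Fin 2) (Fin 2) ℝ) 0 1 * (α : Matrix (Fin 2) (Fin 2) ℝ) 1 1 := by
    rw [Matrix.GeneralLinearGroup.coe_mul, Matrix.mul_apply, Fin.sum_univ_two]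
  have γ10 : ((β * α : GG) : Matrix (Fin 2) (Fin 2) ℝ) 1 0 =
      (β : Matrix (Fin 2) (Fin 2) ℝ) 1 0 * (α : Matrix (Fin 2) (Fin 2) ℝ) 0 0 +
      (β : Matrix (Fin 2) (Fin 2) ℝ) 1 1 * (α : Matrix (Fin 2) (Fin 2) ℝ) 1 0 := by
    rw [Matrix.GeneralLinearGroup.coe_mul, Matrix.mul_apply, Fin.sum_univ_two]
  have γ11 : ((β * α : GG) : Matrix (Fin 2) (Fin 2) ℝ) 1 1 =
      (β : Matrix (Fin 2) (Fin 2) ℝ) 1 0 * (α : Matrix (Fin 2) (Fin 2) ℝ) 0 1 +
      (β : Matrix (Fin 2) (Fin 2) ℝ) 1 1 * (α : Matrix (Fin 2) (Fin 2) ℝ) 1 1 := by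
    rw [Matrix.GeneralLinearGroup.coe_mul, Matrix.mul_apply, Fin.sum_univ_two]
  obtain ⟨κ, k1, k2, k3, k4, k5⟩ := axdat (β * α) dγ tγ
  have hDn : D = -(ax (β * α)) := by rw [hD, ax_inv _ dγ tγ]
  have htr : trc (β * α) = ((β * α : GG) : Matrix (Fin 2) (Fin 2) ℝ) 0 0 +
      ((β * α : GG) : Matrix (Fin 2) (Fin 2) ℝ) 1 1 := rfl
  rw [α00, α10, β00, β01] at γ00
  rw [α01, α11, β00, β01] at γ01
  rw [α00, α10, β10, β11] at γ10
  rw [α01, α11, β10, β11] at γ11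
  rw [γ00, γ11] at htr
  rw [γ10] at k3
  rw [γ00, γ11] at k4
  rw [γ01] at k5
  rw [htr] at k1 k2 tγ
  have Dp : D.p = -(ax (β * α)).p := by rw [hDn]; rfl
  have Dq : D.q = -(ax (β * α)).q := by rw [hDn]; rfl
  have Dr : D.r = -(ax (β * α)).r := by rw [hDn]; rfl
  rw [k3] at Dp
  rw [k4] at Dq
  rw [k5] at Dr
  -- `T₁ = α⁻¹ T`
  have dα' : dt α⁻¹ = 1 := by
    have := dt_mul α⁻¹ α
    rw [inv_mul_cancel, dt_one, dα, mul_one] at this
    exact this.symm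
  obtain ⟨i00, i01, i10, i11⟩ := inv_entries α dα
  have T1p := smul_p α⁻¹ dα' T
  have T1q := smul_q α⁻¹ dα' T
  have T1r := smul_r α⁻¹ dα' T
  rw [i10, i11, α10, α00] at T1p
  rw [i00, i01, i10, i11, α11, α01, α10, α00] at T1q
  rw [i00, i01, α11, α01] at T1r
  -- `β S0`
  have Ep := smul_p β dβ S0
  have Eq := smul_q β dβ S0
  have Er := smul_r β dβ S0
  have s1 : S0.p = 0 := rfl
  have s2 : S0.q = -1 := rfl
  have s3 : S0.r = 0 := rfl
  rw [s1, s2, s3, β10, β11] at Ep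
  rw [s1, s2, s3, β00, β01, β10, β11] at Eq
  rw [s1, s2, s3, β00, β01] at Er
  have p0 := p_le h1
  have r0 := r_le h1
  rw [s1] at p0
  rw [s3] at r0
  rw [BB, s1, s2, s3] at b1
  rw [BB, T1p, T1q, T1r] at b2
  have p3 := p_le h3
  have r3 := r_le h3
  rw [s1, Ep] at p3
  rw [s3, Er] at r3
  rw [BB, s1, s2, s3, Eq] at b3
  have hee : (ε₁ * ε₂) ^ 2 = 1 := by rw [mul_pow, hε₁, hε₂, one_mul]
  refine core_fin m n t σ (-(ε₁ * ε₂ * κ)) (t / 2 - T.q * σ) (-(T.r * σ)) (T.p * σ) (t / 2 + T.q * σ)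
    T D (α⁻¹ • T) (β • S0) hmn hnm hn ht hσ hσt rfl rfl rfl rfl ?_ ?_ ?_ ?_ ?_ ?_ ?_ ?_ ?_ ?_ ?_ ?_
    (by linarith) (by linarith) (by linarith) ?_ ?_ ?_
  · linear_combination k1 - (4 * κ ^ 2) * hee
  · have : -(ε₁ * ε₂ * κ) * ((t / 2 - T.q * σ) * m + (t / 2 + T.q * σ) * n) =
      -(κ * (ε₂ * (t / 2 - T.q * σ) * (ε₁ * m) + ε₂ * -(T.r * σ) * 0 +
        (ε₂ * (T.p * σ) * 0 + ε₂ * (t / 2 + T.q * σ) * (ε₁ * n)))) := by ring
    rw [this]
    linarith only [k2]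
  · have : ((t / 2 - T.q * σ) * m + (t / 2 + T.q * σ) * n) ^ 2 =
      (ε₂ * (t / 2 - T.q * σ) * (ε₁ * m) + ε₂ * -(T.r * σ) * 0 +
        (ε₂ * (T.p * σ) * 0 + ε₂ * (t / 2 + T.q * σ) * (ε₁ * n))) ^ 2 := by
      linear_combination (-((t / 2 - T.q * σ) * m + (t / 2 + T.q * σ) * n) ^ 2) * hee
    rw [this]
    exact tγ
  · rw [Dp]; ring
  · rw [Dq]; ring
  · rw [Dr]; ring
  · rw [T1p]
    linear_combination (T.p * m ^ 2) * hε₁
  · rw [T1q]
    linear_combination (T.q * (ε₁ ^ 2)) * hmn + T.q * hε₁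
  · rw [T1r]
    linear_combination (T.r * n ^ 2) * hε₁
  · rw [Ep]
    linear_combination (2 * (T.p * σ) * (t / 2 + T.q * σ)) * hε₂
  · rw [Eq]
    linear_combination (-((t / 2 - T.q * σ) * (t / 2 + T.q * σ) + (-(T.r * σ)) * (T.p * σ))) * hε₂
  · rw [Er]
    linear_combination (2 * (t / 2 - T.q * σ) * (-(T.r * σ))) * hε₂
  · have e : (T.p * (ε₁ * m) ^ 2 - 2 * T.q * -0 * (ε₁ * m) + T.r * (-0) ^ 2) * T.r +
        (T.p * (-0) ^ 2 - 2 * T.q * (ε₁ * n) * -0 + T.r * (ε₁ * n) ^ 2) * T.p -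
        2 * (-T.p * -0 * (ε₁ * m) + T.q * (ε₁ * n * (ε₁ * m) + -0 * -0) - T.r * (ε₁ * n) * -0) * T.q =
        T.p * T.r * (m ^ 2 + n ^ 2) - 2 * T.q ^ 2 := by
      linear_combination (T.p * T.r * (m ^ 2 + n ^ 2) - 2 * T.q ^ 2) * hε₁ - 2 * T.q ^ 2 * ε₁ ^ 2 * hmn
    rw [e] at b2
    linarith only [b2]
  · have e : (t / 2 - T.q * σ) * -(T.r * σ) =
        ε₂ * (t / 2 - T.q * σ) * (ε₂ * -(T.r * σ)) := by
      linear_combination (-((t / 2 - T.q * σ) * -(T.r * σ))) * hε₂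
    rw [e]
    linarith only [r3]
  · have e : (t / 2 - T.q * σ) * (t / 2 + T.q * σ) + -(T.r * σ) * (T.p * σ) =
        ε₂ * (t / 2 - T.q * σ) * (ε₂ * (t / 2 + T.q * σ)) + ε₂ * -(T.r * σ) * (ε₂ * (T.p * σ)) := by
      linear_combination (-((t / 2 - T.q * σ) * (t / 2 + T.q * σ) + -(T.r * σ) * (T.p * σ))) * hε₂
    rw [e]
    linarith only [b3]

/-- endpoints exist -/
lemma exists_end (S : Arc) : ∃ ξ : X, S.val ξ = 0 := by
  obtain ⟨g, hg, hgS⟩ := exists_smul_S0 S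
  obtain ⟨k, hk, h⟩ := val_smul g⁻¹ (OnePoint.infty : X)
  refine ⟨g⁻¹ • (OnePoint.infty : X), ?_⟩
  have h1 := h (g • S)
  rw [inv_smul_smul, hgS] at h1
  rw [h1]
  have : S0.val (OnePoint.infty : X) = 0 := rfl
  rw [this, mul_zero]

lemma Adj.le_of_ne {L : Set Arc} {S T : Arc} (h : Adj L S T) (hne : S ≠ T) : S ≤ -T := by
  rcases h.2.2 with h' | h'
  · exact absurd h' hne
  · exact h'.1

lemma Adj.ne_neg {L : Set Arc} {S T : Arc} (h : Adj L S T) (hne : S ≠ T) : S ≠ -T := by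
  rcases h.2.2 with h' | h'
  · exact absurd h' hne
  · exact h'.2.1

lemma Adj.no_common {L : Set Arc} (hL : Nest L) {S T : Arc} (h : Adj L S T) (hne : S ≠ T) :
    ∀ ξ : X, ¬ (S.val ξ = 0 ∧ T.val ξ = 0) := by
  rintro ξ ⟨h1, h2⟩
  rcases hL.ne S h.1 T h.2.1 ξ h1 h2 with h' | h'
  · exact hne h'
  · exact Adj.ne_neg h hne h'

end C4

open C4 in
theorem loc1 {A : Subgroup GG} {L : Set Arc} (hA : Fuchs A) (hL : Fam A L) (H H' : Arc)
    (h : Adj L H H') (hne : H ≠ H') (α β : GG) (hα : α ∈ A) (hβ : β ∈ A) (h1 : α ≠ 1) (h2 : β ≠ 1)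
    (e1 : ax α = H) (e2 : ax β = H') (D : Arc) (hD : D = ax (β * α)⁻¹) :
    β * α ≠ 1 ∧ D ≤ -H ∧ D ≤ -H' ∧ D ≤ -(α⁻¹ • H') ∧ D ≤ -(β • H) ∧
      0 < Del H (α⁻¹ • H') D ∧ 0 < Del H D (β • H) ∧ 0 < Del H (β • H) H' := by
  have hN : Nest L := hL.toNest
  have dα : dt α = 1 := hA.det1 α hα
  have dβ : dt β = 1 := hA.det1 β hβ
  have tα : 4 < trc α ^ 2 := hyp hA hα h1
  have tβ : 4 < trc β ^ 2 := hyp hA hβ h2
  have hαH : α • H = H := by rw [← e1]; exact ax_smul α dα tα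
  have hβH : β • H' = H' := by rw [← e2]; exact ax_smul β dβ tβ
  have hαH' : α⁻¹ • H = H := by rw [inv_smul_eq_iff, hαH]
  have nc : ∀ ξ : X, ¬ (H.val ξ = 0 ∧ H'.val ξ = 0) := Adj.no_common hN h hne
  -- `β α ≠ 1`
  have hγ1 : β * α ≠ 1 := by
    intro hh
    have hba : β = α⁻¹ := eq_inv_of_mul_eq_one_left hh
    have : H' = -H := by rw [← e2, hba, ax_inv α dα tα, e1]
    obtain ⟨ξ, hξ⟩ := exists_end H
    apply nc ξ
    refine ⟨hξ, ?_⟩
    rw [this, val_neg, hξ, neg_zero]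
  have hγA : β * α ∈ A := A.mul_mem hβ hα
  have tγ : 4 < trc (β * α) ^ 2 := hyp hA hγA hγ1
  -- `α⁻¹ H'`
  have a1 : Adj L H (α⁻¹ • H') := by
    have := (adj_smul hL (A.inv_mem hα) (S := H) (T := H')).mpr h
    rwa [hαH'] at this
  have a2 : Adj L (α⁻¹ • H') H' := adj_trans hN (adj_symm hN a1) h
  have n2 : α⁻¹ • H' ≠ H' := by
    intro hh
    have hh2 : α • H' = H' := by
      rw [inv_smul_eq_iff] at hh
      exact hh.symm
    obtain ⟨ξ, hξ⟩ := exists_end H'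
    have := fix_of_smul α H' ξ (by rw [dα]; norm_num) hh2 hξ
    apply nc ξ
    refine ⟨?_, hξ⟩
    rw [← e1]
    exact (ax_val α dα tα ξ).mpr this
  -- `β H`
  have a3 : Adj L (β • H) H' := by
    have := (adj_smul hL hβ (S := H) (T := H')).mpr h
    rwa [hβH] at this
  have a4 : Adj L (β • H) H := adj_trans hN a3 (adj_symm hN h)
  have n4 : β • H ≠ H := by
    intro hh
    obtain ⟨ξ, hξ⟩ := exists_end H
    have := fix_of_smul β H ξ (by rw [dβ]; norm_num) hh hξ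
    apply nc ξ
    refine ⟨hξ, ?_⟩
    rw [← e2]
    exact (ax_val β dβ tβ ξ).mpr this
  have b1 : BB H H' < -1 := BB_lt _ _ (Adj.le_of_ne h hne) nc
  have b2 : BB (α⁻¹ • H') H' < -1 := BB_lt _ _ (Adj.le_of_ne a2 n2) (Adj.no_common hN a2 n2)
  have b4 : BB (β • H) H < -1 := BB_lt _ _ (Adj.le_of_ne a4 n4) (Adj.no_common hN a4 n4)
  have l1 := Adj.le_of_ne h hne
  have l4 := Adj.le_of_ne a4 n4
  refine ⟨hγ1, ?_⟩
  -- normalization
  obtain ⟨g, hg, hgH⟩ := exists_smul_S0 H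
  have hg0 : 0 < dt g := by rw [hg]; norm_num
  have dg : ∀ x : GG, dt x = 1 → dt (g * x * g⁻¹) = 1 := by
    intro x hx
    have h1 : dt g * dt g⁻¹ = 1 := by rw [← dt_mul, mul_inv_cancel, dt_one]
    rw [dt_mul, dt_mul, hx, mul_one, h1]
  have c1 : (g * α * g⁻¹)⁻¹ • (g • H') = g • (α⁻¹ • H') := by
    rw [← mul_smul, ← mul_smul]
    congr 1
    group
  have c2 : (g * β * g⁻¹) • S0 = g • (β • H) := by
    rw [← hgH, ← mul_smul, ← mul_smul]
    congr 1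
    group
  have c3 : g * β * g⁻¹ * (g * α * g⁻¹) = g * (β * α) * g⁻¹ := by group
  have c4 : (g * (β * α) * g⁻¹)⁻¹ = g * (β * α)⁻¹ * g⁻¹ := by group
  have dγ : dt (β * α)⁻¹ = 1 := hA.det1 _ (A.inv_mem hγA)
  have tγ' : 4 < trc (β * α)⁻¹ ^ 2 := hyp hA (A.inv_mem hγA) (by rwa [ne_eq, inv_eq_one])
  have hle : ∀ S T : Arc, S ≤ -T ↔ g • S ≤ -(g • T) := by
    intro S T
    rw [← smul_neg', smul_le']
  have := core (g * α * g⁻¹) (g * β * g⁻¹) (g • H') (g • D) (dg α dα) (by rw [trc_conj]; exact tα)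
    (dg β dβ) (by rw [trc_conj]; exact tβ) (by rw [c3, trc_conj]; exact tγ)
    (by rw [ax_conj_pos g α hg0 dα tα, e1, hgH]) (by rw [ax_conj_pos g β hg0 dβ tβ, e2])
    (by rw [← hgH, ← hle]; exact l1) (by rw [← hgH, BB_smul]; exact b1)
    (by rw [c1, BB_smul]; exact b2) (by rw [c2, ← hgH, ← hle]; exact l4)
    (by rw [c2, ← hgH, BB_smul]; exact b4)
    (by rw [c3, c4, ax_conj_pos g _ hg0 dγ tγ', hD])
  rw [c1, c2, ← hgH, ← hle, ← hle, ← hle, ← hle, Del_smul_pos g hg0, Del_smul_pos g hg0,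
    Del_smul_pos g hg0] at this
  exact this

end Pool.Agent.H100R2.SC
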