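import Pool.Agent.H100R2.SC.B1
import Pool.Agent.H100R2.SC.B5
import Pool.Agent.H100R2.SC.A2
import Pool.Agent.H100R2.SC.T1

/-! C4c: the axis of an element preserving a region. -/

set_option autoImplicit false

namespace Pool.Agent.H100R2.SC

open Filter Topology

lemma c4c_val_inf (S : Arc) : S.val (OnePoint.infty : X) = S.p := rfl

lemma c4c_val_some (S : Arc) (x : ℝ) : S.val ((x : ℝ) : X) = S.p * x ^ 2 + 2 * S.q * x + S.r := by
  show S.ev x 1 = _
  simp [Arc.ev]

/-- three distinct zeros are impossible -/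
lemma c4c_three (S : Arc) (a b c : X) (hab : a ≠ b) (hbc : b ≠ c) (hac : a ≠ c)
    (ha : S.val a = 0) (hb : S.val b = 0) (hc : S.val c = 0) : False := by
  have hh := S.h
  have key2 : ∀ x y : ℝ, x ≠ y → S.p = 0 → S.val ((x : ℝ) : X) = 0 → S.val ((y : ℝ) : X) = 0 → False := by
    intro x y hxy hp hx hy
    rw [c4c_val_some, hp] at hx hy
    have h1 : S.q * (x - y) = 0 := by linarith
    rcases mul_eq_zero.1 h1 with h | h
    · rw [hp, h] at hh; norm_num at hh
    · exact hxy (by linarith)
  induction a using OnePoint.rec with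
  | infty =>
    rw [c4c_val_inf] at ha
    induction b using OnePoint.rec with
    | infty => exact hab rfl
    | coe b =>
      induction c using OnePoint.rec with
      | infty => exact hac rfl
      | coe c => exact key2 b c (fun h => hbc (by rw [h])) ha hb hc
  | coe a =>
    induction b using OnePoint.rec with
    | infty =>
      rw [c4c_val_inf] at hb
      induction c using OnePoint.rec with
      | infty => exact hbc rfl
      | coe c => exact key2 a c (fun h => hac (by rw [h])) hb ha hc
    | coe b =>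
      induction c using OnePoint.rec with
      | infty =>
        rw [c4c_val_inf] at hc
        exact key2 a b (fun h => hab (by rw [h])) hc ha hb
      | coe c =>
        have h1 : a ≠ b := fun h => hab (by rw [h])
        have h2 : b ≠ c := fun h => hbc (by rw [h])
        have h3 : a ≠ c := fun h => hac (by rw [h])
        have ha' := ha
        have hb' := hb
        rw [c4c_val_some] at ha hb hc
        have e1 : S.p * (a + b) + 2 * S.q = 0 := by
          have : (a - b) * (S.p * (a + b) + 2 * S.q) = 0 := by linear_combination ha - hb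
          rcases mul_eq_zero.1 this with h | h
          · exact absurd (by linarith) h1
          · exact h
        have e2 : S.p * (b + c) + 2 * S.q = 0 := by
          have : (b - c) * (S.p * (b + c) + 2 * S.q) = 0 := by linear_combination hb - hc
          rcases mul_eq_zero.1 this with h | h
          · exact absurd (by linarith) h2
          · exact h
        have e3 : S.p * (a - c) = 0 := by linear_combination e1 - e2
        rcases mul_eq_zero.1 e3 with h | h
        · exact key2 a b h1 h ha' hb'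
        · exact absurd (by linarith) h3

/-- the endpoints -/
lemma c4c_zeros (S : Arc) : ∃ a b : X, a ≠ b ∧ S.val a = 0 ∧ S.val b = 0 := by
  obtain ⟨g, _, hg⟩ := exists_smul_S0 S
  have hz : ∀ η : X, S0.val η = 0 → S.val (g⁻¹ • η) = 0 := by
    intro η h
    obtain ⟨k, hk, hv⟩ := val_smul g (g⁻¹ • η)
    have := hv S
    rw [hg, smul_inv_smul, h] at this
    rcases mul_eq_zero.1 this.symm with h1 | h1
    · linarith
    · exact h1
  refine ⟨g⁻¹ • (OnePoint.infty : X), g⁻¹ • ((0 : ℝ) : X), ?_, ?_, ?_⟩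
  · intro h
    have := smul_left_cancel _ h
    exact OnePoint.infty_ne_coe _ this
  · apply hz
    rw [c4c_val_inf]; rfl
  · apply hz
    rw [c4c_val_some]
    simp [S0]

/-- an arc which contains no endpoint of `S` is on one side of `S` -/
lemma c4c_side (S U : Arc) (h : ∀ ξ, S.val ξ = 0 → U.val ξ ≤ 0) : U ≤ S ∨ U ≤ -S := by
  obtain ⟨g, _, hg⟩ := exists_smul_S0 S
  have hz : ∀ η : X, S0.val η = 0 → (g • U).val η ≤ 0 := by
    intro η h0
    obtain ⟨k, hk, hv⟩ := val_smul g (g⁻¹ • η)
    have h1 := hv S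
    rw [hg, smul_inv_smul, h0] at h1
    have h2 : S.val (g⁻¹ • η) = 0 := by
      rcases mul_eq_zero.1 h1.symm with h1 | h1
      · linarith
      · exact h1
    have h3 := hv U
    rw [smul_inv_smul] at h3
    rw [h3]
    exact mul_nonpos_of_nonneg_of_nonpos hk.le (h _ h2)
  have hp := hz (OnePoint.infty : X) (by rw [c4c_val_inf]; rfl)
  have hr := hz ((0 : ℝ) : X) (by rw [c4c_val_some]; simp [S0])
  rw [c4c_val_inf] at hp
  rw [c4c_val_some] at hr
  have hr' : (g • U).r ≤ 0 := by linarith
  have hh := (g • U).h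
  rw [← smul_le' g U S, ← smul_le' g U (-S), smul_neg', hg]
  generalize g • U = V at hp hr' hh
  have hpr : 0 ≤ V.p * V.r := mul_nonneg_of_nonpos_of_nonpos hp hr'
  have hq : 1 ≤ V.q ^ 2 := by linarith
  have aux : ∀ t : ℝ, t ^ 2 ≤ V.p * V.r → ∀ x y : ℝ, V.p * x ^ 2 + 2 * t * x * y + V.r * y ^ 2 ≤ 0 := by
    intro t ht x y
    rcases hp.lt_or_eq with h1 | h1
    · have : V.p * (V.p * x ^ 2 + 2 * t * x * y + V.r * y ^ 2) =
          (V.p * x + t * y) ^ 2 + (V.p * V.r - t ^ 2) * y ^ 2 := by ring
      by_contra hc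
      push Not at hc
      have h2 : V.p * (V.p * x ^ 2 + 2 * t * x * y + V.r * y ^ 2) < 0 := mul_neg_of_neg_of_pos h1 hc
      rw [this] at h2
      nlinarith [sq_nonneg (V.p * x + t * y), mul_nonneg (sub_nonneg.2 ht) (sq_nonneg y)]
    · rw [h1] at ht ⊢
      have h2 : t = 0 := by nlinarith [sq_nonneg t]
      rw [h2]
      nlinarith [mul_nonpos_of_nonpos_of_nonneg hr' (sq_nonneg y)]
  rcases le_or_gt V.q 0 with h1 | h1
  · left
    intro x y
    have h2 : V.q ≤ -1 := by nlinarith
    have h3 := aux (V.q + 1) (by nlinarith) x y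
    simp only [Arc.ev, S0]
    nlinarith
  · right
    intro x y
    have h2 : 1 ≤ V.q := by nlinarith
    have h3 := aux (V.q - 1) (by nlinarith) x y
    simp only [Arc.ev, S0, Arc.neg_p, Arc.neg_q, Arc.neg_r]
    nlinarith

theorem axis_in_region {A : Subgroup GG} {L : Set Arc} (hA : Fuchs A) (hL : Fam A L) (H : Arc) (hH : H ∈ L)
    (δ : GG) (hδ : δ ∈ A) (h1 : δ ≠ 1) (hs : Adj L H (δ • H)) :
    ∀ U, Adj L H U → U ≤ ax δ ∨ U ≤ -(ax δ) := by
  intro U hU
  have hd1 : dt δ = 1 := hA.det1 δ hδ
  have hd0 : 0 < dt δ := by rw [hd1]; norm_num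
  have ht : 4 < trc δ ^ 2 := hyp hA hδ h1
  apply c4c_side
  intro x hx
  by_contra hc
  push Not at hc
  have hfix : δ • x = x := (ax_val δ hd1 ht x).1 hx
  -- `δ • U` bounds the same region
  have e1 : Adj L (δ • H) (δ • U) := (adj_smul hL hδ).2 hU
  have e2 : Adj L H (δ • U) := adj_trans hL.toNest hs e1
  have e3 : Adj L U (δ • U) := adj_trans hL.toNest (adj_symm hL.toNest hU) e2
  have hc2 : 0 < (δ • U).val x := by
    obtain ⟨k, hk, hv⟩ := val_smul δ x
    have := hv U
    rw [hfix] at this
    rw [this]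
    exact mul_pos hk hc
  have hUfix : δ • U = U := by
    rcases e3.2.2 with h | ⟨h, _, _⟩
    · exact h.symm
    · exfalso
      have := val_mono h x
      rw [val_neg] at this
      linarith
  obtain ⟨a, b, hab, ha, hb⟩ := c4c_zeros U
  have fa := fix_of_smul δ U a hd0 hUfix ha
  have fb := fix_of_smul δ U b hd0 hUfix hb
  refine c4c_three (ax δ) a b x hab ?_ ?_ ((ax_val δ hd1 ht a).2 fa) ((ax_val δ hd1 ht b).2 fb) hx
  · rintro rfl; linarith
  · rintro rfl; linarith

theorem axis_mem {A : Subgroup GG} {L : Set Arc} (hA : Fuchs A) (hL : Fam A L) (H : Arc) (hH : H ∈ L)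
    (δ : GG) (hδ : δ ∈ A) (h1 : δ ≠ 1) (hs : Adj L H (δ • H)) (hm : ax δ ∈ L) :
    Adj L H (ax δ) ∨ Adj L H (-(ax δ)) := by
  obtain ⟨U, hU, hK⟩ := region_cover hL.toNest hH hm
  have hU2 := axis_in_region hA hL H hH δ hδ h1 hs U hU
  rcases hK with hK | hK <;> rcases hU2 with h | h
  · left
    rw [le_antisymm hK h]; exact hU
  · exact (Arc.not_le_and (le_refl (ax δ)) (hK.trans h)).elim
  · exact (Arc.not_le_and (le_refl (-(ax δ))) (by rw [neg_neg]; exact hK.trans h)).elim
  · right
    rw [le_antisymm hK h]; exact hU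

end Pool.Agent.H100R2.SC
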