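import Pool.Agent.H100R2.SC.Defs
import Pool.Agent.H100R2.SC.A2
import Pool.Agent.H100R2.SC.B1
import Pool.Agent.H100R2.SC.B4
import Pool.Agent.H100R2.SC.B5
import Pool.Agent.H100R2.SC.B6
import Pool.Agent.H100R2.SC.B8
import Pool.Agent.H100R2.SC.C4
import Pool.Agent.H100R2.SC.C4c
import Pool.Agent.H100R2.SC.T1

/-! Task C5a (helper617): edges do not cross the new geodesic, case one. -/

set_option autoImplicit false

namespace Pool.Agent.H100R2.SC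

open Filter Topology

lemma c5a_pt (S : Arc) : ∃ ξ : X, 0 < S.val ξ := by
  by_contra h
  have h' : ∀ ξ : X, ¬ 0 < S.val ξ := fun ξ hξ => h ⟨ξ, hξ⟩
  exact Arc.not_le_and (le_refl S) ((arc_le_iff S (-S)).2 (fun ξ hξ => absurd hξ (h' ξ)))

lemma c5a_link (D U K V K2 : Arc) (hU : D ≤ -U) (hK : D ≤ -K) (hV : D ≤ -V) (hUK : U ≤ -K)
    (hUV : U ≤ -V) (hKV : K ≤ -V) (hK2 : K2 ≤ D) (o1 : 0 < Del D U K) (o2 : 0 < Del D K V) :
    0 < Del U K V ∧ 0 < Del V K2 U := by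
  obtain ⟨d, hd⟩ := c5a_pt K2
  obtain ⟨a, ha⟩ := c5a_pt U
  obtain ⟨k, hk⟩ := c5a_pt K
  obtain ⟨b, hb⟩ := c5a_pt V
  have hd' : 0 < D.val d := lt_of_lt_of_le hd (val_mono hK2 d)
  have c1 := (Del_cyc D U K hU hK hUK d a k hd' ha hk).1 o1
  have c2 := (Del_cyc D K V hK hV hKV d k b hd' hk hb).1 o2
  have c3 := cyc_trans c1 c2
  refine ⟨(Del_cyc U K V hUK hUV hKV a k b ha hk hb).2 c3.2, ?_⟩
  have h1 : K2 ≤ -U := hK2.trans hU
  have h2 : K2 ≤ -V := hK2.trans hV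
  exact (Del_cyc V K2 U (Arc.le_neg_comm h2) (Arc.le_neg_comm hUV) h1 b d a hb hd ha).2
    (cyc_rot (cyc_rot c3.1))

lemma c5a_between (S T D U K : Arc) (hT : S ≤ -T) (hD : S ≤ -D) (hU : S ≤ -U) (hTD : T ≤ -D)
    (hDU : D ≤ -U) (hK : K ≤ D) (o1 : 0 < Del S T D) (o2 : 0 < Del S D U) :
    0 < Del S T K ∧ 0 < Del S K U := by
  obtain ⟨s, hs⟩ := c5a_pt S
  obtain ⟨t, ht⟩ := c5a_pt T
  obtain ⟨k, hk⟩ := c5a_pt K
  obtain ⟨u, hu⟩ := c5a_pt U
  have hk' : 0 < D.val k := lt_of_lt_of_le hk (val_mono hK k)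
  have c1 := (Del_cyc S T D hT hD hTD s t k hs ht hk').1 o1
  have c2 := (Del_cyc S D U hD hU hDU s k u hs hk' hu).1 o2
  have h1 : K ≤ -S := hK.trans (Arc.le_neg_comm hD)
  have h2 : K ≤ -T := hK.trans (Arc.le_neg_comm hTD)
  have h3 : K ≤ -U := hK.trans hDU
  exact ⟨(Del_cyc S T K hT (Arc.le_neg_comm h1) (Arc.le_neg_comm h2) s t k hs ht hk).2 c1,
    (Del_cyc S K U (Arc.le_neg_comm h1) hU h3 s k u hs hk hu).2 c2⟩

lemma c5a_asymm {S T U : Arc} (h1 : 0 < Del S T U) (h2 : 0 < Del S U T) : False := by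
  rw [Del_swap] at h2
  linarith

lemma c5a_fix {γ : GG} {S : Arc} (h : γ • S = S) (n : ℤ) : γ ^ n • S = S :=
  (MulAction.mem_stabilizer_iff).1
    ((MulAction.stabilizer GG S).zpow_mem (MulAction.mem_stabilizer_iff.2 h) n)

lemma c5a_dt {γ : GG} (h : dt γ = 1) (n : ℕ) : dt (γ ^ n) = 1 := by
  induction n with
  | zero => rw [pow_zero, dt_one]
  | succ n ih => rw [pow_succ, dt_mul, ih, h, one_mul]

lemma c5a_dtz {γ : GG} (h : dt γ = 1) (n : ℤ) : dt (γ ^ n) = 1 := by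
  cases n with
  | ofNat n => exact c5a_dt h n
  | negSucc n =>
    rw [zpow_negSucc]
    have h1 : dt ((γ ^ (n + 1))⁻¹ * γ ^ (n + 1)) = 1 := by
      rw [inv_mul_cancel, dt_one]
    rw [dt_mul, c5a_dt h, mul_one] at h1
    exact h1

/-- translates of `T` under the shift are in increasing order -/
lemma c5a_incr (γ : GG) (h1 : dt γ = 1) (h2 : 4 < trc γ ^ 2) (T : Arc) (hT : T ≤ -(ax γ))
    (hd : ∀ n : ℤ, γ ^ n • T ≠ T → T ≤ -(γ ^ n • T)) (hne : T ≤ -(γ • T)) (k : ℕ) :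
    T ≤ -(γ ^ (k + 1) • T) ∧ 0 < Del (ax γ) T (γ ^ (k + 1) • T) := by
  have hp := shift_pos γ h1 h2 T hT hne
  have hs : γ • ax γ = ax γ := ax_smul γ h1 h2
  induction k with
  | zero =>
    rw [zero_add, pow_one]
    exact ⟨hne, hp⟩
  | succ k ih =>
    have e1 : γ ^ (k + 1 + 1) • T = γ • (γ ^ (k + 1) • T) := by
      rw [← mul_smul, ← pow_succ']
    have i1 : γ • T ≤ -(γ ^ (k + 1 + 1) • T) := by
      rw [e1, ← smul_neg', smul_le']
      exact ih.1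
    have i2 : 0 < Del (ax γ) (γ • T) (γ ^ (k + 1 + 1) • T) := by
      rw [e1]
      conv_rhs => rw [← hs]
      rw [Del_smul_pos γ (by rw [h1]; norm_num)]
      exact ih.2
    have i3 : γ ^ (k + 1 + 1) • T ≠ T := by
      intro h
      rw [h] at i2
      exact c5a_asymm hp i2
    have i4 : T ≤ -(γ ^ (k + 1 + 1) • T) := by
      have := hd ((k + 1 + 1 : ℕ) : ℤ)
      rw [zpow_natCast] at this
      exact this i3
    refine ⟨i4, ?_⟩
    have hsT : ax γ ≤ -T := Arc.le_neg_comm hT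
    have hsm : ∀ g : GG, g • ax γ = ax γ → ax γ ≤ -(g • T) := by
      intro g hg
      have := (smul_le' g (ax γ) (-T)).2 hsT
      rw [hg, smul_neg'] at this
      exact this
    have hf : γ ^ (k + 1 + 1) • ax γ = ax γ := by
      have := c5a_fix hs ((k + 1 + 1 : ℕ) : ℤ)
      rw [zpow_natCast] at this
      exact this
    exact Del_trans (ax γ) T (γ • T) (γ ^ (k + 1 + 1) • T) hsT (hsm γ hs) (hsm _ hf) hne i4 i1 hp i2

/-- no translate of `T` is inside an arc between `T` and `γ T` -/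
lemma c5a_nb (γ : GG) (h1 : dt γ = 1) (h2 : 4 < trc γ ^ 2) (T D : Arc) (hT : T ≤ -(ax γ))
    (hd : ∀ n : ℤ, γ ^ n • T ≠ T → T ≤ -(γ ^ n • T)) (hne : T ≤ -(γ • T))
    (hD : D ≤ -(ax γ)) (hDT : D ≤ -T) (hDU : D ≤ -(γ • T)) (o1 : 0 < Del (ax γ) T D)
    (o2 : 0 < Del (ax γ) D (γ • T)) (m : ℤ) : ¬ γ ^ m • T ≤ D := by
  intro hK
  have hs : γ • ax γ = ax γ := ax_smul γ h1 h2
  have hsT : ax γ ≤ -T := Arc.le_neg_comm hT
  have hsU : ax γ ≤ -(γ • T) := by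
    have := (smul_le' γ (ax γ) (-T)).2 hsT
    rw [hs, smul_neg'] at this
    exact this
  have hb := c5a_between (ax γ) T D (γ • T) (γ ^ m • T) hsT (Arc.le_neg_comm hD) hsU
    (Arc.le_neg_comm hDT) hDU hK o1 o2
  have hinc := c5a_incr γ h1 h2 T hT hd hne
  have hpos : 0 < dt γ := by rw [h1]; norm_num
  rcases lt_trichotomy m 0 with hm | hm | hm
  · obtain ⟨k, hk⟩ : ∃ k : ℕ, m = -((k + 1 : ℕ) : ℤ) := ⟨(-m).toNat - 1, by omega⟩
    have i1 := (hinc k).2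
    have i2 : 0 < Del (γ ^ m • ax γ) (γ ^ m • T) (γ ^ m • (γ ^ (k + 1) • T)) := by
      rw [Del_smul_pos (γ ^ m) (by rw [c5a_dtz h1]; norm_num)]
      exact i1
    have e1 : γ ^ m • (γ ^ (k + 1) • T) = T := by
      rw [← mul_smul, ← zpow_natCast γ (k + 1), ← zpow_add, hk, neg_add_cancel, zpow_zero, one_smul]
    rw [e1, c5a_fix hs] at i2
    exact c5a_asymm i2 hb.1
  · subst hm
    rw [zpow_zero, one_smul] at hK
    exact Arc.not_le_and (le_refl T) (hK.trans hDT)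
  · obtain ⟨k, hk⟩ : ∃ k : ℕ, m = ((k + 1 : ℕ) : ℤ) := ⟨m.toNat - 1, by omega⟩
    rcases Nat.eq_zero_or_pos k with hk0 | hk0
    · subst hk0
      subst hk
      rw [zero_add, Nat.cast_one, zpow_one] at hK
      exact Arc.not_le_and (le_refl _) (hK.trans hDU)
    · obtain ⟨j, rfl⟩ : ∃ j, k = j + 1 := ⟨k - 1, by omega⟩
      have i1 := (hinc j).2
      have i2 : 0 < Del (γ • ax γ) (γ • T) (γ • (γ ^ (j + 1) • T)) := by
        rw [Del_smul_pos γ hpos]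
        exact i1
      have e1 : γ • (γ ^ (j + 1) • T) = γ ^ m • T := by
        rw [← mul_smul, ← pow_succ', hk, zpow_natCast]
      rw [e1, hs] at i2
      exact c5a_asymm i2 hb.2

/-- the stabilizer of the region of `H` -/
def c5a_RS {A : Subgroup GG} {L : Set Arc} (hL : Fam A L) (H : Arc) (hH : H ∈ L) : Subgroup GG where
  carrier := {g | g ∈ A ∧ Adj L H (g • H)}
  mul_mem' := by
    rintro a b ⟨ha, ha'⟩ ⟨hb, hb'⟩
    refine ⟨A.mul_mem ha hb, ?_⟩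
    rw [mul_smul]
    exact adj_trans hL.toNest ha' ((adj_smul hL ha).2 hb')
  one_mem' := by
    refine ⟨A.one_mem, ?_⟩
    rw [one_smul]
    exact ⟨hH, hH, Or.inl rfl⟩
  inv_mem' := by
    rintro a ⟨ha, ha'⟩
    refine ⟨A.inv_mem ha, ?_⟩
    have h := (adj_smul hL (A.inv_mem ha)).2 ha'
    rw [inv_smul_smul] at h
    exact adj_symm hL.toNest h

lemma c5a_mem_RS {A : Subgroup GG} {L : Set Arc} (hL : Fam A L) (H : Arc) (hH : H ∈ L) (g : GG) :
    g ∈ c5a_RS hL H hH ↔ g ∈ A ∧ Adj L H (g • H) := Iff.rfl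

lemma c5a_disj {A : Subgroup GG} {L : Set Arc} (hL : Fam A L) {H U V : Arc}
    (h1 : Adj L H U) (h2 : Adj L H V) (hne : U ≠ V) : U ≤ -V := by
  have h := adj_trans hL.toNest (adj_symm hL.toNest h1) h2
  rcases h.2.2 with h3 | h3
  · exact absurd h3 hne
  · exact h3.1

-- C5a
theorem edge1 {A : Subgroup GG} {L : Set Arc} (hA : Fuchs A) (hL : Fam A L) (H H' : Arc)
    (h : Adj L H H') (hm : ∀ a ∈ A, a • H ≠ H') (hu : Unl A L H H') (α β : GG) (gα : IsGen A H α)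
    (gβ : IsGen A H' β) (D : Arc) (hD : D = ax (β * α)⁻¹) (hDL : D ∉ L) : EdgeSep A L H H' D := by
  obtain ⟨hαA, hα1, hαax, hαgen⟩ := gα
  obtain ⟨hβA, hβ1, hβax, hβgen⟩ := gβ
  have hH : H ∈ L := h.1
  have hne : H ≠ H' := fun e => hm 1 A.one_mem (by rw [one_smul]; exact e)
  obtain ⟨hba, d1, d2, d3, d4, o1, o2, o3⟩ :=
    loc1 hA hL H H' h hne α β hαA hβA hα1 hβ1 hαax hβax D hD
  have dα := hA.det1 α hαA
  have tα := hyp hA hαA hα1
  have dβ := hA.det1 β hβA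
  have tβ := hyp hA hβA hβ1
  have sα : α • H = H := by rw [← hαax]; exact ax_smul α dα tα
  have sβ : β • H' = H' := by rw [← hβax]; exact ax_smul β dβ tβ
  have sα' : α⁻¹ • H = H := by rw [inv_smul_eq_iff]; exact sα.symm
  have sβ' : β⁻¹ • H' = H' := by rw [inv_smul_eq_iff]; exact sβ.symm
  set δ : GG := (β * α)⁻¹ with hδ
  have hδA : δ ∈ A := A.inv_mem (A.mul_mem hβA hαA)
  have hδ1 : δ ≠ 1 := by
    rw [hδ]
    exact inv_ne_one.2 hba
  have dδ := hA.det1 δ hδA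
  have tδ := hyp hA hδA hδ1
  have sδ : δ • D = D := by rw [hD]; exact ax_smul δ dδ tδ
  have eδ : δ = α⁻¹ * β⁻¹ := by rw [hδ, mul_inv_rev]
  have eδH' : δ • H' = α⁻¹ • H' := by rw [eδ, mul_smul, sβ']
  have eδβH : δ • (β • H) = H := by rw [eδ, mul_smul, inv_smul_smul, sα']
  -- stabilizer of the region
  have rα : α ∈ c5a_RS hL H hH := ⟨hαA, by rw [sα]; exact ⟨hH, hH, Or.inl rfl⟩⟩
  have rβ : β ∈ c5a_RS hL H hH := by
    refine ⟨hβA, ?_⟩
    have h1 := (adj_smul hL hβA).2 (adj_symm hL.toNest h)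
    rw [sβ] at h1
    exact adj_trans hL.toNest h h1
  have rδ : δ ∈ c5a_RS hL H hH := (c5a_RS hL H hH).inv_mem ((c5a_RS hL H hH).mul_mem rβ rα)
  have rδn : ∀ n : ℤ, δ ^ n ∈ c5a_RS hL H hH := fun n => (c5a_RS hL H hH).zpow_mem rδ n
  have adjH' : ∀ g ∈ c5a_RS hL H hH, Adj L H (g • H') := fun g hg =>
    adj_trans hL.toNest hg.2 ((adj_smul hL hg.1).2 h)
  have adjH : ∀ g ∈ c5a_RS hL H hH, Adj L H (g • H) := fun g hg => hg.2
  have adj1 : Adj L H H := ⟨hH, hH, Or.inl rfl⟩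
  have hHH' : H ≤ -H' := c5a_disj hL adj1 h hne
  have hDel0 : ∀ S T : Arc, Del S T S = 0 := by
    intro S T
    unfold Del
    ring
  have hDel1 : ∀ S T : Arc, Del S T T = 0 := by
    intro S T
    unfold Del
    ring
  have hneβ : H ≠ β • H := by
    intro e
    rw [← e, hDel0] at o2
    exact lt_irrefl _ o2
  have hbH : H ≤ -(β • H) := c5a_disj hL adj1 (adjH β rβ) hneβ
  -- order relations
  have p1 : 0 < Del D H (α⁻¹ • H') := by
    rw [← Del_rot (α⁻¹ • H') D H, ← Del_rot H (α⁻¹ • H') D]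
    exact o1
  have o23 : 0 < Del H D H' ∧ 0 < Del H' D (β • H) := by
    obtain ⟨a, ha⟩ := c5a_pt H
    obtain ⟨d, hd⟩ := c5a_pt D
    obtain ⟨b, hb⟩ := c5a_pt (β • H)
    obtain ⟨a', ha'⟩ := c5a_pt H'
    have hbH' : (β • H) ≤ -H' := by
      have := (smul_le' β H (-H')).2 hHH'
      rw [smul_neg', sβ] at this
      exact this
    have c1 := (Del_cyc H D (β • H) (Arc.le_neg_comm d1) hbH d4 a d b ha hd hb).1 o2
    have c2 := (Del_cyc H (β • H) H' hbH hHH' hbH' a b a' ha hb ha').1 o3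
    have c3 := cyc_trans c1 c2
    exact ⟨(Del_cyc H D H' (Arc.le_neg_comm d1) hHH' d2 a d a' ha hd ha').2 c3.1,
      (Del_cyc H' D (β • H) (Arc.le_neg_comm d2) (Arc.le_neg_comm hbH') d4 a' d b ha' hd hb).2
        (cyc_rot (cyc_rot c3.2))⟩
  have p2 : 0 < Del D H' H := by
    rw [← Del_rot H D H']
    exact o23.1
  have p3 : 0 < Del H' H D := by
    rw [← Del_rot D H' H]
    exact p2
  -- the two chains
  have rα' : α⁻¹ ∈ c5a_RS hL H hH := (c5a_RS hL H hH).inv_mem rα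
  have hneδ : H ≠ δ • H := by
    intro e
    rw [← eδβH] at e
    have e2 : δ • (β • H) = δ • H := by
      rw [e, eδβH]
    have e3 := (MulAction.injective δ e2)
    exact hneβ e3.symm
  have hHδ : H ≤ -(δ • H) := c5a_disj hL adj1 (adjH δ rδ) hneδ
  have sδn : ∀ n : ℤ, δ ^ n • D = D := c5a_fix sδ
  have hmD : ∀ (n : ℤ) (U : Arc), U ≤ -D → δ ^ n • U ≤ -D := by
    intro n U hU
    have h1 := (smul_le' (δ ^ n) U (-D)).2 hU
    rw [smul_neg', sδn] at h1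
    exact h1
  have hαH' : Adj L H (α⁻¹ • H') := adjH' _ rα'
  have hαne : H ≠ α⁻¹ • H' := by
    intro e
    apply hm α hαA
    rw [e, smul_inv_smul]
  have hαne2 : α⁻¹ • H' ≠ H' := by
    intro e
    rw [e] at o1
    exact c5a_asymm o1 o23.1
  have gap : ∀ K, Adj L H K → K ≤ -D → ∃ n : ℤ, K = δ ^ n • H ∨ K = δ ^ n • H' ∨
      (0 < Del D (δ ^ n • H) K ∧ 0 < Del D K (δ ^ n • (α⁻¹ • H'))) ∨
      (0 < Del D (δ ^ n • H') K ∧ 0 < Del D K (δ ^ n • H)) := by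
    intro K hK hKD
    obtain ⟨n, hn⟩ := shift_cover δ dδ tδ H K (by rw [← hD]; exact Arc.le_neg_comm d1)
      (by rw [← hD]; exact hKD) hHδ (fun n hn => c5a_disj hL (adjH _ (rδn n)) hK hn)
    rw [← hD] at hn
    rcases hn with hn | ⟨q1, q2⟩
    · exact ⟨n, Or.inl hn⟩
    · by_cases e : K = δ ^ (n + 1) • H'
      · exact ⟨n + 1, Or.inr (Or.inl e)⟩
      · have dis : K ≤ -(δ ^ (n + 1) • H') := c5a_disj hL hK (adjH' _ (rδn _)) e
        have hD' : D ≤ -K := Arc.le_neg_comm hKD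
        have hD'' : D ≤ -(δ ^ (n + 1) • H') :=
          Arc.le_neg_comm (hmD _ _ (Arc.le_neg_comm d2))
        have eαδ : δ ^ (n + 1) • H' = δ ^ n • (α⁻¹ • H') := by
          rw [zpow_add_one, mul_smul, eδH']
        rcases lt_or_gt_of_ne (Del_ne D K (δ ^ (n + 1) • H') hD' hD'' dis) with h3 | h3
        · refine ⟨n + 1, Or.inr (Or.inr (Or.inr ⟨?_, q2⟩))⟩
          rw [Del_swap]
          linarith
        · exact ⟨n, Or.inr (Or.inr (Or.inl ⟨q1, by rw [← eαδ]; exact h3⟩))⟩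
  have nl : ∀ g ∈ c5a_RS hL H hH, ∀ c ∈ c5a_RS hL H hH,
      ¬ Linked (g • H) (g • H') (c • H) (c • H') := by
    intro g hg c hc hlk
    have hx := hu (g⁻¹ * c) (A.mul_mem (A.inv_mem hg.1) hc.1)
      ((c5a_RS hL H hH).mul_mem ((c5a_RS hL H hH).inv_mem hg) hc).2
    apply hx
    have dpos : 0 < dt g⁻¹ := by
      rw [hA.det1 _ (A.inv_mem hg.1)]
      norm_num
    have key := Del_smul_pos g⁻¹ dpos
    rw [mul_smul, mul_smul]
    rcases hlk with ⟨a1, a2⟩ | ⟨a1, a2⟩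
    · rw [← key, inv_smul_smul, inv_smul_smul] at a1 a2
      exact Or.inl ⟨a1, a2⟩
    · rw [← key, inv_smul_smul, inv_smul_smul] at a1 a2
      exact Or.inr ⟨a1, a2⟩
  have dis2 : ∀ U K, Adj L H U → Adj L H K → 0 < Del D U K → U ≤ -K := fun U K hU hK q =>
    c5a_disj hL hU hK (fun e => by rw [e, hDel1] at q; exact lt_irrefl _ q)
  have gHH' : ∀ g : GG, g • H ≤ -(g • H') := by
    intro g
    have h1 := (smul_le' g H (-H')).2 hHH'
    rw [smul_neg'] at h1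
    exact h1
  have hDn : ∀ (n : ℤ) (U : Arc), U ≤ -D → D ≤ -(δ ^ n • U) := fun n U hU =>
    Arc.le_neg_comm (hmD n U hU)
  have side := axis_in_region hA hL H hH δ hδA hδ1 rδ.2
  rw [← hD] at side
  -- neighbours
  have nbβ : ∀ m : ℤ, ¬ β ^ m • H ≤ D := by
    apply c5a_nb β dβ tβ H D
    · rw [hβax]; exact hHH'
    · intro n hn
      exact c5a_disj hL adj1 (adjH _ ((c5a_RS hL H hH).zpow_mem rβ n)) (Ne.symm hn)
    · exact hbH
    · rw [hβax]; exact d2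
    · exact d1
    · exact d4
    · rw [hβax]; exact p3
    · rw [hβax]; exact o23.2
  have nbα : ∀ m : ℤ, ¬ α ^ m • (α⁻¹ • H') ≤ D := by
    apply c5a_nb α dα tα (α⁻¹ • H') D
    · rw [hαax]; exact c5a_disj hL hαH' adj1 (Ne.symm hαne)
    · intro n hn
      refine c5a_disj hL hαH' ?_ (Ne.symm hn)
      rw [← mul_smul]
      exact adjH' _ ((c5a_RS hL H hH).mul_mem ((c5a_RS hL H hH).zpow_mem rα n) rα')
    · rw [smul_inv_smul]
      exact c5a_disj hL hαH' h hαne2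
    · rw [hαax]; exact d1
    · exact d3
    · rw [smul_inv_smul]; exact d2
    · rw [hαax]; exact o1
    · rw [hαax, smul_inv_smul]; exact o23.1
  -- main argument
  intro c hcA hcadj
  have hc : c ∈ c5a_RS hL H hH := ⟨hcA, hcadj⟩
  have hαn : ∀ n : ℤ, δ ^ n * α⁻¹ ∈ c5a_RS hL H hH := fun n =>
    (c5a_RS hL H hH).mul_mem (rδn n) rα'
  have adjα : ∀ n : ℤ, Adj L H (δ ^ n • (α⁻¹ • H')) := by
    intro n
    rw [← mul_smul]
    exact adjH' _ (hαn n)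
  have e3 : ∀ n : ℤ, (δ ^ n * α⁻¹) • H = δ ^ n • H := by
    intro n
    rw [mul_smul, sα']
  have e4 : ∀ n : ℤ, (δ ^ n * α⁻¹) • H' = δ ^ n • (α⁻¹ • H') := by
    intro n
    rw [mul_smul]
  have gHα : ∀ n : ℤ, δ ^ n • H ≤ -(δ ^ n • (α⁻¹ • H')) := by
    intro n
    have h1 := gHH' (δ ^ n * α⁻¹)
    rw [e3, e4] at h1
    exact h1
  constructor
  · intro hcH
    by_contra hcH'
    have hK : c • H' ≤ -D := (side _ (adjH' c hc)).resolve_left hcH'
    obtain ⟨n, hn | hn | ⟨q1, q2⟩ | ⟨q1, q2⟩⟩ := gap _ (adjH' c hc) hK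
    · apply hm (c⁻¹ * δ ^ n) (A.mul_mem (A.inv_mem hcA) (rδn n).1)
      rw [mul_smul, ← hn, inv_smul_smul]
    · have hfix : ((δ ^ n)⁻¹ * c) • H' = H' := by rw [mul_smul, hn, inv_smul_smul]
      obtain ⟨m, hm'⟩ := hβgen ((δ ^ n)⁻¹ * c) (A.mul_mem (A.inv_mem (rδn n).1) hcA) hfix
      have e1 : c • H = δ ^ n • (β ^ m • H) := by
        rw [← hm', mul_smul, smul_inv_smul]
      rw [e1] at hcH
      exact nbβ m ((smul_le' (δ ^ n) (β ^ m • H) D).1 (by rw [sδn]; exact hcH))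
    · refine nl _ (hαn n) c hc ?_
      have lk := c5a_link D (δ ^ n • H) (c • H') (δ ^ n • (α⁻¹ • H')) (c • H)
        (hDn n H (Arc.le_neg_comm d1)) (Arc.le_neg_comm hK) (hDn n _ (Arc.le_neg_comm d3))
        (dis2 _ _ (adjH _ (rδn n)) (adjH' c hc) q1) (gHα n)
        (dis2 _ _ (adjH' c hc) (adjα n) q2) hcH q1 q2
      rw [e3, e4]
      exact Or.inr ⟨lk.1, lk.2⟩
    · refine nl _ (rδn n) c hc ?_
      have lk := c5a_link D (δ ^ n • H') (c • H') (δ ^ n • H) (c • H)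
        (hDn n H' (Arc.le_neg_comm d2)) (Arc.le_neg_comm hK) (hDn n H (Arc.le_neg_comm d1))
        (dis2 _ _ (adjH' _ (rδn n)) (adjH' c hc) q1) (Arc.le_neg_comm (gHH' (δ ^ n)))
        (dis2 _ _ (adjH' c hc) (adjH _ (rδn n)) q2) hcH q1 q2
      exact Or.inl ⟨lk.2, lk.1⟩
  · intro hcH'
    by_contra hcH
    have hK : c • H ≤ -D := (side _ (adjH c hc)).resolve_left hcH
    obtain ⟨n, hn | hn | ⟨q1, q2⟩ | ⟨q1, q2⟩⟩ := gap _ (adjH c hc) hK
    · have hfix : ((δ ^ n)⁻¹ * c) • H = H := by rw [mul_smul, hn, inv_smul_smul]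
      obtain ⟨m, hm'⟩ := hαgen ((δ ^ n)⁻¹ * c) (A.mul_mem (A.inv_mem (rδn n).1) hcA) hfix
      have e1 : c • H' = δ ^ n • (α ^ (m + 1) • (α⁻¹ • H')) := by
        rw [zpow_add_one, mul_smul, smul_inv_smul, ← hm', mul_smul, smul_inv_smul]
      rw [e1] at hcH'
      exact nbα (m + 1) ((smul_le' (δ ^ n) _ D).1 (by rw [sδn]; exact hcH'))
    · apply hm ((δ ^ n)⁻¹ * c) (A.mul_mem (A.inv_mem (rδn n).1) hcA)
      rw [mul_smul, hn, inv_smul_smul]
    · refine nl _ (hαn n) c hc ?_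
      have lk := c5a_link D (δ ^ n • H) (c • H) (δ ^ n • (α⁻¹ • H')) (c • H')
        (hDn n H (Arc.le_neg_comm d1)) (Arc.le_neg_comm hK) (hDn n _ (Arc.le_neg_comm d3))
        (dis2 _ _ (adjH _ (rδn n)) (adjH c hc) q1) (gHα n)
        (dis2 _ _ (adjH c hc) (adjα n) q2) hcH' q1 q2
      rw [e3, e4]
      exact Or.inl ⟨lk.1, lk.2⟩
    · refine nl _ (rδn n) c hc ?_
      have lk := c5a_link D (δ ^ n • H') (c • H) (δ ^ n • H) (c • H')
        (hDn n H' (Arc.le_neg_comm d2)) (Arc.le_neg_comm hK) (hDn n H (Arc.le_neg_comm d1))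
        (dis2 _ _ (adjH' _ (rδn n)) (adjH c hc) q1) (Arc.le_neg_comm (gHH' (δ ^ n)))
        (dis2 _ _ (adjH c hc) (adjH _ (rδn n)) q2) hcH' q1 q2
      exact Or.inr ⟨lk.2, lk.1⟩

end Pool.Agent.H100R2.SC
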