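import Pool.Agent.H100R2.SC.B1
import Pool.Agent.H100R2.SC.B2
import Pool.Agent.H100R2.SC.B5
import Pool.Agent.H100R2.SC.T1
import Pool.Agent.H100R2.SC.C4c
import Pool.Agent.H100R2.SC.A2

/-! Task C5c (helper457): side lemma. -/

set_option autoImplicit false

namespace Pool.Agent.H100R2.SC

open Filter Topology

theorem C5c_S0_val (ξ : X) : S0.val ξ = 0 ↔ ξ = OnePoint.infty ∨ ξ = ((0 : ℝ) : X) := by
  induction ξ using OnePoint.rec with
  | infty => simp [Arc.val, S0]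
  | coe x =>
    have h : S0.val (x : X) = -2 * x := by
      simp [Arc.val, S0, Arc.ev]
    rw [h]
    constructor
    · intro h0
      right
      have : x = 0 := by linarith
      rw [this]
    · intro h0
      rcases h0 with h0 | h0
      · exact absurd h0 (OnePoint.coe_ne_infty x)
      · have : x = 0 := OnePoint.coe_injective h0
        rw [this]; ring

theorem C5c_zero_two (S : Arc) {x y z : X} (hxy : x ≠ y) (hx : S.val x = 0) (hy : S.val y = 0)
    (hz : S.val z = 0) : z = x ∨ z = y := by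
  obtain ⟨g, -, hg⟩ := exists_smul_S0 S
  have key : ∀ ξ : X, S.val ξ = 0 → g • ξ = OnePoint.infty ∨ g • ξ = ((0 : ℝ) : X) := by
    intro ξ hξ
    obtain ⟨k, hk, h⟩ := val_smul g ξ
    have h1 := h S
    rw [hg, hξ, mul_zero] at h1
    exact (C5c_S0_val _).1 h1
  have hne : g • x ≠ g • y := fun h => hxy (smul_left_cancel g h)
  rcases key x hx with h1 | h1 <;> rcases key y hy with h2 | h2 <;> rcases key z hz with h3 | h3
  · exact absurd (h1.trans h2.symm) hne
  · exact absurd (h1.trans h2.symm) hne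
  · left; exact smul_left_cancel g (h3.trans h1.symm)
  · right; exact smul_left_cancel g (h3.trans h2.symm)
  · right; exact smul_left_cancel g (h3.trans h2.symm)
  · left; exact smul_left_cancel g (h3.trans h1.symm)
  · exact absurd (h1.trans h2.symm) hne
  · exact absurd (h1.trans h2.symm) hne

theorem C5c_pos (S : Arc) : ∃ ξ : X, 0 < S.val ξ := by
  obtain ⟨g, -, hg⟩ := exists_smul_S0 S
  refine ⟨g⁻¹ • ((-1 : ℝ) : X), ?_⟩
  obtain ⟨k, hk, h⟩ := val_smul g (g⁻¹ • ((-1 : ℝ) : X))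
  have h1 := h S
  rw [hg, smul_inv_smul] at h1
  have h2 : S0.val ((-1 : ℝ) : X) = 2 := by
    simp [Arc.val, S0, Arc.ev]
  rw [h2] at h1
  by_contra hc
  push Not at hc
  nlinarith

theorem C5c_nested0 (D : Arc) (h1 : 0 ≤ D.val OnePoint.infty) (h2 : 0 ≤ D.val ((0 : ℝ) : X)) :
    S0 ≤ D ∨ -S0 ≤ D := by
  have hp : 0 ≤ D.p := h1
  have hr : 0 ≤ D.r := by
    have : D.val ((0 : ℝ) : X) = D.r := by simp [Arc.val, Arc.ev]
    rwa [this] at h2
  have hD := D.h
  have hq : 1 ≤ D.q ^ 2 := by nlinarith [mul_nonneg hp hr]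
  rcases le_or_gt 0 D.q with h0 | h0
  · right
    have hq1 : 1 ≤ D.q := by nlinarith
    intro x y
    rw [Arc.ev_neg]
    simp only [Arc.ev, S0]
    -- p x^2 + 2 (q-1) x y + r y^2 ≥ 0
    have hdet : (D.q - 1) ^ 2 ≤ D.p * D.r := by nlinarith
    rcases hp.eq_or_lt with h | h
    · rw [← h] at hdet ⊢
      have : D.q - 1 = 0 := by nlinarith [sq_nonneg (D.q - 1)]
      have : D.q = 1 := by linarith
      rw [this]
      nlinarith [mul_nonneg hr (sq_nonneg y)]
    · have : 0 ≤ D.p * (D.p * x ^ 2 + 2 * (D.q - 1) * x * y + D.r * y ^ 2) := by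
        nlinarith [sq_nonneg (D.p * x + (D.q - 1) * y), mul_nonneg (sub_nonneg.2 hdet) (sq_nonneg y)]
      have := nonneg_of_mul_nonneg_right this h
      nlinarith
  · left
    have hq1 : D.q ≤ -1 := by nlinarith
    intro x y
    simp only [Arc.ev, S0]
    have hdet : (D.q + 1) ^ 2 ≤ D.p * D.r := by nlinarith
    rcases hp.eq_or_lt with h | h
    · rw [← h] at hdet ⊢
      have : D.q + 1 = 0 := by nlinarith [sq_nonneg (D.q + 1)]
      have : D.q = -1 := by linarith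
      rw [this]
      nlinarith [mul_nonneg hr (sq_nonneg y)]
    · have : 0 ≤ D.p * (D.p * x ^ 2 + 2 * (D.q + 1) * x * y + D.r * y ^ 2) := by
        nlinarith [sq_nonneg (D.p * x + (D.q + 1) * y), mul_nonneg (sub_nonneg.2 hdet) (sq_nonneg y)]
      have := nonneg_of_mul_nonneg_right this h
      nlinarith

/-- an arc whose end points are in the closed arc of `D` -/
theorem C5c_nested (S D : Arc) {x y : X} (hxy : x ≠ y) (hx : S.val x = 0) (hy : S.val y = 0)
    (h1 : 0 ≤ D.val x) (h2 : 0 ≤ D.val y) : S ≤ D ∨ -S ≤ D := by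
  obtain ⟨g, -, hg⟩ := exists_smul_S0 S
  have key : ∀ ξ : X, S.val ξ = 0 → g • ξ = OnePoint.infty ∨ g • ξ = ((0 : ℝ) : X) := by
    intro ξ hξ
    obtain ⟨k, hk, h⟩ := val_smul g ξ
    have h1 := h S
    rw [hg, hξ, mul_zero] at h1
    exact (C5c_S0_val _).1 h1
  have hne : g • x ≠ g • y := fun h => hxy (smul_left_cancel g h)
  have hpos : ∀ ξ : X, 0 ≤ D.val ξ → 0 ≤ (g • D).val (g • ξ) := by
    intro ξ hξ
    obtain ⟨k, hk, h⟩ := val_smul g ξ
    rw [h D]
    positivity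
  have h3 := hpos x h1
  have h4 := hpos y h2
  have h5 : S0 ≤ g • D ∨ -S0 ≤ g • D := by
    rcases key x hx with e1 | e1 <;> rcases key y hy with e2 | e2
    · exact absurd (e1.trans e2.symm) hne
    · rw [e1] at h3; rw [e2] at h4; exact C5c_nested0 _ h3 h4
    · rw [e1] at h3; rw [e2] at h4; exact C5c_nested0 _ h4 h3
    · exact absurd (e1.trans e2.symm) hne
  rw [← hg, ← smul_neg', smul_le', smul_le'] at h5
  exact h5

theorem C5c_lim (D : Arc) (f : ℕ → X) (x : X) (hf : Tendsto f atTop (𝓝 x))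
    (h : ∀ n, 0 < D.val (f n)) : 0 ≤ D.val x := by
  by_contra hc
  push Not at hc
  have h1 : x ∈ {ξ : X | 0 < (-D).val ξ} := by
    show 0 < (-D).val x
    rw [val_neg]; linarith
  have h2 := hf.eventually ((continuous_val_pos (-D)).mem_nhds h1)
  obtain ⟨n, hn⟩ := h2.exists
  have h3 : 0 < (-D).val (f n) := hn
  rw [val_neg] at h3
  linarith [h n]

theorem C5c_trc_inv (g : GG) (h : dt g = 1) : trc g⁻¹ = trc g := by
  have h2 : ((g : Matrix (Fin 2) (Fin 2) ℝ)).det = 1 := h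
  have h1 : ((g⁻¹ : GG) : Matrix (Fin 2) (Fin 2) ℝ) = (g : Matrix (Fin 2) (Fin 2) ℝ).adjugate := by
    rw [Matrix.coe_units_inv, Matrix.inv_def, h2]
    simp
  unfold trc
  rw [h1, Matrix.adjugate_fin_two]
  simp
  ring

/-- key lemma: if all the translates `c δ^k H` are in `D'`, then the axis of `c δ c⁻¹` is nested
with `D'` -/
theorem C5c_key (δ c : GG) (hδ1 : dt δ = 1) (hδ2 : 4 < trc δ ^ 2) (hc : dt c = 1) (H D' : Arc)
    (hH : H ≤ ax δ ∨ H ≤ -(ax δ)) (h : ∀ k : ℤ, c • δ ^ k • H ≤ D') :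
    c • ax δ ≤ D' ∨ -(c • ax δ) ≤ D' := by
  have hc0 : 0 < dt c := by rw [hc]; exact one_pos
  set γ : GG := c * δ * c⁻¹ with hγ
  have hax : ax γ = c • ax δ := ax_conj_pos c δ hc0 hδ1 hδ2
  have hγ1 : dt γ = 1 := by
    have e1 : dt c * dt c⁻¹ = 1 := by rw [← dt_mul, mul_inv_cancel, dt_one]
    rw [hγ, dt_mul, dt_mul, hδ1, mul_one, e1]
  have hγ2 : 4 < trc γ ^ 2 := by rw [hγ, trc_conj]; exact hδ2
  have hγi1 : dt γ⁻¹ = 1 := by
    have e1 : dt γ * dt γ⁻¹ = 1 := by rw [← dt_mul, mul_inv_cancel, dt_one]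
    rwa [hγ1, one_mul] at e1
  have hγi : γ⁻¹ = c * δ⁻¹ * c⁻¹ := by rw [hγ]; group
  have hγi2 : 4 < trc γ⁻¹ ^ 2 := by
    rw [C5c_trc_inv γ hγ1]; exact hγ2
  obtain ⟨x, y, hxy, hval, hfx, hfy, hlim⟩ := ax_attract γ hγ1 hγ2
  obtain ⟨x', y', hxy', hval', hfx', hfy', hlim'⟩ := ax_attract γ⁻¹ hγi1 hγi2
  obtain ⟨ξ, hξ⟩ := C5c_pos (c • H)
  -- the point is not an end point of the axis
  have hξ0 : (ax γ).val ξ ≠ 0 := by
    rw [hax]
    rcases hH with hH | hH
    · have := val_mono ((smul_le' c _ _).2 hH) ξ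
      intro h0; linarith
    · have := val_mono ((smul_le' c _ _).2 hH) ξ
      rw [smul_neg', val_neg] at this
      intro h0; linarith
  have hx0 : (ax γ).val x = 0 := (ax_val γ hγ1 hγ2 x).2 hfx
  have hy0 : (ax γ).val y = 0 := (ax_val γ hγ1 hγ2 y).2 hfy
  have fixinv : ∀ z : X, γ⁻¹ • z = z → γ • z = z := by
    intro z hz
    calc γ • z = γ • (γ⁻¹ • z) := by rw [hz]
      _ = z := smul_inv_smul _ _
  have hx0' : (ax γ).val x' = 0 := (ax_val γ hγ1 hγ2 x').2 (fixinv x' hfx')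
  have hy0' : (ax γ).val y' = 0 := (ax_val γ hγ1 hγ2 y').2 (fixinv y' hfy')
  have hinv : ax γ⁻¹ = -(ax γ) := ax_inv γ hγ1 hγ2
  have hx'y : x' = y := by
    rcases C5c_zero_two (ax γ) hxy hx0 hy0 hx0' with e | e
    · exfalso
      have e' : y' = y := by
        rcases C5c_zero_two (ax γ) hxy hx0 hy0 hy0' with e2 | e2
        · exact absurd (e.trans e2.symm) hxy'
        · exact e2
      have a1 := hval ξ
      have a2 := hval' ξ
      rw [e, e', hinv, val_neg] at a2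
      rcases lt_or_gt_of_ne hξ0 with h0 | h0
      · have := a1.2 (a2.1 (by linarith))
        linarith
      · have := a2.2 (a1.1 h0)
        linarith
    · exact e
  have hξy : ξ ≠ y := by
    intro e; rw [e] at hξ0; exact hξ0 hy0
  have hξy' : ξ ≠ y' := by
    intro e; rw [e] at hξ0; exact hξ0 hy0'
  have mem : ∀ k : ℤ, 0 < D'.val (γ ^ k • ξ) := by
    intro k
    obtain ⟨r, hr, hr'⟩ := val_smul (γ ^ k) ξ
    have e1 : γ ^ k • c • H = c • δ ^ k • H := by
      have : γ ^ k = c * δ ^ k * c⁻¹ := by rw [hγ, conj_zpow]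
      rw [this, smul_smul, smul_smul]
      congr 1
      group
    have e2 := hr' (c • H)
    rw [e1] at e2
    have e3 := val_mono (h k) (γ ^ k • ξ)
    have : 0 < r * (c • H).val ξ := by positivity
    linarith
  have hDx : 0 ≤ D'.val x := by
    apply C5c_lim D' _ x (hlim ξ hξy)
    intro n
    have := mem n
    rwa [zpow_natCast] at this
  have hDy : 0 ≤ D'.val y := by
    rw [← hx'y]
    apply C5c_lim D' _ x' (hlim' ξ hξy')
    intro n
    have := mem (-n)
    rwa [zpow_neg, zpow_natCast, ← inv_pow] at this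
  rw [← hax]
  exact C5c_nested (ax γ) D' hxy hx0 hy0 hDx hDy

theorem C5c_adj {A : Subgroup GG} {L : Set Arc} (hL : Fam A L) (H : Arc)
    (δ : GG) (hδ : δ ∈ A) (hs : Adj L H (δ • H)) : ∀ k : ℤ, Adj L H (δ ^ k • H) := by
  have hn : ∀ n : ℕ, Adj L H (δ ^ n • H) := by
    intro n
    induction n with
    | zero =>
      rw [pow_zero, one_smul]
      exact ⟨hs.1, hs.1, Or.inl rfl⟩
    | succ n ih =>
      refine adj_trans hL.toNest hs ?_
      rw [pow_succ', mul_smul]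
      exact (adj_smul hL hδ).2 ih
  intro k
  obtain ⟨n, rfl | rfl⟩ := k.eq_nat_or_neg
  · rw [zpow_natCast]; exact hn n
  · have h1 := (adj_smul hL (A.zpow_mem hδ (-n))).2 (hn n)
    rw [zpow_neg, zpow_natCast, inv_smul_smul] at h1
    rw [zpow_neg, zpow_natCast]
    exact adj_symm hL.toNest h1

theorem side_lemma {A : Subgroup GG} {L : Set Arc} (hA : Fuchs A) (hL : Fam A L) (H : Arc) (hH : H ∈ L)
    (δ : GG) (hδ : δ ∈ A) (h1 : δ ≠ 1) (hs : Adj L H (δ • H)) (hDL : ax δ ∉ L)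
    (hside : ∀ c ∈ A, Adj L H (c • H) → (c • H ≤ ax δ ↔ c • δ • H ≤ ax δ)) :
    ∀ c ∈ A, Adj L H (c • H) →
      (c • H ≤ ax δ → (c • ax δ ≤ ax δ ∨ -(c • ax δ) ≤ ax δ)) ∧
      (¬ c • H ≤ ax δ → (c • ax δ ≤ -(ax δ) ∨ -(c • ax δ) ≤ -(ax δ))) := by
  intro c hc hcH
  have hreg := axis_in_region hA hL H hH δ hδ h1 hs
  have hHD : H ≤ ax δ ∨ H ≤ -(ax δ) := hreg H ⟨hH, hH, Or.inl rfl⟩
  have hδ1 : dt δ = 1 := hA.det1 δ hδ
  have hδ2 : 4 < trc δ ^ 2 := hyp hA hδ h1
  have hc1 : dt c = 1 := hA.det1 c hc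
  have hadj : ∀ k : ℤ, Adj L H (c • δ ^ k • H) := by
    intro k
    exact adj_trans hL.toNest hcH ((adj_smul hL hc).2 (C5c_adj hL H δ hδ hs k))
  have hstep : ∀ k : ℤ, (c • δ ^ k • H ≤ ax δ ↔ c • δ ^ (k + 1) • H ≤ ax δ) := by
    intro k
    have h := hside (c * δ ^ k) (A.mul_mem hc (A.zpow_mem hδ k)) (by rw [mul_smul]; exact hadj k)
    rw [mul_smul, mul_smul] at h
    have e : δ ^ (k + 1) • H = δ ^ k • δ • H := by rw [zpow_add_one, mul_smul]
    rw [e]
    exact h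
  have hall : ∀ k : ℤ, (c • δ ^ k • H ≤ ax δ ↔ c • H ≤ ax δ) := by
    intro k
    induction k using Int.induction_on with
    | zero => rw [zpow_zero, one_smul]
    | succ k ih => rw [← hstep k]; exact ih
    | pred k ih =>
      rw [hstep (-(k : ℤ) - 1), sub_add_cancel]; exact ih
  constructor
  · intro h
    exact C5c_key δ c hδ1 hδ2 hc1 H (ax δ) hHD (fun k => (hall k).2 h)
  · intro h
    apply C5c_key δ c hδ1 hδ2 hc1 H (-(ax δ)) hHD
    intro k
    rcases hreg _ (hadj k) with h2 | h2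
    · exact absurd ((hall k).1 h2) h
    · exact h2

end Pool.Agent.H100R2.SC
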