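import Pool.Agent.H100R2.SC.Defs
import Pool.Agent.H100R2.SC.T1
import Pool.Agent.H100R2.SC.C4c
import Pool.Agent.H100R2.SC.A2
import Pool.Agent.H100R2.SC.A6
import Pool.Agent.H100R2.SC.A7
import Pool.Agent.H100R2.SC.B1
import Pool.Agent.H100R2.SC.B5

/-!
# Task C5d: adding an axis inside a region to a nested family
-/

set_option autoImplicit false

namespace Pool.Agent.H100R2.SC

/-- compatibility of two geodesics -/
def C5dNst (S T : Arc) : Prop := S ≤ T ∨ T ≤ S ∨ S ≤ -T ∨ -T ≤ S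

theorem C5dNst.symm {S T : Arc} (h : C5dNst S T) : C5dNst T S := by
  rcases h with h | h | h | h
  · exact Or.inr (Or.inl h)
  · exact Or.inl h
  · exact Or.inr (Or.inr (Or.inl (Arc.le_neg_comm h)))
  · refine Or.inr (Or.inr (Or.inr ?_))
    have := Arc.neg_le_neg h
    rwa [neg_neg] at this

theorem C5dNst.neg {S T : Arc} (h : C5dNst S T) : C5dNst S (-T) := by
  rcases h with h | h | h | h
  · exact Or.inr (Or.inr (Or.inl (by rwa [neg_neg])))
  · exact Or.inr (Or.inr (Or.inr (by rwa [neg_neg])))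
  · exact Or.inl h
  · exact Or.inr (Or.inl h)

theorem C5dNst.neg' {S T : Arc} (h : C5dNst S T) : C5dNst (-S) T := h.symm.neg.symm

theorem C5dNst.smul {S T : Arc} (g : GG) (h : C5dNst S T) : C5dNst (g • S) (g • T) := by
  rcases h with h | h | h | h
  · exact Or.inl ((smul_le' g S T).2 h)
  · exact Or.inr (Or.inl ((smul_le' g T S).2 h))
  · exact Or.inr (Or.inr (Or.inl (by rw [← smul_neg']; exact (smul_le' g _ _).2 h)))
  · exact Or.inr (Or.inr (Or.inr (by rw [← smul_neg']; exact (smul_le' g _ _).2 h)))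

theorem c5d_inv_smul_le (g : GG) (S T : Arc) : g⁻¹ • S ≤ T ↔ S ≤ g • T := by
  conv_rhs => rw [← smul_le' g⁻¹, inv_smul_smul]

theorem c5d_smul_le_iff (g : GG) (S T : Arc) : g • S ≤ T ↔ S ≤ g⁻¹ • T := by
  conv_rhs => rw [← smul_le' g, smul_inv_smul]

theorem c5d_not_le_neg_self (S : Arc) (h : S ≤ -S) : False := Arc.not_le_and le_rfl h

theorem c5d_not_neg_le_self (S : Arc) (h : -S ≤ S) : False :=
  Arc.not_le_and (S := -S) (T := S) h le_rfl

/-- Two different regions are separated. -/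
theorem c5d_tree_sep {L : Set Arc} (hL : Nest L) {S K : Arc} (hS : S ∈ L) (hK : K ∈ L)
    (hn : ¬ Adj L S K) : ∃ U V, Adj L S U ∧ Adj L K V ∧ -V ≤ U := by
  obtain ⟨U, hU, hKU⟩ := region_cover hL hS hK
  obtain ⟨V, hV, hUV⟩ := region_cover hL hK hU.2.1
  refine ⟨U, V, hU, hV, ?_⟩
  rcases hUV with h | h
  · exfalso
    rcases hV.2.2 with h' | h'
    · subst h'
      rcases hKU with h1 | h1
      · exact hn ((le_antisymm h h1) ▸ hU)
      · exact c5d_not_neg_le_self K (h1.trans h)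
    · have hVK : V ≤ -K := Arc.le_neg_comm h'.1
      rcases hKU with h1 | h1
      · exact c5d_not_le_neg_self K (h1.trans (h.trans hVK))
      · have : V = -K := le_antisymm hVK (h1.trans h)
        exact h'.2.1 (by rw [this, neg_neg])
  · have := Arc.neg_le_neg h
    rwa [neg_neg] at this

/-- The translated geodesic of another region is behind a bounding geodesic. -/
theorem c5d_other_region {A : Subgroup GG} {L : Set Arc} (hL : Fam A L) {H D : Arc} (hH : H ∈ L)
    (hreg : ∀ U, Adj L H U → U ≤ D ∨ U ≤ -D) {c : GG} (hc : c ∈ A) (hn : ¬ Adj L H (c • H)) :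
    ∃ U, Adj L H U ∧ (c • D ≤ U ∨ -(c • D) ≤ U) := by
  obtain ⟨U, V, hU, hV, hUV⟩ := c5d_tree_sep hL.toNest hH (hL.inv c hc H hH) hn
  refine ⟨U, hU, ?_⟩
  have hV' : Adj L H (c⁻¹ • V) := by
    rw [← adj_smul hL hc, smul_inv_smul]
    exact hV
  rcases hreg _ hV' with h | h
  · right
    rw [c5d_inv_smul_le] at h
    exact (Arc.neg_le_neg h).trans hUV
  · left
    rw [c5d_inv_smul_le, smul_neg'] at h
    have := Arc.le_neg_comm h
    exact this.trans hUV

/-- If `H ≤ U` for a bounding geodesic then `U = H`. -/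
theorem c5d_eq_of_le_adj {L : Set Arc} {H U : Arc} (h : Adj L H U) (hle : H ≤ U) : U = H := by
  rcases h.2.2 with h' | h'
  · exact h'.symm
  · exact (Arc.not_le_and hle h'.1).elim

theorem c5d_adj_inv {A : Subgroup GG} {L : Set Arc} (hL : Fam A L) {H : Arc} {c : GG} (hc : c ∈ A)
    (h : Adj L H (c • H)) : Adj L H (c⁻¹ • H) := by
  have := (adj_smul hL (A.inv_mem hc)).2 h
  rw [inv_smul_smul] at this
  exact adj_symm hL.toNest this

theorem c5d_orb_self (A : Subgroup GG) (D : Arc) : D ∈ Orb A D :=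
  ⟨1, A.one_mem, Or.inl (one_smul _ _).symm⟩

theorem c5d_orb_neg {A : Subgroup GG} {D S : Arc} (h : S ∈ Orb A D) : -S ∈ Orb A D := by
  obtain ⟨a, ha, h | h⟩ := h
  · exact ⟨a, ha, Or.inr (by rw [h])⟩
  · exact ⟨a, ha, Or.inl (by rw [h, neg_neg])⟩

theorem c5d_orb_inv {A : Subgroup GG} {D S : Arc} {b : GG} (hb : b ∈ A) (h : S ∈ Orb A D) :
    b • S ∈ Orb A D := by
  obtain ⟨a, ha, h | h⟩ := h
  · exact ⟨b * a, A.mul_mem hb ha, Or.inl (by rw [h, mul_smul])⟩
  · exact ⟨b * a, A.mul_mem hb ha, Or.inr (by rw [h, mul_smul, smul_neg'])⟩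

theorem add_fam {A : Subgroup GG} {L : Set Arc} (hA : Fuchs A) (hL : Fam A L) (H : Arc) (hH : H ∈ L)
    (δ : GG) (hδ : δ ∈ A) (h1 : δ ≠ 1) (hs : Adj L H (δ • H)) (hDL : ax δ ∉ L)
    (hn : ∀ c ∈ A, Adj L H (c • H) → (c • ax δ ≤ ax δ ∨ ax δ ≤ c • ax δ ∨ c • ax δ ≤ -(ax δ) ∨ -(ax δ) ≤ c • ax δ)) :
    Fam A (L ∪ Orb A (ax δ)) := by
  have hreg := axis_in_region hA hL H hH δ hδ h1 hs
  have hd1 := hA.det1 δ hδ
  have hd2 := hyp hA hδ h1
  have hDne : ∀ c ∈ A, c • ax δ = ax (c * δ * c⁻¹) := by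
    intro c hc
    rw [ax_conj_pos c δ (by rw [hA.det1 c hc]; norm_num) hd1 hd2]
  have hconj : ∀ c ∈ A, c * δ * c⁻¹ ∈ A ∧ c * δ * c⁻¹ ≠ 1 := by
    intro c hc
    refine ⟨A.mul_mem (A.mul_mem hc hδ) (A.inv_mem hc), fun h => h1 ?_⟩
    exact conj_eq_one_iff.1 h
  have haxs : ∀ S ∈ L ∪ Orb A (ax δ), ∃ α ∈ A, α ≠ 1 ∧ ax α = S := by
    rintro S (hS | ⟨c, hc, hS | hS⟩)
    · exact hL.axs S hS
    · exact ⟨c * δ * c⁻¹, (hconj c hc).1, (hconj c hc).2, by rw [hS, hDne c hc]⟩
    · refine ⟨(c * δ * c⁻¹)⁻¹, A.inv_mem (hconj c hc).1, inv_ne_one.2 (hconj c hc).2, ?_⟩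
      rw [ax_inv _ (hA.det1 _ (hconj c hc).1) (hyp hA (hconj c hc).1 (hconj c hc).2), hS,
        hDne c hc]
  -- `R ∈ L` versus `D`
  have hLD : ∀ R ∈ L, C5dNst R (ax δ) := by
    intro R hR
    obtain ⟨U, hU, hRU⟩ := region_cover hL.toNest hH hR
    rcases hRU with h | h <;> rcases hreg U hU with h' | h'
    · exact Or.inl (h.trans h')
    · exact Or.inr (Or.inr (Or.inl (h.trans h')))
    · refine Or.inr (Or.inr (Or.inr ?_))
      have := Arc.neg_le_neg (h.trans h')
      rwa [neg_neg] at this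
    · exact Or.inr (Or.inl (by simpa using Arc.neg_le_neg (h.trans h')))
  have hLcD : ∀ R ∈ L, ∀ c ∈ A, C5dNst R (c • ax δ) := by
    intro R hR c hc
    have := (hLD (c⁻¹ • R) (hL.inv _ (A.inv_mem hc) R hR)).smul c
    rwa [smul_inv_smul] at this
  have hcD : ∀ c ∈ A, C5dNst (ax δ) (c • ax δ) := by
    intro c hc
    by_cases hadj : Adj L H (c • H)
    · have h := hn c hc hadj
      exact C5dNst.symm h
    · obtain ⟨U, hU, hcU⟩ := c5d_other_region hL hH hreg hc hadj
      rcases hcU with h | h <;> rcases hreg U hU with h' | h'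
      · exact Or.inr (Or.inl (h.trans h'))
      · exact C5dNst.symm (Or.inr (Or.inr (Or.inl (h.trans h'))))
      · refine Or.inr (Or.inr (Or.inr (h.trans h')))
      · exact Or.inl (by simpa using Arc.neg_le_neg (h.trans h'))
  have hbcD : ∀ b ∈ A, ∀ c ∈ A, C5dNst (b • ax δ) (c • ax δ) := by
    intro b hb c hc
    have := (hcD (b⁻¹ * c) (A.mul_mem (A.inv_mem hb) hc)).smul b
    rwa [← mul_smul, ← mul_assoc, mul_inv_cancel, one_mul] at this
  refine
    { neg := ?_
      nest := ?_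
      lf := ?_
      ne := ?_
      inv := ?_
      axs := haxs
      ne0 := hL.ne0.mono Set.subset_union_left }
  · rintro S (hS | hS)
    · exact Or.inl (hL.neg S hS)
    · exact Or.inr (c5d_orb_neg hS)
  · show ∀ S ∈ L ∪ Orb A (ax δ), ∀ T ∈ L ∪ Orb A (ax δ), C5dNst S T
    rintro S (hS | ⟨b, hb, rfl | rfl⟩) T (hT | ⟨c, hc, rfl | rfl⟩)
    · exact hL.nest S hS T hT
    · exact hLcD S hS c hc
    · exact (hLcD S hS c hc).neg
    · exact (hLcD T hT b hb).symm
    · exact hbcD b hb c hc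
    · exact (hbcD b hb c hc).neg
    · exact (hLcD T hT b hb).symm.neg'
    · exact (hbcD b hb c hc).neg'
    · exact (hbcD b hb c hc).neg'.neg
  · intro M
    have hf := lf_orbit hA δ hδ h1 M
    have hfn := hf.image (fun S : Arc => -S)
    refine (((hL.lf M).union hf).union hfn).subset ?_
    rintro S ⟨hS | ⟨c, hc, hS | hS⟩, hM⟩
    · exact Or.inl (Or.inl ⟨hS, hM⟩)
    · exact Or.inl (Or.inr ⟨⟨c, hc, hS⟩, hM⟩)
    · refine Or.inr ⟨-S, ⟨⟨c, hc, by rw [hS, neg_neg]⟩, ?_⟩, neg_neg S⟩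
      have : (-S).tr = -S.tr := by simp [Arc.tr]; ring
      rw [this, abs_neg]
      exact hM
  · intro S hS T hT ξ h1' h2'
    obtain ⟨α, hα, hα1, rfl⟩ := haxs S hS
    obtain ⟨β, hβ, hβ1, rfl⟩ := haxs T hT
    exact ax_ne hA α β hα hα1 hβ hβ1 ξ h1' h2'
  · rintro a ha S (hS | hS)
    · exact Or.inl (hL.inv a ha S hS)
    · exact Or.inr (c5d_orb_inv ha hS)

theorem add_adj {A : Subgroup GG} {L : Set Arc} (hA : Fuchs A) (hL : Fam A L) (H : Arc) (hH : H ∈ L)
    (δ : GG) (hδ : δ ∈ A) (h1 : δ ≠ 1) (hs : Adj L H (δ • H)) (hDL : ax δ ∉ L) (hHD : H ≤ -(ax δ))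
    (hn : ∀ c ∈ A, Adj L H (c • H) →
      (c • H ≤ ax δ → (c • ax δ ≤ ax δ ∨ -(c • ax δ) ≤ ax δ)) ∧
      (¬ c • H ≤ ax δ → (c • ax δ ≤ -(ax δ) ∨ -(c • ax δ) ≤ -(ax δ)))) :
    Adj (L ∪ Orb A (ax δ)) H (ax δ) ∧
    ∀ H', Adj L H H' → (∀ c ∈ A, Adj L H (c • H) → (c • H ≤ ax δ ↔ c • H' ≤ ax δ)) →
      Adj (L ∪ Orb A (ax δ)) H H' := by
  have hreg := axis_in_region hA hL H hH δ hδ h1 hs
  have hnD : ∀ c ∈ A, c • ax δ ∉ L := by
    intro c hc h
    have := hL.inv c⁻¹ (A.inv_mem hc) _ h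
    rw [inv_smul_smul] at this
    exact hDL this
  constructor
  · refine ⟨Or.inl hH, Or.inr (c5d_orb_self A _), Or.inr ⟨hHD, ?_, ?_⟩⟩
    · intro h
      have h' := hL.neg _ hH
      rw [h, neg_neg] at h'
      exact hDL h'
    · rintro R (hR | ⟨c, hc, hR⟩) hHR hRD
      · left
        obtain ⟨U, hU, hRU⟩ := region_cover hL.toNest hH hR
        rcases hRU with h | h
        · have := c5d_eq_of_le_adj hU (hHR.trans h)
          subst this
          exact le_antisymm h hHR
        · exfalso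
          have h2 : ax δ ≤ U := (Arc.le_neg_comm hRD).trans h
          rcases hreg U hU with h' | h'
          · exact hDL ((le_antisymm h2 h') ▸ hU.2.1)
          · exact c5d_not_le_neg_self _ (h2.trans h')
      · right
        by_cases hadj : Adj L H (c • H)
        · have hinv := hn c⁻¹ (A.inv_mem hc) (c5d_adj_inv hL hc hadj)
          rcases hR with hR | hR
          · subst hR
            have h2 := hinv.1 ((c5d_inv_smul_le _ _ _).2 hHR)
            rcases h2 with h2 | h2
            · rw [c5d_inv_smul_le] at h2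
              exact (c5d_not_le_neg_self _ (h2.trans hRD)).elim
            · rw [← smul_neg', c5d_inv_smul_le] at h2
              exact le_antisymm hRD h2
          · subst hR
            have h3 : ax δ ≤ c • ax δ := by simpa using Arc.neg_le_neg hRD
            have h4 : c⁻¹ • H ≤ -(ax δ) := by
              rw [c5d_inv_smul_le, smul_neg']; exact hHR
            have h2 := hinv.2 (fun h => Arc.not_le_and h h4)
            rcases h2 with h2 | h2
            · rw [c5d_inv_smul_le, smul_neg'] at h2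
              exact (Arc.not_le_and h3 h2).elim
            · have h5 : ax δ ≤ c⁻¹ • ax δ := by simpa using Arc.neg_le_neg h2
              rw [← c5d_smul_le_iff] at h5
              rw [le_antisymm h5 h3]
        · exfalso
          obtain ⟨U, hU, hcU⟩ := c5d_other_region hL hH hreg hc hadj
          have key : ∀ R, H ≤ R → R ≤ -(ax δ) → R ∉ L → (R ≤ U ∨ -R ≤ U) → False := by
            intro R h2 h3 h4 h5
            rcases h5 with h5 | h5
            · have := c5d_eq_of_le_adj hU (h2.trans h5)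
              subst this
              exact h4 ((le_antisymm h5 h2) ▸ hH)
            · have h6 : ax δ ≤ U := (Arc.le_neg_comm h3).trans h5
              rcases hreg U hU with h' | h'
              · exact hDL ((le_antisymm h6 h') ▸ hU.2.1)
              · exact c5d_not_le_neg_self _ (h6.trans h')
          rcases hR with hR | hR
          · subst hR
            exact key _ hHR hRD (hnD c hc) hcU
          · subst hR
            refine key _ hHR hRD (fun h => hnD c hc (by simpa using hL.neg _ h)) ?_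
            rw [neg_neg]
            exact hcU.symm
  · intro H' hH' hside
    refine ⟨Or.inl hH, Or.inl hH'.2.1, ?_⟩
    rcases hH'.2.2 with h | ⟨h2, h3, h4⟩
    · exact Or.inl h
    refine Or.inr ⟨h2, h3, ?_⟩
    rintro R (hR | ⟨c, hc, hR⟩) hHR hRH
    · exact h4 R hR hHR hRH
    by_cases hadj : Adj L H (c • H)
    · exfalso
      have hsd := hside c⁻¹ (A.inv_mem hc) (c5d_adj_inv hL hc hadj)
      rcases hR with hR | hR
      · subst hR
        have h5 := hsd.1 ((c5d_inv_smul_le _ _ _).2 hHR)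
        rw [c5d_inv_smul_le] at h5
        exact c5d_not_le_neg_self _ (h5.trans hRH)
      · subst hR
        have h4' : c⁻¹ • H ≤ -(ax δ) := by
          rw [c5d_inv_smul_le, smul_neg']; exact hHR
        have h5 : c⁻¹ • H' ≤ ax δ := by
          rw [c5d_inv_smul_le]
          simpa using Arc.neg_le_neg hRH
        exact Arc.not_le_and (hsd.2 h5) h4'
    · obtain ⟨U, hU, hcU⟩ := c5d_other_region hL hH hreg hc hadj
      have hUR : R ≤ U ∨ -R ≤ U := by
        rcases hR with hR | hR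
        · subst hR; exact hcU
        · subst hR; rw [neg_neg]; exact hcU.symm
      rcases hUR with h5 | h5
      · left
        have := c5d_eq_of_le_adj hU (hHR.trans h5)
        subst this
        exact le_antisymm h5 hHR
      · right
        have hUH' : Adj L H' U := adj_trans hL.toNest (adj_symm hL.toNest hH') hU
        have h6 : H' ≤ U := (Arc.le_neg_comm hRH).trans h5
        have := c5d_eq_of_le_adj hUH' h6
        subst this
        have h7 := le_antisymm h5 (Arc.le_neg_comm hRH)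
        rw [← h7, neg_neg]

end Pool.Agent.H100R2.SC
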