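import Pool.Agent.H100R2.SC.Defs
import Pool.Agent.H100R2.SC.A2
import Pool.Agent.H100R2.SC.B5
import Pool.Agent.H100R2.SC.T1
import Pool.Agent.H100R2.SC.C4
import Pool.Agent.H100R2.SC.C4c
import Pool.Agent.H100R2.SC.C5a
import Pool.Agent.H100R2.SC.C5c
import Pool.Agent.H100R2.SC.C5d

/-!
Density of the commensurator of a surface group: adding a geodesic, case one (helper619).
-/

set_option autoImplicit false

namespace Pool.Agent.H100R2.SC

-- C5e
theorem caseOne {A : Subgroup GG} {L : Set Arc} (hA : Fuchs A) (hL : Fam A L) (H H' : Arc)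
    (h : Adj L H H') (hm : ∀ a ∈ A, a • H ≠ H') (hu : Unl A L H H') (α β : GG) (gα : IsGen A H α)
    (gβ : IsGen A H' β) (D : Arc) (hD : D = ax (β * α)⁻¹) (hDL : D ∉ L) :
    Fam A (L ∪ Orb A D) ∧ Adj (L ∪ Orb A D) H H' ∧ Adj (L ∪ Orb A D) H D ∧
      (∀ U, Adj L H U → U ≤ D ∨ U ≤ -D) := by
  have hN : Nest L := hL.toNest
  have hH : H ∈ L := h.1
  have hne : H ≠ H' := by
    have := hm 1 (one_mem A)
    rwa [one_smul] at this
  obtain ⟨aA, a1, aax, _⟩ := gα
  obtain ⟨bA, b1, bax, _⟩ := gβ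
  have hloc := loc1 hA hL H H' h hne α β aA bA a1 b1 aax bax D hD
  have hedge := edge1 hA hL H H' h hm hu α β ⟨aA, a1, aax, by assumption⟩
    ⟨bA, b1, bax, by assumption⟩ D hD hDL
  -- fixed axes
  have hαH : α • H = H := by
    have := ax_smul α (hA.det1 α aA) (hyp hA aA a1)
    rwa [aax] at this
  have hβH : β • H' = H' := by
    have := ax_smul β (hA.det1 β bA) (hyp hA bA b1)
    rwa [bax] at this
  have hαi : α⁻¹ • H = H := by
    rw [inv_smul_eq_iff]
    exact hαH.symm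
  have hβi : β⁻¹ • H' = H' := by
    rw [inv_smul_eq_iff]
    exact hβH.symm
  set δ : GG := (β * α)⁻¹ with hδdef
  have hδA : δ ∈ A := inv_mem (mul_mem bA aA)
  have hδ1 : δ ≠ 1 := by
    intro h1
    exact hloc.1 (inv_eq_one.1 h1)
  have hδeq : δ = α⁻¹ * β⁻¹ := by
    rw [hδdef, mul_inv_rev]
  -- `δ • H` bounds the region of `H`
  have hsy : Adj L H' H := adj_symm hN h
  have hs1 : Adj L (β⁻¹ • H) H := by
    have h2 : Adj L (β⁻¹ • H) (β⁻¹ • H') := (adj_smul hL (inv_mem bA)).2 h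
    rw [hβi] at h2
    exact adj_trans hN h2 hsy
  have hs2 : Adj L (δ • H) H := by
    have h3 : Adj L (α⁻¹ • (β⁻¹ • H)) (α⁻¹ • H) := (adj_smul hL (inv_mem aA)).2 hs1
    rw [hαi, smul_smul, ← hδeq] at h3
    exact h3
  have hs : Adj L H (δ • H) := adj_symm hN hs2
  -- the sides
  have hside : ∀ c ∈ A, Adj L H (c • H) → (c • H ≤ D ↔ c • δ • H ≤ D) := by
    intro c hc hcH
    have e1 : (c * α⁻¹) • H = c • H := by rw [mul_smul, hαi]
    have e2 : (c * α⁻¹) • H' = (c * δ) • H' := by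
      rw [hδeq, ← mul_assoc, mul_smul (c * α⁻¹) β⁻¹, hβi]
    have k1 := hedge (c * α⁻¹) (mul_mem hc (inv_mem aA)) (by rw [e1]; exact hcH)
    have hcd : Adj L H ((c * δ) • H) := by
      have h4 : Adj L (c • H) (c • δ • H) := (adj_smul hL hc).2 hs
      rw [mul_smul]
      exact adj_trans hN hcH h4
    have k2 := hedge (c * δ) (mul_mem hc hδA) hcd
    rw [e1, e2] at k1
    rw [k1, ← k2, mul_smul]
  rw [hD] at hside hDL hedge
  have hsl := side_lemma hA hL H hH δ hδA hδ1 hs hDL hside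
  have hHD : H ≤ -(ax δ) := by
    have := hloc.2.1
    rw [hD] at this
    exact Arc.le_neg_comm this
  rw [hD]
  have hadd := add_adj hA hL H hH δ hδA hδ1 hs hDL hHD hsl
  refine ⟨?_, hadd.2 H' h hedge, hadd.1, axis_in_region hA hL H hH δ hδA hδ1 hs⟩
  refine add_fam hA hL H hH δ hδA hδ1 hs hDL ?_
  intro c hc hcH
  obtain ⟨h5, h6⟩ := hsl c hc hcH
  by_cases h7 : c • H ≤ ax δ
  · rcases h5 h7 with h8 | h8
    · exact Or.inl h8
    · refine Or.inr (Or.inr (Or.inr ?_))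
      have := Arc.neg_le_neg h8
      rwa [neg_neg] at this
  · rcases h6 h7 with h8 | h8
    · exact Or.inr (Or.inr (Or.inl h8))
    · refine Or.inr (Or.inl ?_)
      have := Arc.neg_le_neg h8
      rwa [neg_neg, neg_neg] at this

end Pool.Agent.H100R2.SC
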