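import Pool.Agent.H100R2.SC.Defs
import Pool.Agent.H100R2.SC.B1
import Pool.Agent.H100R2.SC.B5
import Pool.Agent.H100R2.SC.A2

set_option autoImplicit false

namespace Pool.Agent.H100R2.SC

open Matrix

namespace C4bAux

lemma inv_entries (f : GG) (h : dt f = 1) :
    ((f⁻¹ : GG) : Matrix (Fin 2) (Fin 2) ℝ) 0 0 = (f : Matrix (Fin 2) (Fin 2) ℝ) 1 1 ∧
    ((f⁻¹ : GG) : Matrix (Fin 2) (Fin 2) ℝ) 0 1 = -(f : Matrix (Fin 2) (Fin 2) ℝ) 0 1 ∧
    ((f⁻¹ : GG) : Matrix (Fin 2) (Fin 2) ℝ) 1 0 = -(f : Matrix (Fin 2) (Fin 2) ℝ) 1 0 ∧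
    ((f⁻¹ : GG) : Matrix (Fin 2) (Fin 2) ℝ) 1 1 = (f : Matrix (Fin 2) (Fin 2) ℝ) 0 0 := by
  have h1 : ((f⁻¹ : GG) : Matrix (Fin 2) (Fin 2) ℝ) = (f : Matrix (Fin 2) (Fin 2) ℝ).adjugate := by
    rw [Matrix.coe_units_inv, Matrix.inv_def]
    have : (f : Matrix (Fin 2) (Fin 2) ℝ).det = 1 := h
    rw [this]
    simp
  rw [h1, Matrix.adjugate_fin_two]
  simp

lemma dt_inv (f : GG) (h : dt f = 1) : dt f⁻¹ = 1 := by
  have h1 := dt_mul f f⁻¹
  rw [mul_inv_cancel, dt_one, h, one_mul] at h1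
  exact h1.symm

lemma le_of_coef (S T : Arc) (h1 : S.p ≤ T.p) (h2 : S.r ≤ T.r)
    (h3 : (T.q - S.q) ^ 2 ≤ (T.p - S.p) * (T.r - S.r)) : S ≤ T := by
  intro x y
  simp only [Arc.ev]
  have : 0 ≤ (T.p - S.p) * x ^ 2 + 2 * (T.q - S.q) * x * y + (T.r - S.r) * y ^ 2 := by
    set A := T.p - S.p with hA
    set B := T.q - S.q with hB
    set C := T.r - S.r with hC
    have hA0 : 0 ≤ A := by rw [hA]; linarith
    have hC0 : 0 ≤ C := by rw [hC]; linarith
    rcases hA0.lt_or_eq with hA1 | hA1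
    · have : 0 ≤ A * (A * x ^ 2 + 2 * B * x * y + C * y ^ 2) := by
        have : A * (A * x ^ 2 + 2 * B * x * y + C * y ^ 2) =
          (A * x + B * y) ^ 2 + (A * C - B ^ 2) * y ^ 2 := by ring
        rw [this]
        have h4 : 0 ≤ A * C - B ^ 2 := by linarith
        positivity
      exact nonneg_of_mul_nonneg_right this hA1
    · rw [← hA1] at h3 ⊢
      have hB0 : B = 0 := by nlinarith
      rw [hB0]
      have : 0 * x ^ 2 + 2 * 0 * x * y + C * y ^ 2 = C * y ^ 2 := by ring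
      rw [this]
      positivity
  linarith

lemma coef_of_le (S T : Arc) (h : S ≤ T) : S.p ≤ T.p ∧ S.r ≤ T.r ∧
    (T.q - S.q) ^ 2 ≤ (T.p - S.p) * (T.r - S.r) := by
  have h1 : S.p ≤ T.p := by
    have := h 1 0
    simpa [Arc.ev] using this
  have h2 : S.r ≤ T.r := by
    have := h 0 1
    simpa [Arc.ev] using this
  refine ⟨h1, h2, ?_⟩
  have h3 : ∀ x y, 0 ≤ (T.p - S.p) * x ^ 2 + 2 * (T.q - S.q) * x * y + (T.r - S.r) * y ^ 2 := by
    intro x y
    have := h x y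
    simp only [Arc.ev] at this
    linarith
  set A := T.p - S.p with hA
  set B := T.q - S.q with hB
  set C := T.r - S.r with hC
  have hA0 : 0 ≤ A := by rw [hA]; linarith
  have hC0 : 0 ≤ C := by rw [hC]; linarith
  rcases hA0.lt_or_eq with hA1 | hA1
  · have := h3 (-B) A
    have h4 : A * (-B) ^ 2 + 2 * B * (-B) * A + C * A ^ 2 = A * (A * C - B ^ 2) := by ring
    rw [h4] at this
    have := nonneg_of_mul_nonneg_right this hA1
    linarith
  · have h5 : ∀ x y, 0 ≤ 2 * B * x * y + C * y ^ 2 := by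
      intro x y
      have := h3 x y
      rw [← hA1] at this
      linarith
    have hB0 : B = 0 := by
      by_contra hB1
      have h6 := h5 (-(C + 1)  / (2 * B)) 1
      have h7 : 2 * B * (-(C + 1) / (2 * B)) = -(C + 1) := by field_simp
      rw [h7] at h6
      linarith
    rw [hB0, ← hA1]
    simp

lemma ax_coef (f : GG) (df : dt f = 1) (tf : 4 < trc f ^ 2) :
    (ax f).p = 2 * ((SignType.sign (trc f) : SignType) : ℝ) / √(trc f ^ 2 - 4) *
        (f : Matrix (Fin 2) (Fin 2) ℝ) 1 0 ∧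
    (ax f).q = 2 * ((SignType.sign (trc f) : SignType) : ℝ) / √(trc f ^ 2 - 4) *
      (((f : Matrix (Fin 2) (Fin 2) ℝ) 1 1 - (f : Matrix (Fin 2) (Fin 2) ℝ) 0 0) / 2) ∧
    (ax f).r = -(2 * ((SignType.sign (trc f) : SignType) : ℝ) / √(trc f ^ 2 - 4) *
        (f : Matrix (Fin 2) (Fin 2) ℝ) 0 1) := by
  unfold ax
  rw [dif_pos ⟨df, tf⟩]
  exact ⟨rfl, rfl, rfl⟩

lemma core (f : GG) (df : dt f = 1) (tf : 4 < trc f ^ 2) (k1 : S0 ≤ -(f • S0))
    (k2 : 0 < Del S0 (f • S0) (f⁻¹ • S0)) :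
    ax f ≤ -S0 ∧ 0 < Del S0 (f • S0) (ax f) ∧ 0 < Del S0 (ax f) (f⁻¹ • S0) := by
  obtain ⟨i1, i2, i3, i4⟩ := inv_entries f df
  obtain ⟨hp, hq, hr⟩ := ax_coef f df tf
  have dfi := dt_inv f df
  set a := (f : Matrix (Fin 2) (Fin 2) ℝ) 0 0 with ha
  set b := (f : Matrix (Fin 2) (Fin 2) ℝ) 0 1 with hb
  set c := (f : Matrix (Fin 2) (Fin 2) ℝ) 1 0 with hc
  set d := (f : Matrix (Fin 2) (Fin 2) ℝ) 1 1 with hd
  have hdet : a * d - b * c = 1 := by
    have := df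
    rw [dt, Matrix.det_fin_two] at this
    exact this
  have ht : trc f = a + d := rfl
  have p1 : (f • S0).p = 2 * (c * d) := by
    show ((0 : ℝ) * d ^ 2 - 2 * (-1) * c * d + 0 * c ^ 2) / |dt f| = _
    rw [df, abs_one, div_one]; ring
  have q1 : (f • S0).q = -(a * d + b * c) := by
    show (- (0 : ℝ) * b * d + (-1) * (a * d + b * c) - 0 * a * c) / |dt f| = _
    rw [df, abs_one, div_one]; ring
  have r1 : (f • S0).r = 2 * (a * b) := by
    show ((0 : ℝ) * b ^ 2 - 2 * (-1) * a * b + 0 * a ^ 2) / |dt f| = _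
    rw [df, abs_one, div_one]; ring
  have p2 : (f⁻¹ • S0).p = -(2 * (a * c)) := by
    show ((0 : ℝ) * ((f⁻¹ : GG) : Matrix (Fin 2) (Fin 2) ℝ) 1 1 ^ 2
      - 2 * (-1) * ((f⁻¹ : GG) : Matrix (Fin 2) (Fin 2) ℝ) 1 0 *
        ((f⁻¹ : GG) : Matrix (Fin 2) (Fin 2) ℝ) 1 1
      + 0 * ((f⁻¹ : GG) : Matrix (Fin 2) (Fin 2) ℝ) 1 0 ^ 2) / |dt f⁻¹| = _
    rw [dfi, abs_one, div_one, i3, i4]; ring
  have r2 : (f⁻¹ • S0).r = -(2 * (b * d)) := by
    show ((0 : ℝ) * ((f⁻¹ : GG) : Matrix (Fin 2) (Fin 2) ℝ) 0 1 ^ 2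
      - 2 * (-1) * ((f⁻¹ : GG) : Matrix (Fin 2) (Fin 2) ℝ) 0 0 *
        ((f⁻¹ : GG) : Matrix (Fin 2) (Fin 2) ℝ) 0 1
      + 0 * ((f⁻¹ : GG) : Matrix (Fin 2) (Fin 2) ℝ) 0 0 ^ 2) / |dt f⁻¹| = _
    rw [dfi, abs_one, div_one, i1, i2]; ring
  have s0p : S0.p = 0 := rfl
  have s0q : S0.q = -1 := rfl
  have s0r : S0.r = 0 := rfl
  obtain ⟨c1, c2, c3⟩ := coef_of_le _ _ k1
  rw [Arc.neg_p, p1, s0p] at c1
  rw [Arc.neg_r, r1, s0r] at c2
  rw [Arc.neg_p, Arc.neg_q, Arc.neg_r, p1, q1, r1, s0p, s0q, s0r] at c3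
  have hcd : c * d ≤ 0 := by linarith
  have hab : a * b ≤ 0 := by linarith
  have had : a * d ≤ 0 := by
    have h1 : (a * d + b * c - -1) ^ 2 ≤ 4 * (a * d) * (b * c) := by
      have : (-2 * (c * d) - 0) * (-2 * (a * b) - 0) = 4 * (a * d) * (b * c) := by ring
      linarith only [c3, this]
    have h2 : b * c = a * d - 1 := by linarith
    rw [h2] at h1
    nlinarith only [h1]
  have hbc : b * c ≤ -1 := by linarith
  have hdel : a ^ 2 < d ^ 2 := by
    have : Del S0 (f • S0) (f⁻¹ • S0) = 4 * (b * c) * (a ^ 2 - d ^ 2) := by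
      unfold Del
      rw [s0p, s0q, s0r, p1, r1, p2, r2]
      ring
    rw [this] at k2
    by_contra h5
    push Not at h5
    have h6 : 4 * (b * c) * (a ^ 2 - d ^ 2) ≤ 0 :=
      mul_nonpos_of_nonpos_of_nonneg (by linarith only [hbc]) (by linarith only [h5])
    linarith only [k2, h6]
  have hd0 : d ≠ 0 := by
    rintro h0
    rw [h0] at hdel
    nlinarith only [sq_nonneg a, hdel]
  -- the sign factor
  have hD : (0 : ℝ) < trc f ^ 2 - 4 := by linarith
  set s : ℝ := 2 * ((SignType.sign (trc f) : SignType) : ℝ) / √(trc f ^ 2 - 4) with hs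
  have hst : 0 < s * (a + d) := by
    rw [hs, ← ht]
    have ht0 : trc f ≠ 0 := by
      intro h0
      rw [h0] at tf
      norm_num at tf
    have h1 : 0 < ((SignType.sign (trc f) : SignType) : ℝ) * trc f := by
      rw [sign_mul_self]
      exact abs_pos.2 ht0
    have : 2 * ((SignType.sign (trc f) : SignType) : ℝ) / √(trc f ^ 2 - 4) * trc f =
        2 / √(trc f ^ 2 - 4) * (((SignType.sign (trc f) : SignType) : ℝ) * trc f) := by ring
    rw [this]
    have h2 : 0 < √(trc f ^ 2 - 4) := Real.sqrt_pos.2 hD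
    positivity
  have hs0 : s ≠ 0 := by
    rintro h0
    rw [h0] at hst
    simp at hst
  -- `s d > 0`
  have hsd : 0 < s * d := by
    have h1 : (a + d) * d = a * d + d ^ 2 := by ring
    have h2 : 0 < (a + d) * d := by
      -- `(a+d) d ≥ d² - |a||d| > 0`
      have h3 : (a * d) ^ 2 < (d ^ 2) ^ 2 := by
        have h8 : 0 < d ^ 2 := by positivity
        have h9 : (a * d) ^ 2 = a ^ 2 * d ^ 2 := by ring
        rw [h9]
        nlinarith only [h8, hdel]
      have h4 : |a * d| < |d ^ 2| := sq_lt_sq.1 h3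
      rw [abs_of_nonneg (sq_nonneg d)] at h4
      have := neg_abs_le (a * d)
      linarith
    by_contra h5
    push Not at h5
    have h6 : s * (a + d) * (s * d) = s ^ 2 * ((a + d) * d) := by ring
    have h7 : 0 < s ^ 2 * ((a + d) * d) := by positivity
    nlinarith only [h5, h6, h7, hst]
  have hpc : s * c ≤ 0 := by
    by_contra h5
    push Not at h5
    have h6 : s * c * (s * d) = s ^ 2 * (c * d) := by ring
    have h7 : s ^ 2 * (c * d) ≤ 0 := mul_nonpos_of_nonneg_of_nonpos (sq_nonneg s) hcd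
    have := mul_pos h5 hsd
    linarith
  have hpc' : s * c < 0 := by
    rcases hpc.lt_or_eq with h | h
    · exact h
    · exfalso
      rcases mul_eq_zero.1 h with h | h
      · exact hs0 h
      · rw [h] at hbc; linarith
  have hsb : 0 < s * b := by
    by_contra h5
    push Not at h5
    have h6 : s * c * (s * b) = s ^ 2 * (b * c) := by ring
    have h7 : s ^ 2 * (b * c) < 0 := by
      have h8 : 0 < s ^ 2 := by positivity
      nlinarith only [h8, hbc]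
    have := mul_nonneg_of_nonpos_of_nonpos hpc h5
    linarith
  have hsa : s * a ≤ 0 := by
    by_contra h5
    push Not at h5
    have h6 : s * a * (s * d) = s ^ 2 * (a * d) := by ring
    have h7 : s ^ 2 * (a * d) ≤ 0 := mul_nonpos_of_nonneg_of_nonpos (sq_nonneg s) had
    have := mul_pos h5 hsd
    linarith
  have hh := (ax f).h
  have hq1 : 1 ≤ (ax f).q := by
    have h0 : 0 < (ax f).q := by rw [hq]; nlinarith only [hsd, hsa]
    have h1 : 0 ≤ (ax f).p * (ax f).r := by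
      rw [hp, hr]
      nlinarith only [hpc, hsb]
    nlinarith only [h0, h1, hh]
  refine ⟨?_, ?_, ?_⟩
  · apply le_of_coef
    · rw [Arc.neg_p, s0p, hp]; linarith
    · rw [Arc.neg_r, s0r, hr]; linarith
    · rw [Arc.neg_p, Arc.neg_q, Arc.neg_r, s0p, s0q, s0r]
      nlinarith only [hh, hq1]
  · unfold Del
    rw [s0p, s0q, s0r, p1, r1, hp, hr]
    have : 0 * ((f • S0).q * -(s * b) - 2 * (a * b) * (ax f).q) -
        -1 * (2 * (c * d) * -(s * b) - 2 * (a * b) * (s * c)) +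
        0 * (2 * (c * d) * (ax f).q - (f • S0).q * (s * c)) = 2 * (-(b * c)) * (s * (a + d)) := by
      ring
    rw [this]
    have : 0 < -(b * c) := by linarith
    positivity
  · unfold Del
    rw [s0p, s0q, s0r, p2, r2, hp, hr]
    have : 0 * ((ax f).q * -(2 * (b * d)) - -(s * b) * (f⁻¹ • S0).q) -
        -1 * (s * c * -(2 * (b * d)) - -(s * b) * -(2 * (a * c))) +
        0 * (s * c * (f⁻¹ • S0).q - (ax f).q * -(2 * (a * c))) = 2 * (-(b * c)) * (s * (a + d)) := by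
      ring
    rw [this]
    have : 0 < -(b * c) := by linarith
    positivity

end C4bAux

open C4bAux in
theorem loc2 {A : Subgroup GG} {L : Set Arc} (hA : Fuchs A) (hL : Fam A L) (H : Arc) (e : GG) (he : e ∈ A)
    (h : Adj L H (e • H)) (hne : e • H ≠ H) (hcyc : 0 < Del H (e • H) (e⁻¹ • H)) :
    ax e ≤ -H ∧ ax e ≤ -(e • H) ∧ ax e ≤ -(e⁻¹ • H) ∧ 0 < Del H (e • H) (ax e) ∧ 0 < Del H (ax e) (e⁻¹ • H) := by
  have e1 : e ≠ 1 := by
    rintro rfl
    exact hne (one_smul _ _)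
  have de := hA.det1 e he
  have te := hyp hA he e1
  obtain ⟨g, dg, hg⟩ := exists_smul_S0 H
  have dg0 : 0 < dt g := by rw [dg]; norm_num
  have hle : H ≤ -(e • H) := by
    rcases h with ⟨_, _, h | h⟩
    · exact absurd h.symm hne
    · exact h.1
  have df : dt (g * e * g⁻¹) = 1 := by
    rw [dt_mul, dt_mul, dg, de, dt_inv g dg]; norm_num
  have tf : 4 < trc (g * e * g⁻¹) ^ 2 := by rw [trc_conj]; exact te
  have hax : ax (g * e * g⁻¹) = g • ax e := ax_conj_pos g e dg0 de te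
  have hfS : (g * e * g⁻¹) • S0 = g • (e • H) := by
    rw [← hg, mul_smul, mul_smul, inv_smul_smul]
  have hfS' : (g * e * g⁻¹)⁻¹ • S0 = g • (e⁻¹ • H) := by
    rw [← hg, _root_.mul_inv_rev, _root_.mul_inv_rev, inv_inv, mul_smul, mul_smul, inv_smul_smul]
  have k1 : S0 ≤ -((g * e * g⁻¹) • S0) := by
    rw [hfS, ← hg, ← smul_neg', smul_le']
    exact hle
  have k2 : 0 < Del S0 ((g * e * g⁻¹) • S0) ((g * e * g⁻¹)⁻¹ • S0) := by
    rw [hfS, hfS', ← hg, Del_smul_pos g dg0]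
    exact hcyc
  obtain ⟨c1, c2, c3⟩ := core _ df tf k1 k2
  rw [hax, hfS, ← hg, Del_smul_pos g dg0] at c2
  rw [hax, hfS', ← hg, Del_smul_pos g dg0] at c3
  rw [hax, ← hg, ← smul_neg', smul_le'] at c1
  have c4 : ax e ≤ -(e • H) := by
    have h1 : e • ax e ≤ e • (-H) := (smul_le' e _ _).2 c1
    rwa [ax_smul e de te, smul_neg'] at h1
  have c5 : ax e ≤ -(e⁻¹ • H) := by
    have h1 : e⁻¹ • ax e ≤ e⁻¹ • (-H) := (smul_le' e⁻¹ _ _).2 c1
    have h2 : e⁻¹ • ax e = ax e := by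
      conv_lhs => rw [← ax_smul e de te]
      rw [inv_smul_smul]
    rwa [h2, smul_neg'] at h1
  exact ⟨c1, c4, c5, c2, c3⟩

end Pool.Agent.H100R2.SC
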