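import Pool.Agent.H100R2.SC.Defs
import Pool.Agent.H100R2.SC.A2
import Pool.Agent.H100R2.SC.B1
import Pool.Agent.H100R2.SC.B5
import Pool.Agent.H100R2.SC.B6
import Pool.Agent.H100R2.SC.B8
import Pool.Agent.H100R2.SC.C4b
import Pool.Agent.H100R2.SC.C4c
import Pool.Agent.H100R2.SC.T1

/-! C5b: edges of the region graph do not cross the axis of `e` (case two). -/

set_option autoImplicit false

namespace Pool.Agent.H100R2.SC

open Filter Topology

theorem c5b_adj_disj {L : Set Arc} {S T : Arc} (h : Adj L S T) (hne : S ≠ T) : S ≤ -T := by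
  rcases h.2.2 with h1 | h1
  · exact absurd h1 hne
  · exact h1.1

/-- every arc contains a point -/
theorem c5b_exists_point (S : Arc) : ∃ ξ : X, 0 < S.val ξ := by
  have hh := S.h
  rcases lt_trichotomy S.p 0 with h | h | h
  · refine ⟨OnePoint.some (-S.q / S.p), ?_⟩
    show 0 < S.ev (-S.q / S.p) 1
    have hp : S.p ≠ 0 := h.ne
    have e : S.ev (-S.q / S.p) 1 = -1 / S.p := by
      rw [eq_div_iff hp]
      unfold Arc.ev
      field_simp
      linear_combination hh
    rw [e]
    exact div_pos_of_neg_of_neg (by norm_num) h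
  · rw [h] at hh
    have hq : S.q ≠ 0 := by
      intro h0
      rw [h0] at hh
      norm_num at hh
    refine ⟨OnePoint.some ((1 - S.r) / (2 * S.q)), ?_⟩
    show 0 < S.ev ((1 - S.r) / (2 * S.q)) 1
    have e : S.ev ((1 - S.r) / (2 * S.q)) 1 = 1 := by
      unfold Arc.ev
      rw [h]
      field_simp
      ring
    rw [e]
    norm_num
  · exact ⟨OnePoint.infty, h⟩

theorem c5b_Del_self (S T : Arc) : Del S T T = 0 := by
  have := Del_swap S T T
  linarith

theorem c5b_Del_self' (S T : Arc) : Del S S T = 0 := by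
  rw [← Del_rot]
  exact c5b_Del_self _ _

/-- replace an arc by a smaller one -/
theorem c5b_Del_sub (S T U K : Arc) (h1 : S ≤ -T) (h2 : S ≤ -U) (h3 : T ≤ -U) (hK : K ≤ T) :
    0 < Del S K U ↔ 0 < Del S T U := by
  obtain ⟨a, ha⟩ := c5b_exists_point S
  obtain ⟨b, hb⟩ := c5b_exists_point K
  obtain ⟨c, hc⟩ := c5b_exists_point U
  have hb' : 0 < T.val b := lt_of_lt_of_le hb (val_mono hK b)
  have hKU : K ≤ -U := hK.trans h3
  have hSK : S ≤ -K := h1.trans (Arc.neg_le_neg hK)
  rw [Del_cyc S K U hSK h2 hKU a b c ha hb hc, Del_cyc S T U h1 h2 h3 a b c ha hb' hc]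

/-- the order on the neighbours of `H` -/
structure C5bLt (L : Set Arc) (H U V : Arc) : Prop where
  a : Adj L H U
  b : Adj L H V
  ha : H ≠ U
  hb : H ≠ V
  pos : 0 < Del H U V

theorem C5bLt.ne {L : Set Arc} {H U V : Arc} (h : C5bLt L H U V) : U ≠ V := by
  rintro rfl
  have := h.pos
  rw [c5b_Del_self] at this
  exact lt_irrefl _ this

theorem C5bLt.disj {L : Set Arc} (hL : Nest L) {H U V : Arc} (h : C5bLt L H U V) : U ≤ -V :=
  c5b_adj_disj (adj_trans hL (adj_symm hL h.a) h.b) h.ne

theorem C5bLt.trans {L : Set Arc} (hL : Nest L) {H U V W : Arc} (h : C5bLt L H U V)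
    (h' : C5bLt L H V W) : C5bLt L H U W := by
  have hUW : U ≠ W := by
    rintro rfl
    have h1 := h.pos
    have h2 := h'.pos
    rw [Del_swap] at h2
    linarith
  refine ⟨h.a, h'.b, h.ha, h'.hb, ?_⟩
  exact Del_trans H U V W (c5b_adj_disj h.a h.ha) (c5b_adj_disj h.b h.hb)
    (c5b_adj_disj h'.b h'.hb) (h.disj hL) (c5b_adj_disj (adj_trans hL (adj_symm hL h.a) h'.b) hUW)
    (h'.disj hL) h.pos h'.pos

theorem C5bLt.smul {A : Subgroup GG} {L : Set Arc} (hL : Fam A L) {H U V : Arc} {g : GG}
    (hg : g ∈ A) (hd : 0 < dt g) (hgH : g • H = H) (h : C5bLt L H U V) :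
    C5bLt L H (g • U) (g • V) := by
  refine ⟨?_, ?_, ?_, ?_, ?_⟩
  · have := (adj_smul hL hg).mpr h.a
    rwa [hgH] at this
  · have := (adj_smul hL hg).mpr h.b
    rwa [hgH] at this
  · intro e
    apply h.ha
    have : g • H = g • U := by rw [hgH]; exact e
    exact smul_left_cancel g this
  · intro e
    apply h.hb
    have : g • H = g • V := by rw [hgH]; exact e
    exact smul_left_cancel g this
  · have := Del_smul_pos g hd H U V
    rw [hgH] at this
    rw [this]
    exact h.pos

theorem edge2 {A : Subgroup GG} {L : Set Arc} (hA : Fuchs A) (hL : Fam A L) (H : Arc) (e α : GG)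
    (he : e ∈ A) (gα : IsGen A H α) (h : Adj L H (e • H)) (hne : e • H ≠ H) (hu : Unl A L H (e • H))
    (c1 : 0 < Del H (e • H) (e⁻¹ • H)) (c2 : 0 < Del H (e⁻¹ • H) (α • e • H)) (hDL : ax e ∉ L) :
    EdgeSep A L H (e • H) (ax e) := by
  obtain ⟨hαA, hα1, hαH, hgen⟩ := gα
  have hN : Nest L := hL.toNest
  have hHL : H ∈ L := h.1
  -- basic facts about `e` and `α`
  have he1 : e ≠ 1 := by
    rintro rfl
    exact hne (one_smul _ _)
  have hde : dt e = 1 := hA.det1 e he
  have hte : 4 < trc e ^ 2 := hyp hA he he1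
  have hdα : dt α = 1 := hA.det1 α hαA
  have htα : 4 < trc α ^ 2 := hyp hA hαA hα1
  have hαH' : α • H = H := by
    rw [← hαH]
    exact ax_smul α hdα htα
  have heD : e • ax e = ax e := ax_smul e hde hte
  obtain ⟨l1, l2, l3, l4, l5⟩ := loc2 hA hL H e he h hne c1
  obtain ⟨D, hD⟩ : ∃ D, D = ax e := ⟨_, rfl⟩
  rw [← hD] at heD l1 l2 l3 l4 l5 hDL ⊢
  -- powers
  have hpowD : ∀ n : ℤ, e ^ n • D = D := by
    intro n
    have : e ^ n ∈ MulAction.stabilizer GG D :=
      Subgroup.zpow_mem _ (MulAction.mem_stabilizer_iff.mpr heD) n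
    exact MulAction.mem_stabilizer_iff.mp this
  have hpowH : ∀ m : ℤ, α ^ m • H = H := by
    intro m
    have : α ^ m ∈ MulAction.stabilizer GG H :=
      Subgroup.zpow_mem _ (MulAction.mem_stabilizer_iff.mpr hαH') m
    exact MulAction.mem_stabilizer_iff.mp this
  have hzeA : ∀ n : ℤ, e ^ n ∈ A := fun n => Subgroup.zpow_mem _ he n
  have hzαA : ∀ n : ℤ, α ^ n ∈ A := fun n => Subgroup.zpow_mem _ hαA n
  have hdA : ∀ g ∈ A, 0 < dt g := fun g hg => by rw [hA.det1 g hg]; norm_num
  -- the chain `e ^ n • H`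
  have hstep : ∀ n : ℤ, Adj L (e ^ n • H) (e ^ (n + 1) • H) := by
    intro n
    have h1 := (adj_smul hL (hzeA n)).mpr h
    rwa [smul_smul, ← zpow_add_one] at h1
  have hself : Adj L H H := ⟨hHL, hHL, Or.inl rfl⟩
  have hchain : ∀ n : ℤ, Adj L H (e ^ n • H) := by
    intro n
    induction n using Int.induction_on with
    | zero => simpa using hself
    | succ n ih => exact adj_trans hN ih (hstep n)
    | pred n ih =>
      have h1 := hstep (-(n : ℤ) - 1)
      rw [sub_add_cancel] at h1
      exact adj_trans hN ih (adj_symm hN h1)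
  -- the order of the neighbours
  have hT0 : Adj L H (e • H) := h
  have hT0' : Adj L H (e⁻¹ • H) := by
    have := hchain (-1)
    rwa [zpow_neg_one] at this
  have hne' : H ≠ e⁻¹ • H := by
    intro hh
    apply hne
    conv_lhs => rw [hh]
    rw [smul_inv_smul]
  have hαe : Adj L H (α • e • H) := by
    have := (adj_smul hL hαA).mpr h
    rwa [hαH'] at this
  have hαe' : H ≠ α • e • H := by
    intro hh
    apply hne
    have : α • H = α • e • H := by rw [hαH']; exact hh
    exact (smul_left_cancel α this).symm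
  have o1 : C5bLt L H (e • H) (e⁻¹ • H) := ⟨hT0, hT0', hne.symm, hne', c1⟩
  have o2 : C5bLt L H (e⁻¹ • H) (α • e • H) := ⟨hT0', hαe, hne', hαe', c2⟩
  -- consequences for powers of `α`
  have oT : ∀ m : ℕ, C5bLt L H (e • H) (α ^ ((m : ℤ) + 1) • e • H) := by
    intro m
    induction m with
    | zero => simpa using o1.trans hN o2
    | succ m ih =>
      have h1 := (o1.trans hN o2).smul hL (hzαA ((m : ℤ) + 1)) (hdA _ (hzαA _)) (hpowH _)
      rw [smul_smul (α ^ ((m : ℤ) + 1)) α, ← zpow_add_one] at h1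
      have h2 := ih.trans hN h1
      push_cast
      exact h2
  have oT' : ∀ m : ℕ, C5bLt L H (e⁻¹ • H) (α ^ ((m : ℤ) + 1) • e⁻¹ • H) := by
    have base : C5bLt L H (e⁻¹ • H) (α • e⁻¹ • H) :=
      o2.trans hN (o1.smul hL hαA (hdA _ hαA) hαH')
    intro m
    induction m with
    | zero => simpa using base
    | succ m ih =>
      have h1 := base.smul hL (hzαA ((m : ℤ) + 1)) (hdA _ (hzαA _)) (hpowH _)
      rw [smul_smul (α ^ ((m : ℤ) + 1)) α, ← zpow_add_one] at h1
      have h2 := ih.trans hN h1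
      push_cast
      exact h2
  -- position of neighbours inside `D`
  have hHD : H ≤ -D := Arc.le_neg_comm l1
  have hKpos : ∀ K, Adj L H K → K ≤ D → 0 < Del H (e • H) K ∧ 0 < Del H K (e⁻¹ • H) := by
    intro K _ hK
    constructor
    · rw [Del_rot]
      have h1 : 0 < Del (e • H) D H := by
        rw [← Del_rot]
        exact l4
      exact (c5b_Del_sub (e • H) D H K (Arc.le_neg_comm l2) (c5b_adj_disj (adj_symm hN h) hne) l1
        hK).mpr h1
    · exact (c5b_Del_sub H D (e⁻¹ • H) K hHD (c5b_adj_disj hT0' hne') l3 hK).mpr l5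
  -- powers of `α` do not move the neighbours into `D`
  have hnoT : ∀ m : ℤ, ¬ α ^ m • e • H ≤ D := by
    intro m hm
    have hadj : Adj L H (α ^ m • e • H) := by
      have := (adj_smul hL (hzαA m)).mpr h
      rwa [hpowH m] at this
    obtain ⟨k1, k2⟩ := hKpos _ hadj hm
    rcases lt_trichotomy m 0 with h0 | h0 | h0
    · -- `m < 0`
      obtain ⟨k, hk⟩ : ∃ k : ℕ, m = -((k : ℤ) + 1) := ⟨(-m - 1).toNat, by omega⟩
      have h1 := (oT k).smul hL (hzαA m) (hdA _ (hzαA _)) (hpowH _)
      rw [smul_smul (α ^ m) (α ^ ((k : ℤ) + 1)), ← zpow_add, hk, neg_add_cancel, zpow_zero, one_smul, ← hk] at h1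
      have h2 := h1.pos
      rw [Del_swap] at h2
      linarith
    · rw [h0, zpow_zero, one_smul, c5b_Del_self] at k1
      exact lt_irrefl _ k1
    · obtain ⟨k, hk⟩ : ∃ k : ℕ, m = (k : ℤ) + 1 := ⟨(m - 1).toNat, by omega⟩
      rw [hk] at k2
      have h2 : C5bLt L H (e⁻¹ • H) (α ^ ((k : ℤ) + 1) • e • H) := by
        cases k with
        | zero => simpa using o2
        | succ k =>
          have h3 := (oT k).smul hL hαA (hdA _ hαA) hαH'
          rw [smul_smul α (α ^ ((k : ℤ) + 1)), ← zpow_one_add, add_comm 1 ((k : ℤ) + 1)] at h3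
          have h4 := o2.trans hN h3
          push_cast
          exact h4
      have h3 := h2.pos
      rw [Del_swap] at h3
      linarith
  have hnoT' : ∀ m : ℤ, ¬ α ^ m • e⁻¹ • H ≤ D := by
    intro m hm
    have hadj : Adj L H (α ^ m • e⁻¹ • H) := by
      have := (adj_smul hL (hzαA m)).mpr hT0'
      rwa [hpowH m] at this
    obtain ⟨k1, k2⟩ := hKpos _ hadj hm
    rcases lt_trichotomy m 0 with h0 | h0 | h0
    · -- `m < 0`
      obtain ⟨k, hk⟩ : ∃ k : ℕ, m = -((k : ℤ) + 1) := ⟨(-m - 1).toNat, by omega⟩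
      -- `α^m e⁻¹ H < α^(m+1) e H ≤ e H`
      have h1 : C5bLt L H (α ^ m • e⁻¹ • H) (e • H) := by
        have h3 := o2.smul hL (hzαA m) (hdA _ (hzαA _)) (hpowH _)
        rw [smul_smul (α ^ m) α, ← zpow_add_one] at h3
        cases k with
        | zero =>
          have : m + 1 = 0 := by rw [hk]; simp
          rw [this, zpow_zero, one_smul] at h3
          exact h3
        | succ k =>
          have h4 := (oT k).smul hL (hzαA (m + 1)) (hdA _ (hzαA _)) (hpowH _)
          rw [smul_smul (α ^ (m + 1)) (α ^ ((k : ℤ) + 1)), ← zpow_add] at h4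
          have : m + 1 + ((k : ℤ) + 1) = 0 := by rw [hk]; push_cast; ring
          rw [this, zpow_zero, one_smul] at h4
          exact h3.trans hN h4
      have h2 := h1.pos
      rw [Del_swap] at h2
      linarith
    · rw [h0, zpow_zero, one_smul, c5b_Del_self] at k2
      exact lt_irrefl _ k2
    · obtain ⟨k, hk⟩ : ∃ k : ℕ, m = (k : ℤ) + 1 := ⟨(m - 1).toNat, by omega⟩
      rw [hk] at k2
      have h3 := (oT' k).pos
      rw [Del_swap] at h3
      linarith
  -- the chain and the pair `K' ≤ -D`, `K ≤ D`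
  have key : ∀ c ∈ A, Adj L H (c • H) → ∀ K K', Adj L H K → Adj L H K' → K ≤ D → K' ≤ -D →
      ((K = c • H ∧ K' = c • e • H) ∨ (K = c • e • H ∧ K' = c • H)) → False := by
    intro c hc hcH K K' hK hK' hKD hKD' hKK
    have hdis : ∀ n : ℤ, e ^ n • H ≠ K' → e ^ n • H ≤ -K' := fun n hn =>
      c5b_adj_disj (adj_trans hN (adj_symm hN (hchain n)) hK') hn
    obtain ⟨n, hn⟩ := shift_cover e hde hte H K' (by rw [← hD]; exact hHD)
      (by rw [← hD]; exact hKD') (c5b_adj_disj h hne.symm) hdis
    rw [← hD] at hn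
    rcases hn with hn | ⟨hn1, hn2⟩
    · -- `K'` is in the chain
      rcases hKK with ⟨e1, e2⟩ | ⟨e1, e2⟩
      · -- `c • e • H = e ^ n • H`
        rw [e2] at hn
        have hst : (e ^ (-n) * c * e) • H = H := by
          rw [mul_smul, mul_smul, hn, smul_smul, ← zpow_add, neg_add_cancel, zpow_zero, one_smul]
        obtain ⟨m, hm⟩ := hgen _ (A.mul_mem (A.mul_mem (hzeA _) hc) he) hst
        apply hnoT' m
        have e3 : α ^ m • e⁻¹ • H = e ^ (-n) • c • H := by
          rw [← hm, mul_smul, smul_inv_smul, mul_smul]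
        rw [e3, ← hpowD (-n), smul_le', ← e1]
        exact hKD
      · -- `c • H = e ^ n • H`
        rw [e2] at hn
        have hst : (e ^ (-n) * c) • H = H := by
          rw [mul_smul, hn, smul_smul, ← zpow_add, neg_add_cancel, zpow_zero, one_smul]
        obtain ⟨m, hm⟩ := hgen _ (A.mul_mem (hzeA _) hc) hst
        apply hnoT m
        have e3 : α ^ m • e • H = e ^ (-n) • c • e • H := by
          rw [← hm, mul_smul]
        rw [e3, ← hpowD (-n), smul_le', ← e1]
        exact hKD
    · -- `K'` is in a gap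
      obtain ⟨S, hS⟩ : ∃ S, S = e ^ n • H := ⟨_, rfl⟩
      obtain ⟨U, hU⟩ : ∃ U, U = e ^ (n + 1) • H := ⟨_, rfl⟩
      rw [← hS] at hn1
      rw [← hU] at hn2
      have aS : Adj L H S := by rw [hS]; exact hchain n
      have aU : Adj L H U := by rw [hU]; exact hchain (n + 1)
      have dS : S ≤ -D := by
        rw [hS, ← hpowD n, ← smul_neg', smul_le']
        exact hHD
      have dU : U ≤ -D := by
        rw [hU, ← hpowD (n + 1), ← smul_neg', smul_le']
        exact hHD
      have nSK : S ≠ K' := by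
        rintro rfl
        rw [c5b_Del_self] at hn1
        exact lt_irrefl _ hn1
      have nUK : K' ≠ U := by
        intro hh
        rw [hh, c5b_Del_self] at hn2
        exact lt_irrefl _ hn2
      have sSK : S ≤ -K' := c5b_adj_disj (adj_trans hN (adj_symm hN aS) hK') nSK
      have sKU : K' ≤ -U := c5b_adj_disj (adj_trans hN (adj_symm hN hK') aU) nUK
      have nSU : S ≠ U := by
        intro hh
        rw [← hh, Del_swap] at hn2
        linarith
      have sSU : S ≤ -U := c5b_adj_disj (adj_trans hN (adj_symm hN aS) aU) nSU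
      have dSU : 0 < Del D S U :=
        Del_trans D S K' U (Arc.le_neg_comm dS) (Arc.le_neg_comm hKD') (Arc.le_neg_comm dU)
          sSK sSU sKU hn1 hn2
      -- `0 < Del S K' U`
      have p1 : 0 < Del S K' U := by
        have q1 : 0 < Del K' U D := by rw [← Del_rot]; exact hn2
        have q2 : 0 < Del K' D S := by rw [Del_rot]; exact hn1
        have q3 : 0 < Del K' U S :=
          Del_trans K' U D S sKU hKD' (Arc.le_neg_comm sSK) dU (Arc.le_neg_comm sSU)
            (Arc.le_neg_comm dS) q1 q2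
        rw [Del_rot]
        exact q3
      -- `0 < Del U K S`
      have p2 : 0 < Del U K S := by
        have q1 : 0 < Del U D S := by
          rw [Del_rot]
          exact dSU
        exact (c5b_Del_sub U D S K dU (Arc.le_neg_comm sSU) (Arc.le_neg_comm dS) hKD).mpr q1
      -- translate by `e ^ (-n)`
      have hc' : e ^ (-n) * c ∈ A := A.mul_mem (hzeA _) hc
      have hadj' : Adj L H ((e ^ (-n) * c) • H) := by
        have h1 := (adj_smul hL (hzeA (-n))).mpr hcH
        rw [smul_smul (e ^ (-n)) c] at h1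
        exact adj_trans hN (hchain (-n)) h1
      have tS : H = e ^ (-n) • S := by
        rw [hS, smul_smul, ← zpow_add, neg_add_cancel, zpow_zero, one_smul]
      have tU : e • H = e ^ (-n) • U := by
        rw [hU, smul_smul, ← zpow_add]
        congr 1
        rw [show -n + (n + 1) = 1 by ring, zpow_one]
      have hdn := hdA _ (hzeA (-n))
      apply hu _ hc' hadj'
      rcases hKK with ⟨e1, e2⟩ | ⟨e1, e2⟩
      · right
        rw [mul_smul (e ^ (-n)) c H, mul_smul (e ^ (-n)) c (e • H), ← e1, ← e2, tU]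
        constructor
        · conv_rhs => rw [tS]
          rw [Del_smul_pos _ hdn]
          exact p1
        · conv_rhs => rw [tS]
          rw [Del_smul_pos _ hdn]
          exact p2
      · left
        rw [mul_smul (e ^ (-n)) c H, mul_smul (e ^ (-n)) c (e • H), ← e1, ← e2, tU]
        constructor
        · conv_rhs => rw [tS]
          rw [Del_smul_pos _ hdn]
          exact p1
        · conv_rhs => rw [tS]
          rw [Del_smul_pos _ hdn]
          exact p2
  -- conclusion
  intro c hc hcH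
  have hceH : Adj L H (c • e • H) := adj_trans hN hcH ((adj_smul hL hc).mpr h)
  have hs : ∀ U, Adj L H U → U ≤ D ∨ U ≤ -D := by
    rw [hD]
    exact axis_in_region hA hL H hHL e he he1 h
  constructor
  · intro h1
    rcases hs _ hceH with h2 | h2
    · exact h2
    · exact (key c hc hcH _ _ hcH hceH h1 h2 (Or.inl ⟨rfl, rfl⟩)).elim
  · intro h1
    rcases hs _ hcH with h2 | h2
    · exact h2
    · exact (key c hc hcH _ _ hceH hcH h1 h2 (Or.inr ⟨rfl, rfl⟩)).elim

end Pool.Agent.H100R2.SC
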