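import Pool.Agent.H100R2.SC.Defs
import Pool.Agent.H100R2.SC.T1
import Pool.Agent.H100R2.SC.A2
import Pool.Agent.H100R2.SC.A7
import Pool.Agent.H100R2.SC.B1
import Pool.Agent.H100R2.SC.B4
import Pool.Agent.H100R2.SC.B5
import Pool.Agent.H100R2.SC.B8
import Pool.Agent.H100R2.SC.C2
import Pool.Agent.H100R2.SC.C3

/-!
# Task C7: the set-up of the second case
-/

set_option autoImplicit false

namespace Pool.Agent.H100R2.SC

theorem c7_le {L : Set Arc} {S T : Arc} (h : Adj L S T) (hne : S ≠ T) : S ≤ -T ∧ S ≠ -T := by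
  obtain ⟨-, -, h1 | ⟨h1, h2, -⟩⟩ := h
  · exact absurd h1 hne
  · exact ⟨h1, h2⟩

/-- an element of `A` cannot fix both endpoints of `H` unless it maps `H` to `±H` -/
theorem c7_fix {A : Subgroup GG} {L : Set Arc} (hL : Fam A L) {H : Arc} (hH : H ∈ L) {g : GG}
    (hg : g ∈ A) {x : X} (hx : H.val x = 0) (hgx : g • x = x) : g • H = H ∨ g • H = -H := by
  obtain ⟨k, -, hk⟩ := val_smul g x
  have h1 : (g • H).val x = 0 := by
    have h2 := hk H
    rw [hgx, hx, mul_zero] at h2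
    exact h2
  exact hL.ne (g • H) (hL.inv g hg H hH) H hH x h1 hx

theorem c7_linked (g : GG) (hg : 0 < dt g) (S U T V : Arc) :
    Linked (g • S) (g • U) (g • T) (g • V) ↔ Linked S U T V := by
  unfold Linked
  simp only [Del_smul_pos g hg]

theorem single_setup {A : Subgroup GG} {L : Set Arc} (hA : Fuchs A) (hL : Fam A L) (S : Arc) (hS : S ∈ L)
    (hone : ∀ T, Adj L S T → ∃ a ∈ A, T = a • S) :
    ∃ H e α, Adj L S H ∧ e ∈ A ∧ IsGen A H α ∧ Adj L H (e • H) ∧ e • H ≠ H ∧ Unl A L H (e • H) ∧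
      0 < Del H (e • H) (e⁻¹ • H) ∧ 0 < Del H (e⁻¹ • H) (α • e • H) := by
  have hN : Nest L := hL.toNest
  obtain ⟨H, H', hSH, hSH', hne, hmin⟩ := near_any hA hL S hS
  have hHS : Adj L H S := adj_symm hN hSH
  have hHH' : Adj L H H' := adj_trans hN hHS hSH'
  have hH : H ∈ L := hHH'.1
  have hH' : H' ∈ L := hHH'.2.1
  have hu : Unl A L H H' := unl_any hA hL H H' hHH' hne
    (fun U V hU hV hUV => hmin U V (adj_trans hN hSH hU) (adj_trans hN hSH hV) hUV)
  -- the element `e₀`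
  obtain ⟨e₀, he₀, hee⟩ : ∃ e₀ ∈ A, e₀ • H = H' := by
    obtain ⟨a, ha, h1⟩ := hone H hSH
    obtain ⟨b, hb, h2⟩ := hone H' hSH'
    refine ⟨b * a⁻¹, A.mul_mem hb (A.inv_mem ha), ?_⟩
    rw [h1, h2, mul_smul, inv_smul_smul]
  -- the generator `α`
  obtain ⟨α, gα⟩ : ∃ α, IsGen A H α := by
    obtain ⟨α₀, h1, h2, h3⟩ := hL.axs H hH
    obtain ⟨β, hβ⟩ := exists_gen hA α₀ h1 h2
    rw [h3] at hβ
    exact ⟨β, hβ⟩
  have hαA : α ∈ A := gα.1
  have hα1 : α ≠ 1 := gα.2.1
  have hax : ax α = H := gα.2.2.1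
  have hdα : dt α = 1 := hA.det1 α hαA
  have htα : 4 < trc α ^ 2 := hyp hA hαA hα1
  have hαH : α • H = H := by
    have := ax_smul α hdα htα
    rwa [hax] at this
  have hαn : ∀ n : ℤ, α ^ n • H = H := by
    intro n
    have h1 : α ∈ MulAction.stabilizer GG H := hαH
    exact (MulAction.stabilizer GG H).zpow_mem h1 n
  have hαnA : ∀ n : ℤ, α ^ n ∈ A := fun n => A.zpow_mem hαA n
  -- the geodesic `K`
  set K : Arc := e₀⁻¹ • H with hK
  have hHK : Adj L H K := by
    have h1 : Adj L (e₀ • K) (e₀ • H) := by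
      rw [hK, smul_inv_smul, hee]
      exact hHH'
    exact adj_symm hN ((adj_smul hL he₀).1 h1)
  have hKne : H ≠ K := by
    intro h
    apply hne
    have h1 : e₀ • H = e₀ • K := by rw [← h]
    rw [hK, smul_inv_smul, hee] at h1
    exact h1.symm
  have hH'neg : H' ≠ -H := by
    intro h
    have h1 := (c7_le hHH' hne).2
    rw [h, neg_neg] at h1
    exact h1 rfl
  obtain ⟨x, y, hxy, hx, hy, -, -⟩ := arc_ends H
  obtain ⟨x', y', hxy', hx', hy', -, -⟩ := arc_ends H'
  -- `α` moves `H'`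
  have hαH' : H' ≠ α • H' := by
    intro h
    have h1 : α • x' = x' := fix_of_smul α H' x' (by rw [hdα]; norm_num) h.symm hx'
    have h2 : (ax α).val x' = 0 := (ax_val α hdα htα x').2 h1
    rw [hax] at h2
    rcases hN.ne H' hH' H hH x' hx' h2 with h3 | h3
    · exact hne h3.symm
    · exact hH'neg h3
  have hadjn : ∀ n : ℤ, Adj L H (α ^ n • H') := by
    intro n
    have h1 := (adj_smul hL (hαnA n) (S := H) (T := H')).2 hHH'
    rwa [hαn n] at h1
  have hd : H' ≤ -(α • H') := by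
    have h1 := hadjn 1
    rw [zpow_one] at h1
    exact (c7_le (adj_trans hN (adj_symm hN hHH') h1) hαH').1
  have hdis : ∀ n : ℤ, α ^ n • H' ≠ K → α ^ n • H' ≤ -K := fun n hn =>
    (c7_le (adj_trans hN (adj_symm hN (hadjn n)) hHK) hn).1
  have hT : H' ≤ -(ax α) := by
    rw [hax]
    exact Arc.le_neg_comm (c7_le hHH' hne).1
  have hK' : K ≤ -(ax α) := by
    rw [hax]
    exact Arc.le_neg_comm (c7_le hHK hKne).1
  obtain ⟨n, hn | ⟨hn1, hn2⟩⟩ := shift_cover α hdα htα H' K hT hK' hd hdis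
  · -- impossible
    exfalso
    set g : GG := e₀ * α ^ n with hg
    have hgA : g ∈ A := A.mul_mem he₀ (hαnA n)
    have hgH : g • H = H' := by rw [hg, mul_smul, hαn, hee]
    have hgg : (g ^ 2) • H = H := by
      rw [pow_two, mul_smul, hgH, hg, mul_smul, ← hn, hK, smul_inv_smul]
    have hg1 : g ≠ 1 := by
      intro h
      rw [h, one_smul] at hgH
      exact hne hgH
    have hdg : dt g = 1 := hA.det1 g hgA
    have htg : 4 < trc g ^ 2 := hyp hA hgA hg1
    obtain ⟨p1, p2, p3⟩ := ax_pow g hdg htg 2 (by norm_num)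
    have h1 : (g ^ 2) • x = x := fix_of_smul (g ^ 2) H x (by rw [p1]; norm_num) hgg hx
    have h2 : (ax g).val x = 0 := by
      rw [← p3]
      exact (ax_val (g ^ 2) p1 p2 x).2 h1
    have h3 : g • x = x := (ax_val g hdg htg x).1 h2
    rcases c7_fix hL hH hgA hx h3 with h4 | h4
    · rw [hgH] at h4
      exact hne h4.symm
    · rw [hgH] at h4
      exact hH'neg h4
  · -- the element `e`
    rw [hax] at hn1 hn2
    have heH : (α ^ n * e₀) • H = α ^ n • H' := by rw [mul_smul, hee]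
    have hinv : (α ^ n * e₀)⁻¹ • H = K := by
      rw [mul_inv_rev, mul_smul]
      have h1 : (α ^ n)⁻¹ • H = H := by
        rw [← zpow_neg]
        exact hαn (-n)
      rw [h1]
    refine ⟨H, α ^ n * e₀, α, hSH, A.mul_mem (hαnA n) he₀, gα, ?_, ?_, ?_, ?_, ?_⟩
    · rw [heH]
      exact hadjn n
    · rw [heH]
      intro h
      apply hne
      have h1 : α ^ n • H' = α ^ n • H := by rw [h, hαn]
      exact (smul_left_cancel (α ^ n) h1).symm
    · rw [heH]
      intro c hc hadj hlink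
      have hm : α ^ (-n) ∈ A := hαnA (-n)
      have hm1 : 0 < dt (α ^ (-n)) := by rw [hA.det1 _ hm]; norm_num
      have hmn : ∀ U : Arc, α ^ (-n) • α ^ n • U = U := by
        intro U
        rw [zpow_neg, inv_smul_smul]
      have e1 : (α ^ (-n) * c * α ^ n) • H = α ^ (-n) • c • H := by
        rw [mul_smul, mul_smul, hαn]
      have e2 : (α ^ (-n) * c * α ^ n) • H' = α ^ (-n) • c • α ^ n • H' := by
        rw [mul_smul, mul_smul]
      refine hu (α ^ (-n) * c * α ^ n) (A.mul_mem (A.mul_mem hm hc) (hαnA n)) ?_ ?_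
      · rw [e1]
        have h1 := (adj_smul hL hm (S := H) (T := c • H)).2 hadj
        rwa [hαn (-n)] at h1
      · rw [e1, e2]
        have h1 := (c7_linked (α ^ (-n)) hm1 H (α ^ n • H') (c • H) (c • α ^ n • H')).2 hlink
        rwa [hαn (-n), hmn] at h1
    · rw [heH, hinv]
      exact hn1
    · rw [heH, hinv]
      have h1 : α • α ^ n • H' = α ^ (n + 1) • H' := by
        rw [← mul_smul, zpow_add, zpow_one]
        congr 1
        exact (Commute.zpow_self α n).eq.symm
      rw [h1]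
      exact hn2

end Pool.Agent.H100R2.SC
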