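import Pool.Agent.H100R2.SC.C8core
import Pool.Agent.H100R2.SC.C0

set_option autoImplicit false

namespace Pool.Agent.H100R2.SC

theorem bound {A : Subgroup GG} (hA : Fuchs A) : ∃ N : ℕ, ∀ L : Set Arc, Fam A L → ∀ s : Finset Arc,
    (∀ S ∈ s, S ∈ L) → (∀ S ∈ s, ∀ T ∈ s, S ≠ T → ∀ a ∈ A, ¬ Adj L S (a • T)) → s.card ≤ N :=
  bound_core hA fun L hL S hS => exists_adj_ne hA hL S hS

end Pool.Agent.H100R2.SC
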