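import Pool.Agent.H100R2.SC.Defs
import Pool.Agent.H100R2.SC.T1
import Pool.Agent.H100R2.SC.A2
import Pool.Agent.H100R2.SC.A3
import Pool.Agent.H100R2.SC.A7
import Pool.Agent.H100R2.SC.B5
import Pool.Agent.H100R2.SC.C0
import Pool.Agent.H100R2.SC.C1
import Pool.Agent.H100R2.SC.C2
import Pool.Agent.H100R2.SC.C3
import Pool.Agent.H100R2.SC.C4
import Pool.Agent.H100R2.SC.C4c
import Pool.Agent.H100R2.SC.C5e
import Pool.Agent.H100R2.SC.C5f
import Pool.Agent.H100R2.SC.C6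
import Pool.Agent.H100R2.SC.C7
import Pool.Agent.H100R2.SC.C8

/-! C9: reflective families exist. -/

set_option autoImplicit false

namespace Pool.Agent.H100R2.SC

namespace C9

/-- `s` is a set of pairwise inequivalent reflective classes of `L` -/
structure GoodS (A : Subgroup GG) (L : Set Arc) (s : Finset Arc) : Prop where
  fam : Fam A L
  mem : ∀ S ∈ s, S ∈ L
  refl : ∀ S ∈ s, Refl A L S
  ineq : ∀ S ∈ s, ∀ T ∈ s, S ≠ T → ∀ a ∈ A, ¬ Adj L S (a • T)

lemma adj_self {L : Set Arc} {S : Arc} (h : S ∈ L) : Adj L S S := ⟨h, h, Or.inl rfl⟩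

lemma adj_mono {L L' : Set Arc} (hLL : L ⊆ L') {S T : Arc} (hS : S ∈ L) (hT : T ∈ L)
    (h : Adj L' S T) : Adj L S T := by
  obtain ⟨_, _, h3⟩ := h
  refine ⟨hS, hT, ?_⟩
  rcases h3 with h3 | ⟨h3, h4, h5⟩
  · exact Or.inl h3
  · exact Or.inr ⟨h3, h4, fun R hR => h5 R (hLL hR)⟩

/-- `Refl` only depends on the relation `Adj L S` -/
lemma refl_congr {A : Subgroup GG} {L L' : Set Arc} {S S' : Arc}
    (h : ∀ T, Adj L' S T ↔ Adj L S T) (hr : Refl A L S) : Refl A L' S := by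
  obtain ⟨ρ, h1, h2, h3, h4⟩ := hr
  refine ⟨ρ, h1, ?_, ?_, ?_⟩
  · intro a ha haS
    have := h2 a ha ((h _).1 haS)
    exact ⟨this.1, (h _).2 this.2⟩
  · intro a ha haS
    have := h3 a ha ((h _).1 haS)
    exact ⟨this.1, (h _).2 this.2⟩
  · intro T hT
    obtain ⟨a, ha, h5, h6⟩ := h4 T ((h _).1 hT)
    exact ⟨a, ha, (h _).2 h5, h6⟩

lemma refl_adj {A : Subgroup GG} {L : Set Arc} (hL : Fam A L) {S T : Arc} (hST : Adj L S T)
    (hr : Refl A L T) : Refl A L S := by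
  have hN := hL.toNest
  have hTS := adj_symm hN hST
  obtain ⟨ρ, h1, h2, h3, h4⟩ := hr
  -- adjacency of translates
  have key : ∀ a ∈ A, (Adj L S (a • S) ↔ Adj L T (a • T)) := by
    intro a ha
    have e1 : Adj L (a • S) (a • T) := (adj_smul hL ha).2 hST
    constructor
    · intro h
      exact adj_trans hN hTS (adj_trans hN h e1)
    · intro h
      exact adj_trans hN hST (adj_trans hN h (adj_symm hN e1))
  refine ⟨ρ, h1, ?_, ?_, ?_⟩
  · intro a ha haS
    have := h2 a ha ((key a ha).1 haS)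
    exact ⟨this.1, (key _ this.1).2 this.2⟩
  · intro a ha haS
    have := h3 a ha ((key a ha).1 haS)
    exact ⟨this.1, (key _ this.1).2 this.2⟩
  · intro U hU
    obtain ⟨a, ha, h5, h6⟩ := h4 U (adj_trans hN hTS hU)
    exact ⟨a, ha, (key a ha).2 h5, h6⟩

lemma refl_smul {A : Subgroup GG} {L : Set Arc} (hL : Fam A L) {T : Arc} {a : GG} (ha : a ∈ A)
    (hr : Refl A L T) : Refl A L (a • T) := by
  obtain ⟨ρ, h1, h2, h3, h4⟩ := hr
  have ha' : a⁻¹ ∈ A := A.inv_mem ha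
  have key : ∀ b ∈ A, Adj L (a • T) (b • a • T) → Adj L T ((a⁻¹ * b * a) • T) := by
    intro b hb h
    have := (adj_smul hL ha' (S := a • T) (T := b • a • T)).2 h
    rw [inv_smul_smul] at this
    rwa [mul_smul, mul_smul]
  have key2 : ∀ b ∈ A, Adj L T (b • T) → Adj L (a • T) ((a * b * a⁻¹) • a • T) := by
    intro b hb h
    have := (adj_smul hL ha (S := T) (T := b • T)).2 h
    have e : (a * b * a⁻¹) • a • T = a • b • T := by
      rw [mul_smul, mul_smul, inv_smul_smul]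
    rwa [e]
  refine ⟨a * ρ * a⁻¹, ?_, ?_, ?_, ?_⟩
  · have e1 : dt a * dt a⁻¹ = 1 := by rw [← dt_mul, mul_inv_cancel, dt_one]
    rw [dt_mul, dt_mul]
    have : dt a * dt ρ * dt a⁻¹ = dt ρ * (dt a * dt a⁻¹) := by ring
    rw [this, e1, mul_one]
    exact h1
  · intro b hb h
    have hb' : a⁻¹ * b * a ∈ A := A.mul_mem (A.mul_mem ha' hb) ha
    obtain ⟨h5, h6⟩ := h2 _ hb' (key b hb h)
    have e : a * ρ * a⁻¹ * b * (a * ρ * a⁻¹)⁻¹ = a * (ρ * (a⁻¹ * b * a) * ρ⁻¹) * a⁻¹ := by group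
    rw [e]
    exact ⟨A.mul_mem (A.mul_mem ha h5) ha', key2 _ h5 h6⟩
  · intro b hb h
    have hb' : a⁻¹ * b * a ∈ A := A.mul_mem (A.mul_mem ha' hb) ha
    obtain ⟨h5, h6⟩ := h3 _ hb' (key b hb h)
    have e : (a * ρ * a⁻¹)⁻¹ * b * (a * ρ * a⁻¹) = a * (ρ⁻¹ * (a⁻¹ * b * a) * ρ) * a⁻¹ := by group
    rw [e]
    exact ⟨A.mul_mem (A.mul_mem ha h5) ha', key2 _ h5 h6⟩
  · intro U hU
    have h5 : Adj L T (a⁻¹ • U) := by
      have := (adj_smul hL ha' (S := a • T) (T := U)).2 hU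
      rwa [inv_smul_smul] at this
    obtain ⟨c, hc, h6, h7⟩ := h4 _ h5
    refine ⟨a * c * a⁻¹, A.mul_mem (A.mul_mem ha hc) ha', key2 c hc h6, ?_⟩
    rw [mul_smul, mul_smul, h7, mul_smul, mul_smul]

/-- a class which is not reflective is inequivalent to the reflective ones -/
lemma not_equiv {A : Subgroup GG} {L : Set Arc} {s : Finset Arc} (hs : GoodS A L s) {S : Arc}
    (hS : ¬ Refl A L S) : ∀ R ∈ s, ∀ a ∈ A, ¬ Adj L S (a • R) := by
  intro R hR a ha h
  exact hS (refl_adj hs.fam h (refl_smul hs.fam ha (hs.refl R hR)))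

/-- adding a reflective class of a bigger family -/
lemma insert_good {A : Subgroup GG} {L L' : Set Arc} {s : Finset Arc} (hs : GoodS A L s)
    (hL' : Fam A L') (hLL : L ⊆ L') (H : Arc) (hH : H ∈ L)
    (hn : ∀ R ∈ s, ∀ a ∈ A, ¬ Adj L H (a • R)) (hr : Refl A L' H)
    (hiff : ∀ R ∈ s, ∀ T, Adj L' R T ↔ Adj L R T) :
    ∃ s' : Finset Arc, GoodS A L' s' ∧ s'.card = s.card + 1 := by
  classical
  have hN := hs.fam.toNest
  have hN' := hL'.toNest
  have hHs : H ∉ s := by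
    intro h
    apply hn H h 1 A.one_mem
    rw [one_smul]
    exact adj_self hH
  have n1 : ∀ R ∈ s, ∀ a ∈ A, ¬ Adj L' R (a • H) := by
    intro R hR a ha h
    have h1 := (hiff R hR _).1 h
    have ha' : a⁻¹ ∈ A := A.inv_mem ha
    have h2 := (adj_smul hs.fam ha' (S := a • H) (T := R)).2 (adj_symm hN h1)
    rw [inv_smul_smul] at h2
    exact hn R hR _ ha' h2
  have n2 : ∀ R ∈ s, ∀ a ∈ A, ¬ Adj L' H (a • R) := by
    intro R hR a ha h
    have ha' : a⁻¹ ∈ A := A.inv_mem ha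
    have h2 := (adj_smul hL' ha' (S := a • R) (T := H)).2 (adj_symm hN' h)
    rw [inv_smul_smul] at h2
    exact n1 R hR _ ha' h2
  refine ⟨insert H s, ⟨hL', ?_, ?_, ?_⟩, Finset.card_insert_of_notMem hHs⟩
  · intro S hS
    rcases Finset.mem_insert.1 hS with rfl | hS
    · exact hLL hH
    · exact hLL (hs.mem S hS)
  · intro S hS
    rcases Finset.mem_insert.1 hS with rfl | hS
    · exact hr
    · exact refl_congr (S' := S) (hiff S hS) (hs.refl S hS)
  · intro S hS T hT hne a ha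
    rcases Finset.mem_insert.1 hS with hSH | hSs
    · rcases Finset.mem_insert.1 hT with hTH | hTs
      · exact absurd (hSH.trans hTH.symm) hne
      · rw [hSH]; exact n2 T hTs a ha
    · rcases Finset.mem_insert.1 hT with hTH | hTs
      · rw [hTH]; exact n1 S hSs a ha
      · intro h
        exact hs.ineq S hSs T hTs hne a ha ((hiff S hSs _).1 h)

lemma exists_isGen {A : Subgroup GG} {L : Set Arc} (hA : Fuchs A) (hL : Fam A L) {H : Arc}
    (hH : H ∈ L) : ∃ α, IsGen A H α := by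
  obtain ⟨α0, h1, h2, h3⟩ := hL.axs H hH
  obtain ⟨β, hβ⟩ := exists_gen hA α0 h1 h2
  rw [h3] at hβ
  exact ⟨β, hβ⟩

/-- the step at a class containing two inequivalent geodesics -/
lemma step_mixed {A : Subgroup GG} {L : Set Arc} {s : Finset Arc} (hA : Fuchs A)
    (hs : GoodS A L s) (S T : Arc) (hST : Adj L S T) (hm : ∀ a ∈ A, a • S ≠ T)
    (hn : ∀ R ∈ s, ∀ a ∈ A, ¬ Adj L S (a • R)) :
    ∃ (L' : Set Arc) (s' : Finset Arc), GoodS A L' s' ∧ s'.card = s.card + 1 := by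
  have hL := hs.fam
  have hN := hL.toNest
  obtain ⟨H, H', hSH, hSH', hmH, hmin⟩ := near_mixed hA hL S T hST hm
  have hHS := adj_symm hN hSH
  have h : Adj L H H' := adj_trans hN hHS hSH'
  have hH : H ∈ L := hSH.2.1
  have hH' : H' ∈ L := hSH'.2.1
  have hne : H ≠ H' := by
    intro e
    apply hmH 1 A.one_mem
    rw [one_smul, e]
  have hnH : ∀ R ∈ s, ∀ a ∈ A, ¬ Adj L H (a • R) := by
    intro R hR a ha h1
    exact hn R hR a ha (adj_trans hN hSH h1)
  have hmin2 : ∀ U V, Adj L H U → Adj L H V → (∀ a ∈ A, a • U ≠ V) → kap H H' ≤ kap U V :=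
    fun U V hU hV hUV => hmin U V (adj_trans hN hSH hU) (adj_trans hN hSH hV) hUV
  have hu : Unl A L H H' := unl_mixed hA hL H H' h hmH hmin2
  obtain ⟨α, gα⟩ := exists_isGen hA hL hH
  obtain ⟨β, gβ⟩ := exists_isGen hA hL hH'
  have hα := gα.1
  have hβ := gβ.1
  obtain ⟨l1, l2, l3, l4, l5, l6, l7, l8⟩ := loc1 hA hL H H' h hne α β hα hβ gα.2.1 gβ.2.1
    gα.2.2.1 gβ.2.2.1 (ax (β * α)⁻¹) rfl
  have hmin3 : ∀ a ∈ A, ∀ b ∈ A, Adj L H (a • H) → Adj L H (b • H') →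
      kap H H' ≤ kap (a • H) (b • H') := by
    intro a ha b hb h1 h2
    apply hmin2 _ _ h1 h2
    intro c hc e
    apply hmH (b⁻¹ * c * a) (A.mul_mem (A.mul_mem (A.inv_mem hb) hc) ha)
    rw [mul_smul, mul_smul, e, inv_smul_smul]
  by_cases hDL : ax (β * α)⁻¹ ∈ L
  · -- D in L
    have d1 : dt α = 1 := hA.det1 α hα
    have d2 : dt β = 1 := hA.det1 β hβ
    have fα : α • H = H := by
      have := ax_smul α d1 (hyp hA hα gα.2.1)
      rwa [gα.2.2.1] at this
    have fβ : β • H' = H' := by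
      have := ax_smul β d2 (hyp hA hβ gβ.2.1)
      rwa [gβ.2.2.1] at this
    have fβ' : β⁻¹ • H' = H' := by rw [inv_smul_eq_iff, fβ]
    have fα' : α⁻¹ • H = H := by rw [inv_smul_eq_iff, fα]
    have hs1 : Adj L H (β⁻¹ • H) := by
      have h1 := (adj_smul hL (A.inv_mem hβ) (S := H) (T := H')).2 h
      rw [fβ'] at h1
      exact adj_trans hN h (adj_symm hN h1)
    have hs2 : Adj L H ((β * α)⁻¹ • H) := by
      have h1 := (adj_smul hL (A.inv_mem hα) (S := H) (T := β⁻¹ • H)).2 hs1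
      rw [fα'] at h1
      rwa [mul_inv_rev, mul_smul]
    have hδ : (β * α)⁻¹ ∈ A := A.inv_mem (A.mul_mem hβ hα)
    have hδ1 : (β * α)⁻¹ ≠ 1 := by
      intro e
      exact l1 (inv_eq_one.1 e)
    have hDa : Adj L H (ax (β * α)⁻¹) := by
      rcases axis_mem hA hL H hH _ hδ hδ1 hs2 hDL with h1 | h1
      · exact h1
      · exfalso
        obtain ⟨_, _, h2 | ⟨h2, _, _⟩⟩ := h1
        · have e : ax (β * α)⁻¹ = -H := by rw [h2, neg_neg]
          rw [e] at l6
          have : Del H (α⁻¹ • H') (-H) = 0 := by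
            simp only [Del, Arc.neg_p, Arc.neg_q, Arc.neg_r]
            ring
          rw [this] at l6
          exact lt_irrefl _ l6
        · rw [neg_neg] at h2
          exact Arc.not_le_and (le_refl H) (h2.trans l2)
    have hr : Refl A L H := pantsRefl hA hL H H' h hmH α β gα gβ _ rfl hDa hmin3
    obtain ⟨s', h1, h2⟩ := insert_good hs hL (le_refl L) H hH hnH hr (fun R hR T => Iff.rfl)
    exact ⟨L, s', h1, h2⟩
  · -- D not in L
    obtain ⟨c1, c2, c3, c4⟩ := caseOne hA hL H H' h hmH hu α β gα gβ _ rfl hDL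
    have hLL : L ⊆ L ∪ Orb A (ax (β * α)⁻¹) := Set.subset_union_left
    have hmin4 : ∀ a ∈ A, ∀ b ∈ A, Adj (L ∪ Orb A (ax (β * α)⁻¹)) H (a • H) →
        Adj (L ∪ Orb A (ax (β * α)⁻¹)) H (b • H') → kap H H' ≤ kap (a • H) (b • H') := by
      intro a ha b hb h1 h2
      exact hmin3 a ha b hb (adj_mono hLL hH (hL.inv a ha H hH) h1)
        (adj_mono hLL hH (hL.inv b hb H' hH') h2)
    have hr : Refl A (L ∪ Orb A (ax (β * α)⁻¹)) H :=
      pantsRefl hA c1 H H' c2 hmH α β gα gβ _ rfl c3 hmin4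
    have hiff : ∀ R ∈ s, ∀ T, Adj (L ∪ Orb A (ax (β * α)⁻¹)) R T ↔ Adj L R T := by
      intro R hR T
      exact add_adj_iff hL _ c1 hDL H hH c4 R (hs.mem R hR) (hnH R hR) T
    obtain ⟨s', h1, h2⟩ := insert_good hs c1 hLL H hH hnH hr hiff
    exact ⟨_, s', h1, h2⟩

/-- the step at any class which is not reflective -/
lemma step_any {A : Subgroup GG} {L : Set Arc} {s : Finset Arc} (hA : Fuchs A)
    (hs : GoodS A L s) (S : Arc) (hS : S ∈ L) (hnr : ¬ Refl A L S) :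
    ∃ (L' : Set Arc) (s' : Finset Arc), GoodS A L' s' ∧ s'.card = s.card + 1 := by
  have hL := hs.fam
  have hN := hL.toNest
  have hn := not_equiv hs hnr
  by_cases hmix : ∃ T, Adj L S T ∧ ∀ a ∈ A, a • S ≠ T
  · obtain ⟨T, hT, hm⟩ := hmix
    exact step_mixed hA hs S T hT hm hn
  · have hone : ∀ T, Adj L S T → ∃ a ∈ A, T = a • S := by
      intro T hT
      by_contra hcon
      apply hmix
      refine ⟨T, hT, fun a ha e => hcon ⟨a, ha, e.symm⟩⟩
    obtain ⟨H, e, α, hSH, he, gα, h1, h2, h3, h4, h5⟩ := single_setup hA hL S hS hone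
    have hH : H ∈ L := hSH.2.1
    have hone' : ∀ T, Adj L H T → ∃ a ∈ A, T = a • H := by
      intro T hT
      obtain ⟨a, ha, e1⟩ := hone T (adj_trans hN hSH hT)
      obtain ⟨b, hb, e2⟩ := hone H hSH
      refine ⟨a * b⁻¹, A.mul_mem ha (A.inv_mem hb), ?_⟩
      rw [e2, mul_smul, inv_smul_smul, e1]
    obtain ⟨c1, c2, c3, c4⟩ := caseTwo hA hL H e α he gα h1 h2 h3 h4 h5 hone'
    have hnH : ∀ R ∈ s, ∀ a ∈ A, ¬ Adj L H (a • R) := by
      intro R hR a ha h6
      exact hn R hR a ha (adj_trans hN hSH h6)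
    have hLL : L ⊆ L ∪ Orb A (ax e) := Set.subset_union_left
    have hiff : ∀ R ∈ s, ∀ T, Adj (L ∪ Orb A (ax e)) R T ↔ Adj L R T := by
      intro R hR T
      exact add_adj_iff hL _ c2 c1 H hH c4 R (hs.mem R hR) (hnH R hR) T
    have hs' : GoodS A (L ∪ Orb A (ax e)) s := by
      refine ⟨c2, fun R hR => hLL (hs.mem R hR), ?_, ?_⟩
      · intro R hR
        exact refl_congr (S' := R) (hiff R hR) (hs.refl R hR)
      · intro R hR T hT hne a ha h6
        exact hs.ineq R hR T hT hne a ha ((hiff R hR _).1 h6)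
    have hm : ∀ a ∈ A, a • H ≠ ax e := by
      intro a ha e1
      apply c1
      rw [← e1]
      exact hL.inv a ha H hH
    have hn' : ∀ R ∈ s, ∀ a ∈ A, ¬ Adj (L ∪ Orb A (ax e)) H (a • R) := by
      intro R hR a ha h6
      have ha' : a⁻¹ ∈ A := A.inv_mem ha
      have h7 := (adj_smul c2 ha' (S := a • R) (T := H)).2 (adj_symm c2.toNest h6)
      rw [inv_smul_smul] at h7
      have h8 := (hiff R hR _).1 h7
      have h9 := (adj_smul hL ha (S := R) (T := a⁻¹ • H)).2 h8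
      rw [smul_inv_smul] at h9
      exact hnH R hR a ha (adj_symm hN h9)
    exact step_mixed hA hs' H (ax e) c3 hm hn'

end C9

theorem allRefl {Γ : Subgroup GG} (hΓ : Fuchs Γ) :
    ∃ (A : Subgroup GG) (L : Set Arc), A ≤ Γ ∧ A.relIndex Γ ≠ 0 ∧ Fam A L ∧ ∀ S ∈ L, Refl A L S := by
  classical
  obtain ⟨A, L₀, hAΓ, hi, hL₀⟩ := initFam hΓ
  have hA : Fuchs A := fuchs_of_index hΓ hAΓ hi
  obtain ⟨N, hN⟩ := bound hA
  let P : ℕ → Prop := fun n => ∃ (L : Set Arc) (s : Finset Arc), C9.GoodS A L s ∧ s.card = n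
  have hP0 : P 0 := by
    refine ⟨L₀, ∅, ⟨hL₀, ?_, ?_, ?_⟩, rfl⟩
    · intro S hS; simp at hS
    · intro S hS; simp at hS
    · intro S hS; simp at hS
  have hPN : ∀ n, P n → n ≤ N := by
    rintro n ⟨L, s, hs, rfl⟩
    exact hN L hs.fam s hs.mem hs.ineq
  have hmax : P (Nat.findGreatest P N) := Nat.findGreatest_spec (P := P) (Nat.zero_le N) hP0
  obtain ⟨L, s, hs, hcard⟩ := hmax
  refine ⟨A, L, hAΓ, hi, hs.fam, ?_⟩
  intro S hS
  by_contra hnr
  obtain ⟨L', s', h1, h2⟩ := C9.step_any hA hs S hS hnr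
  have h3 : P (Nat.findGreatest P N + 1) := ⟨L', s', h1, by rw [h2, hcard]⟩
  have h4 := Nat.le_findGreatest (hPN _ h3) h3
  omega

end Pool.Agent.H100R2.SC
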