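import Pool.Agent.H100R2.SC.Defs
import Pool.Agent.H100R2.SC.T1

/-! T2: cocycles on the tree of a nested family integrate (helper477). -/

set_option autoImplicit false

namespace Pool.Agent.H100R2.SC

open Filter Topology

namespace T2aux

/-- `R` is on or behind a geodesic bounding the region of `S₀` -/
def Away (L : Set Arc) (S₀ R : Arc) : Prop := ∃ U, Adj L S₀ U ∧ R ≤ U

theorem tr_mono {S T : Arc} (h : S ≤ T) : S.tr ≤ T.tr := by
  have a := h 1 0
  have b := h 0 1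
  simp only [Arc.ev] at a b
  simp only [Arc.tr]
  linarith

theorem adj_cases {L : Set Arc} {S T : Arc} (h : Adj L S T) : S = T ∨ (S ≤ -T ∧ S ≠ -T) := by
  obtain ⟨_, _, h | h⟩ := h
  · exact Or.inl h
  · exact Or.inr ⟨h.1, h.2.1⟩

theorem not_both {L : Set Arc} (hL : Nest L) {S₀ R : Arc} (h1 : Away L S₀ R)
    (h2 : Away L S₀ (-R)) : False := by
  obtain ⟨U, hU, hRU⟩ := h1
  obtain ⟨V, hV, hRV⟩ := h2
  have hUV : Adj L U V := adj_trans hL (adj_symm hL hU) hV
  have h3 : -V ≤ R := by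
    have := Arc.neg_le_neg hRV
    rwa [neg_neg] at this
  rcases adj_cases hUV with h | ⟨h, h'⟩
  · subst h
    exact Arc.not_le_and h3 (Arc.neg_le_neg hRU)
  · exact h' (le_antisymm h (h3.trans hRU))

theorem away_unique {L : Set Arc} (hL : Nest L) {S₀ K U V : Arc} (hU : Adj L S₀ U)
    (hV : Adj L S₀ V) (h1 : K ≤ U) (h2 : K ≤ V) : U = V := by
  have hUV : Adj L U V := adj_trans hL (adj_symm hL hU) hV
  rcases adj_cases hUV with h | ⟨h, _⟩
  · exact h
  · exact (Arc.not_le_and h2 (h1.trans h)).elim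

/-- the elements strictly between `K` and the region of `S₀` -/
def Ch (L : Set Arc) (S₀ K : Arc) : Set Arc := {R | R ∈ L ∧ K ≤ R ∧ K ≠ R ∧ Away L S₀ R}

theorem Ch_finite {L : Set Arc} (hL : Nest L) (S₀ K : Arc) : (Ch L S₀ K).Finite := by
  by_cases hne : ∃ R, R ∈ Ch L S₀ K
  · obtain ⟨R, _, hKR, _, U, hU, hRU⟩ := hne
    refine (hL.lf (max |K.tr| |U.tr|)).subset ?_
    rintro R' ⟨hR'L, hKR', _, V, hV, hR'V⟩
    have e : U = V := away_unique hL hU hV (hKR.trans hRU) (hKR'.trans hR'V)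
    subst e
    refine ⟨hR'L, abs_le.mpr ⟨?_, ?_⟩⟩
    · have h1 := tr_mono hKR'
      have h2 := neg_abs_le K.tr
      have h3 := le_max_left |K.tr| |U.tr|
      linarith
    · have h1 := tr_mono hR'V
      have h2 := le_abs_self U.tr
      have h3 := le_max_right |K.tr| |U.tr|
      linarith
  · have : Ch L S₀ K = ∅ := Set.eq_empty_iff_forall_notMem.mpr fun R hR => hne ⟨R, hR⟩
    rw [this]
    exact Set.finite_empty

theorem Ch_total {L : Set Arc} (hL : Nest L) {S₀ K R R' : Arc} (h : R ∈ Ch L S₀ K)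
    (h' : R' ∈ Ch L S₀ K) : R ≤ R' ∨ R' ≤ R := by
  obtain ⟨hR, hKR, _, hA⟩ := h
  obtain ⟨hR', hKR', _, hA'⟩ := h'
  rcases hL.nest R hR R' hR' with h | h | h | h
  · exact Or.inl h
  · exact Or.inr h
  · exact (Arc.not_le_and hKR' (hKR.trans h)).elim
  · exfalso
    have h2 : -R ≤ R' := by
      have := Arc.neg_le_neg h
      rwa [neg_neg] at this
    obtain ⟨V, hV, hR'V⟩ := hA'
    exact not_both hL hA ⟨V, hV, h2.trans hR'V⟩

theorem Ch_min {L : Set Arc} (hL : Nest L) {S₀ K : Arc} (h : (Ch L S₀ K).Nonempty) :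
    ∃ P ∈ Ch L S₀ K, ∀ R ∈ Ch L S₀ K, P ≤ R := by
  obtain ⟨P, hP⟩ := (Ch_finite hL S₀ K).exists_minimal h
  refine ⟨P, hP.1, fun R hR => ?_⟩
  rcases Ch_total hL hP.1 hR with h1 | h1
  · exact h1
  · exact hP.2 hR h1

open Classical in
/-- the parent of `K` -/
noncomputable def par (L : Set Arc) (S₀ K : Arc) : Arc :=
  if h : ∃ P ∈ Ch L S₀ K, ∀ R ∈ Ch L S₀ K, P ≤ R then h.choose else K

theorem par_spec {L : Set Arc} (hL : Nest L) {S₀ K : Arc} (h : (Ch L S₀ K).Nonempty) :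
    par L S₀ K ∈ Ch L S₀ K ∧ ∀ R ∈ Ch L S₀ K, par L S₀ K ≤ R := by
  have h1 := Ch_min hL h
  unfold par
  rw [dif_pos h1]
  exact h1.choose_spec

theorem card_lt {L : Set Arc} (hL : Nest L) {S₀ K : Arc} (h : (Ch L S₀ K).Nonempty) :
    (Ch L S₀ (par L S₀ K)).ncard < (Ch L S₀ K).ncard := by
  obtain ⟨h1, h2⟩ := par_spec hL h
  refine Set.ncard_lt_ncard ?_ (Ch_finite hL S₀ K)
  refine ⟨?_, ?_⟩
  · rintro R ⟨hR, hPR, hne, hA⟩
    refine ⟨hR, h1.2.1.trans hPR, ?_, hA⟩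
    intro e
    subst e
    exact hne (le_antisymm hPR h1.2.1)
  · intro hsub
    exact (hsub h1).2.2.1 rfl

open Classical in
/-- the potential on the arcs pointing away, with fuel -/
noncomputable def G (L : Set Arc) (S₀ : Arc) (τ : Arc → GG) : ℕ → Arc → GG
  | 0, _ => 1
  | n + 1, K => if (Ch L S₀ K).Nonempty then G L S₀ τ n (par L S₀ K) * τ (par L S₀ K) else 1

theorem G_empty {L : Set Arc} {S₀ : Arc} (τ : Arc → GG) {K : Arc}
    (h : ¬ (Ch L S₀ K).Nonempty) (n : ℕ) : G L S₀ τ n K = 1 := by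
  cases n with
  | zero => rfl
  | succ n => simp only [G, if_neg h]

theorem G_fuel {L : Set Arc} (hL : Nest L) {S₀ : Arc} (τ : Arc → GG) (m : ℕ) :
    ∀ K, (Ch L S₀ K).ncard ≤ m → ∀ n, m ≤ n → G L S₀ τ n K = G L S₀ τ m K := by
  induction m with
  | zero =>
    intro K hK n _
    have hemp : ¬ (Ch L S₀ K).Nonempty := by
      rw [Set.not_nonempty_iff_eq_empty, ← Set.ncard_eq_zero (Ch_finite hL S₀ K)]
      omega
    rw [G_empty τ hemp, G_empty τ hemp]
  | succ m ih =>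
    intro K hK n hn
    obtain ⟨n, rfl⟩ : ∃ n', n = n' + 1 := ⟨n - 1, by omega⟩
    by_cases hne : (Ch L S₀ K).Nonempty
    · simp only [G, if_pos hne]
      have := card_lt hL hne
      rw [ih (par L S₀ K) (by omega) n (by omega)]
    · rw [G_empty τ hne, G_empty τ hne]

/-- the potential on the arcs pointing away -/
noncomputable def GG' (L : Set Arc) (S₀ : Arc) (τ : Arc → GG) (K : Arc) : GG :=
  G L S₀ τ (Ch L S₀ K).ncard K

theorem GG'_empty {L : Set Arc} {S₀ : Arc} (τ : Arc → GG) {K : Arc}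
    (h : ¬ (Ch L S₀ K).Nonempty) : GG' L S₀ τ K = 1 := G_empty τ h _

theorem GG'_step {L : Set Arc} (hL : Nest L) {S₀ : Arc} (τ : Arc → GG) {K : Arc}
    (h : (Ch L S₀ K).Nonempty) :
    GG' L S₀ τ K = GG' L S₀ τ (par L S₀ K) * τ (par L S₀ K) := by
  have hc := card_lt hL h
  obtain ⟨n, hn⟩ : ∃ n, (Ch L S₀ K).ncard = n + 1 := ⟨(Ch L S₀ K).ncard - 1, by omega⟩
  unfold GG'
  rw [hn]
  simp only [G, if_pos h]
  rw [G_fuel hL τ _ (par L S₀ K) le_rfl n (by omega)]

theorem Ch_empty_of_adj {L : Set Arc} (hL : Nest L) {S₀ S : Arc} (h : Adj L S₀ S) :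
    ¬ (Ch L S₀ S).Nonempty := by
  rintro ⟨R, hR, hSR, hne, V, hV, hRV⟩
  have e : S = V := away_unique hL h hV le_rfl (hSR.trans hRV)
  subst e
  exact hne (le_antisymm hSR hRV)

theorem Ch_nonempty {L : Set Arc} {S₀ S : Arc} (h : ¬ Adj L S₀ S) (hA : Away L S₀ S) :
    (Ch L S₀ S).Nonempty := by
  obtain ⟨U, hU, hSU⟩ := hA
  refine ⟨U, hU.2.1, hSU, ?_, U, hU, le_rfl⟩
  intro e
  rw [← e] at hU
  exact h hU

/-- both away: the parents agree -/
theorem par_le {L : Set Arc} (hL : Nest L) {S₀ S T : Arc} (hST : Adj L S T) (hne : S ≠ T)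
    (hS : ¬ Adj L S₀ S) (hSA : Away L S₀ S) (hTA : Away L S₀ T) :
    par L S₀ T ≤ par L S₀ S := by
  obtain ⟨⟨hP, hSP, hSneP, hPA⟩, hmin⟩ := par_spec hL (Ch_nonempty hS hSA)
  set P := par L S₀ S with hPdef
  obtain ⟨hSL, hTL, h | ⟨h1, h2, h3⟩⟩ := hST
  · exact (hne h).elim
  have hnPT : ¬ P ≤ -T := by
    intro h
    rcases h3 P hP hSP h with e | e
    · exact hSneP e.symm
    · rw [e] at hPA
      exact not_both hL hTA hPA
  have hT : T ≤ P := by
    rcases hL.nest P hP T hTL with h | h | h | h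
    · exact (Arc.not_le_and (hSP.trans h) h1).elim
    · exact h
    · exact (hnPT h).elim
    · exfalso
      have hA : Away L S₀ (-T) := by
        obtain ⟨V, hV, hPV⟩ := hPA
        exact ⟨V, hV, h.trans hPV⟩
      exact not_both hL hTA hA
  have hTP : T ≠ P := by
    intro e
    rw [← e] at hSP
    exact Arc.not_le_and hSP h1
  have hPC : P ∈ Ch L S₀ T := ⟨hP, hT, hTP, hPA⟩
  exact (par_spec hL ⟨P, hPC⟩).2 P hPC

theorem G_adj_away {L : Set Arc} (hL : Nest L) {S₀ S T : Arc} (τ : Arc → GG) (hST : Adj L S T)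
    (hSA : Away L S₀ S) (hTA : Away L S₀ T) : GG' L S₀ τ S = GG' L S₀ τ T := by
  by_cases hne : S = T
  · rw [hne]
  by_cases hS : Adj L S₀ S
  · rw [GG'_empty τ (Ch_empty_of_adj hL hS),
      GG'_empty τ (Ch_empty_of_adj hL (adj_trans hL hS hST))]
  · have hT : ¬ Adj L S₀ T := fun h => hS (adj_trans hL h (adj_symm hL hST))
    have e : par L S₀ S = par L S₀ T :=
      le_antisymm (par_le hL (adj_symm hL hST) (Ne.symm hne) hT hTA hSA)
        (par_le hL hST hne hS hSA hTA)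
    rw [GG'_step hL τ (Ch_nonempty hS hSA), GG'_step hL τ (Ch_nonempty hT hTA), e]

theorem G_adj_mixed {L : Set Arc} (hL : Nest L) {S₀ S T : Arc} (τ : Arc → GG)
    (hST : Adj L S T) (hSA : Away L S₀ S) (hTA : Away L S₀ (-T)) :
    GG' L S₀ τ S = GG' L S₀ τ (-T) * τ (-T) := by
  have hS : ¬ Adj L S₀ S := by
    intro h
    exact not_both hL ⟨T, adj_trans hL h hST, le_rfl⟩ hTA
  have hne := Ch_nonempty hS hSA
  obtain ⟨⟨hP, hSP, hSneP, hPA⟩, hmin⟩ := par_spec hL hne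
  obtain ⟨hSL, hTL, h | ⟨h1, h2, h3⟩⟩ := hST
  · rw [← h] at hTA
    exact (not_both hL hSA hTA).elim
  have hTC : -T ∈ Ch L S₀ S := ⟨hL.neg T hTL, h1, h2, hTA⟩
  have hPT : par L S₀ S ≤ -T := hmin _ hTC
  have e : par L S₀ S = -T := by
    rcases h3 _ hP hSP hPT with e | e
    · exact (hSneP e.symm).elim
    · exact e
  rw [GG'_step hL τ hne, e]

end T2aux

open T2aux in
open Classical in
theorem potential {L : Set Arc} (hL : Nest L) (τ : Arc → GG) (hτ : ∀ S ∈ L, τ (-S) = (τ S)⁻¹)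
    {S₀ : Arc} (hS : S₀ ∈ L) :
    ∃ F : Arc → GG, F S₀ = 1 ∧ (∀ S ∈ L, F (-S) = F S * τ S) ∧ (∀ S T, Adj L S T → F S = F T) := by
  have hcov : ∀ K ∈ L, Away L S₀ K ∨ Away L S₀ (-K) := by
    intro K hK
    obtain ⟨U, hU, h | h⟩ := region_cover hL hS hK
    · exact Or.inl ⟨U, hU, h⟩
    · exact Or.inr ⟨U, hU, h⟩
  have h00 : Adj L S₀ S₀ := ⟨hS, hS, Or.inl rfl⟩
  refine ⟨fun K => if Away L S₀ K then GG' L S₀ τ K else GG' L S₀ τ (-K) * τ (-K), ?_, ?_, ?_⟩
  · have h0 : Away L S₀ S₀ := ⟨S₀, h00, le_rfl⟩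
    simp only [if_pos h0]
    exact GG'_empty τ (Ch_empty_of_adj hL h00)
  · intro S hSL
    by_cases hA : Away L S₀ S
    · have hB : ¬ Away L S₀ (-S) := fun h => not_both hL hA h
      simp only [if_pos hA, if_neg hB, neg_neg]
    · have hB : Away L S₀ (-S) := (hcov S hSL).resolve_left hA
      simp only [if_pos hB, if_neg hA]
      rw [hτ S hSL, mul_assoc, inv_mul_cancel, mul_one]
  · intro S T hST
    have hST' := hST
    obtain ⟨hSL, hTL, hcase⟩ := hST'
    by_cases hA : Away L S₀ S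
    · by_cases hB : Away L S₀ T
      · simp only [if_pos hA, if_pos hB]
        exact G_adj_away hL τ hST hA hB
      · have hB' : Away L S₀ (-T) := (hcov T hTL).resolve_left hB
        simp only [if_pos hA, if_neg hB]
        exact G_adj_mixed hL τ hST hA hB'
    · have hA' : Away L S₀ (-S) := (hcov S hSL).resolve_left hA
      by_cases hB : Away L S₀ T
      · simp only [if_pos hB, if_neg hA]
        exact (G_adj_mixed hL τ (adj_symm hL hST) hB hA').symm
      · have hB' : Away L S₀ (-T) := (hcov T hTL).resolve_left hB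
        rcases hcase with h | ⟨h1, _⟩
        · rw [h]
        · obtain ⟨V, hV, hTV⟩ := hB'
          exact (hA ⟨V, hV, h1.trans hTV⟩).elim

end Pool.Agent.H100R2.SC
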