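import Pool.Agent.H100R2.SC.B1
import Pool.Agent.H100R2.SC.B2
import Pool.Agent.H100R2.SC.T1

/-! X1: piecewise Möbius homeomorphisms of the circle. -/

set_option autoImplicit false

namespace Pool.Agent.H100R2.SC

open Filter Topology

namespace X1

lemma tr_neg (S : Arc) : (-S).tr = -S.tr := by
  unfold Arc.tr
  rw [Arc.neg_p, Arc.neg_r]
  ring

lemma neg_not_le (S : Arc) : ¬ -S ≤ S := by
  intro h
  have h1 : -S ≤ -(-S) := by rwa [neg_neg]
  exact Arc.not_le_and (le_refl (-S)) h1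

lemma not_le_neg (S : Arc) : ¬ S ≤ -S := fun h => Arc.not_le_and (le_refl S) h

lemma adj_refl {L : Set Arc} {S : Arc} (hS : S ∈ L) : Adj L S S := ⟨hS, hS, Or.inl rfl⟩

lemma adj_le {L : Set Arc} {S T : Arc} (h : Adj L S T) (hne : T ≠ S) : T ≤ -S := by
  rcases h.2.2 with h1 | h1
  · exact absurd h1.symm hne
  · exact Arc.le_neg_comm h1.1

/-- adjacency of `S` and `-T` for consecutive `S < T` -/
lemma not_adj_neg {L : Set Arc} (S : Arc) : ¬ Adj L S (-S) := by
  rintro ⟨-, -, h | h⟩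
  · apply not_le_neg S
    rw [← h]
  · rw [neg_neg] at h
    exact h.2.1 rfl

/-- a point on the geodesic is in the limit set of the region -/
lemma lam_of_zero {L : Set Arc} {S : Arc} {ξ : X} (h : S.val ξ = 0) : Lam L S ξ := by
  intro T hT
  by_cases hne : T = S
  · rw [hne, h]
  · have h1 := val_mono (adj_le hT hne) ξ
    rw [val_neg, h, neg_zero] at h1
    exact h1

/-- finite sets of geodesics -/
lemma finite_of_tr {L : Set Arc} (hL : Nest L) (M : ℝ) (T₀ : Arc) :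
    {T | T ∈ L ∧ T ≤ T₀ ∧ -M < T.tr}.Finite := by
  refine (hL.lf (max M |T₀.tr|)).subset ?_
  rintro T ⟨h1, h2, h3⟩
  refine ⟨h1, ?_⟩
  have h4 := tr_mono h2
  have h5 := le_abs_self T₀.tr
  have h6 := le_max_left M |T₀.tr|
  have h7 := le_max_right M |T₀.tr|
  rw [abs_le]
  constructor <;> linarith

/-! ### the map on geodesics -/

section

variable {L : Set Arc} {τ F : Arc → GG}

lemma psi_mem (h : PM L τ F) {S : Arc} (hS : S ∈ L) : F S • S ∈ L :=
  (h.h4 S S (adj_refl hS)).1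

lemma psi_neg (h : PM L τ F) {S : Arc} (hS : S ∈ L) : F (-S) • (-S) = -(F S • S) := by
  rw [h.h1 S hS, smul_neg', mul_smul, (h.h3 S hS).1]

lemma psi_adj (h : PM L τ F) {S T : Arc} (hT : Adj L S T) : F T • T = F S • T := by
  rw [h.h2 S T hT]

/-- strict monotonicity -/
lemma psi_lt (hL : Nest L) (h : PM L τ F) {S T : Arc} (hS : S ∈ L) (hT : T ∈ L) (hle : S ≤ T)
    (hne : S ≠ T) : F S • S ≤ F T • T ∧ F S • S ≠ F T • T := by
  -- induction on the number of geodesics between `S` and `T`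
  have hfin : ∀ S ∈ L, {R | R ∈ L ∧ S ≤ R ∧ R ≤ T}.Finite := by
    intro S _
    refine (finite_of_tr hL (|S.tr| + 1) T).subset ?_
    rintro R ⟨h1, h2, h3⟩
    refine ⟨h1, h3, ?_⟩
    have h4 := tr_mono h2
    have h5 := neg_abs_le S.tr
    linarith
  have key : ∀ n : ℕ, ∀ S ∈ L, S ≤ T → S ≠ T → {R | R ∈ L ∧ S ≤ R ∧ R ≤ T}.ncard ≤ n →
      F S • S ≤ F T • T ∧ F S • S ≠ F T • T := by
    intro n
    induction n with
    | zero =>
      intro S hS hle hne hn
      have : S ∈ {R | R ∈ L ∧ S ≤ R ∧ R ≤ T} := ⟨hS, le_refl _, hle⟩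
      have h0 := (Set.ncard_eq_zero (hfin S hS)).1 (Nat.le_zero.1 hn)
      rw [h0] at this
      exact absurd this (Set.notMem_empty _)
    | succ n ih =>
      intro S hS hle hne hn
      -- the next geodesic
      have hfin' : {R | R ∈ L ∧ S ≤ R ∧ R ≤ T ∧ R ≠ S}.Finite :=
        (hfin S hS).subset fun R hR => ⟨hR.1, hR.2.1, hR.2.2.1⟩
      obtain ⟨R, hR, hmin⟩ := hfin'.exists_minimal ⟨T, hT, hle, le_refl _, hne.symm⟩
      obtain ⟨hR1, hR2, hR3, hR4⟩ := hR
      have hadj : Adj L S (-R) := by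
        refine ⟨hS, hL.neg R hR1, Or.inr ⟨by rwa [neg_neg], by rw [neg_neg]; exact hR4.symm, ?_⟩⟩
        rw [neg_neg]
        intro Q hQ h1 h2
        by_cases hQS : Q = S
        · exact Or.inl hQS
        · right
          exact le_antisymm h2 (hmin ⟨hQ, h1, h2.trans hR3, hQS⟩ h2)
      have e1 : F R • R = F S • R := by
        have h1 := psi_neg h (hL.neg R hR1)
        rw [neg_neg] at h1
        rw [h1, psi_adj h hadj, smul_neg', neg_neg]
      have h1 : F S • S ≤ F R • R := by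
        rw [e1, smul_le']; exact hR2
      have h2 : F S • S ≠ F R • R := by
        rw [e1]
        intro h3
        exact hR4 (smul_left_cancel _ h3).symm
      by_cases hRT : R = T
      · rw [← hRT]; exact ⟨h1, h2⟩
      · have h3 := ih R hR1 hR3 hRT (by
          have hlt : {Q | Q ∈ L ∧ R ≤ Q ∧ Q ≤ T}.ncard < {Q | Q ∈ L ∧ S ≤ Q ∧ Q ≤ T}.ncard := by
            apply Set.ncard_lt_ncard _ (hfin S hS)
            refine ⟨fun Q hQ => ⟨hQ.1, hR2.trans hQ.2.1, hQ.2.2⟩, fun hsub => ?_⟩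
            have := hsub (show S ∈ {Q | Q ∈ L ∧ S ≤ Q ∧ Q ≤ T} from ⟨hS, le_refl _, hle⟩)
            exact hR4 (le_antisymm this.2.1 hR2)
          omega)
        refine ⟨h1.trans h3.1, fun h4 => ?_⟩
        rw [← h4] at h3
        exact h2 (le_antisymm h1 h3.1)
  exact key _ S hS hle hne le_rfl

lemma psi_mono (hL : Nest L) (h : PM L τ F) {S T : Arc} (hS : S ∈ L) (hT : T ∈ L) (hle : S ≤ T) :
    F S • S ≤ F T • T := by
  by_cases hne : S = T
  · rw [hne]
  · exact (psi_lt hL h hS hT hle hne).1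

lemma psi_inj (hL : Nest L) (h : PM L τ F) {S T : Arc} (hS : S ∈ L) (hT : T ∈ L)
    (he : F S • S = F T • T) : S = T := by
  by_contra hne
  rcases hL.nest S hS T hT with h1 | h1 | h1 | h1
  · exact (psi_lt hL h hS hT h1 hne).2 he
  · exact (psi_lt hL h hT hS h1 (Ne.symm hne)).2 he.symm
  · have h2 := psi_mono hL h hS (hL.neg T hT) h1
    rw [psi_neg h hT, ← he] at h2
    exact not_le_neg _ h2
  · have h2 := psi_mono hL h (hL.neg T hT) hS h1
    rw [psi_neg h hT, ← he] at h2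
    exact neg_not_le _ h2

lemma psi_surj (hL : Nest L) (hne : L.Nonempty) (h : PM L τ F) : ∀ U ∈ L, ∃ S ∈ L, F S • S = U := by
  obtain ⟨S₀, hS₀⟩ := hne
  refine conn hL (fun U => ∃ S ∈ L, F S • S = U) (psi_mem h hS₀) ⟨S₀, hS₀, rfl⟩ ?_ ?_
  · rintro _ _ ⟨S, hS, rfl⟩
    exact ⟨-S, hL.neg S hS, psi_neg h hS⟩
  · rintro _ V hUV ⟨S, hS, rfl⟩
    have h5 := h.h5 S V hS hUV
    refine ⟨(F S)⁻¹ • V, h5.2.1, ?_⟩
    rw [psi_adj h h5, smul_inv_smul]

/-! ### limit sets -/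

/-- two regions are equal or separated by a geodesic -/
lemma separate (hL : Nest L) {S S' : Arc} (hS : S ∈ L) (hS' : S' ∈ L) (hn : ¬ Adj L S S') :
    ∃ U R, Adj L S U ∧ Adj L S' R ∧ -U ≤ R := by
  obtain ⟨U, hU, h1⟩ := region_cover hL hS hS'
  obtain ⟨R, hR, h2⟩ := region_cover hL hS' hU.2.1
  rcases h2 with h2 | h2
  · exfalso
    rcases h1 with h1 | h1
    · have h3 : S' ≤ R := h1.trans h2
      by_cases hRS : R = S'
      · rw [hRS] at h2
        have : U = S' := le_antisymm h2 h1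
        rw [this] at hU
        exact hn hU
      · exact Arc.not_le_and h3 (Arc.le_neg_comm (adj_le hR hRS))
    · have h3 : -S' ≤ R := h1.trans h2
      by_cases hRS : R = S'
      · rw [hRS] at h3
        exact neg_not_le _ h3
      · rcases hR.2.2 with h4 | h4
        · exact hRS h4.symm
        · apply h4.2.1
          have h5 := adj_le hR hRS
          have h6 : R = -S' := le_antisymm h5 h3
          rw [h6, neg_neg]
  · exact ⟨U, R, hU, hR, h2⟩

/-- the Möbius maps of two regions agree at the common points of the limit sets -/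
lemma consistent (hL : Nest L) (h : PM L τ F) {S S' : Arc} (hS : S ∈ L) (hS' : S' ∈ L) {ξ : X}
    (h1 : Lam L S ξ) (h2 : Lam L S' ξ) : F S • ξ = F S' • ξ := by
  by_cases hn : Adj L S S'
  · rw [h.h2 S S' hn]
  · obtain ⟨U, R, hU, hR, hUR⟩ := separate hL hS hS' hn
    have u := h1 U hU
    have r := h2 R hR
    have m := val_mono hUR ξ
    rw [val_neg] at m
    have hu0 : U.val ξ = 0 := by linarith
    have hr0 : R.val ξ = 0 := by linarith
    have hRU : R = -U := by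
      rcases hL.ne U hU.2.1 R hR.2.1 ξ hu0 hr0 with h3 | h3
      · rw [← h3] at hUR
        exact absurd hUR (neg_not_le U)
      · rw [h3, neg_neg]
    have hfix : τ U • ξ = ξ :=
      fix_of_smul (τ U) U ξ (h.h3 U hU.2.1).2 (h.h3 U hU.2.1).1 hu0
    rw [h.h2 S' R hR, hRU, h.h1 U hU.2.1, mul_smul, hfix, h.h2 S U hU]

/-- outside of the limit sets: smaller and smaller arcs -/
lemma step (hL : Nest L) {ξ : X} (hξ : ∀ S ∈ L, ¬ Lam L S ξ) {T : Arc} (hT : T ∈ L)
    (hpos : 0 < T.val ξ) : ∃ T' ∈ L, 0 < T'.val ξ ∧ T' ≤ T ∧ T' ≠ T := by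
  have h1 := hξ (-T) (hL.neg T hT)
  unfold Lam at h1
  push Not at h1
  obtain ⟨T', h2, h3⟩ := h1
  have hne : T' ≠ -T := by
    intro h4
    rw [h4, val_neg] at h3
    linarith
  have h5 := adj_le h2 hne
  rw [neg_neg] at h5
  refine ⟨T', h2.2.1, h3, h5, ?_⟩
  intro h6
  rw [h6] at h2
  have := not_adj_neg (L := L) (-T)
  rw [neg_neg] at this
  exact this h2

lemma small (hL : Nest L) (G : Arc → Arc) (hG1 : ∀ S ∈ L, G S ∈ L)
    (hG2 : ∀ S ∈ L, ∀ T ∈ L, S ≤ T → G S ≤ G T)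
    (hG3 : ∀ S ∈ L, ∀ T ∈ L, G S = G T → S = T) {ξ : X}
    (hξ : ∀ S ∈ L, ¬ Lam L S ξ) {T₀ : Arc} (hT₀ : T₀ ∈ L) (hpos : 0 < T₀.val ξ) (M : ℝ) :
    ∃ T ∈ L, 0 < T.val ξ ∧ T ≤ T₀ ∧ (G T).tr ≤ -M := by
  by_contra hcon
  push Not at hcon
  have hfin : {T | T ∈ L ∧ 0 < T.val ξ ∧ T ≤ T₀}.Finite := by
    refine Set.Finite.of_finite_image ((finite_of_tr hL M (G T₀)).subset ?_)
      (fun S hS T hT he => hG3 S hS.1 T hT.1 he)
    rintro _ ⟨T, ⟨h1, h2, h3⟩, rfl⟩
    exact ⟨hG1 T h1, hG2 T h1 T₀ hT₀ h3, hcon T h1 h2 h3⟩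
  obtain ⟨T, hT, hmin⟩ := hfin.exists_minimal ⟨T₀, hT₀, hpos, le_refl _⟩
  obtain ⟨T', h1, h2, h3, h4⟩ := step hL hξ hT.1 hT.2.1
  exact h4 (le_antisymm h3 (hmin ⟨h1, h2, h3.trans hT.2.2⟩ h3))

lemma start (hL : Nest L) (hne : L.Nonempty) {ξ : X} (hξ : ∀ S ∈ L, ¬ Lam L S ξ) :
    ∃ T₀ ∈ L, 0 < T₀.val ξ := by
  obtain ⟨S, hS⟩ := hne
  rcases lt_trichotomy (S.val ξ) 0 with h | h | h
  · exact ⟨-S, hL.neg S hS, by rw [val_neg]; linarith⟩
  · exact absurd (lam_of_zero h) (hξ S hS)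
  · exact ⟨S, hS, h⟩

/-- the image point of a point outside of the limit sets -/
lemma exists_image (hL : Nest L) (hne : L.Nonempty) (h : PM L τ F) {ξ : X}
    (hξ : ∀ S ∈ L, ¬ Lam L S ξ) : ∃ η : X, ∀ S ∈ L, 0 ≤ S.val ξ → 0 ≤ (F S • S).val η := by
  obtain ⟨T₀, hT₀, hpos⟩ := start hL hne hξ
  let ι := {T : Arc // T ∈ L ∧ 0 < T.val ξ ∧ T ≤ T₀}
  have hι : Nonempty ι := ⟨⟨T₀, hT₀, hpos, le_refl _⟩⟩
  let C : ι → Set X := fun T => {η | 0 ≤ (F T.1 • T.1).val η}
  have hclosed : ∀ T : ι, IsClosed (C T) := by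
    intro T
    have h1 := continuous_val_pos (-(F T.1 • T.1))
    have h2 : C T = {η | 0 < (-(F T.1 • T.1)).val η}ᶜ := by
      ext η
      simp only [C, Set.mem_ofPred_eq, Set.mem_compl_iff, val_neg, not_lt]
      constructor <;> intro h3 <;> linarith
    rw [h2]
    exact h1.isClosed_compl
  have hdir : Directed (· ⊇ ·) C := by
    rintro ⟨S, hS1, hS2, hS3⟩ ⟨T, hT1, hT2, hT3⟩
    have hmono : ∀ A B : ι, A.1 ≤ B.1 → C B ⊇ C A := by
      intro A B hAB η hη
      exact le_trans hη (val_mono (psi_mono hL h A.2.1 B.2.1 hAB) η)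
    rcases hL.nest S hS1 T hT1 with h1 | h1 | h1 | h1
    · exact ⟨⟨S, hS1, hS2, hS3⟩, subset_rfl, hmono _ _ h1⟩
    · exact ⟨⟨T, hT1, hT2, hT3⟩, hmono _ _ h1, subset_rfl⟩
    · have := val_mono h1 ξ
      rw [val_neg] at this
      linarith
    · exfalso
      have h2 : -T₀ ≤ T₀ := (Arc.neg_le_neg hT3).trans (h1.trans hS3)
      exact neg_not_le _ h2
  have hnon : ∀ T : ι, (C T).Nonempty := by
    intro T
    obtain ⟨k, hk, hk2⟩ := val_smul (F T.1) ξ
    refine ⟨F T.1 • ξ, ?_⟩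
    show 0 ≤ (F T.1 • T.1).val (F T.1 • ξ)
    rw [hk2]
    exact (mul_pos hk T.2.2.1).le
  obtain ⟨η, hη⟩ := IsCompact.nonempty_iInter_of_directed_nonempty_isCompact_isClosed C hdir hnon
    (fun T => (hclosed T).isCompact) hclosed
  rw [Set.mem_iInter] at hη
  refine ⟨η, fun S hS hSξ => ?_⟩
  obtain ⟨T, hT1, hT2, hT3, hT4⟩ := small hL id (fun S hS => hS) (fun S _ T _ h => h)
    (fun S _ T _ h => h) hξ hT₀ hpos (|S.tr| + 1)
  rw [id] at hT4
  have hb1 := le_abs_self S.tr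
  have hb2 := neg_abs_le S.tr
  have hTS : T ≤ S := by
    rcases hL.nest T hT1 S hS with h1 | h1 | h1 | h1
    · exact h1
    · have := tr_mono h1
      linarith
    · have := val_mono h1 ξ
      rw [val_neg] at this
      linarith
    · have := tr_mono h1
      rw [tr_neg] at this
      linarith
  exact le_trans (hη ⟨T, hT1, hT2, hT3⟩) (val_mono (psi_mono hL h hT1 hS hTS) η)

/-- existence of the map -/
lemma exists_map (hL : Nest L) (hne : L.Nonempty) (h : PM L τ F) : ∃ f : X → X, IsPM L F f := by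
  have key : ∀ ξ : X, ∃ η : X, (∀ S ∈ L, Lam L S ξ → η = F S • ξ) ∧
      ∀ S ∈ L, 0 ≤ S.val ξ → 0 ≤ (F S • S).val η := by
    intro ξ
    by_cases hξ : ∀ S ∈ L, ¬ Lam L S ξ
    · obtain ⟨η, hη⟩ := exists_image hL hne h hξ
      exact ⟨η, fun S hS h1 => absurd h1 (hξ S hS), hη⟩
    · push Not at hξ
      obtain ⟨S₀, hS₀, hlam⟩ := hξ
      refine ⟨F S₀ • ξ, fun S hS h1 => consistent hL h hS₀ hS hlam h1, fun S hS h1 => ?_⟩
      obtain ⟨k, hk, hk2⟩ := val_smul (F S₀) ξ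
      obtain ⟨U, hU, h2⟩ := region_cover hL hS₀ hS
      have hUξ := hlam U hU
      rcases h2 with h2 | h2
      · have h3 := val_mono h2 ξ
        have hS0 : S.val ξ = 0 := by linarith
        have hU0 : U.val ξ = 0 := by linarith
        rcases hL.ne S hS U hU.2.1 ξ hS0 hU0 with h4 | h4
        · rw [h4, psi_adj h hU, hk2, hU0, mul_zero]
        · rw [h4] at h2
          exact absurd h2 (neg_not_le U)
      · have h3 := psi_mono hL h (hL.neg S hS) hU.2.1 h2
        rw [psi_neg h hS, psi_adj h hU] at h3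
        have h4 := val_mono h3 (F S₀ • ξ)
        rw [val_neg, hk2] at h4
        have h5 : k * U.val ξ ≤ 0 := mul_nonpos_of_nonneg_of_nonpos hk.le hUξ
        linarith
  choose f hf1 hf2 using key
  exact ⟨f, fun S hS ξ h1 => hf1 ξ S hS h1, fun S hS ξ h1 => hf2 ξ S hS h1⟩

/-! ### continuity -/

lemma local_est (h : PM L τ F) (hL : Nest L) {f : X → X} (hf : IsPM L F f) {S : Arc} (hS : S ∈ L)
    {ξ : X} (hlam : Lam L S ξ) {ε : ℝ} (hε : 0 < ε) :
    ∃ N ∈ 𝓝 ξ, ∀ η ∈ N, dd (F S • ξ) (f η) < ε ∨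
      ∃ T, Adj L S T ∧ 0 < T.val η ∧ T.val ξ = 0 := by
  set M : ℝ := 8 / ε with hM
  have hM0 : 0 < M := by positivity
  have hfin : {T | Adj L S T ∧ -M < (F S • T).tr}.Finite := by
    refine Set.Finite.of_finite_image
      ((hL.lf (max M |(F S • S).tr|)).subset ?_) ((MulAction.injective (F S)).injOn)
    rintro _ ⟨T, ⟨h1, h2⟩, rfl⟩
    have h3 := h.h4 S T h1
    refine ⟨h3.2.1, ?_⟩
    have h6 := le_max_left M |(F S • S).tr|
    have h7 := le_max_right M |(F S • S).tr|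
    have h8 := le_abs_self (F S • S).tr
    have h9 := neg_abs_le (F S • S).tr
    have h4 : (F S • T).tr ≤ |(F S • S).tr| := by
      by_cases hne : F S • T = F S • S
      · rw [hne]; exact h8
      · have h5 := tr_mono (adj_le h3 hne)
        rw [tr_neg] at h5
        linarith
    show |(F S • T).tr| ≤ _
    rw [abs_le]
    constructor <;> linarith
  have hN1 : {η | dd (F S • ξ) (F S • η) < ε / 2} ∈ 𝓝 ξ :=
    (continuous_smul' (F S)).continuousAt.preimage_mem_nhds (dd_ball (F S • ξ) (ε / 2) (by positivity))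
  have hN2 : (⋂ T ∈ {T | (Adj L S T ∧ -M < (F S • T).tr) ∧ T.val ξ < 0}, {η : X | 0 < (-T).val η})
      ∈ 𝓝 ξ := by
    refine (Filter.biInter_mem (hfin.subset fun T hT => hT.1)).2 fun T hT => ?_
    refine (continuous_val_pos (-T)).mem_nhds ?_
    show 0 < (-T).val ξ
    rw [val_neg]
    linarith [hT.2]
  refine ⟨_, Filter.inter_mem hN1 hN2, fun η hη => ?_⟩
  have hη1 : dd (F S • ξ) (F S • η) < ε / 2 := hη.1
  by_cases hl : Lam L S η
  · left
    rw [hf.c1 S hS η hl]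
    linarith
  · unfold Lam at hl
    push Not at hl
    obtain ⟨T, hT, hTη⟩ := hl
    by_cases hE : -M < (F S • T).tr
    · right
      refine ⟨T, hT, hTη, le_antisymm (hlam T hT) ?_⟩
      by_contra hcon
      push Not at hcon
      have h1 := hη.2
      rw [Set.mem_iInter₂] at h1
      have h2 : 0 < (-T).val η := h1 T ⟨⟨hT, hE⟩, hcon⟩
      rw [val_neg] at h2
      linarith
    · left
      push Not at hE
      obtain ⟨k, hk, hk2⟩ := val_smul (F S) η
      have h1 : 0 ≤ (F S • T).val (F S • η) := by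
        rw [hk2]; exact (mul_pos hk hTη).le
      have h2 : 0 ≤ (F S • T).val (f η) := by
        have := hf.c2 T hT.2.1 η hTη.le
        rwa [psi_adj h hT] at this
      have h3 := dd_arc (F S • T) M hM0 hE _ _ h1 h2
      have h4 := dd_triangle (F S • ξ) (F S • η) (f η)
      have h5 : 2 / M = ε / 4 := by
        rw [hM]; field_simp; norm_num
      rw [h5] at h3
      linarith

lemma continuous_map (hL : Nest L) (hne : L.Nonempty) (h : PM L τ F) {f : X → X}
    (hf : IsPM L F f) : Continuous f := by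
  rw [continuous_iff_continuousAt]
  intro ξ
  have key : ∀ ε : ℝ, 0 < ε → ∃ N ∈ 𝓝 ξ, ∀ η ∈ N, dd (f ξ) (f η) < ε := by
    intro ε hε
    by_cases hξ : ∀ S ∈ L, ¬ Lam L S ξ
    · obtain ⟨T₀, hT₀, hpos⟩ := start hL hne hξ
      set M : ℝ := 4 / ε with hM
      have hM0 : 0 < M := by positivity
      obtain ⟨T, hT1, hT2, hT3, hT4⟩ := small hL (fun S => F S • S) (fun S hS => psi_mem h hS)
        (fun S hS T hT hST => psi_mono hL h hS hT hST)
        (fun S hS T hT he => psi_inj hL h hS hT he) hξ hT₀ hpos M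
      refine ⟨{η | 0 < T.val η}, (continuous_val_pos T).mem_nhds hT2, fun η hη => ?_⟩
      have h1 := dd_arc (F T • T) M hM0 hT4 (f ξ) (f η) (hf.c2 T hT1 ξ hT2.le)
        (hf.c2 T hT1 η (le_of_lt hη))
      have h2 : 2 / M = ε / 2 := by
        rw [hM]; field_simp; norm_num
      rw [h2] at h1
      linarith
    · push Not at hξ
      obtain ⟨S, hS, hlam⟩ := hξ
      obtain ⟨N, hN, hN2⟩ := local_est h hL hf hS hlam hε
      have hfξ := hf.c1 S hS ξ hlam
      by_cases hT1 : ∃ T₁, Adj L S T₁ ∧ T₁.val ξ = 0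
      · obtain ⟨T₁, hT₁, hz⟩ := hT1
        have hz' : (-T₁).val ξ = 0 := by rw [val_neg, hz, neg_zero]
        have hnT₁ := hL.neg T₁ hT₁.2.1
        have hlam' : Lam L (-T₁) ξ := lam_of_zero hz'
        obtain ⟨N', hN', hN2'⟩ := local_est h hL hf hnT₁ hlam' hε
        refine ⟨_, Filter.inter_mem hN hN', fun η hη => ?_⟩
        rcases hN2 η hη.1 with h1 | ⟨T, h1, h2, h3⟩
        · rw [hfξ]; exact h1
        · have hTT₁ : T = T₁ := by
            rcases hL.ne T h1.2.1 T₁ hT₁.2.1 ξ h3 hz with h4 | h4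
            · exact h4
            · exfalso
              rw [h4] at h1
              exact not_adj_neg T₁ (adj_trans hL (adj_symm hL hT₁) h1)
          rcases hN2' η hη.2 with h5 | ⟨T', h5, h6, h7⟩
          · rw [hf.c1 _ hnT₁ ξ hlam']
            exact h5
          · exfalso
            rcases hL.ne T' h5.2.1 T₁ hT₁.2.1 ξ h7 hz with h8 | h8
            · rw [h8] at h5
              have := not_adj_neg (L := L) (-T₁)
              rw [neg_neg] at this
              exact this h5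
            · rw [h8, val_neg] at h6
              rw [hTT₁] at h2
              linarith
      · refine ⟨N, hN, fun η hη => ?_⟩
        rcases hN2 η hη with h1 | ⟨T, h1, h2, h3⟩
        · rw [hfξ]; exact h1
        · exact absurd ⟨T, h1, h3⟩ hT1
  intro U hU
  obtain ⟨ε, hε, h2⟩ := dd_nhds (f ξ) U hU
  obtain ⟨N, hN, h3⟩ := key ε hε
  rw [Filter.mem_map]
  exact Filter.mem_of_superset hN fun η hη => h2 _ (h3 η hη)

/-! ### the inverse -/

/-- if `F'` inverts `F` on geodesics then the maps are inverse to each other -/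
lemma left_inv (hL : Nest L) (hne : L.Nonempty) (h : PM L τ F) {F' : Arc → GG}
    (hF : ∀ S ∈ L, F' (F S • S) = (F S)⁻¹) {f g : X → X} (hf : IsPM L F f) (hg : IsPM L F' g)
    (ξ : X) : g (f ξ) = ξ := by
  by_cases hξ : ∀ S ∈ L, ¬ Lam L S ξ
  · obtain ⟨T₀, hT₀, hpos⟩ := start hL hne hξ
    apply eq_of_dd
    refine le_antisymm (le_of_forall_pos_le_add fun ε hε => ?_) (dd_nonneg _ _)
    rw [zero_add]
    set M : ℝ := 2 / ε with hM
    have hM0 : 0 < M := by positivity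
    obtain ⟨T, hT1, hT2, hT3, hT4⟩ := small hL id (fun S hS => hS) (fun S _ T _ h => h)
      (fun S _ T _ h => h) hξ hT₀ hpos M
    have h1 := hf.c2 T hT1 ξ hT2.le
    have h2 := hg.c2 (F T • T) (psi_mem h hT1) (f ξ) h1
    rw [hF T hT1, inv_smul_smul] at h2
    have h3 := dd_arc T M hM0 hT4 (g (f ξ)) ξ h2 hT2.le
    have h4 : 2 / M = ε := by rw [hM]; field_simp
    rwa [h4] at h3
  · push Not at hξ
    obtain ⟨S, hS, hlam⟩ := hξ
    have h1 : Lam L (F S • S) (F S • ξ) := by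
      intro U hU
      have h2 := hlam _ (h.h5 S U hS hU)
      obtain ⟨k, hk, hk2⟩ := val_smul (F S) ξ
      have h3 := hk2 ((F S)⁻¹ • U)
      rw [smul_inv_smul] at h3
      rw [h3]
      exact mul_nonpos_of_nonneg_of_nonpos hk.le h2
    rw [hf.c1 S hS ξ hlam, hg.c1 _ (psi_mem h hS) _ h1, hF S hS, inv_smul_smul]

/-- the inverse data -/
lemma inverse_data (hL : Nest L) (hne : L.Nonempty) (h : PM L τ F) :
    ∃ τ' F' : Arc → GG, PM L τ' F' ∧ (∀ S ∈ L, F' (F S • S) = (F S)⁻¹) ∧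
      ∀ S ∈ L, F (F' S • S) = (F' S)⁻¹ := by
  have hs := psi_surj hL hne h
  choose! φ hφ1 hφ2 using hs
  have hφ : ∀ S ∈ L, φ (F S • S) = S := fun S hS =>
    psi_inj hL h (hφ1 _ (psi_mem h hS)) hS (hφ2 _ (psi_mem h hS))
  have hneg : ∀ U ∈ L, φ (-U) = -(φ U) := by
    intro U hU
    apply psi_inj hL h (hφ1 _ (hL.neg U hU)) (hL.neg _ (hφ1 U hU))
    rw [hφ2 _ (hL.neg U hU), psi_neg h (hφ1 U hU), hφ2 U hU]
  have hback : ∀ U ∈ L, (F (φ U))⁻¹ • U = φ U := by
    intro U hU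
    rw [inv_smul_eq_iff]
    exact (hφ2 U hU).symm
  have hadj : ∀ U V, Adj L U V → Adj L (φ U) ((F (φ U))⁻¹ • V) ∧ φ V = (F (φ U))⁻¹ • V := by
    intro U V hUV
    have h1 : Adj L (F (φ U) • φ U) V := by rwa [hφ2 U hUV.1]
    have h2 := h.h5 (φ U) V (hφ1 U hUV.1) h1
    refine ⟨h2, ?_⟩
    apply psi_inj hL h (hφ1 V hUV.2.1) h2.2.1
    rw [hφ2 V hUV.2.1, psi_adj h h2, smul_inv_smul]
  refine ⟨fun U => F (φ U) * (τ (φ U))⁻¹ * (F (φ U))⁻¹, fun U => (F (φ U))⁻¹, ?_, ?_, ?_⟩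
  · constructor
    · intro U hU
      show (F (φ (-U)))⁻¹ = (F (φ U))⁻¹ * (F (φ U) * (τ (φ U))⁻¹ * (F (φ U))⁻¹)
      rw [hneg U hU, h.h1 _ (hφ1 U hU)]
      group
    · intro U V hUV
      show (F (φ U))⁻¹ = (F (φ V))⁻¹
      obtain ⟨h1, h2⟩ := hadj U V hUV
      have h3 := h.h2 _ _ h1
      rw [← h2] at h3
      rw [h3]
    · intro U hU
      have h3 := h.h3 _ (hφ1 U hU)
      constructor
      · show (F (φ U) * (τ (φ U))⁻¹ * (F (φ U))⁻¹) • U = U
        rw [mul_smul, mul_smul, hback U hU]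
        have : (τ (φ U))⁻¹ • φ U = φ U := by
          rw [inv_smul_eq_iff]; exact h3.1.symm
        rw [this, hφ2 U hU]
      · show 0 < dt (F (φ U) * (τ (φ U))⁻¹ * (F (φ U))⁻¹)
        rw [dt_mul, dt_mul]
        have e1 : dt (F (φ U)) * dt (F (φ U))⁻¹ = 1 := by
          rw [← dt_mul, mul_inv_cancel, dt_one]
        have e2 : dt (τ (φ U)) * dt (τ (φ U))⁻¹ = 1 := by
          rw [← dt_mul, mul_inv_cancel, dt_one]
        have e3 : 0 < dt (τ (φ U))⁻¹ := by
          by_contra hcon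
          push Not at hcon
          nlinarith [h3.2]
        have e4 : dt (F (φ U)) * dt (τ (φ U))⁻¹ * dt (F (φ U))⁻¹ = dt (τ (φ U))⁻¹ := by
          linear_combination (dt (τ (φ U))⁻¹) * e1
        rw [e4]
        exact e3
    · intro U V hUV
      show Adj L ((F (φ U))⁻¹ • U) ((F (φ U))⁻¹ • V)
      rw [hback U hUV.1]
      exact (hadj U V hUV).1
    · intro U W hU hW
      show Adj L U (((F (φ U))⁻¹)⁻¹ • W)
      have hW' : Adj L ((F (φ U))⁻¹ • U) W := hW
      rw [hback U hU] at hW'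
      have h1 := h.h4 _ _ hW'
      rw [hφ2 U hU] at h1
      rwa [inv_inv]
  · intro S hS
    show (F (φ (F S • S)))⁻¹ = _
    rw [hφ S hS]
  · intro S hS
    show F ((F (φ S))⁻¹ • S) = ((F (φ S))⁻¹)⁻¹
    rw [hback S hS, inv_inv]

end

end X1

open X1

theorem homeoX {L : Set Arc} (hL : Nest L) (hne : L.Nonempty) {τ F : Arc → GG} (h : PM L τ F) :
    ∃ f : X ≃ₜ X, IsPM L F f := by
  obtain ⟨f, hf⟩ := exists_map hL hne h
  obtain ⟨τ', F', h', hF1, hF2⟩ := inverse_data hL hne h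
  obtain ⟨g, hg⟩ := exists_map hL hne h'
  refine ⟨⟨⟨f, g, left_inv hL hne h hF1 hf hg, left_inv hL hne h' hF2 hg hf⟩,
    continuous_map hL hne h hf, continuous_map hL hne h' hg⟩, hf⟩

end Pool.Agent.H100R2.SC
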