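import Pool.Agent.H100R2.SC.Defs
import Pool.Agent.H100R2.SC.B1
import Pool.Agent.H100R2.SC.B2
import Pool.Agent.H100R2.SC.T1

/-! X2: uniqueness of the piecewise Moebius homeomorphism, and its conjugation action -/

set_option autoImplicit false

namespace Pool.Agent.H100R2.SC

theorem x2_chain {L : Set Arc} (hL : Nest L) {τ F : Arc → GG} (h : PM L τ F) (ξ : X)
    (hno : ∀ S ∈ L, ¬ Lam L S ξ) {T : Arc} (hT : T ∈ L) (hTv : 0 < T.val ξ) :
    ∃ T', T' ∈ L ∧ 0 < T'.val ξ ∧ F T' • T' ≤ F T • T ∧ F T' • T' ≠ F T • T := by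
  have hneg : -T ∈ L := hL.neg T hT
  have h1 := hno (-T) hneg
  unfold Lam at h1
  push Not at h1
  obtain ⟨T', hadj, hv⟩ := h1
  have hT' : T' ∈ L := hadj.2.1
  have hlt : T' ≤ T ∧ T' ≠ T := by
    rcases hadj.2.2 with h2 | ⟨h2, h3, _⟩
    · exfalso
      rw [← h2, val_neg] at hv
      linarith
    · refine ⟨?_, ?_⟩
      · have h4 := Arc.neg_le_neg h2
        rwa [neg_neg, neg_neg] at h4
      · intro h4
        apply h3
        rw [h4]
  have e1 : F (-T) • T = F T • T := by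
    rw [h.h1 T hT, mul_smul, (h.h3 T hT).1]
  have e2 : F (-T) = F T' := h.h2 (-T) T' hadj
  refine ⟨T', hT', hv, ?_, ?_⟩
  · rw [← e1, ← e2]
    exact (smul_le' _ _ _).2 hlt.1
  · rw [← e1, ← e2]
    intro h5
    exact hlt.2 (smul_left_cancel _ h5)

theorem x2_psi_mem {L : Set Arc} {τ F : Arc → GG} (h : PM L τ F) {T : Arc} (hT : T ∈ L) :
    F T • T ∈ L := (h.h4 T T ⟨hT, hT, Or.inl rfl⟩).1

theorem homeoX_unique {L : Set Arc} (hL : Nest L) (hne : L.Nonempty) {τ F : Arc → GG} (h : PM L τ F)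
    (f f' : X → X) (hf : IsPM L F f) (hf' : IsPM L F f') : f = f' := by
  funext ξ
  by_cases hex : ∃ S ∈ L, Lam L S ξ
  · obtain ⟨S, hS, hlam⟩ := hex
    rw [hf.c1 S hS ξ hlam, hf'.c1 S hS ξ hlam]
  · have hno : ∀ S ∈ L, ¬ Lam L S ξ := fun S hS hl => hex ⟨S, hS, hl⟩
    -- a first arc
    obtain ⟨S₀, hS₀⟩ := hne
    have h1 := hno S₀ hS₀
    unfold Lam at h1
    push Not at h1
    obtain ⟨T₀, hadj₀, hv₀⟩ := h1
    have hT₀ : T₀ ∈ L := hadj₀.2.1
    have hsmall : ∀ M : ℝ, 0 < M → ∃ T, T ∈ L ∧ 0 < T.val ξ ∧ (F T • T).tr ≤ -M := by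
      intro M hM
      by_contra hcon
      push Not at hcon
      set s : Set Arc := {U | ∃ T, T ∈ L ∧ 0 < T.val ξ ∧ U = F T • T ∧ U ≤ F T₀ • T₀} with hs
      have hfin : s.Finite := by
        apply (hL.lf (M + |(F T₀ • T₀).tr|)).subset
        rintro U ⟨T, hT, hv, hU, hle⟩
        refine ⟨?_, ?_⟩
        · rw [hU]
          exact x2_psi_mem h hT
        · have h2 := tr_mono hle
          have h3 := hcon T hT hv
          rw [← hU] at h3
          rw [abs_le]
          have h4 := le_abs_self (F T₀ • T₀).tr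
          have h5 := abs_nonneg (F T₀ • T₀).tr
          constructor <;> linarith
      have hne' : s.Nonempty := ⟨F T₀ • T₀, T₀, hT₀, hv₀, rfl, le_refl _⟩
      obtain ⟨U, hU⟩ := hfin.exists_minimal hne'
      obtain ⟨T, hT, hv, hUT, hle⟩ := hU.1
      obtain ⟨T', hT', hv', hle', hne''⟩ := x2_chain hL h ξ hno hT hv
      have hmem : F T' • T' ∈ s := ⟨T', hT', hv', rfl, le_trans hle' (by rw [← hUT]; exact hle)⟩
      have h6 : F T' • T' ≤ U := by
        rw [hUT]
        exact hle'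
      have h7 := hU.2 hmem h6
      apply hne''
      rw [← hUT]
      exact le_antisymm h6 h7
    have hz : dd (f ξ) (f' ξ) = 0 := by
      apply le_antisymm _ (dd_nonneg _ _)
      apply le_of_forall_pos_le_add
      intro ε hε
      rw [zero_add]
      obtain ⟨T, hT, hv, htr⟩ := hsmall (2 / ε) (by positivity)
      have h2 := dd_arc (F T • T) (2 / ε) (by positivity) htr (f ξ) (f' ξ)
        (hf.c2 T hT ξ hv.le) (hf'.c2 T hT ξ hv.le)
      have h3 : 2 / (2 / ε) = ε := by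
        field_simp
      rwa [h3] at h2
    exact eq_of_dd hz

theorem conjX {A : Subgroup GG} {L : Set Arc} (hL : Fam A L) {τ F : Arc → GG} (h : PM L τ F)
    (hτ : ∀ a ∈ A, ∀ S ∈ L, τ (a • S) = a * τ S * a⁻¹) (f : X → X) (hf : IsPM L F f) :
    ∀ a ∈ A, ∃ g : GG, (∀ S ∈ L, F (a • S) * a = g * F S) ∧ ∀ ξ : X, f (a • ξ) = g • f ξ := by
  intro a ha
  obtain ⟨S₀, hS₀⟩ := hL.ne0
  set g : GG := F (a • S₀) * a * (F S₀)⁻¹ with hg
  have hP : ∀ S ∈ L, F (a • S) * a = g * F S := by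
    apply conn hL.toNest (fun S => F (a • S) * a = g * F S) hS₀
    · show F (a • S₀) * a = g * F S₀
      rw [hg, inv_mul_cancel_right]
    · intro S hS hPS
      show F (a • (-S)) * a = g * F (-S)
      rw [smul_neg', h.h1 (a • S) (hL.inv a ha S hS), hτ a ha S hS, h.h1 S hS]
      have e : F (a • S) * (a * τ S * a⁻¹) * a = (F (a • S) * a) * τ S := by
        simp only [mul_assoc, inv_mul_cancel, mul_one]
      rw [e, hPS, mul_assoc]
    · intro S T hadj hPS
      show F (a • T) * a = g * F T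
      rw [← h.h2 (a • S) (a • T) ((adj_smul hL ha).2 hadj), ← h.h2 S T hadj]
      exact hPS
  refine ⟨g, hP, ?_⟩
  have hf' : IsPM L F (fun ξ => g⁻¹ • f (a • ξ)) := by
    constructor
    · intro S hS ξ hlam
      have hlam' : Lam L (a • S) (a • ξ) := by
        intro T hT
        have e : T = a • (a⁻¹ • T) := (smul_inv_smul a T).symm
        rw [e] at hT ⊢
        have hT' := (adj_smul hL ha).1 hT
        obtain ⟨k, hk, hkk⟩ := val_smul a ξ
        rw [hkk]
        exact mul_nonpos_of_nonneg_of_nonpos hk.le (hlam _ hT')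
      show g⁻¹ • f (a • ξ) = F S • ξ
      rw [hf.c1 (a • S) (hL.inv a ha S hS) (a • ξ) hlam', ← mul_smul (F (a • S)) a ξ, hP S hS,
        mul_smul, inv_smul_smul]
    · intro S hS ξ hv
      show 0 ≤ (F S • S).val (g⁻¹ • f (a • ξ))
      obtain ⟨k, hk, hkk⟩ := val_smul a ξ
      have h1 : 0 ≤ (a • S).val (a • ξ) := by
        rw [hkk]
        exact mul_nonneg hk.le hv
      have h2 := hf.c2 (a • S) (hL.inv a ha S hS) (a • ξ) h1
      rw [← mul_smul, hP S hS, mul_smul] at h2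
      obtain ⟨k', hk', hkk'⟩ := val_smul g⁻¹ (f (a • ξ))
      have h3 := hkk' (g • (F S • S))
      rw [inv_smul_smul] at h3
      rw [h3]
      exact mul_nonneg hk'.le h2
  have heq := homeoX_unique hL.toNest hL.ne0 h f _ hf hf'
  intro ξ
  have h4 : f ξ = g⁻¹ • f (a • ξ) := congrFun heq ξ
  rw [h4, smul_inv_smul]

end Pool.Agent.H100R2.SC
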