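import Pool.Agent.H100R2.SC.Defs
import Pool.Agent.H100R2.SC.A3
import Pool.Agent.H100R2.SC.B1
import Pool.Agent.H100R2.SC.B4
import Pool.Agent.H100R2.SC.T1
import Pool.Agent.H100R2.SC.T2
import Pool.Agent.H100R2.SC.X1
import Pool.Agent.H100R2.SC.X2
import Pool.Agent.H100R2.SC.C0
import Pool.Agent.H100R2.SC.C9
import Pool.Agent.H100R2.SC.C10
import Pool.Agent.H100R2.SC.C11

/-!
# An orientation reversing homeomorphism in the commensurator (task C12)
-/

set_option autoImplicit false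

namespace Pool.Agent.H100R2.SC

open Filter Topology

private lemma dt_inv' (g : GG) : dt g * dt g⁻¹ = 1 := by
  rw [← dt_mul, mul_inv_cancel, dt_one]

private lemma adj_refl' {L : Set Arc} {S : Arc} (h : S ∈ L) : Adj L S S := ⟨h, h, Or.inl rfl⟩

/-- the end points of the arcs bounding a region are in the limit set of the region -/
private lemma lam_end {L : Set Arc} (hL : Nest L) {S T : Arc} (hT : Adj L S T) {ξ : X}
    (h0 : T.val ξ = 0) : Lam L S ξ := by
  intro U hU
  have hTU : Adj L T U := adj_trans hL (adj_symm hL hT) hU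
  rcases hTU.2.2 with h | h
  · rw [← h, h0]
  · have h1 := val_mono (Arc.le_neg_comm h.1) ξ
    rw [val_neg, h0] at h1
    linarith

theorem reversing {Γ : Subgroup GG} (hΓ : Fuchs Γ) : ∃ f : X ≃ₜ X, Good Γ f ∧ OrN f := by
  obtain ⟨A, L, hAΓ, hi, hL, hr⟩ := allRefl hΓ
  have hA : Fuchs A := fuchs_of_index hΓ hAΓ hi
  have hLn : Nest L := hL.toNest
  obtain ⟨N, hN⟩ := chooseN hA hL hr
  obtain ⟨τ, hτ1, hτ2, hτ3⟩ := chooseTau hA hL N hN
  obtain ⟨S₀, hS₀⟩ := hL.ne0
  obtain ⟨F1, hF1, hF2, hF3⟩ := potential hLn τ hτ1 hS₀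
  obtain ⟨n₀, hn₀, hn₀'⟩ := hN.fix S₀ hS₀
  set F : Arc → GG := fun S => n₀ * F1 S with hF
  -- the potential has values in the cosets
  have hcos : ∀ S ∈ L, ∃ b ∈ A, ∃ n ∈ N S, F S = b * n := by
    refine conn hLn (fun S => ∃ b ∈ A, ∃ n ∈ N S, F S = b * n) hS₀ ?_ ?_ ?_
    · exact ⟨1, A.one_mem, n₀, hn₀, by simp [hF, hF1]⟩
    · rintro S hS ⟨b, hb, n, hn, e⟩
      obtain ⟨n1, hn1, n1', hn1', e1, e2, e3⟩ := hτ3 S hS
      refine ⟨b * (n * n1⁻¹), A.mul_mem hb (hN.div S hS n hn n1 hn1), n1', hn1', ?_⟩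
      have h1 : F (-S) = F S * τ S := by
        simp only [hF]
        rw [hF2 S hS, mul_assoc]
      rw [h1, e, e3]
      group
    · rintro S T hST ⟨b, hb, n, hn, e⟩
      refine ⟨b, hb, n, by rw [← hN.adj S T hST]; exact hn, ?_⟩
      rw [← e]
      simp only [hF]
      rw [hF3 S T hST]
  have hPM : PM L τ F := by
    refine ⟨?_, ?_, ?_, ?_, ?_⟩
    · intro S hS
      simp only [hF]
      rw [hF2 S hS, mul_assoc]
    · intro S T hST
      simp only [hF]
      rw [hF3 S T hST]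
    · intro S hS
      obtain ⟨n1, hn1, n1', hn1', e1, e2, e3⟩ := hτ3 S hS
      have d1 := hN.det S hS n1 hn1
      have d2 := hN.det (-S) (hLn.neg S hS) n1' hn1'
      refine ⟨?_, ?_⟩
      · rw [e3, mul_smul, e2]
        have : n1⁻¹ • (n1 • S) = S := by rw [← mul_smul, inv_mul_cancel, one_smul]
        rwa [e1] at this
      · rw [e3, dt_mul]
        have h1 := dt_inv' n1
        have h2 : dt n1⁻¹ < 0 := by
          by_contra hcon
          push Not at hcon
          nlinarith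
        exact mul_pos_of_neg_of_neg h2 d2
    · intro S T hST
      obtain ⟨b, hb, n, hn, e⟩ := hcos S hST.1
      have h1 := (hN.pres S hST.1 n hn T hST).1
      have h2 := (hN.pres S hST.1 n hn S (adj_refl' hST.1)).1
      have h3 : Adj L (n • S) (n • T) := adj_trans hLn (adj_symm hLn h2) h1
      rw [e, mul_smul, mul_smul]
      exact (adj_smul hL hb).2 h3
    · intro S U hS hU
      obtain ⟨b, hb, n, hn, e⟩ := hcos S hS
      rw [e, mul_smul] at hU
      have h1 : Adj L (n • S) (b⁻¹ • U) := by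
        rw [← adj_smul hL hb, ← mul_smul b b⁻¹, mul_inv_cancel, one_smul]
        exact hU
      have h2 := (hN.pres S hS n hn S (adj_refl' hS)).1
      have h3 : Adj L S (b⁻¹ • U) := adj_trans hLn h2 h1
      have h4 := (hN.pres S hS n hn _ h3).2
      rw [e, mul_inv_rev, mul_smul]
      exact h4
  obtain ⟨f, hf⟩ := homeoX hLn ⟨S₀, hS₀⟩ hPM
  refine ⟨f, ⟨A, hAΓ, hi, ?_⟩, ?_⟩
  · intro a ha
    obtain ⟨g, hg1, hg2⟩ := conjX hL hPM hτ2 f hf a ha
    refine ⟨g, hAΓ ?_, hg2⟩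
    obtain ⟨b, hb, n, hn, e⟩ := hcos S₀ hS₀
    have haS : a • S₀ ∈ L := hL.inv a ha S₀ hS₀
    obtain ⟨b', hb', n', hn', e'⟩ := hcos (a • S₀) haS
    have h1 := hN.conj a⁻¹ (A.inv_mem ha) (a • S₀) haS n' hn'
    rw [← mul_smul, inv_mul_cancel, one_smul, inv_inv] at h1
    have h2 := hN.div S₀ hS₀ _ h1 n hn
    have h3 : g = b' * a * ((a⁻¹ * n' * a) * n⁻¹) * b⁻¹ := by
      have h4 := hg1 S₀ hS₀
      rw [e, e'] at h4
      have h5 : g = b' * n' * a * (b * n)⁻¹ := by rw [h4]; group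
      rw [h5]
      group
    rw [h3]
    exact A.mul_mem (A.mul_mem (A.mul_mem hb' ha) h2) (A.inv_mem hb)
  · rcases orient f with hP | hNeg
    · exfalso
      obtain ⟨T, hT, hTne⟩ := exists_adj_ne hA hL S₀ hS₀
      obtain ⟨x, y, hxy, hx, hy, -, -⟩ := arc_ends S₀
      obtain ⟨w, -, -, hw, -, -, -⟩ := arc_ends T
      have hTneg : S₀ ≠ -T := by
        rcases hT.2.2 with h | h
        · exact absurd h.symm hTne
        · exact h.2.1
      have hdis : ∀ ξ : X, S₀.val ξ = 0 → T.val ξ = 0 → False := by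
        intro ξ h1 h2
        rcases hLn.ne S₀ hS₀ T hT.2.1 ξ h1 h2 with h | h
        · exact hTne h.symm
        · exact hTneg h
      have hyw : y ≠ w := fun e => hdis w (e ▸ hy) hw
      have hwx : w ≠ x := fun e => hdis w (e.symm ▸ hx) hw
      have hFS : F S₀ = n₀ := by simp [hF, hF1]
      have hLx : f x = n₀ • x := by
        rw [hf.c1 S₀ hS₀ x (lam_end hLn (adj_refl' hS₀) hx), hFS]
      have hLy : f y = n₀ • y := by
        rw [hf.c1 S₀ hS₀ y (lam_end hLn (adj_refl' hS₀) hy), hFS]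
      have hLw : f w = n₀ • w := by
        rw [hf.c1 S₀ hS₀ w (lam_end hLn hT hw), hFS]
      have hd := hN.det S₀ hS₀ n₀ hn₀
      rcases cyc_total hxy hyw hwx with h | h
      · have h1 := hP x y w h
        rw [hLx, hLy, hLw] at h1
        exact cyc_asymm h1 (cyc_smul_neg n₀ hd x y w h)
      · have h1 := hP w y x h
        rw [hLx, hLy, hLw] at h1
        exact cyc_asymm h1 (cyc_smul_neg n₀ hd w y x h)
    · exact hNeg

end Pool.Agent.H100R2.SC
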