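import Pool.Agent.H100R2.SC.Defs
import Pool.Agent.H100R2.SC.A2
import Pool.Agent.H100R2.SC.A6
import Pool.Agent.H100R2.SC.B1
import Pool.Agent.H100R2.SC.B5
import Pool.Agent.H100R2.SC.B6
import Pool.Agent.H100R2.SC.T1

/-! Nearest pairs of bounding geodesics exist (task C2). -/

set_option autoImplicit false

namespace Pool.Agent.H100R2.SC

open Filter Topology

theorem c2_min {A : Subgroup GG} {L : Set Arc} (hA : Fuchs A) (hL : Fam A L) (S : Arc)
    (Q : Arc → Arc → Prop) (hQ : ∀ U V, Q U V → U ≠ V) (U0 V0 : Arc) (h1 : Adj L S U0)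
    (h2 : Adj L S V0) (h3 : Q U0 V0) :
    ∃ H H', Adj L S H ∧ Adj L S H' ∧ Q H H' ∧
      ∀ U V, Adj L S U → Adj L S V → Q U V → kap H H' ≤ kap U V := by
  obtain ⟨M, hM⟩ := cocompact_arc hA
  obtain ⟨c, hc⟩ : ∃ c, c = kap U0 V0 := ⟨_, rfl⟩
  have hF1 : {U | U ∈ L ∧ |U.tr| ≤ M}.Finite := hL.lf M
  have key : ∀ U' ∈ {U | U ∈ L ∧ |U.tr| ≤ M}, ∃ F : Finset Arc, ∀ V' ∈ L, |BB V' U'| ≤ 2 * |c| + 1 →
      ∃ T' ∈ F, kap U' V' = kap U' T' := by
    rintro U' ⟨hU, -⟩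
    obtain ⟨α, hα, hα1, hax⟩ := hL.axs U' hU
    have hd : dt α = 1 := hA.det1 α hα
    have ht : 4 < trc α ^ 2 := hyp hA hα hα1
    obtain ⟨F, -, hF⟩ := dbl α hd ht L
      (fun n T hT => hL.inv _ (A.zpow_mem hα n) T hT) hL.lf
      (fun T hT ξ a b => by
        have hS : ax α ∈ L := hax ▸ hU
        exact hL.ne T hT (ax α) hS ξ b a) (2 * |c| + 1)
    refine ⟨F, fun V' hV hb => ?_⟩
    rw [← hax] at hb
    obtain ⟨n, T', hT', e⟩ := hF V' hV hb
    refine ⟨T', hT', ?_⟩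
    have hfix : ∀ n : ℤ, α ^ n • ax α = ax α := by
      have h0 : α ∈ MulAction.stabilizer GG (ax α) := ax_smul α hd ht
      intro n
      exact (MulAction.stabilizer GG (ax α)).zpow_mem h0 n
    have h4 : kap (α ^ n • ax α) (α ^ n • T') = kap (ax α) T' := kap_smul _ _ _
    rw [hfix n, ← e] at h4
    rw [← hax]
    exact h4
  choose! F hF using key
  have hW : {x : ℝ | ∃ U V, Adj L S U ∧ Adj L S V ∧ Q U V ∧ x = kap U V ∧ x ≤ c}.Finite := by
    refine (hF1.biUnion (fun U' _ => ((F U').finite_toSet.image (fun T => kap U' T)))).subset ?_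
    rintro x ⟨U, V, a1, a2, q, rfl, hx⟩
    obtain ⟨g, hg, htr⟩ := hM U
    have hUL : U ∈ L := a1.2.1
    have hVL : V ∈ L := a2.2.1
    have hgU : g • U ∈ {U | U ∈ L ∧ |U.tr| ≤ M} := ⟨hL.inv g hg U hUL, htr⟩
    have hgV : g • V ∈ L := hL.inv g hg V hVL
    have hUV : Adj L U V := adj_trans hL.toNest (adj_symm hL.toNest a1) a2
    have hne := hQ U V q
    have hle : U ≤ -V := by
      rcases hUV.2.2 with h | h
      · exact absurd h hne
      · exact h.1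
    have hk := kap_ge U V hle
    have hb : |BB (g • V) (g • U)| ≤ 2 * |c| + 1 := by
      rw [BB_smul, BB_comm]
      have h5 : BB U V = 1 - 2 * kap U V := by unfold kap; ring
      rw [h5, abs_le]
      have h6 := le_abs_self c
      have h7 := abs_nonneg c
      constructor <;> linarith
    obtain ⟨T', hT', e⟩ := hF (g • U) hgU (g • V) hgV hb
    rw [kap_smul] at e
    refine Set.mem_biUnion hgU ?_
    exact ⟨T', hT', e.symm⟩
  have hWn : {x : ℝ | ∃ U V, Adj L S U ∧ Adj L S V ∧ Q U V ∧ x = kap U V ∧ x ≤ c}.Nonempty :=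
    ⟨c, U0, V0, h1, h2, h3, hc, le_rfl⟩
  obtain ⟨x, ⟨H, H', g1, g2, g3, g4, g5⟩, hmin⟩ := Set.exists_min_image _ id hW hWn
  refine ⟨H, H', g1, g2, g3, fun U V a b q => ?_⟩
  rw [← g4]
  by_cases hle : kap U V ≤ c
  · exact hmin (kap U V) ⟨U, V, a, b, q, rfl, hle⟩
  · exact g5.trans (not_le.mp hle).le

theorem near_mixed {A : Subgroup GG} {L : Set Arc} (hA : Fuchs A) (hL : Fam A L) (S T : Arc)
    (hT : Adj L S T) (hm : ∀ a ∈ A, a • S ≠ T) :
    ∃ H H', Adj L S H ∧ Adj L S H' ∧ (∀ a ∈ A, a • H ≠ H') ∧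
      ∀ U V, Adj L S U → Adj L S V → (∀ a ∈ A, a • U ≠ V) → kap H H' ≤ kap U V :=
  c2_min hA hL S (fun U V => ∀ a ∈ A, a • U ≠ V)
    (fun U V h e => h 1 A.one_mem (by rw [one_smul, e])) S T ⟨hT.1, hT.1, Or.inl rfl⟩ hT hm

end Pool.Agent.H100R2.SC
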