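import Pool.Agent.H100R2.SC.B1
import Pool.Agent.H100R2.SC.B5
import Pool.Agent.H100R2.SC.B6
import Pool.Agent.H100R2.SC.B7
import Pool.Agent.H100R2.SC.B8
import Pool.Agent.H100R2.SC.A2
import Pool.Agent.H100R2.SC.A6
import Pool.Agent.H100R2.SC.T1
import Pool.Agent.H100R2.SC.C4

set_option autoImplicit false

namespace Pool.Agent.H100R2.SC

namespace C6aux

variable {A : Subgroup GG} {L : Set Arc}

theorem cls_disj (hL : Nest L) {H T U : Arc} (hT : Adj L H T) (hU : Adj L H U) (hne : T ≠ U) :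
    T ≤ -U := by
  have h := adj_trans hL (adj_symm hL hT) hU
  rcases h.2.2 with h | h
  · exact absurd h hne
  · exact h.1

theorem kap_self (T : Arc) : kap T T = 0 := by
  unfold kap BB
  have := T.h
  nlinarith

theorem kap_nn (hL : Nest L) {H T U : Arc} (hT : Adj L H T) (hU : Adj L H U) : 0 ≤ kap T U := by
  by_cases hne : T = U
  · rw [hne, kap_self]
  · linarith [kap_ge T U (cls_disj hL hT hU hne)]

theorem Del_trans2 (S T U V : Arc) (h1 : S ≤ -T) (h2 : S ≤ -U) (h3 : S ≤ -V) (h4 : T ≤ -U)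
    (h5 : T ≤ -V) (h6 : U ≤ -V) (c1 : 0 < Del S T U) (c2 : 0 < Del S U V) : 0 < Del T U V := by
  have a := Del_trans U V S T h6 (Arc.le_neg_comm h2) (Arc.le_neg_comm h4) (Arc.le_neg_comm h3)
    (Arc.le_neg_comm h5) h1 (by rw [← Del_rot S U V]; exact c2)
    (by rw [Del_rot U S T]; exact c1)
  rw [Del_rot T U V]
  exact a

theorem Del_l (S T : Arc) : Del S S T = 0 := by unfold Del; ring
theorem Del_r (S T : Arc) : Del S T T = 0 := by unfold Del; ring
theorem Del_m (S T : Arc) : Del S T S = 0 := by unfold Del; ring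

theorem self_neg {T : Arc} (h : T ≤ -T) : False := Arc.not_le_and (le_refl T) h

theorem mem_inv_smul (g : GG) (S T : Arc) (h : g • S = T) : g⁻¹ • T = S := by
  rw [← h, inv_smul_smul]

/-- one gap of the chain -/
theorem gapStep (hL : Nest L) {H H' : Arc} (h : Adj L H H') (hm : ∀ a ∈ A, a • H ≠ H')
    (hmin : ∀ a ∈ A, ∀ b ∈ A, Adj L H (a • H) → Adj L H (b • H') → kap H H' ≤ kap (a • H) (b • H'))
    (c : GG) (hcA : c ∈ A) (hc : Adj L H (c • H)) (hc' : Adj L H (c • H')) (K : Arc)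
    (hK : Adj L H K) (T T' : Arc)
    (hTT : (T = c • H ∧ T' = c • H') ∨ (T = c • H' ∧ T' = c • H))
    (hKT : K ≠ T) (hKT' : K ≠ T') (hKH : K ≠ H) (hKH' : K ≠ H') (hgap : 0 < Del T K T')
    (pH : H = T ∨ H = T' ∨ 0 < Del T' H T) (pH' : H' = T ∨ H' = T' ∨ 0 < Del T' H' T) :
    kap K (c • H) + kap K (c • H') < kap K H + kap K H' ∨ (c • H = H ∧ c • H' = H') := by
  have hHH : Adj L H H := ⟨h.1, h.1, Or.inl rfl⟩
  have hne : H ≠ H' := by
    have := hm 1 A.one_mem
    rwa [one_smul] at this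
  have hm1 : 1 ≤ kap H H' := kap_ge H H' (cls_disj hL hHH h hne)
  have hcne : c • H ≠ c • H' := fun e => hne (smul_left_cancel c e)
  have hm2 : ∀ a ∈ A, a • H' ≠ H := by
    intro a ha e
    exact hm a⁻¹ (A.inv_mem ha) (mem_inv_smul a H' H e)
  have hT : Adj L H T := by
    rcases hTT with ⟨e, -⟩ | ⟨e, -⟩
    · rw [e]; exact hc
    · rw [e]; exact hc'
  have hT' : Adj L H T' := by
    rcases hTT with ⟨-, e⟩ | ⟨-, e⟩
    · rw [e]; exact hc'
    · rw [e]; exact hc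
  have hTT'ne : T ≠ T' := by
    rcases hTT with ⟨e, e'⟩ | ⟨e, e'⟩
    · rw [e, e']; exact hcne
    · rw [e, e']; exact hcne.symm
  have hkTT : kap T T' = kap H H' := by
    rcases hTT with ⟨e, e'⟩ | ⟨e, e'⟩
    · rw [e, e', kap_smul]
    · rw [e, e', kap_smul, kap_comm]
  have hq : ∀ V, Adj L H V → V ≠ K → V ≠ T → V ≠ T' → 0 < Del T' V T →
      kap T K * kap T' V + kap K T' * kap V T < kap H H' * kap K V := by
    intro V hV n1 n2 n3 hp
    have := quad T K T' V (cls_disj hL hT hK hKT.symm) (cls_disj hL hT hT' hTT'ne)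
      (cls_disj hL hT hV n2.symm) (cls_disj hL hK hT' hKT') (cls_disj hL hK hV n1.symm)
      (cls_disj hL hT' hV n3.symm) hgap hp
    rwa [hkTT] at this
  have hDne : ∀ V, 0 < Del T' V T → V ≠ T ∧ V ≠ T' := by
    intro V hV
    constructor
    · rintro rfl; rw [Del_r] at hV; exact lt_irrefl _ hV
    · rintro rfl; rw [Del_l] at hV; exact lt_irrefl _ hV
  have k1 : 0 ≤ kap T K := kap_nn hL hT hK
  have k2 : 0 ≤ kap K T' := kap_nn hL hK hT'
  have mix1 : kap H H' ≤ kap H (c • H') := by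
    have := hmin 1 A.one_mem c hcA (by rw [one_smul]; exact hHH) hc'
    rwa [one_smul] at this
  have mix2 : kap H H' ≤ kap (c • H) H' := by
    have := hmin c hcA 1 A.one_mem hc (by rw [one_smul]; exact h)
    rwa [one_smul] at this
  have pos : 0 < kap H H' := by linarith
  -- part H
  have partH : kap K (c • H) < kap K H ∨ c • H = H := by
    rcases pH with e | e | hp
    · rcases hTT with ⟨e1, e2⟩ | ⟨e1, e2⟩
      · right; rw [← e1, ← e]
      · exact absurd (by rw [← e1, ← e] : c • H' = H) (hm2 c hcA)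
    · rcases hTT with ⟨e1, e2⟩ | ⟨e1, e2⟩
      · exact absurd (by rw [← e2, ← e] : c • H' = H) (hm2 c hcA)
      · right; rw [← e2, ← e]
    · left
      obtain ⟨n1, n2⟩ := hDne H hp
      have q := hq H hHH hKH.symm n1 n2 hp
      have k3 : 0 ≤ kap T' H := kap_nn hL hT' hHH
      have k4 : 0 ≤ kap H T := kap_nn hL hHH hT
      rcases hTT with ⟨e1, e2⟩ | ⟨e1, e2⟩
      · have hx : kap H H' ≤ kap T' H := by rw [e2, kap_comm (c • H') H]; exact mix1
        have : kap T K * kap H H' < kap H H' * kap K H := by nlinarith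
        rw [← e1, kap_comm K T]
        nlinarith
      · have hx : kap H H' ≤ kap H T := by rw [e1]; exact mix1
        have : kap K T' * kap H H' < kap H H' * kap K H := by nlinarith
        rw [← e2]
        nlinarith
  have partH' : kap K (c • H') < kap K H' ∨ c • H' = H' := by
    rcases pH' with e | e | hp
    · rcases hTT with ⟨e1, e2⟩ | ⟨e1, e2⟩
      · exact absurd (by rw [← e1, ← e] : c • H = H') (hm c hcA)
      · right; rw [← e1, ← e]
    · rcases hTT with ⟨e1, e2⟩ | ⟨e1, e2⟩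
      · right; rw [← e2, ← e]
      · exact absurd (by rw [← e2, ← e] : c • H = H') (hm c hcA)
    · left
      obtain ⟨n1, n2⟩ := hDne H' hp
      have q := hq H' h hKH'.symm n1 n2 hp
      have k3 : 0 ≤ kap T' H' := kap_nn hL hT' h
      have k4 : 0 ≤ kap H' T := kap_nn hL h hT
      rcases hTT with ⟨e1, e2⟩ | ⟨e1, e2⟩
      · have hx : kap H H' ≤ kap H' T := by rw [e1, kap_comm H' (c • H)]; exact mix2
        have : kap K T' * kap H H' < kap H H' * kap K H' := by nlinarith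
        rw [← e2]
        nlinarith
      · have hx : kap H H' ≤ kap T' H' := by rw [e2]; exact mix2
        have : kap T K * kap H H' < kap H H' * kap K H' := by nlinarith
        rw [← e1, kap_comm K T]
        nlinarith
  rcases partH with a | a
  · rcases partH' with b | b
    · left; linarith
    · left; rw [b]; linarith
  · rcases partH' with b | b
    · left; rw [a]; linarith
    · right; exact ⟨a, b⟩

/-- the class-preserving generators -/
theorem gapLemma (hA : Fuchs A) (hL : Fam A L) (H H' : Arc)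
    (h : Adj L H H') (hm : ∀ a ∈ A, a • H ≠ H') (α β : GG) (gα : IsGen A H α)
    (gβ : IsGen A H' β) (D : Arc) (hD : D = ax (β * α)⁻¹) (hDa : Adj L H D)
    (hmin : ∀ a ∈ A, ∀ b ∈ A, Adj L H (a • H) → Adj L H (b • H') → kap H H' ≤ kap (a • H) (b • H'))
    (A0 : Subgroup GG) (hA0 : A0 ≤ A) (hαA0 : α ∈ A0) (hβA0 : β ∈ A0)
    (hcl : ∀ c ∈ A0, ∀ T, Adj L H T → Adj L H (c • T)) (K : Arc) (hK : Adj L H K)
    (hKP : ∀ c ∈ A0, kap K H + kap K H' ≤ kap K (c • H) + kap K (c • H'))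
    (n1 : ∀ c ∈ A0, K ≠ c • H) (n2 : ∀ c ∈ A0, K ≠ c • H') (n3 : K ≠ D) : 0 < Del H' K H := by
  have hN : Nest L := hL.toNest
  have hHH : Adj L H H := ⟨h.1, h.1, Or.inl rfl⟩
  have hne : H ≠ H' := by
    have := hm 1 A.one_mem
    rwa [one_smul] at this
  obtain ⟨hba, d1, d2, d3, d4, c1, c2, c3⟩ := loc1 hA hL H H' h hne α β gα.1 gβ.1 gα.2.1 gβ.2.1
    gα.2.2.1 gβ.2.2.1 D hD
  have hα2 : 4 < trc α ^ 2 := hyp hA gα.1 gα.2.1
  have hβ2 : 4 < trc β ^ 2 := hyp hA gβ.1 gβ.2.1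
  have hαH : α • H = H := by
    have := ax_smul α (hA.det1 α gα.1) hα2
    rwa [gα.2.2.1] at this
  have hβH' : β • H' = H' := by
    have := ax_smul β (hA.det1 β gβ.1) hβ2
    rwa [gβ.2.2.1] at this
  set δ := (β * α)⁻¹ with hδ
  have hδ0 : δ ∈ A0 := A0.inv_mem (A0.mul_mem hβA0 hαA0)
  have hδA : δ ∈ A := hA0 hδ0
  have hδ1 : dt δ = 1 := hA.det1 δ hδA
  have hδne : δ ≠ 1 := by
    intro e
    apply hba
    rw [hδ, inv_eq_one] at e
    exact e
  have hδ2 : 4 < trc δ ^ 2 := hyp hA hδA hδne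
  have hδD : δ • D = D := by
    have := ax_smul δ hδ1 hδ2
    rwa [← hD] at this
  have hzD : ∀ n : ℤ, δ ^ n • D = D := by
    intro n
    have h1 : δ ∈ MulAction.stabilizer GG D := hδD
    exact (MulAction.stabilizer GG D).zpow_mem h1 n
  have hz0 : ∀ n : ℤ, δ ^ n ∈ A0 := fun n => A0.zpow_mem hδ0 n
  have hzdt : ∀ n : ℤ, 0 < dt (δ ^ n) := by
    intro n
    rw [hA.det1 _ (hA0 (hz0 n))]
    exact one_pos
  have hδH' : δ • H' = α⁻¹ • H' := by
    rw [hδ, mul_inv_rev, mul_smul, mem_inv_smul β H' H' hβH']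
  have hg : ∀ n : ℤ, Adj L H (δ ^ n • H') := fun n => hcl _ (hz0 n) _ h
  have hh : ∀ n : ℤ, Adj L H (δ ^ n • H) := fun n => hcl _ (hz0 n) _ hHH
  have hHD : H ≠ D := by
    rintro e
    rw [e] at d1
    exact self_neg d1
  have hHD' : H' ≠ D := by
    rintro e
    rw [e] at d2
    exact self_neg d2
  have hgD : ∀ n : ℤ, δ ^ n • H' ≠ D := by
    intro n e
    have : δ ^ n • H' = δ ^ n • D := by rw [e, hzD]
    exact hHD' (smul_left_cancel _ this)
  have hhD : ∀ n : ℤ, δ ^ n • H ≠ D := by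
    intro n e
    have : δ ^ n • H = δ ^ n • D := by rw [e, hzD]
    exact hHD (smul_left_cancel _ this)
  have hβHc : Adj L H (β • H) := hcl β hβA0 H hHH
  have hβHne : β • H ≠ H := by
    intro e
    rw [e, Del_m] at c2
    exact lt_irrefl _ c2
  have hβHne' : β • H ≠ H' := hm β gβ.1
  -- base order
  have base1 : 0 < Del D H' H := by
    have := Del_trans H D (β • H) H' (cls_disj hN hHH hDa hHD) (cls_disj hN hHH hβHc hβHne.symm)
      (cls_disj hN hHH h hne) d4 d2 (cls_disj hN hβHc h hβHne') c2 c3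
    rwa [Del_rot] at this
  have base2 : 0 < Del D H (δ • H') := by
    rw [hδH', Del_rot]
    exact c1
  let r : Arc → Arc → Prop := fun T U => (Adj L H T ∧ T ≠ D) ∧ (Adj L H U ∧ U ≠ D) ∧ 0 < Del D T U
  have rtrans : ∀ T U V, r T U → r U V → r T V := by
    rintro T U V ⟨⟨t1, t2⟩, ⟨u1, u2⟩, p⟩ ⟨-, ⟨v1, v2⟩, q⟩
    refine ⟨⟨t1, t2⟩, ⟨v1, v2⟩, ?_⟩
    have hTU : T ≠ U := by rintro rfl; rw [Del_r] at p; exact lt_irrefl _ p
    have hUV : U ≠ V := by rintro rfl; rw [Del_r] at q; exact lt_irrefl _ q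
    have hTV : T ≠ V := by
      rintro rfl
      rw [Del_swap] at q
      linarith
    exact Del_trans D T U V (cls_disj hN hDa t1 t2.symm) (cls_disj hN hDa u1 u2.symm)
      (cls_disj hN hDa v1 v2.symm) (cls_disj hN t1 u1 hTU) (cls_disj hN t1 v1 hTV)
      (cls_disj hN u1 v1 hUV) p q
  have : IsTrans Arc r := ⟨rtrans⟩
  have rgh : ∀ n : ℤ, r (δ ^ n • H') (δ ^ n • H) := by
    intro n
    refine ⟨⟨hg n, hgD n⟩, ⟨hh n, hhD n⟩, ?_⟩
    have := Del_smul_pos (δ ^ n) (hzdt n) D H' H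
    rw [hzD] at this
    rw [this]
    exact base1
  have rhg : ∀ n : ℤ, r (δ ^ n • H) (δ ^ (n + 1) • H') := by
    intro n
    refine ⟨⟨hh n, hhD n⟩, ⟨hg (n + 1), hgD (n + 1)⟩, ?_⟩
    have := Del_smul_pos (δ ^ n) (hzdt n) D H (δ • H')
    rw [hzD, ← mul_smul, ← zpow_add_one] at this
    rw [this]
    exact base2
  have rgg : ∀ m n : ℤ, m < n → r (δ ^ m • H') (δ ^ n • H') := by
    intro m n hmn
    exact Int.rel_of_forall_rel_succ_of_lt r (f := fun k : ℤ => δ ^ k • H')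
      (fun k => rtrans _ _ _ (rgh k) (rhg k)) hmn
  have rhh : ∀ m n : ℤ, m < n → r (δ ^ m • H) (δ ^ n • H) := by
    intro m n hmn
    exact Int.rel_of_forall_rel_succ_of_lt r (f := fun k : ℤ => δ ^ k • H)
      (fun k => rtrans _ _ _ (rhg k) (rgh (k + 1))) hmn
  have rgh' : ∀ m n : ℤ, m ≤ n → r (δ ^ m • H') (δ ^ n • H) := by
    intro m n hmn
    rcases hmn.eq_or_lt with e | e
    · rw [e]; exact rgh n
    · exact rtrans _ _ _ (rgg m n e) (rgh n)
  have rhg' : ∀ m n : ℤ, m < n → r (δ ^ m • H) (δ ^ n • H') := by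
    intro m n hmn
    have e : m + 1 ≤ n := hmn
    rcases e.eq_or_lt with e | e
    · rw [← e]; exact rhg m
    · exact rtrans _ _ _ (rhg m) (rgg _ _ e)
  have hH0 : δ ^ (0 : ℤ) • H = H := by rw [zpow_zero, one_smul]
  have hH0' : δ ^ (0 : ℤ) • H' = H' := by rw [zpow_zero, one_smul]
  -- order positions
  have pos1 : ∀ V T T', r V T → r T T' → 0 < Del T' V T := by
    rintro V T T' ⟨⟨v1, v2⟩, ⟨t1, t2⟩, p⟩ ⟨-, ⟨u1, u2⟩, q⟩
    obtain ⟨-, -, s⟩ := rtrans V T T' ⟨⟨v1, v2⟩, ⟨t1, t2⟩, p⟩ ⟨⟨t1, t2⟩, ⟨u1, u2⟩, q⟩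
    have e1 : V ≠ T := by rintro rfl; rw [Del_r] at p; exact lt_irrefl _ p
    have e2 : T ≠ T' := by rintro rfl; rw [Del_r] at q; exact lt_irrefl _ q
    have e3 : V ≠ T' := by rintro rfl; rw [Del_r] at s; exact lt_irrefl _ s
    have := Del_trans2 D V T T' (cls_disj hN hDa v1 v2.symm) (cls_disj hN hDa t1 t2.symm)
      (cls_disj hN hDa u1 u2.symm) (cls_disj hN v1 t1 e1) (cls_disj hN v1 u1 e3)
      (cls_disj hN t1 u1 e2) p q
    rw [Del_rot T' V T]
    exact this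
  have pos2 : ∀ V T T', r T T' → r T' V → 0 < Del T' V T := by
    rintro V T T' ⟨⟨t1, t2⟩, ⟨u1, u2⟩, p⟩ ⟨-, ⟨v1, v2⟩, q⟩
    obtain ⟨-, -, s⟩ := rtrans T T' V ⟨⟨t1, t2⟩, ⟨u1, u2⟩, p⟩ ⟨⟨u1, u2⟩, ⟨v1, v2⟩, q⟩
    have e1 : T ≠ T' := by rintro rfl; rw [Del_r] at p; exact lt_irrefl _ p
    have e2 : T' ≠ V := by rintro rfl; rw [Del_r] at q; exact lt_irrefl _ q
    have e3 : T ≠ V := by rintro rfl; rw [Del_r] at s; exact lt_irrefl _ s
    have := Del_trans2 D T T' V (cls_disj hN hDa t1 t2.symm) (cls_disj hN hDa u1 u2.symm)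
      (cls_disj hN hDa v1 v2.symm) (cls_disj hN t1 u1 e1) (cls_disj hN t1 v1 e3)
      (cls_disj hN u1 v1 e2) p q
    rw [← Del_rot T T' V]
    exact this
  have rK : ∀ T, Adj L H T → T ≠ D → 0 < Del D T K → r T K := fun T t1 t2 p =>
    ⟨⟨t1, t2⟩, ⟨hK, n3⟩, p⟩
  have rK' : ∀ T, Adj L H T → T ≠ D → 0 < Del D K T → r K T := fun T t1 t2 p =>
    ⟨⟨hK, n3⟩, ⟨t1, t2⟩, p⟩
  have hgap : ∀ T T', r T K → r K T' → 0 < Del T K T' := by
    rintro T T' ⟨⟨t1, t2⟩, -, p⟩ ⟨-, ⟨u1, u2⟩, q⟩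
    obtain ⟨-, -, s⟩ := rtrans T K T' ⟨⟨t1, t2⟩, ⟨hK, n3⟩, p⟩ ⟨⟨hK, n3⟩, ⟨u1, u2⟩, q⟩
    have e1 : T ≠ K := by rintro rfl; rw [Del_r] at p; exact lt_irrefl _ p
    have e2 : K ≠ T' := by rintro rfl; rw [Del_r] at q; exact lt_irrefl _ q
    have e3 : T ≠ T' := by rintro rfl; rw [Del_r] at s; exact lt_irrefl _ s
    exact Del_trans2 D T K T' (cls_disj hN hDa t1 t2.symm) (cls_disj hN hDa hK n3.symm)
      (cls_disj hN hDa u1 u2.symm) (cls_disj hN t1 hK e1) (cls_disj hN t1 u1 e3)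
      (cls_disj hN hK u1 e2) p q
  have hKH : K ≠ H := by have := n1 1 A0.one_mem; rwa [one_smul] at this
  have hKH' : K ≠ H' := by have := n2 1 A0.one_mem; rwa [one_smul] at this
  -- a gap
  have main : ∀ (T T' : Arc) (c : GG), c ∈ A0 → ((T = c • H ∧ T' = c • H') ∨ (T = c • H' ∧ T' = c • H)) →
      r T K → r K T' → (H = T ∨ H = T' ∨ 0 < Del T' H T) → (H' = T ∨ H' = T' ∨ 0 < Del T' H' T) →
      0 < Del H' K H := by
    intro T T' c hc hTT r1 r2 pH pH'
    have r3 := rtrans T K T' r1 r2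
    have hKT : K ≠ T := by
      rcases hTT with ⟨e, -⟩ | ⟨e, -⟩
      · rw [e]; exact n1 c hc
      · rw [e]; exact n2 c hc
    have hKT' : K ≠ T' := by
      rcases hTT with ⟨-, e⟩ | ⟨-, e⟩
      · rw [e]; exact n2 c hc
      · rw [e]; exact n1 c hc
    rcases gapStep hN h hm hmin c (hA0 hc) (hcl c hc _ hHH) (hcl c hc _ h) K hK T T' hTT hKT hKT' hKH hKH'
      (hgap T T' r1 r2) pH pH' with e | ⟨e1, e2⟩
    · have := hKP c hc
      linarith
    · rcases hTT with ⟨e, e'⟩ | ⟨e, e'⟩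
      · exfalso
        rw [e, e', e1, e2] at r3
        have q := r3.2.2
        rw [Del_swap] at q
        linarith
      · rw [e, e2] at r1
        rw [e', e1] at r2
        exact hgap H' H r1 r2
  have hd : H' ≤ -(δ • H') := by
    apply cls_disj hN h (hcl δ hδ0 _ h)
    intro e
    rw [← e] at base2
    rw [Del_swap] at base2
    linarith
  obtain ⟨n, hn⟩ := shift_cover δ hδ1 hδ2 H' K (by rw [← hD]; exact Arc.le_neg_comm d2)
    (by rw [← hD]; exact cls_disj hN hK hDa n3) hd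
    (fun n hn => cls_disj hN (hg n) hK hn)
  rcases hn with hn | ⟨hn1, hn2⟩
  · exact absurd hn (n2 _ (hz0 n))
  · rw [← hD] at hn1 hn2
    have ra := rK _ (hg n) (hgD n) hn1
    have rb := rK' _ (hg (n + 1)) (hgD (n + 1)) hn2
    have hKhn : K ≠ δ ^ n • H := n1 _ (hz0 n)
    rcases lt_or_gt_of_ne (Del_ne D K (δ ^ n • H) (cls_disj hN hDa hK n3.symm)
      (cls_disj hN hDa (hh n) (hhD n).symm) (cls_disj hN hK (hh n) hKhn)) with q | q
    · -- K after δ^n H
      have q' : 0 < Del D (δ ^ n • H) K := by rw [Del_swap]; linarith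
      have rc := rK _ (hh n) (hhD n) q'
      refine main (δ ^ n • H) (δ ^ (n + 1) • H') (δ ^ n * α⁻¹)
        (A0.mul_mem (hz0 n) (A0.inv_mem hαA0)) (Or.inl ⟨?_, ?_⟩) rc rb ?_ ?_
      · rw [mul_smul, mem_inv_smul α H H hαH]
      · rw [mul_smul, ← hδH', zpow_add_one, mul_smul]
      · rcases lt_trichotomy n 0 with e | e | e
        · right
          rcases (show n + 1 ≤ 0 from e).eq_or_lt with e' | e'
          · right
            apply pos2 _ _ _ (rhg n)
            have := rgh' (n + 1) 0 e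
            rwa [hH0] at this
          · right
            apply pos2 _ _ _ (rhg n)
            have := rgh' (n + 1) 0 e
            rwa [hH0] at this
        · left; rw [e, hH0]
        · right; right
          apply pos1 _ _ _ _ (rhg n)
          have := rhh 0 n e
          rwa [hH0] at this
      · rcases lt_trichotomy n (-1) with e | e | e
        · right; right
          apply pos2 _ _ _ (rhg n)
          have := rgg (n + 1) 0 (by omega)
          rwa [hH0'] at this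
        · right; left
          rw [e]
          simp
        · right; right
          apply pos1 _ _ _ _ (rhg n)
          have := rgh' 0 n (by omega)
          rwa [hH0'] at this
    · have rc := rK' _ (hh n) (hhD n) q
      refine main (δ ^ n • H') (δ ^ n • H) (δ ^ n) (hz0 n) (Or.inr ⟨rfl, rfl⟩) ra rc ?_ ?_
      · rcases lt_trichotomy n 0 with e | e | e
        · right; right
          apply pos2 _ _ _ (rgh n)
          have := rhh n 0 e
          rwa [hH0] at this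
        · right; left; rw [e, hH0]
        · right; right
          apply pos1 _ _ _ _ (rgh n)
          have := rhg' 0 n e
          rwa [hH0] at this
      · rcases lt_trichotomy n 0 with e | e | e
        · right; right
          apply pos2 _ _ _ (rgh n)
          have := rhg' n 0 e
          rwa [hH0'] at this
        · left; rw [e, hH0']
        · right; right
          apply pos1 _ _ _ _ (rgh n)
          have := rgg 0 n e
          rwa [hH0'] at this

/-- minimal element of the orbit -/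
theorem exists_min (hA : Fuchs A) (hL : Fam A L) (H H' K : Arc) (h : Adj L H H') (hK : Adj L H K)
    (A0 : Subgroup GG) (hcl : ∀ c ∈ A0, ∀ T, Adj L H T → Adj L H (c • T)) :
    ∃ c0 ∈ A0, ∀ c ∈ A0, kap K (c0 • H) + kap K (c0 • H') ≤ kap K (c • H) + kap K (c • H') := by
  classical
  have hN : Nest L := hL.toNest
  have hHH : Adj L H H := ⟨h.1, h.1, Or.inl rfl⟩
  set f : GG → ℝ := fun c => kap K (c • H) + kap K (c • H') with hf
  obtain ⟨γ, hγ, hγ1, hγK⟩ := hL.axs K hK.2.1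
  have hγ2 := hyp hA hγ hγ1
  have hγd := hA.det1 γ hγ
  obtain ⟨F, hF, hF2⟩ := dbl γ hγd hγ2 L (fun n T hT => hL.inv _ (A.zpow_mem hγ n) T hT) hL.lf
    (fun T hT ξ e1 e2 => by rw [hγK] at e1 ⊢; exact hL.ne T hT K hK.2.1 ξ e2 e1) (2 * f 1 + 1)
  have hγK' : ∀ n : ℤ, γ ^ n • K = K := by
    intro n
    have h1 : γ ∈ MulAction.stabilizer GG K := by
      have := ax_smul γ hγd hγ2
      rw [hγK] at this
      exact this
    exact (MulAction.stabilizer GG K).zpow_mem h1 n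
  have key : ∀ T, Adj L H T → kap K T ≤ f 1 → kap K T ∈ (F.image (fun T' => kap K T') : Finset ℝ) := by
    intro T hT hle
    have h0 := kap_nn hN hK hT
    have hB : BB T K = 1 - 2 * kap K T := by rw [BB_comm]; unfold kap; ring
    have habs : |BB T (ax γ)| ≤ 2 * f 1 + 1 := by
      rw [hγK, hB, abs_le]
      constructor <;> linarith
    obtain ⟨n, T', hT', e⟩ := hF2 T hT.2.1 habs
    rw [Finset.mem_image]
    refine ⟨T', hT', ?_⟩
    rw [e, ← kap_smul (γ ^ n) K T', hγK']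
  set I : Finset ℝ := F.image (fun T' => kap K T') with hI
  have hfin : {v : ℝ | ∃ c ∈ A0, v = f c ∧ f c ≤ f 1}.Finite := by
    apply ((I ×ˢ I).image (fun p => p.1 + p.2)).finite_toSet.subset
    rintro v ⟨c, hc, rfl, hle⟩
    rw [Finset.mem_coe, Finset.mem_image]
    have h1 := kap_nn hN hK (hcl c hc _ hHH)
    have h2 := kap_nn hN hK (hcl c hc _ h)
    have hle' : kap K (c • H) + kap K (c • H') ≤ f 1 := hle
    refine ⟨(kap K (c • H), kap K (c • H')), ?_, rfl⟩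
    rw [Finset.mem_product]
    exact ⟨key _ (hcl c hc _ hHH) (by linarith), key _ (hcl c hc _ h) (by linarith)⟩
  have hne : {v : ℝ | ∃ c ∈ A0, v = f c ∧ f c ≤ f 1}.Nonempty := ⟨f 1, 1, A0.one_mem, rfl, le_refl _⟩
  obtain ⟨v, ⟨c0, hc0, hv, hv1⟩, hmin⟩ := Set.exists_min_image _ id hfin hne
  refine ⟨c0, hc0, ?_⟩
  intro c hc
  by_cases hle : f c ≤ f 1
  · have := hmin (f c) ⟨c, hc, rfl, hle⟩
    simp only [id] at this
    rw [hv] at this
    exact this
  · have : f c0 ≤ f c := by linarith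
    exact this

theorem trc_inv (α : GG) (h : dt α = 1) : trc α⁻¹ = trc α := by
  have e : ((α⁻¹ : GG) : Matrix (Fin 2) (Fin 2) ℝ) = (α : Matrix (Fin 2) (Fin 2) ℝ)⁻¹ := by
    simp
  unfold trc
  rw [e, Matrix.inv_def]
  have h' : (α : Matrix (Fin 2) (Fin 2) ℝ).det = 1 := h
  rw [h', Ring.inverse_one, one_smul, Matrix.adjugate_fin_two]
  simp
  ring

theorem dt_inv (α : GG) (h : dt α = 1) : dt α⁻¹ = 1 := by
  have := dt_mul α α⁻¹
  rw [mul_inv_cancel, dt_one, h, one_mul] at this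
  exact this.symm

end C6aux

open C6aux in
theorem pantsRefl {A : Subgroup GG} {L : Set Arc} (hA : Fuchs A) (hL : Fam A L) (H H' : Arc)
    (h : Adj L H H') (hm : ∀ a ∈ A, a • H ≠ H') (α β : GG) (gα : IsGen A H α)
    (gβ : IsGen A H' β) (D : Arc) (hD : D = ax (β * α)⁻¹) (hDa : Adj L H D)
    (hmin : ∀ a ∈ A, ∀ b ∈ A, Adj L H (a • H) → Adj L H (b • H') → kap H H' ≤ kap (a • H) (b • H')) :
    Refl A L H := by
  have hN : Nest L := hL.toNest
  have hHH : Adj L H H := ⟨h.1, h.1, Or.inl rfl⟩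
  have hne : H ≠ H' := by
    have := hm 1 A.one_mem
    rwa [one_smul] at this
  have hα2 : 4 < trc α ^ 2 := hyp hA gα.1 gα.2.1
  have hβ2 : 4 < trc β ^ 2 := hyp hA gβ.1 gβ.2.1
  have hα1 := hA.det1 α gα.1
  have hβ1 := hA.det1 β gβ.1
  have hαH : α • H = H := by
    have := ax_smul α hα1 hα2
    rwa [gα.2.2.1] at this
  have hβH' : β • H' = H' := by
    have := ax_smul β hβ1 hβ2
    rwa [gβ.2.2.1] at this
  have hm2 : ∀ a ∈ A, a • H' ≠ H := by
    intro a ha e
    exact hm a⁻¹ (A.inv_mem ha) (mem_inv_smul a H' H e)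
  -- the subgroup generated by α, β
  set A0 : Subgroup GG := Subgroup.closure {α, β} with hA0def
  have hαA0 : α ∈ A0 := Subgroup.subset_closure (by simp)
  have hβA0 : β ∈ A0 := Subgroup.subset_closure (by simp)
  have hA0 : A0 ≤ A := by
    rw [hA0def, Subgroup.closure_le]
    intro x hx
    rcases hx with rfl | hx
    · exact gα.1
    · rw [Set.mem_singleton_iff] at hx; rw [hx]; exact gβ.1
  have hcl' : ∀ c ∈ A0, ∀ T, Adj L H (c • T) ↔ Adj L H T := by
    intro c hc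
    induction hc using Subgroup.closure_induction with
    | mem x hx =>
      intro T
      rcases hx with rfl | hx
      · have := adj_smul hL gα.1 (S := H) (T := T)
        rwa [hαH] at this
      · rw [Set.mem_singleton_iff] at hx
        subst hx
        have := adj_smul hL gβ.1 (S := H') (T := T)
        rw [hβH'] at this
        constructor
        · intro e
          exact adj_trans hN h (this.mp (adj_trans hN (adj_symm hN h) e))
        · intro e
          exact adj_trans hN h (this.mpr (adj_trans hN (adj_symm hN h) e))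
    | one => intro T; rw [one_smul]
    | mul x y _ _ hx hy => intro T; rw [mul_smul, hx, hy]
    | inv x _ hx => intro T; rw [← hx (x⁻¹ • T), smul_inv_smul]
  have hcl : ∀ c ∈ A0, ∀ T, Adj L H T → Adj L H (c • T) := fun c hc T e => (hcl' c hc T).mpr e
  -- the other axis
  have hDα : α • D = ax (α * β)⁻¹ := by
    have hba1 : dt (β * α)⁻¹ = 1 := by
      apply dt_inv
      rw [dt_mul, hα1, hβ1, one_mul]
    obtain ⟨hba, -⟩ := loc1 hA hL H H' h hne α β gα.1 gβ.1 gα.2.1 gβ.2.1 gα.2.2.1 gβ.2.2.1 D hD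
    have hba2 : 4 < trc (β * α)⁻¹ ^ 2 :=
      hyp hA (A.inv_mem (A.mul_mem gβ.1 gα.1)) (fun e => hba (inv_eq_one.mp e))
    rw [hD, ← ax_conj_pos α _ (by rw [hα1]; exact one_pos) hba1 hba2]
    congr 1
    group
  -- the claim
  have claim : ∀ K, Adj L H K → ∃ c ∈ A0, K = c • H ∨ K = c • H' ∨ K = c • D := by
    intro K hK
    by_contra hcon
    push Not at hcon
    obtain ⟨c0, hc0, hmin0⟩ := exists_min hA hL H H' K h hK A0 hcl
    set K1 := c0⁻¹ • K with hK1
    have hK1a : Adj L H K1 := hcl _ (A0.inv_mem hc0) _ hK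
    have hKe : ∀ c T, kap K1 (c • T) = kap K ((c0 * c) • T) := by
      intro c T
      rw [hK1, ← kap_smul c0, smul_inv_smul, mul_smul]
    have hKP : ∀ c ∈ A0, kap K1 H + kap K1 H' ≤ kap K1 (c • H) + kap K1 (c • H') := by
      intro c hc
      have e1 := hKe 1 H
      have e2 := hKe 1 H'
      rw [one_smul, mul_one] at e1 e2
      rw [e1, e2, hKe, hKe]
      exact hmin0 _ (A0.mul_mem hc0 hc)
    have hKn : ∀ c ∈ A0, ∀ T, (∀ c ∈ A0, K ≠ c • T) → K1 ≠ c • T := by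
      intro c hc T hT e
      apply hT (c0 * c) (A0.mul_mem hc0 hc)
      rw [mul_smul, ← e, hK1, smul_inv_smul]
    have n1 : ∀ c ∈ A0, K1 ≠ c • H := fun c hc => hKn c hc H (fun c hc => (hcon c hc).1)
    have n2 : ∀ c ∈ A0, K1 ≠ c • H' := fun c hc => hKn c hc H' (fun c hc => (hcon c hc).2.1)
    have n3 : ∀ c ∈ A0, K1 ≠ c • D := fun c hc => hKn c hc D (fun c hc => (hcon c hc).2.2)
    have g1 := gapLemma hA hL H H' h hm α β gα gβ D hD hDa hmin A0 hA0 hαA0 hβA0 hcl K1 hK1a hKP n1 n2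
      (by have := n3 1 A0.one_mem; rwa [one_smul] at this)
    have g2 := gapLemma hA hL H' H (adj_symm hN h) hm2 β α gβ gα (α • D) hDα
      (adj_trans hN (adj_symm hN h) (hcl α hαA0 _ hDa))
      (fun a ha b hb ea eb => by
        rw [kap_comm H' H, kap_comm (a • H') (b • H)]
        exact hmin b hb a ha (adj_trans hN h eb) (adj_trans hN h ea))
      A0 hA0 hβA0 hαA0
      (fun c hc T e => adj_trans hN (adj_symm hN h) (hcl c hc T (adj_trans hN h e)))
      K1 (adj_trans hN (adj_symm hN h) hK1a)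
      (fun c hc => by have := hKP c hc; linarith) n2 n1 (n3 α hαA0)
    rw [Del_swap, Del_rot H H' K1] at g2
    linarith
  -- the stabilizer of the class
  have stab : ∀ c ∈ A, Adj L H (c • H) → c ∈ A0 := by
    intro c hcA hc
    have hc' : Adj L H (c • H') := adj_trans hN hc ((adj_smul hL hcA).mpr h)
    obtain ⟨a, ha, e | e | e⟩ := claim _ hc
    · have h1 : (a⁻¹ * c) • H = H := by rw [mul_smul, e, inv_smul_smul]
      obtain ⟨n, hn⟩ := gα.2.2.2 (a⁻¹ * c) (A.mul_mem (A.inv_mem (hA0 ha)) hcA) h1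
      have : c = a * α ^ n := by rw [← hn]; group
      rw [this]
      exact A0.mul_mem ha (A0.zpow_mem hαA0 n)
    · exfalso
      apply hm (a⁻¹ * c) (A.mul_mem (A.inv_mem (hA0 ha)) hcA)
      rw [mul_smul, e, inv_smul_smul]
    · obtain ⟨b, hb, e' | e' | e'⟩ := claim _ hc'
      · exfalso
        apply hm2 (b⁻¹ * c) (A.mul_mem (A.inv_mem (hA0 hb)) hcA)
        rw [mul_smul, e', inv_smul_smul]
      · have h1 : (b⁻¹ * c) • H' = H' := by rw [mul_smul, e', inv_smul_smul]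
        obtain ⟨n, hn⟩ := gβ.2.2.2 (b⁻¹ * c) (A.mul_mem (A.inv_mem (hA0 hb)) hcA) h1
        have : c = b * β ^ n := by rw [← hn]; group
        rw [this]
        exact A0.mul_mem hb (A0.zpow_mem hβA0 n)
      · exfalso
        apply hm (c⁻¹ * b * a⁻¹ * c)
          (A.mul_mem (A.mul_mem (A.mul_mem (A.inv_mem hcA) (hA0 hb)) (A.inv_mem (hA0 ha))) hcA)
        rw [mul_smul, e, mul_smul, inv_smul_smul, mul_smul, ← e', inv_smul_smul]
  -- the reflection
  obtain ⟨ρ, hρ1, hρH, hρH', hρρ⟩ := exists_refl H H' (BB_lt H H' (cls_disj hN hHH h hne) (by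
    rintro ξ ⟨e1, e2⟩
    rcases hL.ne H h.1 H' h.2.1 ξ e1 e2 with e | e
    · exact hne e
    · rcases h.2.2 with e' | e'
      · exact hne e'
      · exact e'.2.1 e))
  have hρneg : dt ρ < 0 := by rw [hρ1]; norm_num
  have hρinv : ρ⁻¹ = ρ := inv_eq_of_mul_eq_one_right hρρ
  have hconj : ∀ (γ : GG) (S : Arc), dt γ = 1 → 4 < trc γ ^ 2 → ax γ = S → ρ • S = S →
      ρ * γ * ρ⁻¹ = γ⁻¹ := by
    intro γ S e1 e2 e3 e4
    have a1 : dt (ρ * γ * ρ⁻¹) = 1 := by
      have hh : dt ρ * dt ρ⁻¹ = 1 := by rw [← dt_mul, mul_inv_cancel, dt_one]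
      rw [dt_mul, dt_mul, e1, mul_one]
      exact hh
    have a2 : trc (ρ * γ * ρ⁻¹) = trc γ := trc_conj ρ γ
    apply ax_inj _ _ a1 (by rw [a2]; exact e2) (dt_inv γ e1) (by rw [trc_inv γ e1]; exact e2)
    · rw [ax_conj_neg ρ γ hρneg e1 e2, e3, e4, ax_inv γ e1 e2, e3]
    · rw [a2, trc_inv γ e1]
  have hρα : ρ * α * ρ⁻¹ = α⁻¹ := hconj α H hα1 hα2 gα.2.2.1 hρH
  have hρβ : ρ * β * ρ⁻¹ = β⁻¹ := hconj β H' hβ1 hβ2 gβ.2.2.1 hρH'
  have hρA0 : ∀ c ∈ A0, ρ * c * ρ⁻¹ ∈ A0 := by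
    intro c hc
    induction hc using Subgroup.closure_induction with
    | mem x hx =>
      rcases hx with rfl | hx
      · rw [hρα]; exact A0.inv_mem hαA0
      · rw [Set.mem_singleton_iff] at hx
        rw [hx, hρβ]; exact A0.inv_mem hβA0
    | one => simp
    | mul x y _ _ hx hy =>
      have : ρ * (x * y) * ρ⁻¹ = (ρ * x * ρ⁻¹) * (ρ * y * ρ⁻¹) := by group
      rw [this]; exact A0.mul_mem hx hy
    | inv x _ hx =>
      have : ρ * x⁻¹ * ρ⁻¹ = (ρ * x * ρ⁻¹)⁻¹ := by group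
      rw [this]; exact A0.inv_mem hx
  have hρD : ρ • D = α • D := by
    have hba1 : dt (β * α)⁻¹ = 1 := by
      apply dt_inv
      rw [dt_mul, hα1, hβ1, one_mul]
    obtain ⟨hba, -⟩ := loc1 hA hL H H' h hne α β gα.1 gβ.1 gα.2.1 gβ.2.1 gα.2.2.1 gβ.2.2.1 D hD
    have hba2 : 4 < trc (β * α)⁻¹ ^ 2 :=
      hyp hA (A.inv_mem (A.mul_mem gβ.1 gα.1)) (fun e => hba (inv_eq_one.mp e))
    have e1 : ρ * (β * α)⁻¹ * ρ⁻¹ = α * β := by
      have : ρ * (β * α)⁻¹ * ρ⁻¹ = ((ρ * β * ρ⁻¹) * (ρ * α * ρ⁻¹))⁻¹ := by group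
      rw [this, hρα, hρβ]
      group
    have e2 := ax_conj_neg ρ _ hρneg hba1 hba2
    rw [e1, ← hD] at e2
    have hab : α * β ≠ 1 := by
      intro e
      apply hba
      have : β = α⁻¹ := (inv_eq_of_mul_eq_one_right e).symm
      rw [this]; group
    have hab1 : dt (α * β) = 1 := by rw [dt_mul, hα1, hβ1, one_mul]
    have hab2 : 4 < trc (α * β) ^ 2 := hyp hA (A.mul_mem gα.1 gβ.1) hab
    rw [hDα, ax_inv _ hab1 hab2, e2, neg_neg]
  refine ⟨ρ, hρneg, ?_, ?_, ?_⟩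
  · intro a ha hadj
    have h1 := hρA0 a (stab a ha hadj)
    exact ⟨hA0 h1, hcl _ h1 _ hHH⟩
  · intro a ha hadj
    have h1 := hρA0 a (stab a ha hadj)
    rw [hρinv] at h1 ⊢
    exact ⟨hA0 h1, hcl _ h1 _ hHH⟩
  · intro T hT
    obtain ⟨c, hc, e | e | e⟩ := claim T hT
    · refine ⟨ρ * c * ρ⁻¹ * c⁻¹, hA0 (A0.mul_mem (hρA0 c hc) (A0.inv_mem hc)),
        hcl _ (A0.mul_mem (hρA0 c hc) (A0.inv_mem hc)) _ hHH, ?_⟩
      rw [mul_smul, e, inv_smul_smul, mul_smul, mul_smul, mem_inv_smul ρ H H hρH]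
    · refine ⟨ρ * c * ρ⁻¹ * c⁻¹, hA0 (A0.mul_mem (hρA0 c hc) (A0.inv_mem hc)),
        hcl _ (A0.mul_mem (hρA0 c hc) (A0.inv_mem hc)) _ hHH, ?_⟩
      rw [mul_smul, e, inv_smul_smul, mul_smul, mul_smul, mem_inv_smul ρ H' H' hρH']
    · have hmem : ρ * c * ρ⁻¹ * α * c⁻¹ ∈ A0 :=
        A0.mul_mem (A0.mul_mem (hρA0 c hc) hαA0) (A0.inv_mem hc)
      refine ⟨ρ * c * ρ⁻¹ * α * c⁻¹, hA0 hmem, hcl _ hmem _ hHH, ?_⟩
      rw [mul_smul, e, inv_smul_smul, mul_smul, ← hρD, mul_smul, inv_smul_smul, mul_smul]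

end Pool.Agent.H100R2.SC
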