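import Pool.Agent.H100R2.SC.T1

set_option autoImplicit false

namespace Pool.Agent.H100R2.SC

namespace C8

/-- a nonzero vector defines a point of the circle -/
lemma pt (x y : ℝ) (h : x ≠ 0 ∨ y ≠ 0) : ∃ ξ : X, ∃ k : ℝ, 0 < k ∧ ∀ S : Arc, S.ev x y = k * S.val ξ := by
  by_cases hy : y = 0
  · subst hy
    have hx : x ≠ 0 := by
      rcases h with h | h
      · exact h
      · exact absurd rfl h
    refine ⟨OnePoint.infty, x ^ 2, by positivity, fun S => ?_⟩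
    show S.ev x 0 = x ^ 2 * S.p
    simp only [Arc.ev]
    ring
  · refine ⟨((x / y : ℝ) : X), y ^ 2, by positivity, fun S => ?_⟩
    show S.ev x y = y ^ 2 * S.ev (x / y) 1
    simp only [Arc.ev]
    field_simp

/-- the two endpoints of an arc, as vectors -/
lemma ends (S : Arc) : ∃ x y z w : ℝ, S.ev x y = 0 ∧ S.ev z w = 0 ∧ x * w - y * z ≠ 0 := by
  by_cases hp : S.p = 0
  · have hq : S.q ^ 2 = 1 := by
      have := S.h
      rw [hp] at this
      linarith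
    have hq0 : S.q ≠ 0 := by
      intro h
      rw [h] at hq
      norm_num at hq
    refine ⟨1, 0, -S.r, 2 * S.q, ?_, ?_, ?_⟩
    · simp only [Arc.ev, hp]; ring
    · simp only [Arc.ev, hp]; ring
    · intro h
      apply hq0
      linarith
  · refine ⟨1 - S.q, S.p, -1 - S.q, S.p, ?_, ?_, ?_⟩
    · simp only [Arc.ev]
      linear_combination S.p * S.h
    · simp only [Arc.ev]
      linear_combination S.p * S.h
    · intro h
      apply hp
      linarith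

lemma ev_mul (S : Arc) (c x y : ℝ) : S.ev (c * x) (c * y) = c ^ 2 * S.ev x y := by
  simp only [Arc.ev]; ring

lemma mkGG (a b c d : ℝ) (h : a * d - b * c = 1) : ∃ g : GG, dt g = 1 ∧
    (g : Matrix (Fin 2) (Fin 2) ℝ) 0 0 = a ∧ (g : Matrix (Fin 2) (Fin 2) ℝ) 0 1 = b ∧
    (g : Matrix (Fin 2) (Fin 2) ℝ) 1 0 = c ∧ (g : Matrix (Fin 2) (Fin 2) ℝ) 1 1 = d := by
  have hd : (!![a, b; c, d] : Matrix (Fin 2) (Fin 2) ℝ).det = 1 := by
    rw [Matrix.det_fin_two]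
    simpa using h
  refine ⟨Matrix.GeneralLinearGroup.mkOfDetNeZero !![a, b; c, d] (by rw [hd]; exact one_ne_zero), ?_, ?_, ?_, ?_, ?_⟩
  · exact hd
  all_goals rfl

/-- three vectors in general position, normalized -/
lemma tri_aux (P : ℝ → ℝ → Prop) (hP : ∀ c x y, P x y → P (c * x) (c * y))
    (x1 y1 x2 y2 x3 y3 : ℝ) (h1 : P x1 y1) (h2 : P x2 y2) (h3 : P x3 y3)
    (d12 : x1 * y2 - y1 * x2 ≠ 0)
    (hpos : 0 < (x3 * y2 - y3 * x2) * (x1 * y3 - y1 * x3) / (x1 * y2 - y1 * x2)) :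
    ∃ g : GG, dt g = 1 ∧
      P ((g : Matrix (Fin 2) (Fin 2) ℝ) 0 0) ((g : Matrix (Fin 2) (Fin 2) ℝ) 1 0) ∧
      P ((g : Matrix (Fin 2) (Fin 2) ℝ) 0 1) ((g : Matrix (Fin 2) (Fin 2) ℝ) 1 1) ∧
      P ((g : Matrix (Fin 2) (Fin 2) ℝ) 0 0 + (g : Matrix (Fin 2) (Fin 2) ℝ) 0 1)
        ((g : Matrix (Fin 2) (Fin 2) ℝ) 1 0 + (g : Matrix (Fin 2) (Fin 2) ℝ) 1 1) := by
  set D := (x3 * y2 - y3 * x2) * (x1 * y3 - y1 * x3) / (x1 * y2 - y1 * x2) with hD
  set a := (x3 * y2 - y3 * x2) / (x1 * y2 - y1 * x2) with ha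
  set b := (x1 * y3 - y1 * x3) / (x1 * y2 - y1 * x2) with hb
  obtain ⟨t, ht0, ht⟩ : ∃ t : ℝ, 0 < t ∧ t ^ 2 * D = 1 := by
    refine ⟨1 / √D, by positivity, ?_⟩
    rw [div_pow, Real.sq_sqrt hpos.le]
    field_simp
  have hab : a * b * (x1 * y2 - y1 * x2) = D := by
    rw [ha, hb, hD]
    field_simp
  have hx : a * x1 + b * x2 = x3 := by
    have h : a * x1 + b * x2 = x3 * (x1 * y2 - y1 * x2) / (x1 * y2 - y1 * x2) := by
      rw [ha, hb]
      ring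
    rw [h, mul_div_cancel_right₀ _ d12]
  have hy : a * y1 + b * y2 = y3 := by
    have h : a * y1 + b * y2 = y3 * (x1 * y2 - y1 * x2) / (x1 * y2 - y1 * x2) := by
      rw [ha, hb]
      ring
    rw [h, mul_div_cancel_right₀ _ d12]
  obtain ⟨g, g1, g2, g3, g4, g5⟩ := mkGG ((t * a) * x1) ((t * b) * x2) ((t * a) * y1) ((t * b) * y2) (by
    linear_combination ht + t ^ 2 * hab)
  refine ⟨g, g1, ?_, ?_, ?_⟩
  · rw [g2, g4]
    exact hP _ _ _ h1
  · rw [g3, g5]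
    exact hP _ _ _ h2
  · rw [g2, g3, g4, g5]
    have e1 : t * a * x1 + t * b * x2 = t * x3 := by rw [← hx]; ring
    have e2 : t * a * y1 + t * b * y2 = t * y3 := by rw [← hy]; ring
    rw [e1, e2]
    exact hP _ _ _ h3

lemma tri0 (P : ℝ → ℝ → Prop) (hP : ∀ c x y, P x y → P (c * x) (c * y))
    (x1 y1 x2 y2 x3 y3 : ℝ) (h1 : P x1 y1) (h2 : P x2 y2) (h3 : P x3 y3)
    (d12 : x1 * y2 - y1 * x2 ≠ 0) (d13 : x1 * y3 - y1 * x3 ≠ 0) (d23 : x3 * y2 - y3 * x2 ≠ 0) :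
    ∃ g : GG, dt g = 1 ∧
      P ((g : Matrix (Fin 2) (Fin 2) ℝ) 0 0) ((g : Matrix (Fin 2) (Fin 2) ℝ) 1 0) ∧
      P ((g : Matrix (Fin 2) (Fin 2) ℝ) 0 1) ((g : Matrix (Fin 2) (Fin 2) ℝ) 1 1) ∧
      P ((g : Matrix (Fin 2) (Fin 2) ℝ) 0 0 + (g : Matrix (Fin 2) (Fin 2) ℝ) 0 1)
        ((g : Matrix (Fin 2) (Fin 2) ℝ) 1 0 + (g : Matrix (Fin 2) (Fin 2) ℝ) 1 1) := by
  have hne : (x3 * y2 - y3 * x2) * (x1 * y3 - y1 * x3) / (x1 * y2 - y1 * x2) ≠ 0 := by
    positivity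
  rcases lt_or_gt_of_ne hne with h | h
  · apply tri_aux P hP x2 y2 x1 y1 x3 y3 h2 h1 h3
    · intro h0
      apply d12
      linarith
    · have : (x3 * y1 - y3 * x1) * (x2 * y3 - y2 * x3) / (x2 * y1 - y2 * x1) =
          -((x3 * y2 - y3 * x2) * (x1 * y3 - y1 * x3) / (x1 * y2 - y1 * x2)) := by
        have e : x2 * y1 - y2 * x1 = -(x1 * y2 - y1 * x2) := by ring
        rw [e, div_neg]
        congr 2
        ring
      rw [this]
      linarith
  · exact tri_aux P hP x1 y1 x2 y2 x3 y3 h1 h2 h3 d12 h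

/-- the normalized frame of a region -/
lemma frame {L : Set Arc} (hL : Nest L) {S T : Arc} (hST : Adj L S T) (hne : T ≠ S) :
    ∃ g : GG, dt g = 1 ∧ ∀ V, Adj L S V →
      V.ev ((g : Matrix (Fin 2) (Fin 2) ℝ) 0 0) ((g : Matrix (Fin 2) (Fin 2) ℝ) 1 0) ≤ 0 ∧
      V.ev ((g : Matrix (Fin 2) (Fin 2) ℝ) 0 1) ((g : Matrix (Fin 2) (Fin 2) ℝ) 1 1) ≤ 0 ∧
      V.ev ((g : Matrix (Fin 2) (Fin 2) ℝ) 0 0 + (g : Matrix (Fin 2) (Fin 2) ℝ) 0 1)
        ((g : Matrix (Fin 2) (Fin 2) ℝ) 1 0 + (g : Matrix (Fin 2) (Fin 2) ℝ) 1 1) ≤ 0 := by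
  obtain ⟨x1, y1, x2, y2, e1, e2, d⟩ := ends S
  obtain ⟨x3, y3, x4, y4, e3, _, d'⟩ := ends T
  have hneg : S ≠ -T := by
    rcases hST.2.2 with h | h
    · exact absurd h.symm hne
    · exact h.2.1
  have h3 : x3 ≠ 0 ∨ y3 ≠ 0 := by
    by_contra hc
    push Not at hc
    apply d'
    rw [hc.1, hc.2]
    ring
  -- a common endpoint is impossible
  have hcommon : ∀ x y : ℝ, (x ≠ 0 ∨ y ≠ 0) → S.ev x y = 0 → T.ev x y = 0 → False := by
    intro x y hxy hs ht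
    obtain ⟨ξ, k, hk, hξ⟩ := pt x y hxy
    have a1 : S.val ξ = 0 := by
      have := hξ S
      rw [hs] at this
      rcases mul_eq_zero.mp this.symm with h | h
      · exact absurd h hk.ne'
      · exact h
    have a2 : T.val ξ = 0 := by
      have := hξ T
      rw [ht] at this
      rcases mul_eq_zero.mp this.symm with h | h
      · exact absurd h hk.ne'
      · exact h
    rcases hL.ne S hST.1 T hST.2.1 ξ a1 a2 with h | h
    · exact hne h.symm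
    · exact hneg h
  have hpar : ∀ x y : ℝ, (x ≠ 0 ∨ y ≠ 0) → S.ev x y = 0 → x * y3 - y * x3 ≠ 0 := by
    intro x y hxy hs h0
    apply hcommon x y hxy hs
    -- (x,y) is parallel to (x3,y3)
    rcases h3 with h | h
    · have : T.ev x y = (x / x3) ^ 2 * T.ev x3 y3 := by
        have hy : y = (x / x3) * y3 := by
          field_simp
          linarith
        have hx : x = (x / x3) * x3 := by field_simp
        rw [← ev_mul, ← hx, ← hy]
      rw [this, e3, mul_zero]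
    · have : T.ev x y = (y / y3) ^ 2 * T.ev x3 y3 := by
        have hy : x = (y / y3) * x3 := by
          field_simp
          linarith
        have hx : y = (y / y3) * y3 := by field_simp
        rw [← ev_mul, ← hx, ← hy]
      rw [this, e3, mul_zero]
  have h1 : x1 ≠ 0 ∨ y1 ≠ 0 := by
    by_contra hc
    push Not at hc
    apply d
    rw [hc.1, hc.2]
    ring
  have h2 : x2 ≠ 0 ∨ y2 ≠ 0 := by
    by_contra hc
    push Not at hc
    apply d
    rw [hc.1, hc.2]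
    ring
  have hSl : ∀ V, Adj L S V → ∀ x y : ℝ, S.ev x y = 0 → V.ev x y ≤ 0 := by
    intro V hV x y h0
    rcases hV.2.2 with h | h
    · rw [← h, h0]
    · have := h.1 x y
      rw [h0, Arc.ev_neg] at this
      linarith
  have hTl : ∀ V, Adj L S V → ∀ x y : ℝ, T.ev x y = 0 → V.ev x y ≤ 0 := by
    intro V hV x y h0
    have hTV := adj_trans hL (adj_symm hL hST) hV
    rcases hTV.2.2 with h | h
    · rw [← h, h0]
    · have := h.1 x y
      rw [h0, Arc.ev_neg] at this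
      linarith
  obtain ⟨g, hg, k1, k2, k3⟩ := tri0 (fun x y => ∀ V, Adj L S V → V.ev x y ≤ 0)
    (fun c x y h V hV => by
      rw [ev_mul]
      have := h V hV
      nlinarith [sq_nonneg c])
    x1 y1 x2 y2 x3 y3 (fun V hV => hSl V hV _ _ e1) (fun V hV => hSl V hV _ _ e2)
    (fun V hV => hTl V hV _ _ e3) d (hpar x1 y1 h1 e1) (by
      intro h0
      apply hpar x2 y2 h2 e2
      linarith)
  exact ⟨g, hg, fun V hV => ⟨k1 V hV, k2 V hV, k3 V hV⟩⟩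

/-- a geodesic separates two different regions -/
lemma sepR {L : Set Arc} (hL : Nest L) {S T : Arc} (hS : S ∈ L) (hT : T ∈ L) (hn : ¬ Adj L S T) :
    ∃ R : Arc, (∀ x y : ℝ, (∀ V, Adj L S V → V.ev x y ≤ 0) → R.ev x y ≤ 0) ∧
      (∀ x y : ℝ, (∀ V, Adj L T V → V.ev x y ≤ 0) → 0 ≤ R.ev x y) := by
  obtain ⟨U, hU, hTU⟩ := region_cover hL hS hT
  obtain ⟨V, hV, hUV⟩ := region_cover hL hT hU.2.1
  refine ⟨U, fun x y h => h U hU, fun x y h => ?_⟩
  have hgood : -U ≤ V := by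
    rcases hUV with h1 | h1
    · exfalso
      rcases hTU with h2 | h2
      · -- T ≤ U ≤ V
        rcases hV.2.2 with h3 | h3
        · apply hn
          have : T = U := le_antisymm h2 (h3 ▸ h1)
          rw [this]
          exact hU
        · exact Arc.not_le_and (h2.trans h1) h3.1
      · -- -T ≤ U ≤ V
        rcases hV.2.2 with h3 | h3
        · have h4 : -T ≤ T := by
            have := h2.trans h1
            rwa [← h3] at this
          exact Arc.not_le_and (le_refl (-T)) (by rwa [neg_neg])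
        · have h4 : -V ≤ T := by
            have := Arc.neg_le_neg (h2.trans h1)
            rwa [neg_neg] at this
          exact h3.2.1 (le_antisymm h3.1 h4)
    · exact h1
  have h5 := h V hV
  have h6 := hgood x y
  rw [Arc.ev_neg] at h6
  linarith

/-- small perturbations of the standard frame are not separated from it -/
lemma small (p q r e f u v : ℝ) (h0 : p * r - q ^ 2 = -1) (he : |e| ≤ 1 / 100) (hf : |f| ≤ 1 / 100)
    (hu : |u| ≤ 1 / 100) (hv : |v| ≤ 1 / 100) (hp : p ≤ 0) (hr : r ≤ 0) (hpq : p + 2 * q + r ≤ 0)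
    (k1 : 0 ≤ p * (1 + e) ^ 2 + 2 * q * (1 + e) * u + r * u ^ 2)
    (k2 : 0 ≤ p * f ^ 2 + 2 * q * f * (1 + v) + r * (1 + v) ^ 2)
    (k3 : 0 ≤ p * (1 + e + f) ^ 2 + 2 * q * (1 + e + f) * (1 + u + v) + r * (1 + u + v) ^ 2) : False := by
  have hq : 0 < |q| := by
    apply abs_pos.mpr
    intro h
    rw [h] at h0
    nlinarith
  rw [abs_le] at he hf hu hv
  obtain ⟨he1, he2⟩ := he
  obtain ⟨hf1, hf2⟩ := hf
  obtain ⟨hu1, hu2⟩ := hu
  obtain ⟨hv1, hv2⟩ := hv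
  -- |q| bounds
  have hqb : ∀ c d : ℝ, |c| ≤ d → q * c ≤ |q| * d := by
    intro c d hc
    calc q * c ≤ |q * c| := le_abs_self _
      _ = |q| * |c| := abs_mul _ _
      _ ≤ |q| * d := mul_le_mul_of_nonneg_left hc (abs_nonneg _)
  have a1 : -p ≤ |q| * (1 / 20) := by
    have b1 : 2 * ((1 + e) * u) ≤ 1/40 ∧ -(1/40) ≤ 2 * ((1 + e) * u) := by
      constructor <;> nlinarith
    have b2 := hqb (2 * ((1 + e) * u)) (1/40) (abs_le.mpr ⟨b1.2, b1.1⟩)
    have b3 : p * (1 + e) ^ 2 ≤ p * (9 / 10) := by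
      apply mul_le_mul_of_nonpos_left _ hp
      nlinarith
    have b4 : r * u ^ 2 ≤ 0 := mul_nonpos_of_nonpos_of_nonneg hr (sq_nonneg _)
    nlinarith
  have a2 : -r ≤ |q| * (1 / 20) := by
    have b1 : 2 * (f * (1 + v)) ≤ 1/40 ∧ -(1/40) ≤ 2 * (f * (1 + v)) := by
      constructor <;> nlinarith
    have b2 := hqb (2 * (f * (1 + v))) (1/40) (abs_le.mpr ⟨b1.2, b1.1⟩)
    have b3 : r * (1 + v) ^ 2 ≤ r * (9 / 10) := by
      apply mul_le_mul_of_nonpos_left _ hr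
      nlinarith
    have b4 : p * f ^ 2 ≤ 0 := mul_nonpos_of_nonpos_of_nonneg hp (sq_nonneg _)
    nlinarith
  have a3 : 2 * q ≤ |q| * (1 / 10) := by linarith
  have a4 : q ≤ 0 := by
    by_contra hc
    push Not at hc
    rw [abs_of_pos hc] at a3
    linarith
  rw [abs_of_nonpos a4] at a1 a2 hq
  have b5 : 2 * ((1 + e + f) * (1 + u + v)) ≥ 1 := by nlinarith
  have b6 : q * (2 * ((1 + e + f) * (1 + u + v))) ≤ q * 1 := mul_le_mul_of_nonpos_left b5 a4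
  have b7 : p * (1 + e + f) ^ 2 ≤ 0 := mul_nonpos_of_nonpos_of_nonneg hp (sq_nonneg _)
  have b8 : r * (1 + u + v) ^ 2 ≤ 0 := mul_nonpos_of_nonpos_of_nonneg hr (sq_nonneg _)
  nlinarith

/-- two frames which are close to each other are not separated -/
lemma close (R : Arc) (C δ : ℝ) (hC : 1 ≤ C) (hδ : C * δ = 1 / 200)
    (a b c d a' b' c' d' : ℝ) (h1 : a * d - b * c = 1) 
    (ha : |a| ≤ C) (hb : |b| ≤ C) (hc : |c| ≤ C) (hd : |d| ≤ C)
    (ka : |a' - a| ≤ δ) (kb : |b' - b| ≤ δ) (kc : |c' - c| ≤ δ) (kd : |d' - d| ≤ δ)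
    (n1 : R.ev a c ≤ 0) (n2 : R.ev b d ≤ 0) (n3 : R.ev (a + b) (c + d) ≤ 0)
    (m1 : 0 ≤ R.ev a' c') (m2 : 0 ≤ R.ev b' d') (m3 : 0 ≤ R.ev (a' + b') (c' + d')) : False := by
  have hb2 : ∀ x y z w : ℝ, |x| ≤ C → |y| ≤ C → |z| ≤ δ → |w| ≤ δ → |x * z - y * w| ≤ 1 / 100 := by
    intro x y z w hx hy hz hw
    calc |x * z - y * w| ≤ |x * z| + |y * w| := abs_sub _ _
      _ = |x| * |z| + |y| * |w| := by rw [abs_mul, abs_mul]
      _ ≤ C * δ + C * δ := by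
        apply add_le_add
        · exact mul_le_mul hx hz (abs_nonneg _) (by linarith)
        · exact mul_le_mul hy hw (abs_nonneg _) (by linarith)
      _ = 1 / 100 := by rw [hδ]; norm_num
  set e := d * (a' - a) - b * (c' - c) with he
  set u := a * (c' - c) - c * (a' - a) with hu
  set f := d * (b' - b) - b * (d' - d) with hf
  set v := a * (d' - d) - c * (b' - b) with hv
  have ea : a' = a * (1 + e) + b * u := by rw [he, hu]; linear_combination (-(a' - a)) * h1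
  have ec : c' = c * (1 + e) + d * u := by rw [he, hu]; linear_combination (-(c' - c)) * h1
  have eb : b' = a * f + b * (1 + v) := by rw [hf, hv]; linear_combination (-(b' - b)) * h1
  have ed : d' = c * f + d * (1 + v) := by rw [hf, hv]; linear_combination (-(d' - d)) * h1
  apply small (R.ev a c) (R.p * a * b + R.q * (a * d + b * c) + R.r * c * d) (R.ev b d) e f u v
  · simp only [Arc.ev]
    have := R.h
    have h1' : (a * d - b * c) ^ 2 = 1 := by rw [h1]; norm_num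
    linear_combination (a * d - b * c) ^ 2 * this - h1'
  · exact hb2 _ _ _ _ hd hb ka kc
  · exact hb2 _ _ _ _ hd hb kb kd
  · exact hb2 _ _ _ _ ha hc kc ka
  · exact hb2 _ _ _ _ ha hc kd kb
  · exact n1
  · exact n2
  · have : R.ev a c + 2 * (R.p * a * b + R.q * (a * d + b * c) + R.r * c * d) + R.ev b d =
        R.ev (a + b) (c + d) := by simp only [Arc.ev]; ring
    rw [this]
    exact n3
  · have : R.ev a' c' = R.ev a c * (1 + e) ^ 2 + 2 * (R.p * a * b + R.q * (a * d + b * c) + R.r * c * d) * (1 + e) * u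
        + R.ev b d * u ^ 2 := by
      rw [ea, ec]
      simp only [Arc.ev]; ring
    rw [← this]
    exact m1
  · have : R.ev b' d' = R.ev a c * f ^ 2 + 2 * (R.p * a * b + R.q * (a * d + b * c) + R.r * c * d) * f * (1 + v)
        + R.ev b d * (1 + v) ^ 2 := by
      rw [eb, ed]
      simp only [Arc.ev]; ring
    rw [← this]
    exact m2
  · have : R.ev (a' + b') (c' + d') = R.ev a c * (1 + e + f) ^ 2 +
        2 * (R.p * a * b + R.q * (a * d + b * c) + R.r * c * d) * (1 + e + f) * (1 + u + v)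
        + R.ev b d * (1 + u + v) ^ 2 := by
      rw [ea, eb, ec, ed]
      simp only [Arc.ev]; ring
    rw [← this]
    exact m3

lemma inv_entries (g : GG) (h : dt g = 1) :
    ((g⁻¹ : GG) : Matrix (Fin 2) (Fin 2) ℝ) 0 0 = (g : Matrix (Fin 2) (Fin 2) ℝ) 1 1 ∧
    ((g⁻¹ : GG) : Matrix (Fin 2) (Fin 2) ℝ) 0 1 = -(g : Matrix (Fin 2) (Fin 2) ℝ) 0 1 ∧
    ((g⁻¹ : GG) : Matrix (Fin 2) (Fin 2) ℝ) 1 0 = -(g : Matrix (Fin 2) (Fin 2) ℝ) 1 0 ∧
    ((g⁻¹ : GG) : Matrix (Fin 2) (Fin 2) ℝ) 1 1 = (g : Matrix (Fin 2) (Fin 2) ℝ) 0 0 := by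
  have hdet : (g : Matrix (Fin 2) (Fin 2) ℝ).det = 1 := h
  have e : ((g⁻¹ : GG) : Matrix (Fin 2) (Fin 2) ℝ) = (g : Matrix (Fin 2) (Fin 2) ℝ).adjugate := by
    rw [Matrix.coe_units_inv, Matrix.inv_def, hdet]
    simp
  rw [e, Matrix.adjugate_fin_two]
  simp

/-- the action of a group element on the form, at transformed vectors -/
lemma ev_smul_inv (g : GG) (h : dt g = 1) (S : Arc) (x y : ℝ) :
    (g⁻¹ • S).ev x y = S.ev ((g : Matrix (Fin 2) (Fin 2) ℝ) 0 0 * x + (g : Matrix (Fin 2) (Fin 2) ℝ) 0 1 * y)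
      ((g : Matrix (Fin 2) (Fin 2) ℝ) 1 0 * x + (g : Matrix (Fin 2) (Fin 2) ℝ) 1 1 * y) := by
  obtain ⟨e1, e2, e3, e4⟩ := inv_entries g h
  have hd : dt g⁻¹ = 1 := by
    have := dt_mul g g⁻¹
    rw [mul_inv_cancel, dt_one, h, one_mul] at this
    exact this.symm
  rw [smul_ev, hd, e1, e2, e3, e4]
  simp

end C8

/-- the bound, given that every region has at least two bounding geodesics -/
theorem bound_core {A : Subgroup GG} (hA : Fuchs A)
    (hadj : ∀ L : Set Arc, Fam A L → ∀ S ∈ L, ∃ T, Adj L S T ∧ T ≠ S) :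
    ∃ N : ℕ, ∀ L : Set Arc, Fam A L → ∀ s : Finset Arc,
    (∀ S ∈ s, S ∈ L) → (∀ S ∈ s, ∀ T ∈ s, S ≠ T → ∀ a ∈ A, ¬ Adj L S (a • T)) → s.card ≤ N := by
  obtain ⟨C0, hC0⟩ := hA.coc
  obtain ⟨C, hC1, hCC⟩ : ∃ C : ℝ, 1 ≤ C ∧ C0 ≤ C := ⟨max 1 C0, le_max_left _ _, le_max_right _ _⟩
  have hCpos : 0 < C := by linarith
  set δ : ℝ := 1 / (200 * C) with hδ
  have hδ0 : 0 < δ := by positivity
  have hCδ : C * δ = 1 / 200 := by rw [hδ]; field_simp
  obtain ⟨M, hM⟩ : ∃ M : ℤ, C / δ + 1 ≤ M := ⟨⌈C / δ + 1⌉, Int.le_ceil _⟩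
  set B : Finset ((ℤ × ℤ) × (ℤ × ℤ)) :=
    (Finset.Icc (-M) M ×ˢ Finset.Icc (-M) M) ×ˢ (Finset.Icc (-M) M ×ˢ Finset.Icc (-M) M) with hB
  refine ⟨B.card, ?_⟩
  intro L hL s hsL hs
  by_contra hcard
  push Not at hcard
  have key : ∀ S ∈ L, ∃ a ∈ A, ∃ k : GG, dt k = 1 ∧
      (∀ i j, |(k : Matrix (Fin 2) (Fin 2) ℝ) i j| ≤ C) ∧ ∀ V, Adj L (a • S) V →
      V.ev ((k : Matrix (Fin 2) (Fin 2) ℝ) 0 0) ((k : Matrix (Fin 2) (Fin 2) ℝ) 1 0) ≤ 0 ∧
      V.ev ((k : Matrix (Fin 2) (Fin 2) ℝ) 0 1) ((k : Matrix (Fin 2) (Fin 2) ℝ) 1 1) ≤ 0 ∧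
      V.ev ((k : Matrix (Fin 2) (Fin 2) ℝ) 0 0 + (k : Matrix (Fin 2) (Fin 2) ℝ) 0 1)
        ((k : Matrix (Fin 2) (Fin 2) ℝ) 1 0 + (k : Matrix (Fin 2) (Fin 2) ℝ) 1 1) ≤ 0 := by
    intro S hS
    obtain ⟨T, hT, hTS⟩ := hadj L hL S hS
    obtain ⟨g, hg, hgV⟩ := C8.frame hL.toNest hT hTS
    obtain ⟨γ, hγ, hγC⟩ := hC0 g hg
    have hdγ : dt γ = 1 := hA.det1 γ hγ
    have hdk : dt (γ⁻¹ * g) = 1 := by
      rw [dt_mul, hg, mul_one]
      have := dt_mul γ γ⁻¹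
      rw [mul_inv_cancel, dt_one, hdγ, one_mul] at this
      exact this.symm
    refine ⟨γ⁻¹, A.inv_mem hγ, γ⁻¹ * g, hdk, fun i j => (hγC i j).trans hCC, ?_⟩
    intro V hV
    have hV' : Adj L S (γ • V) := by
      rw [← adj_smul hL (A.inv_mem hγ), inv_smul_smul]
      exact hV
    obtain ⟨v1, v2, v3⟩ := hgV (γ • V) hV'
    -- `V = γ⁻¹ • (γ • V)`
    have hev : ∀ x y : ℝ, V.ev
        (((γ⁻¹ * g : GG) : Matrix (Fin 2) (Fin 2) ℝ) 0 0 * x + ((γ⁻¹ * g : GG) : Matrix (Fin 2) (Fin 2) ℝ) 0 1 * y)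
        (((γ⁻¹ * g : GG) : Matrix (Fin 2) (Fin 2) ℝ) 1 0 * x + ((γ⁻¹ * g : GG) : Matrix (Fin 2) (Fin 2) ℝ) 1 1 * y) =
        (γ • V).ev ((g : Matrix (Fin 2) (Fin 2) ℝ) 0 0 * x + (g : Matrix (Fin 2) (Fin 2) ℝ) 0 1 * y)
        ((g : Matrix (Fin 2) (Fin 2) ℝ) 1 0 * x + (g : Matrix (Fin 2) (Fin 2) ℝ) 1 1 * y) := by
      intro x y
      rw [← C8.ev_smul_inv _ hdk, ← C8.ev_smul_inv _ hg, mul_inv_rev, inv_inv, mul_smul]
    refine ⟨?_, ?_, ?_⟩
    · have := hev 1 0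
      simp only [mul_one, mul_zero, add_zero] at this
      rw [this]
      exact v1
    · have := hev 0 1
      simp only [mul_one, mul_zero, zero_add] at this
      rw [this]
      exact v2
    · have := hev 1 1
      simp only [mul_one] at this
      rw [this]
      exact v3
  choose! a ha k hk1 hkC hkV using key
  set F : Arc → (ℤ × ℤ) × (ℤ × ℤ) := fun S =>
    ((⌊(k S : Matrix (Fin 2) (Fin 2) ℝ) 0 0 / δ⌋, ⌊(k S : Matrix (Fin 2) (Fin 2) ℝ) 0 1 / δ⌋),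
     (⌊(k S : Matrix (Fin 2) (Fin 2) ℝ) 1 0 / δ⌋, ⌊(k S : Matrix (Fin 2) (Fin 2) ℝ) 1 1 / δ⌋)) with hF
  have hfl : ∀ x : ℝ, |x| ≤ C → ⌊x / δ⌋ ∈ Finset.Icc (-M) M := by
    intro x hx
    rw [abs_le] at hx
    rw [Finset.mem_Icc]
    have h1 : x / δ ≤ C / δ := div_le_div_of_nonneg_right hx.2 hδ0.le
    have h2 : -(C / δ) ≤ x / δ := by
      rw [← neg_div]
      exact div_le_div_of_nonneg_right hx.1 hδ0.le
    constructor
    · rw [Int.le_floor]
      push_cast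
      linarith
    · have h3 : (⌊x / δ⌋ : ℝ) ≤ M := by
        have := Int.floor_le (x / δ)
        linarith
      exact_mod_cast h3
  have hmaps : ∀ S ∈ s, F S ∈ B := by
    intro S hS
    have hSL := hsL S hS
    rw [hB, hF]
    simp only [Finset.mem_product]
    exact ⟨⟨hfl _ (hkC S hSL 0 0), hfl _ (hkC S hSL 0 1)⟩, ⟨hfl _ (hkC S hSL 1 0), hfl _ (hkC S hSL 1 1)⟩⟩
  obtain ⟨S, hS, T, hT, hne, hST⟩ := Finset.exists_ne_map_eq_of_card_lt_of_maps_to hcard hmaps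
  have hSL := hsL S hS
  have hTL := hsL T hT
  have hnadj : ¬ Adj L (a S • S) (a T • T) := by
    intro h
    apply hs S hS T hT hne ((a S)⁻¹ * a T) (A.mul_mem (A.inv_mem (ha S hSL)) (ha T hTL))
    rw [mul_smul, ← adj_smul hL (ha S hSL), smul_inv_smul]
    exact h
  obtain ⟨R, hR1, hR2⟩ := C8.sepR hL.toNest (hL.inv _ (ha S hSL) _ hSL) (hL.inv _ (ha T hTL) _ hTL) hnadj
  have hcl : ∀ x y : ℝ, ⌊x / δ⌋ = ⌊y / δ⌋ → |y - x| ≤ δ := by
    intro x y h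
    have h1 := Int.floor_le (x / δ)
    have h2 := Int.lt_floor_add_one (x / δ)
    have h3 := Int.floor_le (y / δ)
    have h4 := Int.lt_floor_add_one (y / δ)
    rw [h] at h1 h2
    have h5 : |y / δ - x / δ| ≤ 1 := by
      rw [abs_le]
      constructor <;> linarith
    rw [← sub_div, abs_div, abs_of_pos hδ0, div_le_one hδ0] at h5
    exact h5
  rw [hF] at hST
  simp only [Prod.mk.injEq] at hST
  obtain ⟨⟨f1, f2⟩, f3, f4⟩ := hST
  have hdS := hk1 S hSL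
  rw [dt, Matrix.det_fin_two] at hdS
  exact C8.close R C δ hC1 hCδ _ _ _ _ _ _ _ _ hdS (hkC S hSL 0 0) (hkC S hSL 0 1) (hkC S hSL 1 0)
    (hkC S hSL 1 1) (hcl _ _ f1) (hcl _ _ f2) (hcl _ _ f3) (hcl _ _ f4)
    (hR1 _ _ fun V hV => (hkV S hSL V hV).1) (hR1 _ _ fun V hV => (hkV S hSL V hV).2.1)
    (hR1 _ _ fun V hV => (hkV S hSL V hV).2.2)
    (hR2 _ _ fun V hV => (hkV T hTL V hV).1) (hR2 _ _ fun V hV => (hkV T hTL V hV).2.1)
    (hR2 _ _ fun V hV => (hkV T hTL V hV).2.2)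

end Pool.Agent.H100R2.SC
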