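import Pool.Agent.H100R2.SC.Defs

set_option autoImplicit false

namespace Pool.Agent.H100R2.SC

open Matrix

theorem good_refl (Γ : Subgroup GG) : Good Γ (Homeomorph.refl X) :=
  ⟨Γ, le_refl _, by rw [Subgroup.relIndex_self]; exact one_ne_zero, fun a ha => ⟨a, ha, fun _ => rfl⟩⟩

/-- the elements of `A₁` conjugated by `f` into `A₂` -/
private def g1_A (A₁ A₂ : Subgroup GG) (f : X ≃ₜ X) : Subgroup GG where
  carrier := {a | a ∈ A₁ ∧ ∃ γ ∈ A₂, ∀ ξ : X, f (a • ξ) = γ • f ξ}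
  one_mem' := ⟨A₁.one_mem, 1, A₂.one_mem, fun ξ => by rw [one_smul, one_smul]⟩
  mul_mem' := by
    rintro a b ⟨ha, γ, hγ, h1⟩ ⟨hb, δ, hδ, h2⟩
    exact ⟨A₁.mul_mem ha hb, γ * δ, A₂.mul_mem hγ hδ, fun ξ => by
      rw [mul_smul, h1, h2, mul_smul]⟩
  inv_mem' := by
    rintro a ⟨ha, γ, hγ, h1⟩
    refine ⟨A₁.inv_mem ha, γ⁻¹, A₂.inv_mem hγ, fun ξ => ?_⟩
    rw [eq_inv_smul_iff, ← h1, smul_inv_smul]

theorem good_comp {Γ : Subgroup GG} (f g : X ≃ₜ X) (hf : Good Γ f) (hg : Good Γ g) :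
    Good Γ (f.trans g) := by
  classical
  obtain ⟨A₁, hA₁, hi₁, h1⟩ := hf
  obtain ⟨A₂, hA₂, hi₂, h2⟩ := hg
  refine ⟨g1_A A₁ A₂ f, fun a ha => hA₁ ha.1, ?_, ?_⟩
  · rw [← Subgroup.relIndex_mul_relIndex (g1_A A₁ A₂ f) A₁ Γ (fun a ha => ha.1) hA₁]
    refine mul_ne_zero ?_ hi₁
    have hfin : Finite (Γ ⧸ A₂.subgroupOf Γ) := by
      have : (A₂.subgroupOf Γ).FiniteIndex := ⟨hi₂⟩
      infer_instance
    choose γ hγ hγf using h1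
    let φ : (A₁ ⧸ (g1_A A₁ A₂ f).subgroupOf A₁) → (Γ ⧸ A₂.subgroupOf Γ) := fun x =>
      QuotientGroup.mk (⟨γ (x.out : A₁) (x.out : A₁).2, hγ _ _⟩ : Γ)
    have hφ : Function.Injective φ := by
      intro x y hxy
      have h3 := QuotientGroup.eq.1 hxy
      rw [← QuotientGroup.out_eq' x, ← QuotientGroup.out_eq' y, QuotientGroup.eq]
      rw [Subgroup.mem_subgroupOf] at h3 ⊢
      refine ⟨((x.out)⁻¹ * y.out : A₁).2, _, h3, fun ξ => ?_⟩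
      show f ((((x.out : A₁) : GG)⁻¹ * ((y.out : A₁) : GG)) • ξ) =
        ((γ (x.out : A₁) (x.out : A₁).2)⁻¹ * γ (y.out : A₁) (y.out : A₁).2) • f ξ
      rw [mul_smul, mul_smul, ← hγf, eq_inv_smul_iff, ← hγf _ (x.out : A₁).2, smul_inv_smul]
    have : Finite (A₁ ⧸ (g1_A A₁ A₂ f).subgroupOf A₁) := Finite.of_injective φ hφ
    exact Subgroup.index_ne_zero_of_finite
  · rintro a ⟨ha, δ, hδ, h3⟩
    obtain ⟨γ', hγ', h4⟩ := h2 δ hδ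
    refine ⟨γ', hγ', fun ξ => ?_⟩
    show g (f (a • ξ)) = γ' • g (f ξ)
    rw [h3, h4]

end Pool.Agent.H100R2.SC
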