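import Pool.Agent.H100R2.SC.A2
import Pool.Agent.H100R2.SC.A3
import Pool.Agent.H100R2.SC.A6
import Pool.Agent.H100R2.SC.A7
import Pool.Agent.H100R2.SC.A8
import Pool.Agent.H100R2.SC.B1
import Pool.Agent.H100R2.SC.B2
import Pool.Agent.H100R2.SC.B4
import Pool.Agent.H100R2.SC.B5
import Pool.Agent.H100R2.SC.B6
import Pool.Agent.H100R2.SC.B7
import Pool.Agent.H100R2.SC.B8
import Pool.Agent.H100R2.SC.T1
import Pool.Agent.H100R2.SC.T2
import Pool.Agent.H100R2.SC.X1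
import Pool.Agent.H100R2.SC.X2

/-!
# H1: half translations

Given a nontrivial element `α` of a cocompact Fuchsian group, a lift of a power of the Dehn twist along
the (very short, after passing to a subgroup of finite index) axis of `α` is close to the map which is
`α ^ k` on one side of the axis and the identity on the other side.
-/

set_option autoImplicit false

namespace Pool.Agent.H100R2.SC

open Filter Topology

/-! ### the family of translates of the axis -/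

theorem h1_orb_mem {A : Subgroup GG} {D : Arc} : D ∈ Orb A D :=
  ⟨1, A.one_mem, Or.inl (one_smul _ _).symm⟩

theorem h1_orb_neg {A : Subgroup GG} {D : Arc} {S : Arc} (h : S ∈ Orb A D) : -S ∈ Orb A D := by
  obtain ⟨a, ha, h1 | h1⟩ := h
  · exact ⟨a, ha, Or.inr (by rw [h1])⟩
  · exact ⟨a, ha, Or.inl (by rw [h1, neg_neg])⟩

theorem h1_orb_smul {A : Subgroup GG} {D : Arc} {S : Arc} (h : S ∈ Orb A D) {a : GG} (ha : a ∈ A) :
    a • S ∈ Orb A D := by
  obtain ⟨b, hb, h1 | h1⟩ := h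
  · exact ⟨a * b, A.mul_mem ha hb, Or.inl (by rw [h1, mul_smul])⟩
  · exact ⟨a * b, A.mul_mem ha hb, Or.inr (by rw [h1, smul_neg', mul_smul])⟩

/-- nestedness is invariant under sign changes -/
theorem h1_nest_neg {S T : Arc} (h : S ≤ T ∨ T ≤ S ∨ S ≤ -T ∨ -T ≤ S) :
    -S ≤ T ∨ T ≤ -S ∨ -S ≤ -T ∨ -T ≤ -S := by
  rcases h with h | h | h | h
  · exact Or.inr (Or.inr (Or.inr (Arc.neg_le_neg h)))
  · exact Or.inr (Or.inr (Or.inl (Arc.neg_le_neg h)))
  · exact Or.inr (Or.inl (Arc.le_neg_comm h))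
  · refine Or.inl ?_
    have := Arc.neg_le_neg h
    rwa [neg_neg] at this

theorem h1_nest_symm {S T : Arc} (h : S ≤ T ∨ T ≤ S ∨ S ≤ -T ∨ -T ≤ S) :
    T ≤ S ∨ S ≤ T ∨ T ≤ -S ∨ -S ≤ T := by
  rcases h with h | h | h | h
  · exact Or.inr (Or.inl h)
  · exact Or.inl h
  · exact Or.inr (Or.inr (Or.inl (Arc.le_neg_comm h)))
  · refine Or.inr (Or.inr (Or.inr ?_))
    have := Arc.neg_le_neg h
    rwa [neg_neg] at this

theorem h1_fam {A : Subgroup GG} (hA : Fuchs A) (α : GG) (hα : α ∈ A) (h1 : α ≠ 1) (K : ℝ)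
    (hK : 1 ≤ K) (hsep : ∀ g ∈ A, g • ax α = ax α ∨ K ≤ |BB (g • ax α) (ax α)|) :
    Fam A (Orb A (ax α)) := by
  have hdt := hA.det1
  have hconj : ∀ a ∈ A, a • ax α = ax (a * α * a⁻¹) := fun a ha =>
    (ax_conj_pos a α (by rw [hdt a ha]; norm_num) (hdt α hα) (hyp hA hα h1)).symm
  have hmem : ∀ a ∈ A, a * α * a⁻¹ ∈ A := fun a ha =>
    A.mul_mem (A.mul_mem ha hα) (A.inv_mem ha)
  have hne1 : ∀ a ∈ A, a * α * a⁻¹ ≠ 1 := fun a _ h => h1 (by
    have := congrArg (fun z => a⁻¹ * z * a) h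
    simpa [mul_assoc] using this)
  have hnest : ∀ a ∈ A, ∀ b ∈ A, a • ax α ≤ b • ax α ∨ b • ax α ≤ a • ax α ∨
      a • ax α ≤ -(b • ax α) ∨ -(b • ax α) ≤ a • ax α := by
    intro a ha b hb
    have h2 : (b⁻¹ * a) • ax α ≤ ax α ∨ ax α ≤ (b⁻¹ * a) • ax α ∨
        (b⁻¹ * a) • ax α ≤ -(ax α) ∨ -(ax α) ≤ (b⁻¹ * a) • ax α := by
      rcases hsep (b⁻¹ * a) (A.mul_mem (A.inv_mem hb) ha) with h | h
      · rw [h]; exact Or.inl le_rfl
      · exact nested_of_BB _ _ (hK.trans h)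
    have h3 : b • (b⁻¹ * a) • ax α = a • ax α := by rw [← mul_smul, mul_inv_cancel_left]
    have h4 := fun S T => smul_le' b S T
    rcases h2 with h | h | h | h
    · left; rw [← h3]; exact (h4 _ _).2 h
    · right; left; rw [← h3]; exact (h4 _ _).2 h
    · right; right; left; rw [← h3, ← smul_neg']; exact (h4 _ _).2 h
    · right; right; right; rw [← h3, ← smul_neg']; exact (h4 _ _).2 h
  refine { neg := fun S hS => h1_orb_neg hS, nest := ?_, lf := ?_, ne := ?_,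
           inv := fun a ha S hS => h1_orb_smul hS ha, axs := ?_, ne0 := ⟨_, h1_orb_mem⟩ }
  · rintro S ⟨a, ha, h2⟩ T ⟨b, hb, h3⟩
    have h4 := hnest a ha b hb
    rcases h2 with rfl | rfl <;> rcases h3 with rfl | rfl
    · exact h4
    · exact h1_nest_symm (h1_nest_neg (h1_nest_symm h4))
    · exact h1_nest_neg h4
    · exact h1_nest_neg (h1_nest_symm (h1_nest_neg (h1_nest_symm h4)))
  · intro M
    have h2 := lf_orbit hA α hα h1 M
    refine (h2.union (h2.image fun S => -S)).subset ?_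
    rintro S ⟨⟨a, ha, h3 | h3⟩, h4⟩
    · exact Or.inl ⟨⟨a, ha, h3⟩, h4⟩
    · refine Or.inr ⟨-S, ⟨⟨a, ha, by rw [h3, neg_neg]⟩, ?_⟩, neg_neg S⟩
      have : (-S).tr = -(S.tr) := by simp [Arc.tr]; ring
      rw [this, abs_neg]; exact h4
  · rintro S ⟨a, ha, h2⟩ T ⟨b, hb, h3⟩ ξ h4 h5
    have h6 : (ax (a * α * a⁻¹)).val ξ = 0 := by
      rw [← hconj a ha]
      rcases h2 with rfl | rfl
      · exact h4
      · rw [val_neg] at h4; linarith
    have h7 : (ax (b * α * b⁻¹)).val ξ = 0 := by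
      rw [← hconj b hb]
      rcases h3 with rfl | rfl
      · exact h5
      · rw [val_neg] at h5; linarith
    have h8 := ax_ne hA _ _ (hmem a ha) (hne1 a ha) (hmem b hb) (hne1 b hb) ξ h6 h7
    rw [← hconj a ha, ← hconj b hb] at h8
    rcases h2 with rfl | rfl <;> rcases h3 with rfl | rfl <;> rcases h8 with h8 | h8
    · exact Or.inl h8
    · exact Or.inr h8
    · right; rw [neg_neg]; exact h8
    · left; exact h8
    · right; rw [h8]
    · left; rw [h8, neg_neg]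
    · left; rw [h8]
    · right; rw [h8]
  · rintro S ⟨a, ha, h2 | h2⟩
    · exact ⟨_, hmem a ha, hne1 a ha, by rw [h2, hconj a ha]⟩
    · refine ⟨(a * α * a⁻¹)⁻¹, A.inv_mem (hmem a ha), fun h => hne1 a ha (inv_eq_one.1 h), ?_⟩
      rw [ax_inv _ (hdt _ (hmem a ha)) (hyp hA (hmem a ha) (hne1 a ha)), h2, hconj a ha]

/-! ### the increments -/

open Classical in
/-- increments of the twist -/
noncomputable def h1_tau (A : Subgroup GG) (α : GG) (k : ℤ) (S : Arc) : GG :=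
  if h : ∃ a ∈ A, S = a • ax α then h.choose * α ^ k * h.choose⁻¹
  else if h : ∃ a ∈ A, S = -(a • ax α) then (h.choose * α ^ k * h.choose⁻¹)⁻¹ else 1

theorem h1_zpow_fix {A : Subgroup GG} (hA : Fuchs A) (α : GG) (hα : α ∈ A) (h1 : α ≠ 1) (k : ℤ) :
    α ^ k • ax α = ax α := by
  have h2 : α • ax α = ax α := ax_smul α (hA.det1 α hα) (hyp hA hα h1)
  have h3 : α ∈ MulAction.stabilizer GG (ax α) := h2
  exact Subgroup.zpow_mem _ h3 k

theorem h1_conj_eq {A : Subgroup GG} (hA : Fuchs A) (α : GG) (hα : α ∈ A) (h1 : α ≠ 1) (k : ℤ)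
    (a b : GG) (ha : a ∈ A) (hb : b ∈ A) (h : a • ax α = b • ax α) :
    a * α ^ k * a⁻¹ = b * α ^ k * b⁻¹ := by
  have h2 : (b⁻¹ * a) • ax α = ax α := by rw [mul_smul, h, inv_smul_smul]
  have hm : b⁻¹ * a ∈ A := A.mul_mem (A.inv_mem hb) ha
  have hk : α ^ k ∈ A := A.zpow_mem hα k
  have h3 := stab_comm (b⁻¹ * a) (α ^ k) (ax α) (by rw [hA.det1 _ hm]; norm_num)
    (by rw [hA.det1 _ hk]; norm_num) h2 (h1_zpow_fix hA α hα h1 k)
  calc a * α ^ k * a⁻¹ = b * (b⁻¹ * a * α ^ k) * a⁻¹ := by group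
    _ = b * (α ^ k * (b⁻¹ * a)) * a⁻¹ := by rw [h3]
    _ = b * α ^ k * b⁻¹ := by group

theorem h1_tau_pos {A : Subgroup GG} (hA : Fuchs A) (α : GG) (hα : α ∈ A) (h1 : α ≠ 1) (k : ℤ)
    (a : GG) (ha : a ∈ A) : h1_tau A α k (a • ax α) = a * α ^ k * a⁻¹ := by
  have h : ∃ b ∈ A, a • ax α = b • ax α := ⟨a, ha, rfl⟩
  unfold h1_tau
  rw [dif_pos h]
  exact h1_conj_eq hA α hα h1 k _ _ h.choose_spec.1 ha h.choose_spec.2.symm

theorem h1_tau_neg {A : Subgroup GG} (hA : Fuchs A) (α : GG) (hα : α ∈ A) (h1 : α ≠ 1) (k : ℤ)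
    (a : GG) (ha : a ∈ A) : h1_tau A α k (-(a • ax α)) = (a * α ^ k * a⁻¹)⁻¹ := by
  have hno : ¬ ∃ b ∈ A, -(a • ax α) = b • ax α := by
    rintro ⟨b, hb, h⟩
    apply no_flip hA α hα h1 (a⁻¹ * b) (A.mul_mem (A.inv_mem ha) hb)
    rw [mul_smul, ← h, smul_neg', inv_smul_smul]
  have h : ∃ b ∈ A, -(a • ax α) = -(b • ax α) := ⟨a, ha, rfl⟩
  unfold h1_tau
  rw [dif_neg hno, dif_pos h]
  congr 1
  exact h1_conj_eq hA α hα h1 k _ _ h.choose_spec.1 ha (neg_injective h.choose_spec.2).symm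

/-- a bounding arc different from `D` is small -/
theorem h1_small {A : Subgroup GG} (α : GG) (K M : ℝ) (hK : 1 ≤ K)
    (hsep : ∀ g ∈ A, g • ax α = ax α ∨ K ≤ |BB (g • ax α) (ax α)|) (T D : Arc)
    (hD : D = ax α ∨ D = -(ax α)) (hT : T ∈ Orb A (ax α)) (h2 : T ≤ -D) (h3 : T ≠ -D)
    (h4 : T ≠ D) (hKM : (-D).tr + M ≤ 2 * √(2 * K - 2)) : T.tr ≤ -M := by
  obtain ⟨a, ha, h5⟩ := hT
  have h6 : K ≤ |BB T D| := by
    rcases hsep a ha with h | h
    · exfalso
      rw [h] at h5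
      rcases hD with rfl | rfl <;> rcases h5 with rfl | rfl
      · exact h4 rfl
      · exact h3 rfl
      · exact h3 (neg_neg _).symm
      · exact h4 rfl
    · have e1 : |BB T D| = |BB (a • ax α) (ax α)| := by
        rcases hD with rfl | rfl <;> rcases h5 with rfl | rfl
        · rfl
        · rw [BB_neg, abs_neg]
        · rw [BB_comm, BB_neg, abs_neg, BB_comm]
        · rw [BB_neg, BB_comm, BB_neg, neg_neg, BB_comm]
      rw [e1]; exact h
  have h7 : BB T D ≤ -1 := by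
    have := kap_ge T D h2
    unfold kap at this
    linarith
  have h8 : K ≤ BB T (-D) := by
    rw [BB_comm, BB_neg, BB_comm]
    rwa [abs_of_nonpos (by linarith)] at h6
  have := tr_le_of_BB (-D) T K hK h2 h8
  linarith

theorem halfTranslation {Γ : Subgroup GG} (h : Fuchs Γ) (α : GG) (hα : α ∈ Γ) (h1 : α ≠ 1) (k : ℤ)
    (ε : ℝ) (hε : 0 < ε) :
    ∃ f : X ≃ₜ X, Good Γ f ∧ OrP f ∧ (∀ ξ, 0 ≤ (ax α).val ξ → dd (f ξ) (α ^ k • ξ) < ε) ∧
      (∀ ξ, (ax α).val ξ ≤ 0 → dd (f ξ) ξ < ε) := by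
  -- choice of the constants
  obtain ⟨M, hM⟩ : ∃ M : ℝ, M = 4 / ε := ⟨_, rfl⟩
  have hM0 : 0 < M := by rw [hM]; positivity
  have hMε : 2 / M < ε := by
    rw [hM, div_div_eq_mul_div, div_lt_iff₀ (by norm_num)]; linarith
  obtain ⟨K, hK⟩ : ∃ K : ℝ, K = 1 + (|(ax α).tr| + M) ^ 2 / 2 := ⟨_, rfl⟩
  have hK1 : 1 ≤ K := by
    rw [hK]; have : 0 ≤ (|(ax α).tr| + M) ^ 2 / 2 := by positivity
    linarith
  have hKs : 2 * √(2 * K - 2) = 2 * (|(ax α).tr| + M) := by
    have e : 2 * K - 2 = (|(ax α).tr| + M) ^ 2 := by rw [hK]; ring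
    rw [e, Real.sqrt_sq (by positivity)]
  have hKs' : ∀ x : ℝ, x ≤ |(ax α).tr| → x + M ≤ 2 * √(2 * K - 2) := by
    intro x hx
    rw [hKs]
    have := abs_nonneg (ax α).tr
    linarith
  obtain ⟨A, hAΓ, hidx, hαA, hsep⟩ := sep h α hα h1 K
  have hA : Fuchs A := fuchs_of_index h hAΓ hidx
  obtain ⟨D, hD⟩ : ∃ D, D = ax α := ⟨_, rfl⟩
  obtain ⟨L, hL⟩ : ∃ L, L = Orb A (ax α) := ⟨_, rfl⟩
  have hfam : Fam A L := by rw [hL]; exact h1_fam hA α hαA h1 K hK1 hsep
  have hDL : ax α ∈ L := by rw [hL]; exact h1_orb_mem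
  -- increments
  obtain ⟨τ, hτ⟩ : ∃ τ, τ = h1_tau A α k := ⟨_, rfl⟩
  have hrep : ∀ S ∈ L, ∃ a ∈ A, (S = a • ax α ∧ τ S = a * α ^ k * a⁻¹) ∨
      (S = -(a • ax α) ∧ τ S = (a * α ^ k * a⁻¹)⁻¹) := by
    intro S hS
    rw [hL] at hS
    obtain ⟨a, ha, h2 | h2⟩ := hS
    · exact ⟨a, ha, Or.inl ⟨h2, by rw [h2, hτ]; exact h1_tau_pos hA α hαA h1 k a ha⟩⟩
    · exact ⟨a, ha, Or.inr ⟨h2, by rw [h2, hτ]; exact h1_tau_neg hA α hαA h1 k a ha⟩⟩
  have hτneg : ∀ S ∈ L, τ (-S) = (τ S)⁻¹ := by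
    intro S hS
    obtain ⟨a, ha, ⟨h2, h3⟩ | ⟨h2, h3⟩⟩ := hrep S hS
    · rw [h3, h2, hτ, h1_tau_neg hA α hαA h1 k a ha]
    · rw [h3, h2, neg_neg, inv_inv, hτ, h1_tau_pos hA α hαA h1 k a ha]
  have hτconj : ∀ a ∈ A, ∀ S ∈ L, τ (a • S) = a * τ S * a⁻¹ := by
    intro b hb S hS
    obtain ⟨a, ha, ⟨h2, h3⟩ | ⟨h2, h3⟩⟩ := hrep S hS
    · rw [h3, h2, ← mul_smul, hτ, h1_tau_pos hA α hαA h1 k _ (A.mul_mem hb ha)]
      group
    · rw [h3, h2, smul_neg', ← mul_smul, hτ, h1_tau_neg hA α hαA h1 k _ (A.mul_mem hb ha)]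
      group
  have hτA : ∀ S ∈ L, τ S ∈ A := by
    intro S hS
    obtain ⟨a, ha, ⟨h2, h3⟩ | ⟨h2, h3⟩⟩ := hrep S hS
    · rw [h3]; exact A.mul_mem (A.mul_mem ha (A.zpow_mem hαA k)) (A.inv_mem ha)
    · rw [h3]; exact A.inv_mem (A.mul_mem (A.mul_mem ha (A.zpow_mem hαA k)) (A.inv_mem ha))
  have hτfix : ∀ S ∈ L, τ S • S = S := by
    intro S hS
    have hc : ∀ a ∈ A, (a * α ^ k * a⁻¹) • (a • ax α) = a • ax α := by
      intro a _
      rw [mul_smul, mul_smul, inv_smul_smul, h1_zpow_fix hA α hαA h1 k]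
    obtain ⟨a, ha, ⟨h2, h3⟩ | ⟨h2, h3⟩⟩ := hrep S hS
    · rw [h3, h2]; exact hc a ha
    · rw [h3, h2, smul_neg', inv_smul_eq_iff.2 (hc a ha).symm]
  -- potential
  obtain ⟨F, hF0, hF1, hF2⟩ := potential hfam.toNest τ hτneg hDL
  have hFA : ∀ S ∈ L, F S ∈ A := by
    apply conn hfam.toNest (fun S => F S ∈ A) hDL
    · show F (ax α) ∈ A
      rw [hF0]; exact A.one_mem
    · intro S hS h2
      show F (-S) ∈ A
      rw [hF1 S hS]; exact A.mul_mem h2 (hτA S hS)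
    · intro S T hST h2
      show F T ∈ A
      rw [← hF2 S T hST]; exact h2
  have hPM : PM L τ F := by
    refine ⟨hF1, hF2, fun S hS => ⟨hτfix S hS, by rw [hA.det1 _ (hτA S hS)]; norm_num⟩, ?_, ?_⟩
    · intro S T hST
      exact (adj_smul hfam (hFA S hST.1)).2 hST
    · intro S U hS hSU
      have h2 := (adj_smul hfam (A.inv_mem (hFA S hS))).2 hSU
      rwa [inv_smul_smul] at h2
  obtain ⟨f, hf⟩ := homeoX hfam.toNest hfam.ne0 hPM
  have hFneg : F (-(ax α)) = α ^ k := by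
    rw [hF1 _ hDL, hF0, one_mul]
    have h2 := h1_tau_pos hA α hαA h1 k 1 A.one_mem
    rw [one_smul, one_mul, inv_one, mul_one] at h2
    rw [hτ, h2]
  refine ⟨f, ?_, ?_, ?_, ?_⟩
  · -- commensurability
    refine ⟨A, hAΓ, hidx, fun a ha => ?_⟩
    obtain ⟨g, hg1, hg2⟩ := conjX hfam hPM hτconj f hf a ha
    refine ⟨g, ?_, hg2⟩
    have h2 := hg1 _ hDL
    rw [hF0, mul_one] at h2
    rw [← h2]
    exact hAΓ (A.mul_mem (hFA _ (hfam.inv a ha _ hDL)) ha)
  · -- orientation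
    rcases orient f with h2 | h2
    · exact h2
    · exfalso
      obtain ⟨x, y, -, hx, hy, hp, hn⟩ := arc_ends (ax α)
      have hlam : ∀ z, (ax α).val z = 0 → Lam L (ax α) z := by
        rintro z hz U ⟨-, -, rfl | ⟨h3, -, -⟩⟩
        · exact hz.le
        · have h4 := val_mono (Arc.le_neg_comm h3) z
          rw [val_neg, hz, neg_zero] at h4
          exact h4
      have hfix : ∀ z, (ax α).val z = 0 → f z = z := by
        intro z hz
        rw [hf.c1 _ hDL z (hlam z hz), hF0, one_smul]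
      obtain ⟨ξ, hξ⟩ : ∃ ξ, 0 < (ax α).val ξ := by
        by_contra hcon
        push Not at hcon
        have h3 : ax α ≤ -(ax α) :=
          (arc_le_iff _ _).2 fun ξ hξ => absurd hξ (not_lt.2 (hcon ξ))
        exact Arc.not_le_and le_rfl h3
      have h3 := h2 _ _ _ ((hp ξ).1 hξ)
      rw [hfix x hx, hfix y hy] at h3
      have h4 := (hn (f ξ)).2 h3
      have h5 := hf.c2 _ hDL ξ hξ.le
      rw [hF0, one_smul] at h5
      linarith
  · -- the side of `α`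
    intro ξ hξ
    have hnL : -(ax α) ∈ L := hfam.neg _ hDL
    by_cases hlam : Lam L (-(ax α)) ξ
    · rw [hf.c1 _ hnL ξ hlam, hFneg, dd_self]
      exact hε
    · unfold Lam at hlam
      push Not at hlam
      obtain ⟨T, hT, hTξ⟩ := hlam
      have hTne : T ≠ -(ax α) := by
        rintro rfl
        rw [val_neg] at hTξ
        linarith
      obtain ⟨-, hTL, h2 | ⟨h2, h3, -⟩⟩ := id hT
      · exact absurd h2.symm hTne
      have h4 : T ≤ -(-(ax α)) := Arc.le_neg_comm h2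
      have h5 : T ≠ -(-(ax α)) := by
        intro h5
        apply h3
        rw [h5, neg_neg]
      -- the image arc
      have hkA : α ^ k ∈ A := A.zpow_mem hαA k
      have hkfix := h1_zpow_fix hA α hαA h1 k
      have hkneg : α ^ k • (-(ax α)) = -(ax α) := by rw [smul_neg', hkfix]
      have hT'L : α ^ k • T ∈ Orb A (ax α) := by
        rw [hL] at hTL; exact h1_orb_smul hTL hkA
      have g1 : α ^ k • T ≤ -(-(ax α)) := by
        have := (smul_le' (α ^ k) _ _).2 h4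
        rwa [smul_neg', hkneg] at this
      have g2 : α ^ k • T ≠ -(-(ax α)) := by
        intro g
        apply h5
        have e : α ^ k • T = α ^ k • (-(-(ax α))) := by rw [smul_neg', hkneg]; exact g
        exact MulAction.injective _ e
      have g3 : α ^ k • T ≠ -(ax α) := by
        intro g
        apply hTne
        have e : α ^ k • T = α ^ k • (-(ax α)) := by rw [hkneg]; exact g
        exact MulAction.injective _ e
      have htr := h1_small α K M hK1 hsep (α ^ k • T) (-(ax α)) (Or.inr rfl) hT'L g1 g2 g3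
        (hKs' _ (by rw [neg_neg]; exact le_abs_self _))
      have hFT : F T = α ^ k := by rw [← hF2 _ _ hT, hFneg]
      have v1 := hf.c2 T hTL ξ hTξ.le
      rw [hFT] at v1
      obtain ⟨κ, hκ, hv⟩ := val_smul (α ^ k) ξ
      have v2 : 0 ≤ (α ^ k • T).val (α ^ k • ξ) := by
        rw [hv T]; positivity
      exact (dd_arc (α ^ k • T) M hM0 htr _ _ v1 v2).trans_lt hMε
  · -- the other side
    intro ξ hξ
    by_cases hlam : Lam L (ax α) ξ
    · rw [hf.c1 _ hDL ξ hlam, hF0, one_smul, dd_self]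
      exact hε
    · unfold Lam at hlam
      push Not at hlam
      obtain ⟨T, hT, hTξ⟩ := hlam
      have hTne : T ≠ ax α := by
        rintro rfl
        linarith
      obtain ⟨-, hTL, h2 | ⟨h2, h3, -⟩⟩ := id hT
      · exact absurd h2.symm hTne
      have h4 : T ≤ -(ax α) := Arc.le_neg_comm h2
      have h5 : T ≠ -(ax α) := by
        intro h5
        apply h3
        rw [h5, neg_neg]
      have htr := h1_small α K M hK1 hsep T (ax α) (Or.inl rfl) (by rw [← hL]; exact hTL) h4 h5 hTne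
        (hKs' _ (by
          have : (-(ax α)).tr = -((ax α).tr) := by simp [Arc.tr]; ring
          rw [this]; exact neg_le_abs _))
      have hFT : F T = 1 := by rw [← hF2 _ _ hT, hF0]
      have v1 := hf.c2 T hTL ξ hTξ.le
      rw [hFT, one_smul] at v1
      exact (dd_arc T M hM0 htr _ _ v1 hTξ.le).trans_lt hMε

end Pool.Agent.H100R2.SC
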