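import Pool.Agent.H100R2.SC.A2
import Pool.Agent.H100R2.SC.A9
import Pool.Agent.H100R2.SC.B1
import Pool.Agent.H100R2.SC.B2
import Pool.Agent.H100R2.SC.B4
import Pool.Agent.H100R2.SC.B5
import Pool.Agent.H100R2.SC.G1
import Pool.Agent.H100R2.SC.H1

/-! D1: moving one point -/

set_option autoImplicit false

namespace Pool.Agent.H100R2.SC

open Filter Topology

namespace D1x

/-- every arc is nonempty -/
theorem arc_nonempty (T : Arc) : ∃ ξ : X, 0 < T.val ξ := by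
  have hh := T.h
  rcases lt_trichotomy T.p 0 with hp | hp | hp
  · refine ⟨OnePoint.some (-T.q / T.p), ?_⟩
    show 0 < T.ev (-T.q / T.p) 1
    have h1 : T.ev (-T.q / T.p) 1 = -1 / T.p := by
      unfold Arc.ev
      have hp' := hp.ne
      field_simp
      linear_combination hh
    rw [h1]
    exact div_pos_of_neg_of_neg (by norm_num) hp
  · refine ⟨OnePoint.some (T.q * (1 + |T.r|)), ?_⟩
    show 0 < T.ev (T.q * (1 + |T.r|)) 1
    have hq : T.q ^ 2 = 1 := by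
      rw [hp] at hh
      linarith
    have h1 : T.ev (T.q * (1 + |T.r|)) 1 = 2 * (1 + |T.r|) + T.r := by
      unfold Arc.ev
      rw [hp]
      linear_combination (2 * (1 + |T.r|)) * hq
    rw [h1]
    have h2 := neg_abs_le T.r
    have h3 := abs_nonneg T.r
    linarith
  · exact ⟨OnePoint.infty, hp⟩

/-- intervals are open -/
theorem isOpen_cyc (x y : X) (h : x ≠ y) : IsOpen {ξ : X | cyc x ξ y} := by
  obtain ⟨T, _, _, hT, _⟩ := exists_arc x y h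
  have e : {ξ : X | cyc x ξ y} = {ξ : X | 0 < T.val ξ} := by
    ext ξ
    exact (hT ξ).symm
  rw [e]
  exact continuous_val_pos T

/-- intervals are nonempty -/
theorem nonempty_cyc (x y : X) (h : x ≠ y) : {ξ : X | cyc x ξ y}.Nonempty := by
  obtain ⟨T, _, _, hT, _⟩ := exists_arc x y h
  obtain ⟨ξ, hξ⟩ := arc_nonempty T
  exact ⟨ξ, (hT ξ).1 hξ⟩

/-- cyclic order facts -/
theorem cyc_facts {s1 s2 p q z : X} (h1 : cyc s1 p z) (h2 : cyc z q s2) (h3 : cyc s1 z s2) :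
    cyc p z q ∧ ∀ ξ, cyc p ξ q → cyc s1 ξ s2 := by
  have a1 : cyc z s2 s1 := cyc_rot h3
  obtain ⟨a2, a3⟩ := cyc_trans h2 a1
  have a4 : cyc s1 z q := cyc_rot (cyc_rot a2)
  have a5 : cyc s1 q s2 := cyc_rot (cyc_rot a3)
  obtain ⟨a6, a7⟩ := cyc_trans h1 a4
  refine ⟨a7, fun ξ hξ => ?_⟩
  have a8 : cyc p q s1 := cyc_rot a6
  obtain ⟨_, a9⟩ := cyc_trans hξ a8
  have a10 : cyc s1 ξ q := cyc_rot (cyc_rot a9)
  exact (cyc_trans a10 a5).1

end D1x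

open D1x in
-- D1
theorem move {Γ : Subgroup GG} (h : Fuchs Γ) (S : Arc) (z v : X) (hz : 0 < S.val z) (hv : 0 < S.val v)
    (V : Set X) (hV : IsOpen V) (hvV : v ∈ V) (ε : ℝ) (hε : 0 < ε) :
    ∃ f : X ≃ₜ X, Good Γ f ∧ OrP f ∧ f z ∈ V ∧ ∀ ξ, S.val ξ ≤ 0 → dd (f ξ) ξ < ε := by
  by_cases hzv : z = v
  · refine ⟨Homeomorph.refl X, good_refl Γ, fun a b c habc => habc, ?_, fun ξ _ => ?_⟩
    · rw [hzv]
      exact hvV
    · show dd ξ ξ < ε
      rw [dd_self]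
      exact hε
  obtain ⟨s1, s2, hs, hS1, hS2, hSp, hSn⟩ := arc_ends S
  have cz : cyc s1 z s2 := (hSp z).1 hz
  have cv : cyc s1 v s2 := (hSp v).1 hv
  -- the final step: a common argument
  have key : ∀ β ∈ Γ, β ≠ 1 → ∀ (α : GG) (k : ℕ → ℤ) (x y : X), α ∈ Γ → α ≠ 1 → x ∈ V → z ≠ y →
      (∀ n : ℕ, α ^ (k n) = β ^ n) → (∀ ξ, ξ ≠ y → Tendsto (fun n : ℕ => (β ^ n) • ξ) atTop (𝓝 x)) →
      0 ≤ (ax α).val z → (∀ ξ, S.val ξ ≤ 0 → (ax α).val ξ ≤ 0) →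
      ∃ f : X ≃ₜ X, Good Γ f ∧ OrP f ∧ f z ∈ V ∧ ∀ ξ, S.val ξ ≤ 0 → dd (f ξ) ξ < ε := by
    intro β _ _ α k x y hα hα1 hxV hzy hk hlim hz1 hS
    obtain ⟨δ, hδ, hball⟩ := dd_nhds x V (hV.mem_nhds hxV)
    have h1 := (hlim z hzy).eventually (dd_ball x (δ / 2) (by linarith))
    obtain ⟨n, hn⟩ := h1.exists
    obtain ⟨f, hf1, hf2, hf3, hf4⟩ := halfTranslation h α hα hα1 (k n) (min ε (δ / 2))
      (lt_min hε (by linarith))
    refine ⟨f, hf1, hf2, ?_, fun ξ hξ => (hf4 ξ (hS ξ hξ)).trans_le (min_le_left _ _)⟩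
    apply hball
    have h2 := hf3 z hz1
    rw [hk n] at h2
    have h3 : dd x (β ^ n • z) < δ / 2 := hn
    calc dd x (f z) ≤ dd x (β ^ n • z) + dd (β ^ n • z) (f z) := dd_triangle _ _ _
      _ = dd x (β ^ n • z) + dd (f z) (β ^ n • z) := by rw [dd_comm (β ^ n • z)]
      _ < δ / 2 + δ / 2 := add_lt_add h3 (h2.trans_le (min_le_right _ _))
      _ = δ := by ring
  have hs1z : s1 ≠ z := (cyc_ne cz).1
  have hzs2 : z ≠ s2 := (cyc_ne cz).2.1
  have hs1v : s1 ≠ v := (cyc_ne cv).1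
  rcases cyc_total hs1v (Ne.symm hzv) (Ne.symm hs1z) with hc | hc
  · -- `v` is before `z`
    have hV' : IsOpen (V ∩ {ξ : X | cyc s1 ξ z}) := hV.inter (isOpen_cyc s1 z hs1z)
    obtain ⟨β, hβ, hβ1, x, hx, y, hy, hxy, hax, hbx, hby, hlim⟩ := pairs h
      {ξ : X | cyc z ξ s2} (V ∩ {ξ : X | cyc s1 ξ z}) (isOpen_cyc z s2 hzs2) hV'
      (nonempty_cyc z s2 hzs2) ⟨v, hvV, hc⟩
    obtain ⟨f1, f2⟩ := cyc_facts hx.2 hy cz
    refine key β hβ hβ1 β (fun n => (n : ℤ)) x y hβ hβ1 hx.1 (cyc_ne f1).2.1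
      (fun n => zpow_natCast β n) hlim ((hax z).2 f1).le ?_
    intro ξ hξ
    by_contra hcon
    exact absurd ((hSp ξ).2 (f2 ξ ((hax ξ).1 (not_le.1 hcon)))) (not_lt.2 hξ)
  · -- `v` is after `z`
    have hc' : cyc z v s2 := (cyc_trans (cyc_rot (cyc_rot hc)) cv).2
    have hV' : IsOpen (V ∩ {ξ : X | cyc z ξ s2}) := hV.inter (isOpen_cyc z s2 hzs2)
    obtain ⟨β, hβ, hβ1, x, hx, y, hy, hxy, hax, hbx, hby, hlim⟩ := pairs h
      {ξ : X | cyc s1 ξ z} (V ∩ {ξ : X | cyc z ξ s2}) (isOpen_cyc s1 z hs1z) hV'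
      (nonempty_cyc s1 z hs1z) ⟨v, hvV, hc'⟩
    obtain ⟨f1, f2⟩ := cyc_facts hy hx.2 cz
    have hd := h.det1 β hβ
    have ht := hyp h hβ hβ1
    have hinv := ax_inv β hd ht
    refine key β hβ hβ1 β⁻¹ (fun n => -(n : ℤ)) x y (Γ.inv_mem hβ) (inv_ne_one.2 hβ1) hx.1
      (cyc_ne f1).1.symm (fun n => by rw [zpow_neg, inv_zpow, inv_inv, zpow_natCast]) hlim ?_ ?_
    · rw [hinv, val_neg]
      have h1 : ¬ 0 < (ax β).val z := fun h2 => cyc_asymm f1 ((hax z).1 h2)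
      linarith [not_lt.1 h1]
    · intro ξ hξ
      rw [hinv, val_neg]
      by_contra hcon
      have h1 : (ax β).val ξ < 0 := by linarith [not_le.1 hcon]
      have h2 : ¬ cyc x ξ y := fun h3 => absurd ((hax ξ).2 h3) (not_lt.2 h1.le)
      have h3 : ξ ≠ x := by
        intro h4
        rw [h4, (ax_val β hd ht x).2 hbx] at h1
        exact lt_irrefl _ h1
      have h4 : ξ ≠ y := by
        intro h4
        rw [h4, (ax_val β hd ht y).2 hby] at h1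
        exact lt_irrefl _ h1
      rcases cyc_total h3.symm h4 hxy.symm with h5 | h5
      · exact h2 h5
      · exact absurd ((hSp ξ).2 (f2 ξ h5)) (not_lt.2 hξ)

end Pool.Agent.H100R2.SC
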