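import Pool.Agent.H100R2.SC.Defs
import Pool.Agent.H100R2.SC.B2
import Pool.Agent.H100R2.SC.B4
import Pool.Agent.H100R2.SC.G1
import Pool.Agent.H100R2.SC.D1

set_option autoImplicit false

namespace Pool.Agent.H100R2.SC

open Filter Topology

namespace D2

/-- betweenness -/
lemma exists_between (x y : X) (h : x ≠ y) : ∃ z, cyc x z y := by
  induction x using OnePoint.rec with
  | infty =>
    induction y using OnePoint.rec with
    | infty => exact absurd rfl h
    | coe y =>
      refine ⟨((y - 1 : ℝ) : X), ?_⟩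
      show 0 < (1:ℝ) * ((y - 1) - y) * (-1)
      norm_num
  | coe x =>
    induction y using OnePoint.rec with
    | infty =>
      refine ⟨((x + 1 : ℝ) : X), ?_⟩
      show 0 < (x - (x + 1)) * (-1) * (1:ℝ)
      norm_num
    | coe y =>
      have hxy : x ≠ y := fun e => h (by rw [e])
      rcases lt_or_gt_of_ne hxy with h1 | h1
      · refine ⟨(((x + y) / 2 : ℝ) : X), ?_⟩
        show 0 < (x - (x + y) / 2) * ((x + y) / 2 - y) * (y - x)
        have e : (x - (x + y) / 2) * ((x + y) / 2 - y) * (y - x) = ((y - x) / 2) * ((y - x) / 2) * (y - x) := by ring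
        rw [e]
        have : 0 < y - x := by linarith
        positivity
      · refine ⟨(OnePoint.infty : X), ?_⟩
        show 0 < (-1 : ℝ) * 1 * (y - x)
        linarith

lemma cyc_rot2 {a b c : X} (h : cyc a b c) : cyc c a b := cyc_rot (cyc_rot h)

lemma isOpen_cyc (x y : X) : IsOpen {z : X | cyc x z y} := by
  by_cases h : x = y
  · have : {z : X | cyc x z y} = ∅ := by
      ext z
      constructor
      · intro hz
        exact ((cyc_ne hz).2.2 h.symm).elim
      · intro hz
        exact hz.elim
    rw [this]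
    exact isOpen_empty
  · obtain ⟨S, _, _, h3, _⟩ := exists_arc x y h
    have : {z : X | cyc x z y} = {z : X | 0 < S.val z} := by
      ext z
      exact (h3 z).symm
    rw [this]
    exact continuous_val_pos S

/-- the middle entry fixed, the two other ones may be moved -/
lemma cyc_pair {a b c : X} (h : cyc a b c) :
    ∃ A ∈ 𝓝 a, ∃ C ∈ 𝓝 c, ∀ a' ∈ A, ∀ c' ∈ C, cyc a' b c' := by
  obtain ⟨w, hw⟩ := exists_between c a (cyc_ne h).2.2
  have h1 := cyc_trans hw (cyc_rot2 h)
  refine ⟨{z | cyc w z b}, (isOpen_cyc w b).mem_nhds h1.2, {z | cyc b z w},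
    (isOpen_cyc b w).mem_nhds (cyc_rot2 h1.1), ?_⟩
  intro a' ha' c' hc'
  exact (cyc_trans ha' (cyc_rot2 hc')).2

/-- small arcs form a basis of neighbourhoods -/
lemma small_arc (ξ : X) (N : Set X) (hN : N ∈ 𝓝 ξ) :
    ∃ u v : X, cyc u ξ v ∧ ∀ z, cyc u z v → z ∈ N := by
  obtain ⟨N', hN'N, hN'o, hξ⟩ := mem_nhds_iff.mp hN
  induction ξ using OnePoint.rec with
  | infty =>
    obtain ⟨-, hK⟩ := (OnePoint.isOpen_iff_of_mem hξ).mp hN'o
    obtain ⟨M, hM⟩ := hK.isBounded.subset_closedBall 0
    have hM' : ∀ x : ℝ, M < |x| → ((x : ℝ) : X) ∈ N' := by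
      intro x hx
      by_contra hc
      have := hM (show x ∈ ((fun y : ℝ => (y : X)) ⁻¹' N')ᶜ from hc)
      rw [Metric.mem_closedBall, Real.dist_eq, sub_zero] at this
      linarith
    refine ⟨((|M| + 1 : ℝ) : X), ((-(|M| + 1) : ℝ) : X), ?_, ?_⟩
    · show 0 < (-1 : ℝ) * 1 * (-(|M| + 1) - (|M| + 1))
      have := abs_nonneg M
      linarith
    · intro z hz
      apply hN'N
      induction z using OnePoint.rec with
      | infty => exact hξ
      | coe z =>
        apply hM'
        by_contra hc
        push Not at hc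
        have h1 : 0 < ((|M| + 1) - z) * (z - (-(|M| + 1))) * (-(|M| + 1) - (|M| + 1)) := hz
        have h2 := le_abs_self M
        have h3 := abs_le.mp hc
        have h4 : 0 < (|M| + 1) - z := by linarith
        have h5 : 0 < z - (-(|M| + 1)) := by linarith
        have h6 := mul_pos h4 h5
        have h7 := abs_nonneg M
        nlinarith
  | coe x =>
    have h1 : (fun y : ℝ => (y : X)) ⁻¹' N' ∈ 𝓝 x :=
      OnePoint.continuous_coe.continuousAt.preimage_mem_nhds (hN'o.mem_nhds hξ)
    obtain ⟨δ, hδ, hb⟩ := Metric.mem_nhds_iff.mp h1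
    refine ⟨((x - δ : ℝ) : X), ((x + δ : ℝ) : X), ?_, ?_⟩
    · show 0 < ((x - δ) - x) * (x - (x + δ)) * ((x + δ) - (x - δ))
      have : ((x - δ) - x) * (x - (x + δ)) * ((x + δ) - (x - δ)) = δ * δ * (2 * δ) := by ring
      rw [this]
      positivity
    · intro z hz
      apply hN'N
      induction z using OnePoint.rec with
      | infty =>
        exfalso
        have h2 : 0 < (-1 : ℝ) * 1 * ((x + δ) - (x - δ)) := hz
        linarith
      | coe z =>
        apply hb
        rw [Metric.mem_ball, Real.dist_eq, abs_lt]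
        have h2 : 0 < ((x - δ) - z) * (z - (x + δ)) * ((x + δ) - (x - δ)) := hz
        have h3 : 0 < (x + δ) - (x - δ) := by linarith
        have h4 : 0 < ((x - δ) - z) * (z - (x + δ)) := (pos_iff_pos_of_mul_pos h2).mpr h3
        constructor
        · nlinarith
        · nlinarith

/-- neighbourhoods of the endpoints of a small arc -/
lemma small_pair (ξ : X) (N : Set X) (hN : N ∈ 𝓝 ξ) :
    ∃ a b : X, ∃ A B : Set X, cyc a ξ b ∧ A ∈ 𝓝 a ∧ B ∈ 𝓝 b ∧
      ∀ a' ∈ A, ∀ b' ∈ B, ∀ z, cyc a' z b' → z ∈ N := by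
  obtain ⟨u, v, huv, hz⟩ := small_arc ξ N hN
  obtain ⟨a, ha⟩ := exists_between u ξ (cyc_ne huv).1
  obtain ⟨b, hb⟩ := exists_between ξ v (cyc_ne huv).2.1
  have key : ∀ a' b' : X, cyc u a' ξ → cyc ξ b' v → cyc a' ξ b' ∧ ∀ z, cyc a' z b' → z ∈ N := by
    intro a' b' ha' hb'
    have h1 := cyc_trans ha' huv
    have h2 := cyc_trans (cyc_rot2 huv) (cyc_rot2 hb')
    -- h2 : cyc v u b' ∧ cyc u ξ b'
    have h3 := cyc_trans ha' h2.2
    -- h3 : cyc u a' b' ∧ cyc a' ξ b'
    refine ⟨h3.2, fun z hz' => hz z ?_⟩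
    have h4 := cyc_trans (cyc_rot2 h3.1) (cyc_rot2 hz')
    -- cyc b' u z
    exact (cyc_trans (cyc_rot h4.1) (cyc_rot h2.1)).1
  refine ⟨a, b, {z | cyc u z ξ}, {z | cyc ξ z v}, (key a b ha hb).1, (isOpen_cyc _ _).mem_nhds ha,
    (isOpen_cyc _ _).mem_nhds hb, ?_⟩
  intro a' ha' b' hb'
  exact (key a' b' ha' hb').2

/-- the neighbour of `p` in positive direction -/
lemma next (p : X) (P : Finset X) (hp : p ∉ P) (hne : P.Nonempty) :
    ∃ q ∈ P, ∀ q' ∈ P, q' = q ∨ cyc p q q' := by
  induction hne using Finset.Nonempty.cons_induction with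
  | singleton a => exact ⟨a, by simp, by simp⟩
  | cons a s ha hs ih =>
    have hp' : p ∉ s := fun h => hp (by simp [h])
    have hpa : p ≠ a := fun h => hp (by simp [h])
    obtain ⟨q, hq, h⟩ := ih hp'
    have hqa : q ≠ a := fun h' => ha (h' ▸ hq)
    have hqp : q ≠ p := fun h' => hp' (h' ▸ hq)
    rcases cyc_total hqp.symm hqa hpa.symm with h1 | h1
    · refine ⟨q, by simp [hq], ?_⟩
      intro q' hq'
      rcases Finset.mem_cons.mp hq' with e | e
      · right
        rw [e]
        exact h1
      · exact h q' e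
    · refine ⟨a, by simp, ?_⟩
      intro q' hq'
      rcases Finset.mem_cons.mp hq' with e | e
      · left
        exact e
      · right
        -- h1 : cyc a q p
        have h2 : cyc p a q := cyc_rot2 h1
        rcases h q' e with e' | e'
        · rw [e']
          exact h2
        · exact (cyc_trans h2 e').1

/-- the neighbour of `p` in negative direction -/
lemma prev (p : X) (P : Finset X) (hp : p ∉ P) (hne : P.Nonempty) :
    ∃ q ∈ P, ∀ q' ∈ P, q' = q ∨ cyc p q' q := by
  induction hne using Finset.Nonempty.cons_induction with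
  | singleton a => exact ⟨a, by simp, by simp⟩
  | cons a s ha hs ih =>
    have hp' : p ∉ s := fun h => hp (by simp [h])
    have hpa : p ≠ a := fun h => hp (by simp [h])
    obtain ⟨q, hq, h⟩ := ih hp'
    have hqa : q ≠ a := fun h' => ha (h' ▸ hq)
    have hqp : q ≠ p := fun h' => hp' (h' ▸ hq)
    rcases cyc_total hqp.symm hqa hpa.symm with h1 | h1
    · refine ⟨a, by simp, ?_⟩
      intro q' hq'
      rcases Finset.mem_cons.mp hq' with e | e
      · left
        exact e
      · right
        rcases h q' e with e' | e'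
        · rw [e']
          exact h1
        · exact (cyc_trans e' h1).1
    · refine ⟨q, by simp [hq], ?_⟩
      intro q' hq'
      rcases Finset.mem_cons.mp hq' with e | e
      · right
        rw [e]
        exact cyc_rot2 h1
      · exact h q' e

/-- an arc containing two given points but not a third one -/
lemma arc_two (u a b : X) (ha : a ≠ u) (hb : b ≠ u) :
    ∃ S : Arc, 0 < S.val a ∧ 0 < S.val b ∧ S.val u ≤ 0 := by
  -- it is enough to find `t` with `cyc u a t` and `cyc u b t`
  have key : ∃ t, cyc u a t ∧ cyc u b t := by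
    by_cases hab : a = b
    · subst hab
      obtain ⟨t, ht⟩ := exists_between a u ha
      exact ⟨t, cyc_rot2 ht, cyc_rot2 ht⟩
    · rcases cyc_total ha.symm hab hb with h1 | h1
      · obtain ⟨t, ht⟩ := exists_between b u hb
        exact ⟨t, (cyc_trans h1 (cyc_rot2 ht)).1, cyc_rot2 ht⟩
      · obtain ⟨t, ht⟩ := exists_between a u ha
        exact ⟨t, cyc_rot2 ht, (cyc_trans (cyc_rot2 h1) (cyc_rot2 ht)).1⟩
  obtain ⟨t, h1, h2⟩ := key
  obtain ⟨S, hS, _, hS1, _⟩ := exists_arc u t (cyc_ne h1).2.2.symm
  exact ⟨S, (hS1 a).mpr h1, (hS1 b).mpr h2, hS.le⟩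

/-- approximation at finitely many points -/
lemma finite_approx {Γ : Subgroup GG} (h : Fuchs Γ) (f : X ≃ₜ X) (hf : OrP f) (P : Finset X) :
    ∀ V : X → Set X, (∀ p ∈ P, V p ∈ 𝓝 (f p)) →
      ∃ s : X ≃ₜ X, Good Γ s ∧ OrP s ∧ ∀ p ∈ P, s p ∈ V p := by
  classical
  induction P using Finset.induction_on with
  | empty =>
    intro V _
    exact ⟨Homeomorph.refl X, good_refl Γ, fun a b c h => h, by simp⟩
  | insert p P hp ih =>
    intro V hV
    -- it is enough to find, for the induction hypothesis, a smaller neighbourhood system and an arc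
    have main : ∃ W : X → Set X, (∀ q ∈ P, W q ∈ 𝓝 (f q)) ∧ (∀ q ∈ P, W q ⊆ V q) ∧
        ∀ s : X ≃ₜ X, OrP s → (∀ q ∈ P, s q ∈ W q) →
          ∃ S : Arc, 0 < S.val (s p) ∧ 0 < S.val (f p) ∧ ∀ q ∈ P, S.val (s q) ≤ 0 := by
      rcases P.eq_empty_or_nonempty with hP | hP
      · subst hP
        refine ⟨V, by simp, by simp, ?_⟩
        intro s hs _
        -- a point different from `s p` and `f p`
        have : ∃ u : X, s p ≠ u ∧ f p ≠ u := by
          have hinf : Infinite X := inferInstance
          obtain ⟨u, hu⟩ := Infinite.exists_notMem_finset ({s p, f p} : Finset X)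
          simp only [Finset.mem_insert, Finset.mem_singleton, not_or] at hu
          exact ⟨u, fun e => hu.1 e.symm, fun e => hu.2 e.symm⟩
        obtain ⟨u, hu1, hu2⟩ := this
        obtain ⟨S, h1, h2, _⟩ := arc_two u (s p) (f p) hu1 hu2
        exact ⟨S, h1, h2, by simp⟩
      · obtain ⟨q, hq, hq'⟩ := next p P hp hP
        obtain ⟨r, hr, hr'⟩ := prev p P hp hP
        have hqp : q ≠ p := fun e => hp (e ▸ hq)
        by_cases hqr : q = r
        · -- only one point
          subst hqr
          have hone : ∀ x ∈ P, x = q := by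
            intro x hx
            rcases hq' x hx with e | e
            · exact e
            · rcases hr' x hx with e' | e'
              · exact e'
              · exact absurd (cyc_rot e') (cyc_asymm e)
          refine ⟨fun x => V x ∩ {y | y ≠ f p}, ?_, fun x _ => Set.inter_subset_left, ?_⟩
          · intro x hx
            refine Filter.inter_mem (hV x (Finset.mem_insert_of_mem hx)) ?_
            refine isOpen_ne.mem_nhds ?_
            intro e
            exact hp ((f.injective e) ▸ hx)
          · intro s hs hsW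
            obtain ⟨S, h1, h2, h3⟩ := arc_two (s q) (s p) (f p) (fun e => hqp (s.injective e).symm)
              (fun e => (hsW q hq).2 e.symm)
            refine ⟨S, h1, h2, ?_⟩
            intro x hx
            rw [hone x hx]
            exact h3
        · -- two neighbours
          have hcyc : cyc p q r := by
            rcases hr' q hq with e | e
            · exact absurd e hqr
            · exact e
          -- cyc r p q
          have hfc : cyc (f r) (f p) (f q) := hf _ _ _ (cyc_rot2 hcyc)
          obtain ⟨A, hA, C, hC, hAC⟩ := cyc_pair hfc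
          refine ⟨fun x => V x ∩ ({y | x = r → y ∈ A} ∩ {y | x = q → y ∈ C}), ?_,
            fun x _ => Set.inter_subset_left, ?_⟩
          · intro x hx
            refine Filter.inter_mem (hV x (Finset.mem_insert_of_mem hx)) (Filter.inter_mem ?_ ?_)
            · by_cases e : x = r
              · subst e
                exact Filter.mem_of_superset hA (fun y hy _ => hy)
              · exact Filter.mem_of_superset Filter.univ_mem (fun y _ e' => absurd e' e)
            · by_cases e : x = q
              · subst e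
                exact Filter.mem_of_superset hC (fun y hy _ => hy)
              · exact Filter.mem_of_superset Filter.univ_mem (fun y _ e' => absurd e' e)
          · intro s hs hsW
            have h1 : cyc (s r) (f p) (s q) :=
              hAC _ ((hsW r hr).2.1 rfl) _ ((hsW q hq).2.2 rfl)
            have h2 : cyc (s r) (s p) (s q) := hs _ _ _ (cyc_rot2 hcyc)
            obtain ⟨S, hS1, hS2, hS3, hS4⟩ := exists_arc (s r) (s q) (cyc_ne h1).2.2.symm
            refine ⟨S, (hS3 _).mpr h2, (hS3 _).mpr h1, ?_⟩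
            intro x hx
            rcases hq' x hx with e | e
            · rw [e, hS2]
            · rcases hr' x hx with e' | e'
              · rw [e', hS1]
              · -- cyc p q x, cyc p x r
                have h5 : cyc q x r := (cyc_trans e e').2
                exact ((hS4 _).mpr (hs _ _ _ h5)).le
    obtain ⟨W, hW1, hW2, hW3⟩ := main
    obtain ⟨s, hs1, hs2, hs3⟩ := ih (fun x => interior (W x))
      (fun q hq => interior_mem_nhds.mpr (hW1 q hq))
    obtain ⟨S, hS1, hS2, hS3⟩ := hW3 s hs2 (fun q hq => interior_subset (hs3 q hq))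
    -- tolerance
    have htol : ∃ ε > 0, ∀ q ∈ P, ∀ η, dd (s q) η < ε → η ∈ V q := by
      have : ∀ Q : Finset X, (∀ q ∈ Q, V q ∈ 𝓝 (s q)) →
          ∃ ε > 0, ∀ q ∈ Q, ∀ η, dd (s q) η < ε → η ∈ V q := by
        intro Q
        induction Q using Finset.induction_on with
        | empty =>
          intro _
          exact ⟨1, one_pos, by simp⟩
        | insert x Q hx ihQ =>
          intro hQ
          obtain ⟨ε1, h1, h1'⟩ := ihQ (fun q hq => hQ q (Finset.mem_insert_of_mem hq))
          obtain ⟨ε2, h2, h2'⟩ := dd_nhds (s x) (V x) (hQ x (Finset.mem_insert_self _ _))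
          refine ⟨min ε1 ε2, lt_min h1 h2, ?_⟩
          intro q hq η hη
          rcases Finset.mem_insert.mp hq with e | e
          · subst e
            exact h2' η (hη.trans_le (min_le_right _ _))
          · exact h1' q e η (hη.trans_le (min_le_left _ _))
      apply this
      intro q hq
      exact Filter.mem_of_superset (mem_interior_iff_mem_nhds.mp (hs3 q hq)) (hW2 q hq)
    obtain ⟨ε, hε, htol⟩ := htol
    obtain ⟨g, hg1, hg2, hg3, hg4⟩ := move h S (s p) (f p) hS1 hS2 (interior (V p)) isOpen_interior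
      (mem_interior_iff_mem_nhds.mpr (hV p (Finset.mem_insert_self _ _))) ε hε
    refine ⟨s.trans g, good_comp s g hs1 hg1, fun a b c habc => hg2 _ _ _ (hs2 _ _ _ habc), ?_⟩
    intro q hq
    rcases Finset.mem_insert.mp hq with e | e
    · subst e
      exact interior_subset hg3
    · apply htol q e
      rw [dd_comm]
      exact hg4 _ (hS3 q e)

end D2

theorem density_pos {Γ : Subgroup GG} (h : Fuchs Γ) (f : X ≃ₜ X) (hf : OrP f) (ε : ℝ) (hε : 0 < ε) :
    ∃ k : X ≃ₜ X, Good Γ k ∧ ∀ ξ, dd (k ξ) (f ξ) < ε := by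
  classical
  -- neighbourhoods with small image
  have hN : ∀ ζ : X, {η : X | dd (f ζ) (f η) < ε / 2} ∈ 𝓝 ζ := by
    intro ζ
    exact f.continuous.continuousAt.preimage_mem_nhds (dd_ball (f ζ) (ε / 2) (by positivity))
  have h1 := fun ζ : X => D2.small_pair ζ _ (hN ζ)
  choose a b A B hab hA hB hAB using h1
  obtain ⟨t, -, ht⟩ := isCompact_univ.elim_nhds_subcover (fun ζ : X => {η : X | cyc (a ζ) η (b ζ)})
    (fun ζ _ => (D2.isOpen_cyc _ _).mem_nhds (hab ζ))
  obtain ⟨s, hs1, hs2, hs3⟩ := D2.finite_approx h f hf (t.image a ∪ t.image b)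
    (fun p => {y : X | ∀ ζ ∈ t, (a ζ = p → f.symm y ∈ A ζ) ∧ (b ζ = p → f.symm y ∈ B ζ)}) (by
      intro p _
      have hc : Tendsto (fun y => f.symm y) (𝓝 (f p)) (𝓝 p) := by
        have := f.symm.continuous.tendsto (f p)
        rwa [f.symm_apply_apply] at this
      refine (Filter.eventually_all_finset t).mpr ?_
      intro ζ _
      refine Filter.Eventually.and ?_ ?_
      · by_cases e : a ζ = p
        · have : ∀ᶠ y in 𝓝 (f p), f.symm y ∈ A ζ := hc (by rw [← e]; exact hA ζ)
          exact this.mono (fun y hy _ => hy)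
        · exact Filter.Eventually.of_forall (fun y e' => absurd e' e)
      · by_cases e : b ζ = p
        · have : ∀ᶠ y in 𝓝 (f p), f.symm y ∈ B ζ := hc (by rw [← e]; exact hB ζ)
          exact this.mono (fun y hy _ => hy)
        · exact Filter.Eventually.of_forall (fun y e' => absurd e' e))
  refine ⟨s, hs1, ?_⟩
  intro ξ
  have h2 := ht (Set.mem_univ ξ)
  simp only [Set.mem_iUnion] at h2
  obtain ⟨ζ, hζ, hξ⟩ := h2
  have hξ' : cyc (a ζ) ξ (b ζ) := hξ
  have ha := (hs3 (a ζ) (Finset.mem_union_left _ (Finset.mem_image_of_mem a hζ)) ζ hζ).1 rfl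
  have hb := (hs3 (b ζ) (Finset.mem_union_right _ (Finset.mem_image_of_mem b hζ)) ζ hζ).2 rfl
  -- orientation of `f.symm`
  have hfs : OrP (fun x => f.symm x) := by
    intro x y z hxyz
    have hx := cyc_ne hxyz
    rcases cyc_total (a := f.symm x) (b := f.symm y) (c := f.symm z)
      (fun e => hx.1 (f.symm.injective e)) (fun e => hx.2.1 (f.symm.injective e))
      (fun e => hx.2.2 (f.symm.injective e)) with h3 | h3
    · exact h3
    · exfalso
      have h4 := hf _ _ _ h3
      rw [f.apply_symm_apply, f.apply_symm_apply, f.apply_symm_apply] at h4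
      exact cyc_asymm hxyz h4
  have h5 : cyc (f.symm (s (a ζ))) (f.symm (s ξ)) (f.symm (s (b ζ))) := hfs _ _ _ (hs2 _ _ _ hξ')
  have h6 := hAB ζ _ ha _ hb _ h5
  have h7 := hAB ζ _ (mem_of_mem_nhds (hA ζ)) _ (mem_of_mem_nhds (hB ζ)) _ hξ'
  have h8 : dd (f ζ) (s ξ) < ε / 2 := by
    have : dd (f ζ) (f (f.symm (s ξ))) < ε / 2 := h6
    rwa [f.apply_symm_apply] at this
  have h9 : dd (f ζ) (f ξ) < ε / 2 := h7
  calc dd (s ξ) (f ξ) ≤ dd (s ξ) (f ζ) + dd (f ζ) (f ξ) := dd_triangle _ _ _
    _ = dd (f ζ) (s ξ) + dd (f ζ) (f ξ) := by rw [dd_comm (s ξ) (f ζ)]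
    _ < ε := by linarith

end Pool.Agent.H100R2.SC
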