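import Mathlib

/-!
# Density of the commensurator of a surface group in Homeo(S^1): definitions (helper100)

`X = OnePoint ℝ` is the circle, `GG = GL (Fin 2) ℝ` acts on it (Mathlib).
An `Arc` is an indefinite binary quadratic form `p x^2 + 2 q x y + r y^2` with `p r - q^2 = -1`; it stands for
the open arc of the circle where the form is positive, equivalently for an oriented geodesic of the
hyperbolic plane.  `S ≤ T` (values of forms) is inclusion of arcs, `-S` is the complementary arc,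
`S ≤ -T` means that the arcs are disjoint.
-/

set_option autoImplicit false

namespace Pool.Agent.H100R2.SC

open Matrix

abbrev GG := GL (Fin 2) ℝ
abbrev X := OnePoint ℝ

/-- determinant as a real number -/
def dt (g : GG) : ℝ := (g : Matrix (Fin 2) (Fin 2) ℝ).det

/-- trace as a real number -/
def trc (g : GG) : ℝ := (g : Matrix (Fin 2) (Fin 2) ℝ) 0 0 + (g : Matrix (Fin 2) (Fin 2) ℝ) 1 1

/-- discrete, torsion free, cocompact subgroups of `SL(2,ℝ)` (seen in `GL(2,ℝ)`) -/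
structure Fuchs (Γ : Subgroup GG) : Prop where
  det1 : ∀ g ∈ Γ, dt g = 1
  disc : ∀ M : ℝ, {g : GG | g ∈ Γ ∧ ∀ i j, |(g : Matrix (Fin 2) (Fin 2) ℝ) i j| ≤ M}.Finite
  tf : ∀ g ∈ Γ, ∀ n : ℕ, 0 < n → g ^ n = 1 → g = 1
  coc : ∃ C : ℝ, ∀ g : GG, dt g = 1 → ∃ γ ∈ Γ, ∀ i j,
    |((γ⁻¹ * g : GG) : Matrix (Fin 2) (Fin 2) ℝ) i j| ≤ C

/-- chordal distance on the circle -/
noncomputable def dd (a b : X) : ℝ :=
  a.elim (b.elim 0 (fun y => 1 / √(1 + y ^ 2)))
    (fun x => b.elim (1 / √(1 + x ^ 2)) (fun y => |x - y| / (√(1 + x ^ 2) * √(1 + y ^ 2))))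

/-- the symplectic form on representative vectors `(x,1)`, `(1,0)` -/
def om (a b : X) : ℝ :=
  a.elim (b.elim 0 (fun _ => 1)) (fun x => b.elim (-1) (fun y => x - y))

/-- `a, b, c` are distinct and in positive cyclic order -/
def cyc (a b c : X) : Prop := 0 < om a b * om b c * om c a

def OrP (f : X → X) : Prop := ∀ a b c, cyc a b c → cyc (f a) (f b) (f c)
def OrN (f : X → X) : Prop := ∀ a b c, cyc a b c → cyc (f c) (f b) (f a)

/-- homeomorphisms conjugating a finite index subgroup of `Γ` into `Γ` -/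
def Good (Γ : Subgroup GG) (f : X ≃ₜ X) : Prop :=
  ∃ A : Subgroup GG, A ≤ Γ ∧ A.relIndex Γ ≠ 0 ∧ ∀ a ∈ A, ∃ γ ∈ Γ, ∀ ξ : X, f (a • ξ) = γ • f ξ

/-! ### arcs -/

@[ext] structure Arc where
  p : ℝ
  q : ℝ
  r : ℝ
  h : p * r - q ^ 2 = -1

namespace Arc

/-- value of the form at the vector `(x,y)` -/
def ev (S : Arc) (x y : ℝ) : ℝ := S.p * x ^ 2 + 2 * S.q * x * y + S.r * y ^ 2

/-- value of the form at a point of the circle (representatives `(x,1)` and `(1,0)`);
the open arc of `S` is `{ξ | 0 < S.val ξ}` -/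
def val (S : Arc) (ξ : X) : ℝ := ξ.elim S.p (fun x => S.ev x 1)

def tr (S : Arc) : ℝ := S.p + S.r

instance : Neg Arc := ⟨fun S => ⟨-S.p, -S.q, -S.r, by have := S.h; nlinarith⟩⟩

@[simp] lemma neg_p (S : Arc) : (-S).p = -S.p := rfl
@[simp] lemma neg_q (S : Arc) : (-S).q = -S.q := rfl
@[simp] lemma neg_r (S : Arc) : (-S).r = -S.r := rfl

instance : InvolutiveNeg Arc := ⟨fun S => by ext <;> simp⟩

lemma ev_neg (S : Arc) (x y : ℝ) : (-S).ev x y = - S.ev x y := by simp [ev]; ring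

instance : PartialOrder Arc where
  le S T := ∀ x y, S.ev x y ≤ T.ev x y
  le_refl S x y := le_refl _
  le_trans S T U h1 h2 x y := (h1 x y).trans (h2 x y)
  le_antisymm S T h1 h2 := by
    have h : ∀ x y, S.ev x y = T.ev x y := fun x y => le_antisymm (h1 x y) (h2 x y)
    have a := h 1 0
    have b := h 0 1
    have c := h 1 1
    simp only [ev] at a b c
    ext <;> nlinarith

lemma le_def (S T : Arc) : S ≤ T ↔ ∀ x y, S.ev x y ≤ T.ev x y := Iff.rfl

lemma neg_le_neg {S T : Arc} (h : S ≤ T) : -T ≤ -S := by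
  intro x y
  rw [ev_neg, ev_neg]
  linarith [h x y]

lemma le_neg_comm {S T : Arc} (h : S ≤ -T) : T ≤ -S := by
  have := neg_le_neg h
  rwa [neg_neg] at this

lemma not_le_and {S T : Arc} (h1 : S ≤ T) (h2 : S ≤ -T) : False := by
  have h3 : ∀ x y, S.ev x y ≤ 0 := by
    intro x y
    have a := h1 x y
    have b := h2 x y
    rw [ev_neg] at b
    linarith
  have a := h3 1 0
  have b := h3 0 1
  have c := h3 (-S.q) S.p
  have e := h3 S.r (-S.q)
  simp only [ev] at a b c e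
  have hh := S.h
  by_cases hp : S.p = 0
  · have h0 : S.q ^ 2 = 1 := by rw [hp] at hh; nlinarith
    have f1 := h3 S.r (-S.q)
    have f2 := h3 1 S.q
    have f3 := h3 1 (-S.q)
    have f4 := h3 (1 + S.r ^ 2) (S.q)
    have f5 := h3 ((1 + S.r ^ 2)) (-S.q)
    simp only [ev, hp] at f1 f2 f3 f4 f5
    nlinarith
  · have hp' : S.p < 0 := by
      rcases lt_or_gt_of_ne hp with h | h
      · exact h
      · nlinarith
    have : S.p * (-S.q) ^ 2 + 2 * S.q * (-S.q) * S.p + S.r * S.p ^ 2 = S.p * (S.p * S.r - S.q ^ 2) := by ring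
    rw [this, hh] at c
    nlinarith

end Arc

/-- the pairing of arcs: `BB S S = 1`; `|BB S T| < 1` iff the geodesics cross,
`BB S T = -cosh d` for disjoint arcs -/
noncomputable def BB (S T : Arc) : ℝ := -(S.p * T.r + S.r * T.p - 2 * S.q * T.q) / 2

/-- `cosh^2 (d/2)` for disjoint arcs at distance `d` -/
noncomputable def kap (S T : Arc) : ℝ := (1 - BB S T) / 2

/-- orientation of three (pairwise disjoint) arcs: positive iff they are in positive cyclic order -/
def Del (S T U : Arc) : ℝ :=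
  S.p * (T.q * U.r - T.r * U.q) - S.q * (T.p * U.r - T.r * U.p) + S.r * (T.p * U.q - T.q * U.p)

/-- coefficients of `g • S`: the form `v ↦ S (adj(g) v) / |det g|` -/
noncomputable instance : SMul GG Arc where
  smul g S :=
    let a := (g : Matrix (Fin 2) (Fin 2) ℝ) 0 0
    let b := (g : Matrix (Fin 2) (Fin 2) ℝ) 0 1
    let c := (g : Matrix (Fin 2) (Fin 2) ℝ) 1 0
    let d := (g : Matrix (Fin 2) (Fin 2) ℝ) 1 1
    ⟨(S.p * d ^ 2 - 2 * S.q * c * d + S.r * c ^ 2) / |dt g|,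
     (- S.p * b * d + S.q * (a * d + b * c) - S.r * a * c) / |dt g|,
     (S.p * b ^ 2 - 2 * S.q * a * b + S.r * a ^ 2) / |dt g|, by
      have h0 : dt g ≠ 0 := by
        have := (Matrix.GeneralLinearGroup.det g).ne_zero
        exact this
      have h1 : |dt g| ≠ 0 := abs_ne_zero.mpr h0
      have h2 : |dt g| ^ 2 = (a * d - b * c) ^ 2 := by
        rw [sq_abs, dt, Matrix.det_fin_two]
      have h3 := S.h
      have h5 : (S.p * d ^ 2 - 2 * S.q * c * d + S.r * c ^ 2) / |dt g| *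
          ((S.p * b ^ 2 - 2 * S.q * a * b + S.r * a ^ 2) / |dt g|) -
          ((- S.p * b * d + S.q * (a * d + b * c) - S.r * a * c) / |dt g|) ^ 2 =
          ((S.p * d ^ 2 - 2 * S.q * c * d + S.r * c ^ 2) * (S.p * b ^ 2 - 2 * S.q * a * b + S.r * a ^ 2) -
          (- S.p * b * d + S.q * (a * d + b * c) - S.r * a * c) ^ 2) / |dt g| ^ 2 := by
        field_simp
      rw [h5, h2, div_eq_iff (by rw [← h2]; positivity)]
      linear_combination (a * d - b * c) ^ 2 * h3⟩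

lemma smul_ev (g : GG) (S : Arc) (x y : ℝ) : (g • S).ev x y =
    S.ev ((g : Matrix (Fin 2) (Fin 2) ℝ) 1 1 * x - (g : Matrix (Fin 2) (Fin 2) ℝ) 0 1 * y)
      (-(g : Matrix (Fin 2) (Fin 2) ℝ) 1 0 * x + (g : Matrix (Fin 2) (Fin 2) ℝ) 0 0 * y) / |dt g| := by
  show ((_ : ℝ) / |dt g|) * x ^ 2 + 2 * ((_ : ℝ) / |dt g|) * x * y + ((_ : ℝ) / |dt g|) * y ^ 2 = _
  simp only [Arc.ev]
  ring

lemma Arc.ext_ev {S T : Arc} (h : ∀ x y, S.ev x y = T.ev x y) : S = T :=
  le_antisymm (fun x y => (h x y).le) (fun x y => (h x y).ge)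

lemma dt_mul (g h : GG) : dt (g * h) = dt g * dt h := by
  simp [dt]

lemma dt_one : dt (1 : GG) = 1 := by simp [dt]

lemma dt_ne_zero (g : GG) : dt g ≠ 0 := (Matrix.GeneralLinearGroup.det g).ne_zero

noncomputable instance : MulAction GG Arc where
  one_smul S := by
    apply Arc.ext_ev
    intro x y
    rw [smul_ev]
    simp [dt_one]
  mul_smul g h S := by
    apply Arc.ext_ev
    intro x y
    rw [smul_ev, smul_ev, smul_ev, dt_mul, abs_mul]
    have e1 := congrFun (congrFun (show ((g * h : GG) : Matrix (Fin 2) (Fin 2) ℝ) = (g : Matrix (Fin 2) (Fin 2) ℝ) * (h : Matrix (Fin 2) (Fin 2) ℝ) from rfl) 0) 0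
    have e2 := congrFun (congrFun (show ((g * h : GG) : Matrix (Fin 2) (Fin 2) ℝ) = (g : Matrix (Fin 2) (Fin 2) ℝ) * (h : Matrix (Fin 2) (Fin 2) ℝ) from rfl) 0) 1
    have e3 := congrFun (congrFun (show ((g * h : GG) : Matrix (Fin 2) (Fin 2) ℝ) = (g : Matrix (Fin 2) (Fin 2) ℝ) * (h : Matrix (Fin 2) (Fin 2) ℝ) from rfl) 1) 0
    have e4 := congrFun (congrFun (show ((g * h : GG) : Matrix (Fin 2) (Fin 2) ℝ) = (g : Matrix (Fin 2) (Fin 2) ℝ) * (h : Matrix (Fin 2) (Fin 2) ℝ) from rfl) 1) 1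
    rw [Matrix.mul_apply, Fin.sum_univ_two] at e1 e2 e3 e4
    rw [e1, e2, e3, e4, div_div, mul_comm |dt g| |dt h|]
    congr 2
    · ring
    · ring

/-- the standard arc `(-∞,0)` -/
def S0 : Arc := ⟨0, -1, 0, by norm_num⟩

open Classical in
/-- oriented axis of a hyperbolic element of determinant one: the open arc `ax g` goes (in positive
direction) from the attracting fixed point to the repelling fixed point of `g`
(for `g = diag(l,1/l)`, `l > 1`, it is `(-∞,0)`). -/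
noncomputable def ax (g : GG) : Arc :=
  if hg : dt g = 1 ∧ 4 < trc g ^ 2 then
    ⟨2 * SignType.sign (trc g) / √(trc g ^ 2 - 4) * (g : Matrix (Fin 2) (Fin 2) ℝ) 1 0,
     2 * SignType.sign (trc g) / √(trc g ^ 2 - 4) *
      (((g : Matrix (Fin 2) (Fin 2) ℝ) 1 1 - (g : Matrix (Fin 2) (Fin 2) ℝ) 0 0) / 2),
     - (2 * SignType.sign (trc g) / √(trc g ^ 2 - 4) * (g : Matrix (Fin 2) (Fin 2) ℝ) 0 1), by
      obtain ⟨h1, h2⟩ := hg
      have h3 : (0:ℝ) < trc g ^ 2 - 4 := by linarith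
      have h4 : √(trc g ^ 2 - 4) ^ 2 = trc g ^ 2 - 4 := Real.sq_sqrt h3.le
      have h5 : ((SignType.sign (trc g) : SignType) : ℝ) ^ 2 = 1 := by
        have : trc g ≠ 0 := by
          intro h
          rw [h] at h2
          norm_num at h2
        rcases lt_or_gt_of_ne this with h | h
        · simp [sign_neg h]
        · simp [sign_pos h]
      have h6 : (2 * ((SignType.sign (trc g) : SignType) : ℝ) / √(trc g ^ 2 - 4)) ^ 2 * (trc g ^ 2 - 4) = 4 := by
        rw [div_pow, h4, mul_pow, h5]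
        field_simp
        norm_num
      have h7 := h1
      rw [dt, Matrix.det_fin_two] at h7
      have h8 : trc g = (g : Matrix (Fin 2) (Fin 2) ℝ) 0 0 + (g : Matrix (Fin 2) (Fin 2) ℝ) 1 1 := rfl
      generalize (2 * ((SignType.sign (trc g) : SignType) : ℝ) / √(trc g ^ 2 - 4)) = s at h6 ⊢
      rw [h8] at h6
      linear_combination (-1/4) * h6 + (s ^ 2) * h7⟩
  else S0

/-! ### nested families, regions -/

/-- families of pairwise non-crossing oriented geodesics, closed under reversal, locally finite -/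
structure Nest (L : Set Arc) : Prop where
  neg : ∀ S ∈ L, -S ∈ L
  nest : ∀ S ∈ L, ∀ T ∈ L, S ≤ T ∨ T ≤ S ∨ S ≤ -T ∨ -T ≤ S
  lf : ∀ M : ℝ, {S | S ∈ L ∧ |S.tr| ≤ M}.Finite
  ne : ∀ S ∈ L, ∀ T ∈ L, ∀ ξ : X, S.val ξ = 0 → T.val ξ = 0 → S = T ∨ S = -T

/-- `S` and `T` bound the same region (the arcs `S`, `T` are on the other side): `S = T`, or the arcs
are disjoint and nothing of `L` is strictly between `S` and `-T`.  The classes of this relation are
the regions (vertices of the dual tree); crossing the geodesic of `S` leads from the region of `S`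
to the region of `-S`. -/
def Adj (L : Set Arc) (S T : Arc) : Prop :=
  S ∈ L ∧ T ∈ L ∧ (S = T ∨ (S ≤ -T ∧ S ≠ -T ∧ ∀ R ∈ L, S ≤ R → R ≤ -T → R = S ∨ R = -T))

/-- `ξ` is in the limit set of the region of `S`: in none of the open arcs bounding the region -/
def Lam (L : Set Arc) (S : Arc) (ξ : X) : Prop := ∀ T, Adj L S T → T.val ξ ≤ 0

/-- `A`-invariant nested families of axes of elements of `A` -/
structure Fam (A : Subgroup GG) (L : Set Arc) : Prop extends Nest L where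
  inv : ∀ a ∈ A, ∀ S ∈ L, a • S ∈ L
  axs : ∀ S ∈ L, ∃ α ∈ A, α ≠ 1 ∧ ax α = S
  ne0 : L.Nonempty

/-- orbit of a geodesic (both orientations) -/
def Orb (A : Subgroup GG) (D : Arc) : Set Arc := {T | ∃ a ∈ A, T = a • D ∨ T = -(a • D)}

/-- `α` generates the stabilizer of `S` in `A` and has axis `S` -/
def IsGen (A : Subgroup GG) (S : Arc) (α : GG) : Prop :=
  α ∈ A ∧ α ≠ 1 ∧ ax α = S ∧ ∀ g ∈ A, g • S = S → ∃ n : ℤ, g = α ^ n

/-- the pairs of arcs `{S,U}` and `{T,V}` are linked -/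
def Linked (S U T V : Arc) : Prop :=
  (0 < Del S T U ∧ 0 < Del U V S) ∨ (0 < Del S V U ∧ 0 < Del U T S)

/-- no translate of the pair `{H,H'}` (inside the region) is linked with it -/
def Unl (A : Subgroup GG) (L : Set Arc) (H H' : Arc) : Prop :=
  ∀ c ∈ A, Adj L H (c • H) → ¬ Linked H H' (c • H) (c • H')

/-- the region of `S` is reflective: an orientation reversing isometry normalizes its stabilizer and
maps every bounding geodesic to a translate of it -/
def Refl (A : Subgroup GG) (L : Set Arc) (S : Arc) : Prop :=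
  ∃ ρ : GG, dt ρ < 0 ∧
    (∀ a ∈ A, Adj L S (a • S) → ρ * a * ρ⁻¹ ∈ A ∧ Adj L S ((ρ * a * ρ⁻¹) • S)) ∧
    (∀ a ∈ A, Adj L S (a • S) → ρ⁻¹ * a * ρ ∈ A ∧ Adj L S ((ρ⁻¹ * a * ρ) • S)) ∧
    (∀ T, Adj L S T → ∃ a ∈ A, Adj L S (a • S) ∧ ρ • T = a • T)

/-- the subgroup of `GL(2,ℝ)` coming from a subgroup of `SL(2,ℝ)` -/
def toGG (Γ : Subgroup (Matrix.SpecialLinearGroup (Fin 2) ℝ)) : Subgroup GG :=
  Γ.map Matrix.SpecialLinearGroup.toGL

/-- piecewise Möbius data: a potential `F` with increments `τ` -/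
structure PM (L : Set Arc) (τ F : Arc → GG) : Prop where
  h1 : ∀ S ∈ L, F (-S) = F S * τ S
  h2 : ∀ S T, Adj L S T → F S = F T
  h3 : ∀ S ∈ L, τ S • S = S ∧ 0 < dt (τ S)
  h4 : ∀ S T, Adj L S T → Adj L (F S • S) (F S • T)
  h5 : ∀ S U, S ∈ L → Adj L (F S • S) U → Adj L S ((F S)⁻¹ • U)

/-- `f` is the piecewise Möbius map of the potential `F` -/
structure IsPM (L : Set Arc) (F : Arc → GG) (f : X → X) : Prop where
  c1 : ∀ S ∈ L, ∀ ξ, Lam L S ξ → f ξ = F S • ξ
  c2 : ∀ S ∈ L, ∀ ξ, 0 ≤ S.val ξ → 0 ≤ (F S • S).val (f ξ)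

/-- orientation reversing cosets attached to the regions -/
structure IsN (A : Subgroup GG) (L : Set Arc) (N : Arc → Set GG) : Prop where
  adj : ∀ S T, Adj L S T → N S = N T
  conj : ∀ a ∈ A, ∀ S ∈ L, ∀ n ∈ N S, a * n * a⁻¹ ∈ N (a • S)
  fix : ∀ S ∈ L, ∃ n ∈ N S, n • S = S
  div : ∀ S ∈ L, ∀ n ∈ N S, ∀ n' ∈ N S, n * n'⁻¹ ∈ A
  det : ∀ S ∈ L, ∀ n ∈ N S, dt n < 0
  pres : ∀ S ∈ L, ∀ n ∈ N S, ∀ T, Adj L S T → Adj L S (n • T) ∧ Adj L S (n⁻¹ • T)

/-- edges of the region graph do not cross the new geodesic -/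
def EdgeSep (A : Subgroup GG) (L : Set Arc) (H H' D : Arc) : Prop :=
  ∀ c ∈ A, Adj L H (c • H) → (c • H ≤ D ↔ c • H' ≤ D)

end Pool.Agent.H100R2.SC
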