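import Pool.Agent.H100R2.SC.Defs

/-! F1 with the needed facts as hypotheses (helper802). -/

set_option autoImplicit false

namespace Pool.Agent.H100R2.SC

/-- F1, everything used is a hypothesis (statements of B4, G1, D2, C12 of the stubs) -/
theorem density_all_of
    (orient : ∀ f : X ≃ₜ X, OrP f ∨ OrN f)
    (cyc_total : ∀ {a b c : X}, a ≠ b → b ≠ c → c ≠ a → cyc a b c ∨ cyc c b a)
    (cyc_asymm : ∀ {a b c : X}, cyc a b c → ¬ cyc c b a)
    (cyc_ne : ∀ {a b c : X}, cyc a b c → a ≠ b ∧ b ≠ c ∧ c ≠ a)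
    (good_comp : ∀ {Γ : Subgroup GG} (f g : X ≃ₜ X), Good Γ f → Good Γ g → Good Γ (f.trans g))
    (density_pos : ∀ {Γ : Subgroup GG}, Fuchs Γ → ∀ f : X ≃ₜ X, OrP f → ∀ ε : ℝ, 0 < ε →
      ∃ k : X ≃ₜ X, Good Γ k ∧ ∀ ξ, dd (k ξ) (f ξ) < ε)
    (reversing : ∀ {Γ : Subgroup GG}, Fuchs Γ → ∃ f : X ≃ₜ X, Good Γ f ∧ OrN f)
    {Γ : Subgroup GG} (h : Fuchs Γ) (f : X ≃ₜ X) (ε : ℝ) (hε : 0 < ε) :
    ∃ k : X ≃ₜ X, Good Γ k ∧ ∀ ξ, dd (k ξ) (f ξ) < ε := by
  rcases orient f with hf | hf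
  · exact density_pos h f hf ε hε
  · obtain ⟨ρ, hρ, hρN⟩ := reversing h
    have hg : OrP (ρ.symm.trans f) := by
      intro a b c habc
      obtain ⟨h1, h2, h3⟩ := cyc_ne habc
      have key : cyc (ρ.symm c) (ρ.symm b) (ρ.symm a) := by
        rcases cyc_total (a := ρ.symm a) (b := ρ.symm b) (c := ρ.symm c)
          (fun e => h1 (ρ.symm.injective e)) (fun e => h2 (ρ.symm.injective e))
          (fun e => h3 (ρ.symm.injective e)) with h4 | h4
        · have h5 := hρN _ _ _ h4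
          rw [ρ.apply_symm_apply, ρ.apply_symm_apply, ρ.apply_symm_apply] at h5
          exact absurd h5 (cyc_asymm habc)
        · exact h4
      exact hf _ _ _ key
    obtain ⟨k, hk, hkε⟩ := density_pos h (ρ.symm.trans f) hg ε hε
    refine ⟨ρ.trans k, good_comp ρ k hρ hk, fun ξ => ?_⟩
    have h6 := hkε (ρ ξ)
    have h7 : (ρ.symm.trans f) (ρ ξ) = f ξ := congrArg f (ρ.symm_apply_apply ξ)
    rw [h7] at h6
    exact h6

end Pool.Agent.H100R2.SC
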