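import Pool.Agent.H100R2.SC.B4
import Pool.Agent.H100R2.SC.G1
import Pool.Agent.H100R2.SC.D2
import Pool.Agent.H100R2.SC.C12
import Pool.Agent.H100R2.SC.F1a

/-! F1: density in the whole homeomorphism group. -/

set_option autoImplicit false

namespace Pool.Agent.H100R2.SC

theorem density_all {Γ : Subgroup GG} (h : Fuchs Γ) (f : X ≃ₜ X) (ε : ℝ) (hε : 0 < ε) :
    ∃ k : X ≃ₜ X, Good Γ k ∧ ∀ ξ, dd (k ξ) (f ξ) < ε :=
  density_all_of orient cyc_total cyc_asymm cyc_ne good_comp density_pos reversing h f ε hε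

end Pool.Agent.H100R2.SC
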