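import Pool.Agent.H100R2.SC.Defs

/-! All tasks of the project (never import this file in a finished module). -/

set_option autoImplicit false

namespace Pool.Agent.H100R2.SC

open Filter Topology

/-! ## B: basics -/

-- B1
theorem smul_neg' (g : GG) (S : Arc) : g • (-S) = -(g • S) := sorry
theorem smul_le' (g : GG) (S T : Arc) : g • S ≤ g • T ↔ S ≤ T := sorry
theorem val_neg (S : Arc) (ξ : X) : (-S).val ξ = -(S.val ξ) := sorry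
theorem val_mono {S T : Arc} (h : S ≤ T) (ξ : X) : S.val ξ ≤ T.val ξ := sorry
theorem tr_mono {S T : Arc} (h : S ≤ T) : S.tr ≤ T.tr := sorry
theorem val_smul (g : GG) (ξ : X) : ∃ k : ℝ, 0 < k ∧ ∀ S : Arc, (g • S).val (g • ξ) = k * S.val ξ := sorry
theorem BB_smul (g : GG) (S T : Arc) : BB (g • S) (g • T) = BB S T := sorry
theorem BB_neg (S T : Arc) : BB (-S) T = - BB S T := sorry
theorem BB_comm (S T : Arc) : BB S T = BB T S := sorry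
theorem kap_smul (g : GG) (S T : Arc) : kap (g • S) (g • T) = kap S T := sorry
theorem kap_comm (S T : Arc) : kap S T = kap T S := sorry
theorem Del_smul_pos (g : GG) (h : 0 < dt g) (S T U : Arc) : Del (g • S) (g • T) (g • U) = Del S T U := sorry
theorem Del_smul_neg (g : GG) (h : dt g < 0) (S T U : Arc) : Del (g • S) (g • T) (g • U) = - Del S T U := sorry
theorem Del_rot (S T U : Arc) : Del S T U = Del T U S := sorry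
theorem Del_swap (S T U : Arc) : Del S U T = - Del S T U := sorry
theorem exists_smul_S0 (S : Arc) : ∃ g : GG, dt g = 1 ∧ g • S = S0 := sorry
theorem stab_comm (g h : GG) (S : Arc) (hg : 0 < dt g) (hh : 0 < dt h) (hgS : g • S = S)
    (hhS : h • S = S) : g * h = h * g := sorry
theorem fix_of_smul (g : GG) (S : Arc) (ξ : X) (hg : 0 < dt g) (hS : g • S = S) (h : S.val ξ = 0) :
    g • ξ = ξ := sorry

-- B2
theorem continuous_smul' (g : GG) : Continuous (fun ξ : X => g • ξ) := sorry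
theorem continuous_val_pos (S : Arc) : IsOpen {ξ : X | 0 < S.val ξ} := sorry
theorem dd_comm (a b : X) : dd a b = dd b a := sorry
theorem dd_self (a : X) : dd a a = 0 := sorry
theorem dd_nonneg (a b : X) : 0 ≤ dd a b := sorry
theorem dd_triangle (a b c : X) : dd a c ≤ dd a b + dd b c := sorry
theorem eq_of_dd {a b : X} (h : dd a b = 0) : a = b := sorry
theorem dd_ball (ξ : X) (ε : ℝ) (hε : 0 < ε) : {η : X | dd ξ η < ε} ∈ 𝓝 ξ := sorry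
theorem dd_nhds (ξ : X) (U : Set X) (hU : U ∈ 𝓝 ξ) : ∃ ε > 0, ∀ η, dd ξ η < ε → η ∈ U := sorry
theorem dd_lip (g : GG) : ∃ C : ℝ, 0 < C ∧ ∀ ξ η : X, dd (g • ξ) (g • η) ≤ C * dd ξ η := sorry
theorem dd_arc (S : Arc) (M : ℝ) (hM : 0 < M) (hS : S.tr ≤ -M) (ξ η : X)
    (h1 : 0 ≤ S.val ξ) (h2 : 0 ≤ S.val η) : dd ξ η ≤ 2 / M := sorry

-- B3
theorem mem_closure_of_dd (K : Set C(X, X)) (f : C(X, X))
    (h : ∀ ε : ℝ, 0 < ε → ∃ k ∈ K, ∀ ξ, dd (k ξ) (f ξ) < ε) : f ∈ closure K := sorry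

-- B4
theorem cyc_rot {a b c : X} (h : cyc a b c) : cyc b c a := sorry
theorem cyc_total {a b c : X} (hab : a ≠ b) (hbc : b ≠ c) (hca : c ≠ a) : cyc a b c ∨ cyc c b a := sorry
theorem cyc_asymm {a b c : X} (h : cyc a b c) : ¬ cyc c b a := sorry
theorem cyc_ne {a b c : X} (h : cyc a b c) : a ≠ b ∧ b ≠ c ∧ c ≠ a := sorry
theorem cyc_trans {a b c d : X} (h1 : cyc a b c) (h2 : cyc a c d) : cyc a b d ∧ cyc b c d := sorry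
theorem cyc_smul_pos (g : GG) (hg : 0 < dt g) : OrP (fun ξ : X => g • ξ) := sorry
theorem cyc_smul_neg (g : GG) (hg : dt g < 0) : OrN (fun ξ : X => g • ξ) := sorry
theorem orient (f : X ≃ₜ X) : OrP f ∨ OrN f := sorry
theorem arc_ends (S : Arc) : ∃ x y : X, x ≠ y ∧ S.val x = 0 ∧ S.val y = 0 ∧
    (∀ ξ, 0 < S.val ξ ↔ cyc x ξ y) ∧ (∀ ξ, S.val ξ < 0 ↔ cyc y ξ x) := sorry
theorem exists_arc (x y : X) (h : x ≠ y) : ∃ S : Arc, S.val x = 0 ∧ S.val y = 0 ∧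
    (∀ ξ, 0 < S.val ξ ↔ cyc x ξ y) ∧ (∀ ξ, S.val ξ < 0 ↔ cyc y ξ x) := sorry
theorem arc_le_iff (S T : Arc) : S ≤ T ↔ ∀ ξ, 0 < S.val ξ → 0 < T.val ξ := sorry

-- B5
theorem ax_conj_pos (g h : GG) (hg : 0 < dt g) (h1 : dt h = 1) (h2 : 4 < trc h ^ 2) :
    ax (g * h * g⁻¹) = g • ax h := sorry
theorem ax_conj_neg (g h : GG) (hg : dt g < 0) (h1 : dt h = 1) (h2 : 4 < trc h ^ 2) :
    ax (g * h * g⁻¹) = -(g • ax h) := sorry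
theorem trc_conj (g h : GG) : trc (g * h * g⁻¹) = trc h := sorry
theorem ax_inv (h : GG) (h1 : dt h = 1) (h2 : 4 < trc h ^ 2) : ax h⁻¹ = -(ax h) := sorry
theorem ax_smul (h : GG) (h1 : dt h = 1) (h2 : 4 < trc h ^ 2) : h • ax h = ax h := sorry
theorem ax_val (h : GG) (h1 : dt h = 1) (h2 : 4 < trc h ^ 2) (ξ : X) :
    (ax h).val ξ = 0 ↔ h • ξ = ξ := sorry
theorem ax_inj (g h : GG) (g1 : dt g = 1) (g2 : 4 < trc g ^ 2) (h1 : dt h = 1) (h2 : 4 < trc h ^ 2)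
    (hax : ax g = ax h) (ht : trc g = trc h) : g = h := sorry
theorem ax_pow (h : GG) (h1 : dt h = 1) (h2 : 4 < trc h ^ 2) (n : ℕ) (hn : 0 < n) :
    dt (h ^ n) = 1 ∧ 4 < trc (h ^ n) ^ 2 ∧ ax (h ^ n) = ax h := sorry
theorem ax_attract (h : GG) (h1 : dt h = 1) (h2 : 4 < trc h ^ 2) :
    ∃ x y : X, x ≠ y ∧ (∀ ξ, 0 < (ax h).val ξ ↔ cyc x ξ y) ∧ h • x = x ∧ h • y = y ∧
      ∀ ξ, ξ ≠ y → Tendsto (fun n : ℕ => (h ^ n) • ξ) atTop (𝓝 x) := sorry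

-- B6
theorem kap_ge (S T : Arc) (h : S ≤ -T) : 1 ≤ kap S T := sorry
theorem BB_lt (S T : Arc) (h : S ≤ -T) (hne : ∀ ξ : X, ¬ (S.val ξ = 0 ∧ T.val ξ = 0)) : BB S T < -1 := sorry
theorem quad (S T U V : Arc) (h1 : S ≤ -T) (h2 : S ≤ -U) (h3 : S ≤ -V) (h4 : T ≤ -U) (h5 : T ≤ -V)
    (h6 : U ≤ -V) (c1 : 0 < Del S T U) (c2 : 0 < Del U V S) :
    kap S T * kap U V + kap T U * kap V S < kap S U * kap T V := sorry
theorem Del_ne (S T U : Arc) (h1 : S ≤ -T) (h2 : S ≤ -U) (h4 : T ≤ -U) : Del S T U ≠ 0 := sorry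
theorem Del_trans (S T U V : Arc) (h1 : S ≤ -T) (h2 : S ≤ -U) (h3 : S ≤ -V) (h4 : T ≤ -U) (h5 : T ≤ -V)
    (h6 : U ≤ -V) (c1 : 0 < Del S T U) (c2 : 0 < Del S U V) : 0 < Del S T V := sorry
theorem Del_cyc (S T U : Arc) (h1 : S ≤ -T) (h2 : S ≤ -U) (h4 : T ≤ -U) (a b c : X)
    (ha : 0 < S.val a) (hb : 0 < T.val b) (hc : 0 < U.val c) : 0 < Del S T U ↔ cyc a b c := sorry

-- B7
theorem exists_refl (S T : Arc) (h : BB S T < -1) :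
    ∃ ρ : GG, dt ρ = -1 ∧ ρ • S = S ∧ ρ • T = T ∧ ρ * ρ = 1 := sorry
theorem tr_le_of_BB (S T : Arc) (K : ℝ) (hK : 1 ≤ K) (h : T ≤ S) (hB : K ≤ BB T S) :
    T.tr ≤ S.tr - 2 * √(2 * K - 2) := sorry

-- B8
theorem nested_of_BB (S T : Arc) (h : 1 ≤ |BB S T|) : S ≤ T ∨ T ≤ S ∨ S ≤ -T ∨ -T ≤ S := sorry
theorem shift_pos (δ : GG) (h1 : dt δ = 1) (h2 : 4 < trc δ ^ 2) (T : Arc) (hT : T ≤ -(ax δ))
    (hd : T ≤ -(δ • T)) : 0 < Del (ax δ) T (δ • T) := sorry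
theorem shift_cover (δ : GG) (h1 : dt δ = 1) (h2 : 4 < trc δ ^ 2) (T K : Arc) (hT : T ≤ -(ax δ))
    (hK : K ≤ -(ax δ)) (hd : T ≤ -(δ • T)) (hdis : ∀ n : ℤ, δ ^ n • T ≠ K → δ ^ n • T ≤ -K) :
    ∃ n : ℤ, K = δ ^ n • T ∨ (0 < Del (ax δ) (δ ^ n • T) K ∧ 0 < Del (ax δ) K (δ ^ (n + 1) • T)) := sorry

/-! ## A: Fuchsian groups -/

-- A1
theorem fuchs_toGG (Γ : Subgroup (Matrix.SpecialLinearGroup (Fin 2) ℝ))
    (h1 : ∃ ε : ℝ, 0 < ε ∧ ∀ γ ∈ Γ,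
        (∀ i j : Fin 2, |(γ : Matrix (Fin 2) (Fin 2) ℝ) i j
            - (1 : Matrix (Fin 2) (Fin 2) ℝ) i j| < ε) → γ = 1)
    (h2 : ∀ γ ∈ Γ, ∀ n : ℕ, 0 < n → γ ^ n = 1 → γ = 1)
    (h3 : ∃ C : ℝ, ∀ A : Matrix.SpecialLinearGroup (Fin 2) ℝ, ∃ γ ∈ Γ, ∀ i j : Fin 2,
        |((γ⁻¹ * A : Matrix.SpecialLinearGroup (Fin 2) ℝ) : Matrix (Fin 2) (Fin 2) ℝ) i j| ≤ C) :
    Fuchs (toGG Γ) := sorry

-- A2
theorem hyp {Γ : Subgroup GG} (h : Fuchs Γ) {g : GG} (hg : g ∈ Γ) (h1 : g ≠ 1) : 4 < trc g ^ 2 := sorry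

-- A3
theorem fuchs_of_index {Γ A : Subgroup GG} (h : Fuchs Γ) (hA : A ≤ Γ) (hi : A.relIndex Γ ≠ 0) : Fuchs A := sorry

-- A4
theorem fuchs_fg {Γ : Subgroup GG} (h : Fuchs Γ) : Γ.FG := sorry

-- A5
theorem residually (Γ : Subgroup GG) (h : Γ.FG) (g : GG) (hg : g ∈ Γ) (h1 : g ≠ 1) :
    ∃ N : Subgroup GG, N ≤ Γ ∧ N.relIndex Γ ≠ 0 ∧ g ∉ N ∧ ∀ a ∈ Γ, ∀ n ∈ N, a * n * a⁻¹ ∈ N := sorry

-- A6
theorem lf_orbit {Γ : Subgroup GG} (h : Fuchs Γ) (α : GG) (hα : α ∈ Γ) (h1 : α ≠ 1) (M : ℝ) :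
    {T : Arc | (∃ g ∈ Γ, T = g • ax α) ∧ |T.tr| ≤ M}.Finite := sorry
theorem cocompact_arc {Γ : Subgroup GG} (h : Fuchs Γ) : ∃ M : ℝ, ∀ S : Arc, ∃ a ∈ Γ, |(a • S).tr| ≤ M := sorry
theorem dbl (α : GG) (h1 : dt α = 1) (h2 : 4 < trc α ^ 2) (L : Set Arc)
    (hinv : ∀ n : ℤ, ∀ T ∈ L, α ^ n • T ∈ L) (lf : ∀ M : ℝ, {S | S ∈ L ∧ |S.tr| ≤ M}.Finite)
    (ne : ∀ T ∈ L, ∀ ξ : X, (ax α).val ξ = 0 → T.val ξ = 0 → T = ax α ∨ T = -(ax α)) (K : ℝ) :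
    ∃ F : Finset Arc, (∀ T ∈ F, T ∈ L) ∧ ∀ T ∈ L, |BB T (ax α)| ≤ K → ∃ n : ℤ, ∃ T' ∈ F, T = α ^ n • T' := sorry

-- A7
theorem exists_gen {A : Subgroup GG} (h : Fuchs A) (α : GG) (hα : α ∈ A) (h1 : α ≠ 1) :
    ∃ β, IsGen A (ax α) β := sorry
theorem no_flip {A : Subgroup GG} (h : Fuchs A) (α : GG) (hα : α ∈ A) (h1 : α ≠ 1) (g : GG) (hg : g ∈ A) :
    g • ax α ≠ -(ax α) := sorry
theorem ax_ne {A : Subgroup GG} (h : Fuchs A) (α β : GG) (hα : α ∈ A) (h1 : α ≠ 1) (hβ : β ∈ A)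
    (h2 : β ≠ 1) (ξ : X) (e1 : (ax α).val ξ = 0) (e2 : (ax β).val ξ = 0) : ax α = ax β ∨ ax α = -(ax β) := sorry

-- A8
theorem sep {Γ : Subgroup GG} (h : Fuchs Γ) (α : GG) (hα : α ∈ Γ) (h1 : α ≠ 1) (K : ℝ) :
    ∃ A : Subgroup GG, A ≤ Γ ∧ A.relIndex Γ ≠ 0 ∧ α ∈ A ∧
      ∀ g ∈ A, g • ax α = ax α ∨ K ≤ |BB (g • ax α) (ax α)| := sorry

-- A9
theorem pairs {Γ : Subgroup GG} (h : Fuchs Γ) (U V : Set X) (hU : IsOpen U) (hV : IsOpen V)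
    (nU : U.Nonempty) (nV : V.Nonempty) :
    ∃ β ∈ Γ, β ≠ 1 ∧ ∃ x ∈ V, ∃ y ∈ U, x ≠ y ∧ (∀ ξ, 0 < (ax β).val ξ ↔ cyc x ξ y) ∧ β • x = x ∧ β • y = y ∧
      ∀ ξ, ξ ≠ y → Tendsto (fun n : ℕ => (β ^ n) • ξ) atTop (𝓝 x) := sorry

-- A10
theorem good_pack (Γ : Subgroup (Matrix.SpecialLinearGroup (Fin 2) ℝ)) (hΓ : Fuchs (toGG Γ))
    (h : X ≃ₜ X) (hg : Good (toGG Γ) h) :
    ∃ H K : Subgroup (Matrix.SpecialLinearGroup (Fin 2) ℝ),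
      H ≤ Γ ∧ K ≤ Γ ∧ (H.subgroupOf Γ).index ≠ 0 ∧ (K.subgroupOf Γ).index ≠ 0 ∧
      ∃ φ : H ≃* K, ∀ g : H, ∀ x y : ℝ,
        ((g : Matrix.SpecialLinearGroup (Fin 2) ℝ) : Matrix (Fin 2) (Fin 2) ℝ) 1 0 * x
          + ((g : Matrix.SpecialLinearGroup (Fin 2) ℝ) : Matrix (Fin 2) (Fin 2) ℝ) 1 1 ≠ 0 →
        h (OnePoint.some x) = OnePoint.some y →
        (((φ g : K) : Matrix.SpecialLinearGroup (Fin 2) ℝ) : Matrix (Fin 2) (Fin 2) ℝ) 1 0 * y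
          + (((φ g : K) : Matrix.SpecialLinearGroup (Fin 2) ℝ) : Matrix (Fin 2) (Fin 2) ℝ) 1 1 ≠ 0 →
        h (OnePoint.some
            ((((g : Matrix.SpecialLinearGroup (Fin 2) ℝ) : Matrix (Fin 2) (Fin 2) ℝ) 0 0 * x
              + ((g : Matrix.SpecialLinearGroup (Fin 2) ℝ) : Matrix (Fin 2) (Fin 2) ℝ) 0 1) /
             (((g : Matrix.SpecialLinearGroup (Fin 2) ℝ) : Matrix (Fin 2) (Fin 2) ℝ) 1 0 * x
              + ((g : Matrix.SpecialLinearGroup (Fin 2) ℝ) : Matrix (Fin 2) (Fin 2) ℝ) 1 1)))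
          = OnePoint.some
            (((((φ g : K) : Matrix.SpecialLinearGroup (Fin 2) ℝ) : Matrix (Fin 2) (Fin 2) ℝ) 0 0 * y
              + (((φ g : K) : Matrix.SpecialLinearGroup (Fin 2) ℝ) : Matrix (Fin 2) (Fin 2) ℝ) 0 1) /
             ((((φ g : K) : Matrix.SpecialLinearGroup (Fin 2) ℝ) : Matrix (Fin 2) (Fin 2) ℝ) 1 0 * y
              + (((φ g : K) : Matrix.SpecialLinearGroup (Fin 2) ℝ) : Matrix (Fin 2) (Fin 2) ℝ) 1 1)) := sorry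

/-! ## T: the tree of a nested family -/

-- T1
theorem adj_symm {L : Set Arc} (hL : Nest L) {S T : Arc} (h : Adj L S T) : Adj L T S := sorry
theorem adj_trans {L : Set Arc} (hL : Nest L) {S T U : Arc} (h1 : Adj L S T) (h2 : Adj L T U) : Adj L S U := sorry
theorem adj_smul {A : Subgroup GG} {L : Set Arc} (hL : Fam A L) {a : GG} (ha : a ∈ A) {S T : Arc} :
    Adj L (a • S) (a • T) ↔ Adj L S T := sorry
/-- every geodesic of `L` is on or behind exactly one bounding geodesic of the region of `S` -/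
theorem region_cover {L : Set Arc} (hL : Nest L) {S K : Arc} (hS : S ∈ L) (hK : K ∈ L) :
    ∃ U, Adj L S U ∧ (K ≤ U ∨ -K ≤ U) := sorry
theorem conn {L : Set Arc} (hL : Nest L) (P : Arc → Prop) {S₀ : Arc} (hS : S₀ ∈ L) (h0 : P S₀)
    (hneg : ∀ S ∈ L, P S → P (-S)) (hadj : ∀ S T, Adj L S T → P S → P T) : ∀ S ∈ L, P S := sorry

-- T2
theorem potential {L : Set Arc} (hL : Nest L) (τ : Arc → GG) (hτ : ∀ S ∈ L, τ (-S) = (τ S)⁻¹)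
    {S₀ : Arc} (hS : S₀ ∈ L) :
    ∃ F : Arc → GG, F S₀ = 1 ∧ (∀ S ∈ L, F (-S) = F S * τ S) ∧ (∀ S T, Adj L S T → F S = F T) := sorry

/-! ## X: piecewise Möbius homeomorphisms of the circle -/

-- X1
theorem homeoX {L : Set Arc} (hL : Nest L) (hne : L.Nonempty) {τ F : Arc → GG} (h : PM L τ F) :
    ∃ f : X ≃ₜ X, IsPM L F f := sorry

-- X2
theorem homeoX_unique {L : Set Arc} (hL : Nest L) (hne : L.Nonempty) {τ F : Arc → GG} (h : PM L τ F)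
    (f f' : X → X) (hf : IsPM L F f) (hf' : IsPM L F f') : f = f' := sorry

theorem conjX {A : Subgroup GG} {L : Set Arc} (hL : Fam A L) {τ F : Arc → GG} (h : PM L τ F)
    (hτ : ∀ a ∈ A, ∀ S ∈ L, τ (a • S) = a * τ S * a⁻¹) (f : X → X) (hf : IsPM L F f) :
    ∀ a ∈ A, ∃ g : GG, (∀ S ∈ L, F (a • S) * a = g * F S) ∧ ∀ ξ : X, f (a • ξ) = g • f ξ := sorry

/-! ## H, D: density in the orientation preserving homeomorphisms -/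

-- H1
theorem halfTranslation {Γ : Subgroup GG} (h : Fuchs Γ) (α : GG) (hα : α ∈ Γ) (h1 : α ≠ 1) (k : ℤ)
    (ε : ℝ) (hε : 0 < ε) :
    ∃ f : X ≃ₜ X, Good Γ f ∧ OrP f ∧ (∀ ξ, 0 ≤ (ax α).val ξ → dd (f ξ) (α ^ k • ξ) < ε) ∧
      (∀ ξ, (ax α).val ξ ≤ 0 → dd (f ξ) ξ < ε) := sorry

-- G1
theorem good_refl (Γ : Subgroup GG) : Good Γ (Homeomorph.refl X) := sorry
theorem good_comp {Γ : Subgroup GG} (f g : X ≃ₜ X) (hf : Good Γ f) (hg : Good Γ g) : Good Γ (f.trans g) := sorry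

-- D1
theorem move {Γ : Subgroup GG} (h : Fuchs Γ) (S : Arc) (z v : X) (hz : 0 < S.val z) (hv : 0 < S.val v)
    (V : Set X) (hV : IsOpen V) (hvV : v ∈ V) (ε : ℝ) (hε : 0 < ε) :
    ∃ f : X ≃ₜ X, Good Γ f ∧ OrP f ∧ f z ∈ V ∧ ∀ ξ, S.val ξ ≤ 0 → dd (f ξ) ξ < ε := sorry

-- D2
theorem density_pos {Γ : Subgroup GG} (h : Fuchs Γ) (f : X ≃ₜ X) (hf : OrP f) (ε : ℝ) (hε : 0 < ε) :
    ∃ k : X ≃ₜ X, Good Γ k ∧ ∀ ξ, dd (k ξ) (f ξ) < ε := sorry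

/-! ## C: reflective families (pants decompositions) -/

-- C0
theorem exists_adj_ne {A : Subgroup GG} {L : Set Arc} (hA : Fuchs A) (hL : Fam A L) (S : Arc) (hS : S ∈ L) :
    ∃ T, Adj L S T ∧ T ≠ S := sorry
theorem initFam {Γ : Subgroup GG} (hΓ : Fuchs Γ) :
    ∃ (A : Subgroup GG) (L : Set Arc), A ≤ Γ ∧ A.relIndex Γ ≠ 0 ∧ Fam A L := sorry

-- C1
theorem add_adj_iff {A : Subgroup GG} {L : Set Arc} (hL : Fam A L) (D : Arc)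
    (hL' : Fam A (L ∪ Orb A D)) (hDL : D ∉ L) (H : Arc) (hH : H ∈ L)
    (hD : ∀ U, Adj L H U → U ≤ D ∨ U ≤ -D) (S : Arc) (hS : S ∈ L) (hn : ∀ a ∈ A, ¬ Adj L H (a • S)) (T : Arc) :
    Adj (L ∪ Orb A D) S T ↔ Adj L S T := sorry

-- C2
theorem near_mixed {A : Subgroup GG} {L : Set Arc} (hA : Fuchs A) (hL : Fam A L) (S T : Arc)
    (hT : Adj L S T) (hm : ∀ a ∈ A, a • S ≠ T) :
    ∃ H H', Adj L S H ∧ Adj L S H' ∧ (∀ a ∈ A, a • H ≠ H') ∧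
      ∀ U V, Adj L S U → Adj L S V → (∀ a ∈ A, a • U ≠ V) → kap H H' ≤ kap U V := sorry
theorem near_any {A : Subgroup GG} {L : Set Arc} (hA : Fuchs A) (hL : Fam A L) (S : Arc) (hS : S ∈ L) :
    ∃ H H', Adj L S H ∧ Adj L S H' ∧ H ≠ H' ∧
      ∀ U V, Adj L S U → Adj L S V → U ≠ V → kap H H' ≤ kap U V := sorry

-- C3
theorem unl_mixed {A : Subgroup GG} {L : Set Arc} (hA : Fuchs A) (hL : Fam A L) (H H' : Arc)
    (h : Adj L H H') (hm : ∀ a ∈ A, a • H ≠ H')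
    (hmin : ∀ U V, Adj L H U → Adj L H V → (∀ a ∈ A, a • U ≠ V) → kap H H' ≤ kap U V) : Unl A L H H' := sorry
theorem unl_any {A : Subgroup GG} {L : Set Arc} (hA : Fuchs A) (hL : Fam A L) (H H' : Arc)
    (h : Adj L H H') (hm : H ≠ H')
    (hmin : ∀ U V, Adj L H U → Adj L H V → U ≠ V → kap H H' ≤ kap U V) : Unl A L H H' := sorry

-- C4
theorem loc1 {A : Subgroup GG} {L : Set Arc} (hA : Fuchs A) (hL : Fam A L) (H H' : Arc)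
    (h : Adj L H H') (hne : H ≠ H') (α β : GG) (hα : α ∈ A) (hβ : β ∈ A) (h1 : α ≠ 1) (h2 : β ≠ 1)
    (e1 : ax α = H) (e2 : ax β = H') (D : Arc) (hD : D = ax (β * α)⁻¹) :
    β * α ≠ 1 ∧ D ≤ -H ∧ D ≤ -H' ∧ D ≤ -(α⁻¹ • H') ∧ D ≤ -(β • H) ∧
      0 < Del H (α⁻¹ • H') D ∧ 0 < Del H D (β • H) ∧ 0 < Del H (β • H) H' := sorry

-- C4b
theorem loc2 {A : Subgroup GG} {L : Set Arc} (hA : Fuchs A) (hL : Fam A L) (H : Arc) (e : GG) (he : e ∈ A)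
    (h : Adj L H (e • H)) (hne : e • H ≠ H) (hcyc : 0 < Del H (e • H) (e⁻¹ • H)) :
    ax e ≤ -H ∧ ax e ≤ -(e • H) ∧ ax e ≤ -(e⁻¹ • H) ∧ 0 < Del H (e • H) (ax e) ∧ 0 < Del H (ax e) (e⁻¹ • H) := sorry

-- C4c
theorem axis_in_region {A : Subgroup GG} {L : Set Arc} (hA : Fuchs A) (hL : Fam A L) (H : Arc) (hH : H ∈ L)
    (δ : GG) (hδ : δ ∈ A) (h1 : δ ≠ 1) (hs : Adj L H (δ • H)) :
    ∀ U, Adj L H U → U ≤ ax δ ∨ U ≤ -(ax δ) := sorry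
theorem axis_mem {A : Subgroup GG} {L : Set Arc} (hA : Fuchs A) (hL : Fam A L) (H : Arc) (hH : H ∈ L)
    (δ : GG) (hδ : δ ∈ A) (h1 : δ ≠ 1) (hs : Adj L H (δ • H)) (hm : ax δ ∈ L) :
    Adj L H (ax δ) ∨ Adj L H (-(ax δ)) := sorry

-- C5a
theorem edge1 {A : Subgroup GG} {L : Set Arc} (hA : Fuchs A) (hL : Fam A L) (H H' : Arc)
    (h : Adj L H H') (hm : ∀ a ∈ A, a • H ≠ H') (hu : Unl A L H H') (α β : GG) (gα : IsGen A H α)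
    (gβ : IsGen A H' β) (D : Arc) (hD : D = ax (β * α)⁻¹) (hDL : D ∉ L) : EdgeSep A L H H' D := sorry

-- C5b
theorem edge2 {A : Subgroup GG} {L : Set Arc} (hA : Fuchs A) (hL : Fam A L) (H : Arc) (e α : GG)
    (he : e ∈ A) (gα : IsGen A H α) (h : Adj L H (e • H)) (hne : e • H ≠ H) (hu : Unl A L H (e • H))
    (c1 : 0 < Del H (e • H) (e⁻¹ • H)) (c2 : 0 < Del H (e⁻¹ • H) (α • e • H)) (hDL : ax e ∉ L) :
    EdgeSep A L H (e • H) (ax e) := sorry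

-- C5c
theorem side_lemma {A : Subgroup GG} {L : Set Arc} (hA : Fuchs A) (hL : Fam A L) (H : Arc) (hH : H ∈ L)
    (δ : GG) (hδ : δ ∈ A) (h1 : δ ≠ 1) (hs : Adj L H (δ • H)) (hDL : ax δ ∉ L)
    (hside : ∀ c ∈ A, Adj L H (c • H) → (c • H ≤ ax δ ↔ c • δ • H ≤ ax δ)) :
    ∀ c ∈ A, Adj L H (c • H) →
      (c • H ≤ ax δ → (c • ax δ ≤ ax δ ∨ -(c • ax δ) ≤ ax δ)) ∧
      (¬ c • H ≤ ax δ → (c • ax δ ≤ -(ax δ) ∨ -(c • ax δ) ≤ -(ax δ))) := sorry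

-- C5d
theorem add_fam {A : Subgroup GG} {L : Set Arc} (hA : Fuchs A) (hL : Fam A L) (H : Arc) (hH : H ∈ L)
    (δ : GG) (hδ : δ ∈ A) (h1 : δ ≠ 1) (hs : Adj L H (δ • H)) (hDL : ax δ ∉ L)
    (hn : ∀ c ∈ A, Adj L H (c • H) → (c • ax δ ≤ ax δ ∨ ax δ ≤ c • ax δ ∨ c • ax δ ≤ -(ax δ) ∨ -(ax δ) ≤ c • ax δ)) :
    Fam A (L ∪ Orb A (ax δ)) := sorry
theorem add_adj {A : Subgroup GG} {L : Set Arc} (hA : Fuchs A) (hL : Fam A L) (H : Arc) (hH : H ∈ L)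
    (δ : GG) (hδ : δ ∈ A) (h1 : δ ≠ 1) (hs : Adj L H (δ • H)) (hDL : ax δ ∉ L) (hHD : H ≤ -(ax δ))
    (hn : ∀ c ∈ A, Adj L H (c • H) →
      (c • H ≤ ax δ → (c • ax δ ≤ ax δ ∨ -(c • ax δ) ≤ ax δ)) ∧
      (¬ c • H ≤ ax δ → (c • ax δ ≤ -(ax δ) ∨ -(c • ax δ) ≤ -(ax δ)))) :
    Adj (L ∪ Orb A (ax δ)) H (ax δ) ∧
    ∀ H', Adj L H H' → (∀ c ∈ A, Adj L H (c • H) → (c • H ≤ ax δ ↔ c • H' ≤ ax δ)) →
      Adj (L ∪ Orb A (ax δ)) H H' := sorry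

-- C5e
theorem caseOne {A : Subgroup GG} {L : Set Arc} (hA : Fuchs A) (hL : Fam A L) (H H' : Arc)
    (h : Adj L H H') (hm : ∀ a ∈ A, a • H ≠ H') (hu : Unl A L H H') (α β : GG) (gα : IsGen A H α)
    (gβ : IsGen A H' β) (D : Arc) (hD : D = ax (β * α)⁻¹) (hDL : D ∉ L) :
    Fam A (L ∪ Orb A D) ∧ Adj (L ∪ Orb A D) H H' ∧ Adj (L ∪ Orb A D) H D ∧
      (∀ U, Adj L H U → U ≤ D ∨ U ≤ -D) := sorry

-- C5f
theorem caseTwo {A : Subgroup GG} {L : Set Arc} (hA : Fuchs A) (hL : Fam A L) (H : Arc) (e α : GG)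
    (he : e ∈ A) (gα : IsGen A H α) (h : Adj L H (e • H)) (hne : e • H ≠ H) (hu : Unl A L H (e • H))
    (c1 : 0 < Del H (e • H) (e⁻¹ • H)) (c2 : 0 < Del H (e⁻¹ • H) (α • e • H))
    (hone : ∀ T, Adj L H T → ∃ a ∈ A, T = a • H) :
    ax e ∉ L ∧ Fam A (L ∪ Orb A (ax e)) ∧ Adj (L ∪ Orb A (ax e)) H (ax e) ∧
      (∀ U, Adj L H U → U ≤ ax e ∨ U ≤ -(ax e)) := sorry

-- C6
theorem pantsRefl {A : Subgroup GG} {L : Set Arc} (hA : Fuchs A) (hL : Fam A L) (H H' : Arc)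
    (h : Adj L H H') (hm : ∀ a ∈ A, a • H ≠ H') (α β : GG) (gα : IsGen A H α)
    (gβ : IsGen A H' β) (D : Arc) (hD : D = ax (β * α)⁻¹) (hDa : Adj L H D)
    (hmin : ∀ a ∈ A, ∀ b ∈ A, Adj L H (a • H) → Adj L H (b • H') → kap H H' ≤ kap (a • H) (b • H')) :
    Refl A L H := sorry

-- C7
theorem single_setup {A : Subgroup GG} {L : Set Arc} (hA : Fuchs A) (hL : Fam A L) (S : Arc) (hS : S ∈ L)
    (hone : ∀ T, Adj L S T → ∃ a ∈ A, T = a • S) :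
    ∃ H e α, Adj L S H ∧ e ∈ A ∧ IsGen A H α ∧ Adj L H (e • H) ∧ e • H ≠ H ∧ Unl A L H (e • H) ∧
      0 < Del H (e • H) (e⁻¹ • H) ∧ 0 < Del H (e⁻¹ • H) (α • e • H) := sorry

-- C8
theorem bound {A : Subgroup GG} (hA : Fuchs A) : ∃ N : ℕ, ∀ L : Set Arc, Fam A L → ∀ s : Finset Arc,
    (∀ S ∈ s, S ∈ L) → (∀ S ∈ s, ∀ T ∈ s, S ≠ T → ∀ a ∈ A, ¬ Adj L S (a • T)) → s.card ≤ N := sorry

-- C9
theorem allRefl {Γ : Subgroup GG} (hΓ : Fuchs Γ) :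
    ∃ (A : Subgroup GG) (L : Set Arc), A ≤ Γ ∧ A.relIndex Γ ≠ 0 ∧ Fam A L ∧ ∀ S ∈ L, Refl A L S := sorry

-- C10
theorem chooseN {A : Subgroup GG} {L : Set Arc} (hA : Fuchs A) (hL : Fam A L) (hr : ∀ S ∈ L, Refl A L S) :
    ∃ N, IsN A L N := sorry

-- C11
theorem chooseTau {A : Subgroup GG} {L : Set Arc} (hA : Fuchs A) (hL : Fam A L) (N : Arc → Set GG)
    (hN : IsN A L N) :
    ∃ τ : Arc → GG, (∀ S ∈ L, τ (-S) = (τ S)⁻¹) ∧ (∀ a ∈ A, ∀ S ∈ L, τ (a • S) = a * τ S * a⁻¹) ∧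
      ∀ S ∈ L, ∃ n ∈ N S, ∃ n' ∈ N (-S), n • S = S ∧ n' • S = S ∧ τ S = n⁻¹ * n' := sorry

-- C12
theorem reversing {Γ : Subgroup GG} (hΓ : Fuchs Γ) : ∃ f : X ≃ₜ X, Good Γ f ∧ OrN f := sorry

/-! ## final -/

-- F1
theorem density_all {Γ : Subgroup GG} (h : Fuchs Γ) (f : X ≃ₜ X) (ε : ℝ) (hε : 0 < ε) :
    ∃ k : X ≃ₜ X, Good Γ k ∧ ∀ ξ, dd (k ξ) (f ξ) < ε := sorry

end Pool.Agent.H100R2.SC
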